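import Pool.Agent.Subspace.AvStep
import Pool.Agent.DigitPowers.Changes

/-!
# The harmonic bound with exponent `ε`
-/

namespace SST

open Pool.Agent.DigitPowers

/-- Multiplication by a power of `q` does not increase the number of far levels. -/
lemma card_farSet_pow_mul_le {q : ℕ} (hq : 2 ≤ q) (F : ℕ) (x : ℤ) :
    (farSet q 0 ((q : ℤ) ^ F * x)).card ≤ (farSet q 0 x).card := by
  classical
  have hq0 : (0 : ℤ) < (q : ℤ) := by exact_mod_cast (by omega : 0 < q)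
  have hqF : (0 : ℤ) < (q : ℤ) ^ F := by positivity
  have hsub : farSet q 0 ((q : ℤ) ^ F * x) ⊆ (farSet q 0 x).image (fun m => m + F) := by
    intro l hl
    rw [mem_farSet hq] at hl
    by_cases hlF : l ≤ F
    · exfalso
      apply hl
      refine ⟨(q : ℤ) ^ (F - l) * x, ?_⟩
      have e : (q : ℤ) ^ F * x - (q : ℤ) ^ (F - l) * x * (q : ℤ) ^ l = 0 := by
        have : (q : ℤ) ^ F = (q : ℤ) ^ (F - l) * (q : ℤ) ^ l := by
          rw [← pow_add]; congr 1; omega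
        rw [this]; ring
      rw [e, abs_zero, mul_zero]
      positivity
    · obtain ⟨m, rfl⟩ : ∃ m, l = m + F := ⟨l - F, by omega⟩
      rw [Finset.mem_image]
      refine ⟨m, ?_, rfl⟩
      rw [mem_farSet hq]
      rintro ⟨a, ha⟩
      apply hl
      refine ⟨a, ?_⟩
      have e : (q : ℤ) ^ F * x - a * (q : ℤ) ^ (m + F)
          = (q : ℤ) ^ F * (x - a * (q : ℤ) ^ m) := by ring
      rw [e, abs_mul, abs_of_pos hqF]
      calc ((q : ℤ) + 1) * (q : ℤ) ^ 0 * ((q : ℤ) ^ F * |x - a * (q : ℤ) ^ m|)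
          = (q : ℤ) ^ F * (((q : ℤ) + 1) * (q : ℤ) ^ 0 * |x - a * (q : ℤ) ^ m|) := by ring
        _ < (q : ℤ) ^ F * (q : ℤ) ^ m := mul_lt_mul_of_pos_left ha hqF
        _ = (q : ℤ) ^ (m + F) := by ring
  exact (Finset.card_le_card hsub).trans Finset.card_image_le

lemma pot_nonneg (p q T : ℕ) (α : ℝ) (x : ℤ) (J : ℕ) : 0 ≤ pot p q T α x J :=
  Finset.sum_nonneg fun _ _ => Real.rpow_nonneg (by positivity) _

lemma pot_mono (p q T : ℕ) (α : ℝ) (x : ℤ) {J J' : ℕ} (h : J ≤ J') :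
    pot p q T α x J ≤ pot p q T α x J' :=
  Finset.sum_le_sum_of_subset_of_nonneg (Finset.range_subset_range.2 h)
    fun _ _ _ => Real.rpow_nonneg (by positivity) _

/-- Iteration of the scale step. -/
lemma iterate_step {p q : ℕ} {α C₁ : ℝ} (hC₁ : 1 ≤ C₁) {M T₀ c : ℕ} (hM : 2 ≤ M)
    (hc : 1 ≤ Real.logb q p * c)
    (hstep : ∀ T' : ℕ, T₀ ≤ T' → ∀ (J L : ℕ) (x : ℤ), x ≠ 0 →
      (M * T' : ℝ) ≤ Real.logb q p * L →
      (p : ℤ) ^ L ∣ x → (q : ℤ) ^ (5 * M * T') ∣ x →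
      pot p q T' α x J ≤ C₁ * pot p q (M * T') α x (J + 2 * L))
    (n : ℕ) : ∀ (J : ℕ) (x : ℤ), x ≠ 0 → (p : ℤ) ^ (c * (M ^ n * T₀)) ∣ x →
      (q : ℤ) ^ (5 * (M ^ n * T₀)) ∣ x →
      pot p q T₀ α x J ≤ C₁ ^ n * pot p q (M ^ n * T₀) α x (J + 4 * (c * (M ^ n * T₀))) := by
  induction n with
  | zero =>
    intro J x _ _ _
    simp only [pow_zero, one_mul]
    exact pot_mono _ _ _ _ _ (by omega)
  | succ n ih =>
    intro J x hx hpx hqx
    have hM0 : 0 < M := by omega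
    have hle : M ^ n * T₀ ≤ M ^ (n + 1) * T₀ :=
      Nat.mul_le_mul_right _ (Nat.pow_le_pow_right hM0 (by omega))
    have h1 := ih J x hx ((pow_dvd_pow _ (Nat.mul_le_mul_left _ hle)).trans hpx)
      ((pow_dvd_pow _ (Nat.mul_le_mul_left _ hle)).trans hqx)
    have e1 : M * (M ^ n * T₀) = M ^ (n + 1) * T₀ := by ring
    have h2 := hstep (M ^ n * T₀) (Nat.le_mul_of_pos_left _ (by positivity))
      (J + 4 * (c * (M ^ n * T₀))) (c * (M ^ (n + 1) * T₀)) x hx (by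
        have h3 : (0 : ℝ) ≤ ((M ^ (n + 1) * T₀ : ℕ) : ℝ) := Nat.cast_nonneg _
        have h4 : ((M : ℝ) * ((M ^ n * T₀ : ℕ) : ℝ)) = ((M ^ (n + 1) * T₀ : ℕ) : ℝ) := by
          rw [← e1]; push_cast; ring
        rw [h4]
        calc ((M ^ (n + 1) * T₀ : ℕ) : ℝ) = 1 * ((M ^ (n + 1) * T₀ : ℕ) : ℝ) := by ring
          _ ≤ (Real.logb q p * c) * ((M ^ (n + 1) * T₀ : ℕ) : ℝ) :=
              mul_le_mul_of_nonneg_right hc h3
          _ = Real.logb q p * ((c * (M ^ (n + 1) * T₀) : ℕ) : ℝ) := by push_cast; ring) hpx (by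
        have e2 : 5 * M * (M ^ n * T₀) = 5 * (M ^ (n + 1) * T₀) := by ring
        rw [e2]; exact hqx)
    rw [e1] at h2
    have h5 : J + 4 * (c * (M ^ n * T₀)) + 2 * (c * (M ^ (n + 1) * T₀))
        ≤ J + 4 * (c * (M ^ (n + 1) * T₀)) := by
      have h6 : 2 * (c * (M ^ n * T₀)) ≤ c * (M ^ (n + 1) * T₀) := by
        calc 2 * (c * (M ^ n * T₀)) ≤ M * (c * (M ^ n * T₀)) := Nat.mul_le_mul_right _ hM
          _ = c * (M ^ (n + 1) * T₀) := by ring
      omega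
    calc pot p q T₀ α x J
        ≤ C₁ ^ n * pot p q (M ^ n * T₀) α x (J + 4 * (c * (M ^ n * T₀))) := h1
      _ ≤ C₁ ^ n * (C₁ * pot p q (M ^ (n + 1) * T₀) α x
            (J + 4 * (c * (M ^ n * T₀)) + 2 * (c * (M ^ (n + 1) * T₀)))) :=
          mul_le_mul_of_nonneg_left h2 (by positivity)
      _ ≤ C₁ ^ n * (C₁ * pot p q (M ^ (n + 1) * T₀) α x
            (J + 4 * (c * (M ^ (n + 1) * T₀)))) := by
          refine mul_le_mul_of_nonneg_left ?_ (by positivity)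
          exact mul_le_mul_of_nonneg_left (pot_mono _ _ _ _ _ h5) (by linarith)
      _ = _ := by ring

/-- The trivial bound for the potential at the top scale. -/
lemma pot_le_trivial {p q : ℕ} (hp : 2 ≤ p) (hq : 2 ≤ q) {T : ℕ} (hT : 1 ≤ T) {α : ℝ}
    (hα : 0 < α) {x : ℤ} (hx : x ≠ 0) (J : ℕ) :
    pot p q T α x J ≤ J * (T : ℝ) ^ (-α) := by
  unfold pot
  have hT0 : (0 : ℝ) < T := by exact_mod_cast hT
  calc ∑ t ∈ Finset.range J, ((T : ℝ) * ((cells q T ((p : ℤ) ^ t * x)).card : ℝ)) ^ (-α)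
      ≤ ∑ t ∈ Finset.range J, (T : ℝ) ^ (-α) := by
        apply Finset.sum_le_sum
        intro t _
        have hpx : (p : ℤ) ^ t * x ≠ 0 := by
          have : (p : ℤ) ≠ 0 := by exact_mod_cast (by omega : p ≠ 0)
          exact mul_ne_zero (pow_ne_zero _ this) hx
        have h1 : 1 ≤ (cells q T ((p : ℤ) ^ t * x)).card :=
          Finset.card_pos.2 (cells_nonempty hq T hpx)
        have h2 : (1 : ℝ) ≤ ((cells q T ((p : ℤ) ^ t * x)).card : ℝ) := by exact_mod_cast h1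
        refine Real.rpow_le_rpow_of_nonpos hT0 ?_ (by linarith)
        nlinarith
    _ = J * (T : ℝ) ^ (-α) := by rw [Finset.sum_const, Finset.card_range, nsmul_eq_mul]

/-- The harmonic sum is bounded by the potential at the bottom scale. -/
lemma harmonic_le_pot {p q : ℕ} (hp : 2 ≤ p) (hq : 2 ≤ q) {T : ℕ} (hT : 1 ≤ T) {α : ℝ}
    (hα1 : α ≤ 1) {A : ℤ} (hA : A ≠ 0) (E F J : ℕ) :
    ∑ t ∈ Finset.range J, 1 / (farN p q A 0 (E + t) : ℝ)
      ≤ (T : ℝ) ^ α * pot p q T α ((q : ℤ) ^ F * ((p : ℤ) ^ E * A)) J := by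
  unfold pot
  have hT0 : (0 : ℝ) < T := by exact_mod_cast hT
  have hp0 : (p : ℤ) ≠ 0 := by exact_mod_cast (by omega : p ≠ 0)
  have hq0 : (q : ℤ) ≠ 0 := by exact_mod_cast (by omega : q ≠ 0)
  rw [Finset.mul_sum]
  apply Finset.sum_le_sum
  intro t _
  set y : ℤ := (p : ℤ) ^ t * ((q : ℤ) ^ F * ((p : ℤ) ^ E * A)) with hy
  have hy0 : y ≠ 0 :=
    mul_ne_zero (pow_ne_zero _ hp0) (mul_ne_zero (pow_ne_zero _ hq0)
      (mul_ne_zero (pow_ne_zero _ hp0) hA))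
  have h1 : 1 ≤ (cells q T y).card := Finset.card_pos.2 (cells_nonempty hq T hy0)
  have h2 : (cells q T y).card ≤ farN p q A 0 (E + t) := by
    unfold cells
    refine Finset.card_image_le.trans ?_
    have e : y = (q : ℤ) ^ F * ((p : ℤ) ^ (E + t) * A) := by rw [hy, pow_add]; ring
    rw [e]
    exact card_farSet_pow_mul_le hq F _
  have h1' : (1 : ℝ) ≤ ((cells q T y).card : ℝ) := by exact_mod_cast h1
  have h2' : ((cells q T y).card : ℝ) ≤ (farN p q A 0 (E + t) : ℝ) := by exact_mod_cast h2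
  calc 1 / (farN p q A 0 (E + t) : ℝ) ≤ 1 / ((cells q T y).card : ℝ) := by
        apply one_div_le_one_div_of_le (by linarith) h2'
    _ = ((cells q T y).card : ℝ) ^ (-1 : ℝ) := by rw [Real.rpow_neg_one, one_div]
    _ ≤ ((cells q T y).card : ℝ) ^ (-α) := Real.rpow_le_rpow_of_exponent_le h1' (by linarith)
    _ = (T : ℝ) ^ α * ((T : ℝ) * ((cells q T y).card : ℝ)) ^ (-α) := by
        rw [Real.mul_rpow hT0.le (by linarith), ← mul_assoc, ← Real.rpow_add hT0]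
        simp

/-- Bound on a dyadic interval of times. -/
lemma dyadic_eps {p q : ℕ} (hp : 2 ≤ p) (hq : 2 ≤ q) (hpq : Nat.Coprime p q) {ε : ℝ}
    (hε : 0 < ε) (hε1 : ε ≤ 1) : ∃ C : ℝ, 0 < C ∧ ∀ A : ℤ, A ≠ 0 → ∀ N : ℕ, 1 ≤ N →
      ∑ t ∈ Finset.range N, 1 / (farN p q A 0 (N + t) : ℝ) ≤ C * (N : ℝ) ^ ε := by
  have hq1 : (1 : ℝ) < q := by exact_mod_cast (by omega : 1 < q)
  have hp1 : (1 : ℝ) < p := by exact_mod_cast (by omega : 1 < p)
  have hθ0 : 0 < Real.logb q p := Real.logb_pos hq1 hp1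
  set θ := Real.logb q p with hθ
  set α : ℝ := 1 - ε / 2 with hα
  have hα0 : 0 < α := by rw [hα]; linarith
  have hα1 : α < 1 := by rw [hα]; linarith
  obtain ⟨C₁, hC₁, hscale⟩ := scale_step hp hq hpq hα0 hα1
  -- choice of the ratio of the scales
  obtain ⟨M, hM, hMC⟩ : ∃ M : ℕ, 2 ≤ M ∧ C₁ ≤ (M : ℝ) ^ (ε / 2) := by
    refine ⟨⌈C₁ ^ (2 / ε)⌉₊ + 2, by omega, ?_⟩
    have h1 : C₁ ^ (2 / ε) ≤ ((⌈C₁ ^ (2 / ε)⌉₊ + 2 : ℕ) : ℝ) := by
      push_cast
      linarith [Nat.le_ceil (C₁ ^ (2 / ε))]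
    calc C₁ = (C₁ ^ (2 / ε)) ^ (ε / 2) := by
          rw [← Real.rpow_mul (by linarith)]
          have : 2 / ε * (ε / 2) = 1 := by field_simp
          rw [this, Real.rpow_one]
      _ ≤ _ := Real.rpow_le_rpow (by positivity) h1 (by linarith)
  obtain ⟨T₀, hT₀, hstep⟩ := hscale M hM
  obtain ⟨c, hc⟩ : ∃ c : ℕ, 1 ≤ θ * c := by
    refine ⟨⌈1 / θ⌉₊, ?_⟩
    have h1 := Nat.le_ceil (1 / θ)
    rw [div_le_iff₀ hθ0] at h1
    linarith
  have hc1 : 1 ≤ c := by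
    rcases Nat.eq_zero_or_pos c with rfl | h
    · simp at hc; linarith
    · exact h
  have hM0 : (0 : ℝ) < M := by exact_mod_cast (by omega : 0 < M)
  have hT0 : (0 : ℝ) < T₀ := by exact_mod_cast hT₀
  have hc0 : (0 : ℝ) < c := by exact_mod_cast hc1
  refine ⟨c * T₀ + 5 * (c * M : ℝ) ^ α * (T₀ : ℝ) ^ α, by positivity, ?_⟩
  intro A hA N hN
  have hN0 : (0 : ℝ) < N := by exact_mod_cast hN
  have hN1 : (1 : ℝ) ≤ N := by exact_mod_cast hN
  by_cases hsmall : N < c * T₀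
  · -- few terms
    have h1 : ∑ t ∈ Finset.range N, 1 / (farN p q A 0 (N + t) : ℝ) ≤ N := by
      calc ∑ t ∈ Finset.range N, 1 / (farN p q A 0 (N + t) : ℝ)
          ≤ ∑ _t ∈ Finset.range N, (1 : ℝ) := by
            apply Finset.sum_le_sum
            intro t _
            have h2 := farN_pos hq hp hA (N + t)
            have h3 : (1 : ℝ) ≤ (farN p q A 0 (N + t) : ℝ) := by
              have : 0 < farN p q A 0 (N + t) := by exact_mod_cast h2
              exact_mod_cast this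
            rw [div_le_one h2]
            exact h3
        _ = N := by simp
    have h2 : (N : ℝ) ≤ c * T₀ := by exact_mod_cast hsmall.le
    have h3 : (1 : ℝ) ≤ (N : ℝ) ^ ε := Real.one_le_rpow hN1 hε.le
    have h4 : (0 : ℝ) ≤ 5 * (c * M : ℝ) ^ α * (T₀ : ℝ) ^ α := by positivity
    have h5 : (0 : ℝ) ≤ c * T₀ := by positivity
    nlinarith
  · push Not at hsmall
    set n := Nat.log M (N / (c * T₀)) with hn
    have hcT : 0 < c * T₀ := Nat.mul_pos (by omega) (by omega)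
    have hdiv : N / (c * T₀) ≠ 0 := by
      have := Nat.div_pos hsmall hcT
      omega
    have hn1 : M ^ n ≤ N / (c * T₀) := Nat.pow_log_le_self M hdiv
    have hn2 : N / (c * T₀) < M ^ (n + 1) := Nat.lt_pow_succ_log_self (by omega) _
    have hn1' : c * (M ^ n * T₀) ≤ N := by
      rw [Nat.le_div_iff_mul_le hcT] at hn1
      calc c * (M ^ n * T₀) = M ^ n * (c * T₀) := by ring
        _ ≤ N := hn1
    have hn2' : N < c * (M ^ (n + 1) * T₀) := by
      rw [Nat.div_lt_iff_lt_mul hcT] at hn2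
      calc N < M ^ (n + 1) * (c * T₀) := hn2
        _ = _ := by ring
    set T := M ^ n * T₀ with hT
    have hT1 : 1 ≤ T := Nat.mul_pos (by positivity) (by omega)
    have hTr : (0 : ℝ) < T := by exact_mod_cast hT1
    set x : ℤ := (q : ℤ) ^ (5 * T) * ((p : ℤ) ^ N * A) with hx
    have hp0 : (p : ℤ) ≠ 0 := by exact_mod_cast (by omega : p ≠ 0)
    have hq0 : (q : ℤ) ≠ 0 := by exact_mod_cast (by omega : q ≠ 0)
    have hx0 : x ≠ 0 :=
      mul_ne_zero (pow_ne_zero _ hq0) (mul_ne_zero (pow_ne_zero _ hp0) hA)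
    have h1 := harmonic_le_pot hp hq hT₀ hα1.le hA N (5 * T) N
    have h2 := iterate_step hC₁ hM hc hstep n N x hx0
      (by
        rw [hx]
        refine Dvd.dvd.mul_left ?_ _
        exact Dvd.dvd.mul_right (pow_dvd_pow _ hn1') _)
      (by
        rw [hx]
        exact dvd_mul_right _ _)
    have h3 := pot_le_trivial hp hq hT1 hα0 hx0 (N + 4 * (c * T))
    have h4 : ((N + 4 * (c * T) : ℕ) : ℝ) ≤ 5 * N := by
      have : N + 4 * (c * T) ≤ 5 * N := by omega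
      exact_mod_cast this
    have h5 : (T : ℝ) ^ (-α) ≤ (c * M : ℝ) ^ α * (N : ℝ) ^ (-α) := by
      have h6 : (N : ℝ) ≤ (c * M : ℝ) * T := by
        have h7 : N ≤ c * M * T := by
          calc N ≤ c * (M ^ (n + 1) * T₀) := hn2'.le
            _ = c * M * T := by rw [hT]; ring
        exact_mod_cast h7
      have h8 : ((c * M : ℝ) * T) ^ (-α) ≤ (N : ℝ) ^ (-α) :=
        Real.rpow_le_rpow_of_nonpos hN0 h6 (by linarith)
      calc (T : ℝ) ^ (-α) = (c * M : ℝ) ^ α * ((c * M : ℝ) * T) ^ (-α) := by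
            rw [Real.mul_rpow (by positivity) hTr.le, ← mul_assoc,
              ← Real.rpow_add (by positivity)]
            simp
        _ ≤ _ := mul_le_mul_of_nonneg_left h8 (by positivity)
    have h6 : C₁ ^ n ≤ (N : ℝ) ^ (ε / 2) := by
      have h7 : M ^ n ≤ N := hn1.trans (Nat.div_le_self _ _)
      have h8 : ((M : ℝ) ^ n) ≤ N := by exact_mod_cast h7
      calc C₁ ^ n ≤ ((M : ℝ) ^ (ε / 2)) ^ n := pow_le_pow_left₀ (by linarith) hMC n
        _ = ((M : ℝ) ^ n) ^ (ε / 2) := by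
            rw [← Real.rpow_natCast, ← Real.rpow_mul hM0.le, ← Real.rpow_natCast,
              ← Real.rpow_mul hM0.le]
            congr 1
            ring
        _ ≤ (N : ℝ) ^ (ε / 2) := Real.rpow_le_rpow (by positivity) h8 (by linarith)
    have hNα : (0 : ℝ) < (N : ℝ) ^ (-α) := Real.rpow_pos_of_pos hN0 _
    have h7 : ∑ t ∈ Finset.range N, 1 / (farN p q A 0 (N + t) : ℝ)
        ≤ 5 * (c * M : ℝ) ^ α * (T₀ : ℝ) ^ α * (N : ℝ) ^ ε := by
      calc ∑ t ∈ Finset.range N, 1 / (farN p q A 0 (N + t) : ℝ)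
          ≤ (T₀ : ℝ) ^ α * pot p q T₀ α x N := h1
        _ ≤ (T₀ : ℝ) ^ α * (C₁ ^ n * pot p q T α x (N + 4 * (c * T))) :=
            mul_le_mul_of_nonneg_left h2 (by positivity)
        _ ≤ (T₀ : ℝ) ^ α * (C₁ ^ n * (((N + 4 * (c * T) : ℕ) : ℝ) * (T : ℝ) ^ (-α))) := by
            refine mul_le_mul_of_nonneg_left ?_ (by positivity)
            exact mul_le_mul_of_nonneg_left h3 (by positivity)
        _ ≤ (T₀ : ℝ) ^ α * ((N : ℝ) ^ (ε / 2) * ((5 * N) *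
              ((c * M : ℝ) ^ α * (N : ℝ) ^ (-α)))) := by
            gcongr
        _ = 5 * (c * M : ℝ) ^ α * (T₀ : ℝ) ^ α
              * ((N : ℝ) ^ (ε / 2) * ((N : ℝ) ^ (1 : ℝ) * (N : ℝ) ^ (-α))) := by
            rw [Real.rpow_one]; ring
        _ = 5 * (c * M : ℝ) ^ α * (T₀ : ℝ) ^ α * (N : ℝ) ^ ε := by
            rw [← Real.rpow_add hN0, ← Real.rpow_add hN0]
            congr 2
            rw [hα]; ring
    have h8 : (0 : ℝ) ≤ c * T₀ * (N : ℝ) ^ ε := by positivity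
    calc _ ≤ _ := h7
      _ ≤ _ := by rw [add_mul]; linarith

theorem harmonic_eps {p q : ℕ} (hp : 2 ≤ p) (hq : 2 ≤ q) (hpq : Nat.Coprime p q) {ε : ℝ}
    (hε : 0 < ε) : ∃ C : ℝ, 0 < C ∧ ∀ A : ℤ, A ≠ 0 → ∀ N : ℕ,
      ∑ t ∈ Finset.range N, 1 / (farN p q A 0 t : ℝ) ≤ C * (N : ℝ) ^ ε := by
  set δ : ℝ := min ε 1 with hδ
  have hδ0 : 0 < δ := lt_min hε one_pos
  have hδ1 : δ ≤ 1 := min_le_right _ _
  have hδε : δ ≤ ε := min_le_left _ _
  obtain ⟨C₂, hC₂, hdy⟩ := dyadic_eps hp hq hpq hδ0 hδ1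
  have h2δ : (1 : ℝ) < (2 : ℝ) ^ δ := Real.one_lt_rpow (by norm_num) hδ0
  set C₃ : ℝ := C₂ / ((2 : ℝ) ^ δ - 1) + 1 with hC₃
  have hC₃0 : 0 < C₃ := by
    have : 0 < C₂ / ((2 : ℝ) ^ δ - 1) := div_pos hC₂ (by linarith)
    linarith
  have hpow : ∀ A : ℤ, A ≠ 0 → ∀ j : ℕ,
      ∑ t ∈ Finset.range (2 ^ j), 1 / (farN p q A 0 t : ℝ) ≤ C₃ * ((2 ^ j : ℕ) : ℝ) ^ δ := by
    intro A hA j
    induction j with
    | zero =>
      have h1 := farN_pos hq hp hA 0
      have h2 : (1 : ℝ) ≤ (farN p q A 0 0 : ℝ) := by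
        have : 0 < farN p q A 0 0 := by exact_mod_cast h1
        exact_mod_cast this
      have h3 : 1 / (farN p q A 0 0 : ℝ) ≤ 1 := by rw [div_le_one h1]; exact h2
      have h4 : (1 : ℝ) ≤ C₃ := by
        have : 0 < C₂ / ((2 : ℝ) ^ δ - 1) := div_pos hC₂ (by linarith)
        rw [hC₃]; linarith
      simp only [pow_zero, Finset.range_one, Finset.sum_singleton, Nat.cast_one, Real.one_rpow,
        mul_one]
      linarith
    | succ j ih =>
      have e1 : 2 ^ (j + 1) = 2 ^ j + 2 ^ j := by ring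
      have h1 := hdy A hA (2 ^ j) (Nat.one_le_two_pow)
      have h2 : ((2 ^ (j + 1) : ℕ) : ℝ) ^ δ = (2 : ℝ) ^ δ * ((2 ^ j : ℕ) : ℝ) ^ δ := by
        rw [← Real.mul_rpow (by norm_num) (Nat.cast_nonneg _)]
        congr 1
        push_cast
        ring
      have h3 : C₃ + C₂ ≤ C₃ * (2 : ℝ) ^ δ := by
        have h4 : C₃ * ((2 : ℝ) ^ δ - 1) = C₂ + ((2 : ℝ) ^ δ - 1) := by
          rw [hC₃, add_mul, div_mul_cancel₀ _ (by linarith)]; ring
        nlinarith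
      rw [e1, Finset.sum_range_add, ← e1, h2]
      calc _ ≤ C₃ * ((2 ^ j : ℕ) : ℝ) ^ δ + C₂ * ((2 ^ j : ℕ) : ℝ) ^ δ := add_le_add ih h1
        _ = (C₃ + C₂) * ((2 ^ j : ℕ) : ℝ) ^ δ := by ring
        _ ≤ (C₃ * (2 : ℝ) ^ δ) * ((2 ^ j : ℕ) : ℝ) ^ δ :=
            mul_le_mul_of_nonneg_right h3 (by positivity)
        _ = _ := by ring
  refine ⟨C₃ * (2 : ℝ) ^ δ, by positivity, ?_⟩
  intro A hA N
  rcases Nat.eq_zero_or_pos N with rfl | hN
  · simp only [Finset.range_zero, Finset.sum_empty]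
    positivity
  have hN1 : (1 : ℝ) ≤ N := by exact_mod_cast hN
  obtain ⟨j, hj1, hj2⟩ : ∃ j : ℕ, N ≤ 2 ^ j ∧ 2 ^ j ≤ 2 * N := by
    refine ⟨Nat.log 2 N + 1, (Nat.lt_pow_succ_log_self (by norm_num) N).le, ?_⟩
    have := Nat.pow_log_le_self 2 (by omega : N ≠ 0)
    rw [pow_succ]
    omega
  calc ∑ t ∈ Finset.range N, 1 / (farN p q A 0 t : ℝ)
      ≤ ∑ t ∈ Finset.range (2 ^ j), 1 / (farN p q A 0 t : ℝ) := by
        refine Finset.sum_le_sum_of_subset_of_nonneg (Finset.range_subset_range.2 hj1) ?_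
        intro t _ _
        positivity
    _ ≤ C₃ * ((2 ^ j : ℕ) : ℝ) ^ δ := hpow A hA j
    _ ≤ C₃ * ((2 : ℝ) * N) ^ δ := by
        refine mul_le_mul_of_nonneg_left ?_ hC₃0.le
        refine Real.rpow_le_rpow (Nat.cast_nonneg _) ?_ hδ0.le
        exact_mod_cast hj2
    _ = C₃ * (2 : ℝ) ^ δ * (N : ℝ) ^ δ := by
        rw [Real.mul_rpow (by norm_num) (Nat.cast_nonneg _)]; ring
    _ ≤ C₃ * (2 : ℝ) ^ δ * (N : ℝ) ^ ε := by
        refine mul_le_mul_of_nonneg_left ?_ (by positivity)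
        exact Real.rpow_le_rpow_of_exponent_le hN1 hδε

theorem changes_eps {p q : ℕ} (hp : 2 ≤ p) (hq : 2 ≤ q) (hpq : Nat.Coprime p q) {ε : ℝ}
    (hε : 0 < ε) : ∃ C : ℝ, 0 < C ∧ ∀ A : ℕ, 1 ≤ A → ∀ N : ℕ,
      ∑ n ∈ Finset.range N, 1 / (1 + ((changePos q (A * p ^ n)).card : ℝ))
        ≤ C * (N : ℝ) ^ ε := by
  obtain ⟨C, hC, hmain⟩ := harmonic_eps hp hq hpq hε
  refine ⟨2 * C, by positivity, ?_⟩
  intro A hA N
  have hA' : (A : ℤ) * ((q - 1 : ℕ) : ℤ) ≠ 0 := by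
    have h1 : A ≠ 0 := by omega
    have h2 : q - 1 ≠ 0 := by omega
    exact mul_ne_zero (by exact_mod_cast h1) (by exact_mod_cast h2)
  have h1 := hmain _ hA' N
  calc ∑ n ∈ Finset.range N, 1 / (1 + ((changePos q (A * p ^ n)).card : ℝ))
      ≤ ∑ n ∈ Finset.range N, 2 * (1 / (farN p q ((A : ℤ) * ((q - 1 : ℕ) : ℤ)) 0 n : ℝ)) := by
        apply Finset.sum_le_sum
        intro n _
        have h2 := farN_pos hq hp hA' n
        have h3 : farN p q ((A : ℤ) * ((q - 1 : ℕ) : ℤ)) 0 n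
            ≤ 2 + (changePos q (A * p ^ n)).card := by
          unfold farN
          have := far_le_changes hq (A * p ^ n)
          have e : (p : ℤ) ^ n * ((A : ℤ) * ((q - 1 : ℕ) : ℤ))
              = ((A * p ^ n : ℕ) : ℤ) * ((q - 1 : ℕ) : ℤ) := by push_cast; ring
          rw [e]
          exact this
        have h4 : (farN p q ((A : ℤ) * ((q - 1 : ℕ) : ℤ)) 0 n : ℝ)
            ≤ 2 + (changePos q (A * p ^ n)).card := by exact_mod_cast h3
        have h5 : (0 : ℝ) ≤ (changePos q (A * p ^ n)).card := Nat.cast_nonneg _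
        rw [mul_one_div, div_le_div_iff₀ (by positivity) h2]
        linarith
    _ = 2 * ∑ n ∈ Finset.range N, 1 / (farN p q ((A : ℤ) * ((q - 1 : ℕ) : ℤ)) 0 n : ℝ) := by
        rw [Finset.mul_sum]
    _ ≤ 2 * (C * (N : ℝ) ^ ε) := by gcongr
    _ = _ := by ring

theorem blocks_eps {p q : ℕ} (hp : 2 ≤ p) (hq : 2 ≤ q) (hpq : Nat.Coprime p q)
    {k w : ℕ} (hk : 1 ≤ k) (hw : w < q ^ k) :
    ∃ K : ℕ, ∀ ε : ℝ, 0 < ε → ∃ C : ℝ, 0 < C ∧ ∀ A : ℕ, 1 ≤ A → ∀ N : ℕ,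
      ∑ n ∈ Finset.range N,
        1 / (1 + ∑ i ∈ Finset.range (K + 1), ((blockPos q k w (A * p ^ (n + i))).card : ℝ))
        ≤ C * (N : ℝ) ^ ε := by
  obtain ⟨D, K, C', hD, hfar⟩ := far_le_blocks_gen hp hq hpq hk hw
  refine ⟨K, ?_⟩
  intro ε hε
  obtain ⟨C, hC, hmain⟩ := harmonic_eps hp hq hpq hε
  have hCK : (0 : ℝ) < (C' : ℝ) + K + 1 := by
    have h1 := Nat.cast_nonneg (α := ℝ) C'
    have h2 := Nat.cast_nonneg (α := ℝ) K
    linarith
  refine ⟨(C' + K + 1) * C, mul_pos hCK hC, ?_⟩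
  intro A hA N
  have hA' : (A : ℤ) * (D : ℤ) ≠ 0 := by
    have h1 : A ≠ 0 := by omega
    exact mul_ne_zero (by exact_mod_cast h1) (by exact_mod_cast hD.ne')
  have h1 := hmain _ hA' N
  calc ∑ n ∈ Finset.range N,
        1 / (1 + ∑ i ∈ Finset.range (K + 1), ((blockPos q k w (A * p ^ (n + i))).card : ℝ))
      ≤ ∑ n ∈ Finset.range N, ((C' : ℝ) + K + 1) * (1 / (farN p q ((A : ℤ) * (D : ℤ)) 0 n : ℝ)) := by
        apply Finset.sum_le_sum
        intro n _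
        have h2 := farN_pos hq hp hA' n
        have h3 : farN p q ((A : ℤ) * (D : ℤ)) 0 n
            ≤ C' + (K + 1) * ∑ i ∈ Finset.range (K + 1),
              (blockPos q k w (A * p ^ (n + i))).card := by
          unfold farN
          have := hfar (A * p ^ n) (Nat.mul_pos (by omega) (by positivity))
          have e : (p : ℤ) ^ n * ((A : ℤ) * (D : ℤ))
              = ((A * p ^ n : ℕ) : ℤ) * (D : ℤ) := by push_cast; ring
          rw [e]
          simp only [pow_add, ← mul_assoc]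
          exact this
        set S : ℝ := ∑ i ∈ Finset.range (K + 1),
          ((blockPos q k w (A * p ^ (n + i))).card : ℝ) with hS
        have hS0 : 0 ≤ S := Finset.sum_nonneg (fun _ _ => Nat.cast_nonneg _)
        have h4 : (farN p q ((A : ℤ) * (D : ℤ)) 0 n : ℝ) ≤ C' + (K + 1) * S := by
          rw [hS]
          exact_mod_cast h3
        have h5 : (farN p q ((A : ℤ) * (D : ℤ)) 0 n : ℝ) ≤ (C' + K + 1) * (1 + S) := by
          have h6 : 0 ≤ (C' : ℝ) * S := mul_nonneg (Nat.cast_nonneg _) hS0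
          have h7 := Nat.cast_nonneg (α := ℝ) K
          have h8 : ((C' : ℝ) + K + 1) * (1 + S) = C' + (K + 1) * S + (K + 1) + C' * S := by ring
          rw [h8]
          linarith
        rw [mul_one_div, div_le_div_iff₀ (by linarith) h2]
        linarith
    _ = ((C' : ℝ) + K + 1) * ∑ n ∈ Finset.range N, 1 / (farN p q ((A : ℤ) * (D : ℤ)) 0 n : ℝ) := by
        rw [Finset.mul_sum]
    _ ≤ ((C' : ℝ) + K + 1) * (C * (N : ℝ) ^ ε) :=
        mul_le_mul_of_nonneg_left h1 hCK.le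
    _ = _ := by ring

end SST
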