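import Mathlib

/-!
# Compound matrices and the Cauchy-Binet formula
-/

namespace SST

/-- The `r`-th compound matrix: the matrix of the `r × r` minors. -/
def compound {R : Type*} [CommRing R] {d : ℕ} (r : ℕ) (B : Matrix (Fin d) (Fin d) R) :
    Matrix (Fin r ↪o Fin d) (Fin r ↪o Fin d) R :=
  Matrix.of fun I J => (B.submatrix I J).det

/-- The Cauchy-Binet formula for a product of rectangular matrices. -/
theorem det_mul_rect {R : Type*} [CommRing R] {d r : ℕ} (M : Matrix (Fin r) (Fin d) R)
    (N : Matrix (Fin d) (Fin r) R) :
    (M * N).det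
      = ∑ L : Fin r ↪o Fin d, (M.submatrix id L).det * (N.submatrix L id).det := by
  classical
  have h1 : (M * N).det
      = ∑ f : Fin r → Fin d, (M.submatrix id f).det * ∏ i, N (f i) i := by
    have h2 : ∀ f : Fin r → Fin d, (M.submatrix id f).det * ∏ i, N (f i) i
        = ∑ σ : Equiv.Perm (Fin r), (Equiv.Perm.sign σ : ℤ) * ∏ i, M (σ i) (f i) * N (f i) i := by
      intro f
      rw [Matrix.det_apply', Finset.sum_mul]
      refine Finset.sum_congr rfl fun σ _ => ?_
      rw [mul_assoc, Finset.prod_mul_distrib]
      rfl
    rw [Finset.sum_congr rfl fun f _ => h2 f]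
    simp only [Matrix.det_apply', Matrix.mul_apply, Finset.prod_univ_sum, Finset.mul_sum,
      Fintype.piFinset_univ]
    rw [Finset.sum_comm]
  have h3 : ∑ f : Fin r → Fin d, (M.submatrix id f).det * ∏ i, N (f i) i
      = ∑ f : Fin r → Fin d with Function.Injective f,
          (M.submatrix id f).det * ∏ i, N (f i) i := by
    refine (Finset.sum_subset (Finset.filter_subset _ _) fun f _ hf => ?_).symm
    rw [Finset.mem_filter_univ] at hf
    have : (M.submatrix id f).det = 0 := by
      simp only [Function.Injective, not_forall] at hf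
      obtain ⟨i, j, hij, hne⟩ := hf
      refine Matrix.det_zero_of_column_eq hne fun k => ?_
      simp [hij]
    rw [this, zero_mul]
  have h4 : ∑ f : Fin r → Fin d with Function.Injective f,
          (M.submatrix id f).det * ∏ i, N (f i) i
      = ∑ x : (Fin r ↪o Fin d) × Equiv.Perm (Fin r),
          (M.submatrix id (x.1 ∘ x.2)).det * ∏ i, N (x.1 (x.2 i)) i := by
    symm
    refine Finset.sum_bij (fun x _ => x.1 ∘ x.2) ?_ ?_ ?_ ?_
    · intro x _
      rw [Finset.mem_filter_univ]
      exact x.1.injective.comp x.2.injective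
    · rintro ⟨L, τ⟩ _ ⟨L', τ'⟩ _ h
      have hr : Set.range L = Set.range L' := by
        have := congrArg Set.range h
        simpa [Set.range_comp, Set.image_univ, τ.surjective.range_eq, τ'.surjective.range_eq]
          using this
      have hL : L = L' := by
        apply DFunLike.coe_injective
        exact (L.strictMono.range_inj L'.strictMono).1 hr
      subst hL
      have hτ : τ = τ' := by
        ext i : 1
        exact L.injective (congrFun h i)
      rw [hτ]
    · intro f hf
      rw [Finset.mem_filter_univ] at hf
      have hmono : StrictMono (f ∘ Tuple.sort f) :=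
        (Tuple.monotone_sort f).strictMono_of_injective (hf.comp (Tuple.sort f).injective)
      refine ⟨(OrderEmbedding.ofStrictMono _ hmono, (Tuple.sort f)⁻¹), Finset.mem_univ _, ?_⟩
      funext i
      simp
    · intro x _
      rfl
  rw [h1, h3, h4, Fintype.sum_prod_type]
  refine Finset.sum_congr rfl fun L _ => ?_
  have h5 : ∀ τ : Equiv.Perm (Fin r), (M.submatrix id (L ∘ τ)).det
      = (Equiv.Perm.sign τ : ℤ) * (M.submatrix id L).det := by
    intro τ
    have : M.submatrix id (L ∘ τ) = (M.submatrix id L).submatrix id τ := by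
      ext i j; rfl
    rw [this, Matrix.det_permute']
  simp only [h5]
  rw [Matrix.det_apply' (N.submatrix L id), Finset.mul_sum]
  refine Finset.sum_congr rfl fun τ _ => ?_
  simp only [Matrix.submatrix_apply, id]
  ring

/-- Cauchy-Binet. -/
theorem compound_mul {R : Type*} [CommRing R] {d : ℕ} (r : ℕ) (A B : Matrix (Fin d) (Fin d) R) :
    compound r (A * B) = compound r A * compound r B := by
  ext I J
  rw [Matrix.mul_apply]
  simp only [compound, Matrix.of_apply]
  have h : (A * B).submatrix I J = A.submatrix I id * B.submatrix id J := by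
    ext i j
    simp [Matrix.mul_apply]
  rw [h, det_mul_rect]
  rfl

theorem compound_one {R : Type*} [CommRing R] {d : ℕ} (r : ℕ) :
    compound r (1 : Matrix (Fin d) (Fin d) R) = 1 := by
  classical
  ext I J
  simp only [compound, Matrix.of_apply]
  by_cases h : I = J
  · subst h
    rw [Matrix.one_apply_eq, Matrix.submatrix_one _ I.injective, Matrix.det_one]
  · rw [Matrix.one_apply_ne h]
    have hr : ∃ i, I i ∉ Set.range J := by
      by_contra hcon
      push Not at hcon
      apply h
      apply DFunLike.coe_injective
      apply (I.strictMono.range_inj J.strictMono).1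
      have hsub : Set.range I ⊆ Set.range J := by
        rintro _ ⟨i, rfl⟩; exact hcon i
      apply Set.eq_of_subset_of_ncard_le hsub
      rw [← Set.image_univ, ← Set.image_univ, Set.ncard_image_of_injective _ I.injective,
        Set.ncard_image_of_injective _ J.injective]
    obtain ⟨i, hi⟩ := hr
    refine Matrix.det_eq_zero_of_row_eq_zero i fun j => ?_
    rw [Matrix.submatrix_apply, Matrix.one_apply_ne]
    intro hij
    exact hi ⟨j, hij.symm⟩

theorem compound_det_ne_zero {K : Type*} [Field K] {d : ℕ} (r : ℕ) (B : Matrix (Fin d) (Fin d) K)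
    (hB : B.det ≠ 0) : (compound r B).det ≠ 0 := by
  intro h0
  have h1 : B * B⁻¹ = 1 := Matrix.mul_nonsing_inv B (isUnit_iff_ne_zero.2 hB)
  have h2 : compound r B * compound r B⁻¹ = 1 := by
    rw [← compound_mul, h1, compound_one]
  have h3 := congrArg Matrix.det h2
  rw [Matrix.det_mul, h0, zero_mul, Matrix.det_one] at h3
  exact zero_ne_one h3

/-- The number of the `I : Fin r ↪o Fin d` containing a given element. -/
theorem card_emb_mem {d : ℕ} (r : ℕ) (hr : 1 ≤ r) (i : Fin d) :
    (Finset.univ.filter fun I : Fin r ↪o Fin d => i ∈ Set.range I).card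
      = (d - 1).choose (r - 1) := by
  classical
  have h := Finset.card_filter_powersetCard_subset ({i} : Finset (Fin d)) Finset.univ r
    (Finset.subset_univ _) (by simpa using hr)
  rw [Finset.card_singleton, Finset.card_univ, Fintype.card_fin] at h
  rw [← h]
  refine Finset.card_bij (fun I _ => Finset.univ.map I.toEmbedding) ?_ ?_ ?_
  · intro I hI
    rw [Finset.mem_filter_univ] at hI
    obtain ⟨j, hj⟩ := hI
    rw [Finset.mem_filter, Finset.mem_powersetCard]
    refine ⟨⟨Finset.subset_univ _, by simp⟩, ?_⟩
    rw [Finset.singleton_subset_iff, Finset.mem_map]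
    exact ⟨j, Finset.mem_univ _, hj⟩
  · intro I _ J _ hIJ
    apply DFunLike.coe_injective
    apply (I.strictMono.range_inj J.strictMono).1
    have := congrArg (fun s : Finset (Fin d) => (s : Set (Fin d))) hIJ
    simpa using this
  · intro s hs
    rw [Finset.mem_filter, Finset.mem_powersetCard] at hs
    refine ⟨s.orderEmbOfFin hs.1.2, ?_, ?_⟩
    · rw [Finset.mem_filter_univ, Finset.range_orderEmbOfFin]
      exact hs.2 (Finset.mem_singleton_self i)
    · apply Finset.coe_injective
      simp

theorem sum_compound {d : ℕ} (r : ℕ) (hr : 1 ≤ r) (c : Fin d → ℝ) :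
    ∑ I : Fin r ↪o Fin d, ∑ i, c (I i) = (d - 1).choose (r - 1) * ∑ i, c i := by
  classical
  have h1 : ∀ I : Fin r ↪o Fin d, ∑ i, c (I i) = ∑ j : Fin d, if j ∈ Set.range I then c j else 0 := by
    intro I
    rw [← Finset.sum_filter]
    symm
    refine Finset.sum_bij (fun j hj => (Finset.mem_filter.1 hj).2.choose) ?_ ?_ ?_ ?_
    · intro j hj; exact Finset.mem_univ _
    · intro j hj k hk h
      rw [← (Finset.mem_filter.1 hj).2.choose_spec, ← (Finset.mem_filter.1 hk).2.choose_spec]
      exact congrArg I h
    · intro i _
      have hi : I i ∈ Finset.univ.filter fun j => j ∈ Set.range I := by simp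
      exact ⟨I i, hi, I.injective (Finset.mem_filter.1 hi).2.choose_spec⟩
    · intro j hj
      rw [(Finset.mem_filter.1 hj).2.choose_spec]
  simp only [h1]
  rw [Finset.sum_comm, Finset.mul_sum]
  refine Finset.sum_congr rfl fun j _ => ?_
  rw [← Finset.sum_filter, Finset.sum_const, card_emb_mem r hr j, nsmul_eq_mul]

end SST
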