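import Pool.Agent.Subspace.RFUniform
import Pool.Agent.Subspace.AvFinal

/-!
# Every block of digits occurs often in almost every power
-/

namespace SST

open Pool.Agent.DigitPowers

/-- Far levels of `D' m` above the length of `m` are few. -/
lemma far_split {q : ℕ} (hq : 2 ≤ q) {m D' : ℕ} :
    (farSet q 0 ((m : ℤ) * (D' : ℕ))).card ≤
      ((farSet q 0 ((m : ℤ) * (D' : ℕ))).filter fun l => l < Nat.log q m + 1).card
        + (Nat.log q ((q + 1) * D') + 2) := by
  classical
  set F := farSet q 0 ((m : ℤ) * (D' : ℕ)) with hF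
  set T := Nat.log q m + 1 with hT
  set B := (q + 1) * D' with hB
  have hsub : F ⊆ (F.filter fun l => l < T) ∪ Finset.Ico T (T + Nat.log q B + 2) := by
    intro l hl
    rw [Finset.mem_union, Finset.mem_filter, Finset.mem_Ico]
    by_cases hlT : l < T
    · exact Or.inl ⟨hl, hlT⟩
    · right
      refine ⟨by omega, ?_⟩
      by_contra hlt
      push Not at hlt
      rw [hF, mem_farSet hq] at hl
      apply hl
      apply near_of_log_lt hq
      have e1 : (q + 1) * ((m : ℤ) * (D' : ℕ)).natAbs = B * m := by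
        rw [Int.natAbs_mul, Int.natAbs_natCast, Int.natAbs_natCast]; ring
      rw [e1, Nat.add_zero]
      have h1 : B * m < q ^ (Nat.log q B + 1 + (Nat.log q m + 1)) := by
        rw [pow_add]
        exact Nat.mul_lt_mul'' (Nat.lt_pow_succ_log_self (by omega) B)
          (Nat.lt_pow_succ_log_self (by omega) _)
      have h2 := Nat.log_lt_of_lt_pow' (by omega) h1
      omega
  refine (Finset.card_le_card hsub).trans ((Finset.card_union_le _ _).trans ?_)
  rw [Nat.card_Ico]
  omega

/-- The levels whose orbit hits the arc of the block `w` at time `j` are positions of the block,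
up to bounded shifts. -/
lemma hit_le_blocks {p q : ℕ} (hp : 2 ≤ p) (hq : 2 ≤ q) {k w : ℕ} (hk : 1 ≤ k) (hw : w < q ^ k)
    {m : ℕ} (hm : 1 ≤ m) (C' j : ℕ) (S : Finset ℕ) (hS : ∀ l ∈ S, l < Nat.log q m + 1)
    (hhit : ∀ l ∈ S, ∃ i ≤ C', (p ^ j • (q ^ i • (((m : ℝ) / (q : ℝ) ^ l : ℝ) : UnitAddCircle))) ∈
      ((fun x : ℝ => (x : UnitAddCircle)) ''
        Set.Ioo ((w : ℝ) / (q : ℝ) ^ k) (((w : ℝ) + 1) / (q : ℝ) ^ k))) :
    S.card ≤ (C' + 1) * (blockPos q k w (m * p ^ j)).card := by
  classical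
  have hsub : S ⊆ (Finset.range (C' + 1)).biUnion
      (fun i => (blockPos q k w (m * p ^ j)).image (fun e => e + i + k)) := by
    intro l hl
    obtain ⟨i, hi, hij⟩ := hhit l hl
    have h2 : p ^ j • (q ^ i • (((m : ℝ) / (q : ℝ) ^ l : ℝ) : UnitAddCircle)) =
        ((((q ^ i : ℕ) : ℝ) * (((m * p ^ j : ℕ) : ℝ) / (q : ℝ) ^ l) : ℝ) : UnitAddCircle) := by
      rw [circle_nsmul_coe, circle_nsmul_coe]
      congr 1
      push_cast
      ring
    rw [h2] at hij
    obtain ⟨e, he, hew⟩ := block_of_hit hq hw hij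
    rw [Finset.mem_biUnion]
    refine ⟨i, Finset.mem_range.2 (by omega), ?_⟩
    rw [Finset.mem_image]
    refine ⟨e, ?_, he.symm⟩
    unfold blockPos
    have hlen : (Nat.digits q (m * p ^ j)).length = Nat.log q (m * p ^ j) + 1 :=
      Nat.length_digits q _ (by omega) (by positivity)
    have hmono : Nat.log q m ≤ Nat.log q (m * p ^ j) :=
      Nat.log_mono_right (Nat.le_mul_of_pos_right m (by positivity))
    have hlT := hS l hl
    rw [Finset.mem_filter, Finset.mem_range, hlen]
    exact ⟨by omega, by omega, hew⟩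
  refine (Finset.card_le_card hsub).trans (Finset.card_biUnion_le.trans ?_)
  calc ∑ i ∈ Finset.range (C' + 1), ((blockPos q k w (m * p ^ j)).image (fun e => e + i + k)).card
      ≤ ∑ _i ∈ Finset.range (C' + 1), (blockPos q k w (m * p ^ j)).card :=
        Finset.sum_le_sum (fun i _ => Finset.card_image_le)
    _ = (C' + 1) * (blockPos q k w (m * p ^ j)).card := by
        rw [Finset.sum_const, Finset.card_range, smul_eq_mul]

/-- Counting: the far levels at the end of a window of `K` consecutive times give occurrences of the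
block `w` at most times of the window. -/
theorem window_count {p q : ℕ} (hp : 2 ≤ p) (hq : 2 ≤ q) (hpq : Nat.Coprime p q)
    {k w : ℕ} (hk : 1 ≤ k) (hw : w < q ^ k) {δ : ℝ} (hδ : 0 < δ) (hδ1 : δ < 1) :
    ∃ D K : ℕ, 0 < D ∧ 0 < K ∧ ∃ C : ℕ, 0 < C ∧ ∀ m : ℕ, 1 ≤ m →
      (((Finset.range K).filter fun j =>
        (C : ℝ) * (1 + ((blockPos q k w (m * p ^ j)).card : ℝ)) <
          ((farSet q 0 ((m : ℤ) * (D * p ^ K : ℕ))).card : ℝ)).card : ℝ) ≤ δ * K := by
  classical
  have hq0 : (0 : ℝ) < q := by exact_mod_cast (by omega : 0 < q)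
  set U : Set UnitAddCircle := (fun x : ℝ => (x : UnitAddCircle)) ''
        Set.Ioo ((w : ℝ) / (q : ℝ) ^ k) (((w : ℝ) + 1) / (q : ℝ) ^ k) with hU
  have hUopen : IsOpen U := QuotientAddGroup.isOpenMap_coe _ isOpen_Ioo
  have hUne : U.Nonempty := by
    refine Set.Nonempty.image _ (Set.nonempty_Ioo.2 ?_)
    gcongr
    linarith
  obtain ⟨D, K₀, hD, hK₀⟩ := uniform_hit hp hq hpq hUopen hUne (half_pos hδ)
    (show (0 : ℝ) < 1 / ((q : ℝ) + 1) by positivity)
  obtain ⟨C', hC'⟩ := hK₀ (K₀ + 1) (by omega)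
  set K := K₀ + 1 with hK
  set D' := D * p ^ K with hD'
  set c₀ := Nat.log q ((q + 1) * D') + 2 with hc₀
  refine ⟨D, K, hD, by omega, 2 * (C' + 1) + c₀, by omega, ?_⟩
  intro m hm
  set F := farSet q 0 ((m : ℤ) * (D' : ℕ)) with hF
  set T := Nat.log q m + 1 with hT
  set F' := F.filter (fun l => l < T) with hF'
  have hFcard : F.card ≤ F'.card + c₀ := far_split hq
  set y : ℕ → UnitAddCircle := fun l => (((m : ℝ) / (q : ℝ) ^ l : ℝ) : UnitAddCircle) with hy
  -- the miss relation
  let M : ℕ → ℕ → Prop := fun j l => ∀ x ∈ {x | ∃ i : ℕ, i ≤ C' ∧ x = q ^ i • y l}, p ^ j • x ∉ U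
  have hmiss : ∀ l ∈ F', (((Finset.range K).filter fun j => M j l).card : ℝ) ≤ δ / 2 * K := by
    intro l hl
    rw [hF', Finset.mem_filter, hF, mem_farSet hq] at hl
    have h1 : 1 / ((q : ℝ) + 1) ≤ ‖(D * p ^ K) • y l‖ := by
      have := norm_of_not_near hq hl.1
      rw [hy]
      simp only
      rw [circle_nsmul_coe]
      have e : ((D * p ^ K : ℕ) : ℝ) * ((m : ℝ) / (q : ℝ) ^ l)
          = (((m : ℤ) * (D' : ℕ) : ℤ) : ℝ) / (q : ℝ) ^ l := by
        rw [hD']
        push_cast; ring
      rw [e]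
      exact this
    have h2 := hC' (y l) h1
    unfold missCount at h2
    convert h2
  -- double counting
  have hdc : ∑ j ∈ Finset.range K, (F'.filter fun l => M j l).card
      = ∑ l ∈ F', ((Finset.range K).filter fun j => M j l).card := by
    simp only [Finset.card_filter]
    exact Finset.sum_comm
  have hdc' : ∑ j ∈ Finset.range K, ((F'.filter fun l => M j l).card : ℝ)
      ≤ δ / 2 * K * F'.card := by
    have e : ∑ j ∈ Finset.range K, ((F'.filter fun l => M j l).card : ℝ)
        = ∑ l ∈ F', (((Finset.range K).filter fun j => M j l).card : ℝ) := by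
      exact_mod_cast hdc
    rw [e]
    calc ∑ l ∈ F', (((Finset.range K).filter fun j => M j l).card : ℝ)
        ≤ ∑ _l ∈ F', δ / 2 * (K : ℝ) := Finset.sum_le_sum hmiss
      _ = _ := by rw [Finset.sum_const, nsmul_eq_mul]; ring
  -- bad times
  set Bad := (Finset.range K).filter fun j =>
        (((2 * (C' + 1) + c₀ : ℕ) : ℝ)) * (1 + ((blockPos q k w (m * p ^ j)).card : ℝ)) <
          (F.card : ℝ) with hBad
  have hbad : ∀ j ∈ Bad, (F'.card : ℝ) / 2 ≤ ((F'.filter fun l => M j l).card : ℝ) := by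
    intro j hj
    rw [hBad, Finset.mem_filter] at hj
    obtain ⟨-, hj⟩ := hj
    have h1 : (F'.filter fun l => ¬ M j l).card ≤ (C' + 1) * (blockPos q k w (m * p ^ j)).card := by
      apply hit_le_blocks hp hq hk hw hm C' j
      · intro l hl
        rw [Finset.mem_filter, hF', Finset.mem_filter] at hl
        exact hl.1.2
      · intro l hl
        rw [Finset.mem_filter] at hl
        have h3 := hl.2
        simp only [M] at h3
        push Not at h3
        obtain ⟨x, ⟨i, hi, rfl⟩, hx⟩ := h3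
        exact ⟨i, hi, hx⟩
    have h2 := Finset.card_filter_add_card_filter_not (s := F') (fun l => M j l)
    have h3 : (((2 * (C' + 1) + c₀) * (1 + (blockPos q k w (m * p ^ j)).card) : ℕ) : ℝ)
        < ((F.card : ℕ) : ℝ) := by
      push_cast at hj ⊢
      exact hj
    have h4 : (2 * (C' + 1) + c₀) * (1 + (blockPos q k w (m * p ^ j)).card) < F.card := by
      exact_mod_cast h3
    have h5 : 2 * ((C' + 1) * (blockPos q k w (m * p ^ j)).card) + c₀ ≤
        (2 * (C' + 1) + c₀) * (1 + (blockPos q k w (m * p ^ j)).card) := by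
      nlinarith [Nat.zero_le (c₀ * (blockPos q k w (m * p ^ j)).card), Nat.zero_le C']
    have h6 : F'.card ≤ 2 * (F'.filter fun l => M j l).card := by omega
    have h7 : (F'.card : ℝ) ≤ 2 * ((F'.filter fun l => M j l).card : ℝ) := by exact_mod_cast h6
    linarith
  rcases Nat.eq_zero_or_pos Bad.card with h0 | hpos
  · rw [h0]
    push_cast
    positivity
  · -- `F'` is nonempty
    have hF'pos : 0 < F'.card := by
      obtain ⟨j, hj⟩ := Finset.card_pos.1 hpos
      rw [hBad, Finset.mem_filter] at hj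
      obtain ⟨-, hj⟩ := hj
      have h3 : (((2 * (C' + 1) + c₀) * (1 + (blockPos q k w (m * p ^ j)).card) : ℕ) : ℝ)
          < ((F.card : ℕ) : ℝ) := by
        push_cast at hj ⊢
        exact hj
      have h4 : (2 * (C' + 1) + c₀) * (1 + (blockPos q k w (m * p ^ j)).card) < F.card := by
        exact_mod_cast h3
      have h5 : c₀ ≤ (2 * (C' + 1) + c₀) * (1 + (blockPos q k w (m * p ^ j)).card) := by
        nlinarith [Nat.zero_le (c₀ * (blockPos q k w (m * p ^ j)).card), Nat.zero_le C']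
      omega
    have h1 : (Bad.card : ℝ) * ((F'.card : ℝ) / 2) ≤ δ / 2 * K * F'.card := by
      calc (Bad.card : ℝ) * ((F'.card : ℝ) / 2) = ∑ _j ∈ Bad, (F'.card : ℝ) / 2 := by
            rw [Finset.sum_const, nsmul_eq_mul]
        _ ≤ ∑ j ∈ Bad, ((F'.filter fun l => M j l).card : ℝ) := Finset.sum_le_sum hbad
        _ ≤ ∑ j ∈ Finset.range K, ((F'.filter fun l => M j l).card : ℝ) := by
            apply Finset.sum_le_sum_of_subset_of_nonneg (Finset.filter_subset _ _)
            intro _ _ _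
            exact Nat.cast_nonneg _
        _ ≤ _ := hdc'
    have h2 : (0 : ℝ) < (F'.card : ℝ) / 2 := by
      have : (0 : ℝ) < F'.card := by exact_mod_cast hF'pos
      linarith
    have h3 : (Bad.card : ℝ) * ((F'.card : ℝ) / 2) ≤ (δ * K) * ((F'.card : ℝ) / 2) := by
      linarith
    exact le_of_mul_le_mul_right h3 h2

open Classical in
theorem almost_all_blocks {p q : ℕ} (hp : 2 ≤ p) (hq : 2 ≤ q) (hpq : Nat.Coprime p q)
    {k w : ℕ} (hk : 1 ≤ k) (hw : w < q ^ k) {ε η : ℝ} (hε : 0 < ε) (hη : 0 < η) :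
    ∃ N₀ : ℕ, ∀ A : ℕ, 1 ≤ A → ∀ N : ℕ, N₀ ≤ N →
      (((Finset.range N).filter fun n =>
        ((blockPos q k w (A * p ^ n)).card : ℝ) < (N : ℝ) ^ (1 - ε)).card : ℝ) ≤ η * N := by
  -- reduction to `ε ≤ 1`
  suffices H : ∀ ε : ℝ, 0 < ε → ε ≤ 1 → ∃ N₀ : ℕ, ∀ A : ℕ, 1 ≤ A → ∀ N : ℕ, N₀ ≤ N →
      (((Finset.range N).filter fun n =>
        ((blockPos q k w (A * p ^ n)).card : ℝ) < (N : ℝ) ^ (1 - ε)).card : ℝ) ≤ η * N by
    obtain ⟨N₀, h⟩ := H (min ε 1) (lt_min hε one_pos) (min_le_right _ _)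
    refine ⟨max N₀ 1, ?_⟩
    intro A hA N hN
    refine le_trans ?_ (h A hA N ((le_max_left _ _).trans hN))
    have hN1 : (1 : ℝ) ≤ N := by exact_mod_cast (le_max_right _ _).trans hN
    have : ((Finset.range N).filter fun n =>
        ((blockPos q k w (A * p ^ n)).card : ℝ) < (N : ℝ) ^ (1 - ε)) ⊆
        ((Finset.range N).filter fun n =>
        ((blockPos q k w (A * p ^ n)).card : ℝ) < (N : ℝ) ^ (1 - min ε 1)) := by
      intro n hn
      rw [Finset.mem_filter] at hn ⊢
      refine ⟨hn.1, hn.2.trans_le ?_⟩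
      apply Real.rpow_le_rpow_of_exponent_le hN1
      linarith [min_le_left ε 1]
    exact_mod_cast Finset.card_le_card this
  clear hε
  intro ε hε hε1
  set δ : ℝ := min (η / 4) (1 / 2) with hδdef
  have hδ : 0 < δ := lt_min (by linarith) (by norm_num)
  have hδ1 : δ < 1 := (min_le_right _ _).trans_lt (by norm_num)
  have hδη : δ ≤ η / 4 := min_le_left _ _
  obtain ⟨D, K, hD, hK, C, hC, hwin⟩ := window_count hp hq hpq hk hw hδ hδ1
  obtain ⟨C₂, hC₂, hharm⟩ := harmonic_eps hp hq hpq (half_pos hε)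
  have hKr : (0 : ℝ) < K := by exact_mod_cast hK
  have hCr : (0 : ℝ) < C := by exact_mod_cast hC
  -- the threshold
  have htend : Filter.Tendsto (fun N : ℕ => (N : ℝ) ^ (-(ε / 2))) Filter.atTop (nhds 0) :=
    (tendsto_rpow_neg_atTop (half_pos hε)).comp tendsto_natCast_atTop_atTop
  have hev := htend.eventually (gt_mem_nhds
    (show (0 : ℝ) < η / (8 * K * C * C₂) by positivity))
  obtain ⟨N₁, hN₁⟩ := Filter.eventually_atTop.1 hev
  refine ⟨max N₁ (K + 1), ?_⟩
  intro A hA N hN
  have hNN₁ : N₁ ≤ N := (le_max_left _ _).trans hN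
  have hNK : K + 1 ≤ N := (le_max_right _ _).trans hN
  have hNpos : (0 : ℝ) < N := by exact_mod_cast (by omega : 0 < N)
  have hN1 : (1 : ℝ) ≤ N := by exact_mod_cast (by omega : 1 ≤ N)
  set b : ℕ → ℝ := fun n => ((blockPos q k w (A * p ^ n)).card : ℝ) with hb
  set far : ℕ → ℝ := fun i => (farN p q ((A : ℤ) * (D : ℤ)) 0 ((i + 1) * K) : ℝ) with hfar
  set X : ℝ := C * (1 + (N : ℝ) ^ (1 - ε)) with hX
  have hrp : (1 : ℝ) ≤ (N : ℝ) ^ (1 - ε) := Real.one_le_rpow hN1 (by linarith)
  have hXpos : 0 < X := by positivity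
  have hAD : (A : ℤ) * (D : ℤ) ≠ 0 := by
    have h1 : A ≠ 0 := by omega
    exact mul_ne_zero (by exact_mod_cast h1) (by exact_mod_cast hD.ne')
  have hfarpos : ∀ i, 0 < far i := fun i => farN_pos hq hp hAD _
  set L := N / K + 1 with hL
  set J : ℕ → Finset ℕ := fun i => (Finset.range K).filter fun j =>
    (C : ℝ) * (1 + b (i * K + j)) < far i with hJ
  set I := (Finset.range L).filter fun i => far i ≤ X with hI
  -- the window bound
  have hJcard : ∀ i, ((J i).card : ℝ) ≤ δ * K := by
    intro i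
    have h1 := hwin (A * p ^ (i * K)) (Nat.mul_pos (by omega) (by positivity))
    refine le_trans (le_of_eq ?_) h1
    congr 2
    rw [hJ]
    simp only
    apply Finset.filter_congr
    intro j _
    have e1 : A * p ^ (i * K) * p ^ j = A * p ^ (i * K + j) := by ring
    have e2 : ((A * p ^ (i * K) : ℕ) : ℤ) * ((D * p ^ K : ℕ) : ℤ)
        = (p : ℤ) ^ ((i + 1) * K) * ((A : ℤ) * (D : ℤ)) := by
      push_cast
      ring
    rw [e1, e2]
    rfl
  -- covering
  have hcover : ((Finset.range N).filter fun n => b n < (N : ℝ) ^ (1 - ε)) ⊆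
      ((Finset.range L).biUnion fun i => (J i).image fun j => i * K + j) ∪
        (I.biUnion fun i => (Finset.range K).image fun j => i * K + j) := by
    intro n hn
    rw [Finset.mem_filter, Finset.mem_range] at hn
    have hdm : n / K * K + n % K = n := by rw [mul_comm]; exact Nat.div_add_mod n K
    have hi : n / K ∈ Finset.range L := by
      rw [Finset.mem_range, hL]
      exact Nat.lt_succ_of_le (Nat.div_le_div_right hn.1.le)
    have hj : n % K ∈ Finset.range K := Finset.mem_range.2 (Nat.mod_lt _ hK)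
    rw [Finset.mem_union, Finset.mem_biUnion, Finset.mem_biUnion]
    by_cases h : (C : ℝ) * (1 + b n) < far (n / K)
    · left
      refine ⟨n / K, hi, Finset.mem_image.2 ⟨n % K, ?_, hdm⟩⟩
      rw [hJ]
      simp only
      rw [Finset.mem_filter, hdm]
      exact ⟨hj, h⟩
    · right
      refine ⟨n / K, ?_, Finset.mem_image.2 ⟨n % K, hj, hdm⟩⟩
      rw [hI, Finset.mem_filter]
      refine ⟨hi, ?_⟩
      push Not at h
      refine h.trans ?_
      rw [hX]
      exact mul_le_mul_of_nonneg_left (by linarith [hn.2]) hCr.le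
  have hcard1 : (((Finset.range N).filter fun n => b n < (N : ℝ) ^ (1 - ε)).card : ℝ) ≤
      ∑ i ∈ Finset.range L, ((J i).card : ℝ) + (I.card : ℝ) * K := by
    have h1 := (Finset.card_le_card hcover).trans (Finset.card_union_le _ _)
    have h2 : ((Finset.range L).biUnion fun i => (J i).image fun j => i * K + j).card ≤
        ∑ i ∈ Finset.range L, (J i).card :=
      Finset.card_biUnion_le.trans (Finset.sum_le_sum fun _ _ => Finset.card_image_le)
    have h3 : (I.biUnion fun i => (Finset.range K).image fun j => i * K + j).card ≤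
        I.card * K := by
      refine Finset.card_biUnion_le.trans ?_
      calc ∑ i ∈ I, ((Finset.range K).image fun j => i * K + j).card
          ≤ ∑ _i ∈ I, K := Finset.sum_le_sum fun _ _ =>
            Finset.card_image_le.trans (by rw [Finset.card_range])
        _ = I.card * K := by rw [Finset.sum_const, smul_eq_mul]
    have h4 := h1.trans (Nat.add_le_add h2 h3)
    exact_mod_cast h4
  have hpart1 : ∑ i ∈ Finset.range L, ((J i).card : ℝ) ≤ η / 2 * N := by
    calc ∑ i ∈ Finset.range L, ((J i).card : ℝ) ≤ ∑ _i ∈ Finset.range L, δ * (K : ℝ) :=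
          Finset.sum_le_sum fun i _ => hJcard i
      _ = δ * (L * K) := by rw [Finset.sum_const, Finset.card_range, nsmul_eq_mul]; ring
      _ ≤ δ * (2 * N) := by
          apply mul_le_mul_of_nonneg_left _ hδ.le
          have h1 : L * K ≤ 2 * N := by
            rw [hL, add_mul, one_mul]
            have := Nat.div_mul_le_self N K
            omega
          exact_mod_cast h1
      _ ≤ η / 4 * (2 * N) := mul_le_mul_of_nonneg_right hδη (by positivity)
      _ = _ := by ring
  have hIcard : (I.card : ℝ) ≤ X * (C₂ * ((N + K + 1 : ℕ) : ℝ) ^ (ε / 2)) := by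
    have h1 : (I.card : ℝ) * (1 / X) ≤ C₂ * ((N + K + 1 : ℕ) : ℝ) ^ (ε / 2) := by
      calc (I.card : ℝ) * (1 / X) = ∑ _i ∈ I, 1 / X := by
            rw [Finset.sum_const, nsmul_eq_mul]
        _ ≤ ∑ i ∈ I, 1 / far i := by
            apply Finset.sum_le_sum
            intro i hi
            rw [hI, Finset.mem_filter] at hi
            exact one_div_le_one_div_of_le (hfarpos i) hi.2
        _ = ∑ t ∈ I.image (fun i => (i + 1) * K),
              1 / (farN p q ((A : ℤ) * (D : ℤ)) 0 t : ℝ) := by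
            rw [Finset.sum_image]
            intro x _ y _ hxy
            have := Nat.eq_of_mul_eq_mul_right hK hxy
            omega
        _ ≤ ∑ t ∈ Finset.range (N + K + 1), 1 / (farN p q ((A : ℤ) * (D : ℤ)) 0 t : ℝ) := by
            apply Finset.sum_le_sum_of_subset_of_nonneg
            · intro t ht
              rw [Finset.mem_image] at ht
              obtain ⟨i, hi, rfl⟩ := ht
              rw [hI, Finset.mem_filter, Finset.mem_range] at hi
              rw [Finset.mem_range]
              have h2 : i ≤ N / K := by omega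
              have h3 : i * K ≤ N := (Nat.mul_le_mul_right K h2).trans (Nat.div_mul_le_self N K)
              rw [add_mul, one_mul]
              omega
            · intro t _ _
              positivity
        _ ≤ _ := hharm _ hAD _
    rw [mul_one_div, div_le_iff₀ hXpos] at h1
    linarith
  have hpart2 : (I.card : ℝ) * K ≤ η / 2 * N := by
    have h1 : X ≤ 2 * C * (N : ℝ) ^ (1 - ε) := by
      rw [hX]
      have : (C : ℝ) * (1 + (N : ℝ) ^ (1 - ε)) ≤ C * ((N : ℝ) ^ (1 - ε) + (N : ℝ) ^ (1 - ε)) :=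
        mul_le_mul_of_nonneg_left (by linarith) hCr.le
      linarith
    have h2 : ((N + K + 1 : ℕ) : ℝ) ^ (ε / 2) ≤ 2 * (N : ℝ) ^ (ε / 2) := by
      have h3 : ((N + K + 1 : ℕ) : ℝ) ≤ 2 * N := by
        have : N + K + 1 ≤ 2 * N := by omega
        exact_mod_cast this
      calc ((N + K + 1 : ℕ) : ℝ) ^ (ε / 2) ≤ (2 * (N : ℝ)) ^ (ε / 2) :=
            Real.rpow_le_rpow (by positivity) h3 (by linarith)
        _ = (2 : ℝ) ^ (ε / 2) * (N : ℝ) ^ (ε / 2) := Real.mul_rpow (by norm_num) hNpos.le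
        _ ≤ (2 : ℝ) ^ (1 : ℝ) * (N : ℝ) ^ (ε / 2) := by
            apply mul_le_mul_of_nonneg_right _ (by positivity)
            exact Real.rpow_le_rpow_of_exponent_le (by norm_num) (by linarith)
        _ = _ := by rw [Real.rpow_one]
    have h3 : (N : ℝ) ^ (1 - ε) * (N : ℝ) ^ (ε / 2) = N * (N : ℝ) ^ (-(ε / 2)) := by
      rw [← Real.rpow_add hNpos]
      conv_rhs => rw [← Real.rpow_one_add' hNpos.le (by linarith)]
      congr 1
      ring
    have h4 : (N : ℝ) ^ (-(ε / 2)) ≤ η / (8 * K * C * C₂) := (hN₁ N hNN₁).le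
    calc (I.card : ℝ) * K ≤ (X * (C₂ * ((N + K + 1 : ℕ) : ℝ) ^ (ε / 2))) * K :=
          mul_le_mul_of_nonneg_right hIcard hKr.le
      _ ≤ ((2 * C * (N : ℝ) ^ (1 - ε)) * (C₂ * (2 * (N : ℝ) ^ (ε / 2)))) * K := by
          gcongr
      _ = 4 * K * C * C₂ * ((N : ℝ) ^ (1 - ε) * (N : ℝ) ^ (ε / 2)) := by ring
      _ = 4 * K * C * C₂ * N * (N : ℝ) ^ (-(ε / 2)) := by rw [h3]; ring
      _ ≤ 4 * K * C * C₂ * N * (η / (8 * K * C * C₂)) := by gcongr
      _ = η / 2 * N := by field_simp; ring
  calc (((Finset.range N).filter fun n => b n < (N : ℝ) ^ (1 - ε)).card : ℝ)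
      ≤ ∑ i ∈ Finset.range L, ((J i).card : ℝ) + (I.card : ℝ) * K := hcard1
    _ ≤ η / 2 * N + η / 2 * N := add_le_add hpart1 hpart2
    _ = η * N := by ring

end SST
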