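import Pool.Agent.Subspace.Counting

/-!
# The auxiliary polynomial
-/

namespace SST

open MvPolynomial

/-- The properties of the auxiliary polynomial. -/
structure AuxProp {κ V : Type} [Fintype κ] [DecidableEq κ] (M : Matrix κ κ ℚ) (a : V → κ → ℝ)
    (c : κ → ℝ) (η C₁ : ℝ) {m : ℕ} (r : Fin m → ℕ) (P : MvPolynomial (Fin m × κ) ℤ) : Prop where
  ne : P ≠ 0
  hom : ∀ s ∈ P.support, ∀ h, ∑ i, s (h, i) = r h
  ht : Real.log (l1Z P) ≤ C₁ * ∑ h, (r h : ℝ)
  fin : ∀ v, ∀ s ∈ P.support,
    m * ((∑ i, a v i) / Fintype.card κ - η) ≤ ∑ h, (∑ i, a v i * s (h, i)) / (r h : ℝ)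
  inf : ∀ s ∈ (lsub M⁻¹ (map (Int.castRingHom ℚ) P)).support,
    ∑ h, (∑ i, c i * s (h, i)) / (r h : ℝ) ≤ m * ((∑ i, c i) / Fintype.card κ + η)

namespace AuxPf

attribute [local instance] Matrix.seminormedAddCommGroup

/-! ### Siegel's lemma -/

lemma siegel {α β : Type} [Fintype α] [Fintype β] (A : Matrix α β ℤ) {K : ℝ} (hK : 1 ≤ K)
    (hA : ∀ i j, |(A i j : ℝ)| ≤ K) (hc : 2 * Fintype.card α ≤ Fintype.card β)
    (hβ : 0 < Fintype.card β) :
    ∃ t : β → ℤ, t ≠ 0 ∧ (∀ i, ∑ j, A i j * t j = 0) ∧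
      ∀ j, |(t j : ℝ)| ≤ Fintype.card β * K := by
  have hβ1 : (1 : ℝ) ≤ Fintype.card β := by exact_mod_cast hβ
  rcases Nat.eq_zero_or_pos (Fintype.card α) with h0 | h0
  · have : Nonempty β := Fintype.card_pos_iff.1 hβ
    have : IsEmpty α := Fintype.card_eq_zero_iff.1 h0
    refine ⟨fun _ => 1, ?_, fun i => isEmptyElim i, fun j => ?_⟩
    · intro h
      have := congrFun h (Classical.arbitrary β)
      simp at this
    · simp only [Int.cast_one, abs_one]
      nlinarith
  · obtain ⟨t, ht, hAt, hn⟩ := Int.Matrix.exists_ne_zero_int_vec_norm_le A (by omega) h0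
    refine ⟨t, ht, fun i => congrFun hAt i, fun j => ?_⟩
    have h1 : |(t j : ℝ)| ≤ ‖t‖ := by
      have := norm_le_pi_norm t j
      rwa [Int.norm_eq_abs] at this
    refine h1.trans (hn.trans ?_)
    have hAK : ‖A‖ ≤ K := by
      rw [Matrix.norm_le_iff (by linarith)]
      intro i j
      rw [Int.norm_eq_abs]
      exact hA i j
    have hmax : max 1 ‖A‖ ≤ K := max_le hK hAK
    have hbase : 1 ≤ (Fintype.card β : ℝ) * max 1 ‖A‖ := by
      have : (1 : ℝ) ≤ max 1 ‖A‖ := le_max_left _ _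
      nlinarith
    have hexp : (Fintype.card α : ℝ) / ((Fintype.card β : ℝ) - Fintype.card α) ≤ 1 := by
      have h2 : (2 : ℝ) * Fintype.card α ≤ Fintype.card β := by exact_mod_cast hc
      have h3 : (1 : ℝ) ≤ Fintype.card α := by exact_mod_cast h0
      rw [div_le_one (by linarith)]
      linarith
    calc ((Fintype.card β : ℝ) * max 1 ‖A‖) ^
          ((Fintype.card α : ℝ) / ((Fintype.card β : ℝ) - Fintype.card α))
        ≤ ((Fintype.card β : ℝ) * max 1 ‖A‖) ^ (1 : ℝ) :=
          Real.rpow_le_rpow_of_exponent_le hbase hexp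
      _ = (Fintype.card β : ℝ) * max 1 ‖A‖ := Real.rpow_one _
      _ ≤ Fintype.card β * K := mul_le_mul_of_nonneg_left hmax (by linarith)

/-! ### Clearing denominators -/

lemma exists_int_matrix {κ : Type} [Fintype κ] (M : Matrix κ κ ℚ) :
    ∃ (d : ℤ) (N : Matrix κ κ ℤ), d ≠ 0 ∧ N.map (Int.castRingHom ℚ) = (d : ℚ) • M := by
  obtain ⟨b, hb⟩ := IsLocalization.exist_integer_multiples_of_finite (nonZeroDivisors ℤ)
    (fun x : κ × κ => M x.1 x.2)
  choose f hf using fun x => hb x
  refine ⟨b, Matrix.of fun i j => f (i, j), nonZeroDivisors.ne_zero b.2, ?_⟩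
  ext i j
  have := hf (i, j)
  rw [Matrix.map_apply, Matrix.smul_apply, Matrix.of_apply, smul_eq_mul]
  rw [algebraMap_int_eq] at this
  rw [this]
  simp [zsmul_eq_mul]

/-! ### Homogeneity -/

section Hom

variable {R κ : Type*} [CommRing R] [Fintype κ] {m : ℕ}

/-- the block degree as a weight -/
def blk (x : Fin m × κ) : Fin m → ℕ := Pi.single x.1 1

lemma weight_blk (s : Fin m × κ →₀ ℕ) (h : Fin m) :
    (Finsupp.weight (blk (κ := κ)) s) h = ∑ i, s (h, i) := by
  classical
  rw [Finsupp.weight_apply, Finsupp.sum_fintype _ _ (by simp), Finset.sum_apply,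
    Fintype.sum_prod_type, Finset.sum_eq_single h]
  · simp [blk]
  · intro h' _ hne
    apply Finset.sum_eq_zero
    intro i _
    simp [blk, hne.symm]
  · intro h'; exact absurd (Finset.mem_univ _) h'

lemma hom_lsub (N : Matrix κ κ R) (r : Fin m → ℕ) (P : MvPolynomial (Fin m × κ) R)
    (hP : ∀ s ∈ P.support, ∀ h, ∑ i, s (h, i) = r h) :
    ∀ s ∈ (lsub N P).support, ∀ h, ∑ i, s (h, i) = r h := by
  classical
  have key : IsWeightedHomogeneous (blk (κ := κ)) (lsub N P) r := by
    unfold lsub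
    rw [P.as_sum, map_sum]
    apply IsWeightedHomogeneous.sum
    intro s hs
    rw [bind₁_monomial]
    have h1 : IsWeightedHomogeneous (blk (κ := κ))
        (∏ x ∈ s.support, (∑ j, C (N x.2 j) * X (x.1, j) : MvPolynomial (Fin m × κ) R) ^ s x)
        (∑ x ∈ s.support, s x • blk x) := by
      apply IsWeightedHomogeneous.prod
      intro x _
      apply IsWeightedHomogeneous.pow
      apply IsWeightedHomogeneous.sum
      intro j _
      have h2 := (isWeightedHomogeneous_C (blk (κ := κ) (m := m)) (N x.2 j)).mul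
        (isWeightedHomogeneous_X R (blk (κ := κ) (m := m)) (x.1, j))
      rw [zero_add] at h2
      exact h2
    have h3 := (isWeightedHomogeneous_C (blk (κ := κ) (m := m)) (coeff s P)).mul h1
    rw [zero_add] at h3
    have h4 : (∑ x ∈ s.support, s x • blk (κ := κ) x) = r := by
      funext h
      rw [← hP s hs h, ← weight_blk, Finsupp.weight_apply]
      rfl
    rw [h4] at h3
    exact h3
  intro s hs h
  rw [← weight_blk, key (mem_support_iff.1 hs)]

lemma sum_support_eq (s : Fin m × κ →₀ ℕ) (r : Fin m → ℕ) (hs : ∀ h, ∑ i, s (h, i) = r h) :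
    ∑ x ∈ s.support, s x = ∑ h, r h := by
  have h1 : ∑ x ∈ s.support, s x = ∑ x, s x := by
    have := Finsupp.sum_fintype s (fun _ k => k) (by simp)
    rw [← this]; rfl
  rw [h1, Fintype.sum_prod_type]
  exact Finset.sum_congr rfl fun h _ => hs h

lemma lsub_smul (c : R) (A : Matrix κ κ R) (r : Fin m → ℕ) (P : MvPolynomial (Fin m × κ) R)
    (hP : ∀ s ∈ P.support, ∀ h, ∑ i, s (h, i) = r h) :
    lsub (c • A) P = C (c ^ (∑ h, r h)) * lsub A P := by
  unfold lsub
  conv_lhs => rw [P.as_sum, map_sum]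
  conv_rhs => rw [P.as_sum, map_sum, Finset.mul_sum]
  refine Finset.sum_congr rfl fun s hs => ?_
  rw [bind₁_monomial, bind₁_monomial]
  have h1 : ∀ x ∈ s.support, (∑ j, C ((c • A) x.2 j) * X (x.1, j) : MvPolynomial (Fin m × κ) R)
      ^ s x = C (c ^ s x) * (∑ j, C (A x.2 j) * X (x.1, j)) ^ s x := by
    intro x _
    rw [C_pow, ← mul_pow, Finset.mul_sum]
    congr 1
    refine Finset.sum_congr rfl fun j _ => ?_
    rw [Matrix.smul_apply, smul_eq_mul, C_mul, mul_assoc]
  rw [Finset.prod_congr rfl h1, Finset.prod_mul_distrib, ← map_prod, Finset.prod_pow_eq_pow_sum,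
    sum_support_eq s r (hP s hs)]
  ring

end Hom

section Lsub

variable {R S κ τ : Type*} [CommRing R] [CommRing S] [Fintype κ] {m : ℕ}

lemma map_lsub (f : R →+* S) (N : Matrix κ κ R) (P : MvPolynomial (Fin m × κ) R) :
    map f (lsub N P) = lsub (N.map f) (map f P) := by
  unfold lsub
  rw [map_bind₁]
  congr 1
  congr 1
  funext x
  simp

end Lsub

section Upper

variable {κ : Type} [Fintype κ] {m : ℕ}

lemma l1_lsub (N : Matrix κ κ ℝ) {μ : ℝ} (hμ : ∀ i, ∑ j, |N i j| ≤ μ) (r : Fin m → ℕ)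
    (P : MvPolynomial (Fin m × κ) ℝ) (hP : ∀ s ∈ P.support, ∀ h, ∑ i, s (h, i) = r h) :
    l1 (lsub N P) ≤ l1 P * μ ^ (∑ h, r h) := by
  unfold lsub
  apply l1_bind₁_le
  intro s hs
  calc ∏ x ∈ s.support, l1 (∑ j, C (N x.2 j) * X (x.1, j) : MvPolynomial (Fin m × κ) ℝ) ^ s x
      ≤ ∏ x ∈ s.support, μ ^ s x := by
        refine Finset.prod_le_prod (fun x _ => pow_nonneg (l1_nonneg _) _) fun x _ => ?_
        refine pow_le_pow_left₀ (l1_nonneg _) ?_ _
        refine (l1_sum _ _).trans (le_trans (Finset.sum_le_sum fun j _ => ?_) (hμ x.2))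
        refine (l1_mul _ _).trans ?_
        rw [l1_C, l1_X, mul_one]
    _ = μ ^ (∑ h, r h) := by
        rw [Finset.prod_pow_eq_pow_sum, sum_support_eq s r (hP s hs)]

end Upper

/-! ### Exponents -/

section Exps

variable {κ : Type} [Fintype κ] [DecidableEq κ] {m : ℕ}

/-- exponent vector of a curried exponent -/
noncomputable def toF (s : Fin m → κ → ℕ) : Fin m × κ →₀ ℕ :=
  Finsupp.equivFunOnFinite.symm fun x => s x.1 x.2

omit [DecidableEq κ] in
@[simp] lemma toF_apply (s : Fin m → κ → ℕ) (h : Fin m) (i : κ) : toF s (h, i) = s h i := rfl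

omit [DecidableEq κ] in
lemma toF_injective : Function.Injective (toF (κ := κ) (m := m)) := by
  intro s t h
  funext x i
  have := DFunLike.congr_fun h (x, i)
  simpa using this

omit [DecidableEq κ] in
lemma toF_curry (u : Fin m × κ →₀ ℕ) : toF (fun h i => u (h, i)) = u := by
  ext x
  rfl

lemma mem_mons (r : Fin m → ℕ) (s : Fin m → κ → ℕ) :
    s ∈ mons κ r ↔ ∀ h, ∑ i, s h i = r h := by
  unfold mons
  rw [Fintype.mem_piFinset]
  simp [Finset.mem_piAntidiag]

lemma card_mons_le (r : Fin m → ℕ) :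
    ((mons κ r).card : ℝ) ≤ (2 ^ Fintype.card κ : ℝ) ^ (∑ h, r h) := by
  have h1 : ∀ n : ℕ, (Finset.piAntidiag (Finset.univ : Finset κ) n).card ≤
      (2 ^ Fintype.card κ) ^ n := by
    intro n
    have hsub : Finset.piAntidiag (Finset.univ : Finset κ) n ⊆
        Fintype.piFinset fun _ : κ => Finset.range (n + 1) := by
      intro s hs
      rw [Finset.mem_piAntidiag] at hs
      rw [Fintype.mem_piFinset]
      intro i
      rw [Finset.mem_range, Nat.lt_succ_iff, ← hs.1]
      exact Finset.single_le_sum (f := s) (fun _ _ => Nat.zero_le _) (Finset.mem_univ i)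
    refine (Finset.card_le_card hsub).trans ?_
    rw [Fintype.card_piFinset]
    simp only [Finset.card_range, Finset.prod_const, Finset.card_univ]
    rw [← pow_mul, mul_comm, pow_mul]
    exact Nat.pow_le_pow_left Nat.lt_two_pow_self _
  have h2 : (mons κ r).card ≤ (2 ^ Fintype.card κ) ^ (∑ h, r h) := by
    unfold mons
    rw [Fintype.card_piFinset, ← Finset.prod_pow_eq_pow_sum]
    exact Finset.prod_le_prod (fun _ _ => Nat.zero_le _) fun h _ => h1 (r h)
  exact_mod_cast h2

end Exps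

lemma lsub_sum_smul {κ : Type} [Fintype κ] {m : ℕ} {ι : Type} (S : Finset ι) (z : ι → ℤ)
    (N : Matrix κ κ ℤ) (e : ι → (Fin m × κ →₀ ℕ)) :
    lsub N (∑ s ∈ S, monomial (e s) (z s)) = ∑ s ∈ S, C (z s) * lsub N (monomial (e s) 1) := by
  unfold lsub
  rw [map_sum]
  refine Finset.sum_congr rfl fun s _ => ?_
  have : (monomial (e s) (z s) : MvPolynomial (Fin m × κ) ℤ) = C (z s) * monomial (e s) 1 := by
    rw [C_mul_monomial, mul_one]
  rw [this, map_mul, bind₁_C_right]

end AuxPf

open AuxPf in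
theorem exists_aux {κ V : Type} [Fintype κ] [DecidableEq κ] [Nonempty κ] [Fintype V]
    (M : Matrix κ κ ℚ) (hM : M.det ≠ 0) (a : V → κ → ℝ) (c : κ → ℝ) {η : ℝ} (hη : 0 < η) :
    ∃ m₀ : ℕ, ∃ C₁ : ℝ, ∀ m : ℕ, m₀ ≤ m → ∀ r : Fin m → ℕ, (∀ h, 1 ≤ r h) →
      ∃ P : MvPolynomial (Fin m × κ) ℤ, AuxProp M a c η C₁ r P := by
  classical
  obtain ⟨d, N, hd, hN⟩ := exists_int_matrix M⁻¹
  -- bound for a and c
  set B : ℝ := 1 + (∑ v, ∑ i, |a v i|) + ∑ i, |c i| with hBdef
  have ha0 : 0 ≤ ∑ v, ∑ i, |a v i| :=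
    Finset.sum_nonneg fun _ _ => Finset.sum_nonneg fun _ _ => abs_nonneg _
  have hc0 : 0 ≤ ∑ i, |c i| := Finset.sum_nonneg fun _ _ => abs_nonneg _
  have hBa : ∀ v i, |a v i| ≤ B := by
    intro v i
    have h1 : |a v i| ≤ ∑ i, |a v i| :=
      Finset.single_le_sum (f := fun i => |a v i|) (fun _ _ => abs_nonneg _) (Finset.mem_univ i)
    have h2 : ∑ i, |a v i| ≤ ∑ v, ∑ i, |a v i| :=
      Finset.single_le_sum (f := fun v => ∑ i, |a v i|)
        (fun _ _ => Finset.sum_nonneg fun _ _ => abs_nonneg _) (Finset.mem_univ v)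
    linarith
  have hBc : ∀ i, |c i| ≤ B := by
    intro i
    have h1 : |c i| ≤ ∑ i, |c i| :=
      Finset.single_le_sum (f := fun i => |c i|) (fun _ _ => abs_nonneg _) (Finset.mem_univ i)
    linarith
  -- row sums of N
  set ν : ℝ := 1 + ∑ i, ∑ j, |(N i j : ℝ)| with hνdef
  have hν : ∀ i, ∑ j, |(N.map (Int.castRingHom ℝ)) i j| ≤ ν := by
    intro i
    have h1 : ∑ j, |(N i j : ℝ)| ≤ ∑ i, ∑ j, |(N i j : ℝ)| :=
      Finset.single_le_sum (f := fun i => ∑ j, |(N i j : ℝ)|)
        (fun _ _ => Finset.sum_nonneg fun _ _ => abs_nonneg _) (Finset.mem_univ i)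
    have h2 : ∑ j, |(N.map (Int.castRingHom ℝ)) i j| = ∑ j, |(N i j : ℝ)| := by
      simp [Matrix.map_apply]
    rw [h2, hνdef]
    linarith
  have hν1 : 1 ≤ ν := by
    have : 0 ≤ ∑ i, ∑ j, |(N i j : ℝ)| :=
      Finset.sum_nonneg fun _ _ => Finset.sum_nonneg fun _ _ => abs_nonneg _
    rw [hνdef]; linarith
  set D : ℕ := Fintype.card κ with hD
  set vv : ℝ := (Fintype.card V : ℝ) + 1 with hvv
  have hvv1 : 1 ≤ vv := by
    have : (0 : ℝ) ≤ Fintype.card V := Nat.cast_nonneg _
    rw [hvv]; linarith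
  refine ⟨⌈4 * vv * (2 * B) ^ 2 / η ^ 2⌉₊ + 1,
    2 * (D * Real.log 2) + Real.log ν, fun m hm r hr => ?_⟩
  have hm1 : (1 : ℝ) ≤ m := by
    have : 1 ≤ m := le_trans (by omega) hm
    exact_mod_cast this
  have hm2 : 4 * vv * (2 * B) ^ 2 / η ^ 2 ≤ m := by
    have h1 : (⌈4 * vv * (2 * B) ^ 2 / η ^ 2⌉₊ : ℝ) + 1 ≤ m := by exact_mod_cast hm
    have h2 := Nat.le_ceil (4 * vv * (2 * B) ^ 2 / η ^ 2)
    linarith
  have hm3 : 4 * vv * (2 * B) ^ 2 ≤ m * η ^ 2 := by
    rwa [div_le_iff₀ (by positivity)] at hm2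
  -- counting
  have hcount : ∀ φ : κ → ℝ, (∀ i, |φ i| ≤ B) →
      4 * vv * (((mons κ r).filter fun s => m * η ≤
        |∑ h, (∑ i, φ i * s h i) / (r h : ℝ) - m * ((∑ i, φ i) / Fintype.card κ)|).card : ℝ)
        ≤ (mons κ r).card := by
    intro φ hφ
    have h1 := count_bad r hr φ hφ hη
    set b : ℝ := (((mons κ r).filter fun s => m * η ≤
        |∑ h, (∑ i, φ i * s h i) / (r h : ℝ) - m * ((∑ i, φ i) / Fintype.card κ)|).card : ℝ)
    have hb0 : 0 ≤ b := Nat.cast_nonneg _
    have h2 : b * (m * η ^ 2) * m ≤ (2 * B) ^ 2 * (mons κ r).card * m := by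
      calc b * (m * η ^ 2) * m = b * (m * η) ^ 2 := by ring
        _ ≤ m * (2 * B) ^ 2 * (mons κ r).card := h1
        _ = (2 * B) ^ 2 * (mons κ r).card * m := by ring
    have h3 : b * (m * η ^ 2) ≤ (2 * B) ^ 2 * (mons κ r).card :=
      le_of_mul_le_mul_right h2 (by linarith)
    have h4 : b * (4 * vv * (2 * B) ^ 2) ≤ b * (m * η ^ 2) := mul_le_mul_of_nonneg_left hm3 hb0
    have hBpos : 0 < (2 * B) ^ 2 := by
      have : 1 ≤ B := by rw [hBdef]; linarith
      positivity
    have h5 : (4 * vv * b) * (2 * B) ^ 2 ≤ (mons κ r).card * (2 * B) ^ 2 := by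
      calc (4 * vv * b) * (2 * B) ^ 2 = b * (4 * vv * (2 * B) ^ 2) := by ring
        _ ≤ (2 * B) ^ 2 * (mons κ r).card := h4.trans h3
        _ = _ := by ring
    exact le_of_mul_le_mul_right h5 hBpos
  -- the good monomials and the bad exponents
  set bad : (κ → ℝ) → Finset (Fin m → κ → ℕ) := fun φ => (mons κ r).filter fun s => m * η ≤
        |∑ h, (∑ i, φ i * s h i) / (r h : ℝ) - m * ((∑ i, φ i) / Fintype.card κ)| with hbad
  set G : Finset (Fin m → κ → ℕ) := (mons κ r).filter fun s => ∀ v, s ∉ bad (a v) with hG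
  have hGsub : mons κ r ⊆ G ∪ Finset.univ.biUnion fun v => bad (a v) := by
    intro s hs
    by_cases h : ∀ v, s ∉ bad (a v)
    · exact Finset.mem_union_left _ (Finset.mem_filter.2 ⟨hs, h⟩)
    · push Not at h
      obtain ⟨v, hv⟩ := h
      exact Finset.mem_union_right _ (Finset.mem_biUnion.2 ⟨v, Finset.mem_univ _, hv⟩)
  have hcardG : (mons κ r).card ≤ G.card + ∑ v, (bad (a v)).card :=
    (Finset.card_le_card hGsub).trans ((Finset.card_union_le _ _).trans
      (Nat.add_le_add_left Finset.card_biUnion_le _))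
  have hmonspos : (0 : ℝ) < (mons κ r).card := by
    have : (mons κ r).Nonempty := by
      refine ⟨fun h => Pi.single (Classical.arbitrary κ) (r h), ?_⟩
      rw [mem_mons]
      intro h
      rw [Finset.sum_pi_single']
      simp
    exact_mod_cast this.card_pos
  have hbadc := hcount c hBc
  have hbada : (4 * vv) * ∑ v, ((bad (a v)).card : ℝ) ≤ Fintype.card V * (mons κ r).card := by
    rw [Finset.mul_sum]
    refine (Finset.sum_le_sum fun v _ => hcount (a v) (hBa v)).trans ?_
    rw [Finset.sum_const, Finset.card_univ, nsmul_eq_mul]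
  have hGc : (3 : ℝ) * (mons κ r).card ≤ 4 * G.card := by
    have h1 : ((mons κ r).card : ℝ) ≤ G.card + ∑ v, ((bad (a v)).card : ℝ) := by
      exact_mod_cast hcardG
    have h2 : (Fintype.card V : ℝ) * (mons κ r).card ≤ vv * (mons κ r).card :=
      mul_le_mul_of_nonneg_right (by rw [hvv]; linarith) hmonspos.le
    have h3 : vv * (4 * ∑ v, ((bad (a v)).card : ℝ)) ≤ vv * (mons κ r).card := by linarith
    have h4 := le_of_mul_le_mul_left h3 (by linarith)
    linarith
  have hBc2 : (4 : ℝ) * (bad c).card ≤ (mons κ r).card := by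
    have h0 : (0 : ℝ) ≤ (bad c).card := Nat.cast_nonneg _
    have h1 : 4 * ((bad c).card : ℝ) ≤ 4 * vv * (bad c).card := by nlinarith
    exact h1.trans hbadc
  have hcards : 2 * (bad c).card ≤ G.card := by
    have : 2 * ((bad c).card : ℝ) ≤ G.card := by linarith
    exact_mod_cast this
  have hGpos : 0 < G.card := by
    have : (0 : ℝ) < G.card := by linarith
    exact_mod_cast this
  -- the linear system
  set R : ℕ := ∑ h, r h with hR
  have hhom1 : ∀ s ∈ mons κ r, ∀ u ∈ (monomial (toF s) (1 : ℤ)).support,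
      ∀ h, ∑ i, u (h, i) = r h := by
    intro s hs u hu h
    have := support_monomial_subset hu
    rw [Finset.mem_singleton] at this
    subst this
    exact (mem_mons r s).1 hs h
  set A : Matrix (bad c) G ℤ := Matrix.of fun u s =>
    coeff (toF (u : Fin m → κ → ℕ)) (lsub N (monomial (toF (s : Fin m → κ → ℕ)) 1)) with hA
  have hGm : ∀ s ∈ G, s ∈ mons κ r := fun s hs => (Finset.mem_filter.1 hs).1
  have hAb : ∀ u s, |(A u s : ℝ)| ≤ ν ^ R := by
    intro u s
    have h1 := abs_coeff_le_l1Z (lsub N (monomial (toF (s : Fin m → κ → ℕ)) 1))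
      (toF (u : Fin m → κ → ℕ))
    refine h1.trans ?_
    unfold l1Z
    rw [map_lsub, map_monomial]
    have h2 := l1_lsub (N.map (Int.castRingHom ℝ)) hν r
      (monomial (toF (s : Fin m → κ → ℕ)) ((Int.castRingHom ℝ) 1)) (by
        intro w hw h
        have := support_monomial_subset hw
        rw [Finset.mem_singleton] at this
        subst this
        exact (mem_mons r _).1 (hGm _ s.2) h)
    refine h2.trans (le_of_eq ?_)
    rw [l1_monomial, hR]
    simp
  obtain ⟨z, hz0, hzA, hzb⟩ := siegel A (K := ν ^ R) (one_le_pow₀ hν1) hAb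
    (by rw [Fintype.card_coe, Fintype.card_coe]; exact hcards)
    (by rw [Fintype.card_coe]; exact hGpos)
  rw [Fintype.card_coe] at hzb
  -- the polynomial
  set P : MvPolynomial (Fin m × κ) ℤ :=
    ∑ s : G, monomial (toF (s : Fin m → κ → ℕ)) (z s) with hP
  have hcoeffP : ∀ s : G, coeff (toF (s : Fin m → κ → ℕ)) P = z s := by
    intro s
    rw [hP, coeff_sum, Finset.sum_eq_single s]
    · rw [coeff_monomial, if_pos rfl]
    · intro t _ hts
      rw [coeff_monomial, if_neg]
      intro h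
      exact hts (Subtype.ext (toF_injective h))
    · intro h; exact absurd (Finset.mem_univ _) h
  have hsuppP : ∀ u ∈ P.support, ∃ s ∈ G, u = toF s := by
    intro u hu
    by_contra hcon
    push Not at hcon
    rw [mem_support_iff] at hu
    apply hu
    rw [hP, coeff_sum]
    refine Finset.sum_eq_zero fun s _ => ?_
    rw [coeff_monomial, if_neg]
    intro h
    exact hcon s s.2 h.symm
  have hhomP : ∀ s ∈ P.support, ∀ h, ∑ i, s (h, i) = r h := by
    intro u hu h
    obtain ⟨s, hs, rfl⟩ := hsuppP u hu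
    exact (mem_mons r s).1 (hGm s hs) h
  refine ⟨P, ?_, hhomP, ?_, ?_, ?_⟩
  · -- nonzero
    intro h
    apply hz0
    funext s
    rw [← hcoeffP s, h]
    simp
  · -- height
    have hne : P ≠ 0 := by
      intro h
      apply hz0
      funext s
      rw [← hcoeffP s, h]
      simp
    have h1 : l1Z P ≤ G.card * (G.card * ν ^ R) := by
      unfold l1Z
      rw [hP, map_sum]
      refine (l1_sum _ _).trans ?_
      refine (Finset.sum_le_sum (g := fun _ => (G.card : ℝ) * ν ^ R) fun s _ => ?_).trans ?_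
      · rw [map_monomial, l1_monomial]
        exact hzb s
      · rw [Finset.sum_const, Finset.card_univ, Fintype.card_coe, nsmul_eq_mul]
    have hGle : (G.card : ℝ) ≤ (2 ^ D : ℝ) ^ R := by
      refine le_trans ?_ (card_mons_le r)
      exact_mod_cast Finset.card_le_card (Finset.filter_subset _ _)
    have hν0 : (0 : ℝ) ≤ ν ^ R := by positivity
    have h2 : l1Z P ≤ (2 ^ D : ℝ) ^ R * ((2 ^ D : ℝ) ^ R * ν ^ R) := by
      refine h1.trans ?_
      have hG0 : (0 : ℝ) ≤ G.card := Nat.cast_nonneg _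
      exact mul_le_mul hGle (mul_le_mul_of_nonneg_right hGle hν0) (by positivity) (by positivity)
    have h3 := Real.log_le_log (by linarith [one_le_l1Z hne]) h2
    refine h3.trans (le_of_eq ?_)
    have e1 : Real.log ((2 ^ D : ℝ) ^ R) = R * (D * Real.log 2) := by
      rw [Real.log_pow, Real.log_pow]
    rw [Real.log_mul (by positivity) (by positivity), Real.log_mul (by positivity) (by positivity),
      e1, Real.log_pow]
    have e2 : (R : ℝ) = ∑ h, (r h : ℝ) := by rw [hR]; push_cast; rfl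
    rw [← e2]
    ring
  · -- fin
    intro v u hu
    obtain ⟨s, hs, rfl⟩ := hsuppP u hu
    have h1 := (Finset.mem_filter.1 hs).2 v
    rw [hbad] at h1
    simp only [Finset.mem_filter, not_and, not_le] at h1
    have h2 := h1 (hGm s hs)
    have h3 := (abs_lt.1 h2).1
    simp only [toF_apply]
    rw [← hD] at h3
    have h4 : (m : ℝ) * ((∑ i, a v i) / D - η) = m * ((∑ i, a v i) / D) - m * η := by ring
    rw [h4]
    linarith
  · -- inf
    intro u hu
    by_contra hcon
    push Not at hcon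
    have hhomQ : ∀ s ∈ (map (Int.castRingHom ℚ) P).support, ∀ h, ∑ i, s (h, i) = r h :=
      fun s hs => hhomP s (support_map_subset _ _ hs)
    have huhom := hom_lsub M⁻¹ r _ hhomQ u hu
    set s : Fin m → κ → ℕ := fun h i => u (h, i) with hs
    have hsm : s ∈ mons κ r := (mem_mons r s).2 huhom
    have hsb : s ∈ bad c := by
      rw [hbad]
      simp only [Finset.mem_filter]
      refine ⟨hsm, ?_⟩
      rw [le_abs]
      left
      rw [← hD]
      have h4 : (m : ℝ) * ((∑ i, c i) / D + η) = m * ((∑ i, c i) / D) + m * η := by ring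
      rw [h4] at hcon
      linarith
    have huz : coeff u (lsub N P) = 0 := by
      have h1 := hzA ⟨s, hsb⟩
      rw [hP, lsub_sum_smul, coeff_sum, ← h1]
      refine Finset.sum_congr rfl fun t _ => ?_
      have hus : toF s = u := toF_curry u
      rw [coeff_C_mul, hA, Matrix.of_apply, mul_comm, ← hus]
    have h2 : map (Int.castRingHom ℚ) (lsub N P) =
        C ((d : ℚ) ^ R) * lsub M⁻¹ (map (Int.castRingHom ℚ) P) := by
      rw [map_lsub, hN, lsub_smul _ _ r _ hhomQ]
    have h3 : coeff u (map (Int.castRingHom ℚ) (lsub N P)) = 0 := by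
      rw [coeff_map, huz]; simp
    rw [h2, coeff_C_mul] at h3
    rcases mul_eq_zero.1 h3 with h4 | h4
    · have : (d : ℚ) ≠ 0 := by exact_mod_cast hd
      exact pow_ne_zero _ this h4
    · exact (mem_support_iff.1 hu) h4

end SST
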