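import Mathlib
import Pool.Agent.DigitPowers.FarBasic

/-!
# Multi-scale argument: definitions
-/

namespace SST

open Pool.Agent.DigitPowers

/-- `κ` is a free cell of length `T'`: all levels in it are near. -/
def Free (q T' κ : ℕ) (x : ℤ) : Prop :=
  ∀ l, κ * T' ≤ l → l < (κ + 1) * T' → Near q 0 l x

/-- `κ` is a cell contained in a run whose multiple `Y` is divisible by `P`. -/
def OldCell (q T' κ : ℕ) (P x : ℤ) : Prop :=
  ∃ Y : ℤ, P ∣ Y ∧ (q : ℤ) ^ ((κ + 1) * T' - 1) ∣ Y ∧
    ((q : ℤ) + 1) * |x - Y| < (q : ℤ) ^ (κ * T')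

/-- The cells of length `T'` in the three `M T'`-cells around the `M T'`-cell `k`. -/
def region (M k : ℕ) : Finset ℕ := Finset.Ico ((k - 1) * M) ((k + 2) * M)

open Classical in
/-- The cells in the region around `k` containing a far level. -/
noncomputable def hitR (q T' M k : ℕ) (x : ℤ) : Finset ℕ :=
  (region M k).filter fun κ => ¬ Free q T' κ x

open Classical in
/-- The young free cells in the region around `k`. -/
noncomputable def youngR (q T' M k : ℕ) (P x : ℤ) : Finset ℕ :=
  (region M k).filter fun κ => Free q T' κ x ∧ ¬ OldCell q T' κ P x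

/-- The cells of length `T` containing a far level. -/
noncomputable def cells (q T : ℕ) (x : ℤ) : Finset ℕ := (farSet q 0 x).image (· / T)

/-- The potential. -/
noncomputable def pot (p q T : ℕ) (α : ℝ) (x : ℤ) (J : ℕ) : ℝ :=
  ∑ t ∈ Finset.range J, ((T : ℝ) * ((cells q T ((p : ℤ) ^ t * x)).card : ℝ)) ^ (-α)

end SST
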