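import Mathlib

/-!
# Leading indices of a subspace with respect to an order of the coordinates
-/

namespace SST

variable {ι K : Type} [Field K]

/-- The leading (largest key) indices of the nonzero elements of `W`. -/
def Piv (W : Submodule K (ι → K)) (key : ι → ℕ) : Set ι :=
  {i | ∃ w ∈ W, w i ≠ 0 ∧ ∀ i', w i' ≠ 0 → key i' ≤ key i}

/-- A nonzero vector has a leading index. -/
theorem exists_leading [Fintype ι] (key : ι → ℕ) (w : ι → K) (hw : w ≠ 0) :
    ∃ i, w i ≠ 0 ∧ ∀ i', w i' ≠ 0 → key i' ≤ key i := by
  classical
  have hne : (Finset.univ.filter fun i => w i ≠ 0).Nonempty := by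
    by_contra h
    apply hw
    funext i
    by_contra hi
    exact h ⟨i, by simpa using hi⟩
  obtain ⟨i, hi, hmax⟩ := Finset.exists_max_image _ key hne
  refine ⟨i, by simpa using hi, fun i' hi' => hmax i' (by simpa using hi')⟩

/-- A linear form in the coordinates outside the leading indices is not in `W`. -/
theorem eq_zero_of_supp_off_piv [Fintype ι] (W : Submodule K (ι → K)) (key : ι → ℕ)
    (w : ι → K) (hw : w ∈ W) (h : ∀ i ∈ Piv W key, w i = 0) : w = 0 := by
  by_contra hne
  obtain ⟨i, hi, hmax⟩ := exists_leading key w hne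
  exact hi (h i ⟨w, hw, hi, hmax⟩)

/-- Restriction of the elements of `W` to the leading indices. -/
def resPiv (W : Submodule K (ι → K)) (key : ι → ℕ) : W →ₗ[K] (Piv W key → K) :=
  (LinearMap.funLeft K K (fun i : Piv W key => (i : ι))).comp W.subtype

theorem resPiv_apply (W : Submodule K (ι → K)) (key : ι → ℕ) (w : W) (i : Piv W key) :
    resPiv W key w i = (w : ι → K) i := rfl

theorem resPiv_injective [Fintype ι] (W : Submodule K (ι → K)) (key : ι → ℕ) :
    Function.Injective (resPiv W key) := by
  rw [← LinearMap.ker_eq_bot, LinearMap.ker_eq_bot']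
  intro w hw
  apply Subtype.ext
  refine eq_zero_of_supp_off_piv W key w w.2 fun i hi => ?_
  have := congrFun hw ⟨i, hi⟩
  simpa [resPiv_apply] using this

theorem ncard_piv [Fintype ι] (W : Submodule K (ι → K)) (key : ι → ℕ)
    (hkey : Function.Injective key) : (Piv W key).ncard = Module.finrank K W := by
  classical
  have : Fintype (Piv W key) := Fintype.ofFinite _
  have hcard : (Piv W key).ncard = Fintype.card (Piv W key) := by
    rw [← Nat.card_coe_set_eq, Nat.card_eq_fintype_card]
  rw [hcard]
  apply le_antisymm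
  · choose v hv hvi hvmax using fun i : Piv W key => i.2
    have hli : LinearIndependent K (fun i : Piv W key => (⟨v i, hv i⟩ : W)) := by
      rw [Fintype.linearIndependent_iff]
      intro c hc
      by_contra hex
      have hne : c ≠ 0 := by
        intro h
        exact hex fun i => congrFun h i
      obtain ⟨i, hi, hmax⟩ := exists_leading (fun i : Piv W key => key i) c hne
      have h1 : ∑ j, c j * v j (i : ι) = 0 := by
        have h2 := congrArg (fun w : W => (w : ι → K) (i : ι)) hc
        simpa using h2
      rw [Finset.sum_eq_single i] at h1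
      · rcases mul_eq_zero.mp h1 with h | h
        · exact hi h
        · exact hvi i h
      · intro j _ hj
        by_cases hcj : c j = 0
        · simp [hcj]
        · have h3 : key j ≤ key i := hmax j hcj
          have h4 : v j (i : ι) = 0 := by
            by_contra h
            have h5 : key i ≤ key j := hvmax j i h
            exact hj (Subtype.ext (hkey (le_antisymm h3 h5)))
          simp [h4]
      · intro h
        exact absurd (Finset.mem_univ i) h
    exact hli.fintype_card_le_finrank
  · have h := LinearMap.finrank_le_finrank_of_injective (resPiv_injective W key)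
    simpa using h

/-- The restriction of the elements of `W` to the leading indices is an isomorphism. -/
theorem resPiv_bijective [Fintype ι] (W : Submodule K (ι → K)) (key : ι → ℕ)
    (hkey : Function.Injective key) : Function.Bijective (resPiv W key) := by
  classical
  have : Fintype (Piv W key) := Fintype.ofFinite _
  refine ⟨resPiv_injective W key, ?_⟩
  have hcard : (Piv W key).ncard = Fintype.card (Piv W key) := by
    rw [← Nat.card_coe_set_eq, Nat.card_eq_fintype_card]
  have h := ncard_piv W key hkey
  refine (LinearMap.injective_iff_surjective_of_finrank_eq_finrank ?_).mp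
    (resPiv_injective W key)
  rw [← h, hcard]
  simp

/-- The orthogonal of `W`. -/
def perp (W : Submodule K (ι → K)) [Fintype ι] : Submodule K (ι → K) where
  carrier := {z | ∀ w ∈ W, ∑ i, w i * z i = 0}
  add_mem' := by
    intro a b ha hb w hw
    simp only [Pi.add_apply, mul_add, Finset.sum_add_distrib]
    rw [ha w hw, hb w hw, add_zero]
  zero_mem' := by
    intro w _
    simp
  smul_mem' := by
    intro c z hz w hw
    have := hz w hw
    simp only [Pi.smul_apply, smul_eq_mul]
    have h2 : ∑ i, w i * (c * z i) = c * ∑ i, w i * z i := by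
      rw [Finset.mul_sum]
      exact Finset.sum_congr rfl fun i _ => by ring
    rw [h2, this, mul_zero]

theorem mem_perp [Fintype ι] (W : Submodule K (ι → K)) (z : ι → K) :
    z ∈ perp W ↔ ∀ w ∈ W, ∑ i, w i * z i = 0 := Iff.rfl

/-- Restriction of the elements of the orthogonal to the non-leading indices. -/
def resOff [Fintype ι] (W : Submodule K (ι → K)) (key : ι → ℕ) :
    perp W →ₗ[K] ({i // i ∉ Piv W key} → K) :=
  (LinearMap.funLeft K K (fun i : {i // i ∉ Piv W key} => (i : ι))).comp (perp W).subtype

theorem resOff_apply [Fintype ι] (W : Submodule K (ι → K)) (key : ι → ℕ) (z : perp W)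
    (i : {i // i ∉ Piv W key}) : resOff W key z i = (z : ι → K) i := rfl

theorem resOff_bijective [Fintype ι] (W : Submodule K (ι → K)) (key : ι → ℕ)
    (hkey : Function.Injective key) : Function.Bijective (resOff W key) := by
  classical
  have hfin : Fintype (Piv W key) := Fintype.ofFinite _
  let R : W ≃ₗ[K] (Piv W key → K) := LinearEquiv.ofBijective _ (resPiv_bijective W key hkey)
  have hR : ∀ (w : W) (i : Piv W key), R w i = (w : ι → K) i := fun w i => rfl
  -- the dual basis of `W`
  let u : Piv W key → W := fun i => R.symm (Pi.single i 1)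
  have hu : ∀ i j : Piv W key, (u i : ι → K) j = if j = i then 1 else 0 := by
    intro i j
    rw [← hR (u i) j]
    simp only [u, LinearEquiv.apply_symm_apply, Pi.single_apply]
  have hexp : ∀ w : W, w = ∑ i : Piv W key, (w : ι → K) i • u i := by
    intro w
    apply R.injective
    funext j
    rw [map_sum, Finset.sum_apply, hR]
    simp only [map_smul, Pi.smul_apply, smul_eq_mul]
    simp only [hR, hu]
    simp
  constructor
  · rw [← LinearMap.ker_eq_bot, LinearMap.ker_eq_bot']
    intro z hz
    apply Subtype.ext
    funext i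
    by_cases hi : i ∈ Piv W key
    · have h1 := z.2 (u ⟨i, hi⟩) (u ⟨i, hi⟩).2
      rw [Finset.sum_eq_single i] at h1
      · have h2 := hu ⟨i, hi⟩ ⟨i, hi⟩
        simp only [if_true] at h2
        rw [h2, one_mul] at h1
        simpa using h1
      · intro j _ hj
        by_cases hjP : j ∈ Piv W key
        · have h2 := hu ⟨i, hi⟩ ⟨j, hjP⟩
          have h3 : ¬ ((⟨j, hjP⟩ : Piv W key) = ⟨i, hi⟩) := fun h => hj (congrArg Subtype.val h)
          rw [if_neg h3] at h2
          rw [h2, zero_mul]
        · have h2 := congrFun hz ⟨j, hjP⟩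
          have h3 : (z : ι → K) j = 0 := by simpa [resOff_apply] using h2
          rw [h3, mul_zero]
      · intro h
        exact absurd (Finset.mem_univ i) h
    · have h2 := congrFun hz ⟨i, hi⟩
      simpa [resOff_apply] using h2
  · intro y
    let y' : ι → K := fun j => if h : j ∈ Piv W key then 0 else y ⟨j, h⟩
    have hy' : ∀ j (h : j ∉ Piv W key), y' j = y ⟨j, h⟩ := fun j h => by simp [y', h]
    have hy0 : ∀ j, j ∈ Piv W key → y' j = 0 := fun j h => by simp [y', h]
    let z : ι → K := fun i => if h : i ∈ Piv W key then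
      - ∑ j, (u ⟨i, h⟩ : ι → K) j * y' j else y' i
    have hz : ∀ i : Piv W key, ∑ j, (u i : ι → K) j * z j = 0 := by
      intro i
      have h1 : ∀ j, (u i : ι → K) j * z j =
          (if j = (i : ι) then z i else 0) + (u i : ι → K) j * y' j := by
        intro j
        by_cases hj : j ∈ Piv W key
        · rw [hy0 j hj, mul_zero, add_zero]
          have h2 := hu i ⟨j, hj⟩
          by_cases hji : j = (i : ι)
          · have h3 : (⟨j, hj⟩ : Piv W key) = i := Subtype.ext hji
            rw [if_pos h3] at h2
            rw [if_pos hji, h2, one_mul, hji]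
          · have h3 : ¬ ((⟨j, hj⟩ : Piv W key) = i) := fun h => hji (congrArg Subtype.val h)
            rw [if_neg h3] at h2
            rw [if_neg hji, h2, zero_mul]
        · have hji : j ≠ (i : ι) := fun h => hj (h ▸ i.2)
          rw [if_neg hji, zero_add]
          congr 1
          simp [z, hj]
      rw [Finset.sum_congr rfl fun j _ => h1 j, Finset.sum_add_distrib]
      have h3 : z i = - ∑ j, (u i : ι → K) j * y' j := by
        simp [z]
      simp [h3]
    refine ⟨⟨z, ?_⟩, ?_⟩
    · intro w hw
      have h1 := hexp ⟨w, hw⟩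
      have h2 : ∀ j, w j = ∑ i : Piv W key, w i * (u i : ι → K) j := by
        intro j
        have h3 := congrArg (fun w : W => (w : ι → K) j) h1
        simpa using h3
      calc ∑ j, w j * z j = ∑ j, (∑ i : Piv W key, w i * (u i : ι → K) j) * z j := by
            exact Finset.sum_congr rfl fun j _ => by rw [← h2 j]
        _ = ∑ i : Piv W key, w i * ∑ j, (u i : ι → K) j * z j := by
            simp only [Finset.sum_mul, Finset.mul_sum]
            rw [Finset.sum_comm]
            exact Finset.sum_congr rfl fun i _ => Finset.sum_congr rfl fun j _ => by ring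
        _ = 0 := by simp [hz]
    · funext j
      rw [resOff_apply]
      simp [z, j.2, hy' j j.2]

/-- The coordinates `z₀, z i` (`i` not a leading index). -/
def coordA (P : Set ι) (z₀ : K) (z : ι → K) : Option {i // i ∉ P} → K
  | none => z₀
  | some i => z i

/-- The coordinates `z₀, z i - z₀` (`i` not a leading index). -/
def coordB (P : Set ι) (z₀ : K) (z : ι → K) : Option {i // i ∉ P} → K
  | none => z₀
  | some i => z i - z₀

/-- The coordinate system `coordA` as a linear map. -/
def linA [Fintype ι] (W : Submodule K (ι → K)) (key : ι → ℕ) :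
    (K × perp W) →ₗ[K] (Option {i // i ∉ Piv W key} → K) where
  toFun x := coordA (Piv W key) x.1 (x.2 : ι → K)
  map_add' := by
    intro x y
    funext o
    cases o <;> simp [coordA]
  map_smul' := by
    intro c x
    funext o
    cases o <;> simp [coordA]

/-- The coordinate system `coordB` as a linear map. -/
def linB [Fintype ι] (W : Submodule K (ι → K)) (key : ι → ℕ) :
    (K × perp W) →ₗ[K] (Option {i // i ∉ Piv W key} → K) where
  toFun x := coordB (Piv W key) x.1 (x.2 : ι → K)
  map_add' := by
    intro x y
    funext o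
    cases o
    · simp [coordB]
    · simp [coordB]; ring
  map_smul' := by
    intro c x
    funext o
    cases o
    · simp [coordB]
    · simp [coordB]; ring

theorem linA_bijective [Fintype ι] (W : Submodule K (ι → K)) (key : ι → ℕ)
    (hkey : Function.Injective key) : Function.Bijective (linA W key) := by
  obtain ⟨hinj, hsurj⟩ := resOff_bijective W key hkey
  constructor
  · intro x y hxy
    have h0 : x.1 = y.1 := congrFun hxy none
    have h1 : x.2 = y.2 := by
      apply hinj
      funext i
      exact congrFun hxy (some i)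
    exact Prod.ext h0 h1
  · intro f
    obtain ⟨z, hz⟩ := hsurj (fun i => f (some i))
    refine ⟨(f none, z), ?_⟩
    funext o
    cases o with
    | none => rfl
    | some i => exact congrFun hz i

theorem linB_bijective [Fintype ι] (W : Submodule K (ι → K)) (hW : ∀ w ∈ W, ∑ i, w i = 0)
    (key : ι → ℕ) (hkey : Function.Injective key) : Function.Bijective (linB W key) := by
  obtain ⟨hinj, hsurj⟩ := resOff_bijective W key hkey
  have hone : ∀ c : K, (fun _ : ι => c) ∈ perp W := by
    intro c w hw
    rw [← Finset.sum_mul, hW w hw, zero_mul]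
  constructor
  · intro x y hxy
    have h0 : x.1 = y.1 := congrFun hxy none
    have h1 : x.2 = y.2 := by
      apply hinj
      funext i
      have h2 : (x.2 : ι → K) i - x.1 = (y.2 : ι → K) i - y.1 := congrFun hxy (some i)
      rw [h0] at h2
      exact sub_left_injective h2
    exact Prod.ext h0 h1
  · intro f
    obtain ⟨z, hz⟩ := hsurj (fun i => f (some i))
    refine ⟨(f none, z + ⟨fun _ => f none, hone _⟩), ?_⟩
    funext o
    cases o with
    | none => rfl
    | some i =>
      have h1 : (z : ι → K) i = f (some i) := congrFun hz i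
      change ((z : ι → K) i + f none) - f none = f (some i)
      rw [h1, add_sub_cancel_right]

/-- On `K × W^⊥` both systems of coordinates are bases, so there is an invertible matrix of
change of coordinates. -/
theorem exists_change_matrix [Fintype ι] (W : Submodule K (ι → K))
    (hW : ∀ w ∈ W, ∑ i, w i = 0) (ka kb : ι → ℕ) (hka : Function.Injective ka)
    (hkb : Function.Injective kb) :
    ∃ (d : ℕ) (ea : Fin d ≃ Option {i // i ∉ Piv W ka}) (eb : Fin d ≃ Option {i // i ∉ Piv W kb})
      (M : Matrix (Fin d) (Fin d) K), 1 ≤ d ∧ M.det ≠ 0 ∧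
      ∀ (z₀ : K) (z : ι → K), (∀ w ∈ W, ∑ i, w i * z i = 0) →
        ∀ r, ∑ l, M r l * coordA (Piv W ka) z₀ z (ea l) = coordB (Piv W kb) z₀ z (eb r) := by
  classical
  have hfa : Fintype {i // i ∉ Piv W ka} := Fintype.ofFinite _
  have hfb : Fintype {i // i ∉ Piv W kb} := Fintype.ofFinite _
  let A : (K × perp W) ≃ₗ[K] (Option {i // i ∉ Piv W ka} → K) :=
    LinearEquiv.ofBijective _ (linA_bijective W ka hka)
  let B : (K × perp W) ≃ₗ[K] (Option {i // i ∉ Piv W kb} → K) :=
    LinearEquiv.ofBijective _ (linB_bijective W hW kb hkb)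
  let d := Fintype.card (Option {i // i ∉ Piv W ka})
  have hd : Fintype.card (Option {i // i ∉ Piv W kb}) = d := by
    have h1 := (A.symm.trans B).finrank_eq
    rw [Module.finrank_pi, Module.finrank_pi] at h1
    exact h1.symm
  let ea : Fin d ≃ Option {i // i ∉ Piv W ka} := (Fintype.equivFin _).symm
  let eb : Fin d ≃ Option {i // i ∉ Piv W kb} := (Fintype.equivFinOfCardEq hd).symm
  let EA : (Option {i // i ∉ Piv W ka} → K) ≃ₗ[K] (Fin d → K) := LinearEquiv.funCongrLeft K K ea
  let EB : (Option {i // i ∉ Piv W kb} → K) ≃ₗ[K] (Fin d → K) := LinearEquiv.funCongrLeft K K eb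
  let E : (Fin d → K) ≃ₗ[K] (Fin d → K) := EA.symm.trans (A.symm.trans (B.trans EB))
  refine ⟨d, ea, eb, LinearMap.toMatrix' (E : (Fin d → K) →ₗ[K] (Fin d → K)), ?_, ?_, ?_⟩
  · exact Fintype.card_pos
  · rw [LinearMap.det_toMatrix']
    exact (LinearEquiv.isUnit_det' E).ne_zero
  · intro z₀ z hz r
    have h1 : E (fun l => coordA (Piv W ka) z₀ z (ea l)) =
        fun r => coordB (Piv W kb) z₀ z (eb r) := by
      have h2 : EA.symm (fun l => coordA (Piv W ka) z₀ z (ea l)) = A (z₀, ⟨z, hz⟩) := by
        rw [LinearEquiv.symm_apply_eq]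
        rfl
      change EB (B (A.symm (EA.symm _))) = _
      rw [h2, LinearEquiv.symm_apply_apply]
      rfl
    have h3 := congrFun h1 r
    rw [← h3]
    have h4 : (LinearMap.toMatrix' (E : (Fin d → K) →ₗ[K] (Fin d → K))).mulVec
        (fun l => coordA (Piv W ka) z₀ z (ea l)) =
        E (fun l => coordA (Piv W ka) z₀ z (ea l)) := by
      rw [← Matrix.toLin'_apply, Matrix.toLin'_toMatrix']
      rfl
    rw [← h4]
    rfl

/-- The elements of `W` supported in `S`. -/
def supIn (W : Submodule K (ι → K)) (S : Set ι) : Submodule K (ι → K) where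
  carrier := {w | w ∈ W ∧ ∀ i, w i ≠ 0 → i ∈ S}
  add_mem' := by
    rintro a b ⟨ha, ha'⟩ ⟨hb, hb'⟩
    refine ⟨W.add_mem ha hb, fun i hi => ?_⟩
    by_cases h : a i = 0
    · refine hb' i fun h' => hi ?_
      simp [h, h']
    · exact ha' i h
  zero_mem' := ⟨W.zero_mem, fun i hi => absurd rfl hi⟩
  smul_mem' := by
    rintro c w ⟨hw, hw'⟩
    refine ⟨W.smul_mem c hw, fun i hi => hw' i fun h => hi ?_⟩
    simp [h]

theorem mem_supIn (W : Submodule K (ι → K)) (S : Set ι) (w : ι → K) :
    w ∈ supIn W S ↔ w ∈ W ∧ ∀ i, w i ≠ 0 → i ∈ S := Iff.rfl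

theorem piv_supIn (W : Submodule K (ι → K)) (key : ι → ℕ) (S : Set ι)
    (hS : ∀ i ∈ S, ∀ i', key i' ≤ key i → i' ∈ S) :
    Piv (supIn W S) key = Piv W key ∩ S := by
  ext i
  constructor
  · rintro ⟨w, ⟨hw, hwS⟩, hi, hmax⟩
    exact ⟨⟨w, hw, hi, hmax⟩, hwS i hi⟩
  · rintro ⟨⟨w, hw, hi, hmax⟩, hiS⟩
    exact ⟨w, ⟨hw, fun i' hi' => hS i hiS i' (hmax i' hi')⟩, hi, hmax⟩

/-- The pairing of left and right leading indices. -/
theorem exists_pairing [Fintype ι] (W : Submodule K (ι → K)) (level pos : ι → ℕ) (N : ℕ)
    (hpos : ∀ i, pos i ≤ N) (hinj : ∀ i i', level i = level i' → pos i = pos i' → i = i')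
    (htop : ∀ w ∈ W, w ≠ 0 → ∃ i i', i ≠ i' ∧ w i ≠ 0 ∧ w i' ≠ 0 ∧ level i = level i' ∧
      ∀ i'', w i'' ≠ 0 → level i'' ≤ level i) :
    ∃ φ : ι → ι, Set.BijOn φ (Piv W fun i => level i * (N + 1) + (N - pos i))
        (Piv W fun i => level i * (N + 1) + pos i) ∧
      ∀ i ∈ Piv W fun i => level i * (N + 1) + (N - pos i),
        level (φ i) = level i ∧ pos i < pos (φ i) := by
  classical
  set ka : ι → ℕ := fun i => level i * (N + 1) + (N - pos i) with hka_def
  set kb : ι → ℕ := fun i => level i * (N + 1) + pos i with hkb_def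
  have hka_le : ∀ i i', ka i' ≤ ka i ↔
      level i' < level i ∨ (level i' = level i ∧ pos i ≤ pos i') := by
    intro i i'
    have h1 := hpos i
    have h2 := hpos i'
    simp only [hka_def]
    rcases lt_trichotomy (level i') (level i) with h | h | h
    · have : (level i' + 1) * (N + 1) ≤ level i * (N + 1) := Nat.mul_le_mul_right _ h
      rw [add_mul, one_mul] at this
      constructor
      · intro _; exact Or.inl h
      · intro _; omega
    · rw [h]
      constructor
      · intro _; right; exact ⟨rfl, by omega⟩
      · rintro (h3 | ⟨_, h3⟩)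
        · exact absurd h3 (lt_irrefl _)
        · omega
    · have : (level i + 1) * (N + 1) ≤ level i' * (N + 1) := Nat.mul_le_mul_right _ h
      rw [add_mul, one_mul] at this
      constructor
      · intro _; exfalso; omega
      · rintro (h3 | ⟨h3, _⟩) <;> omega
  have hkb_le : ∀ i i', kb i' ≤ kb i ↔
      level i' < level i ∨ (level i' = level i ∧ pos i' ≤ pos i) := by
    intro i i'
    have h1 := hpos i
    have h2 := hpos i'
    simp only [hkb_def]
    rcases lt_trichotomy (level i') (level i) with h | h | h
    · have : (level i' + 1) * (N + 1) ≤ level i * (N + 1) := Nat.mul_le_mul_right _ h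
      rw [add_mul, one_mul] at this
      constructor
      · intro _; exact Or.inl h
      · intro _; omega
    · rw [h]
      constructor
      · intro _; right; exact ⟨rfl, by omega⟩
      · rintro (h3 | ⟨_, h3⟩)
        · exact absurd h3 (lt_irrefl _)
        · omega
    · have : (level i + 1) * (N + 1) ≤ level i' * (N + 1) := Nat.mul_le_mul_right _ h
      rw [add_mul, one_mul] at this
      constructor
      · intro _; exfalso; omega
      · rintro (h3 | ⟨h3, _⟩) <;> omega
  have hka : Function.Injective ka := by
    intro i i' h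
    have h1 := (hka_le i i').mp (le_of_eq h.symm)
    have h2 := (hka_le i' i).mp (le_of_eq h)
    refine hinj i i' ?_ ?_ <;> rcases h1 with h1 | h1 <;> rcases h2 with h2 | h2 <;> omega
  have hkb : Function.Injective kb := by
    intro i i' h
    have h1 := (hkb_le i i').mp (le_of_eq h.symm)
    have h2 := (hkb_le i' i).mp (le_of_eq h)
    refine hinj i i' ?_ ?_ <;> rcases h1 with h1 | h1 <;> rcases h2 with h2 | h2 <;> omega
  let PA : Finset ι := (Piv W ka).toFinite.toFinset
  let PB : Finset ι := (Piv W kb).toFinite.toFinset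
  have hPA : ∀ i, i ∈ PA ↔ i ∈ Piv W ka := fun i => Set.Finite.mem_toFinset _
  have hPB : ∀ i, i ∈ PB ↔ i ∈ Piv W kb := fun i => Set.Finite.mem_toFinset _
  -- dimension formulas
  have hdimA : ∀ (S : Set ι) [DecidablePred (· ∈ S)],
      (∀ i ∈ S, ∀ i', ka i' ≤ ka i → i' ∈ S) →
      (PA.filter (· ∈ S)).card = Module.finrank K (supIn W S) := by
    intro S _ hS
    rw [← ncard_piv (supIn W S) ka hka, piv_supIn W ka S hS, ← Set.ncard_coe_finset]
    congr 1
    ext i
    simp [hPA]
  have hdimB : ∀ (S : Set ι) [DecidablePred (· ∈ S)],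
      (∀ i ∈ S, ∀ i', kb i' ≤ kb i → i' ∈ S) →
      (PB.filter (· ∈ S)).card = Module.finrank K (supIn W S) := by
    intro S _ hS
    rw [← ncard_piv (supIn W S) kb hkb, piv_supIn W kb S hS, ← Set.ncard_coe_finset]
    congr 1
    ext i
    simp [hPB]
  -- the main inequality
  have hmain : ∀ l x : ℕ, (PA.filter (fun i => level i = l ∧ x ≤ pos i)).card ≤
      (PB.filter (fun i => level i = l ∧ x < pos i)).card := by
    intro l x
    let Sa : Set ι := {i | level i < l ∨ (level i = l ∧ x ≤ pos i)}
    let Sb : Set ι := {i | level i < l ∨ (level i = l ∧ pos i ≤ x)}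
    let Sl : Set ι := {i | level i < l}
    let Sh : Set ι := {i | level i ≤ l}
    have hSa := hdimA Sa (by
      intro i hi i' h
      rw [hka_le] at h
      simp only [Sa, Set.mem_ofPred_eq] at hi ⊢
      omega)
    have hSb := hdimB Sb (by
      intro i hi i' h
      rw [hkb_le] at h
      simp only [Sb, Set.mem_ofPred_eq] at hi ⊢
      omega)
    have hSl := hdimA Sl (by
      intro i hi i' h
      rw [hka_le] at h
      simp only [Sl, Set.mem_ofPred_eq] at hi ⊢
      omega)
    have hSh := hdimB Sh (by
      intro i hi i' h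
      rw [hkb_le] at h
      simp only [Sh, Set.mem_ofPred_eq] at hi ⊢
      omega)
    have hinf : supIn W Sa ⊓ supIn W Sb ≤ supIn W Sl := by
      rintro w ⟨⟨hw, hwa⟩, ⟨_, hwb⟩⟩
      refine ⟨hw, fun i hi => ?_⟩
      obtain ⟨j, j', hjj, hj, hj', hlev, hmax⟩ := htop w hw (fun h => hi (by simp [h]))
      have h1 := hwa j hj
      have h2 := hwb j hj
      have h3 := hwa j' hj'
      have h4 := hwb j' hj'
      have h5 := hmax i hi
      simp only [Sa, Sb, Sl, Set.mem_ofPred_eq] at h1 h2 h3 h4 ⊢
      by_contra hcon
      exact hjj (hinj j j' hlev (by omega))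
    have hsup : supIn W Sa ⊔ supIn W Sb ≤ supIn W Sh := by
      apply sup_le
      · rintro w ⟨hw, hwa⟩
        refine ⟨hw, fun i hi => ?_⟩
        have h1 := hwa i hi
        simp only [Sa, Sh, Set.mem_ofPred_eq] at h1 ⊢
        omega
      · rintro w ⟨hw, hwa⟩
        refine ⟨hw, fun i hi => ?_⟩
        have h1 := hwa i hi
        simp only [Sb, Sh, Set.mem_ofPred_eq] at h1 ⊢
        omega
    have h1 := Submodule.finrank_sup_add_finrank_inf_eq (supIn W Sa) (supIn W Sb)
    have h2 := Submodule.finrank_mono hinf
    have h3 := Submodule.finrank_mono hsup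
    have h4 : (PA.filter (· ∈ Sa)).card = (PA.filter (· ∈ Sl)).card +
        (PA.filter (fun i => level i = l ∧ x ≤ pos i)).card := by
      rw [← Finset.card_union_of_disjoint]
      · congr 1
        ext i
        simp only [Finset.mem_filter, Finset.mem_union, Sa, Sl, Set.mem_ofPred_eq]
        tauto
      · rw [Finset.disjoint_left]
        intro i hi hi'
        simp only [Finset.mem_filter, Sl, Set.mem_ofPred_eq] at hi hi'
        omega
    have h5 : (PB.filter (· ∈ Sh)).card = (PB.filter (· ∈ Sb)).card +
        (PB.filter (fun i => level i = l ∧ x < pos i)).card := by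
      rw [← Finset.card_union_of_disjoint]
      · congr 1
        ext i
        simp only [Finset.mem_filter, Finset.mem_union, Sb, Sh, Set.mem_ofPred_eq]
        constructor
        · rintro ⟨h6, h7⟩
          rcases lt_or_eq_of_le h7 with h8 | h8
          · exact Or.inl ⟨h6, Or.inl h8⟩
          · rcases le_or_gt (pos i) x with h9 | h9
            · exact Or.inl ⟨h6, Or.inr ⟨h8, h9⟩⟩
            · exact Or.inr ⟨h6, h8, h9⟩
        · rintro (⟨h6, h7 | h7⟩ | ⟨h6, h7⟩)
          · exact ⟨h6, le_of_lt h7⟩
          · exact ⟨h6, le_of_eq h7.1⟩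
          · exact ⟨h6, le_of_eq h7.1⟩
      · rw [Finset.disjoint_left]
        intro i hi hi'
        simp only [Finset.mem_filter, Sb, Set.mem_ofPred_eq] at hi hi'
        omega
    omega
  -- Hall's theorem
  let t : {i // i ∈ PA} → Finset ι :=
    fun a => PB.filter (fun b => level b = level a ∧ pos a < pos b)
  have hHall : ∀ s : Finset {i // i ∈ PA}, s.card ≤ (s.biUnion t).card := by
    intro s
    have h1 : s.card = ∑ l ∈ s.image (fun a : {i // i ∈ PA} => level (a : ι)),
        (s.filter (fun a : {i // i ∈ PA} => level (a : ι) = l)).card :=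
      Finset.card_eq_sum_card_image _ _
    have h2 : ∑ l ∈ s.image (fun a : {i // i ∈ PA} => level (a : ι)),
        ((s.biUnion t).filter (fun b => level b = l)).card ≤ (s.biUnion t).card := by
      rw [← Finset.card_biUnion]
      · apply Finset.card_le_card
        intro b hb
        rw [Finset.mem_biUnion] at hb
        obtain ⟨l, _, hb⟩ := hb
        exact (Finset.mem_filter.mp hb).1
      · intro l _ l' _ hll
        rw [Function.onFun, Finset.disjoint_left]
        intro b hb hb'
        exact hll ((Finset.mem_filter.mp hb).2.symm.trans (Finset.mem_filter.mp hb').2)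
    rw [h1]
    refine le_trans (Finset.sum_le_sum fun l hl => ?_) h2
    rw [Finset.mem_image] at hl
    obtain ⟨a₀, ha₀, ha₀l⟩ := hl
    have hne : (s.filter (fun a : {i // i ∈ PA} => level (a : ι) = l)).Nonempty :=
      ⟨a₀, Finset.mem_filter.mpr ⟨ha₀, ha₀l⟩⟩
    obtain ⟨a, ha, hmin⟩ :=
      Finset.exists_min_image _ (fun a : {i // i ∈ PA} => pos (a : ι)) hne
    have ha' := Finset.mem_filter.mp ha
    calc (s.filter (fun a : {i // i ∈ PA} => level (a : ι) = l)).card
        = ((s.filter (fun a : {i // i ∈ PA} => level (a : ι) = l)).map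
            (Function.Embedding.subtype _)).card := by
          rw [Finset.card_map]
      _ ≤ (PA.filter (fun i => level i = l ∧ pos a ≤ pos i)).card := by
          apply Finset.card_le_card
          intro i hi
          rw [Finset.mem_map] at hi
          obtain ⟨b, hb, rfl⟩ := hi
          rw [Finset.mem_filter]
          exact ⟨b.2, (Finset.mem_filter.mp hb).2, hmin b hb⟩
      _ ≤ (PB.filter (fun i => level i = l ∧ pos a < pos i)).card := hmain l (pos a)
      _ ≤ ((s.biUnion t).filter (fun b => level b = l)).card := by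
          apply Finset.card_le_card
          intro b hb
          rw [Finset.mem_filter] at hb
          rw [Finset.mem_filter, Finset.mem_biUnion]
          refine ⟨⟨a, ha'.1, ?_⟩, hb.2.1⟩
          rw [Finset.mem_filter]
          exact ⟨hb.1, hb.2.1.trans ha'.2.symm, hb.2.2⟩
  obtain ⟨f, hf, hft⟩ := (Finset.all_card_le_biUnion_card_iff_exists_injective t).mp hHall
  refine ⟨fun i => if h : i ∈ PA then f ⟨i, h⟩ else i, ?_, ?_⟩
  · have hmaps : Set.MapsTo (fun i => if h : i ∈ PA then f ⟨i, h⟩ else i)
        (Piv W ka) (Piv W kb) := by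
      intro i hi
      have hi' := (hPA i).mpr hi
      simp only [dif_pos hi']
      exact (hPB _).mp (Finset.mem_filter.mp (hft ⟨i, hi'⟩)).1
    have hinjOn : Set.InjOn (fun i => if h : i ∈ PA then f ⟨i, h⟩ else i) (Piv W ka) := by
      intro i hi j hj hij
      have hi' := (hPA i).mpr hi
      have hj' := (hPA j).mpr hj
      simp only [dif_pos hi', dif_pos hj'] at hij
      exact congrArg Subtype.val (hf hij)
    refine ⟨hmaps, hinjOn, ?_⟩
    have h1 : (fun i => if h : i ∈ PA then f ⟨i, h⟩ else i) '' (Piv W ka) = Piv W kb := by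
      apply Set.eq_of_subset_of_ncard_le hmaps.image_subset
      rw [hinjOn.ncard_image, ncard_piv W ka hka, ncard_piv W kb hkb]
    exact h1.symm.subset
  · intro i hi
    have hi' := (hPA i).mpr hi
    simp only [dif_pos hi']
    exact (Finset.mem_filter.mp (hft ⟨i, hi'⟩)).2

end SST
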