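import Pool.Agent.Subspace.Param
import Pool.Agent.Subspace.Pivot

/-!
# The key lemma on long runs of digits at different times
-/

namespace SST

open Filter Topology

/-! ### Arithmetic lemmas -/

lemma lt_natAbs_of_dvd {q J A c : ℕ} (hA : 1 ≤ A) (hq : 1 ≤ q) (hqA : ¬ q ∣ A) (hc : c ≠ 0)
    (h : q ^ J ∣ c * A) : J ≤ c := by
  have hA0 : A ≠ 0 := by omega
  have hq0 : q ≠ 0 := by omega
  rw [← Nat.factorization_le_iff_dvd hq0 hA0, Finsupp.le_def] at hqA
  push Not at hqA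
  obtain ⟨π, hπ⟩ := hqA
  have h1 := (Nat.factorization_le_iff_dvd (pow_ne_zero J hq0) (mul_ne_zero hc hA0)).2 h
  have h2 := Finsupp.le_def.1 h1 π
  rw [Nat.factorization_pow, Nat.factorization_mul hc hA0] at h2
  simp only [Finsupp.smul_apply, smul_eq_mul, Finsupp.add_apply] at h2
  have h3 : c.factorization π < c := Nat.factorization_lt π hc
  by_contra hlt
  push Not at hlt
  have h4 : q.factorization π * (J - 1) ≤ J * q.factorization π - q.factorization π := by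
    rw [Nat.mul_sub, mul_one, mul_comm]
  have h5 : A.factorization π + 1 ≤ q.factorization π := hπ
  have h6 : (J - 1) * 1 ≤ (J - 1) * q.factorization π := Nat.mul_le_mul_left _ (by omega)
  have h7 : J * q.factorization π = (J - 1) * q.factorization π + q.factorization π := by
    obtain ⟨k, rfl⟩ : ∃ k, J = k + 1 := ⟨J - 1, by omega⟩
    simp [add_mul]
  omega

lemma one_lt_log_pos {b : ℕ} (hb : 2 ≤ b) : (1 : ℝ) < b ∧ 0 < Real.log b := by
  have hb1 : (1 : ℝ) < b := by exact_mod_cast (by omega : 1 < b)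
  exact ⟨hb1, Real.log_pos hb1⟩

lemma exists_int_multiple {ι : Type} [Fintype ι] (w : ι → ℚ) :
    ∃ D : ℤ, D ≠ 0 ∧ ∃ w' : ι → ℤ, ∀ i, (w' i : ℚ) = D * w i := by
  obtain ⟨b, hb⟩ := IsLocalization.exist_integer_multiples_of_finite (nonZeroDivisors ℤ) w
  refine ⟨b, nonZeroDivisors.ne_zero b.2, ?_⟩
  choose w' hw' using hb
  refine ⟨w', fun i => ?_⟩
  have := hw' i
  simp only [eq_intCast, zsmul_eq_mul] at this
  exact this

/-! ### Ultrafilter lemmas -/

section ultra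

variable {α : Type} (𝓤 : Ultrafilter α)

lemma ultra_finite {f : α → ℤ} {a b : ℤ} (h : ∀ᶠ n in 𝓤, a ≤ f n ∧ f n ≤ b) :
    ∃ c, ∀ᶠ n in 𝓤, f n = c := by
  have h1 : (⋃ c ∈ Set.Icc a b, {n | f n = c}) ∈ 𝓤 := by
    refine mem_of_superset h ?_
    intro n hn
    simp only [Set.mem_iUnion]
    exact ⟨f n, hn, rfl⟩
  rw [Ultrafilter.finite_biUnion_mem_iff (Set.finite_Icc a b)] at h1
  obtain ⟨c, _, hc⟩ := h1
  exact ⟨c, hc⟩

lemma ultra_trich (f : α → ℤ) :
    (∃ c, ∀ᶠ n in 𝓤, f n = c) ∨ (∀ K : ℤ, ∀ᶠ n in 𝓤, K < f n) ∨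
      (∀ K : ℤ, ∀ᶠ n in 𝓤, f n < K) := by
  by_cases h1 : ∀ K : ℤ, ∀ᶠ n in 𝓤, K < f n
  · exact Or.inr (Or.inl h1)
  by_cases h2 : ∀ K : ℤ, ∀ᶠ n in 𝓤, f n < K
  · exact Or.inr (Or.inr h2)
  left
  push Not at h1 h2
  obtain ⟨b, hb⟩ := h1
  obtain ⟨a, ha⟩ := h2
  apply ultra_finite 𝓤 (a := a) (b := b)
  filter_upwards [hb, ha] with n h3 h4
  exact ⟨h4, h3⟩

lemma ultra_lim {f : α → ℝ} {C : ℝ} (h : ∀ᶠ n in 𝓤, |f n| ≤ C) :
    ∃ l, Tendsto f 𝓤 (𝓝 l) := by
  have h1 : Set.Icc (-C) C ∈ 𝓤.map f := by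
    rw [Ultrafilter.mem_map]
    filter_upwards [h] with n hn
    exact abs_le.1 hn
  obtain ⟨x, _, hx⟩ := isCompact_Icc.ultrafilter_le_nhds' (𝓤.map f) h1
  exact ⟨x, hx⟩

end ultra

/-! ### Ranks -/

open Classical in
/-- The number of elements below `i`. -/
noncomputable def rk {d : ℕ} (R : Fin d → Fin d → Prop) (i : Fin d) : ℕ :=
  (Finset.univ.filter fun k => R k i).card

lemma rk_le {d : ℕ} (R : Fin d → Fin d → Prop) (i : Fin d) : rk R i ≤ d := by
  classical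
  unfold rk
  exact (Finset.card_le_univ _).trans (by simp)

lemma rk_lt {d : ℕ} {R : Fin d → Fin d → Prop} (htr : ∀ a b c, R a b → R b c → R a c)
    (hir : ∀ a, ¬ R a a) {i i' : Fin d} (h : R i i') : rk R i < rk R i' := by
  classical
  unfold rk
  apply Finset.card_lt_card
  rw [Finset.ssubset_iff_of_subset]
  · exact ⟨i, by simpa using h, by simpa using hir i⟩
  · intro k hk
    simp only [Finset.mem_filter, Finset.mem_univ, true_and] at hk ⊢
    exact htr _ _ _ hk h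

lemma rk_congr {d : ℕ} {R : Fin d → Fin d → Prop} {i i' : Fin d}
    (h : ∀ k, R k i ↔ R k i') : rk R i = rk R i' := by
  classical
  unfold rk
  congr 1
  ext k
  simp [h k]

/-! ### The data of a sequence of counterexamples -/

/-- A sequence of counterexamples with a fixed number `d` of runs. -/
structure RunData (p q : ℕ) (C₀ δ ε : ℝ) (d : ℕ) where
  T : ℕ → ℝ
  A : ℕ → ℕ
  t : ℕ → Fin d → ℕ
  j : ℕ → Fin d → ℕ
  B : ℕ → Fin d → ℕ
  r : ℕ → Fin d → ℝ
  hT : ∀ n : ℕ, (n : ℝ) + 1 ≤ T n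
  hA : ∀ n, 1 ≤ A n
  hqA : ∀ n, ¬ q ∣ A n
  hlog : ∀ n, Real.logb q (A n) ≤ C₀ * T n
  hinj : ∀ n i i', t n i = t n i' → j n i = j n i' → i = i'
  ht : ∀ n i, (t n i : ℝ) ≤ C₀ * T n
  hj : ∀ n i, 1 ≤ j n i
  hB : ∀ n i, 1 ≤ B n i
  hqB : ∀ n i, ¬ q ∣ B n i
  hpB : ∀ n i, ¬ p ∣ B n i
  hr : ∀ n i, δ * T n ≤ r n i
  hrel : ∀ n i, |(p : ℝ) ^ t n i * A n - B n i * (q : ℝ) ^ j n i| ≤
    (q : ℝ) ^ ((j n i : ℝ) - r n i)
  hsum : ∀ n, Real.logb q (A n) + ε * T n < ∑ i, r n i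

namespace RunData

variable {p q : ℕ} {C₀ δ ε : ℝ} {d : ℕ} (D : RunData p q C₀ δ ε d)

/-- The nonprincipal ultrafilter. -/
noncomputable def U : Ultrafilter ℕ := hyperfilter ℕ

lemma U_le : (U : Filter ℕ) ≤ atTop := Nat.hyperfilter_le_atTop

include D

lemma T_pos (n : ℕ) : 0 < D.T n := by
  have := D.hT n
  have h2 : (0 : ℝ) ≤ n := Nat.cast_nonneg n
  linarith

lemma tendsto_T : Tendsto D.T U atTop := by
  have h1 : Tendsto D.T atTop atTop := by
    refine tendsto_atTop_mono (fun n => ?_) (tendsto_natCast_atTop_atTop (R := ℝ))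
    linarith [D.hT n]
  exact h1.mono_left U_le

lemma ev_T (K : ℝ) : ∀ᶠ n in U, K ≤ D.T n := D.tendsto_T.eventually_ge_atTop K

lemma tendsto_r (hδ : 0 < δ) (i : Fin d) : Tendsto (fun n => D.r n i) U atTop :=
  tendsto_atTop_mono (fun n => D.hr n i) (D.tendsto_T.const_mul_atTop hδ)

/-- The relative error of the `i`-th run is small. -/
lemma ev_u (hq : 2 ≤ q) (hδ : 0 < δ) (i : Fin d) {e : ℝ} (he : 0 < e) :
    ∀ᶠ n in U, (q : ℝ) ^ (-(D.r n i)) ≤ e := by
  have hq1 : (1 : ℝ) < q := by exact_mod_cast (by omega : 1 < q)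
  have h1 : Tendsto (fun n => (q : ℝ) ^ (-(D.r n i))) U (𝓝 0) := by
    have h2 : Tendsto (fun n => -(D.r n i)) U atBot :=
      tendsto_neg_atTop_atBot.comp (D.tendsto_r hδ i)
    exact (tendsto_rpow_atBot_of_base_gt_one _ hq1).comp h2
  exact (h1.eventually (ge_mem_nhds he)).mono fun n hn => hn

lemma rel' (hq : 2 ≤ q) (n : ℕ) (i : Fin d) :
    |(p : ℝ) ^ D.t n i * D.A n - D.B n i * (q : ℝ) ^ D.j n i| ≤
      (q : ℝ) ^ D.j n i * (q : ℝ) ^ (-(D.r n i)) := by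
  have hq0 : (0 : ℝ) < q := by exact_mod_cast (by omega : 0 < q)
  refine (D.hrel n i).trans_eq ?_
  rw [sub_eq_add_neg, Real.rpow_add hq0, Real.rpow_natCast]

/-- `r ≤ j`. -/
lemma r_le_j (hq : 2 ≤ q) (hpq : Nat.Coprime p q) (n : ℕ) (i : Fin d) :
    D.r n i ≤ D.j n i := by
  by_contra hlt
  push Not at hlt
  have hq1 : (1 : ℝ) < q := by exact_mod_cast (by omega : 1 < q)
  have h1 : |(p : ℝ) ^ D.t n i * D.A n - D.B n i * (q : ℝ) ^ D.j n i| < 1 :=
    (D.hrel n i).trans_lt (Real.rpow_lt_one_of_one_lt_of_neg hq1 (by linarith))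
  have h2 : (((p : ℤ) ^ D.t n i * D.A n - D.B n i * (q : ℤ) ^ D.j n i : ℤ) : ℝ) =
      (p : ℝ) ^ D.t n i * D.A n - D.B n i * (q : ℝ) ^ D.j n i := by push_cast; ring
  rw [← h2, ← Int.cast_abs] at h1
  have h3 : |((p : ℤ) ^ D.t n i * D.A n - D.B n i * (q : ℤ) ^ D.j n i)| < 1 := by exact_mod_cast h1
  rw [Int.abs_lt_one_iff, sub_eq_zero] at h3
  have h4 : p ^ D.t n i * D.A n = D.B n i * q ^ D.j n i := by exact_mod_cast h3
  have h5 : q ∣ p ^ D.t n i * D.A n := by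
    rw [h4]
    exact dvd_mul_of_dvd_right (dvd_pow_self q (by have := D.hj n i; omega)) _
  exact D.hqA n ((hpq.symm.pow_right _).dvd_of_dvd_mul_left h5)

lemma log_A_le (hq : 2 ≤ q) (n : ℕ) : Real.log (D.A n) ≤ C₀ * Real.log q * D.T n := by
  have h := D.hlog n
  obtain ⟨_, hl⟩ := one_lt_log_pos hq
  rw [Real.logb, div_le_iff₀ hl] at h
  linarith

lemma log_A_nonneg (n : ℕ) : 0 ≤ Real.log (D.A n) :=
  Real.log_nonneg (by exact_mod_cast D.hA n)

/-- Upper bound for the positions. -/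
lemma ev_j_le (hp : 2 ≤ p) (hq : 2 ≤ q) (hδ : 0 < δ) (i : Fin d) :
    ∀ᶠ n in U, (D.j n i : ℝ) * Real.log q ≤
      (C₀ * Real.log p + C₀ * Real.log q + Real.log 2) * D.T n := by
  obtain ⟨hq1, hlq⟩ := one_lt_log_pos hq
  obtain ⟨hp1, hlp⟩ := one_lt_log_pos hp
  have hq0 : (0 : ℝ) < q := by linarith
  have hp0 : (0 : ℝ) < p := by linarith
  filter_upwards [D.ev_u hq hδ i (show (0 : ℝ) < 1 / 2 by norm_num)] with n hn
  have hA0 : (0 : ℝ) < D.A n := by exact_mod_cast D.hA n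
  have hqj : (0 : ℝ) < (q : ℝ) ^ D.j n i := pow_pos hq0 _
  have h1 := D.rel' hq n i
  have h2 : (q : ℝ) ^ D.j n i * (q : ℝ) ^ (-(D.r n i)) ≤ (q : ℝ) ^ D.j n i * (1 / 2) :=
    mul_le_mul_of_nonneg_left hn hqj.le
  have h3 := (abs_le.1 (h1.trans h2)).1
  have hB : (1 : ℝ) ≤ D.B n i := by exact_mod_cast D.hB n i
  have h4 : (q : ℝ) ^ D.j n i ≤ D.B n i * (q : ℝ) ^ D.j n i := le_mul_of_one_le_left hqj.le hB
  have h5 : (q : ℝ) ^ D.j n i ≤ 2 * ((p : ℝ) ^ D.t n i * D.A n) := by linarith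
  have h6 := Real.log_le_log hqj h5
  rw [Real.log_pow, Real.log_mul two_ne_zero (mul_pos (pow_pos hp0 _) hA0).ne',
    Real.log_mul (pow_pos hp0 _).ne' hA0.ne', Real.log_pow] at h6
  have h7 := mul_le_mul_of_nonneg_right (D.ht n i) hlp.le
  have h8 := D.log_A_le hq n
  have h9 : (1 : ℝ) ≤ D.T n := by
    have := D.hT n
    have h2 : (0 : ℝ) ≤ n := Nat.cast_nonneg n
    linarith
  have h10 : Real.log 2 ≤ Real.log 2 * D.T n :=
    le_mul_of_one_le_right (Real.log_nonneg (by norm_num)) h9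
  linarith

/-! ### The points -/

/-- The common time. -/
noncomputable def s (n : ℕ) : ℕ := ⌊C₀ * D.T n⌋₊

lemma t_le_s (n : ℕ) (i : Fin d) : D.t n i ≤ D.s n := Nat.le_floor (D.ht n i)

/-- The number `p ^ s A`. -/
noncomputable def z0 (n : ℕ) : ℤ := (p : ℤ) ^ D.s n * D.A n

/-- The approximations. -/
noncomputable def z (n : ℕ) (i : Fin d) : ℤ :=
  (p : ℤ) ^ (D.s n - D.t n i) * D.B n i * (q : ℤ) ^ D.j n i

lemma z0_pos (hp : 2 ≤ p) (n : ℕ) : 0 < D.z0 n := by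
  have h1 : (0 : ℤ) < p := by exact_mod_cast (by omega : 0 < p)
  have h2 : (0 : ℤ) < D.A n := by exact_mod_cast D.hA n
  exact mul_pos (pow_pos h1 _) h2

lemma z_sub (hq : 2 ≤ q) (n : ℕ) (i : Fin d) :
    |(D.z n i : ℝ) - D.z0 n| ≤ (p : ℝ) ^ (D.s n - D.t n i) *
      ((q : ℝ) ^ D.j n i * (q : ℝ) ^ (-(D.r n i))) := by
  have h1 : (D.z n i : ℝ) - D.z0 n = -((p : ℝ) ^ (D.s n - D.t n i) *
      ((p : ℝ) ^ D.t n i * D.A n - D.B n i * (q : ℝ) ^ D.j n i)) := by
    unfold z z0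
    have h2 : (p : ℝ) ^ D.s n = (p : ℝ) ^ (D.s n - D.t n i) * (p : ℝ) ^ D.t n i := by
      rw [← pow_add, Nat.sub_add_cancel (D.t_le_s n i)]
    push_cast
    rw [h2]
    ring
  rw [h1, abs_neg, abs_mul, abs_of_nonneg (pow_nonneg (Nat.cast_nonneg p) _)]
  exact mul_le_mul_of_nonneg_left (D.rel' hq n i) (pow_nonneg (Nat.cast_nonneg p) _)

/-- (R0) A relation which holds almost always has no `z0` term. -/
lemma R0 (hq : 2 ≤ q) (hpq : Nat.Coprime p q) (hδ : 0 < δ) (c0 : ℚ) (c : Fin d → ℚ)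
    (h : ∀ᶠ n in U, c0 * (D.z0 n : ℚ) + ∑ i, c i * (D.z n i : ℚ) = 0) : c0 = 0 := by
  by_contra hc0
  obtain ⟨E, hE, w, hw⟩ := exists_int_multiple (fun o : Option (Fin d) => o.elim c0 c)
  have hw0 : (w none : ℚ) = E * c0 := hw none
  have hwi : ∀ i, (w (some i) : ℚ) = E * c i := fun i => hw (some i)
  have hw00 : w none ≠ 0 := by
    intro h0
    rw [h0] at hw0
    have : (E : ℚ) ≠ 0 := by exact_mod_cast hE
    have h1 : (E : ℚ) * c0 ≠ 0 := mul_ne_zero this hc0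
    exact h1 (by rw [← hw0]; simp)
  set K : ℕ := (w none).natAbs + 1 with hK
  have hj : ∀ᶠ n in U, ∀ i, K ≤ D.j n i := by
    rw [eventually_all]
    intro i
    filter_upwards [(D.tendsto_r hδ i).eventually_ge_atTop (K : ℝ)] with n hn
    have := hn.trans (D.r_le_j hq hpq n i)
    exact_mod_cast this
  obtain ⟨n, hn, hjn⟩ := (h.and hj).exists
  have h1 : w none * D.z0 n + ∑ i, w (some i) * D.z n i = 0 := by
    have h2 : ((w none * D.z0 n + ∑ i, w (some i) * D.z n i : ℤ) : ℚ) = 0 := by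
      push_cast
      rw [hw0]
      simp only [hwi]
      have h3 : E * c0 * (D.z0 n : ℚ) + ∑ i, E * c i * (D.z n i : ℚ) =
          E * (c0 * (D.z0 n : ℚ) + ∑ i, c i * (D.z n i : ℚ)) := by
        rw [mul_add, Finset.mul_sum]
        congr 1
        · ring
        · exact Finset.sum_congr rfl fun i _ => by ring
      rw [h3, hn, mul_zero]
    exact_mod_cast h2
  have h2 : (q : ℤ) ^ K ∣ ∑ i, w (some i) * D.z n i := by
    apply Finset.dvd_sum
    intro i _
    apply dvd_mul_of_dvd_right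
    unfold z
    exact dvd_mul_of_dvd_right (pow_dvd_pow _ (hjn i)) _
  have h3 : (q : ℤ) ^ K ∣ w none * D.z0 n := by
    rw [eq_neg_of_add_eq_zero_left h1]
    exact (dvd_neg).2 h2
  have h4 : q ^ K ∣ (w none).natAbs * D.A n := by
    have h5 : q ^ K ∣ ((w none) * D.z0 n).natAbs := by
      have := Int.natAbs_dvd_natAbs.2 h3
      rwa [Int.natAbs_pow, Int.natAbs_natCast] at this
    rw [z0, Int.natAbs_mul, Int.natAbs_mul, Int.natAbs_pow, Int.natAbs_natCast,
      Int.natAbs_natCast] at h5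
    have h6 : q ^ K ∣ p ^ D.s n * ((w none).natAbs * D.A n) := by
      rw [show p ^ D.s n * ((w none).natAbs * D.A n) =
        (w none).natAbs * (p ^ D.s n * D.A n) by ring]
      exact h5
    exact (Nat.Coprime.pow _ _ hpq.symm).dvd_of_dvd_mul_left h6
  have h7 := lt_natAbs_of_dvd (D.hA n) (by omega) (D.hqA n) (Int.natAbs_ne_zero.2 hw00) h4
  omega

/-- The ratio `z i / z0` tends to 1. -/
lemma tendsto_ratio (hp : 2 ≤ p) (hq : 2 ≤ q) (hδ : 0 < δ) (i : Fin d) :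
    Tendsto (fun n => (D.z n i : ℝ) / D.z0 n) U (𝓝 1) := by
  obtain ⟨hq1, hlq⟩ := one_lt_log_pos hq
  obtain ⟨hp1, hlp⟩ := one_lt_log_pos hp
  have hq0 : (0 : ℝ) < q := by linarith
  have hp0 : (0 : ℝ) < p := by linarith
  rw [Metric.tendsto_nhds]
  intro e he
  have he' : 0 < min (1 / 2) (e / 4) := by positivity
  filter_upwards [D.ev_u hq hδ i he'] with n hn
  have hz0 : (0 : ℝ) < D.z0 n := by exact_mod_cast D.z0_pos hp n
  rw [Real.dist_eq, div_sub_one hz0.ne', abs_div, abs_of_pos hz0, div_lt_iff₀ hz0]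
  have h1 := D.z_sub hq n i
  set u := (q : ℝ) ^ (-(D.r n i)) with hu
  have hu0 : 0 < u := Real.rpow_pos_of_pos hq0 _
  set v := (p : ℝ) ^ (D.s n - D.t n i) * (q : ℝ) ^ D.j n i with hv
  have hv0 : 0 < v := mul_pos (pow_pos hp0 _) (pow_pos hq0 _)
  have h2 : |(D.z n i : ℝ) - D.z0 n| ≤ v * u := by
    refine h1.trans_eq ?_
    rw [hv]; ring
  have h3 : v ≤ D.z n i := by
    unfold z
    push_cast
    rw [hv]
    have hB : (1 : ℝ) ≤ D.B n i := by exact_mod_cast D.hB n i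
    have h4 : (p : ℝ) ^ (D.s n - D.t n i) ≤ (p : ℝ) ^ (D.s n - D.t n i) * D.B n i :=
      le_mul_of_one_le_right (pow_pos hp0 _).le hB
    exact mul_le_mul_of_nonneg_right h4 (pow_pos hq0 _).le
  have h5 : u ≤ 1 / 2 := hn.trans (min_le_left _ _)
  have h6 : u ≤ e / 4 := hn.trans (min_le_right _ _)
  have h7 : v * u ≤ v * (1 / 2) := mul_le_mul_of_nonneg_left h5 hv0.le
  have h8 := (abs_le.1 (h2.trans h7)).2
  have h9 : v ≤ 2 * D.z0 n := by linarith
  calc |(D.z n i : ℝ) - D.z0 n| ≤ v * u := h2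
    _ ≤ (2 * D.z0 n) * (e / 4) := mul_le_mul h9 h6 hu0.le (by linarith)
    _ < e * D.z0 n := by nlinarith

/-- The space of relations which hold almost always. -/
def W : Submodule ℚ (Fin d → ℚ) where
  carrier := {w | ∀ᶠ n in U, ∑ i, w i * (D.z n i : ℚ) = 0}
  add_mem' := by
    intro a b ha hb
    filter_upwards [ha, hb] with n h1 h2
    simp only [Pi.add_apply, add_mul, Finset.sum_add_distrib, h1, h2, add_zero]
  zero_mem' := by simp
  smul_mem' := by
    intro c a ha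
    filter_upwards [ha] with n h1
    simp only [Pi.smul_apply, smul_eq_mul, mul_assoc, ← Finset.mul_sum, h1, mul_zero]

lemma mem_W {w : Fin d → ℚ} : w ∈ D.W ↔ ∀ᶠ n in U, ∑ i, w i * (D.z n i : ℚ) = 0 := Iff.rfl

/-- (R1) -/
lemma R1 (hp : 2 ≤ p) (hq : 2 ≤ q) (hδ : 0 < δ) {w : Fin d → ℚ} (hw : w ∈ D.W) :
    ∑ i, w i = 0 := by
  have h1 : Tendsto (fun n => ∑ i, (w i : ℝ) * ((D.z n i : ℝ) / D.z0 n)) U
      (𝓝 (∑ i, (w i : ℝ) * 1)) :=
    tendsto_finsetSum _ fun i _ => (D.tendsto_ratio hp hq hδ i).const_mul _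
  have h2 : ∀ᶠ n in U, ∑ i, (w i : ℝ) * ((D.z n i : ℝ) / D.z0 n) = 0 := by
    filter_upwards [D.mem_W.1 hw] with n hn
    have h3 : ((∑ i, w i * (D.z n i : ℚ) : ℚ) : ℝ) = 0 := by rw [hn]; simp
    push_cast at h3
    simp only [← mul_div_assoc]
    rw [← Finset.sum_div, h3, zero_div]
  have h3 : Tendsto (fun n => ∑ i, (w i : ℝ) * ((D.z n i : ℝ) / D.z0 n)) U (𝓝 0) := by
    refine Tendsto.congr' ?_ tendsto_const_nhds
    filter_upwards [h2] with n hn
    exact hn.symm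
  have h4 := tendsto_nhds_unique h1 h3
  simp only [mul_one] at h4
  exact_mod_cast h4

/-! ### Levels -/

/-- `t i` is far below `t i'`. -/
def ll (i i' : Fin d) : Prop := ∀ K : ℕ, ∀ᶠ n in U, D.t n i + K < D.t n i'

/-- `t i` and `t i'` are at a bounded distance. -/
def sim (i i' : Fin d) : Prop := ∃ c1 c2 : ℕ, ∀ᶠ n in U, D.t n i + c2 = D.t n i' + c1

lemma ll_trans (a b c : Fin d) (h1 : D.ll a b) (h2 : D.ll b c) : D.ll a c := by
  intro K
  filter_upwards [h1 K, h2 0] with n h3 h4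
  omega

lemma ll_irrefl (a : Fin d) : ¬ D.ll a a := by
  intro h
  obtain ⟨n, hn⟩ := (h 0).exists
  omega

lemma trich (i i' : Fin d) : D.sim i i' ∨ D.ll i i' ∨ D.ll i' i := by
  rcases ultra_trich U (fun n => (D.t n i' : ℤ) - D.t n i) with ⟨c, hc⟩ | h | h
  · left
    refine ⟨(-c).toNat, c.toNat, ?_⟩
    filter_upwards [hc] with n hn
    have h1 : (D.t n i : ℤ) + c.toNat = D.t n i' + (-c).toNat := by
      rcases le_total 0 c with h | h
      · rw [Int.toNat_of_nonneg h, Int.toNat_of_nonpos (by omega)]; push_cast; omega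
      · rw [Int.toNat_of_nonpos h, Int.toNat_of_nonneg (by omega)]; push_cast; omega
    exact_mod_cast h1
  · right; left
    intro K
    filter_upwards [h K] with n hn
    omega
  · right; right
    intro K
    filter_upwards [h (-K)] with n hn
    omega

lemma sim_symm {i i' : Fin d} (h : D.sim i i') : D.sim i' i := by
  obtain ⟨c1, c2, h⟩ := h
  exact ⟨c2, c1, h.mono fun n hn => hn.symm⟩

lemma ll_of_sim {i i' k : Fin d} (h : D.sim i i') (hk : D.ll k i) : D.ll k i' := by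
  obtain ⟨c1, c2, h⟩ := h
  intro K
  filter_upwards [h, hk (K + c1)] with n h1 h2
  omega

/-- The level. -/
noncomputable def level (i : Fin d) : ℕ := rk D.ll i

lemma level_eq_of_sim {i i' : Fin d} (h : D.sim i i') : D.level i = D.level i' :=
  rk_congr fun _ => ⟨D.ll_of_sim h, D.ll_of_sim (D.sim_symm h)⟩

lemma level_lt_of_ll {i i' : Fin d} (h : D.ll i i') : D.level i < D.level i' :=
  rk_lt D.ll_trans D.ll_irrefl h

lemma sim_of_level_eq {i i' : Fin d} (h : D.level i = D.level i') : D.sim i i' := by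
  rcases D.trich i i' with h1 | h1 | h1
  · exact h1
  · have := D.level_lt_of_ll h1; omega
  · have := D.level_lt_of_ll h1; omega

lemma ll_of_level_lt {i i' : Fin d} (h : D.level i < D.level i') : D.ll i i' := by
  rcases D.trich i i' with h1 | h1 | h1
  · have := D.level_eq_of_sim h1; omega
  · exact h1
  · have := D.level_lt_of_ll h1; omega

/-! ### Positions -/

/-- Order of the positions. -/
def jl (i i' : Fin d) : Prop := ∀ᶠ n in U, D.j n i < D.j n i'

lemma jl_trans (a b c : Fin d) (h1 : D.jl a b) (h2 : D.jl b c) : D.jl a c := by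
  filter_upwards [h1, h2] with n h3 h4
  omega

lemma jl_irrefl (a : Fin d) : ¬ D.jl a a := by
  intro h
  obtain ⟨n, hn⟩ := h.exists
  omega

lemma jtrich (i i' : Fin d) : (∀ᶠ n in U, D.j n i = D.j n i') ∨ D.jl i i' ∨ D.jl i' i := by
  have h : ∀ᶠ n in U, D.j n i = D.j n i' ∨ D.j n i < D.j n i' ∨ D.j n i' < D.j n i :=
    Eventually.of_forall fun n => by omega
  rw [Ultrafilter.eventually_or, Ultrafilter.eventually_or] at h
  exact h

/-- The position. -/
noncomputable def pos (i : Fin d) : ℕ := rk D.jl i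

lemma pos_le (i : Fin d) : D.pos i ≤ d := rk_le _ _

lemma pos_lt_of_jl {i i' : Fin d} (h : D.jl i i') : D.pos i < D.pos i' :=
  rk_lt D.jl_trans D.jl_irrefl h

lemma jeq_of_pos_eq {i i' : Fin d} (h : D.pos i = D.pos i') :
    ∀ᶠ n in U, D.j n i = D.j n i' := by
  rcases D.jtrich i i' with h1 | h1 | h1
  · exact h1
  · have := D.pos_lt_of_jl h1; omega
  · have := D.pos_lt_of_jl h1; omega

lemma jl_of_pos_lt {i i' : Fin d} (h : D.pos i < D.pos i') : D.jl i i' := by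
  rcases D.jtrich i i' with h1 | h1 | h1
  · exfalso
    have h2 : D.pos i = D.pos i' := by
      apply rk_congr
      intro k
      constructor
      · intro h3
        filter_upwards [h1, h3] with n h4 h5
        omega
      · intro h3
        filter_upwards [h1, h3] with n h4 h5
        omega
    omega
  · exact h1
  · have := D.pos_lt_of_jl h1; omega

/-- (L2) The top level of a relation contains at least two elements. -/
lemma L2 (hp : 2 ≤ p) (hpq : Nat.Coprime p q) {w : Fin d → ℚ} (hw : w ∈ D.W) (hw0 : w ≠ 0) :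
    ∃ i i', i ≠ i' ∧ w i ≠ 0 ∧ w i' ≠ 0 ∧ D.level i = D.level i' ∧
      ∀ i'', w i'' ≠ 0 → D.level i'' ≤ D.level i := by
  classical
  obtain ⟨i1, hi1⟩ := Function.ne_iff.1 hw0
  obtain ⟨i, hi, hmax⟩ := Finset.exists_max_image (Finset.univ.filter fun i => w i ≠ 0) D.level
    ⟨i1, by simpa using hi1⟩
  simp only [Finset.mem_filter, Finset.mem_univ, true_and] at hi hmax
  by_contra hcon
  push Not at hcon
  have hlow : ∀ i'', i'' ≠ i → w i'' ≠ 0 → D.level i'' < D.level i := by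
    intro i'' hne hw''
    rcases lt_or_eq_of_le (hmax i'' hw'') with h | h
    · exact h
    · exfalso
      obtain ⟨k, hk, hk2⟩ := hcon i i'' hne.symm hi hw'' h.symm
      exact absurd (hmax k hk) (not_le.2 hk2)
  obtain ⟨E, hE, w', hw'⟩ := exists_int_multiple w
  have hEQ : (E : ℚ) ≠ 0 := by exact_mod_cast hE
  have hzero : ∀ k, w k = 0 → w' k = 0 := by
    intro k hk
    have := hw' k
    rw [hk, mul_zero] at this
    exact_mod_cast this
  have hne : w' i ≠ 0 := by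
    intro h0
    have := hw' i
    rw [h0] at this
    exact mul_ne_zero hEQ hi (by rw [← this]; simp)
  set K : ℕ := (w' i).natAbs + 1 with hK
  have hK2 : ∀ᶠ n in U, ∀ k, k ≠ i → w k ≠ 0 → D.t n k + K < D.t n i := by
    rw [eventually_all]
    intro k
    by_cases hk : k ≠ i ∧ w k ≠ 0
    · filter_upwards [D.ll_of_level_lt (hlow k hk.1 hk.2) K] with n hn _ _
      exact hn
    · exact Eventually.of_forall fun n h1 h2 => absurd ⟨h1, h2⟩ hk
  obtain ⟨n, hn, hKn⟩ := ((D.mem_W.1 hw).and hK2).exists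
  have h1 : ∑ k, w' k * D.z n k = 0 := by
    have h2 : ((∑ k, w' k * D.z n k : ℤ) : ℚ) = 0 := by
      push_cast
      simp only [hw', mul_assoc]
      rw [← Finset.mul_sum, hn, mul_zero]
    exact_mod_cast h2
  have h2 : (p : ℤ) ^ (D.s n - D.t n i + K) ∣ w' i * D.z n i := by
    rw [← Finset.add_sum_erase _ _ (Finset.mem_univ i)] at h1
    rw [eq_neg_of_add_eq_zero_left h1, dvd_neg]
    apply Finset.dvd_sum
    intro k hk
    by_cases hwk : w k = 0
    · rw [hzero k hwk, zero_mul]; exact dvd_zero _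
    apply dvd_mul_of_dvd_right
    unfold z
    rw [mul_assoc]
    apply dvd_mul_of_dvd_left
    apply pow_dvd_pow
    have h3 := hKn k (Finset.ne_of_mem_erase hk) hwk
    have h4 := D.t_le_s n i
    omega
  have h3 : p ^ (D.s n - D.t n i + K) ∣ (w' i).natAbs * (p ^ (D.s n - D.t n i) * D.B n i *
      q ^ D.j n i) := by
    have := Int.natAbs_dvd_natAbs.2 h2
    rw [Int.natAbs_pow, Int.natAbs_natCast, Int.natAbs_mul] at this
    convert this using 2
    unfold z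
    rw [Int.natAbs_mul, Int.natAbs_mul, Int.natAbs_pow, Int.natAbs_pow, Int.natAbs_natCast,
      Int.natAbs_natCast, Int.natAbs_natCast]
  have h4 : p ^ K ∣ (w' i).natAbs * D.B n i := by
    have hp0 : 0 < p ^ (D.s n - D.t n i) := pow_pos (by omega) _
    have h5 : p ^ (D.s n - D.t n i) * p ^ K ∣ p ^ (D.s n - D.t n i) *
        (q ^ D.j n i * ((w' i).natAbs * D.B n i)) := by
      rw [← pow_add]
      convert h3 using 1
      ring
    have h6 := Nat.dvd_of_mul_dvd_mul_left hp0 h5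
    exact (Nat.Coprime.pow _ _ hpq).dvd_of_dvd_mul_left h6
  have h7 := lt_natAbs_of_dvd (D.hB n i) (by omega) (D.hpB n i) (Int.natAbs_ne_zero.2 hne) h4
  omega

/-- The difference of two relations at the same level. -/
lemma diff (hq : 2 ≤ q) {i i' : Fin d} {c1 c2 : ℕ} {n : ℕ}
    (hn : D.t n i + c2 = D.t n i' + c1) :
    |((((p : ℤ) ^ c2 * D.B n i * (q : ℤ) ^ D.j n i -
      (p : ℤ) ^ c1 * D.B n i' * (q : ℤ) ^ D.j n i' : ℤ)) : ℝ)| ≤
      (p : ℝ) ^ c2 * ((q : ℝ) ^ D.j n i * (q : ℝ) ^ (-(D.r n i))) +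
      (p : ℝ) ^ c1 * ((q : ℝ) ^ D.j n i' * (q : ℝ) ^ (-(D.r n i'))) := by
  have h1 := mul_le_mul_of_nonneg_left (D.rel' hq n i) (pow_nonneg (Nat.cast_nonneg (α := ℝ) p) c2)
  have h2 := mul_le_mul_of_nonneg_left (D.rel' hq n i') (pow_nonneg (Nat.cast_nonneg (α := ℝ) p) c1)
  refine le_trans ?_ (add_le_add h1 h2)
  have h3 : ((((p : ℤ) ^ c2 * D.B n i * (q : ℤ) ^ D.j n i -
      (p : ℤ) ^ c1 * D.B n i' * (q : ℤ) ^ D.j n i' : ℤ)) : ℝ) =
      (p : ℝ) ^ c1 * ((p : ℝ) ^ D.t n i' * D.A n - D.B n i' * (q : ℝ) ^ D.j n i') -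
      (p : ℝ) ^ c2 * ((p : ℝ) ^ D.t n i * D.A n - D.B n i * (q : ℝ) ^ D.j n i) := by
    have h4 : (p : ℝ) ^ c2 * (p : ℝ) ^ D.t n i = (p : ℝ) ^ c1 * (p : ℝ) ^ D.t n i' := by
      rw [← pow_add, ← pow_add, add_comm, hn, add_comm]
    push_cast
    linear_combination (D.A n : ℝ) * h4
  rw [h3, add_comm]
  refine (abs_sub _ _).trans (le_of_eq ?_)
  rw [abs_mul, abs_mul, abs_of_nonneg (pow_nonneg (Nat.cast_nonneg (α := ℝ) p) c2),
    abs_of_nonneg (pow_nonneg (Nat.cast_nonneg (α := ℝ) p) c1)]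

/-- (L1) Two runs at the same level have different positions. -/
lemma L1_ne (hp : 2 ≤ p) (hq : 2 ≤ q) (hδ : 0 < δ) {i i' : Fin d} (hs : D.sim i i')
    (hj : ∀ᶠ n in U, D.j n i = D.j n i') : i = i' := by
  obtain ⟨c1, c2, hs⟩ := hs
  obtain ⟨hq1, hlq⟩ := one_lt_log_pos hq
  obtain ⟨hp1, hlp⟩ := one_lt_log_pos hp
  have hq0 : (0 : ℝ) < q := by linarith
  have hp0 : (0 : ℝ) < p := by linarith
  have he1 : 0 < 1 / (4 * (p : ℝ) ^ c1) := by positivity
  have he2 : 0 < 1 / (4 * (p : ℝ) ^ c2) := by positivity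
  obtain ⟨n, ⟨⟨hn, hjn⟩, hu⟩, hu'⟩ :=
    (((hs.and hj).and (D.ev_u hq hδ i he2)).and (D.ev_u hq hδ i' he1)).exists
  have h1 := D.diff hq hn
  rw [← hjn] at h1
  have hqj : (0 : ℝ) < (q : ℝ) ^ D.j n i := pow_pos hq0 _
  have h2 : (p : ℝ) ^ c2 * (q : ℝ) ^ (-(D.r n i)) ≤ 1 / 4 := by
    refine (mul_le_mul_of_nonneg_left hu (pow_pos hp0 _).le).trans_eq ?_
    field_simp
  have h3 : (p : ℝ) ^ c1 * (q : ℝ) ^ (-(D.r n i')) ≤ 1 / 4 := by
    refine (mul_le_mul_of_nonneg_left hu' (pow_pos hp0 _).le).trans_eq ?_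
    field_simp
  have h4 : (((((p : ℤ) ^ c2 * D.B n i * (q : ℤ) ^ D.j n i -
      (p : ℤ) ^ c1 * D.B n i' * (q : ℤ) ^ D.j n i : ℤ)) : ℝ)) =
      (((p : ℤ) ^ c2 * D.B n i - (p : ℤ) ^ c1 * D.B n i' : ℤ) : ℝ) * (q : ℝ) ^ D.j n i := by
    push_cast; ring
  rw [h4, abs_mul, abs_of_pos hqj] at h1
  have h5 : |((((p : ℤ) ^ c2 * D.B n i - (p : ℤ) ^ c1 * D.B n i' : ℤ)) : ℝ)| < 1 := by
    have h6 : |((((p : ℤ) ^ c2 * D.B n i - (p : ℤ) ^ c1 * D.B n i' : ℤ)) : ℝ)| *
        (q : ℝ) ^ D.j n i ≤ (1 / 2) * (q : ℝ) ^ D.j n i := by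
      refine h1.trans ?_
      have h7 := mul_le_mul_of_nonneg_left h2 hqj.le
      have h8 := mul_le_mul_of_nonneg_left h3 hqj.le
      linarith
    have h7 := le_of_mul_le_mul_right h6 hqj
    linarith
  rw [← Int.cast_abs] at h5
  have h6 : |((p : ℤ) ^ c2 * D.B n i - (p : ℤ) ^ c1 * D.B n i')| < 1 := by exact_mod_cast h5
  rw [Int.abs_lt_one_iff, sub_eq_zero] at h6
  have h7 : p ^ c2 * D.B n i = p ^ c1 * D.B n i' := by exact_mod_cast h6
  have hpp : 0 < p := by omega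
  have h8 : c1 = c2 := by
    rcases lt_trichotomy c1 c2 with h | h | h
    · exfalso
      have h9 : p ^ c1 * (p ^ (c2 - c1) * D.B n i) = p ^ c1 * D.B n i' := by
        rw [← h7, ← mul_assoc, ← pow_add, Nat.add_sub_cancel' h.le]
      have h10 := Nat.eq_of_mul_eq_mul_left (pow_pos hpp c1) h9
      apply D.hpB n i'
      rw [← h10]
      exact dvd_mul_of_dvd_left (dvd_pow_self p (by omega)) _
    · exact h
    · exfalso
      have h9 : p ^ c2 * (p ^ (c1 - c2) * D.B n i') = p ^ c2 * D.B n i := by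
        rw [h7, ← mul_assoc, ← pow_add, Nat.add_sub_cancel' h.le]
      have h10 := Nat.eq_of_mul_eq_mul_left (pow_pos hpp c2) h9
      apply D.hpB n i
      rw [← h10]
      exact dvd_mul_of_dvd_left (dvd_pow_self p (by omega)) _
  exact D.hinj n i i' (by omega) hjn

/-- (L1) Two runs at the same level are disjoint. -/
lemma L1_le (hp : 2 ≤ p) (hq : 2 ≤ q) (hpq : Nat.Coprime p q) (hδ : 0 < δ) {i i' : Fin d}
    (hs : D.sim i i') (hj : D.jl i i') :
    ∃ c : ℝ, ∀ᶠ n in U, (D.j n i : ℝ) * Real.log q ≤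
      c + (D.j n i' : ℝ) * Real.log q - D.r n i' * Real.log q := by
  obtain ⟨c1, c2, hs⟩ := hs
  obtain ⟨hq1, hlq⟩ := one_lt_log_pos hq
  obtain ⟨hp1, hlp⟩ := one_lt_log_pos hp
  have hq0 : (0 : ℝ) < q := by linarith
  have hp0 : (0 : ℝ) < p := by linarith
  have he2 : 0 < 1 / (2 * (p : ℝ) ^ c2) := by positivity
  refine ⟨Real.log (2 * (p : ℝ) ^ c1), ?_⟩
  filter_upwards [hs, hj, D.ev_u hq hδ i he2] with n hn hjn hu
  have h1 := D.diff hq hn
  have hqj : (0 : ℝ) < (q : ℝ) ^ D.j n i := pow_pos hq0 _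
  have h2 : (p : ℝ) ^ c2 * (q : ℝ) ^ (-(D.r n i)) ≤ 1 / 2 := by
    refine (mul_le_mul_of_nonneg_left hu (pow_pos hp0 _).le).trans_eq ?_
    field_simp
  have h4 : (((((p : ℤ) ^ c2 * D.B n i * (q : ℤ) ^ D.j n i -
      (p : ℤ) ^ c1 * D.B n i' * (q : ℤ) ^ D.j n i' : ℤ)) : ℝ)) =
      (((p : ℤ) ^ c2 * D.B n i - (p : ℤ) ^ c1 * D.B n i' * (q : ℤ) ^ (D.j n i' - D.j n i) : ℤ) : ℝ) *
        (q : ℝ) ^ D.j n i := by
    have h5 : (q : ℝ) ^ D.j n i' = (q : ℝ) ^ (D.j n i' - D.j n i) * (q : ℝ) ^ D.j n i := by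
      rw [← pow_add, Nat.sub_add_cancel hjn.le]
    push_cast
    rw [h5]
    ring
  rw [h4, abs_mul, abs_of_pos hqj] at h1
  have h5 : ((p : ℤ) ^ c2 * D.B n i - (p : ℤ) ^ c1 * D.B n i' * (q : ℤ) ^ (D.j n i' - D.j n i)) ≠
      0 := by
    intro h0
    rw [sub_eq_zero] at h0
    have h6 : p ^ c2 * D.B n i = p ^ c1 * D.B n i' * q ^ (D.j n i' - D.j n i) := by
      exact_mod_cast h0
    have h7 : q ∣ p ^ c2 * D.B n i := by
      rw [h6]
      exact dvd_mul_of_dvd_right (dvd_pow_self q (by omega)) _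
    exact D.hqB n i ((hpq.symm.pow_right _).dvd_of_dvd_mul_left h7)
  have h6 : (1 : ℝ) ≤ |((((p : ℤ) ^ c2 * D.B n i -
      (p : ℤ) ^ c1 * D.B n i' * (q : ℤ) ^ (D.j n i' - D.j n i) : ℤ)) : ℝ)| := by
    rw [← Int.cast_abs]
    exact_mod_cast Int.one_le_abs h5
  have h7 : (q : ℝ) ^ D.j n i ≤ (1 / 2) * (q : ℝ) ^ D.j n i +
      (p : ℝ) ^ c1 * ((q : ℝ) ^ D.j n i' * (q : ℝ) ^ (-(D.r n i'))) := by
    have h8 := mul_le_mul_of_nonneg_right h6 hqj.le
    have h9 := mul_le_mul_of_nonneg_left h2 hqj.le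
    linarith
  have h8 : (q : ℝ) ^ D.j n i ≤ (2 * (p : ℝ) ^ c1) * ((q : ℝ) ^ D.j n i' *
      (q : ℝ) ^ (-(D.r n i'))) := by linarith
  have h9 := Real.log_le_log hqj h8
  rw [Real.log_pow, Real.log_mul (by positivity) (mul_pos (pow_pos hq0 _)
    (Real.rpow_pos_of_pos hq0 _)).ne', Real.log_mul (pow_pos hq0 _).ne'
    (Real.rpow_pos_of_pos hq0 _).ne', Real.log_pow, Real.log_rpow hq0] at h9
  linarith

/-! ### Limits -/

lemma C0T_nonneg (hq : 2 ≤ q) (n : ℕ) : 0 ≤ C₀ * D.T n := by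
  obtain ⟨hq1, _⟩ := one_lt_log_pos hq
  exact (Real.logb_nonneg hq1 (by exact_mod_cast D.hA n)).trans (D.hlog n)

lemma abs_div_T_le {x C : ℝ} (n : ℕ) (h0 : 0 ≤ x) (h : x ≤ C * D.T n) : |x / D.T n| ≤ C := by
  rw [abs_of_nonneg (div_nonneg h0 (D.T_pos n).le), div_le_iff₀ (D.T_pos n)]
  exact h

lemma exists_lim_j (hp : 2 ≤ p) (hq : 2 ≤ q) (hδ : 0 < δ) : ∃ J : Fin d → ℝ, ∀ i,
    Tendsto (fun n => (D.j n i : ℝ) * Real.log q / D.T n) U (𝓝 (J i)) := by
  have h : ∀ i, ∃ l, Tendsto (fun n => (D.j n i : ℝ) * Real.log q / D.T n) U (𝓝 l) := by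
    intro i
    apply ultra_lim
    filter_upwards [D.ev_j_le hp hq hδ i] with n hn
    exact D.abs_div_T_le n (mul_nonneg (Nat.cast_nonneg _) (one_lt_log_pos hq).2.le) hn
  choose J hJ using h
  exact ⟨J, hJ⟩

lemma exists_lim_r (hp : 2 ≤ p) (hq : 2 ≤ q) (hpq : Nat.Coprime p q) (hδ : 0 < δ) :
    ∃ J : Fin d → ℝ, ∀ i,
    Tendsto (fun n => D.r n i * Real.log q / D.T n) U (𝓝 (J i)) := by
  have h : ∀ i, ∃ l, Tendsto (fun n => D.r n i * Real.log q / D.T n) U (𝓝 l) := by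
    intro i
    apply ultra_lim
    filter_upwards [D.ev_j_le hp hq hδ i] with n hn
    have hl := (one_lt_log_pos hq).2
    refine D.abs_div_T_le n (mul_nonneg ?_ hl.le)
      ((mul_le_mul_of_nonneg_right (D.r_le_j hq hpq n i) hl.le).trans hn)
    exact (mul_nonneg hδ.le (D.T_pos n).le).trans (D.hr n i)
  choose J hJ using h
  exact ⟨J, hJ⟩

lemma exists_lim_t (hp : 2 ≤ p) : ∃ J : Fin d → ℝ, ∀ i,
    Tendsto (fun n => (D.t n i : ℝ) * Real.log p / D.T n) U (𝓝 (J i)) := by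
  have h : ∀ i, ∃ l, Tendsto (fun n => (D.t n i : ℝ) * Real.log p / D.T n) U (𝓝 l) := by
    intro i
    apply ultra_lim (C := C₀ * Real.log p)
    refine Eventually.of_forall fun n => ?_
    have hl := (one_lt_log_pos hp).2
    refine D.abs_div_T_le n (mul_nonneg (Nat.cast_nonneg _) hl.le) ?_
    have := mul_le_mul_of_nonneg_right (D.ht n i) hl.le
    linarith
  choose J hJ using h
  exact ⟨J, hJ⟩

lemma exists_lim_A (hq : 2 ≤ q) :
    ∃ a, Tendsto (fun n => Real.log (D.A n) / D.T n) U (𝓝 a) := by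
  apply ultra_lim (C := C₀ * Real.log q)
  exact Eventually.of_forall fun n => D.abs_div_T_le n (D.log_A_nonneg n) (D.log_A_le hq n)

lemma exists_lim_s (hp : 2 ≤ p) (hq : 2 ≤ q) :
    ∃ S, Tendsto (fun n => (D.s n : ℝ) * Real.log p / D.T n) U (𝓝 S) := by
  apply ultra_lim (C := C₀ * Real.log p)
  refine Eventually.of_forall fun n => ?_
  have hl := (one_lt_log_pos hp).2
  refine D.abs_div_T_le n (mul_nonneg (Nat.cast_nonneg _) hl.le) ?_
  have h1 : (D.s n : ℝ) ≤ C₀ * D.T n := Nat.floor_le (D.C0T_nonneg hq n)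
  have := mul_le_mul_of_nonneg_right h1 hl.le
  linarith

lemma tendsto_const_div (c : ℝ) : Tendsto (fun n => c / D.T n) U (𝓝 0) :=
  D.tendsto_T.const_div_atTop c

lemma tau_eq {τ : Fin d → ℝ}
    (hτ : ∀ i, Tendsto (fun n => (D.t n i : ℝ) * Real.log p / D.T n) U (𝓝 (τ i)))
    {i i' : Fin d} (h : D.sim i i') : τ i = τ i' := by
  obtain ⟨c1, c2, h⟩ := h
  have h1 := (hτ i).add (D.tendsto_const_div (c2 * Real.log p))
  have h2 := (hτ i').add (D.tendsto_const_div (c1 * Real.log p))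
  rw [add_zero] at h1 h2
  refine tendsto_nhds_unique h1 (h2.congr' ?_)
  filter_upwards [h] with n hn
  have h3 : (D.t n i : ℝ) + c2 = D.t n i' + c1 := by exact_mod_cast hn
  rw [← add_div, ← add_div, ← add_mul, ← add_mul, h3]

lemma J_le {J ρ : Fin d → ℝ} (hp : 2 ≤ p) (hq : 2 ≤ q) (hpq : Nat.Coprime p q) (hδ : 0 < δ)
    (hJ : ∀ i, Tendsto (fun n => (D.j n i : ℝ) * Real.log q / D.T n) U (𝓝 (J i)))
    (hρ : ∀ i, Tendsto (fun n => D.r n i * Real.log q / D.T n) U (𝓝 (ρ i)))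
    {i i' : Fin d} (hs : D.sim i i') (hj : D.jl i i') : J i ≤ J i' - ρ i' := by
  obtain ⟨c, hc⟩ := D.L1_le hp hq hpq hδ hs hj
  have h1 := ((D.tendsto_const_div c).add (hJ i')).sub (hρ i')
  rw [zero_add] at h1
  refine le_of_tendsto_of_tendsto (hJ i) h1 ?_
  filter_upwards [hc] with n hn
  rw [← add_div, ← sub_div]
  exact div_le_div_of_nonneg_right hn (D.T_pos n).le

lemma sum_rho {ρ : Fin d → ℝ} {a : ℝ} (hq : 2 ≤ q)
    (hρ : ∀ i, Tendsto (fun n => D.r n i * Real.log q / D.T n) U (𝓝 (ρ i)))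
    (ha : Tendsto (fun n => Real.log (D.A n) / D.T n) U (𝓝 a)) :
    a + ε * Real.log q ≤ ∑ i, ρ i := by
  have h1 : Tendsto (fun n => ∑ i, D.r n i * Real.log q / D.T n) U (𝓝 (∑ i, ρ i)) :=
    tendsto_finsetSum _ fun i _ => hρ i
  have h2 := ha.add (tendsto_const_nhds (x := ε * Real.log q))
  refine le_of_tendsto_of_tendsto h2 h1 (Eventually.of_forall fun n => ?_)
  have hl := (one_lt_log_pos hq).2
  have h3 := mul_le_mul_of_nonneg_right (D.hsum n).le hl.le
  have h4 : Real.logb q (D.A n) * Real.log q = Real.log (D.A n) := by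
    rw [Real.logb, div_mul_cancel₀ _ hl.ne']
  have h5 : Real.log (D.A n) / D.T n + ε * Real.log q =
      (Real.logb q (D.A n) + ε * D.T n) * Real.log q / D.T n := by
    rw [add_mul, h4]
    have := (D.T_pos n).ne'
    field_simp
  show Real.log (D.A n) / D.T n + ε * Real.log q ≤ ∑ i, D.r n i * Real.log q / D.T n
  rw [h5, ← Finset.sum_div, ← Finset.sum_mul]
  exact div_le_div_of_nonneg_right h3 (D.T_pos n).le

lemma ev_W : ∀ᶠ n in U, ∀ w ∈ D.W, ∑ i, w i * (D.z n i : ℚ) = 0 := by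
  obtain ⟨S, hS⟩ := (IsNoetherian.noetherian D.W : D.W.FG)
  have h1 : ∀ᶠ n in U, ∀ w ∈ S, ∑ i, w i * (D.z n i : ℚ) = 0 := by
    rw [eventually_all_finset]
    intro w hw
    have : w ∈ D.W := by rw [← hS]; exact Submodule.subset_span hw
    exact this
  filter_upwards [h1] with n hn w hw
  rw [← hS] at hw
  refine Submodule.span_induction (p := fun w _ => ∑ i, w i * (D.z n i : ℚ) = 0)
    (fun w hw => hn w hw) ?_ ?_ ?_ hw
  · simp
  · intro a b _ _ h1 h2
    simp only [Pi.add_apply, add_mul, Finset.sum_add_distrib, h1, h2, add_zero]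
  · intro c a _ h1
    simp only [Pi.smul_apply, smul_eq_mul, mul_assoc, ← Finset.mul_sum, h1, mul_zero]

end RunData

lemma pair_inj {d a b x y : ℕ} (hx : x ≤ d) (hy : y ≤ d)
    (h : a * (d + 1) + x = b * (d + 1) + y) : a = b ∧ x = y := by
  rcases lt_trichotomy a b with h1 | h1 | h1
  · exfalso
    have h2 : (a + 1) * (d + 1) ≤ b * (d + 1) := Nat.mul_le_mul_right _ h1
    rw [add_mul] at h2
    omega
  · subst h1
    exact ⟨rfl, by omega⟩
  · exfalso
    have h2 : (b + 1) * (d + 1) ≤ a * (d + 1) := Nat.mul_le_mul_right _ h1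
    rw [add_mul] at h2
    omega

lemma kexp_le {b k : ℕ} (hb : 2 ≤ b) {a T : ℝ} (h : a * T ≤ k * Real.log b) :
    kexp b a T ≤ k := by
  unfold kexp
  apply Nat.floor_le_of_le
  rwa [div_le_iff₀ (one_lt_log_pos hb).2]

lemma sum_option_equiv {d' : ℕ} {P : Set (Fin d')} {m : ℕ} [DecidablePred fun i => i ∉ P]
    (e : Fin m ≃ Option {i // i ∉ P}) (f : Option {i // i ∉ P} → ℝ) :
    ∑ l, f (e l) = f none + ∑ i : {i // i ∉ P}, f (some i) := by
  rw [Equiv.sum_comp e f, Fintype.sum_option]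

namespace RunData

variable {p q : ℕ} {C₀ δ ε : ℝ} {d : ℕ} (D : RunData p q C₀ δ ε d)

/-- The keys. -/
noncomputable def ka (i : Fin d) : ℕ := D.level i * (d + 1) + (d - D.pos i)

noncomputable def kb (i : Fin d) : ℕ := D.level i * (d + 1) + D.pos i

lemma eq_of_level_pos (hp : 2 ≤ p) (hq : 2 ≤ q) (hδ : 0 < δ) {i i' : Fin d}
    (h1 : D.level i = D.level i') (h2 : D.pos i = D.pos i') : i = i' :=
  D.L1_ne hp hq hδ (D.sim_of_level_eq h1) (D.jeq_of_pos_eq h2)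

lemma ka_inj (hp : 2 ≤ p) (hq : 2 ≤ q) (hδ : 0 < δ) : Function.Injective D.ka := by
  intro i i' h
  obtain ⟨h1, h2⟩ := pair_inj (Nat.sub_le _ _) (Nat.sub_le _ _) h
  have h3 := D.pos_le i
  have h4 := D.pos_le i'
  exact D.eq_of_level_pos hp hq hδ h1 (by omega)

lemma kb_inj (hp : 2 ≤ p) (hq : 2 ≤ q) (hδ : 0 < δ) : Function.Injective D.kb := by
  intro i i' h
  obtain ⟨h1, h2⟩ := pair_inj (D.pos_le i) (D.pos_le i') h
  exact D.eq_of_level_pos hp hq hδ h1 h2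

/-- The inequality given by the subspace theorem. -/
lemma main_ineq (hp : 2 ≤ p) (hq : 2 ≤ q) (hpq : Nat.Coprime p q) (hδ : 0 < δ)
    {J ρ τ : Fin d → ℝ} {S a : ℝ}
    (hJ : ∀ i, Tendsto (fun n => (D.j n i : ℝ) * Real.log q / D.T n) U (𝓝 (J i)))
    (hρ : ∀ i, Tendsto (fun n => D.r n i * Real.log q / D.T n) U (𝓝 (ρ i)))
    (hτ : ∀ i, Tendsto (fun n => (D.t n i : ℝ) * Real.log p / D.T n) U (𝓝 (τ i)))
    (ha : Tendsto (fun n => Real.log (D.A n) / D.T n) U (𝓝 a))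
    (hS : Tendsto (fun n => (D.s n : ℝ) * Real.log p / D.T n) U (𝓝 S))
    {η : ℝ} (hη : 0 < η) {Pa Pb : Set (Fin d)} (hPa : Pa = Piv D.W D.ka)
    (hPb : Pb = Piv D.W D.kb) (Fa Fb : Finset (Fin d))
    (hFa : ∀ i, i ∈ Fa ↔ i ∉ Pa) (hFb : ∀ i, i ∈ Fb ↔ i ∉ Pb) :
    ∑ i ∈ Fa, (J i - τ i) ≤ a + (2 + 3 * d) * η + ∑ i ∈ Fb, (J i - ρ i - τ i) := by
  classical
  obtain ⟨hq1, hlq⟩ := one_lt_log_pos hq
  obtain ⟨hp1, hlp⟩ := one_lt_log_pos hp
  have hq0 : (0 : ℝ) < q := by linarith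
  have hp0 : (0 : ℝ) < p := by linarith
  have hex : ∃ (m : ℕ) (ea : Fin m ≃ Option {i // i ∉ Pa}) (eb : Fin m ≃ Option {i // i ∉ Pb})
      (M : Matrix (Fin m) (Fin m) ℚ), 1 ≤ m ∧ M.det ≠ 0 ∧
      ∀ (z₀ : ℚ) (z : Fin d → ℚ), (∀ w ∈ D.W, ∑ i, w i * z i = 0) →
        ∀ r, ∑ l, M r l * coordA Pa z₀ z (ea l) = coordB Pb z₀ z (eb r) := by
    rw [hPa, hPb]
    exact exists_change_matrix D.W
      (fun w hw => D.R1 hp hq hδ hw) D.ka D.kb (D.ka_inj hp hq hδ) (D.kb_inj hp hq hδ)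
  obtain ⟨m, ea, eb, M, hm, hM, hMx⟩ := hex
  -- the point
  let x : ℕ → Fin m → ℤ := fun n l => (ea l).elim (D.z0 n) (fun i => D.z n i.1)
  have hx : ∀ n l, (x n l : ℚ) = coordA Pa (D.z0 n : ℚ) (fun i => (D.z n i : ℚ)) (ea l) := by
    intro n l
    show (((ea l).elim (D.z0 n) (fun i => D.z n i.1) : ℤ) : ℚ) = _
    rcases ea l with _ | i
    · rfl
    · rfl
  -- exponents
  let aO : Bool → Option {i // i ∉ Pa} → ℝ := fun v o =>
    match v, o with
    | true, none => max 0 (S - η)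
    | true, some i => max 0 (S - τ i.1 - η)
    | false, none => 0
    | false, some i => max 0 (J i.1 - η)
  let cO : Option {i // i ∉ Pb} → ℝ := fun o => o.elim (S + a + η)
    (fun i => S - τ i.1 + J i.1 - ρ i.1 + η)
  let b : Bool → ℕ := fun v => if v then p else q
  have hgen : ∀ l : Fin m → ℚ, l ≠ 0 → ∀ᶠ n in U, ∑ i, l i * (x n i : ℚ) ≠ 0 := by
    intro l hl
    by_contra hcon
    rw [Ultrafilter.eventually_not, not_not] at hcon
    apply hl
    have hsum : ∀ n, ∑ i, l i * (x n i : ℚ) = l (ea.symm none) * (D.z0 n : ℚ) +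
        ∑ i, (if h : i ∉ Pa then l (ea.symm (some ⟨i, h⟩)) else 0) * (D.z n i : ℚ) := by
      intro n
      have h1 : ∑ i, l i * (x n i : ℚ) = ∑ o : Option {i // i ∉ Pa}, l (ea.symm o) *
          coordA Pa (D.z0 n : ℚ) (fun i => (D.z n i : ℚ)) o := by
        rw [← Equiv.sum_comp ea]
        refine Finset.sum_congr rfl fun i _ => ?_
        rw [Equiv.symm_apply_apply, hx]
      rw [h1, Fintype.sum_option]
      congr 1
      have h2 : ∑ i, (if h : i ∉ Pa then l (ea.symm (some ⟨i, h⟩)) else 0) * (D.z n i : ℚ) =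
          ∑ i ∈ Fa, (if h : i ∉ Pa then l (ea.symm (some ⟨i, h⟩)) else 0) * (D.z n i : ℚ) := by
        symm
        apply Finset.sum_subset (Finset.subset_univ _)
        intro i _ hi
        rw [dif_neg (fun h => hi ((hFa i).2 h)), zero_mul]
      rw [h2, Finset.sum_subtype Fa hFa]
      refine Finset.sum_congr rfl fun i _ => ?_
      rw [dif_pos i.2]
      rfl
    have h0 : l (ea.symm none) = 0 := by
      apply D.R0 hq hpq hδ _ (fun i => if h : i ∉ Pa then l (ea.symm (some ⟨i, h⟩)) else 0)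
      filter_upwards [hcon] with n hn
      rw [← hsum n]
      exact hn
    have hw : (fun i => if h : i ∉ Pa then l (ea.symm (some ⟨i, h⟩)) else 0) ∈ D.W := by
      rw [mem_W]
      filter_upwards [hcon] with n hn
      rw [hsum n, h0, zero_mul, zero_add] at hn
      exact hn
    have hw0 := eq_zero_of_supp_off_piv D.W D.ka _ hw (by
      intro i hi
      rw [← hPa] at hi
      show (if h : i ∉ Pa then l (ea.symm (some ⟨i, h⟩)) else 0) = 0
      rw [dif_neg (not_not.2 hi)])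
    funext k
    rw [← Equiv.symm_apply_apply ea k]
    rcases h : ea k with _ | i
    · rw [h0]; rfl
    · have h3 := congrFun hw0 i.1
      have h4 : (if h : i.1 ∉ Pa then l (ea.symm (some ⟨i.1, h⟩)) else 0) = 0 := h3
      rw [dif_pos i.2] at h4
      exact h4
  -- limits
  have hTpos := D.T_pos
  have evJ : ∀ᶠ n in U, ∀ i, (J i - η) * D.T n ≤ (D.j n i : ℝ) * Real.log q ∧
      (D.j n i : ℝ) * Real.log q ≤ (J i + η / 4) * D.T n := by
    rw [eventually_all]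
    intro i
    filter_upwards [(hJ i).eventually (lt_mem_nhds (show J i - η < J i by linarith)),
      (hJ i).eventually (gt_mem_nhds (show J i < J i + η / 4 by linarith))] with n h1 h2
    rw [lt_div_iff₀ (hTpos n)] at h1
    rw [div_lt_iff₀ (hTpos n)] at h2
    exact ⟨h1.le, h2.le⟩
  have evρ : ∀ᶠ n in U, ∀ i, (ρ i - η / 4) * D.T n ≤ D.r n i * Real.log q := by
    rw [eventually_all]
    intro i
    filter_upwards [(hρ i).eventually (lt_mem_nhds (show ρ i - η / 4 < ρ i by linarith))]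
      with n h1
    rw [lt_div_iff₀ (hTpos n)] at h1
    exact h1.le
  have evτ : ∀ᶠ n in U, ∀ i, (τ i - η / 4) * D.T n ≤ (D.t n i : ℝ) * Real.log p ∧
      (D.t n i : ℝ) * Real.log p ≤ (τ i + η / 4) * D.T n := by
    rw [eventually_all]
    intro i
    filter_upwards [(hτ i).eventually (lt_mem_nhds (show τ i - η / 4 < τ i by linarith)),
      (hτ i).eventually (gt_mem_nhds (show τ i < τ i + η / 4 by linarith))] with n h1 h2
    rw [lt_div_iff₀ (hTpos n)] at h1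
    rw [div_lt_iff₀ (hTpos n)] at h2
    exact ⟨h1.le, h2.le⟩
  have evS : ∀ᶠ n in U, (S - η / 4) * D.T n ≤ (D.s n : ℝ) * Real.log p ∧
      (D.s n : ℝ) * Real.log p ≤ (S + η / 4) * D.T n := by
    filter_upwards [hS.eventually (lt_mem_nhds (show S - η / 4 < S by linarith)),
      hS.eventually (gt_mem_nhds (show S < S + η / 4 by linarith))] with n h1 h2
    rw [lt_div_iff₀ (hTpos n)] at h1
    rw [div_lt_iff₀ (hTpos n)] at h2
    exact ⟨h1.le, h2.le⟩
  have eva : ∀ᶠ n in U, Real.log (D.A n) ≤ (a + η / 4) * D.T n := by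
    filter_upwards [ha.eventually (gt_mem_nhds (show a < a + η / 4 by linarith))] with n h2
    rw [div_lt_iff₀ (hTpos n)] at h2
    exact h2.le
  have hxM : ∀ᶠ n in U, ∀ i, |∑ j, (M i j : ℝ) * x n j| ≤ Real.exp (cO (eb i) * D.T n) := by
    filter_upwards [D.ev_W, evJ, evρ, evτ, evS, eva] with n hW h1 h2 h3 h4 h5 i
    have h6 := hMx (D.z0 n : ℚ) (fun i => (D.z n i : ℚ)) hW i
    have h7 : ∑ j, (M i j : ℝ) * (x n j : ℝ) =
        ((coordB Pb (D.z0 n : ℚ) (fun i => (D.z n i : ℚ)) (eb i) : ℚ) : ℝ) := by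
      rw [← h6]
      push_cast
      refine Finset.sum_congr rfl fun j _ => ?_
      rw [← hx]
      push_cast
      rfl
    rw [h7]
    have hT0 := hTpos n
    rcases eb i with _ | k
    · show |((D.z0 n : ℚ) : ℝ)| ≤ Real.exp ((S + a + η) * D.T n)
      have hA0 : (0 : ℝ) < D.A n := by exact_mod_cast D.hA n
      have h8 : ((D.z0 n : ℚ) : ℝ) = Real.exp ((D.s n : ℝ) * Real.log p + Real.log (D.A n)) := by
        rw [Real.exp_add, Real.exp_log hA0, ← Real.log_pow, Real.exp_log (pow_pos hp0 _)]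
        unfold z0
        push_cast
        rfl
      rw [h8, abs_of_pos (Real.exp_pos _), Real.exp_le_exp]
      nlinarith [h4.2, h5, mul_pos hη hT0]
    · show |(((D.z n k.1 : ℚ) - (D.z0 n : ℚ) : ℚ) : ℝ)| ≤
        Real.exp ((S - τ k.1 + J k.1 - ρ k.1 + η) * D.T n)
      push_cast
      refine (D.z_sub hq n k.1).trans ?_
      have h8 : (p : ℝ) ^ (D.s n - D.t n k.1) *
          ((q : ℝ) ^ D.j n k.1 * (q : ℝ) ^ (-(D.r n k.1))) =
          Real.exp (((D.s n : ℝ) - D.t n k.1) * Real.log p + ((D.j n k.1 : ℝ) * Real.log q +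
            (-(D.r n k.1)) * Real.log q)) := by
        rw [Real.exp_add, Real.exp_add]
        congr 1
        · rw [← Nat.cast_sub (D.t_le_s n k.1), ← Real.log_pow, Real.exp_log (pow_pos hp0 _)]
        · congr 1
          · rw [← Real.log_pow, Real.exp_log (pow_pos hq0 _)]
          · rw [Real.rpow_def_of_pos hq0, mul_comm]
      rw [h8, Real.exp_le_exp]
      nlinarith [(h1 k.1).2, h2 k.1, (h3 k.1).1, h4.2, mul_pos hη hT0]
  have hxv : ∀ᶠ n in U, ∀ (v : Bool) i, ((b v : ℤ)) ^ kexp (b v) (aO v (ea i)) (D.T n) ∣ x n i := by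
    filter_upwards [evJ, evτ, evS] with n h1 h3 h4 v i
    have hT0 := hTpos n
    show ((b v : ℤ)) ^ kexp (b v) (aO v (ea i)) (D.T n) ∣
      (ea i).elim (D.z0 n) (fun i => D.z n i.1)
    rcases v with _ | _
    · rcases ea i with _ | k
      · show ((q : ℤ)) ^ kexp q 0 (D.T n) ∣ D.z0 n
        have : kexp q 0 (D.T n) = 0 := by simp [kexp]
        rw [this, pow_zero]
        exact one_dvd _
      · show ((q : ℤ)) ^ kexp q (max 0 (J k.1 - η)) (D.T n) ∣ D.z n k.1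
        unfold z
        apply dvd_mul_of_dvd_right
        apply pow_dvd_pow
        apply kexp_le hq
        rcases max_cases 0 (J k.1 - η) with ⟨h5, _⟩ | ⟨h5, _⟩
        · rw [h5, zero_mul]; positivity
        · rw [h5]; exact (h1 k.1).1
    · rcases ea i with _ | k
      · show ((p : ℤ)) ^ kexp p (max 0 (S - η)) (D.T n) ∣ D.z0 n
        unfold z0
        apply dvd_mul_of_dvd_left
        apply pow_dvd_pow
        apply kexp_le hp
        rcases max_cases 0 (S - η) with ⟨h5, _⟩ | ⟨h5, _⟩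
        · rw [h5, zero_mul]; positivity
        · rw [h5]; nlinarith [h4.1, mul_pos hη hT0]
      · show ((p : ℤ)) ^ kexp p (max 0 (S - τ k.1 - η)) (D.T n) ∣ D.z n k.1
        unfold z
        rw [mul_assoc]
        apply dvd_mul_of_dvd_left
        apply pow_dvd_pow
        apply kexp_le hp
        rw [Nat.cast_sub (D.t_le_s n k.1)]
        rcases max_cases 0 (S - τ k.1 - η) with ⟨h5, _⟩ | ⟨h5, _⟩
        · rw [h5, zero_mul]
          have : (D.t n k.1 : ℝ) ≤ D.s n := by exact_mod_cast D.t_le_s n k.1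
          exact mul_nonneg (by linarith) hlp.le
        · rw [h5]; nlinarith [(h3 k.1).2, h4.1, mul_pos hη hT0]
  have key := param_subspace U D.T D.tendsto_T hm M hM b
    (by intro v; rcases v with _ | _ <;> simp [b, hp, hq])
    (by
      intro v w hvw
      rcases v with _ | _ <;> rcases w with _ | _
      · exact absurd rfl hvw
      · exact hpq.symm
      · exact hpq
      · exact absurd rfl hvw)
    (fun v i => aO v (ea i))
    (by
      intro v i
      show 0 ≤ aO v (ea i)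
      rcases v with _ | _ <;> rcases ea i with _ | k
      · exact le_rfl
      · exact le_max_left _ _
      · exact le_max_left _ _
      · exact le_max_left _ _)
    (fun i => cO (eb i)) x hgen hxM hxv
  rw [Fintype.sum_bool, sum_option_equiv ea (aO true), sum_option_equiv ea (aO false),
    sum_option_equiv eb cO] at key
  have e1 : ∑ i : {i // i ∉ Pa}, aO true (some i) = ∑ i ∈ Fa, max 0 (S - τ i - η) :=
    (Finset.sum_subtype Fa hFa (fun i => max 0 (S - τ i - η))).symm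
  have e2 : ∑ i : {i // i ∉ Pa}, aO false (some i) = ∑ i ∈ Fa, max 0 (J i - η) :=
    (Finset.sum_subtype Fa hFa (fun i => max 0 (J i - η))).symm
  have e3 : ∑ i : {i // i ∉ Pb}, cO (some i) = ∑ i ∈ Fb, (S - τ i + J i - ρ i + η) :=
    (Finset.sum_subtype Fb hFb (fun i => S - τ i + J i - ρ i + η)).symm
  rw [e1, e2, e3] at key
  have c1 : aO true none = max 0 (S - η) := rfl
  have c2 : aO false none = 0 := rfl
  have c3 : cO none = S + a + η := rfl
  rw [c1, c2, c3] at key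
  have l1 : ∑ i ∈ Fa, (S - τ i - η) ≤ ∑ i ∈ Fa, max 0 (S - τ i - η) :=
    Finset.sum_le_sum fun i _ => le_max_right _ _
  have l2 : ∑ i ∈ Fa, (J i - η) ≤ ∑ i ∈ Fa, max 0 (J i - η) :=
    Finset.sum_le_sum fun i _ => le_max_right _ _
  have l3 := le_max_right 0 (S - η)
  have cardA : (Fa.card : ℝ) + 1 = m := by
    have h1 := Fintype.card_congr ea
    rw [Fintype.card_fin, Fintype.card_option, Fintype.card_of_subtype Fa hFa] at h1
    rw [h1]; push_cast; ring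
  have cardB : (Fb.card : ℝ) + 1 = m := by
    have h1 := Fintype.card_congr eb
    rw [Fintype.card_fin, Fintype.card_option, Fintype.card_of_subtype Fb hFb] at h1
    rw [h1]; push_cast; ring
  have hcard : (Fb.card : ℝ) = Fa.card := by linarith
  have hFd : (Fa.card : ℝ) ≤ d := by
    have := Finset.card_le_univ Fa
    rw [Fintype.card_fin] at this
    exact_mod_cast this
  have s1 : ∑ i ∈ Fa, (S - τ i - η) = Fa.card * (S - η) - ∑ i ∈ Fa, τ i := by
    rw [← nsmul_eq_mul, ← Finset.sum_const, ← Finset.sum_sub_distrib]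
    exact Finset.sum_congr rfl fun i _ => by ring
  have s2 : ∑ i ∈ Fa, (J i - η) = ∑ i ∈ Fa, J i - Fa.card * η := by
    rw [← nsmul_eq_mul, ← Finset.sum_const, ← Finset.sum_sub_distrib]
  have s3 : ∑ i ∈ Fb, (S - τ i + J i - ρ i + η) = Fb.card * (S + η) +
      ∑ i ∈ Fb, (J i - ρ i - τ i) := by
    rw [← nsmul_eq_mul, ← Finset.sum_const, ← Finset.sum_add_distrib]
    exact Finset.sum_congr rfl fun i _ => by ring
  have s4 : ∑ i ∈ Fa, (J i - τ i) = ∑ i ∈ Fa, J i - ∑ i ∈ Fa, τ i :=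
    Finset.sum_sub_distrib _ _
  rw [s1] at l1
  rw [s2] at l2
  rw [s3, hcard] at key
  rw [s4]
  have h8 : (Fa.card : ℝ) * η ≤ d * η := mul_le_mul_of_nonneg_right hFd hη.le
  nlinarith [key, l1, l2, l3, h8]

include D in
/-- There is no such sequence. -/
theorem absurd_data (hp : 2 ≤ p) (hq : 2 ≤ q) (hpq : Nat.Coprime p q) (hδ : 0 < δ) (hε : 0 < ε) :
    False := by
  classical
  obtain ⟨J, hJ⟩ := D.exists_lim_j hp hq hδ
  obtain ⟨ρ, hρ⟩ := D.exists_lim_r hp hq hpq hδ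
  obtain ⟨τ, hτ⟩ := D.exists_lim_t hp
  obtain ⟨a, ha⟩ := D.exists_lim_A hq
  obtain ⟨S, hS⟩ := D.exists_lim_s hp hq
  have hlq := (one_lt_log_pos hq).2
  have hsum := D.sum_rho hq hρ ha
  obtain ⟨φ, hφ, hφ2⟩ := exists_pairing D.W D.level D.pos d D.pos_le
    (fun i i' h1 h2 => D.eq_of_level_pos hp hq hδ h1 h2)
    (fun w hw hw0 => D.L2 hp hpq hw hw0)
  have hη : 0 < ε * Real.log q / (2 * (2 + 3 * (d : ℝ))) := by positivity
  have key := D.main_ineq hp hq hpq hδ hJ hρ hτ ha hS hη rfl rfl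
    (Finset.univ.filter fun i => i ∉ Piv D.W D.ka) (Finset.univ.filter fun i => i ∉ Piv D.W D.kb)
    (by simp) (by simp)
  have h1 : (2 + 3 * (d : ℝ)) * (ε * Real.log q / (2 * (2 + 3 * (d : ℝ)))) =
      ε * Real.log q / 2 := by
    field_simp
  rw [h1] at key
  have h2 : ∑ i ∈ Finset.univ.filter (fun i => i ∈ Piv D.W D.ka), (J i - τ i) ≤
      ∑ i ∈ Finset.univ.filter (fun i => i ∈ Piv D.W D.kb), (J i - ρ i - τ i) := by
    have h3 : ∑ i ∈ Finset.univ.filter (fun i => i ∈ Piv D.W D.kb), (J i - ρ i - τ i) =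
        ∑ i ∈ Finset.univ.filter (fun i => i ∈ Piv D.W D.ka), (J (φ i) - ρ (φ i) - τ (φ i)) := by
      symm
      apply Finset.sum_nbij φ
      · intro i hi
        simp only [Finset.mem_filter, Finset.mem_univ, true_and] at hi ⊢
        exact hφ.mapsTo hi
      · intro i hi i' hi' h
        simp only [Finset.coe_filter, Finset.mem_univ, true_and, Set.ofPred_mem_eq] at hi hi'
        exact hφ.injOn hi hi' h
      · intro i hi
        simp only [Finset.coe_filter, Finset.mem_univ, true_and, Set.ofPred_mem_eq] at hi ⊢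
        exact hφ.surjOn hi
      · intro i _
        rfl
    rw [h3]
    apply Finset.sum_le_sum
    intro i hi
    simp only [Finset.mem_filter, Finset.mem_univ, true_and] at hi
    obtain ⟨h4, h5⟩ := hφ2 i hi
    have h6 := D.sim_of_level_eq h4.symm
    have h7 := D.J_le hp hq hpq hδ hJ hρ h6 (D.jl_of_pos_lt h5)
    have h8 := D.tau_eq hτ h6
    linarith
  have h3 : ∑ i, (J i - τ i) ≤ a + ε * Real.log q / 2 + ∑ i, (J i - ρ i - τ i) := by
    rw [← Finset.sum_filter_add_sum_filter_not Finset.univ (fun i => i ∈ Piv D.W D.ka)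
      (fun i => J i - τ i), ← Finset.sum_filter_add_sum_filter_not Finset.univ
      (fun i => i ∈ Piv D.W D.kb) (fun i => J i - ρ i - τ i)]
    linarith
  have h4 : ∑ i, (J i - τ i) - ∑ i, (J i - ρ i - τ i) = ∑ i, ρ i := by
    rw [← Finset.sum_sub_distrib]
    exact Finset.sum_congr rfl fun i _ => by ring
  have h5 : 0 < ε * Real.log q := mul_pos hε hlq
  linarith

end RunData

/-- If `A` has at most `C₀ T` base `q` digits, then the total length of the new long runs of zeros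
(or of digits `q - 1`) in the numbers `p ^ t A` is at most `log_q A + ε T`. -/
theorem run_lemma {p q : ℕ} (hp : 2 ≤ p) (hq : 2 ≤ q) (hpq : Nat.Coprime p q) (C₀ δ ε : ℝ)
    (hδ : 0 < δ) (hε : 0 < ε) :
    ∃ T₀ : ℝ, 0 < T₀ ∧ ∀ T : ℝ, T₀ ≤ T → ∀ A : ℕ, 1 ≤ A → ¬ q ∣ A → Real.logb q A ≤ C₀ * T →
      ∀ (F : Finset (ℕ × ℕ)) (B : ℕ × ℕ → ℕ) (r : ℕ × ℕ → ℝ),
      (∀ x ∈ F, (x.1 : ℝ) ≤ C₀ * T ∧ 1 ≤ x.2 ∧ 1 ≤ B x ∧ ¬ q ∣ B x ∧ ¬ p ∣ B x ∧ δ * T ≤ r x ∧
        |(p : ℝ) ^ x.1 * A - B x * (q : ℝ) ^ x.2| ≤ (q : ℝ) ^ ((x.2 : ℝ) - r x)) →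
      ∑ x ∈ F, r x ≤ Real.logb q A + ε * T := by
  classical
  -- a counterexample of bounded size
  let Bad : ℕ → ℝ → Prop := fun d T => ∃ A : ℕ, 1 ≤ A ∧ ¬ q ∣ A ∧ Real.logb q A ≤ C₀ * T ∧
    ∃ (F : Finset (ℕ × ℕ)) (B : ℕ × ℕ → ℕ) (r : ℕ × ℕ → ℝ), F.card = d ∧
      (∀ x ∈ F, (x.1 : ℝ) ≤ C₀ * T ∧ 1 ≤ x.2 ∧ 1 ≤ B x ∧ ¬ q ∣ B x ∧ ¬ p ∣ B x ∧ δ * T ≤ r x ∧
        |(p : ℝ) ^ x.1 * A - B x * (q : ℝ) ^ x.2| ≤ (q : ℝ) ^ ((x.2 : ℝ) - r x)) ∧
      Real.logb q A + ε * T < ∑ x ∈ F, r x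
  by_contra hcon
  push Not at hcon
  set K : ℕ := ⌈(C₀ + ε) / δ⌉₊ + 1 with hK
  have step1 : ∀ T₀ : ℝ, 0 < T₀ → ∃ T, T₀ ≤ T ∧ ∃ d, d ≤ K ∧ Bad d T := by
    intro T₀ hT₀
    obtain ⟨T, hT, A, hA, hqA, hlog, F, B, r, hF, hsum⟩ := hcon T₀ hT₀
    have hTpos : 0 < T := lt_of_lt_of_le hT₀ hT
    -- a minimal violating subfamily
    obtain ⟨G, hG, hmin⟩ := Finset.exists_min_image
      (F.powerset.filter fun G => Real.logb q A + ε * T < ∑ x ∈ G, r x) Finset.card
      ⟨F, by simp [hsum]⟩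
    simp only [Finset.mem_filter, Finset.mem_powerset] at hG hmin
    refine ⟨T, hT, G.card, ?_, A, hA, hqA, hlog, G, B, r, rfl, fun x hx => hF x (hG.1 hx), hG.2⟩
    rcases G.eq_empty_or_nonempty with h0 | ⟨x, hx⟩
    · rw [h0]; simp
    · have h1 : ∑ y ∈ G.erase x, r y ≤ Real.logb q A + ε * T := by
        by_contra h2
        push Not at h2
        have h3 := hmin (G.erase x) ⟨(Finset.erase_subset _ _).trans hG.1, h2⟩
        have h4 := Finset.card_erase_lt_of_mem hx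
        omega
      have h2 : ((G.erase x).card : ℝ) * (δ * T) ≤ ∑ y ∈ G.erase x, r y := by
        rw [← nsmul_eq_mul, ← Finset.sum_const]
        exact Finset.sum_le_sum fun y hy =>
          (hF y (hG.1 (Finset.mem_of_mem_erase hy))).2.2.2.2.2.1
      have h3 : ((G.erase x).card : ℝ) * δ ≤ C₀ + ε := by
        have h4 : ((G.erase x).card : ℝ) * δ * T ≤ (C₀ + ε) * T := by nlinarith
        exact le_of_mul_le_mul_right h4 hTpos
      have h4 : ((G.erase x).card : ℝ) ≤ (C₀ + ε) / δ := by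
        rwa [le_div_iff₀ hδ]
      have h5 : (G.erase x).card ≤ ⌈(C₀ + ε) / δ⌉₊ := by
        exact_mod_cast h4.trans (Nat.le_ceil _)
      have h6 : (G.erase x).card + 1 = G.card := Finset.card_erase_add_one hx
      omega
  -- a constant size
  have step2 : ∃ d, ∀ T₀ : ℝ, 0 < T₀ → ∃ T, T₀ ≤ T ∧ Bad d T := by
    by_contra h
    push Not at h
    choose T₀ hT₀ hno using h
    set M : ℝ := ∑ d ∈ Finset.range (K + 1), T₀ d with hM
    have hM1 : ∀ d ≤ K, T₀ d ≤ M := by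
      intro d hd
      exact Finset.single_le_sum (f := T₀) (fun i _ => (hT₀ i).le)
        (Finset.mem_range.2 (by omega))
    have hMpos : 0 < M := lt_of_lt_of_le (hT₀ 0) (hM1 0 (Nat.zero_le _))
    obtain ⟨T, hT, d, hd, hbad⟩ := step1 M hMpos
    exact hno d T ((hM1 d hd).trans hT) hbad
  obtain ⟨d, hd⟩ := step2
  have hd' : ∀ n : ℕ, ∃ T, (n : ℝ) + 1 ≤ T ∧ Bad d T := fun n => hd _ (by positivity)
  choose T hT A hA hqA hlog F B r hcard hF hsum using hd'
  let e : ∀ n, Fin d ≃ F n := fun n => (Finset.equivFinOfCardEq (hcard n)).symm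
  have hD : RunData p q C₀ δ ε d :=
    { T := T
      A := A
      t := fun n i => (e n i).1.1
      j := fun n i => (e n i).1.2
      B := fun n i => B n (e n i).1
      r := fun n i => r n (e n i).1
      hT := hT
      hA := hA
      hqA := hqA
      hlog := hlog
      hinj := fun n i i' h1 h2 => (e n).injective (Subtype.ext (Prod.ext h1 h2))
      ht := fun n i => (hF n _ (e n i).2).1
      hj := fun n i => (hF n _ (e n i).2).2.1
      hB := fun n i => (hF n _ (e n i).2).2.2.1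
      hqB := fun n i => (hF n _ (e n i).2).2.2.2.1
      hpB := fun n i => (hF n _ (e n i).2).2.2.2.2.1
      hr := fun n i => (hF n _ (e n i).2).2.2.2.2.2.1
      hrel := fun n i => (hF n _ (e n i).2).2.2.2.2.2.2
      hsum := fun n => by
        refine (hsum n).trans_eq ?_
        rw [← Finset.sum_coe_sort (F n) (r n)]
        exact ((e n).sum_comp fun x => r n x.1).symm }
  exact hD.absurd_data hp hq hpq hδ hε

end SST
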