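import Pool.Agent.Subspace.AvDefs
import Pool.Agent.Subspace.DLemma

/-!
# Multi-scale argument: the mass bound
-/

namespace SST

open Pool.Agent.DigitPowers

section sign

variable {q : ℕ}

lemma near_neg' {X l : ℕ} {x : ℤ} (h : Near q X l x) : Near q X l (-x) := by
  obtain ⟨a, ha⟩ := h
  refine ⟨-a, ?_⟩
  have e : |-x - -a * (q : ℤ) ^ l| = |x - a * (q : ℤ) ^ l| := by
    rw [← abs_neg]; congr 1; ring
  rw [e]; exact ha

lemma free_neg {T' κ : ℕ} {x : ℤ} (h : Free q T' κ x) : Free q T' κ (-x) :=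
  fun l h1 h2 => near_neg' (h l h1 h2)

lemma oldCell_neg {T' κ : ℕ} {P x : ℤ} (h : OldCell q T' κ P x) : OldCell q T' κ P (-x) := by
  obtain ⟨Y, h1, h2, h3⟩ := h
  refine ⟨-Y, (dvd_neg).2 h1, (dvd_neg).2 h2, ?_⟩
  have e : |-x - -Y| = |x - Y| := by
    rw [← abs_neg]; congr 1; ring
  rw [e]; exact h3

lemma youngR_neg {T' M k : ℕ} {P x : ℤ} : youngR q T' M k P (-x) = youngR q T' M k P x := by
  classical
  unfold youngR
  apply Finset.filter_congr
  intro κ _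
  constructor
  · rintro ⟨h1, h2⟩
    refine ⟨by simpa using free_neg h1, fun h => h2 (oldCell_neg h)⟩
  · rintro ⟨h1, h2⟩
    exact ⟨free_neg h1, fun h => h2 (by simpa using oldCell_neg h)⟩

end sign

/-- The multiple attached to a free cell. -/
lemma Free.exists_mul {q T' κ : ℕ} (hq : 2 ≤ q) (hT : 1 ≤ T') {x : ℤ} (h : Free q T' κ x) :
    ∃ Y : ℤ, (q : ℤ) ^ ((κ + 1) * T' - 1) ∣ Y ∧
      ((q : ℤ) + 1) * |x - Y| < (q : ℤ) ^ (κ * T') := by
  have hq0 : (0 : ℤ) < q := by exact_mod_cast (by omega : 0 < q)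
  have e1 : (κ + 1) * T' = κ * T' + T' := by ring
  have h1 : Near q (T' - 1) ((κ + 1) * T' - 1) x := by
    rw [near_iff_forall hq]
    intro j hj
    apply h
    · omega
    · omega
  obtain ⟨a, ha⟩ := h1
  refine ⟨a * (q : ℤ) ^ ((κ + 1) * T' - 1), dvd_mul_left _ _, ?_⟩
  have e2 : (κ + 1) * T' - 1 = (T' - 1) + κ * T' := by omega
  have hpos : (0 : ℤ) < (q : ℤ) ^ (T' - 1) := by positivity
  have h2 : (q : ℤ) ^ (T' - 1) * (((q : ℤ) + 1) * |x - a * (q : ℤ) ^ ((κ + 1) * T' - 1)|)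
      < (q : ℤ) ^ (T' - 1) * (q : ℤ) ^ (κ * T') := by
    calc _ = ((q : ℤ) + 1) * (q : ℤ) ^ (T' - 1) * |x - a * (q : ℤ) ^ ((κ + 1) * T' - 1)| := by ring
      _ < (q : ℤ) ^ ((κ + 1) * T' - 1) := ha
      _ = (q : ℤ) ^ ((T' - 1) + κ * T') := by rw [e2]
      _ = _ := by rw [pow_add]
  exact lt_of_mul_lt_mul_left h2 hpos.le

/-- The exact power of `a` dividing `Y`. -/
lemma exists_exact_pow {a Y : ℤ} {s : ℕ} (h : ¬ a ^ s ∣ Y) :
    ∃ v < s, a ^ v ∣ Y ∧ ¬ a ^ (v + 1) ∣ Y := by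
  classical
  have hex : ∃ n, ¬ a ^ n ∣ Y := ⟨s, h⟩
  have h0 : Nat.find hex ≠ 0 := by
    intro h0
    have := Nat.find_spec hex
    rw [h0, pow_zero] at this
    exact this (one_dvd _)
  obtain ⟨v, hv⟩ := Nat.exists_eq_succ_of_ne_zero h0
  refine ⟨v, ?_, ?_, ?_⟩
  · have := Nat.find_le (h := hex) h
    omega
  · by_contra hc
    have := Nat.find_min' hex hc
    omega
  · have := Nat.find_spec hex
    rwa [hv] at this

/-- The data attached to a young free cell. -/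
lemma young_data {p q T' κ s : ℕ} (hp : 2 ≤ p) (hq : 2 ≤ q) (hpq : Nat.Coprime p q)
    (hT : 1 ≤ T') {z : ℤ} (hz : 0 < z) (hfree : Free q T' κ z)
    (hyoung : ¬ OldCell q T' κ ((p : ℤ) ^ s) z) :
    ∃ v j Z : ℕ, v < s ∧ (κ + 1) * T' - 1 ≤ j ∧ 1 ≤ Z ∧ ¬ q ∣ Z ∧ ¬ p ∣ Z ∧
      ((q : ℤ) + 1) * |z - (p : ℤ) ^ v * ((q : ℤ) ^ j * Z)| < (q : ℤ) ^ (κ * T') ∧
      ¬ (p : ℤ) ^ s ∣ (p : ℤ) ^ v * ((q : ℤ) ^ j * Z) := by
  have hq0 : (0 : ℤ) < q := by exact_mod_cast (by omega : 0 < q)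
  have hp0 : (0 : ℤ) < p := by exact_mod_cast (by omega : 0 < p)
  obtain ⟨Y, hY1, hY2⟩ := hfree.exists_mul hq hT
  have hY3 : ¬ (p : ℤ) ^ s ∣ Y := fun h => hyoung ⟨Y, h, hY1, hY2⟩
  have hY0 : 0 < Y := by
    rcases lt_trichotomy Y 0 with h | h | h
    · exfalso
      have h1 : (q : ℤ) ^ ((κ + 1) * T' - 1) ≤ -Y :=
        Int.le_of_dvd (by omega) ((dvd_neg).2 hY1)
      have h2 : (q : ℤ) ^ (κ * T') ≤ (q : ℤ) ^ ((κ + 1) * T' - 1) := by
        apply pow_le_pow_right₀ (by omega)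
        have : (κ + 1) * T' = κ * T' + T' := by ring
        omega
      have h3 : |z - Y| = z - Y := abs_of_pos (by omega)
      rw [h3] at hY2
      nlinarith
    · exfalso
      rw [h] at hY3
      exact hY3 (dvd_zero _)
    · exact h
  obtain ⟨v, hvs, ⟨Yb, hYb⟩, hv2⟩ := exists_exact_pow hY3
  have hYb0 : 0 < Yb := by
    rw [hYb] at hY0
    exact (mul_pos_iff_of_pos_left (by positivity)).1 hY0
  have hpYb : ¬ (p : ℤ) ∣ Yb := by
    rintro ⟨c, hc⟩
    apply hv2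
    refine ⟨c, ?_⟩
    rw [hYb, hc]; ring
  have hcop : IsCoprime (p : ℤ) (q : ℤ) := Nat.isCoprime_iff_coprime.2 hpq
  have hqbig : ¬ (q : ℤ) ^ (Yb.natAbs) ∣ Yb := by
    intro h
    have h1 := Int.le_of_dvd hYb0 h
    have h2 : Yb.natAbs < q ^ (Yb.natAbs) := Nat.lt_pow_self (by omega)
    have h3 : ((Yb.natAbs : ℕ) : ℤ) = Yb := by omega
    have h4 : ((Yb.natAbs : ℕ) : ℤ) < ((q ^ Yb.natAbs : ℕ) : ℤ) := by exact_mod_cast h2
    push_cast at h4
    rw [abs_of_pos hYb0] at h4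
    omega
  obtain ⟨j, -, ⟨Z, hZ⟩, hj2⟩ := exists_exact_pow hqbig
  have hZ0 : 0 < Z := by
    rw [hZ] at hYb0
    exact (mul_pos_iff_of_pos_left (by positivity)).1 hYb0
  have hqZ : ¬ (q : ℤ) ∣ Z := by
    rintro ⟨c, hc⟩
    apply hj2
    refine ⟨c, ?_⟩
    rw [hZ, hc]; ring
  have hpZ : ¬ (p : ℤ) ∣ Z := by
    intro h
    apply hpYb
    rw [hZ]
    exact h.mul_left _
  have hjbig : (κ + 1) * T' - 1 ≤ j := by
    by_contra hlt
    rw [not_le] at hlt
    have h1 : (q : ℤ) ^ ((κ + 1) * T' - 1) ∣ Yb := by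
      have h2 : IsCoprime ((q : ℤ) ^ ((κ + 1) * T' - 1)) ((p : ℤ) ^ v) :=
        (hcop.symm).pow
      exact h2.dvd_of_dvd_mul_left (by rw [← hYb]; exact hY1)
    exact hj2 ((pow_dvd_pow _ (by omega)).trans h1)
  lift Z to ℕ using hZ0.le
  refine ⟨v, j, Z, hvs, hjbig, by omega, ?_, ?_, ?_, ?_⟩
  · intro h; exact hqZ (by exact_mod_cast h)
  · intro h; exact hpZ (by exact_mod_cast h)
  · rw [← hZ, ← hYb]; exact hY2
  · rw [← hZ, ← hYb]; exact hY3

/-- The digits of `w` in `[a, b)`, rounded up to a number not divisible by `q`. -/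
lemma window {q : ℕ} (hq : 2 ≤ q) (w a b : ℕ) :
    ∃ A H : ℕ, ∃ ρ : ℤ, (w : ℤ) = (q : ℤ) ^ a * (A + (q : ℤ) ^ (b - a) * H) + ρ ∧
      |ρ| ≤ (q : ℤ) ^ a ∧ 1 ≤ A ∧ A ≤ q ^ (b - a) ∧ ¬ q ∣ A := by
  have hq0 : 0 < q := by omega
  set u := w / q ^ a with hu
  set r := w % q ^ a with hr
  set D := u % q ^ (b - a) with hD
  set H := u / q ^ (b - a) with hH
  have hw : w = q ^ a * (D + q ^ (b - a) * H) + r := by
    have h1 : w = q ^ a * u + r := (Nat.div_add_mod w (q ^ a)).symm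
    have h2 : u = q ^ (b - a) * H + D := (Nat.div_add_mod u (q ^ (b - a))).symm
    rw [h1]
    conv_lhs => rw [h2]
    ring
  have hr1 : r < q ^ a := Nat.mod_lt _ (by positivity)
  have hD1 : D < q ^ (b - a) := Nat.mod_lt _ (by positivity)
  have hr1' : (r : ℤ) < (q : ℤ) ^ a := by exact_mod_cast hr1
  have hr0' : (0 : ℤ) ≤ r := by positivity
  have hw' : (w : ℤ) = (q : ℤ) ^ a * (D + (q : ℤ) ^ (b - a) * H) + r := by exact_mod_cast hw
  by_cases h : q ∣ D
  · refine ⟨D + 1, H, (r : ℤ) - (q : ℤ) ^ a, ?_, ?_, Nat.le_add_left 1 D, hD1, ?_⟩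
    · rw [hw']; push_cast; ring
    · rw [abs_le]; constructor <;> omega
    · intro h2
      have h3 : q ∣ 1 := (Nat.dvd_add_right h).1 h2
      have := Nat.le_of_dvd one_pos h3
      omega
  · refine ⟨D, H, r, hw', ?_, ?_, hD1.le, h⟩
    · rw [abs_of_nonneg hr0']; omega
    · rcases Nat.eq_zero_or_pos D with h0 | h0
      · exact absurd (h0 ▸ dvd_zero q) h
      · exact h0

/-- The relation between the window of `w` and a run, integer form. -/
lemma case_one {p q : ℕ} (hp : 2 ≤ p) (hq : 2 ≤ q) {w a b A H : ℕ} {ρ : ℤ}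
    (hw : (w : ℤ) = (q : ℤ) ^ a * (A + (q : ℤ) ^ (b - a) * H) + ρ) (hρ : |ρ| ≤ (q : ℤ) ^ a)
    (hA : 1 ≤ A) {τ v j Z K : ℕ} (hv : v < τ) (haj : a ≤ j) (hjb : j < b) (hKj : K ≤ j)
    (hqZ : ¬ q ∣ Z) (hpZ : ¬ p ∣ Z)
    (hnear : ((q : ℤ) + 1) * |(p : ℤ) ^ τ * w - (p : ℤ) ^ v * ((q : ℤ) ^ j * Z)| < (q : ℤ) ^ K)
    (hsmall : 2 * p ^ τ * q ^ a ≤ q ^ K) :
    ∃ B : ℕ, 1 ≤ B ∧ ¬ q ∣ B ∧ ¬ p ∣ B ∧
      |(p : ℤ) ^ τ * (q : ℤ) ^ a * A - (p : ℤ) ^ v * (q : ℤ) ^ j * B| ≤ (q : ℤ) ^ K := by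
  have hq0 : (0 : ℤ) < q := by exact_mod_cast (by omega : 0 < q)
  have hp0 : (0 : ℤ) < p := by exact_mod_cast (by omega : 0 < p)
  set B : ℤ := Z - (p : ℤ) ^ (τ - v) * H * (q : ℤ) ^ (b - j) with hB
  have e1 : (p : ℤ) ^ v * (q : ℤ) ^ j * B =
      (p : ℤ) ^ v * ((q : ℤ) ^ j * Z) - (p : ℤ) ^ τ * (q : ℤ) ^ b * H := by
    have e2 : (p : ℤ) ^ τ = (p : ℤ) ^ v * (p : ℤ) ^ (τ - v) := by
      rw [← pow_add]; congr 1; omega
    have e3 : (q : ℤ) ^ b = (q : ℤ) ^ j * (q : ℤ) ^ (b - j) := by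
      rw [← pow_add]; congr 1; omega
    rw [hB, e2, e3]; ring
  have e4 : (p : ℤ) ^ τ * (q : ℤ) ^ a * A - (p : ℤ) ^ v * (q : ℤ) ^ j * B =
      ((p : ℤ) ^ τ * w - (p : ℤ) ^ v * ((q : ℤ) ^ j * Z)) - (p : ℤ) ^ τ * ρ := by
    have e3 : (q : ℤ) ^ b = (q : ℤ) ^ a * (q : ℤ) ^ (b - a) := by
      rw [← pow_add]; congr 1; omega
    rw [e1, hw, e3]; ring
  have hbound : |(p : ℤ) ^ τ * (q : ℤ) ^ a * A - (p : ℤ) ^ v * (q : ℤ) ^ j * B|
      ≤ (q : ℤ) ^ K := by
    rw [e4]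
    have h1 : |((p : ℤ) ^ τ * w - (p : ℤ) ^ v * ((q : ℤ) ^ j * Z)) - (p : ℤ) ^ τ * ρ| ≤
        |(p : ℤ) ^ τ * w - (p : ℤ) ^ v * ((q : ℤ) ^ j * Z)| + (p : ℤ) ^ τ * (q : ℤ) ^ a := by
      refine (abs_sub _ _).trans ?_
      rw [abs_mul, abs_of_pos (show (0 : ℤ) < (p : ℤ) ^ τ by positivity)]
      gcongr
    have h2 : (2 : ℤ) * (p : ℤ) ^ τ * (q : ℤ) ^ a ≤ (q : ℤ) ^ K := by exact_mod_cast hsmall
    have h3 : (0 : ℤ) < (q : ℤ) ^ K := by positivity
    have h4 : ((q : ℤ) + 1) * (|(p : ℤ) ^ τ * w - (p : ℤ) ^ v * ((q : ℤ) ^ j * Z)| +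
        (p : ℤ) ^ τ * (q : ℤ) ^ a) ≤ ((q : ℤ) + 1) * (q : ℤ) ^ K := by
      have h5 : ((q : ℤ) + 1) * ((p : ℤ) ^ τ * (q : ℤ) ^ a) ≤ q * (q : ℤ) ^ K := by
        have h6 : (0 : ℤ) < (p : ℤ) ^ τ * (q : ℤ) ^ a := by positivity
        have h7 : ((q : ℤ) + 1) * ((p : ℤ) ^ τ * (q : ℤ) ^ a) ≤
            (2 * q) * ((p : ℤ) ^ τ * (q : ℤ) ^ a) := by
          apply mul_le_mul_of_nonneg_right _ h6.le
          have : (2 : ℤ) ≤ q := by exact_mod_cast hq
          omega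
        calc _ ≤ (2 * q) * ((p : ℤ) ^ τ * (q : ℤ) ^ a) := h7
          _ = q * (2 * (p : ℤ) ^ τ * (q : ℤ) ^ a) := by ring
          _ ≤ q * (q : ℤ) ^ K := by gcongr
      linarith
    have h5 := le_of_mul_le_mul_left h4 (by positivity)
    exact h1.trans h5
  have hqB : ¬ (q : ℤ) ∣ B := by
    intro h
    have h1 : (q : ℤ) ∣ (p : ℤ) ^ (τ - v) * H * (q : ℤ) ^ (b - j) :=
      (dvd_pow_self _ (by omega)).mul_left _
    have h2 : (q : ℤ) ∣ Z := by
      have := dvd_add h h1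
      rwa [hB, sub_add_cancel] at this
    exact hqZ (by exact_mod_cast h2)
  have hpB : ¬ (p : ℤ) ∣ B := by
    intro h
    have h1 : (p : ℤ) ∣ (p : ℤ) ^ (τ - v) * H * (q : ℤ) ^ (b - j) :=
      ((dvd_pow_self _ (by omega)).mul_right _).mul_right _
    have h2 : (p : ℤ) ∣ Z := by
      have := dvd_add h h1
      rwa [hB, sub_add_cancel] at this
    exact hpZ (by exact_mod_cast h2)
  have hB0 : 0 < B := by
    rcases lt_trichotomy B 0 with h | h | h
    · exfalso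
      have h1 : (q : ℤ) ^ K ≤ (q : ℤ) ^ j := pow_le_pow_right₀ (by omega) hKj
      have h2 : (1 : ℤ) ≤ (p : ℤ) ^ v := one_le_pow₀ (by omega)
      have h3 : (q : ℤ) ^ K ≤ (p : ℤ) ^ v * (q : ℤ) ^ j := by
        have : (0 : ℤ) < (q : ℤ) ^ j := by positivity
        nlinarith
      have h4 : (p : ℤ) ^ v * (q : ℤ) ^ j * B ≤ -((p : ℤ) ^ v * (q : ℤ) ^ j) := by
        have : (0 : ℤ) < (p : ℤ) ^ v * (q : ℤ) ^ j := by positivity
        nlinarith
      have h5 : (0 : ℤ) < (p : ℤ) ^ τ * (q : ℤ) ^ a * A := by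
        have : (0 : ℤ) < A := by exact_mod_cast hA
        positivity
      have h6 := (abs_le.1 hbound).2
      linarith
    · exfalso
      rw [h] at hqB
      exact hqB (dvd_zero _)
    · exact h
  lift B to ℕ using hB0.le with B' hB'
  refine ⟨B', by omega, ?_, ?_, hbound⟩
  · intro h; exact hqB (by exact_mod_cast h)
  · intro h; exact hpB (by exact_mod_cast h)

/-- The relation between the window of `w` and a run, real form. -/
lemma case_one_real {p q : ℕ} (hp : 2 ≤ p) (hq : 2 ≤ q) {A B τ v j a K : ℕ} (hv : v ≤ τ)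
    (haj : a ≤ j)
    (h : |(p : ℤ) ^ τ * (q : ℤ) ^ a * A - (p : ℤ) ^ v * (q : ℤ) ^ j * B| ≤ (q : ℤ) ^ K) :
    |(p : ℝ) ^ (τ - v) * A - B * (q : ℝ) ^ (j - a)| ≤
      (q : ℝ) ^ (((j - a : ℕ) : ℝ) - ((j : ℝ) - K + Real.logb q p * v)) := by
  have hq0 : (0 : ℝ) < q := by exact_mod_cast (by omega : 0 < q)
  have hp0 : (0 : ℝ) < p := by exact_mod_cast (by omega : 0 < p)
  have hq1 : (q : ℝ) ≠ 1 := by
    have : (q : ℕ) ≠ 1 := by omega
    exact_mod_cast this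
  have h' : |(p : ℝ) ^ τ * (q : ℝ) ^ a * A - (p : ℝ) ^ v * (q : ℝ) ^ j * B| ≤ (q : ℝ) ^ K := by
    exact_mod_cast h
  have e1 : (q : ℝ) ^ (((j - a : ℕ) : ℝ) - ((j : ℝ) - K + Real.logb q p * v)) =
      (q : ℝ) ^ K / ((p : ℝ) ^ v * (q : ℝ) ^ a) := by
    rw [Nat.cast_sub haj]
    have e2 : ((j : ℝ) - a - ((j : ℝ) - K + Real.logb q p * v)) =
        (K : ℝ) - (Real.logb q p * v + a) := by ring
    rw [e2, Real.rpow_sub hq0, Real.rpow_add hq0, Real.rpow_mul hq0.le,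
      Real.rpow_logb hq0 hq1 hp0]
    norm_cast
  have hpos : (0 : ℝ) < (p : ℝ) ^ v * (q : ℝ) ^ a := by positivity
  rw [e1, le_div_iff₀ hpos]
  have e3 : |(p : ℝ) ^ (τ - v) * A - B * (q : ℝ) ^ (j - a)| * ((p : ℝ) ^ v * (q : ℝ) ^ a) =
      |(p : ℝ) ^ τ * (q : ℝ) ^ a * A - (p : ℝ) ^ v * (q : ℝ) ^ j * B| := by
    have e4 : (p : ℝ) ^ τ = (p : ℝ) ^ v * (p : ℝ) ^ (τ - v) := by
      rw [← pow_add]; congr 1; omega
    have e5 : (q : ℝ) ^ j = (q : ℝ) ^ a * (q : ℝ) ^ (j - a) := by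
      rw [← pow_add]; congr 1; omega
    conv_lhs => rw [← abs_of_pos hpos, ← abs_mul]
    congr 1
    rw [e4, e5]; ring
  rw [e3]; exact h'

lemma pow_le_of_logb {p q : ℕ} (hp : 2 ≤ p) (hq : 2 ≤ q) {s N : ℕ}
    (h : Real.logb q p * s ≤ N) : p ^ s ≤ q ^ N := by
  have hq0 : (0 : ℝ) < q := by exact_mod_cast (by omega : 0 < q)
  have hp0 : (0 : ℝ) < p := by exact_mod_cast (by omega : 0 < p)
  have hq1 : (1 : ℝ) < q := by exact_mod_cast (by omega : 1 < q)
  have h1 : ((p : ℝ)) ^ s ≤ (q : ℝ) ^ N := by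
    have e1 : (p : ℝ) ^ s = (q : ℝ) ^ (Real.logb q p * s) := by
      rw [Real.rpow_mul hq0.le, Real.rpow_logb hq0 hq1.ne' hp0, Real.rpow_natCast]
    rw [e1, ← Real.rpow_natCast (q : ℝ) N]
    exact Real.rpow_le_rpow_of_exponent_le hq1.le h
  exact_mod_cast h1

/-- The events with large `j`: their times lie in an interval of length `s`. -/
lemma case_two {p q : ℕ} (hp : 2 ≤ p) (hq : 2 ≤ q) {w : ℕ} {s b K₁ K₂ K τ₁ τ₂ : ℕ} {Y₁ Y₂ : ℤ}
    (hτ : τ₁ ≤ τ₂) (h1 : ((q : ℤ) + 1) * |(p : ℤ) ^ τ₁ * w - Y₁| < (q : ℤ) ^ K₁)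
    (h2 : ((q : ℤ) + 1) * |(p : ℤ) ^ τ₂ * w - Y₂| < (q : ℤ) ^ K₂)
    (hb1 : (q : ℤ) ^ b ∣ Y₁) (hb2 : (q : ℤ) ^ b ∣ Y₂) (hK : p ^ (τ₂ - τ₁) ≤ q ^ K)
    (hKb : K + K₁ ≤ b) (hKb2 : K₂ ≤ b) (hs : ¬ (p : ℤ) ^ s ∣ Y₂) : τ₂ < τ₁ + s := by
  have hq0 : (0 : ℤ) < q := by exact_mod_cast (by omega : 0 < q)
  have hp0 : (0 : ℤ) < p := by exact_mod_cast (by omega : 0 < p)
  have e0 : (p : ℤ) ^ τ₂ = (p : ℤ) ^ (τ₂ - τ₁) * (p : ℤ) ^ τ₁ := by
    rw [← pow_add]; congr 1; omega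
  have hK' : (p : ℤ) ^ (τ₂ - τ₁) ≤ (q : ℤ) ^ K := by exact_mod_cast hK
  have h3 : (p : ℤ) ^ (τ₂ - τ₁) * Y₁ - Y₂ = 0 := by
    apply Int.eq_zero_of_abs_lt_dvd (m := (q : ℤ) ^ b)
    · exact dvd_sub (hb1.mul_left _) hb2
    · have e1 : (p : ℤ) ^ (τ₂ - τ₁) * Y₁ - Y₂ =
          ((p : ℤ) ^ τ₂ * w - Y₂) - (p : ℤ) ^ (τ₂ - τ₁) * ((p : ℤ) ^ τ₁ * w - Y₁) := by
        rw [e0]; ring
      have h4 : |(p : ℤ) ^ (τ₂ - τ₁) * Y₁ - Y₂| ≤
          |(p : ℤ) ^ τ₂ * w - Y₂| + (p : ℤ) ^ (τ₂ - τ₁) * |(p : ℤ) ^ τ₁ * w - Y₁| := by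
        rw [e1]
        refine (abs_sub _ _).trans ?_
        rw [abs_mul, abs_of_pos (show (0 : ℤ) < (p : ℤ) ^ (τ₂ - τ₁) by positivity)]
      have h5 : (p : ℤ) ^ (τ₂ - τ₁) * (((q : ℤ) + 1) * |(p : ℤ) ^ τ₁ * w - Y₁|) ≤
          (q : ℤ) ^ b := by
        calc _ ≤ (q : ℤ) ^ K * (q : ℤ) ^ K₁ := by
              apply mul_le_mul hK' h1.le (by positivity) (by positivity)
          _ = (q : ℤ) ^ (K + K₁) := by rw [pow_add]
          _ ≤ (q : ℤ) ^ b := pow_le_pow_right₀ (by omega) hKb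
      have h6 : (q : ℤ) ^ K₂ ≤ (q : ℤ) ^ b := pow_le_pow_right₀ (by omega) hKb2
      have h7 : ((q : ℤ) + 1) * |(p : ℤ) ^ (τ₂ - τ₁) * Y₁ - Y₂| <
          ((q : ℤ) + 1) * (q : ℤ) ^ b := by
        have h8 : ((q : ℤ) + 1) * |(p : ℤ) ^ (τ₂ - τ₁) * Y₁ - Y₂| ≤
            ((q : ℤ) + 1) * (|(p : ℤ) ^ τ₂ * w - Y₂| +
              (p : ℤ) ^ (τ₂ - τ₁) * |(p : ℤ) ^ τ₁ * w - Y₁|) := by
          apply mul_le_mul_of_nonneg_left h4 (by positivity)
        have h9 : (0 : ℤ) < (q : ℤ) ^ b := by positivity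
        nlinarith
      exact lt_of_mul_lt_mul_left h7 (by positivity)
  by_contra hlt
  rw [not_lt] at hlt
  apply hs
  have h4 : Y₂ = (p : ℤ) ^ (τ₂ - τ₁) * Y₁ := by omega
  rw [h4]
  exact (pow_dvd_pow _ (by omega)).mul_right _

theorem mass_bound_nat {p q : ℕ} (hp : 2 ≤ p) (hq : 2 ≤ q) (hpq : Nat.Coprime p q) (M : ℕ)
    (hM : 2 ≤ M) : ∃ T₀ : ℕ, ∀ T' : ℕ, T₀ ≤ T' → ∀ (s L : ℕ) (w : ℕ), 1 ≤ w → 1 ≤ s →
      Real.logb q p * s ≤ M * T' / 2 → Real.logb q p * L ≤ M * T' →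
      ∀ k : ℕ, 4 ≤ k →
        ∑ t ∈ Finset.range L,
          ((youngR q T' M k ((p : ℤ) ^ s) ((p : ℤ) ^ (t + s) * w)).card : ℝ) ≤ 30 * s * M := by
  classical
  have hq0 : (0 : ℝ) < q := by exact_mod_cast (by omega : 0 < q)
  have hp0 : (0 : ℝ) < p := by exact_mod_cast (by omega : 0 < p)
  have hq1 : (1 : ℝ) < q := by exact_mod_cast (by omega : 1 < q)
  have hp1 : (1 : ℝ) < p := by exact_mod_cast (by omega : 1 < p)
  have hM0 : (0 : ℝ) < M := by exact_mod_cast (by omega : 0 < M)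
  set θ := Real.logb q p with hθ
  have hθ0 : 0 < θ := Real.logb_pos hq1 hp1
  obtain ⟨T₀, hT₀, hrun⟩ := run_lemma hp hq hpq (max 8 (2 / θ)) (1 / (2 * M)) 1
    (by positivity) one_pos
  refine ⟨max 2 ⌈T₀⌉₊, ?_⟩
  intro T' hT' s L w hw hs hsT hLT k hk
  have hT2 : 2 ≤ T' := (le_max_left _ _).trans hT'
  have hT0' : T₀ ≤ T' := (Nat.le_ceil T₀).trans (by exact_mod_cast (le_max_right _ _).trans hT')
  have hT0pos : (0 : ℝ) < T' := by exact_mod_cast (by omega : 0 < T')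
  have hMT : T₀ ≤ (M : ℝ) * T' := by
    have : (1 : ℝ) ≤ M := by exact_mod_cast (by omega : 1 ≤ M)
    nlinarith
  set a := (k - 4) * M * T' with ha
  set b := (k + 4) * M * T' with hb
  obtain ⟨A, H, ρ, hwA, hρ, hA1, hAb, hqA⟩ := window hq w a b
  have hbaT : b - a = 8 * (M * T') := by
    have e1 : (k + 4) * M * T' = (k - 4) * M * T' + 8 * (M * T') := by
      have : k + 4 = (k - 4) + 8 := by omega
      rw [this]; ring
    omega
  have hpL : p ^ L ≤ q ^ (M * T') := pow_le_of_logb hp hq (by push_cast; exact hLT)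
  have hps : p ^ s ≤ q ^ (M * T') := by
    apply pow_le_of_logb hp hq
    push_cast
    have : (0 : ℝ) < M * T' := by positivity
    linarith
  -- the events
  set E : Finset (ℕ × ℕ) := ((Finset.range L) ×ˢ region M k).filter
    (fun e => e.2 ∈ youngR q T' M k ((p : ℤ) ^ s) ((p : ℤ) ^ (e.1 + s) * w)) with hE
  have hsum : ∑ t ∈ Finset.range L,
      ((youngR q T' M k ((p : ℤ) ^ s) ((p : ℤ) ^ (t + s) * w)).card : ℝ) = (E.card : ℝ) := by
    have h1 : E.card = ∑ t ∈ Finset.range L, (E.filter (fun e => e.1 = t)).card := by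
      apply Finset.card_eq_sum_card_fiberwise
      intro e he
      have he' := Finset.mem_filter.1 he
      exact (Finset.mem_product.1 he'.1).1
    rw [h1]
    push_cast
    apply Finset.sum_congr rfl
    intro t ht
    congr 1
    have h2 : E.filter (fun e => e.1 = t) =
        (youngR q T' M k ((p : ℤ) ^ s) ((p : ℤ) ^ (t + s) * w)).image (fun κ => (t, κ)) := by
      ext ⟨t', κ⟩
      simp only [hE, Finset.mem_filter, Finset.mem_product, Finset.mem_image, Prod.mk.injEq]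
      constructor
      · rintro ⟨⟨-, h⟩, rfl⟩
        exact ⟨κ, h, rfl, rfl⟩
      · rintro ⟨κ', h, rfl, rfl⟩
        refine ⟨⟨⟨ht, ?_⟩, h⟩, rfl⟩
        exact (Finset.mem_filter.1 h).1
    rw [h2, Finset.card_image_of_injective]
    intro κ κ' h
    exact (Prod.mk.injEq _ _ _ _ ▸ h).2
  rw [hsum]
  have hwpos : (0 : ℤ) < w := by exact_mod_cast hw
  have hev : ∀ e ∈ E, ∃ v j Z : ℕ, v < s ∧ (e.2 + 1) * T' - 1 ≤ j ∧ 1 ≤ Z ∧ ¬ q ∣ Z ∧ ¬ p ∣ Z ∧
      ((q : ℤ) + 1) * |(p : ℤ) ^ (e.1 + s) * w - (p : ℤ) ^ v * ((q : ℤ) ^ j * Z)|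
        < (q : ℤ) ^ (e.2 * T') ∧
      ¬ (p : ℤ) ^ s ∣ (p : ℤ) ^ v * ((q : ℤ) ^ j * Z) := by
    intro e he
    have he' := (Finset.mem_filter.1 he).2
    have he'' := (Finset.mem_filter.1 he').2
    have hp0' : (0 : ℤ) < p := by exact_mod_cast (by omega : 0 < p)
    exact young_data hp hq hpq (by omega) (by positivity) he''.1 he''.2
  choose! v j Z hvs hj hZ hqZ hpZ hnear hnd using hev
  have hreg : ∀ e ∈ E, e.1 < L ∧ (k - 1) * M ≤ e.2 ∧ e.2 < (k + 2) * M := by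
    intro e he
    have h1 := Finset.mem_product.1 (Finset.mem_filter.1 he).1
    have h2 := Finset.mem_Ico.1 h1.2
    exact ⟨Finset.mem_range.1 h1.1, h2.1, h2.2⟩
  have hcell : ∀ e ∈ E, a + 3 * (M * T') ≤ e.2 * T' ∧ e.2 * T' + T' ≤ (k + 2) * M * T' := by
    intro e he
    obtain ⟨-, h2, h3⟩ := hreg e he
    constructor
    · have h4 : (k - 1) * M * T' ≤ e.2 * T' := Nat.mul_le_mul_right _ h2
      have h5 : (k - 1) * M * T' = a + 3 * (M * T') := by
        have : k - 1 = (k - 4) + 3 := by omega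
        rw [this, ha]; ring
      omega
    · have h4 : (e.2 + 1) * T' ≤ (k + 2) * M * T' := Nat.mul_le_mul_right _ h3
      have h5 : (e.2 + 1) * T' = e.2 * T' + T' := by ring
      omega
  -- events of the second kind
  set E2 := E.filter (fun e => ¬ j e < b) with hE2
  have hE2card : (E2.card : ℝ) ≤ 3 * s * M := by
    rcases E2.eq_empty_or_nonempty with h0 | hne
    · rw [h0]; simp only [Finset.card_empty, Nat.cast_zero]; positivity
    · obtain ⟨e₀, he₀, hmin⟩ := Finset.exists_min_image E2 (fun e => e.1) hne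
      have hsub : E2 ⊆ (Finset.Ico e₀.1 (e₀.1 + s)) ×ˢ region M k := by
        intro e he
        obtain ⟨heE, hjb⟩ := Finset.mem_filter.1 he
        obtain ⟨heE₀, hjb₀⟩ := Finset.mem_filter.1 he₀
        have hle := hmin e he
        rw [Finset.mem_product, Finset.mem_Ico]
        refine ⟨⟨hle, ?_⟩, (Finset.mem_product.1 (Finset.mem_filter.1 heE).1).2⟩
        have hc₀ := (hcell e₀ heE₀).2
        have hc := (hcell e heE).2
        have hkb : M * T' + (k + 2) * M * T' ≤ b := by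
          have : b = M * T' + (k + 2) * M * T' + M * T' := by rw [hb]; ring
          omega
        have hd : p ^ ((e.1 + s) - (e₀.1 + s)) ≤ q ^ (M * T') := by
          refine le_trans (Nat.pow_le_pow_right (by omega) ?_) hpL
          have := (hreg e heE).1
          omega
        have := case_two hp hq (w := w) (s := s) (b := b) (by omega : e₀.1 + s ≤ e.1 + s)
          (hnear e₀ heE₀) (hnear e heE)
          (((pow_dvd_pow _ (by omega)).mul_right _).mul_left _)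
          (((pow_dvd_pow _ (by omega)).mul_right _).mul_left _) hd (by omega) (by omega)
          (hnd e heE)
        omega
      have h1 := Finset.card_le_card hsub
      rw [Finset.card_product, Nat.card_Ico, region, Nat.card_Ico] at h1
      have h2 : (k + 2) * M - (k - 1) * M = 3 * M := by
        have : k + 2 = (k - 1) + 3 := by omega
        rw [this, add_mul]; omega
      rw [h2, Nat.add_sub_cancel_left] at h1
      have h3 : (E2.card : ℝ) ≤ ((s * (3 * M) : ℕ) : ℝ) := by exact_mod_cast h1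
      push_cast at h3
      linarith
  -- events of the first kind
  set E1 := E.filter (fun e => j e < b) with hE1
  have hE1E : ∀ e ∈ E1, e ∈ E := fun e he => (Finset.mem_filter.1 he).1
  have hajE : ∀ e ∈ E, a + 3 * (M * T') + T' - 1 ≤ j e := by
    intro e he
    have h1 := (hcell e he).1
    have h2 := hj e he
    have h3 : (e.2 + 1) * T' = e.2 * T' + T' := by ring
    omega
  have hMT1 : 1 ≤ M * T' := Nat.mul_pos (by omega) (by omega)
  have hBex : ∀ e ∈ E1, ∃ B : ℕ, 1 ≤ B ∧ ¬ q ∣ B ∧ ¬ p ∣ B ∧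
      |(p : ℝ) ^ (e.1 + s - v e) * A - B * (q : ℝ) ^ (j e - a)| ≤
        (q : ℝ) ^ (((j e - a : ℕ) : ℝ) - ((j e : ℝ) - (e.2 * T' : ℕ) + θ * v e)) := by
    intro e he
    have heE := hE1E e he
    have hjb := (Finset.mem_filter.1 he).2
    have h1 := (hcell e heE).1
    have h2 := hj e heE
    have h3 : (e.2 + 1) * T' = e.2 * T' + T' := by ring
    have h4 := hvs e heE
    have h5 := hajE e heE
    have hsmall : 2 * p ^ (e.1 + s) * q ^ a ≤ q ^ (e.2 * T') := by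
      calc 2 * p ^ (e.1 + s) * q ^ a ≤ q ^ (M * T') * (q ^ (M * T') * q ^ (M * T')) * q ^ a := by
            apply Nat.mul_le_mul_right
            apply Nat.mul_le_mul
            · calc 2 ≤ q ^ 1 := by simpa using hq
                _ ≤ q ^ (M * T') := Nat.pow_le_pow_right (by omega) hMT1
            · rw [pow_add]
              apply Nat.mul_le_mul _ hps
              refine le_trans (Nat.pow_le_pow_right (by omega) ?_) hpL
              exact (hreg e heE).1.le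
        _ = q ^ (a + 3 * (M * T')) := by
            rw [← pow_add, ← pow_add, ← pow_add]; congr 1; ring
        _ ≤ q ^ (e.2 * T') := Nat.pow_le_pow_right (by omega) h1
    obtain ⟨B, hB1, hB2, hB3, hB4⟩ := case_one hp hq hwA hρ hA1 (τ := e.1 + s) (v := v e)
      (j := j e) (Z := Z e) (K := e.2 * T') (by omega) (by omega) hjb (by omega) (hqZ e heE)
      (hpZ e heE) (hnear e heE) hsmall
    exact ⟨B, hB1, hB2, hB3, case_one_real hp hq (by omega) (by omega) hB4⟩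
  choose! Bf hBf1 hBf2 hBf3 hBf4 using hBex
  set key : ℕ × ℕ → ℕ × ℕ := fun e => (e.1 + s - v e, j e - a) with hkey
  set R : ℕ × ℕ → ℝ := fun e => (j e : ℝ) - (e.2 * T' : ℕ) + θ * v e with hR
  set F := E1.image key with hF
  have hg : ∀ x ∈ F, ∃ e ∈ E1, key e = x ∧ ∀ e' ∈ E1, key e' = x → R e' ≤ R e := by
    intro x hx
    obtain ⟨e, he, hex⟩ := Finset.mem_image.1 hx
    obtain ⟨e₁, he₁, hmax⟩ := Finset.exists_max_image (E1.filter (fun e => key e = x)) R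
      ⟨e, Finset.mem_filter.2 ⟨he, hex⟩⟩
    obtain ⟨h1, h2⟩ := Finset.mem_filter.1 he₁
    exact ⟨e₁, h1, h2, fun e' he' hk' => hmax e' (Finset.mem_filter.2 ⟨he', hk'⟩)⟩
  choose! g hgE hgk hgmax using hg
  have hRlow : ∀ e ∈ E1, (T' : ℝ) - 1 ≤ R e := by
    intro e he
    have heE := hE1E e he
    have h2 := hj e heE
    have h3 : (e.2 + 1) * T' = e.2 * T' + T' := by ring
    have h4 : e.2 * T' + T' ≤ j e + 1 := by omega
    have h5 : ((e.2 * T' : ℕ) : ℝ) + T' ≤ j e + 1 := by exact_mod_cast h4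
    have h6 : 0 ≤ θ * v e := by positivity
    simp only [hR]
    linarith
  have hT2' : (2 : ℝ) ≤ T' := by exact_mod_cast hT2
  have hlogA : Real.logb q A ≤ 8 * (M * T') := by
    have h1 : (A : ℝ) ≤ (q : ℝ) ^ (b - a) := by exact_mod_cast hAb
    have hA0 : (0 : ℝ) < A := by exact_mod_cast hA1
    have h2 : Real.logb q A ≤ Real.logb q ((q : ℝ) ^ (b - a)) :=
      Real.logb_le_logb_of_le hq1 hA0 h1
    rw [Real.logb_pow, Real.logb_self_eq_one hq1, mul_one, hbaT] at h2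
    push_cast at h2
    exact h2
  have hmain := hrun (M * T') hMT A hA1 hqA ?_ F (fun x => Bf (g x)) (fun x => R (g x)) ?_
  rotate_left
  · have : (0 : ℝ) < M * T' := by positivity
    calc Real.logb q A ≤ 8 * (M * T') := hlogA
      _ ≤ max 8 (2 / θ) * (M * T') := by
        apply mul_le_mul_of_nonneg_right (le_max_left _ _) this.le
  · intro x hx
    have h1 := hgE x hx
    have h2 := hgk x hx
    have hE' := hE1E _ h1
    have e1 : x.1 = (g x).1 + s - v (g x) := (congrArg Prod.fst h2).symm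
    have e2 : x.2 = j (g x) - a := (congrArg Prod.snd h2).symm
    have h3 := hajE _ hE'
    refine ⟨?_, by omega, hBf1 _ h1, hBf2 _ h1, hBf3 _ h1, ?_, ?_⟩
    · have h4 := (hreg _ hE').1
      have h5 : x.1 ≤ L + s := by omega
      have h6 : (x.1 : ℝ) ≤ L + s := by exact_mod_cast h5
      have h7 : θ * ((L : ℝ) + s) ≤ 2 * (M * T') := by
        have : (0 : ℝ) < M * T' := by positivity
        rw [mul_add]; linarith
      have h8 : (L : ℝ) + s ≤ 2 / θ * (M * T') := by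
        rw [div_mul_eq_mul_div, le_div_iff₀ hθ0]
        linarith
      calc (x.1 : ℝ) ≤ 2 / θ * (M * T') := h6.trans h8
        _ ≤ max 8 (2 / θ) * (M * T') := by
          apply mul_le_mul_of_nonneg_right (le_max_right _ _)
          positivity
    · have h4 := hRlow _ h1
      have h5 : 1 / (2 * (M : ℝ)) * (M * T') = T' / 2 := by
        field_simp
      rw [h5]
      linarith
    · have h4 := hBf4 _ h1
      rw [e1, e2]
      exact h4
  -- counting
  have hE1card : (E1.card : ℝ) ≤ 18 * s * M := by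
    have h1 : E1.card = ∑ x ∈ F, (E1.filter (fun e => key e = x)).card :=
      Finset.card_eq_sum_card_image key E1
    have h2 : ∀ x ∈ F, (T' : ℝ) * ((E1.filter (fun e => key e = x)).card : ℝ) ≤
        2 * s * R (g x) := by
      intro x hx
      set Fb := E1.filter (fun e => key e = x) with hFb
      have hne : Fb.Nonempty := ⟨g x, Finset.mem_filter.2 ⟨hgE x hx, hgk x hx⟩⟩
      obtain ⟨e₁, he₁, hmin⟩ := Finset.exists_min_image Fb (fun e => e.2) hne
      obtain ⟨e₂, he₂, hmax⟩ := Finset.exists_max_image Fb (fun e => e.2) hne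
      have hle12 : e₁.2 ≤ e₂.2 := hmin e₂ he₂
      have hcard : Fb.card ≤ s * (e₂.2 + 1 - e₁.2) := by
        have h3 : Fb.card ≤ ((Finset.range s) ×ˢ (Finset.Icc e₁.2 e₂.2)).card := by
          apply Finset.card_le_card_of_injOn (fun e => (v e, e.2))
          · intro e he
            have he' : e ∈ Fb := he
            have h4 := hE1E _ (Finset.mem_filter.1 he').1
            simp only [Finset.coe_product, Set.mem_prod, Finset.mem_coe, Finset.mem_range,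
              Finset.mem_Icc]
            exact ⟨hvs e h4, hmin e he', hmax e he'⟩
          · intro e he e' he' heq
            have he1 : e ∈ Fb := he
            have he2 : e' ∈ Fb := he'
            obtain ⟨h5, h6⟩ := Finset.mem_filter.1 he1
            obtain ⟨h7, h8⟩ := Finset.mem_filter.1 he2
            have h9 : v e = v e' ∧ e.2 = e'.2 := by simpa using heq
            have h10 : e.1 + s - v e = e'.1 + s - v e' := by
              have : key e = key e' := by rw [h6, h8]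
              exact congrArg Prod.fst this
            have h11 := hvs e (hE1E _ h5)
            have h12 := hvs e' (hE1E _ h7)
            ext
            · omega
            · exact h9.2
        rwa [Finset.card_product, Finset.card_range, Nat.card_Icc] at h3
      obtain ⟨h5, h6⟩ := Finset.mem_filter.1 he₁
      obtain ⟨h7, h8⟩ := Finset.mem_filter.1 he₂
      have hR1 := hgmax x hx e₁ h5 h6
      have hj1 : j e₁ = x.2 + a := by
        have h9 : j e₁ - a = x.2 := by rw [← h6]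
        have := hajE _ (hE1E _ h5)
        omega
      have hj2 : j e₂ = x.2 + a := by
        have h9 : j e₂ - a = x.2 := by rw [← h8]
        have := hajE _ (hE1E _ h7)
        omega
      have h9 := hj e₂ (hE1E _ h7)
      have h10 : (e₂.2 + 1) * T' ≤ j e₂ + 1 := by omega
      have h11 : ((e₂.2 : ℝ) + 1) * T' ≤ j e₁ + 1 := by
        rw [hj1, ← hj2]; exact_mod_cast h10
      have h12 : (j e₁ : ℝ) - e₁.2 * T' ≤ R (g x) := by
        have h13 : 0 ≤ θ * v e₁ := by positivity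
        have h14 : R e₁ = (j e₁ : ℝ) - (e₁.2 * T' : ℕ) + θ * v e₁ := rfl
        rw [h14] at hR1
        push_cast at hR1
        linarith
      have h13 : ((e₂.2 + 1 - e₁.2 : ℕ) : ℝ) * T' ≤ R (g x) + 1 := by
        rw [Nat.cast_sub (by omega)]
        push_cast
        nlinarith
      have h14 := hRlow _ (hgE x hx)
      have h15 : (Fb.card : ℝ) ≤ s * ((e₂.2 + 1 - e₁.2 : ℕ) : ℝ) := by exact_mod_cast hcard
      have hs0 : (0 : ℝ) < s := by exact_mod_cast hs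
      calc (T' : ℝ) * Fb.card ≤ T' * (s * ((e₂.2 + 1 - e₁.2 : ℕ) : ℝ)) := by gcongr
        _ = s * (((e₂.2 + 1 - e₁.2 : ℕ) : ℝ) * T') := by ring
        _ ≤ s * (R (g x) + 1) := by gcongr
        _ ≤ s * (2 * R (g x)) := by
            apply mul_le_mul_of_nonneg_left _ hs0.le
            linarith
        _ = 2 * s * R (g x) := by ring
    have h3 : (T' : ℝ) * E1.card ≤ T' * (18 * s * M) := by
      rw [h1]
      push_cast
      rw [Finset.mul_sum]
      calc _ ≤ ∑ x ∈ F, 2 * s * R (g x) := Finset.sum_le_sum h2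
        _ = 2 * s * ∑ x ∈ F, R (g x) := by rw [Finset.mul_sum]
        _ ≤ 2 * s * (9 * (M * T')) := by
            apply mul_le_mul_of_nonneg_left _ (by positivity)
            linarith
        _ = T' * (18 * s * M) := by ring
    exact le_of_mul_le_mul_left h3 hT0pos
  have hsplit : E.card = E1.card + E2.card := by
    rw [hE1, hE2]
    exact (Finset.card_filter_add_card_filter_not _).symm
  have hsplit' : (E.card : ℝ) = E1.card + E2.card := by exact_mod_cast hsplit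
  rw [hsplit']
  have : (0 : ℝ) ≤ s * M := by positivity
  nlinarith

theorem mass_bound {p q : ℕ} (hp : 2 ≤ p) (hq : 2 ≤ q) (hpq : Nat.Coprime p q) (M : ℕ)
    (hM : 2 ≤ M) : ∃ T₀ : ℕ, ∀ T' : ℕ, T₀ ≤ T' → ∀ (s L : ℕ) (x : ℤ), x ≠ 0 → 1 ≤ s →
      Real.logb q p * s ≤ M * T' / 2 → Real.logb q p * L ≤ M * T' →
      (p : ℤ) ^ s ∣ x → (q : ℤ) ^ (5 * M * T') ∣ x → ∀ k : ℕ,
        ∑ t ∈ Finset.range L,
          ((youngR q T' M k ((p : ℤ) ^ s) ((p : ℤ) ^ t * x)).card : ℝ) ≤ 30 * s * M := by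
  classical
  obtain ⟨T₀, h⟩ := mass_bound_nat hp hq hpq M hM
  refine ⟨max T₀ 1, ?_⟩
  intro T' hT' s L x hx hs hsT hLT hpx hqx k
  have hT0 : T₀ ≤ T' := (le_max_left _ _).trans hT'
  have hT1 : 1 ≤ T' := (le_max_right _ _).trans hT'
  have hq0 : (0 : ℤ) < q := by exact_mod_cast (by omega : 0 < q)
  by_cases hk : 4 ≤ k
  · obtain ⟨x', hx'⟩ := hpx
    have hx0 : x' ≠ 0 := by
      rintro rfl
      apply hx
      rw [hx', mul_zero]
    have h1 := h T' hT0 s L x'.natAbs (by have := Int.natAbs_ne_zero.2 hx0; omega) hs hsT hLT k hk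
    refine le_trans (le_of_eq ?_) h1
    apply Finset.sum_congr rfl
    intro t _
    rcases Int.natAbs_eq x' with h2 | h2
    · have e : (p : ℤ) ^ t * x = (p : ℤ) ^ (t + s) * (x'.natAbs : ℤ) := by
        rw [← h2, hx']; ring
      rw [e]
    · have e : (p : ℤ) ^ t * x = -((p : ℤ) ^ (t + s) * (x'.natAbs : ℤ)) := by
        have h3 : (x'.natAbs : ℤ) = -x' := by omega
        rw [h3, hx']; ring
      rw [e, youngR_neg]
  · have h1 : ∀ t ∈ Finset.range L,
        ((youngR q T' M k ((p : ℤ) ^ s) ((p : ℤ) ^ t * x)).card : ℝ) = 0 := by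
      intro t _
      rw [Nat.cast_eq_zero, Finset.card_eq_zero]
      apply Finset.eq_empty_of_forall_notMem
      intro κ hκ0
      obtain ⟨hκ, -, h2⟩ := Finset.mem_filter.1 hκ0
      apply h2
      have hκ' := (Finset.mem_Ico.1 hκ).2
      refine ⟨(p : ℤ) ^ t * x, hpx.mul_left _, ?_, ?_⟩
      · refine Dvd.dvd.mul_left ((pow_dvd_pow _ ?_).trans hqx) _
        have h3 : (κ + 1) * T' ≤ (k + 2) * M * T' := Nat.mul_le_mul_right _ hκ'
        have h4 : (k + 2) * M * T' ≤ 5 * M * T' := by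
          apply Nat.mul_le_mul_right
          apply Nat.mul_le_mul_right
          omega
        omega
      · simp only [sub_self, abs_zero, mul_zero]
        positivity
    rw [Finset.sum_eq_zero h1]
    positivity

end SST
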