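import Pool.Agent.Subspace.AvDefs
import Pool.Agent.Subspace.DLemma
import Pool.Agent.Subspace.AvMass

/-!
# Multi-scale argument: the local lemma
-/

namespace SST

open Pool.Agent.DigitPowers

/-- An old cell is free. -/
lemma OldCell.free {q T' κ : ℕ} {P x : ℤ} (hq : 2 ≤ q) (h : OldCell q T' κ P x) :
    Free q T' κ x := by
  obtain ⟨Y, -, ⟨c, hc⟩, h3⟩ := h
  intro l hl1 hl2
  have hle : l ≤ (κ + 1) * T' - 1 := by omega
  refine near_of_remainder (e := (κ + 1) * T' - 1) (a := c) (r := x - Y) ?_ hle ?_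
  · rw [hc]; ring
  · refine lt_of_lt_of_le h3 ?_
    have : (1 : ℤ) ≤ q := by exact_mod_cast (by omega : 1 ≤ q)
    exact pow_le_pow_right₀ this hl1

/-- The data attached to a young cell between two old cells. -/
lemma gap_data {p q T' κ₁ κ κ₂ s v A : ℕ} (hp : 2 ≤ p) (hq : 2 ≤ q) (hpq : Nat.Coprime p q)
    (hT : 1 ≤ T') {x Y₁ Y₂ : ℤ} (h1 : κ₁ < κ) (h2 : κ < κ₂) (hp1 : (p : ℤ) ^ s ∣ Y₁)
    (hp2 : (p : ℤ) ^ s ∣ Y₂) (hY1 : ((q : ℤ) + 1) * |x - Y₁| < (q : ℤ) ^ (κ₁ * T'))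
    (hY2 : (q : ℤ) ^ ((κ₂ + 1) * T' - 1) ∣ Y₂)
    (hA : |Y₁ - Y₂| = (p : ℤ) ^ s * (q : ℤ) ^ v * A)
    (hfree : Free q T' κ x) (hyoung : ¬ OldCell q T' κ ((p : ℤ) ^ s) x) :
    ∃ t j B : ℕ, t < s ∧ v < κ * T' ∧ (κ + 1) * T' - 1 ≤ j ∧ 1 ≤ B ∧ ¬ q ∣ B ∧ ¬ p ∣ B ∧
      |(p : ℤ) ^ s * (q : ℤ) ^ v * A - (p : ℤ) ^ t * (q : ℤ) ^ j * B| ≤ (q : ℤ) ^ (κ * T') := by
  have hq0 : (0 : ℤ) < q := by exact_mod_cast (by omega : 0 < q)
  have hp0 : (0 : ℤ) < p := by exact_mod_cast (by omega : 0 < p)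
  have hq2 : (2 : ℤ) ≤ q := by exact_mod_cast hq
  obtain ⟨Y, hYq, hYx⟩ := hfree.exists_mul hq hT
  have hYp : ¬ (p : ℤ) ^ s ∣ Y := fun h => hyoung ⟨Y, h, hYq, hYx⟩
  -- the difference `Y₁ - Y`
  have hclose : |Y₁ - Y| < (q : ℤ) ^ (κ * T') := by
    have e1 : |Y₁ - Y| ≤ |x - Y₁| + |x - Y| := by
      have := abs_sub (x - Y) (x - Y₁)
      have e : x - Y - (x - Y₁) = Y₁ - Y := by ring
      rw [e] at this
      linarith
    have e2 : (q : ℤ) ^ (κ₁ * T') ≤ (q : ℤ) ^ (κ * T') :=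
      pow_le_pow_right₀ (by omega) (Nat.mul_le_mul_right _ h1.le)
    have e3 : (0 : ℤ) < (q : ℤ) ^ (κ * T') := by positivity
    have e4 : ((q : ℤ) + 1) * |Y₁ - Y| < ((q : ℤ) + 1) * (q : ℤ) ^ (κ * T') := by
      have : ((q : ℤ) + 1) * |Y₁ - Y| ≤ ((q : ℤ) + 1) * |x - Y₁| + ((q : ℤ) + 1) * |x - Y| := by
        rw [← mul_add]; gcongr
      nlinarith
    exact lt_of_mul_lt_mul_left e4 (by positivity)
  have hne : Y₁ - Y ≠ 0 := by
    intro h
    apply hYp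
    have : Y = Y₁ := by omega
    rw [this]; exact hp1
  set D := Y - Y₂ with hD
  have hDp : ¬ (p : ℤ) ^ s ∣ |D| := by
    rw [dvd_abs]
    intro h
    apply hYp
    have := dvd_add h hp2
    rwa [hD, sub_add_cancel] at this
  have hD0 : D ≠ 0 := by
    intro h
    rw [h, abs_zero] at hDp
    exact hDp (dvd_zero _)
  have hDpos : 0 < |D| := abs_pos.2 hD0
  have hκκ : (κ + 1) * T' - 1 ≤ (κ₂ + 1) * T' - 1 := by
    apply Nat.sub_le_sub_right
    exact Nat.mul_le_mul_right _ (by omega)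
  have hDq : (q : ℤ) ^ ((κ + 1) * T' - 1) ∣ |D| := by
    rw [dvd_abs]
    exact dvd_sub hYq ((pow_dvd_pow _ hκκ).trans hY2)
  obtain ⟨t, hts, ⟨D1, hD1⟩, ht2⟩ := exists_exact_pow hDp
  have hD1pos : 0 < D1 := by
    rw [hD1] at hDpos
    exact (mul_pos_iff_of_pos_left (by positivity)).1 hDpos
  have hpD1 : ¬ (p : ℤ) ∣ D1 := by
    rintro ⟨c, hc⟩
    apply ht2
    refine ⟨c, ?_⟩
    rw [hD1, hc]; ring
  have hcop : IsCoprime (p : ℤ) (q : ℤ) := Nat.isCoprime_iff_coprime.2 hpq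
  have hqbig : ¬ (q : ℤ) ^ (D1.natAbs) ∣ D1 := by
    intro h
    have h1 := Int.le_of_dvd hD1pos h
    have h2 : D1.natAbs < q ^ (D1.natAbs) := Nat.lt_pow_self (by omega)
    have h4 : ((D1.natAbs : ℕ) : ℤ) < ((q ^ D1.natAbs : ℕ) : ℤ) := by exact_mod_cast h2
    push_cast at h4
    rw [abs_of_pos hD1pos] at h4
    omega
  obtain ⟨j, -, ⟨Z, hZ⟩, hj2⟩ := exists_exact_pow hqbig
  have hZ0 : 0 < Z := by
    rw [hZ] at hD1pos
    exact (mul_pos_iff_of_pos_left (by positivity)).1 hD1pos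
  have hqZ : ¬ (q : ℤ) ∣ Z := by
    rintro ⟨c, hc⟩
    apply hj2
    refine ⟨c, ?_⟩
    rw [hZ, hc]; ring
  have hpZ : ¬ (p : ℤ) ∣ Z := by
    intro h
    apply hpD1
    rw [hZ]
    exact h.mul_left _
  have hjbig : (κ + 1) * T' - 1 ≤ j := by
    by_contra hlt
    rw [not_le] at hlt
    have h1 : (q : ℤ) ^ ((κ + 1) * T' - 1) ∣ D1 := by
      have h2 : IsCoprime ((q : ℤ) ^ ((κ + 1) * T' - 1)) ((p : ℤ) ^ t) :=
        (hcop.symm).pow
      exact h2.dvd_of_dvd_mul_left (by rw [← hD1]; exact hDq)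
    exact hj2 ((pow_dvd_pow _ (by omega)).trans h1)
  have hv : v < κ * T' := by
    by_contra hlt
    rw [not_lt] at hlt
    have e1 : (q : ℤ) ^ (κ * T') ∣ Y₁ - Y₂ := by
      rw [← dvd_abs, hA]
      exact ((pow_dvd_pow _ hlt).mul_left _).mul_right _
    have e2 : (q : ℤ) ^ (κ * T') ∣ D := by
      rw [← dvd_abs]
      refine (pow_dvd_pow _ ?_).trans hDq
      have : (κ + 1) * T' = κ * T' + T' := by ring
      omega
    have e3 : (q : ℤ) ^ (κ * T') ∣ |Y₁ - Y| := by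
      rw [dvd_abs]
      have := dvd_sub e1 e2
      have e : Y₁ - Y₂ - D = Y₁ - Y := by rw [hD]; ring
      rwa [e] at this
    have e4 := Int.le_of_dvd (abs_pos.2 hne) e3
    omega
  lift Z to ℕ using hZ0.le
  refine ⟨t, j, Z, hts, hv, hjbig, by omega, ?_, ?_, ?_⟩
  · intro h; exact hqZ (by exact_mod_cast h)
  · intro h; exact hpZ (by exact_mod_cast h)
  · have e1 : (p : ℤ) ^ t * (q : ℤ) ^ j * Z = |D| := by
      rw [hD1, hZ]; ring
    rw [e1, ← hA]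
    refine (abs_abs_sub_abs_le_abs_sub _ _).trans ?_
    have e : Y₁ - Y₂ - D = Y₁ - Y := by rw [hD]; ring
    rw [e]; exact hclose.le

/-- The size of the difference of the two multiples. -/
lemma gap_size {p q T' κ₁ κ₂ s : ℕ} (hp : 2 ≤ p) (hq : 2 ≤ q) (hpq : Nat.Coprime p q)
    (hT : 1 ≤ T') {x Y₁ Y₂ : ℤ} (h2 : κ₁ < κ₂) (hp1 : (p : ℤ) ^ s ∣ Y₁)
    (hp2 : (p : ℤ) ^ s ∣ Y₂) (hY1 : ((q : ℤ) + 1) * |x - Y₁| < (q : ℤ) ^ (κ₁ * T'))
    (hY2 : ((q : ℤ) + 1) * |x - Y₂| < (q : ℤ) ^ (κ₂ * T'))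
    (hq1 : (q : ℤ) ^ ((κ₁ + 1) * T' - 1) ∣ Y₁)
    (hq2 : (q : ℤ) ^ ((κ₂ + 1) * T' - 1) ∣ Y₂) (hne : Y₁ ≠ Y₂) :
    ∃ v A : ℕ, |Y₁ - Y₂| = (p : ℤ) ^ s * (q : ℤ) ^ v * A ∧ 1 ≤ A ∧ ¬ q ∣ A ∧
      Real.logb q A ≤ ((κ₂ : ℝ) - κ₁ - 1) * T' + 1 - Real.logb q p * s := by
  have hq0 : (0 : ℤ) < q := by exact_mod_cast (by omega : 0 < q)
  have hp0 : (0 : ℤ) < p := by exact_mod_cast (by omega : 0 < p)
  have hq2' : (2 : ℤ) ≤ q := by exact_mod_cast hq
  set D := Y₁ - Y₂ with hD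
  have hD0 : D ≠ 0 := sub_ne_zero.2 hne
  have hDpos : 0 < |D| := abs_pos.2 hD0
  have hDp : (p : ℤ) ^ s ∣ |D| := by
    rw [dvd_abs]; exact dvd_sub hp1 hp2
  have hκκ : (κ₁ + 1) * T' - 1 ≤ (κ₂ + 1) * T' - 1 := by
    apply Nat.sub_le_sub_right
    exact Nat.mul_le_mul_right _ (by omega)
  have hDq : (q : ℤ) ^ ((κ₁ + 1) * T' - 1) ∣ |D| := by
    rw [dvd_abs]; exact dvd_sub hq1 ((pow_dvd_pow _ hκκ).trans hq2)
  have hclose : |D| < (q : ℤ) ^ (κ₂ * T') := by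
    have e1 : |Y₁ - Y₂| ≤ |x - Y₁| + |x - Y₂| := by
      have := abs_sub (x - Y₂) (x - Y₁)
      have e : x - Y₂ - (x - Y₁) = Y₁ - Y₂ := by ring
      rw [e] at this
      linarith
    have e2 : (q : ℤ) ^ (κ₁ * T') ≤ (q : ℤ) ^ (κ₂ * T') :=
      pow_le_pow_right₀ (by omega) (Nat.mul_le_mul_right _ h2.le)
    have e3 : (0 : ℤ) < (q : ℤ) ^ (κ₂ * T') := by positivity
    have e4 : ((q : ℤ) + 1) * |Y₁ - Y₂| < ((q : ℤ) + 1) * (q : ℤ) ^ (κ₂ * T') := by
      have : ((q : ℤ) + 1) * |Y₁ - Y₂| ≤ ((q : ℤ) + 1) * |x - Y₁| + ((q : ℤ) + 1) * |x - Y₂| := by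
        rw [← mul_add]; gcongr
      nlinarith
    exact lt_of_mul_lt_mul_left e4 (by positivity)
  obtain ⟨D1, hD1⟩ := hDp
  have hD1pos : 0 < D1 := by
    rw [hD1] at hDpos
    exact (mul_pos_iff_of_pos_left (by positivity)).1 hDpos
  have hcop : IsCoprime (p : ℤ) (q : ℤ) := Nat.isCoprime_iff_coprime.2 hpq
  have hqbig : ¬ (q : ℤ) ^ (D1.natAbs) ∣ D1 := by
    intro h
    have h1 := Int.le_of_dvd hD1pos h
    have h2 : D1.natAbs < q ^ (D1.natAbs) := Nat.lt_pow_self (by omega)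
    have h4 : ((D1.natAbs : ℕ) : ℤ) < ((q ^ D1.natAbs : ℕ) : ℤ) := by exact_mod_cast h2
    push_cast at h4
    rw [abs_of_pos hD1pos] at h4
    omega
  obtain ⟨v, -, ⟨A, hA⟩, hv2⟩ := exists_exact_pow hqbig
  have hA0 : 0 < A := by
    rw [hA] at hD1pos
    exact (mul_pos_iff_of_pos_left (by positivity)).1 hD1pos
  have hqA : ¬ (q : ℤ) ∣ A := by
    rintro ⟨c, hc⟩
    apply hv2
    refine ⟨c, ?_⟩
    rw [hA, hc]; ring
  have hvbig : (κ₁ + 1) * T' - 1 ≤ v := by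
    by_contra hlt
    rw [not_le] at hlt
    have h1 : (q : ℤ) ^ ((κ₁ + 1) * T' - 1) ∣ D1 := by
      have h2 : IsCoprime ((q : ℤ) ^ ((κ₁ + 1) * T' - 1)) ((p : ℤ) ^ s) :=
        (hcop.symm).pow
      exact h2.dvd_of_dvd_mul_left (by rw [← hD1]; exact hDq)
    exact hv2 ((pow_dvd_pow _ (by omega)).trans h1)
  lift A to ℕ using hA0.le
  have hA1 : 1 ≤ A := by omega
  refine ⟨v, A, ?_, hA1, ?_, ?_⟩
  · rw [hD1, hA]; ring
  · intro h; exact hqA (by exact_mod_cast h)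
  · have hqR : (1 : ℝ) < q := by exact_mod_cast (by omega : 1 < q)
    have hpR : (0 : ℝ) < p := by exact_mod_cast (by omega : 0 < p)
    have hqR0 : (0 : ℝ) < q := by linarith
    have hAR : (0 : ℝ) < A := by exact_mod_cast hA1
    have e1 : (p : ℝ) ^ s * (q : ℝ) ^ v * A < (q : ℝ) ^ (κ₂ * T') := by
      have e : (p : ℤ) ^ s * (q : ℤ) ^ v * A < (q : ℤ) ^ (κ₂ * T') := by
        have e' : (p : ℤ) ^ s * (q : ℤ) ^ v * A = |D| := by rw [hD1, hA]; ring
        rw [e']; exact hclose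
      exact_mod_cast e
    have e2 := Real.logb_lt_logb hqR (by positivity) e1
    rw [Real.logb_mul (by positivity) (by positivity), Real.logb_mul (by positivity)
      (by positivity), Real.logb_pow, Real.logb_pow, Real.logb_pow,
      Real.logb_self_eq_one hqR] at e2
    have e3 : (((κ₁ + 1) * T' - 1 : ℕ) : ℝ) ≤ v := by exact_mod_cast hvbig
    have e4 : 1 ≤ (κ₁ + 1) * T' := by nlinarith
    rw [Nat.cast_sub e4] at e3
    push_cast at e3 e2
    nlinarith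

theorem local_lemma {p q : ℕ} (hp : 2 ≤ p) (hq : 2 ≤ q) (hpq : Nat.Coprime p q) (M : ℕ)
    (hM : 2 ≤ M) : ∃ T₀ : ℕ, ∀ T' : ℕ, T₀ ≤ T' → ∀ (s : ℕ) (x : ℤ), x ≠ 0 →
      (p : ℤ) ^ s ∣ x → (q : ℤ) ^ (2 * M * T') ∣ x →
      (T' : ℝ) ≤ Real.logb q p * s → Real.logb q p * s ≤ M * T' / 2 →
      ∀ k ∈ cells q (M * T') x,
        Real.logb q p * s ≤ 2 * T' * ((hitR q T' M k x).card : ℝ) ∨
        (M : ℝ) ≤ 4 * ((youngR q T' M k ((p : ℤ) ^ s) x).card : ℝ) := by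
  classical
  have hqR : (1 : ℝ) < q := by exact_mod_cast (by omega : 1 < q)
  have hpR : (1 : ℝ) < p := by exact_mod_cast (by omega : 1 < p)
  set θ : ℝ := Real.logb q p with hθ
  have hθ0 : 0 < θ := Real.logb_pos hqR hpR
  obtain ⟨T₁, hT₁, hrun⟩ := run_lemma hp hq hpq (M / θ + 3 * M + 1) (1 / 2) (1 / 4) (by norm_num)
    (by norm_num)
  refine ⟨⌈T₁⌉₊ + 4 * M + 4, ?_⟩
  intro T' hT' s x hx hps hqx hs1 hs2 k hk
  by_contra hcon
  push Not at hcon
  obtain ⟨hhit, hyoung⟩ := hcon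
  have hT1 : 1 ≤ T' := by omega
  have hT'T₁ : T₁ ≤ T' := (Nat.le_ceil T₁).trans (by exact_mod_cast (by omega))
  have hT'pos : (0 : ℝ) < T' := by exact_mod_cast hT1
  have hT'M : (4 : ℝ) * M + 4 ≤ T' := by exact_mod_cast (by omega : 4 * M + 4 ≤ T')
  -- the far level
  unfold cells at hk
  rw [Finset.mem_image] at hk
  obtain ⟨l, hl, hlk⟩ := hk
  rw [mem_farSet hq] at hl
  have hMT : 0 < M * T' := by positivity
  have hl1 : k * (M * T') ≤ l := by
    rw [← hlk]; exact Nat.div_mul_le_self _ _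
  have hl2 : l < (k + 1) * (M * T') := by
    rw [← hlk, mul_comm]; exact Nat.lt_mul_div_succ _ hMT
  have hk2 : 2 ≤ k := by
    by_contra hk2
    apply hl
    obtain ⟨c, hc⟩ := hqx
    refine near_of_remainder (e := 2 * M * T') (a := c) (r := 0) (by rw [hc]; ring) ?_ (by
      rw [abs_zero, mul_zero]
      have : (0 : ℤ) < q := by exact_mod_cast (by omega : 0 < q)
      positivity)
    have : (k + 1) * (M * T') ≤ 2 * (M * T') := Nat.mul_le_mul_right _ (by omega)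
    have e : 2 * (M * T') = 2 * M * T' := by ring
    omega
  set κs := l / T' with hκs
  have hκs1 : k * M ≤ κs := by
    rw [hκs, Nat.le_div_iff_mul_le (by omega)]
    calc k * M * T' = k * (M * T') := by ring
      _ ≤ l := hl1
  have hκs2 : κs < (k + 1) * M := by
    rw [hκs, Nat.div_lt_iff_lt_mul (by omega)]
    calc l < (k + 1) * (M * T') := hl2
      _ = (k + 1) * M * T' := by ring
  have hκs3 : κs * T' ≤ l := Nat.div_mul_le_self _ _
  have hκs4 : l < (κs + 1) * T' := by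
    rw [hκs, mul_comm]; exact Nat.lt_mul_div_succ _ (by omega)
  have hκnf : ¬ Free q T' κs x := fun h => hl (h l hκs3 hκs4)
  -- few cells are not old
  have hfew : ∀ I : Finset ℕ, I ⊆ region M k → M ≤ I.card →
      ∃ κ ∈ I, OldCell q T' κ ((p : ℤ) ^ s) x := by
    intro I hI hIc
    by_contra hno
    push Not at hno
    have hsub : I ⊆ hitR q T' M k x ∪ youngR q T' M k ((p : ℤ) ^ s) x := by
      intro κ hκ
      rw [Finset.mem_union]
      by_cases hf : Free q T' κ x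
      · right
        unfold youngR
        rw [Finset.mem_filter]
        exact ⟨hI hκ, hf, hno κ hκ⟩
      · left
        unfold hitR
        rw [Finset.mem_filter]
        exact ⟨hI hκ, hf⟩
    have h1 : M ≤ (hitR q T' M k x).card + (youngR q T' M k ((p : ℤ) ^ s) x).card :=
      hIc.trans ((Finset.card_le_card hsub).trans (Finset.card_union_le _ _))
    have h1' : (M : ℝ) ≤ ((hitR q T' M k x).card : ℝ) +
        ((youngR q T' M k ((p : ℤ) ^ s) x).card : ℝ) := by exact_mod_cast h1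
    have h2 : 4 * ((hitR q T' M k x).card : ℝ) < M := by
      have h3 : T' * (4 * ((hitR q T' M k x).card : ℝ)) < T' * M := by nlinarith
      exact lt_of_mul_lt_mul_left h3 hT'pos.le
    have hM0 : (0 : ℝ) < M := by exact_mod_cast (by omega : 0 < M)
    linarith
  have hreg : ∀ κ, κ ∈ region M k ↔ (k - 1) * M ≤ κ ∧ κ < (k + 2) * M := by
    intro κ; unfold region; rw [Finset.mem_Ico]
  have hkm : (k - 1) * M + M = k * M := by
    obtain ⟨k', rfl⟩ := Nat.exists_eq_add_of_le' (show 1 ≤ k by omega)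
    rw [Nat.add_sub_cancel]; ring
  have hkm1 : (k + 1) * M = k * M + M := by ring
  have hkm2 : (k + 2) * M = k * M + M + M := by ring
  obtain ⟨κa, hκa, hκaold⟩ := hfew (Finset.Ico ((k - 1) * M) (k * M)) (by
    intro κ hκ
    rw [Finset.mem_Ico] at hκ
    rw [hreg]
    omega) (by rw [Nat.card_Ico]; omega)
  obtain ⟨κb, hκb, hκbold⟩ := hfew (Finset.Ico ((k + 1) * M) ((k + 2) * M)) (by
    intro κ hκ
    rw [Finset.mem_Ico] at hκ
    rw [hreg]
    omega) (by rw [Nat.card_Ico]; omega)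
  rw [Finset.mem_Ico] at hκa hκb
  -- the last old cell before and the first old cell after
  obtain ⟨κ₁, hκ₁, hmax⟩ := Finset.exists_max_image
    ((region M k).filter fun κ => OldCell q T' κ ((p : ℤ) ^ s) x ∧ κ < κs) id
    ⟨κa, by rw [Finset.mem_filter, hreg]; exact ⟨by omega, hκaold, by omega⟩⟩
  obtain ⟨κ₂, hκ₂, hmin⟩ := Finset.exists_min_image
    ((region M k).filter fun κ => OldCell q T' κ ((p : ℤ) ^ s) x ∧ κs < κ) id
    ⟨κb, by rw [Finset.mem_filter, hreg]; exact ⟨by omega, hκbold, by omega⟩⟩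
  rw [Finset.mem_filter, hreg] at hκ₁ hκ₂
  simp only [Finset.mem_filter, hreg, id] at hmax hmin
  obtain ⟨hr1, hold1, hlt1⟩ := hκ₁
  obtain ⟨hr2, hold2, hlt2⟩ := hκ₂
  obtain ⟨Y₁, hp1, hq1, hx1⟩ := hold1
  obtain ⟨Y₂, hp2, hq2, hx2⟩ := hold2
  have hq0 : (0 : ℤ) < q := by exact_mod_cast (by omega : 0 < q)
  have hne : Y₁ ≠ Y₂ := by
    intro h
    apply hl
    rw [← h] at hq2
    obtain ⟨c, hc⟩ := hq2
    have h5 : (κs + 1) * T' ≤ κ₂ * T' := Nat.mul_le_mul_right _ hlt2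
    have h6 : (κ₂ + 1) * T' = κ₂ * T' + T' := by ring
    have h7 : κ₁ * T' ≤ κs * T' := Nat.mul_le_mul_right _ hlt1.le
    refine near_of_remainder (e := (κ₂ + 1) * T' - 1) (a := c) (r := x - Y₁)
      (by rw [hc]; ring) (by omega) ?_
    refine lt_of_lt_of_le hx1 (pow_le_pow_right₀ (by omega) (by omega))
  obtain ⟨v, A, hA, hA1, hqA, hlogA⟩ :=
    gap_size hp hq hpq hT1 (hlt1.trans hlt2) hp1 hp2 hx1 hx2 hq1 hq2 hne
  rw [← hθ] at hlogA
  -- the young cells in between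
  set S : Finset ℕ := (Finset.Ioo κ₁ κ₂).filter fun κ => Free q T' κ x with hS
  have hSold : ∀ κ ∈ S, Free q T' κ x ∧ ¬ OldCell q T' κ ((p : ℤ) ^ s) x ∧ κ₁ < κ ∧ κ < κ₂ := by
    intro κ hκ
    rw [hS, Finset.mem_filter, Finset.mem_Ioo] at hκ
    refine ⟨hκ.2, ?_, hκ.1.1, hκ.1.2⟩
    intro hold
    rcases lt_trichotomy κ κs with h | h | h
    · have := hmax κ ⟨by omega, hold, h⟩
      omega
    · rw [h] at hκ
      exact hκnf hκ.2
    · have := hmin κ ⟨by omega, hold, h⟩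
      omega
  have hdata : ∀ κ ∈ S, ∃ t j B : ℕ, t < s ∧ v < κ * T' ∧ (κ + 1) * T' - 1 ≤ j ∧ 1 ≤ B ∧
      ¬ q ∣ B ∧ ¬ p ∣ B ∧
      |(p : ℤ) ^ s * (q : ℤ) ^ v * A - (p : ℤ) ^ t * (q : ℤ) ^ j * B| ≤ (q : ℤ) ^ (κ * T') := by
    intro κ hκ
    obtain ⟨h1, h2, h3, h4⟩ := hSold κ hκ
    exact gap_data hp hq hpq hT1 h3 h4 hp1 hp2 hx1 hq2 hA h1 h2
  choose! t j B ht hv hj hB1 hqB hpB hrel using hdata
  set key : ℕ → ℕ × ℕ := fun κ => (s - t κ, j κ - v) with hkey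
  set F : Finset (ℕ × ℕ) := S.image key with hF
  have hmrep : ∀ y ∈ F, ∃ κ ∈ S, key κ = y ∧ ∀ κ' ∈ S, key κ' = y → κ ≤ κ' := by
    intro y hy
    rw [hF, Finset.mem_image] at hy
    obtain ⟨κ0, hκ0, hy0⟩ := hy
    obtain ⟨κ, hκ, hmin'⟩ := Finset.exists_min_image (S.filter fun κ => key κ = y) id
      ⟨κ0, by rw [Finset.mem_filter]; exact ⟨hκ0, hy0⟩⟩
    rw [Finset.mem_filter] at hκ
    refine ⟨κ, hκ.1, hκ.2, ?_⟩
    intro κ' hκ' hy'
    exact hmin' κ' (by rw [Finset.mem_filter]; exact ⟨hκ', hy'⟩)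
  choose! m hmS hmkey hmmin using hmrep
  set r : ℕ × ℕ → ℝ := fun y => (j (m y) : ℝ) - ((m y * T' : ℕ) : ℝ) + θ * t (m y) with hr
  have hjT : ∀ κ ∈ S, κ * T' + T' - 1 ≤ j κ := by
    intro κ hκ
    have := hj κ hκ
    have e : (κ + 1) * T' = κ * T' + T' := by ring
    rwa [e] at this
  have hsum := hrun T' hT'T₁ A hA1 hqA ?_ F (fun y => B (m y)) r ?_
  rotate_left
  · -- size of `A`
    refine hlogA.trans ?_
    have h1 : (κ₂ : ℝ) - κ₁ - 1 ≤ 3 * M - 1 := by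
      have : κ₂ + 1 ≤ κ₁ + 3 * M := by omega
      have : (κ₂ : ℝ) + 1 ≤ κ₁ + 3 * M := by exact_mod_cast this
      linarith
    have h2 : ((κ₂ : ℝ) - κ₁ - 1) * T' ≤ (3 * M - 1) * T' := by gcongr
    have h3 : (0 : ℝ) ≤ M / θ := by positivity
    have h4 : (0 : ℝ) ≤ M / θ * T' := by positivity
    nlinarith
  · -- the members of the family
    intro y hy
    have hm := hmS y hy
    have hk' := hmkey y hy
    have hy1 : y.1 = s - t (m y) := (congrArg Prod.fst hk').symm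
    have hy2 : y.2 = j (m y) - v := (congrArg Prod.snd hk').symm
    have h1 := ht _ hm
    have h2 := hv _ hm
    have h3 := hjT _ hm
    refine ⟨?_, by omega, hB1 _ hm, hqB _ hm, hpB _ hm, ?_, ?_⟩
    · have h4 : (y.1 : ℝ) ≤ s := by exact_mod_cast (by omega : y.1 ≤ s)
      have h5 : (s : ℝ) ≤ M / θ * T' := by
        rw [div_mul_eq_mul_div, le_div_iff₀ hθ0]
        have : (0 : ℝ) ≤ M * T' := by positivity
        linarith
      have h6 : (0 : ℝ) ≤ (3 * M + 1) * T' := by positivity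
      linarith
    · have h4 : ((m y * T' : ℕ) : ℝ) + T' ≤ j (m y) + 1 := by
        exact_mod_cast (by omega : m y * T' + T' ≤ j (m y) + 1)
      have h5 : 0 ≤ θ * t (m y) := by positivity
      rw [hr]
      simp only
      have hM0 : (0 : ℝ) ≤ M := by positivity
      linarith
    · have h4 := case_one_real hp hq (K := m y * T') h1.le (by omega) (hrel _ hm)
      rw [← hθ] at h4
      rw [hy1, hy2]
      exact h4
  -- counting the young cells
  have hfib : ∀ y ∈ F, (T' : ℝ) * ((S.filter fun κ => key κ = y).card : ℝ) ≤ r y + 1 := by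
    intro y hy
    have hm := hmS y hy
    have hk' := hmkey y hy
    have h2 := hv _ hm
    have h3 := hjT _ hm
    have hsub : (S.filter fun κ => key κ = y) ⊆ Finset.Ico (m y) ((j (m y) + 1) / T') := by
      intro κ' hκ'
      rw [Finset.mem_filter] at hκ'
      rw [Finset.mem_Ico]
      refine ⟨hmmin y hy κ' hκ'.1 hκ'.2, ?_⟩
      have h4 := hv _ hκ'.1
      have h5 := hjT _ hκ'.1
      have h6 : j κ' - v = j (m y) - v := by
        have h7 : key κ' = key (m y) := by rw [hκ'.2, hk']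
        exact congrArg Prod.snd h7
      have h8 : j κ' = j (m y) := by omega
      rw [Nat.lt_iff_add_one_le, Nat.le_div_iff_mul_le (by omega)]
      have e : (κ' + 1) * T' = κ' * T' + T' := by ring
      omega
    have hc := Finset.card_le_card hsub
    rw [Nat.card_Ico] at hc
    have h9 : m y ≤ (j (m y) + 1) / T' := by
      rw [Nat.le_div_iff_mul_le (by omega)]
      omega
    have hc' : ((S.filter fun κ => key κ = y).card : ℝ) ≤
        (((j (m y) + 1) / T' : ℕ) : ℝ) - m y := by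
      rw [← Nat.cast_sub h9]; exact_mod_cast hc
    have h10 : (T' : ℝ) * (((j (m y) + 1) / T' : ℕ) : ℝ) ≤ j (m y) + 1 := by
      have := Nat.mul_div_le (j (m y) + 1) T'
      exact_mod_cast this
    have h11 : 0 ≤ θ * t (m y) := by positivity
    rw [hr]
    simp only
    push_cast
    nlinarith
  have hScard : (S.card : ℝ) = ∑ y ∈ F, ((S.filter fun κ => key κ = y).card : ℝ) := by
    have := Finset.card_eq_sum_card_fiberwise (f := key) (s := S) (t := F)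
      (fun κ hκ => Finset.mem_image_of_mem _ hκ)
    exact_mod_cast this
  have hTS : (T' : ℝ) * S.card ≤ ∑ y ∈ F, r y + F.card := by
    rw [hScard, Finset.mul_sum]
    calc _ ≤ ∑ y ∈ F, (r y + 1) := Finset.sum_le_sum hfib
      _ = _ := by rw [Finset.sum_add_distrib, Finset.sum_const, nsmul_eq_mul, mul_one]
  have hSyoung : S ⊆ youngR q T' M k ((p : ℤ) ^ s) x := by
    intro κ hκ
    obtain ⟨h1, h2, h3, h4⟩ := hSold κ hκ
    unfold youngR
    rw [Finset.mem_filter, hreg]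
    exact ⟨by omega, h1, h2⟩
  have hFM : (F.card : ℝ) ≤ M := by
    have h1 : F.card ≤ S.card := Finset.card_image_le
    have h2 := Finset.card_le_card hSyoung
    have h3 : (F.card : ℝ) ≤ ((youngR q T' M k ((p : ℤ) ^ s) x).card : ℝ) := by
      exact_mod_cast h1.trans h2
    have h4 : (0 : ℝ) ≤ ((youngR q T' M k ((p : ℤ) ^ s) x).card : ℝ) := by positivity
    linarith
  -- the other cells in between are hit
  have hhitb : (Finset.Ioo κ₁ κ₂) \ S ⊆ hitR q T' M k x := by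
    intro κ hκ
    rw [Finset.mem_sdiff, hS, Finset.mem_filter, Finset.mem_Ioo] at hκ
    unfold hitR
    rw [Finset.mem_filter, hreg]
    refine ⟨by omega, ?_⟩
    intro hf
    exact hκ.2 ⟨hκ.1, hf⟩
  have hcount : (κ₂ : ℝ) - κ₁ - 1 ≤ S.card + ((hitR q T' M k x).card : ℝ) := by
    have h1 : (Finset.Ioo κ₁ κ₂).card ≤ S.card + (hitR q T' M k x).card := by
      have h2 := Finset.card_le_card hhitb
      have h3 : (Finset.Ioo κ₁ κ₂).card ≤ S.card + ((Finset.Ioo κ₁ κ₂) \ S).card := by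
        have := Finset.card_le_card (show Finset.Ioo κ₁ κ₂ ⊆ S ∪ ((Finset.Ioo κ₁ κ₂) \ S) by
          intro κ hκ
          rw [Finset.mem_union, Finset.mem_sdiff]
          by_cases h : κ ∈ S
          · exact Or.inl h
          · exact Or.inr ⟨hκ, h⟩)
        exact this.trans (Finset.card_union_le _ _)
      omega
    rw [Nat.card_Ioo] at h1
    have h2 : κ₂ ≤ S.card + (hitR q T' M k x).card + κ₁ + 1 := by omega
    have h3 : (κ₂ : ℝ) ≤ S.card + (hitR q T' M k x).card + κ₁ + 1 := by exact_mod_cast h2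
    linarith
  have hfin : ((κ₂ : ℝ) - κ₁ - 1) * T' ≤ (S.card + ((hitR q T' M k x).card : ℝ)) * T' := by
    gcongr
  nlinarith

end SST
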