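import Pool.Agent.Subspace.AvDefs

/-!
# Multi-scale argument: auxiliary statements for the scale step
-/

namespace SST

open Pool.Agent.DigitPowers

lemma far_of_far_mul {p q : ℕ} (hq : 2 ≤ q) {j t l : ℕ} {x : ℤ} (hpj : p ^ t ≤ q ^ j)
    (h : ¬ Near q 0 l ((p : ℤ) ^ t * x)) :
    ∃ l', l' ≤ l ∧ l ≤ l' + j ∧ ¬ Near q 0 l' x := by
  by_contra hcon
  push Not at hcon
  apply h
  have h1 : Near q j l x := by
    rw [near_iff_forall hq]
    intro i hi
    exact hcon (l - i) (by omega) (by omega)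
  obtain ⟨a, ha⟩ := h1
  refine ⟨(p : ℤ) ^ t * a, lt_of_le_of_lt ?_ ha⟩
  have h2 : |(p : ℤ) ^ t * x - (p : ℤ) ^ t * a * (q : ℤ) ^ l|
      = (p : ℤ) ^ t * |x - a * (q : ℤ) ^ l| := by
    have e : (p : ℤ) ^ t * x - (p : ℤ) ^ t * a * (q : ℤ) ^ l
        = (p : ℤ) ^ t * (x - a * (q : ℤ) ^ l) := by ring
    rw [e, abs_mul, abs_of_nonneg (by positivity : (0 : ℤ) ≤ (p : ℤ) ^ t)]
  rw [h2, pow_zero, mul_one]
  have h3 : (p : ℤ) ^ t ≤ (q : ℤ) ^ j := by exact_mod_cast hpj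
  have h4 : (0 : ℤ) ≤ |x - a * (q : ℤ) ^ l| := abs_nonneg _
  calc ((q : ℤ) + 1) * ((p : ℤ) ^ t * |x - a * (q : ℤ) ^ l|)
      ≤ ((q : ℤ) + 1) * ((q : ℤ) ^ j * |x - a * (q : ℤ) ^ l|) := by gcongr
    _ = _ := by ring

lemma cells_mul_subset {p q : ℕ} (hq : 2 ≤ q) {T t : ℕ} (hT : 1 ≤ T)
    (hpj : p ^ t ≤ q ^ (2 * T)) (x : ℤ) :
    cells q T ((p : ℤ) ^ t * x) ⊆ (cells q T x).biUnion (fun k => {k, k + 1, k + 2}) := by
  intro k hk
  unfold cells at hk
  rw [Finset.mem_image] at hk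
  obtain ⟨l, hl, rfl⟩ := hk
  rw [mem_farSet hq] at hl
  obtain ⟨l', h1, h2, h3⟩ := far_of_far_mul hq hpj hl
  rw [Finset.mem_biUnion]
  refine ⟨l' / T, ?_, ?_⟩
  · unfold cells
    exact Finset.mem_image_of_mem _ ((mem_farSet hq).2 h3)
  · have h4 : l' / T ≤ l / T := Nat.div_le_div_right h1
    have h5 : l / T ≤ l' / T + 2 := by
      calc l / T ≤ (l' + 2 * T) / T := Nat.div_le_div_right h2
        _ = l' / T + 2 := Nat.add_mul_div_right _ _ (by omega)
    simp only [Finset.mem_insert, Finset.mem_singleton]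
    omega

lemma card_biUnion_three_le (S : Finset ℕ) :
    (S.biUnion (fun k => ({k, k + 1, k + 2} : Finset ℕ))).card ≤ 3 * S.card := by
  rw [mul_comm]
  apply Finset.card_biUnion_le_card_mul
  intro k _
  exact Finset.card_le_three

lemma cells_nonempty {q : ℕ} (hq : 2 ≤ q) (T : ℕ) {x : ℤ} (hx : x ≠ 0) :
    (cells q T x).Nonempty := by
  unfold cells
  rw [Finset.image_nonempty, ← Finset.card_pos]
  have := succ_le_card_farSet hq 0 hx
  omega

lemma card_cells_mul_le {q M T' : ℕ} (x : ℤ) :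
    (cells q (M * T') x).card ≤ (cells q T' x).card := by
  have h : cells q (M * T') x ⊆ (cells q T' x).image (· / M) := by
    intro k hk
    unfold cells at hk ⊢
    rw [Finset.mem_image] at hk
    obtain ⟨l, hl, rfl⟩ := hk
    rw [Finset.mem_image]
    refine ⟨l / T', Finset.mem_image_of_mem _ hl, ?_⟩
    rw [Nat.div_div_eq_div_mul, mul_comm]
  exact (Finset.card_le_card h).trans Finset.card_image_le

lemma not_free_mem_cells {q : ℕ} (hq : 2 ≤ q) {T' κ : ℕ} {x : ℤ}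
    (h : ¬ Free q T' κ x) : κ ∈ cells q T' x := by
  unfold Free at h
  push Not at h
  obtain ⟨l, h1, h2, h3⟩ := h
  unfold cells
  rw [Finset.mem_image]
  refine ⟨l, (mem_farSet hq).2 h3, ?_⟩
  exact Nat.div_eq_of_lt_le h1 h2

/-- Each cell is hit in at most three regions. -/
lemma sum_hitR_le {q : ℕ} (hq : 2 ≤ q) {T' M : ℕ} (hM : 1 ≤ M) (x : ℤ) (K : Finset ℕ) :
    ∑ k ∈ K, (hitR q T' M k x).card ≤ 3 * (cells q T' x).card := by
  classical
  have h1 : ∀ k ∈ K, (hitR q T' M k x).card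
      = ∑ κ ∈ cells q T' x, if κ ∈ hitR q T' M k x then 1 else 0 := by
    intro k _
    rw [Finset.sum_ite_mem, Finset.sum_const, smul_eq_mul, mul_one]
    congr 1
    ext κ
    rw [Finset.mem_inter]
    constructor
    · intro h
      refine ⟨?_, h⟩
      unfold hitR at h
      rw [Finset.mem_filter] at h
      exact not_free_mem_cells hq h.2
    · exact fun h => h.2
  rw [Finset.sum_congr rfl h1, Finset.sum_comm, mul_comm, ← smul_eq_mul]
  apply Finset.sum_le_card_nsmul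
  intro κ _
  rw [← Finset.card_filter]
  have h2 : (K.filter fun k => κ ∈ hitR q T' M k x) ⊆ {κ / M - 1, κ / M, κ / M + 1} := by
    intro k hk
    rw [Finset.mem_filter] at hk
    obtain ⟨-, hk⟩ := hk
    unfold hitR at hk
    rw [Finset.mem_filter] at hk
    obtain ⟨hk, -⟩ := hk
    unfold region at hk
    rw [Finset.mem_Ico] at hk
    have h3 : k - 1 ≤ κ / M := by
      rw [Nat.le_div_iff_mul_le (by omega)]
      exact hk.1
    have h4 : κ / M < k + 2 := by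
      rw [Nat.div_lt_iff_lt_mul (by omega)]
      exact hk.2
    simp only [Finset.mem_insert, Finset.mem_singleton]
    omega
  exact (Finset.card_le_card h2).trans Finset.card_le_three

section analysis

open Classical

lemma rpow_neg_two_lt_one {α : ℝ} (hα0 : 0 < α) : (2 : ℝ) ^ (-α) < 1 :=
  Real.rpow_lt_one_of_one_lt_of_neg (by norm_num) (by linarith)

/-- The contribution of the bad times. -/
lemma bad_sum {α : ℝ} (hα0 : 0 < α) (hα1 : α < 1) (S : ℕ → Finset ℕ) (I : Finset ℕ)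
    (B : ℕ → ℕ → Prop) (s : ℝ) (hs : 0 ≤ s)
    (hB : ∀ k, ((I.filter (fun t => B t k)).card : ℝ) ≤ s)
    (hS : ∀ t ∈ I, ∀ t' ∈ I, t ≤ t' → S t' ⊆ (S t).biUnion (fun k => {k, k + 1, k + 2}))
    (m : ℕ) (hm : 1 ≤ m) (hmS : ∀ t ∈ I, m ≤ (S t).card) :
    ∑ t ∈ I.filter (fun t => (S t).card < 2 * ((S t).filter (fun k => B t k)).card),
        ((S t).card : ℝ) ^ (-α) ≤ 24 * s / (1 - 2 ^ (-α)) * (m : ℝ) ^ (-α) := by
  set Bad := I.filter (fun t => (S t).card < 2 * ((S t).filter (fun k => B t k)).card) with hBad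
  set F : ℕ → Finset ℕ := fun l => Bad.filter (fun t => Nat.log 2 (S t).card = l) with hF
  have hcard : ∀ l, ((F l).card : ℝ) ≤ 12 * s := by
    intro l
    rcases (F l).eq_empty_or_nonempty with h0 | h0
    · rw [h0]; simp; positivity
    set t₀ := (F l).min' h0 with ht₀
    have ht₀F : t₀ ∈ F l := Finset.min'_mem _ _
    have hmemI : ∀ t ∈ F l, t ∈ I := fun t ht =>
      (Finset.mem_filter.1 (Finset.mem_filter.1 ht).1).1
    have hbad : ∀ t ∈ F l, (S t).card < 2 * ((S t).filter (fun k => B t k)).card := fun t ht =>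
      (Finset.mem_filter.1 (Finset.mem_filter.1 ht).1).2
    have hlog : ∀ t ∈ F l, Nat.log 2 (S t).card = l := fun t ht => (Finset.mem_filter.1 ht).2
    have hne : ∀ t ∈ F l, (S t).card ≠ 0 := fun t ht => by
      have := hmS t (hmemI t ht); omega
    set K := (S t₀).biUnion (fun k => ({k, k + 1, k + 2} : Finset ℕ)) with hK
    have hKcard : K.card ≤ 3 * 2 ^ (l + 1) := by
      refine (card_biUnion_three_le _).trans ?_
      have : (S t₀).card < 2 ^ (l + 1) := by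
        rw [← hlog t₀ ht₀F]; exact Nat.lt_pow_succ_log_self (by omega) _
      omega
    have hsub : ∀ t ∈ F l, S t ⊆ K := fun t ht =>
      hS t₀ (hmemI _ ht₀F) t (hmemI t ht) (Finset.min'_le _ _ ht)
    have h1 : ∀ t ∈ F l, 2 ^ l ≤ 2 * ∑ k ∈ K, if B t k then 1 else 0 := by
      intro t ht
      have h2 : 2 ^ l ≤ (S t).card := by
        rw [← hlog t ht]; exact Nat.pow_log_le_self 2 (hne t ht)
      have h3 : ((S t).filter (fun k => B t k)).card ≤ ∑ k ∈ K, if B t k then 1 else 0 := by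
        rw [Finset.card_filter]
        exact Finset.sum_le_sum_of_subset (hsub t ht)
      have := hbad t ht
      omega
    have h2 : (F l).card * 2 ^ l ≤ ∑ t ∈ F l, 2 * ∑ k ∈ K, if B t k then 1 else 0 := by
      rw [← smul_eq_mul]
      exact Finset.card_nsmul_le_sum _ _ _ h1
    have h3 : ∑ t ∈ F l, 2 * ∑ k ∈ K, (if B t k then 1 else 0)
        = 2 * ∑ k ∈ K, ((F l).filter (fun t => B t k)).card := by
      rw [← Finset.mul_sum, Finset.sum_comm]
      simp only [Finset.card_filter]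
    have h4 : (∑ k ∈ K, (((F l).filter (fun t => B t k)).card : ℝ)) ≤ K.card * s := by
      rw [← nsmul_eq_mul]
      apply Finset.sum_le_card_nsmul
      intro k _
      refine le_trans ?_ (hB k)
      exact_mod_cast Finset.card_le_card (Finset.filter_subset_filter _ hmemI)
    have h5 : ((F l).card : ℝ) * 2 ^ l ≤ 2 * (K.card * s) := by
      have : ((F l).card : ℝ) * 2 ^ l ≤ 2 * ∑ k ∈ K, (((F l).filter (fun t => B t k)).card : ℝ) := by
        exact_mod_cast h2.trans_eq h3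
      linarith
    have h6 : (K.card : ℝ) ≤ 3 * 2 ^ (l + 1) := by exact_mod_cast hKcard
    have h7 : ((F l).card : ℝ) * 2 ^ l ≤ 12 * s * 2 ^ l := by
      calc ((F l).card : ℝ) * 2 ^ l ≤ 2 * (K.card * s) := h5
        _ ≤ 2 * (3 * 2 ^ (l + 1) * s) := by gcongr
        _ = _ := by ring
    exact le_of_mul_le_mul_right h7 (by positivity)
  set r : ℝ := (2 : ℝ) ^ (-α) with hr
  have hr0 : 0 < r := by positivity
  have hr1 : r < 1 := rpow_neg_two_lt_one hα0
  have hrpow : ∀ l : ℕ, ((2 : ℝ) ^ l) ^ (-α) = r ^ l := by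
    intro l
    rw [hr, ← Real.rpow_natCast 2 l, ← Real.rpow_mul (by norm_num), ← Real.rpow_natCast,
      ← Real.rpow_mul (by norm_num)]
    congr 1; ring
  obtain ⟨N, hN⟩ : ∃ N, ∀ t ∈ Bad, Nat.log 2 (S t).card < N := by
    refine ⟨(Bad.sup fun t => Nat.log 2 (S t).card) + 1, fun t ht => ?_⟩
    exact Nat.lt_succ_of_le (Finset.le_sup (f := fun t => Nat.log 2 (S t).card) ht)
  have hmaps : ∀ t ∈ Bad, Nat.log 2 (S t).card ∈ Finset.Ico (Nat.log 2 m) N := by
    intro t ht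
    rw [Finset.mem_Ico]
    exact ⟨Nat.log_mono_right (hmS t (Finset.mem_filter.1 ht).1), hN t ht⟩
  rw [← Finset.sum_fiberwise_of_maps_to hmaps]
  have h8 : ∀ l ∈ Finset.Ico (Nat.log 2 m) N,
      ∑ t ∈ Bad.filter (fun t => Nat.log 2 (S t).card = l), ((S t).card : ℝ) ^ (-α)
        ≤ 12 * s * r ^ l := by
    intro l _
    have h9 : ∀ t ∈ F l, ((S t).card : ℝ) ^ (-α) ≤ r ^ l := by
      intro t ht
      rw [← hrpow]
      have hne : (S t).card ≠ 0 := by
        have := hmS t (Finset.mem_filter.1 (Finset.mem_filter.1 ht).1).1; omega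
      have h2 : 2 ^ l ≤ (S t).card := by
        rw [← (Finset.mem_filter.1 ht).2]; exact Nat.pow_log_le_self 2 hne
      apply Real.rpow_le_rpow_of_nonpos (by positivity) (by exact_mod_cast h2) (by linarith)
    calc ∑ t ∈ F l, ((S t).card : ℝ) ^ (-α) ≤ (F l).card • r ^ l :=
          Finset.sum_le_card_nsmul _ _ _ h9
      _ = (F l).card * r ^ l := by rw [nsmul_eq_mul]
      _ ≤ 12 * s * r ^ l := by gcongr; exact hcard l
  refine (Finset.sum_le_sum h8).trans ?_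
  rw [← Finset.mul_sum]
  have h10 : ∑ l ∈ Finset.Ico (Nat.log 2 m) N, r ^ l ≤ r ^ (Nat.log 2 m) / (1 - r) :=
    geom_sum_Ico_le_of_lt_one hr0.le hr1
  have h11 : r ^ (Nat.log 2 m) ≤ 2 * (m : ℝ) ^ (-α) := by
    rw [← hrpow]
    have hm2 : m ≤ 2 * 2 ^ (Nat.log 2 m) := by
      have := Nat.lt_pow_succ_log_self (b := 2) (by omega) m
      rw [pow_succ] at this
      omega
    have hm3 : (m : ℝ) / 2 ≤ 2 ^ (Nat.log 2 m) := by
      have : (m : ℝ) ≤ 2 * 2 ^ (Nat.log 2 m) := by exact_mod_cast hm2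
      linarith
    have hm0 : (0 : ℝ) < m := by exact_mod_cast hm
    calc ((2 : ℝ) ^ (Nat.log 2 m)) ^ (-α) ≤ ((m : ℝ) / 2) ^ (-α) :=
          Real.rpow_le_rpow_of_nonpos (by positivity) hm3 (by linarith)
      _ = (2 : ℝ) ^ α * (m : ℝ) ^ (-α) := by
          rw [Real.div_rpow hm0.le (by norm_num), Real.rpow_neg (by norm_num : (0:ℝ) ≤ 2)]
          field_simp
      _ ≤ 2 * (m : ℝ) ^ (-α) := by
          gcongr
          calc (2 : ℝ) ^ α ≤ 2 ^ (1 : ℝ) :=
                Real.rpow_le_rpow_of_exponent_le (by norm_num) hα1.le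
            _ = 2 := Real.rpow_one 2
  have h12 : 0 < 1 - r := by linarith
  calc 12 * s * ∑ l ∈ Finset.Ico (Nat.log 2 m) N, r ^ l
      ≤ 12 * s * (r ^ (Nat.log 2 m) / (1 - r)) := by gcongr
    _ ≤ 12 * s * (2 * (m : ℝ) ^ (-α) / (1 - r)) := by gcongr
    _ = _ := by ring

/-- The pointwise bound. -/
lemma pointwise {α : ℝ} (hα0 : 0 < α) (hα1 : α < 1) (n : ℕ) (M X Y : ℝ) (hM : 1 ≤ M)
    (hM4 : M ≤ 4 * 2 ^ n) (hX : 1 ≤ X) (hXY : X ≤ Y) (bad : ℕ → Prop)
    (h : ∀ i ∈ Finset.Icc 1 n, ¬ bad i → M * X ≤ 24 * 2 ^ i * Y) :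
    Y ^ (-α) ≤ 48 * (M * X) ^ (-α) *
      (1 + ∑ i ∈ Finset.Icc 1 n, ((2 : ℝ) ^ α) ^ i * (if bad i then 1 else 0)) := by
  have hX0 : 0 < X := by linarith
  have hM0 : 0 < M := by linarith
  have hY0 : 0 < Y := by linarith
  have hex : ∃ i : ℕ, 1 ≤ i ∧ M * X ≤ 24 * 2 ^ i * Y := by
    refine ⟨n + 1, by omega, ?_⟩
    have h1 : M * X ≤ 4 * 2 ^ n * Y := by gcongr
    have h2 : (4 : ℝ) * 2 ^ n * Y ≤ 24 * 2 ^ (n + 1) * Y := by
      have : (0 : ℝ) ≤ 2 ^ n * Y := by positivity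
      rw [pow_succ]; nlinarith
    linarith
  set i₀ := Nat.find hex with hi₀
  obtain ⟨h1, h2⟩ := Nat.find_spec hex
  rw [← hi₀] at h1 h2
  have hmin : ∀ j, j < i₀ → ¬ (1 ≤ j ∧ M * X ≤ 24 * 2 ^ j * Y) := fun j hj => Nat.find_min hex hj
  have hle : i₀ ≤ n + 1 := by
    by_contra hlt
    apply hmin (n + 1) (by omega)
    refine ⟨by omega, ?_⟩
    have h1 : M * X ≤ 4 * 2 ^ n * Y := by gcongr
    have h2 : (4 : ℝ) * 2 ^ n * Y ≤ 24 * 2 ^ (n + 1) * Y := by
      have : (0 : ℝ) ≤ 2 ^ n * Y := by positivity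
      rw [pow_succ]; nlinarith
    linarith
  have hMX : 0 < M * X := by positivity
  set β : ℝ := (2 : ℝ) ^ α with hβ
  have hβ2 : β ≤ 2 := by
    calc (2 : ℝ) ^ α ≤ 2 ^ (1 : ℝ) :=
          Real.rpow_le_rpow_of_exponent_le (by norm_num) hα1.le
      _ = 2 := Real.rpow_one 2
  have hβ0 : 0 < β := by positivity
  have hβpow : ((2 : ℝ) ^ i₀) ^ α = β ^ i₀ := by
    rw [hβ, ← Real.rpow_natCast 2 i₀, ← Real.rpow_mul (by norm_num), ← Real.rpow_natCast,
      ← Real.rpow_mul (by norm_num)]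
    congr 1; ring
  have h3 : Y ^ (-α) ≤ 24 * β ^ i₀ * (M * X) ^ (-α) := by
    have h4 : M * X / (24 * 2 ^ i₀) ≤ Y := by
      rw [div_le_iff₀ (by positivity)]; linarith
    calc Y ^ (-α) ≤ (M * X / (24 * 2 ^ i₀)) ^ (-α) :=
          Real.rpow_le_rpow_of_nonpos (by positivity) h4 (by linarith)
      _ = (24 * 2 ^ i₀) ^ α * (M * X) ^ (-α) := by
          rw [Real.div_rpow hMX.le (by positivity),
            Real.rpow_neg (by positivity : (0:ℝ) ≤ 24 * 2 ^ i₀)]
          field_simp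
      _ = 24 ^ α * β ^ i₀ * (M * X) ^ (-α) := by
          rw [Real.mul_rpow (by norm_num) (by positivity), hβpow]
      _ ≤ 24 * β ^ i₀ * (M * X) ^ (-α) := by
          gcongr
          calc (24 : ℝ) ^ α ≤ 24 ^ (1 : ℝ) :=
                Real.rpow_le_rpow_of_exponent_le (by norm_num) hα1.le
            _ = 24 := Real.rpow_one 24
  have hterm : ∀ i ∈ Finset.Icc 1 n, (0 : ℝ) ≤ β ^ i * (if bad i then 1 else 0) := by
    intro i _
    split_ifs <;> positivity
  have hP : 0 < (M * X) ^ (-α) := by positivity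
  rcases Nat.lt_or_ge i₀ 2 with h5 | h5
  · have hi1 : i₀ = 1 := by omega
    rw [hi1, pow_one] at h3
    have h6 := Finset.sum_nonneg hterm
    calc Y ^ (-α) ≤ 24 * β * (M * X) ^ (-α) := h3
      _ ≤ 24 * 2 * (M * X) ^ (-α) := by gcongr
      _ = 48 * (M * X) ^ (-α) * 1 := by ring
      _ ≤ _ := by gcongr; linarith
  · obtain ⟨j, hj⟩ : ∃ j, i₀ = j + 1 := ⟨i₀ - 1, by omega⟩
    rw [hj] at h3 hle h5 hmin
    have hjmem : j ∈ Finset.Icc 1 n := Finset.mem_Icc.2 ⟨by omega, by omega⟩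
    have hbad : bad j := by
      by_contra hb
      exact hmin j (by omega) ⟨by omega, h j hjmem hb⟩
    have h6 : β ^ j ≤ ∑ i ∈ Finset.Icc 1 n, β ^ i * (if bad i then 1 else 0) := by
      have := Finset.single_le_sum hterm hjmem
      simpa [hbad] using this
    calc Y ^ (-α) ≤ 24 * β ^ (j + 1) * (M * X) ^ (-α) := h3
      _ = 24 * (M * X) ^ (-α) * (β ^ j * β) := by ring
      _ ≤ 24 * (M * X) ^ (-α) * (β ^ j * 2) := by gcongr
      _ = 48 * (M * X) ^ (-α) * β ^ j := by ring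
      _ ≤ _ := by gcongr; linarith

/-- The constant of the scale step. -/
noncomputable def stepC (α : ℝ) : ℝ :=
  48 + 48 * (24 * 240 * 3 / (1 - 2 ^ (-α)) / (1 - 2 ^ α / 2))

lemma two_rpow_half_lt {α : ℝ} (hα1 : α < 1) : (2 : ℝ) ^ α / 2 < 1 := by
  rw [div_lt_one (by norm_num)]
  calc (2 : ℝ) ^ α < 2 ^ (1 : ℝ) := Real.rpow_lt_rpow_of_exponent_lt (by norm_num) hα1
    _ = 2 := Real.rpow_one 2

lemma one_le_stepC {α : ℝ} (hα0 : 0 < α) (hα1 : α < 1) : 1 ≤ stepC α := by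
  have h1 := rpow_neg_two_lt_one hα0
  have h2 := two_rpow_half_lt hα1
  have h3 : 0 < 1 - (2 : ℝ) ^ (-α) := by linarith
  have h4 : 0 < 1 - (2 : ℝ) ^ α / 2 := by linarith
  have h5 : 0 ≤ 48 * (24 * 240 * 3 / (1 - (2 : ℝ) ^ (-α)) / (1 - 2 ^ α / 2)) := by positivity
  unfold stepC
  linarith

/-- The scale step over one interval of times. -/
lemma interval_step {α : ℝ} (hα0 : 0 < α) (hα1 : α < 1) (M L t₁ : ℕ) (hM : 2 ≤ M)
    (S : ℕ → Finset ℕ) (Y : ℕ → ℕ) (hne : ∀ t, (S t).Nonempty)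
    (hmono : ∀ t t', t ≤ t' → t' ≤ t + 2 * L →
      S t' ⊆ (S t).biUnion (fun k => {k, k + 1, k + 2}))
    (hY : ∀ t, (S t).card ≤ Y t) (B : ℕ → ℕ → ℕ → Prop)
    (hgood : ∀ i, 1 ≤ i → 2 ^ (i + 1) ≤ M → ∀ t,
      ¬ (S t).card < 2 * ((S t).filter (fun k => B i t k)).card →
        (M : ℝ) * (S t).card ≤ 24 * 2 ^ i * Y t)
    (hB : ∀ i, 1 ≤ i → 2 ^ (i + 1) ≤ M → ∀ k,
      (((Finset.Ico t₁ (t₁ + L)).filter (fun t => B i t k)).card : ℝ) ≤ 240 * L / 2 ^ i) :
    ∑ t ∈ Finset.Ico t₁ (t₁ + L), (Y t : ℝ) ^ (-α)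
      ≤ stepC α * ∑ t ∈ Finset.Ico t₁ (t₁ + 2 * L), ((M : ℝ) * (S t).card) ^ (-α) := by
  set I := Finset.Ico t₁ (t₁ + L) with hI
  set I' := Finset.Ico (t₁ + L) (t₁ + 2 * L) with hI'
  set g : ℕ → ℝ := fun t => ((M : ℝ) * (S t).card) ^ (-α) with hg
  have hM0 : (0 : ℝ) < M := by exact_mod_cast (by omega : 0 < M)
  have hS1 : ∀ t, (1 : ℝ) ≤ (S t).card := fun t => by exact_mod_cast (hne t).card_pos
  have hg0 : ∀ t, 0 ≤ g t := fun t => by
    have := hS1 t
    positivity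
  have hsplit : ∑ t ∈ Finset.Ico t₁ (t₁ + 2 * L), g t = ∑ t ∈ I, g t + ∑ t ∈ I', g t := by
    rw [hI, hI', Finset.sum_Ico_consecutive _ (by omega) (by omega)]
  rw [hsplit]
  have hA0 : 0 ≤ ∑ t ∈ I, g t := Finset.sum_nonneg fun t _ => hg0 t
  have hB0 : 0 ≤ ∑ t ∈ I', g t := Finset.sum_nonneg fun t _ => hg0 t
  have hr1 := rpow_neg_two_lt_one hα0
  have hβ1 := two_rpow_half_lt hα1
  set r : ℝ := (2 : ℝ) ^ (-α) with hr
  set β : ℝ := (2 : ℝ) ^ α with hβ
  have hβ0 : 0 < β := by positivity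
  have h3 : 0 < 1 - r := by linarith
  have h4 : 0 < 1 - β / 2 := by linarith
  rcases I.eq_empty_or_nonempty with h0 | h0
  · rw [h0]
    simp only [Finset.sum_empty, zero_add]
    exact mul_nonneg (by linarith [one_le_stepC hα0 hα1]) hB0
  obtain ⟨t₀, ht₀, hmin⟩ := Finset.exists_min_image I (fun t => (S t).card) h0
  set m := (S t₀).card with hm
  have hm1 : 1 ≤ m := (hne t₀).card_pos
  have hm0 : (0 : ℝ) < m := by exact_mod_cast hm1
  set n := Nat.log 2 M - 1 with hn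
  have hlog1 : 1 ≤ Nat.log 2 M := by
    exact Nat.log_pos (by omega) hM
  have hni : ∀ i ∈ Finset.Icc 1 n, 1 ≤ i ∧ 2 ^ (i + 1) ≤ M := by
    intro i hi
    rw [Finset.mem_Icc] at hi
    refine ⟨hi.1, ?_⟩
    calc 2 ^ (i + 1) ≤ 2 ^ (Nat.log 2 M) := Nat.pow_le_pow_right (by omega) (by omega)
      _ ≤ M := Nat.pow_log_le_self 2 (by omega)
  have hM4 : (M : ℝ) ≤ 4 * 2 ^ n := by
    have h5 : M < 2 ^ (Nat.log 2 M + 1) := Nat.lt_pow_succ_log_self (by omega) M
    have h6 : Nat.log 2 M + 1 = n + 2 := by omega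
    rw [h6] at h5
    have h7 : M ≤ 4 * 2 ^ n := by
      have : 2 ^ (n + 2) = 4 * 2 ^ n := by ring
      omega
    exact_mod_cast h7
  set bad : ℕ → ℕ → Prop :=
    fun i t => (S t).card < 2 * ((S t).filter (fun k => B i t k)).card with hbad
  -- pointwise bound
  have hpt : ∀ t ∈ I, (Y t : ℝ) ^ (-α) ≤ 48 * g t +
      48 * ∑ i ∈ Finset.Icc 1 n, β ^ i * (if bad i t then g t else 0) := by
    intro t _
    have h5 := pointwise hα0 hα1 n (M : ℝ) ((S t).card : ℝ) (Y t : ℝ)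
      (by exact_mod_cast (by omega : 1 ≤ M)) hM4 (hS1 t) (by exact_mod_cast hY t)
      (fun i => bad i t) (fun i hi hb => hgood i (hni i hi).1 (hni i hi).2 t hb)
    refine h5.trans (le_of_eq ?_)
    rw [mul_add, mul_one, Finset.mul_sum, Finset.mul_sum]
    congr 1
    apply Finset.sum_congr rfl
    intro i _
    split_ifs <;> ring
  refine (Finset.sum_le_sum hpt).trans ?_
  rw [Finset.sum_add_distrib, ← Finset.mul_sum, ← Finset.mul_sum, Finset.sum_comm]
  -- bad sums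
  have hbadsum : ∀ i ∈ Finset.Icc 1 n, ∑ t ∈ I, β ^ i * (if bad i t then g t else 0)
      ≤ (β / 2) ^ i * (24 * 240 / (1 - r) * (L * ((M : ℝ) * m) ^ (-α))) := by
    intro i hi
    have h5 := bad_sum hα0 hα1 S I (B i) (240 * L / 2 ^ i) (by positivity)
      (hB i (hni i hi).1 (hni i hi).2)
      (fun t ht t' ht' htt' => hmono t t' htt' (by
        rw [hI, Finset.mem_Ico] at ht ht'; omega)) m hm1 hmin
    have h6 : ∑ t ∈ I, β ^ i * (if bad i t then g t else 0)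
        = β ^ i * (M : ℝ) ^ (-α) * ∑ t ∈ I.filter
          (fun t => (S t).card < 2 * ((S t).filter (fun k => B i t k)).card),
            ((S t).card : ℝ) ^ (-α) := by
      rw [Finset.sum_filter, Finset.mul_sum]
      apply Finset.sum_congr rfl
      intro t _
      by_cases hb : bad i t
      · rw [if_pos hb, if_pos hb, hg]
        simp only
        rw [Real.mul_rpow hM0.le (by positivity)]
        ring
      · rw [if_neg hb, if_neg hb]; ring
    rw [h6]
    calc β ^ i * (M : ℝ) ^ (-α) * _ ≤ β ^ i * (M : ℝ) ^ (-α) *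
          (24 * (240 * L / 2 ^ i) / (1 - 2 ^ (-α)) * (m : ℝ) ^ (-α)) := by gcongr
      _ = _ := by
        rw [Real.mul_rpow hM0.le hm0.le, div_pow, ← hr]
        ring
  have hsum2 : ∑ i ∈ Finset.Icc 1 n, ∑ t ∈ I, β ^ i * (if bad i t then g t else 0)
      ≤ 1 / (1 - β / 2) * (24 * 240 / (1 - r) * (L * ((M : ℝ) * m) ^ (-α))) := by
    refine (Finset.sum_le_sum hbadsum).trans ?_
    rw [← Finset.sum_mul]
    have h5 : ∑ i ∈ Finset.Icc 1 n, (β / 2) ^ i ≤ 1 / (1 - β / 2) := by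
      have h6 : Finset.Icc 1 n = Finset.Ico 1 (n + 1) := by
        ext i; simp only [Finset.mem_Icc, Finset.mem_Ico]; omega
      rw [h6]
      have h7 := geom_sum_Ico_le_of_lt_one (m := 1) (n := n + 1) (by positivity : 0 ≤ β / 2) hβ1
      refine h7.trans ?_
      rw [pow_one]
      gcongr
    gcongr
  -- the next interval
  have hnext : (L : ℝ) * ((M : ℝ) * m) ^ (-α) ≤ 3 * ∑ t ∈ I', g t := by
    have h5 : ∀ t ∈ I', ((M : ℝ) * m) ^ (-α) / 3 ≤ g t := by
      intro t ht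
      rw [hI', Finset.mem_Ico] at ht
      have ht₀' := ht₀
      rw [hI, Finset.mem_Ico] at ht₀'
      have h6 : (S t).card ≤ 3 * m :=
        (Finset.card_le_card (hmono t₀ t (by omega) (by omega))).trans (card_biUnion_three_le _)
      have h7 : ((S t).card : ℝ) ≤ 3 * m := by exact_mod_cast h6
      have h8 : (M : ℝ) * (S t).card ≤ 3 * (M * m) := by
        calc (M : ℝ) * (S t).card ≤ M * (3 * m) := by gcongr
          _ = _ := by ring
      have h9 := hS1 t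
      calc ((M : ℝ) * m) ^ (-α) / 3 ≤ (3 : ℝ) ^ (-α) * ((M : ℝ) * m) ^ (-α) := by
            rw [div_eq_inv_mul]
            gcongr
            calc (3 : ℝ)⁻¹ = 3 ^ (-1 : ℝ) := by rw [Real.rpow_neg_one]
              _ ≤ 3 ^ (-α) := Real.rpow_le_rpow_of_exponent_le (by norm_num) (by linarith)
        _ = (3 * (M * m)) ^ (-α) :=
            (Real.mul_rpow (x := 3) (y := (M : ℝ) * m) (by norm_num) (by positivity)).symm
        _ ≤ g t := Real.rpow_le_rpow_of_nonpos (by positivity) h8 (by linarith)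
    have h6 := Finset.card_nsmul_le_sum I' g _ h5
    have h7 : I'.card = L := by rw [hI', Nat.card_Ico]; omega
    rw [h7, nsmul_eq_mul] at h6
    linarith
  have hfin : ∑ i ∈ Finset.Icc 1 n, ∑ t ∈ I, β ^ i * (if bad i t then g t else 0)
      ≤ (24 * 240 * 3 / (1 - r) / (1 - β / 2)) * ∑ t ∈ I', g t := by
    refine hsum2.trans ?_
    calc 1 / (1 - β / 2) * (24 * 240 / (1 - r) * (L * ((M : ℝ) * m) ^ (-α)))
        ≤ 1 / (1 - β / 2) * (24 * 240 / (1 - r) * (3 * ∑ t ∈ I', g t)) := by gcongr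
      _ = _ := by ring
  have hKpos : 0 ≤ 24 * 240 * 3 / (1 - r) / (1 - β / 2) := by positivity
  unfold stepC
  rw [← hr, ← hβ]
  nlinarith [mul_nonneg hKpos hA0]

end analysis

end SST
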