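import Pool.Agent.Subspace.AvLocal
import Pool.Agent.Subspace.AvMass
import Pool.Agent.Subspace.AvStepAux

/-!
# Multi-scale argument: the scale step
-/

namespace SST

open Pool.Agent.DigitPowers

lemma pow_le_pow_of_logb {p q : ℕ} (hp : 2 ≤ p) (hq : 2 ≤ q) {n m : ℕ}
    (h : Real.logb q p * n ≤ m) : p ^ n ≤ q ^ m := by
  have hq1 : (1 : ℝ) < q := by exact_mod_cast (by omega : 1 < q)
  have hp0 : (0 : ℝ) < p := by exact_mod_cast (by omega : 0 < p)
  have h1 : (p : ℝ) ^ n = (q : ℝ) ^ (Real.logb q p * n) := by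
    rw [Real.rpow_mul (by linarith), Real.rpow_logb (by linarith) hq1.ne' hp0, Real.rpow_natCast]
  have h2 : (p : ℝ) ^ n ≤ (q : ℝ) ^ m := by
    rw [h1, ← Real.rpow_natCast (q : ℝ) m]
    exact Real.rpow_le_rpow_of_exponent_le hq1.le h
  exact_mod_cast h2

/-- Summing the bounds over consecutive intervals. -/
lemma sum_blocks (f g : ℕ → ℝ) (C : ℝ) (L : ℕ)
    (h : ∀ t₁, ∑ t ∈ Finset.Ico t₁ (t₁ + L), f t
      ≤ C * ∑ t ∈ Finset.Ico t₁ (t₁ + 2 * L), g t) (n : ℕ) :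
    ∑ t ∈ Finset.range (n * L), f t
      ≤ C * (∑ t ∈ Finset.range (n * L), g t + ∑ t ∈ Finset.range ((n + 1) * L), g t)
        - C * ∑ t ∈ Finset.range L, g t := by
  induction n with
  | zero => simp
  | succ n ih =>
    have h1 := h (n * L)
    have e1 : n * L + L = (n + 1) * L := by ring
    have e2 : n * L + 2 * L = (n + 1 + 1) * L := by ring
    rw [e1, e2] at h1
    have s1 : ∀ φ : ℕ → ℝ, ∑ t ∈ Finset.range ((n + 1) * L), φ t
        = ∑ t ∈ Finset.range (n * L), φ t + ∑ t ∈ Finset.Ico (n * L) ((n + 1) * L), φ t :=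
      fun φ => (Finset.sum_range_add_sum_Ico φ (by nlinarith)).symm
    have s2 : ∑ t ∈ Finset.range ((n + 1 + 1) * L), g t
        = ∑ t ∈ Finset.range (n * L), g t + ∑ t ∈ Finset.Ico (n * L) ((n + 1 + 1) * L), g t :=
      (Finset.sum_range_add_sum_Ico g (by nlinarith)).symm
    rw [s1 f, s2]
    linarith

theorem scale_step {p q : ℕ} (hp : 2 ≤ p) (hq : 2 ≤ q) (hpq : Nat.Coprime p q) {α : ℝ}
    (hα0 : 0 < α) (hα1 : α < 1) : ∃ C₁ : ℝ, 1 ≤ C₁ ∧ ∀ M : ℕ, 2 ≤ M → ∃ T₀ : ℕ, 1 ≤ T₀ ∧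
      ∀ T' : ℕ, T₀ ≤ T' → ∀ (J L : ℕ) (x : ℤ), x ≠ 0 → (M * T' : ℝ) ≤ Real.logb q p * L →
      (p : ℤ) ^ L ∣ x → (q : ℤ) ^ (5 * M * T') ∣ x →
      pot p q T' α x J ≤ C₁ * pot p q (M * T') α x (J + 2 * L) := by
  classical
  have hC1 := one_le_stepC hα0 hα1
  refine ⟨2 * stepC α, by linarith, ?_⟩
  intro M hM
  obtain ⟨Ta, hTa⟩ := local_lemma hp hq hpq M hM
  obtain ⟨Tb, hTb⟩ := mass_bound hp hq hpq M hM
  set θ := Real.logb q p with hθ
  have hq1 : (1 : ℝ) < q := by exact_mod_cast (by omega : 1 < q)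
  have hp1 : (1 : ℝ) < p := by exact_mod_cast (by omega : 1 < p)
  have hθ0 : 0 < θ := Real.logb_pos hq1 hp1
  refine ⟨max (max Ta Tb) (max 1 ⌈2 * θ⌉₊), by simp, ?_⟩
  intro T' hT' J L x hx hL hpL hq5
  have hT'a : Ta ≤ T' := le_trans (by simp) hT'
  have hT'b : Tb ≤ T' := le_trans (by simp) hT'
  have hT'1 : 1 ≤ T' := le_trans (by simp) hT'
  have hT'θ : 2 * θ ≤ T' := by
    have h1 : ⌈2 * θ⌉₊ ≤ T' := le_trans (by simp) hT'
    exact (Nat.le_ceil _).trans (by exact_mod_cast h1)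
  have hT'0 : (0 : ℝ) < T' := by exact_mod_cast hT'1
  have hM2 : (2 : ℝ) ≤ M := by exact_mod_cast hM
  set T : ℝ := (M : ℝ) * T' with hT
  have hT0 : 0 < T := by positivity
  have hTcast : ((M * T' : ℕ) : ℝ) = T := by push_cast; rfl
  set L₀ := ⌊T / θ⌋₊ with hL₀
  have hL₀le : (L₀ : ℝ) ≤ T / θ := Nat.floor_le (by positivity)
  have hL₀lt : T / θ < L₀ + 1 := Nat.lt_floor_add_one _
  have hL₀1 : θ * L₀ ≤ T := by
    rw [le_div_iff₀ hθ0] at hL₀le; linarith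
  have hTθ : 4 ≤ T / θ := by
    rw [le_div_iff₀ hθ0]
    nlinarith
  have hL₀2 : T / θ ≤ 2 * L₀ := by linarith
  have hL₀pos : 1 ≤ L₀ := by
    have : (0 : ℝ) < L₀ := by linarith
    exact_mod_cast this
  have hL₀L : L₀ ≤ L := by
    have h1 : θ * L₀ ≤ θ * L := hL₀1.trans hL
    exact_mod_cast le_of_mul_le_mul_left h1 hθ0
  set S : ℕ → Finset ℕ := fun t => cells q (M * T') ((p : ℤ) ^ t * x) with hS
  set Y : ℕ → ℕ := fun t => (cells q T' ((p : ℤ) ^ t * x)).card with hY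
  have hxt : ∀ t : ℕ, (p : ℤ) ^ t * x ≠ 0 := fun t => by
    have : (p : ℤ) ≠ 0 := by exact_mod_cast (by omega : p ≠ 0)
    positivity
  set sc : ℕ → ℕ := fun i => ⌊T / (θ * 2 ^ i)⌋₊ with hsc
  -- facts on the scales
  have hscale : ∀ i, 1 ≤ i → 2 ^ (i + 1) ≤ M → θ * sc i ≤ T / 2 ^ i ∧ T / 2 ^ i / 2 ≤ θ * sc i ∧
      (T' : ℝ) ≤ θ * sc i ∧ θ * sc i ≤ T / 2 := by
    intro i hi1 hi2
    have h1 : (sc i : ℝ) ≤ T / (θ * 2 ^ i) := Nat.floor_le (by positivity)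
    have h2 : T / (θ * 2 ^ i) < sc i + 1 := Nat.lt_floor_add_one _
    have h3 : θ * (T / (θ * 2 ^ i)) = T / 2 ^ i := by field_simp
    have h4 : θ * sc i ≤ T / 2 ^ i := by
      rw [← h3]; gcongr
    have h5 : T / 2 ^ i ≤ θ * sc i + θ := by
      rw [← h3]
      calc θ * (T / (θ * 2 ^ i)) ≤ θ * (sc i + 1) := by gcongr
        _ = _ := by ring
    have h6 : (2 : ℝ) * 2 ^ i ≤ M := by
      have : 2 * 2 ^ i ≤ M := by rw [pow_succ] at hi2; omega
      exact_mod_cast this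
    have h7 : 2 * (T' : ℝ) ≤ T / 2 ^ i := by
      rw [le_div_iff₀ (by positivity), hT]
      calc 2 * (T' : ℝ) * 2 ^ i = 2 * 2 ^ i * T' := by ring
        _ ≤ M * T' := by gcongr
    have h8 : T / 2 ^ i ≤ T / 2 := by
      apply div_le_div_of_nonneg_left hT0.le (by norm_num)
      calc (2 : ℝ) = 2 ^ 1 := by norm_num
        _ ≤ 2 ^ i := pow_le_pow_right₀ (by norm_num) hi1
    refine ⟨h4, by linarith, by linarith, by linarith⟩
  have hsL : ∀ i, 1 ≤ i → 2 ^ (i + 1) ≤ M → sc i ≤ L := by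
    intro i hi1 hi2
    obtain ⟨-, -, -, h4⟩ := hscale i hi1 hi2
    have h1 : θ * sc i ≤ θ * L := by linarith
    exact_mod_cast le_of_mul_le_mul_left h1 hθ0
  have hpsx : ∀ i, 1 ≤ i → 2 ^ (i + 1) ≤ M → ∀ t : ℕ, (p : ℤ) ^ sc i ∣ (p : ℤ) ^ t * x :=
    fun i hi1 hi2 t => Dvd.dvd.mul_left ((pow_dvd_pow _ (hsL i hi1 hi2)).trans hpL) _
  have hinterval : ∀ t₁, ∑ t ∈ Finset.Ico t₁ (t₁ + L₀), (Y t : ℝ) ^ (-α)
      ≤ stepC α * ∑ t ∈ Finset.Ico t₁ (t₁ + 2 * L₀), ((M : ℝ) * (S t).card) ^ (-α) := by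
    intro t₁
    refine interval_step hα0 hα1 M L₀ t₁ hM S Y (fun t => cells_nonempty hq _ (hxt t)) ?_
      (fun t => card_cells_mul_le _)
      (fun i t k => (M : ℝ) ≤ 4 * ((youngR q T' M k ((p : ℤ) ^ sc i) ((p : ℤ) ^ t * x)).card : ℝ))
      ?_ ?_
    · intro t t' htt' ht'
      have e1 : (p : ℤ) ^ t' * x = (p : ℤ) ^ (t' - t) * ((p : ℤ) ^ t * x) := by
        rw [← mul_assoc, ← pow_add]; congr 2; omega
      simp only [hS]
      rw [e1]
      apply cells_mul_subset hq (Nat.mul_pos (by omega) hT'1)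
      apply pow_le_pow_of_logb hp hq
      push_cast
      have h1 : ((t' - t : ℕ) : ℝ) ≤ 2 * L₀ := by exact_mod_cast (by omega : t' - t ≤ 2 * L₀)
      calc θ * ((t' - t : ℕ) : ℝ) ≤ θ * (2 * L₀) := by gcongr
        _ = 2 * (θ * L₀) := by ring
        _ ≤ 2 * T := by gcongr
    · intro i hi1 hi2 t hbad
      obtain ⟨h1, h2, h3, h4⟩ := hscale i hi1 hi2
      set G := (S t).filter (fun k => ¬ ((M : ℝ) ≤
        4 * ((youngR q T' M k ((p : ℤ) ^ sc i) ((p : ℤ) ^ t * x)).card : ℝ))) with hG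
      have h5 : (S t).card ≤ 2 * G.card := by
        have h6 := Finset.card_filter_add_card_filter_not (s := S t) (fun k => ((M : ℝ) ≤
          4 * ((youngR q T' M k ((p : ℤ) ^ sc i) ((p : ℤ) ^ t * x)).card : ℝ)))
        rw [← hG] at h6
        omega
      have h6 : ∀ k ∈ G, θ * sc i ≤ 2 * T' * ((hitR q T' M k ((p : ℤ) ^ t * x)).card : ℝ) := by
        intro k hk
        rw [hG, Finset.mem_filter] at hk
        have h7 := hTa T' hT'a (sc i) ((p : ℤ) ^ t * x) (hxt t) (hpsx i hi1 hi2 t)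
          (Dvd.dvd.mul_left ((pow_dvd_pow _ (by nlinarith)).trans hq5) _) h3
          (by rw [← hT]; exact h4) k hk.1
        rcases h7 with h7 | h7
        · exact h7
        · exact absurd h7 hk.2
      have h7 : (G.card : ℝ) * (θ * sc i) ≤ 2 * T' * (3 * Y t) := by
        have h8 := Finset.card_nsmul_le_sum G _ _ h6
        rw [nsmul_eq_mul, ← Finset.mul_sum] at h8
        refine h8.trans ?_
        have h9 := sum_hitR_le hq (T' := T') (M := M) (by omega) ((p : ℤ) ^ t * x) G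
        have h10 : (∑ k ∈ G, ((hitR q T' M k ((p : ℤ) ^ t * x)).card : ℝ)) ≤ 3 * Y t := by
          exact_mod_cast h9
        gcongr
      have h8 : ((S t).card : ℝ) ≤ 2 * G.card := by exact_mod_cast h5
      have h9 : ((S t).card : ℝ) * (T / 2 ^ i / 2) ≤ 12 * T' * Y t := by
        calc ((S t).card : ℝ) * (T / 2 ^ i / 2) ≤ (2 * G.card) * (θ * sc i) := by gcongr
          _ = 2 * (G.card * (θ * sc i)) := by ring
          _ ≤ 2 * (2 * T' * (3 * Y t)) := by gcongr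
          _ = _ := by ring
      have h10 : (T' : ℝ) * ((M : ℝ) * (S t).card) ≤ T' * (24 * 2 ^ i * Y t) := by
        calc (T' : ℝ) * ((M : ℝ) * (S t).card)
            = ((S t).card * (T / 2 ^ i / 2)) * (2 * 2 ^ i) := by rw [hT]; field_simp
          _ ≤ (12 * T' * Y t) * (2 * 2 ^ i) := by gcongr
          _ = _ := by ring
      exact le_of_mul_le_mul_left h10 hT'0
    · intro i hi1 hi2 k
      obtain ⟨h1, h2, h3, h4⟩ := hscale i hi1 hi2
      have hsc1 : 1 ≤ sc i := by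
        by_contra h0
        have : sc i = 0 := by omega
        rw [this] at h3
        simp at h3
        linarith
      have h5 := hTb T' hT'b (sc i) L₀ ((p : ℤ) ^ t₁ * x) (hxt t₁) hsc1
        (by rw [← hT]; exact h4) (by rw [← hT]; exact hL₀1) (hpsx i hi1 hi2 t₁)
        (Dvd.dvd.mul_left hq5 _) k
      have h6 : ∑ t ∈ Finset.Ico t₁ (t₁ + L₀),
          ((youngR q T' M k ((p : ℤ) ^ sc i) ((p : ℤ) ^ t * x)).card : ℝ) ≤ 30 * sc i * M := by
        rw [Finset.sum_Ico_eq_sum_range, Nat.add_sub_cancel_left]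
        refine le_trans (le_of_eq ?_) h5
        apply Finset.sum_congr rfl
        intro u _
        rw [← mul_assoc, ← pow_add, add_comm t₁ u]
      have h7 : (((Finset.Ico t₁ (t₁ + L₀)).filter (fun t => (M : ℝ) ≤
          4 * ((youngR q T' M k ((p : ℤ) ^ sc i) ((p : ℤ) ^ t * x)).card : ℝ))).card : ℝ) * M
          ≤ 4 * (30 * sc i * M) := by
        have h8 : ∀ t ∈ (Finset.Ico t₁ (t₁ + L₀)).filter (fun t => (M : ℝ) ≤
          4 * ((youngR q T' M k ((p : ℤ) ^ sc i) ((p : ℤ) ^ t * x)).card : ℝ)), (M : ℝ) ≤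
          4 * ((youngR q T' M k ((p : ℤ) ^ sc i) ((p : ℤ) ^ t * x)).card : ℝ) :=
          fun t ht => (Finset.mem_filter.1 ht).2
        have h9 := Finset.card_nsmul_le_sum _ _ _ h8
        rw [nsmul_eq_mul, ← Finset.mul_sum] at h9
        refine h9.trans ?_
        gcongr
        refine le_trans ?_ h6
        exact Finset.sum_le_sum_of_subset_of_nonneg (Finset.filter_subset _ _)
          (fun _ _ _ => by positivity)
      have h8 : (((Finset.Ico t₁ (t₁ + L₀)).filter (fun t => (M : ℝ) ≤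
          4 * ((youngR q T' M k ((p : ℤ) ^ sc i) ((p : ℤ) ^ t * x)).card : ℝ))).card : ℝ)
          ≤ 120 * sc i := by
        refine le_of_mul_le_mul_right (h7.trans (le_of_eq ?_)) (by linarith : (0 : ℝ) < M)
        ring
      refine h8.trans ?_
      have h9 : (sc i : ℝ) ≤ 2 * L₀ / 2 ^ i := by
        have h10 : (sc i : ℝ) ≤ T / (θ * 2 ^ i) := Nat.floor_le (by positivity)
        refine h10.trans ?_
        rw [← div_div]
        gcongr
      calc (120 : ℝ) * sc i ≤ 120 * (2 * L₀ / 2 ^ i) := by gcongr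
        _ = _ := by ring
  -- assembly
  have hblocks := sum_blocks (fun t => (Y t : ℝ) ^ (-α))
    (fun t => ((M : ℝ) * (S t).card) ^ (-α)) (stepC α) L₀ hinterval (J / L₀ + 1)
  have hf0 : ∀ t, (0 : ℝ) ≤ (Y t : ℝ) ^ (-α) := fun t => by positivity
  have hg0 : ∀ t, (0 : ℝ) ≤ ((M : ℝ) * (S t).card) ^ (-α) := fun t => by positivity
  have hJ1 : J ≤ (J / L₀ + 1) * L₀ := by
    have := Nat.lt_succ_iff.1 (Nat.lt_succ_of_lt (Nat.lt_mul_div_succ J hL₀pos))
    rw [mul_comm]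
    simpa using this
  have hJ2 : (J / L₀ + 1 + 1) * L₀ ≤ J + 2 * L := by
    have h1 : J / L₀ * L₀ ≤ J := Nat.div_mul_le_self J L₀
    calc (J / L₀ + 1 + 1) * L₀ = J / L₀ * L₀ + 2 * L₀ := by ring
      _ ≤ _ := by omega
  have hsumf : ∑ t ∈ Finset.range J, (Y t : ℝ) ^ (-α)
      ≤ ∑ t ∈ Finset.range ((J / L₀ + 1) * L₀), (Y t : ℝ) ^ (-α) :=
    Finset.sum_le_sum_of_subset_of_nonneg (Finset.range_mono hJ1) (fun t _ _ => hf0 t)
  have hsumg : ∀ K, K ≤ J + 2 * L → ∑ t ∈ Finset.range K, ((M : ℝ) * (S t).card) ^ (-α)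
      ≤ ∑ t ∈ Finset.range (J + 2 * L), ((M : ℝ) * (S t).card) ^ (-α) := fun K hK =>
    Finset.sum_le_sum_of_subset_of_nonneg (Finset.range_mono hK) (fun t _ _ => hg0 t)
  have hg1 := hsumg ((J / L₀ + 1) * L₀) (by nlinarith)
  have hg2 := hsumg ((J / L₀ + 1 + 1) * L₀) hJ2
  have hg3 : 0 ≤ ∑ t ∈ Finset.range L₀, ((M : ℝ) * (S t).card) ^ (-α) :=
    Finset.sum_nonneg fun t _ => hg0 t
  have hmain : ∑ t ∈ Finset.range J, (Y t : ℝ) ^ (-α)
      ≤ 2 * stepC α * ∑ t ∈ Finset.range (J + 2 * L), ((M : ℝ) * (S t).card) ^ (-α) := by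
    have hC0 : 0 ≤ stepC α := by linarith
    have h1 := mul_nonneg hC0 hg3
    have h2 := mul_le_mul_of_nonneg_left hg1 hC0
    have h3 := mul_le_mul_of_nonneg_left hg2 hC0
    linarith
  have hpot1 : pot p q T' α x J = (T' : ℝ) ^ (-α) * ∑ t ∈ Finset.range J, (Y t : ℝ) ^ (-α) := by
    unfold pot
    rw [Finset.mul_sum]
    apply Finset.sum_congr rfl
    intro t _
    rw [Real.mul_rpow hT'0.le (by positivity)]
  have hpot2 : pot p q (M * T') α x (J + 2 * L) = (T' : ℝ) ^ (-α) *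
      ∑ t ∈ Finset.range (J + 2 * L), ((M : ℝ) * (S t).card) ^ (-α) := by
    unfold pot
    rw [Finset.mul_sum]
    apply Finset.sum_congr rfl
    intro t _
    rw [← Real.mul_rpow hT'0.le (by positivity), hTcast, hT]
    congr 1
    ring
  rw [hpot1, hpot2]
  calc (T' : ℝ) ^ (-α) * ∑ t ∈ Finset.range J, (Y t : ℝ) ^ (-α)
      ≤ (T' : ℝ) ^ (-α) * (2 * stepC α *
        ∑ t ∈ Finset.range (J + 2 * L), ((M : ℝ) * (S t).card) ^ (-α)) := by gcongr
    _ = _ := by ring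

end SST
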