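import Mathlib

/-!
# S-adic subspace theorem for rational linear forms: common definitions
-/

namespace SST

open MvPolynomial

variable {σ τ : Type*}

/-- The l1 norm (sum of the absolute values of the coefficients) of a real polynomial. -/
noncomputable def l1 (P : MvPolynomial σ ℝ) : ℝ := ∑ s ∈ P.support, |P.coeff s|

/-- The l1 norm of an integer polynomial. -/
noncomputable def l1Z (P : MvPolynomial σ ℤ) : ℝ := l1 (map (Int.castRingHom ℝ) P)

/-- The weight of an exponent vector. -/
noncomputable def wt (w : σ → ℝ) (s : σ →₀ ℕ) : ℝ := s.sum fun i k => (k : ℝ) * w i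

/-- Every monomial of `P` has weight at least `θ`. -/
def Ord {R : Type*} [CommSemiring R] (w : σ → ℝ) (θ : ℝ) (P : MvPolynomial σ R) : Prop :=
  ∀ s ∈ P.support, θ ≤ wt w s

/-- The translate `P (X + y)`. -/
noncomputable def shift {R : Type*} [CommRing R] (y : σ → R) (P : MvPolynomial σ R) :
    MvPolynomial σ R := bind₁ (fun i => X i + C (y i)) P

/-- Linear substitution `P (M X)` in each of the `m` blocks of variables. -/
noncomputable def lsub {R κ : Type*} [CommRing R] [Fintype κ] {m : ℕ} (M : Matrix κ κ R)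
    (P : MvPolynomial (Fin m × κ) R) : MvPolynomial (Fin m × κ) R :=
  bind₁ (fun x : Fin m × κ => ∑ j, C (M x.2 j) * X (x.1, j)) P

/-- The exponent of `b` prescribed by the real exponent `a` at the scale `T`. -/
noncomputable def kexp (b : ℕ) (a T : ℝ) : ℕ := ⌊a * T / Real.log b⌋₊

/-- The block weights `1 / r h`. -/
noncomputable def bw {κ : Type*} {m : ℕ} (r : Fin m → ℕ) : Fin m × κ → ℝ := fun x => 1 / (r x.1 : ℝ)

/-! ### Basic properties of `wt` -/

@[simp] lemma wt_zero (w : σ → ℝ) : wt w 0 = 0 := by simp [wt]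

lemma wt_add (w : σ → ℝ) (s t : σ →₀ ℕ) : wt w (s + t) = wt w s + wt w t := by
  classical
  unfold wt
  rw [Finsupp.sum_add_index']
  · intro i; simp
  · intro i a b; push_cast; ring

lemma wt_single (w : σ → ℝ) (i : σ) (k : ℕ) : wt w (Finsupp.single i k) = k * w i := by
  unfold wt
  rw [Finsupp.sum_single_index]
  simp

lemma wt_eq_sum [Fintype σ] (w : σ → ℝ) (s : σ →₀ ℕ) : wt w s = ∑ i, (s i : ℝ) * w i := by
  unfold wt
  rw [Finsupp.sum_fintype]
  intro i; simp

lemma wt_nonneg {w : σ → ℝ} (hw : ∀ i, 0 ≤ w i) (s : σ →₀ ℕ) : 0 ≤ wt w s := by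
  unfold wt
  exact Finsupp.sum_nonneg fun i _ => mul_nonneg (Nat.cast_nonneg _) (hw i)

lemma wt_nsmul (w : σ → ℝ) (n : ℕ) (s : σ →₀ ℕ) : wt w (n • s) = n * wt w s := by
  induction n with
  | zero => simp
  | succ n ih => rw [succ_nsmul, wt_add, ih]; push_cast; ring

/-! ### Basic properties of `Ord` -/

section Ord

variable {R : Type*} [CommSemiring R] {w : σ → ℝ} {θ θ' : ℝ} {P Q : MvPolynomial σ R}

lemma Ord_zero : Ord w θ (0 : MvPolynomial σ R) := by intro s hs; simp at hs

lemma Ord.mono (h : Ord w θ P) (hθ : θ' ≤ θ) : Ord w θ' P := fun s hs => hθ.trans (h s hs)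

lemma Ord.add (h : Ord w θ P) (h' : Ord w θ Q) : Ord w θ (P + Q) := by
  classical
  intro s hs
  rcases Finset.mem_union.1 (support_add hs) with h1 | h1
  · exact h s h1
  · exact h' s h1

lemma Ord.mul (h : Ord w θ P) (h' : Ord w θ' Q) : Ord w (θ + θ') (P * Q) := by
  classical
  intro s hs
  obtain ⟨a, ha, b, hb, rfl⟩ := Finset.mem_add.1 (support_mul P Q hs)
  rw [wt_add]
  exact add_le_add (h a ha) (h' b hb)

lemma Ord.sum {ι : Type*} {S : Finset ι} {f : ι → MvPolynomial σ R} (h : ∀ i ∈ S, Ord w θ (f i)) :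
    Ord w θ (∑ i ∈ S, f i) := by
  classical
  induction S using Finset.induction_on with
  | empty => simpa using Ord_zero
  | insert a S ha ih =>
    rw [Finset.sum_insert ha]
    exact (h a (Finset.mem_insert_self _ _)).add
      (ih fun i hi => h i (Finset.mem_insert_of_mem hi))

lemma Ord_one : Ord w 0 (1 : MvPolynomial σ R) := by
  classical
  intro s hs
  have : s = 0 := by
    by_contra hne
    rw [mem_support_iff, coeff_one, if_neg (fun h => hne h.symm)] at hs
    exact hs rfl
  subst this; simp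

lemma Ord.prod {ι : Type*} {S : Finset ι} {f : ι → MvPolynomial σ R} {t : ι → ℝ}
    (h : ∀ i ∈ S, Ord w (t i) (f i)) : Ord w (∑ i ∈ S, t i) (∏ i ∈ S, f i) := by
  classical
  induction S using Finset.induction_on with
  | empty => simpa using Ord_one
  | insert a S ha ih =>
    rw [Finset.sum_insert ha, Finset.prod_insert ha]
    exact (h a (Finset.mem_insert_self _ _)).mul
      (ih fun i hi => h i (Finset.mem_insert_of_mem hi))

lemma Ord.pow (h : Ord w θ P) (n : ℕ) : Ord w (n * θ) (P ^ n) := by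
  induction n with
  | zero => simpa using Ord_one
  | succ n ih =>
    have := ih.mul h
    rw [pow_succ]
    convert this using 1
    push_cast; ring

lemma Ord_C (hθ : θ ≤ 0) (c : R) : Ord w θ (C c) := by
  classical
  intro s hs
  have : s = 0 := by
    by_contra hne
    rw [mem_support_iff, coeff_C, if_neg (fun h => hne h.symm)] at hs
    exact hs rfl
  subst this; simpa using hθ

lemma Ord_X (i : σ) (hθ : θ ≤ w i) : Ord w θ (X i : MvPolynomial σ R) := by
  classical
  intro s hs
  have : s = Finsupp.single i 1 := by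
    by_contra hne
    rw [mem_support_iff, coeff_X, if_neg (fun h => hne h.symm)] at hs
    exact hs rfl
  subst this
  rw [wt_single]; simpa using hθ

/-- Substituting polynomials of order at least the weight of the variable preserves the order. -/
lemma Ord.bind₁ {v : τ → ℝ} {f : σ → MvPolynomial τ R} (h : Ord w θ P)
    (hf : ∀ i, Ord v (w i) (f i)) : Ord v θ (MvPolynomial.bind₁ f P) := by
  classical
  rw [P.as_sum, map_sum]
  apply Ord.sum
  intro s hs
  rw [bind₁_monomial]
  have h1 : Ord v (∑ i ∈ s.support, (s i : ℝ) * w i) (∏ i ∈ s.support, f i ^ s i) :=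
    Ord.prod fun i _ => (hf i).pow _
  have h2 := (Ord_C (w := v) (le_refl (0 : ℝ)) (coeff s P)).mul h1
  refine h2.mono ?_
  rw [zero_add]
  exact h s hs

end Ord

/-! ### The l1 norm -/

lemma l1_eq_sum {P : MvPolynomial σ ℝ} {S : Finset (σ →₀ ℕ)} (h : P.support ⊆ S) :
    l1 P = ∑ s ∈ S, |P.coeff s| := by
  unfold l1
  apply Finset.sum_subset h
  intro s _ hs
  rw [notMem_support_iff.1 hs, abs_zero]

lemma l1_nonneg (P : MvPolynomial σ ℝ) : 0 ≤ l1 P := Finset.sum_nonneg fun _ _ => abs_nonneg _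

@[simp] lemma l1_zero : l1 (0 : MvPolynomial σ ℝ) = 0 := by simp [l1]

lemma abs_coeff_le_l1 (P : MvPolynomial σ ℝ) (s : σ →₀ ℕ) : |P.coeff s| ≤ l1 P := by
  classical
  rw [l1_eq_sum (Finset.subset_union_left (s₂ := {s}))]
  exact Finset.single_le_sum (f := fun s => |P.coeff s|) (fun _ _ => abs_nonneg _)
    (Finset.mem_union_right _ (Finset.mem_singleton_self s))

lemma l1_add (P Q : MvPolynomial σ ℝ) : l1 (P + Q) ≤ l1 P + l1 Q := by
  classical
  rw [l1_eq_sum (support_add (p := P) (q := Q)),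
    l1_eq_sum (Finset.subset_union_left (s₁ := P.support) (s₂ := Q.support)),
    l1_eq_sum (P := Q) (Finset.subset_union_right (s₁ := P.support) (s₂ := Q.support)),
    ← Finset.sum_add_distrib]
  apply Finset.sum_le_sum
  intro s _
  rw [coeff_add]
  exact abs_add_le _ _

lemma l1_sum {ι : Type*} (S : Finset ι) (f : ι → MvPolynomial σ ℝ) :
    l1 (∑ i ∈ S, f i) ≤ ∑ i ∈ S, l1 (f i) := by
  classical
  induction S using Finset.induction_on with
  | empty => simp
  | insert a S ha ih =>
    rw [Finset.sum_insert ha, Finset.sum_insert ha]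
    exact (l1_add _ _).trans (add_le_add_right ih _)

lemma l1_monomial (s : σ →₀ ℕ) (c : ℝ) : l1 (monomial s c) = |c| := by
  classical
  rw [l1_eq_sum support_monomial_subset]
  simp

lemma l1_monomial_mul (s : σ →₀ ℕ) (c : ℝ) (P : MvPolynomial σ ℝ) :
    l1 (monomial s c * P) ≤ |c| * l1 P := by
  classical
  have h : (monomial s c * P).support ⊆ P.support.image (s + ·) := by
    intro u hu
    obtain ⟨a, ha, b, hb, rfl⟩ := Finset.mem_add.1 (support_mul _ _ hu)
    have := support_monomial_subset ha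
    rw [Finset.mem_singleton] at this
    subst this
    exact Finset.mem_image_of_mem _ hb
  rw [l1_eq_sum h, Finset.sum_image (fun a _ b _ hab => add_left_cancel hab)]
  unfold l1
  rw [Finset.mul_sum]
  apply Finset.sum_le_sum
  intro u _
  rw [coeff_monomial_mul, abs_mul]

lemma l1_mul (P Q : MvPolynomial σ ℝ) : l1 (P * Q) ≤ l1 P * l1 Q := by
  classical
  conv_lhs => rw [P.as_sum, Finset.sum_mul]
  refine (l1_sum _ _).trans ?_
  conv_rhs => rw [l1, Finset.sum_mul]
  exact Finset.sum_le_sum fun s _ => l1_monomial_mul _ _ _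

lemma l1_C (c : ℝ) : l1 (C c : MvPolynomial σ ℝ) = |c| := l1_monomial 0 c

@[simp] lemma l1_one : l1 (1 : MvPolynomial σ ℝ) = 1 := by
  rw [← C_1, l1_C, abs_one]

@[simp] lemma l1_X (i : σ) : l1 (X i : MvPolynomial σ ℝ) = 1 := by
  unfold X; rw [l1_monomial, abs_one]

lemma l1_pow (P : MvPolynomial σ ℝ) (n : ℕ) : l1 (P ^ n) ≤ l1 P ^ n := by
  induction n with
  | zero => simp
  | succ n ih =>
    rw [pow_succ, pow_succ]
    exact (l1_mul _ _).trans (mul_le_mul_of_nonneg_right ih (l1_nonneg _))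

lemma l1_prod {ι : Type*} (S : Finset ι) (f : ι → MvPolynomial σ ℝ) :
    l1 (∏ i ∈ S, f i) ≤ ∏ i ∈ S, l1 (f i) := by
  classical
  induction S using Finset.induction_on with
  | empty => simp
  | insert a S ha ih =>
    rw [Finset.prod_insert ha, Finset.prod_insert ha]
    exact (l1_mul _ _).trans (mul_le_mul_of_nonneg_left ih (l1_nonneg _))

/-- Bound for the l1 norm of a substitution. -/
lemma l1_bind₁ (f : σ → MvPolynomial τ ℝ) (P : MvPolynomial σ ℝ) :
    l1 (MvPolynomial.bind₁ f P) ≤ ∑ s ∈ P.support, |P.coeff s| * ∏ i ∈ s.support, l1 (f i) ^ s i := by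
  classical
  conv_lhs => rw [P.as_sum, map_sum]
  refine (l1_sum _ _).trans (Finset.sum_le_sum fun s _ => ?_)
  rw [bind₁_monomial]
  refine (l1_mul _ _).trans ?_
  rw [l1_C]
  refine mul_le_mul_of_nonneg_left ?_ (abs_nonneg _)
  exact (l1_prod _ _).trans (Finset.prod_le_prod (fun _ _ => l1_nonneg _) fun i _ => l1_pow _ _)

lemma l1_bind₁_le (f : σ → MvPolynomial τ ℝ) (P : MvPolynomial σ ℝ) {B : ℝ}
    (hB : ∀ s ∈ P.support, ∏ i ∈ s.support, l1 (f i) ^ s i ≤ B) :
    l1 (MvPolynomial.bind₁ f P) ≤ l1 P * B := by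
  refine (l1_bind₁ f P).trans ?_
  unfold l1
  rw [Finset.sum_mul]
  exact Finset.sum_le_sum fun s hs => mul_le_mul_of_nonneg_left (hB s hs) (abs_nonneg _)

lemma one_le_l1Z {P : MvPolynomial σ ℤ} (hP : P ≠ 0) : 1 ≤ l1Z P := by
  obtain ⟨s, hs⟩ := ne_zero_iff.1 hP
  refine le_trans ?_ (abs_coeff_le_l1 _ s)
  rw [coeff_map]
  simp only [eq_intCast]
  rw [← Int.cast_abs]
  exact_mod_cast Int.one_le_abs hs

lemma l1Z_nonneg (P : MvPolynomial σ ℤ) : 0 ≤ l1Z P := l1_nonneg _

lemma abs_coeff_le_l1Z (P : MvPolynomial σ ℤ) (s : σ →₀ ℕ) :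
    |((P.coeff s : ℤ) : ℝ)| ≤ l1Z P := by
  have := abs_coeff_le_l1 (map (Int.castRingHom ℝ) P) s
  rwa [coeff_map, eq_intCast] at this

/-! ### Translation -/

section shift

variable {R S : Type*} [CommRing R] [CommRing S]

lemma shift_add (y : σ → R) (P Q : MvPolynomial σ R) :
    shift y (P + Q) = shift y P + shift y Q := by simp [shift]

lemma shift_mul (y : σ → R) (P Q : MvPolynomial σ R) :
    shift y (P * Q) = shift y P * shift y Q := by simp [shift]

lemma shift_shift (y z : σ → R) (P : MvPolynomial σ R) :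
    shift y (shift z P) = shift (fun i => y i + z i) P := by
  unfold shift
  rw [bind₁_bind₁]
  congr 1
  congr 1
  funext i
  simp only [map_add, bind₁_X_right, bind₁_C_right, add_assoc]

lemma shift_zero (P : MvPolynomial σ R) : shift (fun _ => 0) P = P := by
  unfold shift
  simp

lemma map_shift (f : R →+* S) (y : σ → R) (P : MvPolynomial σ R) :
    map f (shift y P) = shift (fun i => f (y i)) (map f P) := by
  unfold shift
  rw [map_bind₁]
  congr 1
  congr 1
  funext i
  simp

lemma shift_ne_zero [IsDomain R] {y : σ → R} {P : MvPolynomial σ R} (hP : P ≠ 0) :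
    shift y P ≠ 0 := by
  intro h
  apply hP
  have h1 := shift_shift (fun i => - y i) y P
  rw [h] at h1
  have h2 : (fun i => - y i + y i) = fun _ : σ => (0 : R) := by funext i; ring
  rw [h2, shift_zero] at h1
  rw [← h1]; simp [shift]

end shift

end SST
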