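import Pool.Agent.Subspace.Basic

/-!
# Counting monomials: Chebyshev's inequality on products of simplices
-/

namespace SST

/-- Exponents of the multihomogeneous monomials of degree `r h` in the `h`-th block. -/
noncomputable def mons (κ : Type) [Fintype κ] [DecidableEq κ] {m : ℕ} (r : Fin m → ℕ) :
    Finset (Fin m → κ → ℕ) :=
  Fintype.piFinset fun h => Finset.piAntidiag Finset.univ (r h)

/-- The sum of a coordinate over the simplex does not depend on the coordinate. -/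
lemma sum_coord_eq {κ : Type} [Fintype κ] [DecidableEq κ] (n : ℕ) (i j : κ) :
    ∑ s ∈ Finset.piAntidiag (Finset.univ : Finset κ) n, (s i : ℝ)
      = ∑ s ∈ Finset.piAntidiag (Finset.univ : Finset κ) n, (s j : ℝ) := by
  refine Finset.sum_nbij' (fun s => s ∘ Equiv.swap i j) (fun s => s ∘ Equiv.swap i j) ?_ ?_ ?_ ?_ ?_
  · intro s hs
    rw [Finset.mem_piAntidiag] at hs ⊢
    refine ⟨?_, fun _ _ => Finset.mem_univ _⟩
    rw [← hs.1]
    exact Equiv.sum_comp (Equiv.swap i j) s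
  · intro s hs
    rw [Finset.mem_piAntidiag] at hs ⊢
    refine ⟨?_, fun _ _ => Finset.mem_univ _⟩
    rw [← hs.1]
    exact Equiv.sum_comp (Equiv.swap i j) s
  · intro s _
    funext x
    simp
  · intro s _
    funext x
    simp
  · intro s _
    simp

lemma card_mul_sum_coord {κ : Type} [Fintype κ] [DecidableEq κ] (n : ℕ) (i : κ) :
    (Fintype.card κ : ℝ) * ∑ s ∈ Finset.piAntidiag (Finset.univ : Finset κ) n, (s i : ℝ)
      = n * (Finset.piAntidiag (Finset.univ : Finset κ) n).card := by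
  have h1 : ∑ j : κ, ∑ s ∈ Finset.piAntidiag (Finset.univ : Finset κ) n, (s j : ℝ)
      = n * (Finset.piAntidiag (Finset.univ : Finset κ) n).card := by
    rw [Finset.sum_comm]
    rw [mul_comm, ← nsmul_eq_mul, ← Finset.sum_const]
    apply Finset.sum_congr rfl
    intro s hs
    rw [Finset.mem_piAntidiag] at hs
    rw [← hs.1]
    push_cast
    rfl
  rw [← h1, Finset.sum_congr rfl (fun j _ => sum_coord_eq n j i), Finset.sum_const,
    Finset.card_univ, nsmul_eq_mul]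

/-- The centred variable. -/
noncomputable def psi {κ : Type} [Fintype κ] (φ : κ → ℝ) (n : ℕ) (s : κ → ℕ) : ℝ :=
  (∑ i, φ i * s i) / (n : ℝ) - (∑ i, φ i) / Fintype.card κ

lemma sum_psi {κ : Type} [Fintype κ] [DecidableEq κ] [Nonempty κ] (φ : κ → ℝ) {n : ℕ}
    (hn : 1 ≤ n) : ∑ s ∈ Finset.piAntidiag (Finset.univ : Finset κ) n, psi φ n s = 0 := by
  unfold psi
  rw [Finset.sum_sub_distrib, ← Finset.sum_div, Finset.sum_comm, Finset.sum_const, nsmul_eq_mul]
  have hc : (Fintype.card κ : ℝ) ≠ 0 := Nat.cast_ne_zero.2 Fintype.card_ne_zero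
  have hn' : (n : ℝ) ≠ 0 := Nat.cast_ne_zero.2 (by omega)
  have h1 : ∀ i : κ, ∑ s ∈ Finset.piAntidiag (Finset.univ : Finset κ) n, φ i * (s i : ℝ)
      = φ i * (n * (Finset.piAntidiag (Finset.univ : Finset κ) n).card / Fintype.card κ) := by
    intro i
    rw [← Finset.mul_sum, ← card_mul_sum_coord n i, mul_div_cancel_left₀ _ hc]
  rw [Finset.sum_congr rfl (fun i _ => h1 i), ← Finset.sum_mul]
  field_simp
  ring

lemma abs_psi_le {κ : Type} [Fintype κ] [DecidableEq κ] [Nonempty κ] (φ : κ → ℝ) {B : ℝ}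
    (hφ : ∀ i, |φ i| ≤ B) {n : ℕ} (hn : 1 ≤ n) (s : κ → ℕ)
    (hs : s ∈ Finset.piAntidiag (Finset.univ : Finset κ) n) : |psi φ n s| ≤ 2 * B := by
  have hc : (0 : ℝ) < Fintype.card κ := Nat.cast_pos.2 Fintype.card_pos
  have hn' : (0 : ℝ) < n := Nat.cast_pos.2 (by omega)
  rw [Finset.mem_piAntidiag] at hs
  unfold psi
  have h1 : |(∑ i, φ i * s i) / (n : ℝ)| ≤ B := by
    rw [abs_div, abs_of_pos hn', div_le_iff₀ hn']
    calc |∑ i, φ i * (s i : ℝ)| ≤ ∑ i, |φ i * (s i : ℝ)| := Finset.abs_sum_le_sum_abs _ _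
      _ ≤ ∑ i, B * (s i : ℝ) := by
          apply Finset.sum_le_sum
          intro i _
          rw [abs_mul, abs_of_nonneg (Nat.cast_nonneg (s i) : (0 : ℝ) ≤ s i)]
          exact mul_le_mul_of_nonneg_right (hφ i) (Nat.cast_nonneg _)
      _ = B * n := by
          rw [← Finset.mul_sum, ← hs.1]
          push_cast
          rfl
  have h2 : |(∑ i, φ i) / (Fintype.card κ : ℝ)| ≤ B := by
    rw [abs_div, abs_of_pos hc, div_le_iff₀ hc]
    calc |∑ i, φ i| ≤ ∑ i, |φ i| := Finset.abs_sum_le_sum_abs _ _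
      _ ≤ ∑ _i : κ, B := Finset.sum_le_sum fun i _ => hφ i
      _ = B * Fintype.card κ := by
          rw [Finset.sum_const, Finset.card_univ, nsmul_eq_mul, mul_comm]
  calc |(∑ i, φ i * (s i : ℝ)) / (n : ℝ) - (∑ i, φ i) / Fintype.card κ|
      ≤ |(∑ i, φ i * (s i : ℝ)) / (n : ℝ)| + |(∑ i, φ i) / (Fintype.card κ : ℝ)| := abs_sub _ _
    _ ≤ 2 * B := by linarith

/-- Cross terms vanish. -/
lemma cross_zero {κ : Type} [Fintype κ] [DecidableEq κ] [Nonempty κ] {m : ℕ} (r : Fin m → ℕ)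
    (hr : ∀ h, 1 ≤ r h) (φ : κ → ℝ) (h₁ h₂ : Fin m) (hne : h₁ ≠ h₂) :
    ∑ s ∈ mons κ r, psi φ (r h₁) (s h₁) * psi φ (r h₂) (s h₂) = 0 := by
  let f : (h : Fin m) → (κ → ℕ) → ℝ := fun h t =>
    if h = h₁ then psi φ (r h) t else if h = h₂ then psi φ (r h) t else 1
  have h1 : ∀ s ∈ mons κ r, psi φ (r h₁) (s h₁) * psi φ (r h₂) (s h₂) = ∏ h, f h (s h) := by
    intro s _
    rw [Fintype.prod_eq_mul h₁ h₂ hne]
    · simp [f, hne.symm]
    · intro x hx
      simp [f, hx.1, hx.2]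
  rw [Finset.sum_congr rfl h1]
  unfold mons
  rw [← Finset.prod_univ_sum]
  apply Finset.prod_eq_zero (Finset.mem_univ h₁)
  simp only [f, if_true]
  exact sum_psi φ (hr h₁)

theorem count_bad {κ : Type} [Fintype κ] [DecidableEq κ] [Nonempty κ] {m : ℕ} (r : Fin m → ℕ)
    (hr : ∀ h, 1 ≤ r h) (φ : κ → ℝ) {B : ℝ} (hφ : ∀ i, |φ i| ≤ B) {η : ℝ} (hη : 0 < η) :
    (((mons κ r).filter fun s => m * η ≤
        |∑ h, (∑ i, φ i * s h i) / (r h : ℝ) - m * ((∑ i, φ i) / Fintype.card κ)|).card : ℝ)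
      * (m * η) ^ 2 ≤ m * (2 * B) ^ 2 * (mons κ r).card := by
  have hpsi : ∀ s : Fin m → κ → ℕ,
      ∑ h, (∑ i, φ i * s h i) / (r h : ℝ) - m * ((∑ i, φ i) / Fintype.card κ)
        = ∑ h, psi φ (r h) (s h) := by
    intro s
    unfold psi
    rw [Finset.sum_sub_distrib, Finset.sum_const, Finset.card_univ, Fintype.card_fin,
      nsmul_eq_mul]
  have hB : 0 ≤ B := (abs_nonneg _).trans (hφ (Classical.arbitrary κ))
  have hmη : 0 ≤ (m : ℝ) * η := mul_nonneg (Nat.cast_nonneg _) hη.le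
  -- second moment
  have hmom : ∑ s ∈ mons κ r, (∑ h, psi φ (r h) (s h)) ^ 2
      ≤ m * (2 * B) ^ 2 * (mons κ r).card := by
    have h1 : ∀ s ∈ mons κ r, (∑ h, psi φ (r h) (s h)) ^ 2
        = ∑ h₁, ∑ h₂, psi φ (r h₁) (s h₁) * psi φ (r h₂) (s h₂) := by
      intro s _
      rw [sq, Finset.sum_mul_sum]
    rw [Finset.sum_congr rfl h1, Finset.sum_comm]
    have h2 : ∀ h₁ ∈ (Finset.univ : Finset (Fin m)),
        ∑ s ∈ mons κ r, ∑ h₂, psi φ (r h₁) (s h₁) * psi φ (r h₂) (s h₂)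
          ≤ (2 * B) ^ 2 * (mons κ r).card := by
      intro h₁ _
      rw [Finset.sum_comm, Finset.sum_eq_single h₁]
      · calc ∑ s ∈ mons κ r, psi φ (r h₁) (s h₁) * psi φ (r h₁) (s h₁)
            ≤ ∑ _s ∈ mons κ r, (2 * B) ^ 2 := by
              apply Finset.sum_le_sum
              intro s hs
              have h3 : s h₁ ∈ Finset.piAntidiag (Finset.univ : Finset κ) (r h₁) :=
                (Fintype.mem_piFinset.1 hs) h₁
              have h4 := abs_psi_le φ hφ (hr h₁) (s h₁) h3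
              rw [← sq, ← sq_abs]
              exact pow_le_pow_left₀ (abs_nonneg _) h4 2
          _ = (2 * B) ^ 2 * (mons κ r).card := by
              rw [Finset.sum_const, nsmul_eq_mul, mul_comm]
      · intro h₂ _ hne
        exact cross_zero r hr φ h₁ h₂ hne.symm
      · intro h; exact absurd (Finset.mem_univ _) h
    refine (Finset.sum_le_sum h2).trans ?_
    rw [Finset.sum_const, Finset.card_univ, Fintype.card_fin, nsmul_eq_mul, ← mul_assoc]
  refine le_trans ?_ hmom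
  calc (((mons κ r).filter fun s => m * η ≤
        |∑ h, (∑ i, φ i * s h i) / (r h : ℝ) - m * ((∑ i, φ i) / Fintype.card κ)|).card : ℝ)
      * (m * η) ^ 2
      = ∑ _s ∈ (mons κ r).filter (fun s => m * η ≤
        |∑ h, (∑ i, φ i * s h i) / (r h : ℝ) - m * ((∑ i, φ i) / Fintype.card κ)|),
          (m * η) ^ 2 := by rw [Finset.sum_const, nsmul_eq_mul]
    _ ≤ ∑ s ∈ (mons κ r).filter (fun s => m * η ≤
        |∑ h, (∑ i, φ i * s h i) / (r h : ℝ) - m * ((∑ i, φ i) / Fintype.card κ)|),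
          (∑ h, psi φ (r h) (s h)) ^ 2 := by
        apply Finset.sum_le_sum
        intro s hs
        have h1 := (Finset.mem_filter.1 hs).2
        rw [hpsi s] at h1
        rw [← sq_abs (∑ h, psi φ (r h) (s h))]
        exact pow_le_pow_left₀ hmη h1 2
    _ ≤ ∑ s ∈ mons κ r, (∑ h, psi φ (r h) (s h)) ^ 2 :=
        Finset.sum_le_sum_of_subset_of_nonneg (Finset.filter_subset _ _)
          fun _ _ _ => sq_nonneg _

end SST
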