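import Mathlib

/-!
# Size reduction of a family of vectors attaining the successive minima (abstract form)
-/

namespace SST

namespace FlagAux

variable {d : ℕ}

section

variable (F : (Fin d → ℝ) →ₗ[ℝ] (Fin d → ℝ)) (μ : Fin d → ℝ) (C : ℝ)

include C in
lemma piv (hC : 1 ≤ C)
    (hpiv : ∀ j, ∀ t : Fin d → ℝ, (∀ i, j < i → t i = 0) → ∀ i, ∃ l, l ≤ j ∧ |F t i| ≤ C * |F t l|)
    (k : ℕ) (t : Fin d → ℝ) (ht : ∀ i : Fin d, k ≤ i.val → t i = 0) (B : ℝ) (hB : 0 ≤ B)
    (hl : ∀ l : Fin d, l.val < k → |F t l| ≤ B) (i : Fin d) : |F t i| ≤ C * B := by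
  by_cases hik : i.val < k
  · refine (hl i hik).trans ?_
    nlinarith
  · rcases Nat.eq_zero_or_pos k with hk | hk
    · subst hk
      have : t = 0 := funext fun i => ht i (Nat.zero_le _)
      subst this
      simp only [map_zero, Pi.zero_apply, abs_zero]
      positivity
    · push Not at hik
      have hkd : k - 1 < d := by have := i.isLt; omega
      obtain ⟨l, hlj, hle⟩ := hpiv ⟨k - 1, hkd⟩ t (fun i' hi' => ht i' (by
        have : k - 1 < i'.val := hi'
        omega)) i
      refine hle.trans ?_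
      have hlk : l.val < k := by
        have : l.val ≤ k - 1 := hlj
        omega
      exact mul_le_mul_of_nonneg_left (hl l hlk) (by linarith)

/-- The real projection. -/
lemma proj (hF : Function.Injective F) (hC : 1 ≤ C)
    (hpiv : ∀ j, ∀ t : Fin d → ℝ, (∀ i, j < i → t i = 0) → ∀ i, ∃ l, l ≤ j ∧ |F t i| ≤ C * |F t l|)
    (j : Fin d) : ∃ t0 : Fin d → ℝ, (∀ i, j ≤ i → t0 i = 0) ∧
      ∀ l, l < j → F (Pi.single j 1) l = F t0 l := by
  classical
  -- restriction to the coordinates below `j`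
  let R : (Fin d → ℝ) →ₗ[ℝ] (Fin d → ℝ) :=
    { toFun := fun t i => if i < j then t i else 0
      map_add' := by intro x y; funext i; by_cases h : i < j <;> simp [h]
      map_smul' := by intro c x; funext i; by_cases h : i < j <;> simp [h] }
  have hR : ∀ t i, R t i = if i < j then t i else 0 := fun _ _ => rfl
  let Φ : (Fin d → ℝ) →ₗ[ℝ] (Fin d → ℝ) :=
    { toFun := fun t i => if i < j then F (R t) i else t i
      map_add' := by intro x y; funext i; by_cases h : i < j <;> simp [h]
      map_smul' := by intro c x; funext i; by_cases h : i < j <;> simp [h] }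
  have hΦ : ∀ t i, Φ t i = if i < j then F (R t) i else t i := fun _ _ => rfl
  have hinj : Function.Injective Φ := by
    rw [← LinearMap.ker_eq_bot, LinearMap.ker_eq_bot']
    intro t ht
    have h1 : ∀ i, j ≤ i → t i = 0 := by
      intro i hi
      have := congrFun ht i
      rw [hΦ, if_neg (not_lt.2 hi)] at this
      exact this
    have hRt : R t = t := by
      funext i
      rw [hR]
      split_ifs with h
      · rfl
      · exact (h1 i (not_lt.1 h)).symm
    have h2 : ∀ i, i < j → F t i = 0 := by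
      intro i hi
      have := congrFun ht i
      rw [hΦ, if_pos hi, hRt] at this
      exact this
    have h3 : F t = 0 := by
      funext i
      have := piv F C hC hpiv j.val t (fun i' hi' => h1 i' hi') 0 le_rfl
        (fun l hl => by rw [h2 l hl]; simp) i
      simp only [mul_zero, abs_nonpos_iff] at this
      exact this
    exact hF (by rw [h3, map_zero])
  have hsurj : Function.Surjective Φ := LinearMap.injective_iff_surjective.1 hinj
  obtain ⟨t, ht⟩ := hsurj (fun l => if l < j then F (Pi.single j 1) l else 0)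
  refine ⟨R t, fun i hi => by rw [hR, if_neg (not_lt.2 hi)], fun l hl => ?_⟩
  have := congrFun ht l
  rw [hΦ, if_pos hl, if_pos hl] at this
  exact this.symm

lemma proj_bd (hF : Function.Injective F) (hμ0 : ∀ j, 0 < μ j) (hC : 1 ≤ C)
    (hcol : ∀ j l, |F (Pi.single j 1) l| ≤ μ j)
    (hpiv : ∀ j, ∀ t : Fin d → ℝ, (∀ i, j < i → t i = 0) → ∀ i, ∃ l, l ≤ j ∧ |F t i| ≤ C * |F t l|)
    (j : Fin d) : ∃ t0 : Fin d → ℝ, (∀ i, j ≤ i → t0 i = 0) ∧
      (∀ l, l < j → F (Pi.single j 1 - t0) l = 0) ∧
      (∀ l, |F (Pi.single j 1 - t0) l| ≤ (1 + C) * μ j) := by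
  obtain ⟨t0, h0, h1⟩ := proj F C hF hC hpiv j
  refine ⟨t0, h0, fun l hl => ?_, fun l => ?_⟩
  · rw [map_sub, Pi.sub_apply, h1 l hl, sub_self]
  · have h2 : |F t0 l| ≤ C * μ j :=
      piv F C hC hpiv j.val t0 (fun i hi => h0 i hi) (μ j) (hμ0 j).le
        (fun l' hl' => by rw [← h1 l' hl']; exact hcol j l') l
    rw [map_sub, Pi.sub_apply]
    calc |F (Pi.single j 1) l - F t0 l| ≤ |F (Pi.single j 1) l| + |F t0 l| := abs_sub _ _
      _ ≤ μ j + C * μ j := add_le_add (hcol j l) h2
      _ = (1 + C) * μ j := by ring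

/-- The covering property. -/
lemma cover (hF : Function.Injective F) (hμ : Monotone μ) (hμ0 : ∀ j, 0 < μ j) (hC : 1 ≤ C)
    (hcol : ∀ j l, |F (Pi.single j 1) l| ≤ μ j)
    (hpiv : ∀ j, ∀ t : Fin d → ℝ, (∀ i, j < i → t i = 0) → ∀ i, ∃ l, l ≤ j ∧ |F t i| ≤ C * |F t l|)
    (k : ℕ) : ∀ t : Fin d → ℝ, (∀ i : Fin d, k ≤ i.val → t i = 0) →
      ∃ n : Fin d → ℤ, (∀ i : Fin d, k ≤ i.val → n i = 0) ∧
        ∀ l, |F (t - fun i => (n i : ℝ)) l| ≤ (k * (1 + C)) * μ l := by
  classical
  induction k with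
  | zero =>
    intro t ht
    refine ⟨0, fun _ _ => rfl, fun l => ?_⟩
    have : t = 0 := funext fun i => ht i (Nat.zero_le _)
    subst this
    have h0 : ((0 : Fin d → ℝ) - fun i => (((0 : Fin d → ℤ) i : ℤ) : ℝ)) = 0 := by
      funext i; simp
    rw [h0]
    simp
  | succ k ih =>
    intro t ht
    by_cases hkd : k < d
    · set j : Fin d := ⟨k, hkd⟩ with hj
      obtain ⟨t0, h0, h1, h2⟩ := proj_bd F μ C hF hμ0 hC hcol hpiv j
      set s : ℝ := t j - (round (t j) : ℝ) with hs
      have hs1 : |s| ≤ 1 := by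
        have := abs_sub_round (t j)
        rw [hs]; linarith
      set t1 : Fin d → ℝ := t - Pi.single j (t j) with ht1
      have ht1' : ∀ i : Fin d, k ≤ i.val → t1 i = 0 := by
        intro i hi
        by_cases hij : i = j
        · subst hij; rw [ht1]; simp
        · have : k + 1 ≤ i.val := by
            have : i.val ≠ k := fun h => hij (Fin.ext h)
            omega
          rw [ht1]
          simp [ht i this, hij]
      obtain ⟨n', hn', hb'⟩ := ih (s • t0 + t1) (by
        intro i hi
        simp only [Pi.add_apply, Pi.smul_apply, smul_eq_mul]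
        rw [h0 i hi, ht1' i hi]; simp)
      refine ⟨n' + Pi.single j (round (t j)), ?_, ?_⟩
      · intro i hi
        have hij : i ≠ j := fun h => by
          have : i.val = k := by rw [h]
          omega
        simp [hn' i (by omega), hij]
      · intro l
        have e : (t - fun i => (((n' + Pi.single j (round (t j)) : Fin d → ℤ) i : ℤ) : ℝ)) =
            s • (Pi.single j 1 - t0) + ((s • t0 + t1) - fun i => (n' i : ℝ)) := by
          funext i
          simp only [Pi.sub_apply, Pi.add_apply, Pi.smul_apply, smul_eq_mul, ht1]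
          by_cases hij : i = j
          · subst hij
            simp only [Pi.single_eq_same]
            push_cast
            rw [hs]
            ring
          · simp only [Pi.single_eq_of_ne hij]
            push_cast
            ring
        rw [e, map_add, map_smul, Pi.add_apply, Pi.smul_apply, smul_eq_mul]
        have h3 := hb' l
        have h4 : |s * F (Pi.single j 1 - t0) l| ≤ (1 + C) * μ l := by
          by_cases hlj : l < j
          · rw [h1 l hlj, mul_zero, abs_zero]
            exact mul_nonneg (by linarith) (hμ0 l).le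
          · rw [abs_mul]
            calc |s| * |F (Pi.single j 1 - t0) l| ≤ 1 * |F (Pi.single j 1 - t0) l| :=
                  mul_le_mul_of_nonneg_right hs1 (abs_nonneg _)
              _ = |F (Pi.single j 1 - t0) l| := one_mul _
              _ ≤ (1 + C) * μ j := h2 l
              _ ≤ (1 + C) * μ l := mul_le_mul_of_nonneg_left (hμ (not_lt.1 hlj)) (by linarith)
        calc _ ≤ |s * F (Pi.single j 1 - t0) l| + |F (s • t0 + t1 - fun i => (n' i : ℝ)) l| :=
              abs_add_le _ _
          _ ≤ (1 + C) * μ l + (k * (1 + C)) * μ l := add_le_add h4 h3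
          _ = ((k + 1 : ℕ) * (1 + C)) * μ l := by push_cast; ring
    · obtain ⟨n, hn, hb⟩ := ih t (fun i hi => absurd i.isLt (by omega))
      refine ⟨n, fun i hi => hn i (by omega), fun l => (hb l).trans ?_⟩
      have : (0 : ℝ) ≤ (1 + C) * μ l := mul_nonneg (by linarith) (hμ0 l).le
      push_cast
      nlinarith

/-- Size reduction. -/
lemma reduce (hF : Function.Injective F) (hμ : Monotone μ) (hμ0 : ∀ j, 0 < μ j) (hC : 1 ≤ C)
    (hcol : ∀ j l, |F (Pi.single j 1) l| ≤ μ j)
    (hpiv : ∀ j, ∀ t : Fin d → ℝ, (∀ i, j < i → t i = 0) → ∀ i, ∃ l, l ≤ j ∧ |F t i| ≤ C * |F t l|)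
    (j : Fin d) : ∃ n : Fin d → ℤ, (∀ i, j ≤ i → n i = 0) ∧
      (∀ l, |F (Pi.single j 1 - fun i => (n i : ℝ)) l| ≤ ((d + 1) * (1 + C) * C) * μ l) ∧
      (∀ l, |F (Pi.single j 1 - fun i => (n i : ℝ)) l| ≤ ((d + 1) * (1 + C) * C) * μ j) := by
  obtain ⟨t0, h0, h1, h2⟩ := proj_bd F μ C hF hμ0 hC hcol hpiv j
  obtain ⟨n, hn, hb⟩ := cover F μ C hF hμ hμ0 hC hcol hpiv j.val t0 (fun i hi => h0 i hi)
  have hjd : (j.val : ℝ) ≤ d := by exact_mod_cast j.isLt.le
  have hj0 : (0 : ℝ) ≤ j.val := Nat.cast_nonneg _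
  have e : (Pi.single j (1 : ℝ) - fun i => (n i : ℝ)) =
      (Pi.single j 1 - t0) + (t0 - fun i => (n i : ℝ)) := by
    funext i; simp
  have hd0 : (0 : ℝ) ≤ d := Nat.cast_nonneg _
  have hK1 : (1 + C) + j.val * (1 + C) ≤ (d + 1) * (1 + C) * C := by
    have : (1 + C) + j.val * (1 + C) ≤ (d + 1) * (1 + C) := by nlinarith
    have h' : (0 : ℝ) ≤ (d + 1) * (1 + C) := by positivity
    nlinarith
  have hK2 : (1 + C) + C * (j.val * (1 + C)) ≤ (d + 1) * (1 + C) * C := by
    have h' : j.val * (1 + C) ≤ d * (1 + C) := mul_le_mul_of_nonneg_right hjd (by linarith)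
    have h'' : C * (j.val * (1 + C)) ≤ C * (d * (1 + C)) := mul_le_mul_of_nonneg_left h' (by linarith)
    nlinarith
  refine ⟨n, fun i hi => hn i hi, fun l => ?_, fun l => ?_⟩
  · rw [e, map_add, Pi.add_apply]
    have h4 : |F (Pi.single j 1 - t0) l| ≤ (1 + C) * μ l := by
      by_cases hlj : l < j
      · rw [h1 l hlj, abs_zero]
        exact mul_nonneg (by linarith) (hμ0 l).le
      · exact (h2 l).trans (mul_le_mul_of_nonneg_left (hμ (not_lt.1 hlj)) (by linarith))
    calc _ ≤ |F (Pi.single j 1 - t0) l| + |F (t0 - fun i => (n i : ℝ)) l| := abs_add_le _ _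
      _ ≤ (1 + C) * μ l + (j.val * (1 + C)) * μ l := add_le_add h4 (hb l)
      _ = ((1 + C) + j.val * (1 + C)) * μ l := by ring
      _ ≤ _ := mul_le_mul_of_nonneg_right hK1 (hμ0 l).le
  · rw [e, map_add, Pi.add_apply]
    have h5 : |F (t0 - fun i => (n i : ℝ)) l| ≤ C * ((j.val * (1 + C)) * μ j) := by
      apply piv F C hC hpiv j.val
      · intro i hi
        simp [h0 i hi, hn i hi]
      · have := (hμ0 j).le
        positivity
      · intro l' hl'
        refine (hb l').trans (mul_le_mul_of_nonneg_left (hμ ?_) (by positivity))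
        exact le_of_lt hl'
    calc _ ≤ |F (Pi.single j 1 - t0) l| + |F (t0 - fun i => (n i : ℝ)) l| := abs_add_le _ _
      _ ≤ (1 + C) * μ j + C * ((j.val * (1 + C)) * μ j) := add_le_add (h2 l) h5
      _ = ((1 + C) + C * (j.val * (1 + C))) * μ j := by ring
      _ ≤ _ := mul_le_mul_of_nonneg_right hK2 (hμ0 j).le

end

end FlagAux

end SST
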