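import Pool.Agent.Subspace.SuccMin
import Pool.Agent.Subspace.Basic
import Pool.Agent.Subspace.FlagAux

/-!
# Balanced lattice bases adapted to the span of the small points
-/

namespace SST

open Filter

namespace FlagAux

/-- A balanced family of integer vectors attaining the successive minima up to a constant. -/
theorem balanced (d : ℕ) : ∃ C : ℝ, 1 ≤ C ∧ ∀ A : Matrix (Fin d) (Fin d) ℝ, A.det ≠ 0 →
    ∃ (z : Fin d → Fin d → ℤ) (μ : Fin d → ℝ) (π : Equiv.Perm (Fin d)),
      (Matrix.of z).det ≠ 0 ∧ Monotone μ ∧ (∀ j, 0 < μ j) ∧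
      (∀ j i, |∑ l, A (π i) l * (z j l : ℝ)| ≤ C * μ j) ∧
      (∀ j i, |∑ l, A (π i) l * (z j l : ℝ)| ≤ C * μ i) ∧
      (∀ j, ∀ y : Fin d → ℤ,
        (fun l => (y l : ℚ)) ∉ Submodule.span ℚ {x : Fin d → ℚ | ∃ i, i < j ∧ x = fun l => (z i l : ℚ)} →
        ∃ i, μ j ≤ |∑ l, A i l * (y l : ℝ)|) ∧
      |A.det| ≤ C * ∏ j, μ j ∧ ∏ j, μ j ≤ C * |A.det| := by
  classical
  obtain ⟨C, hC, H⟩ := succ_minima d
  have hC0 : (0 : ℝ) ≤ C := by linarith
  have hd0 : (0 : ℝ) ≤ d := Nat.cast_nonneg _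
  have hCK : C ≤ (d + 1) * (1 + C) * C := by
    have : (1 : ℝ) ≤ (d + 1) * (1 + C) := by nlinarith
    nlinarith
  refine ⟨(d + 1) * (1 + C) * C, hC.trans hCK, ?_⟩
  intro A hA
  obtain ⟨z, μ, π, hz, hμ, hμ0, hcol, hmin, hd1, hd2, hpiv⟩ := H A hA
  set Z : Matrix (Fin d) (Fin d) ℝ := (Matrix.of z).map (Int.cast : ℤ → ℝ) with hZ
  have hZdet : Z.det ≠ 0 := by
    have : Z.det = ((Matrix.of z).det : ℝ) := by
      rw [hZ]
      exact (Int.cast_det (R := ℝ) (Matrix.of z)).symm
    rw [this]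
    exact_mod_cast hz
  set F : (Fin d → ℝ) →ₗ[ℝ] (Fin d → ℝ) :=
    (Matrix.mulVecLin (A.submatrix π id)) ∘ₗ (Matrix.mulVecLin Z.transpose) with hFdef
  have hFapp : ∀ t l, F t l = ∑ k, A (π l) k * ∑ i', t i' * (z i' k : ℝ) := by
    intro t l
    rw [hFdef]
    simp only [LinearMap.comp_apply, Matrix.mulVecLin_apply, Matrix.mulVec, dotProduct,
      Matrix.submatrix_apply, id, Matrix.transpose_apply, hZ, Matrix.map_apply, Matrix.of_apply]
    refine Finset.sum_congr rfl fun k _ => ?_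
    congr 1
    exact Finset.sum_congr rfl fun i _ => mul_comm _ _
  have hFinj : Function.Injective F := by
    rw [hFdef, LinearMap.coe_comp]
    refine Function.Injective.comp ?_ ?_
    · apply Matrix.mulVec_injective_iff_isUnit.2
      rw [Matrix.isUnit_iff_isUnit_det, Matrix.det_permute]
      refine IsUnit.mul ?_ (isUnit_iff_ne_zero.2 hA)
      rw [isUnit_iff_ne_zero]
      exact_mod_cast (Equiv.Perm.sign π).ne_zero
    · apply Matrix.mulVec_injective_iff_isUnit.2
      rw [Matrix.isUnit_iff_isUnit_det, Matrix.det_transpose]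
      exact isUnit_iff_ne_zero.2 hZdet
  have hsingle : ∀ j l, F (Pi.single j 1) l = ∑ k, A (π l) k * (z j k : ℝ) := by
    intro j l
    rw [hFapp]
    refine Finset.sum_congr rfl fun k _ => ?_
    congr 1
    simp [Pi.single_apply]
  have hcol' : ∀ j l, |F (Pi.single j 1) l| ≤ μ j := by
    intro j l
    rw [hsingle]; exact hcol j (π l)
  have hpiv' : ∀ j, ∀ t : Fin d → ℝ, (∀ i, j < i → t i = 0) → ∀ i, ∃ l, l ≤ j ∧
      |F t i| ≤ C * |F t l| := by
    intro j t ht i
    obtain ⟨l, hl, h⟩ := hpiv j t ht i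
    exact ⟨l, hl, by rw [hFapp, hFapp]; exact h⟩
  choose n hn hb1 hb2 using reduce F μ C hFinj hμ hμ0 hC hcol' hpiv'
  -- the new vectors
  let z' : Fin d → Fin d → ℤ := fun j k => z j k - ∑ i, n j i * z i k
  have hz'F : ∀ j l, ∑ k, A (π l) k * (z' j k : ℝ) = F (Pi.single j 1 - fun i => (n j i : ℝ)) l := by
    intro j l
    rw [hFapp]
    refine Finset.sum_congr rfl fun k _ => ?_
    congr 1
    simp only [z', Pi.sub_apply, sub_mul, Finset.sum_sub_distrib]
    push_cast
    simp [Pi.single_apply]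
  have hspan : ∀ i : Fin d, ∀ j : Fin d, i < j → (fun l => (z i l : ℚ)) ∈
      Submodule.span ℚ {x : Fin d → ℚ | ∃ i, i < j ∧ x = fun l => (z' i l : ℚ)} := by
    intro i
    induction i using WellFoundedLT.induction with
    | ind i ih =>
      intro j hij
      have e : (fun l => (z i l : ℚ)) = (fun l => (z' i l : ℚ)) +
          ∑ i' ∈ Finset.univ.filter (· < i), (n i i' : ℚ) • (fun l => (z i' l : ℚ)) := by
        funext l
        simp only [z', Pi.add_apply, Finset.sum_apply, Pi.smul_apply, smul_eq_mul]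
        push_cast
        have : ∑ i' ∈ Finset.univ.filter (· < i), (n i i' : ℚ) * (z i' l : ℚ) =
            ∑ i', (n i i' : ℚ) * (z i' l : ℚ) := by
          apply Finset.sum_subset (Finset.filter_subset _ _)
          intro i' _ hi'
          have : i ≤ i' := by
            by_contra hcon
            exact hi' (Finset.mem_filter.2 ⟨Finset.mem_univ _, not_le.1 hcon⟩)
          rw [hn i i' this]; simp
        rw [this]; ring
      rw [e]
      refine Submodule.add_mem _ (Submodule.subset_span ⟨i, hij, rfl⟩) ?_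
      refine Submodule.sum_mem _ fun i' hi' => Submodule.smul_mem _ _ ?_
      have hi'i : i' < i := (Finset.mem_filter.1 hi').2
      exact ih i' hi'i j (hi'i.trans hij)
  have hdet' : (Matrix.of z').det ≠ 0 := by
    have e : Matrix.of z' = (1 - Matrix.of n) * Matrix.of z := by
      ext j k
      rw [sub_mul, one_mul, Matrix.sub_apply, Matrix.mul_apply]
      rfl
    rw [e, Matrix.det_mul]
    refine mul_ne_zero ?_ hz
    rw [Matrix.det_of_isLowerTriangular]
    · rw [Finset.prod_ne_zero_iff]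
      intro i _
      simp [hn i i le_rfl]
    · intro i j hij
      have hij' : i < j := hij
      simp [hn i j hij'.le, hij'.ne]
  have hprod0 : 0 ≤ ∏ j, μ j := Finset.prod_nonneg fun j _ => (hμ0 j).le
  refine ⟨z', μ, π, hdet', hμ, hμ0, fun j i => ?_, fun j i => ?_, fun j y hy => ?_, ?_, ?_⟩
  · rw [hz'F]; exact hb2 j i
  · rw [hz'F]; exact hb1 j i
  · apply hmin j y
    intro hmem
    apply hy
    have : Submodule.span ℚ {x : Fin d → ℚ | ∃ i, i < j ∧ x = fun l => (z i l : ℚ)} ≤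
        Submodule.span ℚ {x : Fin d → ℚ | ∃ i, i < j ∧ x = fun l => (z' i l : ℚ)} := by
      rw [Submodule.span_le]
      rintro x ⟨i, hi, rfl⟩
      exact hspan i j hi
    exact this hmem
  · exact hd1.trans (mul_le_mul_of_nonneg_right hCK hprod0)
  · exact hd2.trans (mul_le_mul_of_nonneg_right hCK (abs_nonneg _))

lemma exists_lim {ι : Type*} (𝓤 : Ultrafilter ι) (f : ι → ℝ) (B : ℝ) (h : ∀ᶠ n in 𝓤, |f n| ≤ B) :
    ∃ L, Tendsto f 𝓤 (nhds L) := by
  have h1 : Set.Icc (-B) B ∈ 𝓤.map f := by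
    rw [Ultrafilter.mem_map]
    filter_upwards [h] with n hn
    exact abs_le.1 hn
  obtain ⟨L, _, hL⟩ := isCompact_Icc.ultrafilter_le_nhds' (𝓤.map f) h1
  exact ⟨L, hL⟩

lemma ae_const {ι α : Type*} [Finite α] (𝓤 : Ultrafilter ι) (f : ι → α) :
    ∃ a, ∀ᶠ n in 𝓤, f n = a := by
  obtain ⟨a, ha⟩ := (𝓤.map f).eq_pure_of_finite
  refine ⟨a, ?_⟩
  have : {a} ∈ 𝓤.map f := by rw [ha]; simp
  exact this

lemma kexp_le {b : ℕ} (hb : 2 ≤ b) {a T : ℝ} (ha : 0 ≤ a) (hT : 0 ≤ T) :
    (kexp b a T : ℝ) * Real.log b ≤ a * T := by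
  have hlog : 0 < Real.log b := Real.log_pos (by exact_mod_cast hb)
  have := Nat.floor_le (show 0 ≤ a * T / Real.log b by positivity)
  unfold kexp
  calc _ ≤ (a * T / Real.log b) * Real.log b := mul_le_mul_of_nonneg_right this hlog.le
    _ = a * T := by field_simp

lemma le_kexp {b : ℕ} (hb : 2 ≤ b) {a T : ℝ} :
    a * T - Real.log b ≤ (kexp b a T : ℝ) * Real.log b := by
  have hlog : 0 < Real.log b := Real.log_pos (by exact_mod_cast hb)
  have := (Nat.lt_floor_add_one (a * T / Real.log b)).le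
  unfold kexp
  have h2 : a * T ≤ ((⌊a * T / Real.log b⌋₊ : ℝ) + 1) * Real.log b := by
    calc a * T = (a * T / Real.log b) * Real.log b := by field_simp
      _ ≤ _ := mul_le_mul_of_nonneg_right this hlog.le
  linarith

lemma tendsto_kexp {ι : Type*} {𝓤 : Filter ι} {T : ι → ℝ} (hT : Tendsto T 𝓤 atTop) {b : ℕ}
    (hb : 2 ≤ b) {a : ℝ} (ha : 0 ≤ a) :
    Tendsto (fun n => (kexp b a (T n) : ℝ) * Real.log b / T n) 𝓤 (nhds a) := by
  have h0 : Tendsto (fun n => a - Real.log b / T n) 𝓤 (nhds (a - 0)) :=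
    tendsto_const_nhds.sub (tendsto_const_nhds.div_atTop hT)
  rw [sub_zero] at h0
  have hpos : ∀ᶠ n in 𝓤, 0 < T n := hT.eventually_gt_atTop 0
  refine tendsto_of_tendsto_of_tendsto_of_le_of_le' h0 tendsto_const_nhds ?_ ?_
  · filter_upwards [hpos] with n hn
    rw [le_div_iff₀ hn, sub_mul, div_mul_cancel₀ _ hn.ne']
    exact le_kexp hb
  · filter_upwards [hpos] with n hn
    rw [div_le_iff₀ hn]
    exact kexp_le hb ha hn.le

/-- Coefficients of a point of the span. -/
lemma mem_span_coeff {d : ℕ} (f : Fin d → Fin d → ℚ) (k : Fin d) (v : Fin d → ℚ)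
    (hv : v ∈ Submodule.span ℚ {x : Fin d → ℚ | ∃ i, i < k ∧ x = f i}) :
    ∃ t : Fin d → ℚ, (∀ j, k ≤ j → t j = 0) ∧ ∀ i, v i = ∑ j, t j * f j i := by
  classical
  induction hv using Submodule.span_induction with
  | mem x hx =>
    obtain ⟨i, hi, rfl⟩ := hx
    refine ⟨Pi.single i 1, fun j hj => ?_, fun l => ?_⟩
    · have : j ≠ i := (lt_of_lt_of_le hi hj).ne'
      simp [this]
    · simp [Pi.single_apply]
  | zero => exact ⟨0, fun _ _ => rfl, fun i => by simp⟩
  | add x y _ _ hx hy =>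
    obtain ⟨t, ht, ht'⟩ := hx
    obtain ⟨s, hs, hs'⟩ := hy
    refine ⟨t + s, fun j hj => by simp [ht j hj, hs j hj], fun i => ?_⟩
    simp only [Pi.add_apply, ht' i, hs' i, add_mul, Finset.sum_add_distrib]
  | smul c x _ hx =>
    obtain ⟨t, ht, ht'⟩ := hx
    refine ⟨c • t, fun j hj => by simp [ht j hj], fun i => ?_⟩
    simp only [Pi.smul_apply, smul_eq_mul, ht' i, Finset.mul_sum, mul_assoc]

/-- A nonzero integer vector cannot be very small in the coordinates given by `M`. -/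
lemma lower_of_int {d : ℕ} (M : Matrix (Fin d) (Fin d) ℝ) (hM : M.det ≠ 0) :
    ∃ K : ℝ, 1 ≤ K ∧ ∀ y : Fin d → ℤ, y ≠ 0 → ∃ i, 1 ≤ K * |∑ l, M i l * (y l : ℝ)| := by
  classical
  refine ⟨1 + ∑ l, ∑ i, |M⁻¹ l i|, by
    have : 0 ≤ ∑ l, ∑ i, |M⁻¹ l i| := Finset.sum_nonneg fun _ _ => Finset.sum_nonneg fun _ _ => abs_nonneg _
    linarith, ?_⟩
  intro y hy
  have hS : 0 ≤ ∑ l, ∑ i, |M⁻¹ l i| :=
    Finset.sum_nonneg fun _ _ => Finset.sum_nonneg fun _ _ => abs_nonneg _
  by_contra hcon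
  push Not at hcon
  set K := 1 + ∑ l, ∑ i, |M⁻¹ l i| with hK
  have hKpos : 0 < K := by linarith
  obtain ⟨l, hl⟩ : ∃ l, y l ≠ 0 := by
    by_contra h
    push Not at h
    exact hy (funext h)
  have h1 : (y l : ℝ) = ∑ i, M⁻¹ l i * ∑ k, M i k * (y k : ℝ) := by
    have e : M⁻¹.mulVec (M.mulVec fun k => (y k : ℝ)) = fun k => (y k : ℝ) := by
      rw [Matrix.mulVec_mulVec, Matrix.nonsing_inv_mul _ (isUnit_iff_ne_zero.2 hM),
        Matrix.one_mulVec]
    have := congrFun e l
    simp only [Matrix.mulVec, dotProduct] at this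
    exact this.symm
  have h2 : (1 : ℝ) ≤ |(y l : ℝ)| := by
    rw [← Int.cast_abs]
    exact_mod_cast Int.one_le_abs hl
  have h3 : |(y l : ℝ)| ≤ ∑ i, |M⁻¹ l i| * (1 / K) := by
    rw [h1]
    refine (Finset.abs_sum_le_sum_abs _ _).trans (Finset.sum_le_sum fun i _ => ?_)
    rw [abs_mul]
    refine mul_le_mul_of_nonneg_left ?_ (abs_nonneg _)
    rw [le_div_iff₀ hKpos, mul_comm]
    exact (hcon i).le
  have h4 : ∑ i, |M⁻¹ l i| * (1 / K) < 1 := by
    rw [← Finset.sum_mul, mul_one_div, div_lt_one hKpos]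
    have : ∑ i, |M⁻¹ l i| ≤ ∑ l, ∑ i, |M⁻¹ l i| :=
      Finset.single_le_sum (f := fun l => ∑ i, |M⁻¹ l i|)
        (fun _ _ => Finset.sum_nonneg fun _ _ => abs_nonneg _) (Finset.mem_univ l)
    linarith
  linarith

end FlagAux

open FlagAux in
theorem flag {ι : Type} (𝓤 : Ultrafilter ι) (T : ι → ℝ) (hT : Tendsto T 𝓤 atTop)
    {d : ℕ} {V : Type} [Fintype V] (M : Matrix (Fin d) (Fin d) ℚ) (hM : M.det ≠ 0)
    (b : V → ℕ) (hb : ∀ v, 2 ≤ b v) (hcop : Pairwise fun v w => (b v).Coprime (b w))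
    (a : V → Fin d → ℝ) (ha : ∀ v i, 0 ≤ a v i)
    (c : Fin d → ℝ) (hgap : ∑ i, c i < ∑ v, ∑ i, a v i)
    (x : ι → Fin d → ℤ) (hx : ∀ᶠ n in 𝓤, x n ≠ 0)
    (hxM : ∀ᶠ n in 𝓤, ∀ i, |∑ j, (M i j : ℝ) * x n j| ≤ Real.exp (c i * T n))
    (hxv : ∀ᶠ n in 𝓤, ∀ v i, ((b v : ℤ)) ^ kexp (b v) (a v i) (T n) ∣ x n i) :
    ∃ (I₀ : Finset (Fin d)) (c' : Fin d → ℝ) (δ : ℝ), 1 ≤ I₀.card ∧ I₀.card < d ∧ 0 < δ ∧
      ∑ i, c' i = ∑ v, ∑ i, a v i ∧
      ∀ η : ℝ, 0 < η → ∀ᶠ n in 𝓤, ∃ w : Fin d → Fin d → ℤ, (Matrix.of w).det ≠ 0 ∧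
        (∀ j v i, ((b v : ℤ)) ^ kexp (b v) (a v i) (T n) ∣ w j i) ∧
        (∀ j i, |∑ l, (M i l : ℝ) * w j l| ≤ Real.exp ((c' i + η) * T n)) ∧
        (∀ j : Fin d, j.val < d - I₀.card → ∀ i ∈ I₀,
          |∑ l, (M i l : ℝ) * w j l| ≤ Real.exp ((c' i - δ + η) * T n)) ∧
        ∃ t : Fin d → ℚ, (∀ j : Fin d, d - I₀.card ≤ j.val → t j = 0) ∧
          ∀ i, (x n i : ℚ) = ∑ j, t j * (w j i : ℚ) := by
  classical
  set MR : Matrix (Fin d) (Fin d) ℝ := M.map (Rat.cast : ℚ → ℝ) with hMR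
  have hMRapp : ∀ i l, MR i l = (M i l : ℝ) := fun _ _ => rfl
  have hMRdet : MR.det ≠ 0 := by
    have : MR.det = (M.det : ℝ) := by
      rw [hMR]
      exact (Rat.castHom ℝ).map_det M |>.symm
    rw [this]
    exact_mod_cast hM
  -- the moduli
  set m : ι → Fin d → ℕ := fun n i => ∏ v, (b v) ^ kexp (b v) (a v i) (T n) with hm
  have hmpos : ∀ n i, 0 < m n i := fun n i =>
    Finset.prod_pos fun v _ => pow_pos (by have := hb v; omega) _
  have hmposR : ∀ n i, (0 : ℝ) < m n i := fun n i => by exact_mod_cast hmpos n i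
  have hlogm : ∀ n i, Real.log (m n i) = ∑ v, (kexp (b v) (a v i) (T n) : ℝ) * Real.log (b v) := by
    intro n i
    simp only [hm]
    push_cast
    rw [Real.log_prod]
    · refine Finset.sum_congr rfl fun v _ => ?_
      rw [Real.log_pow]
    · intro v _
      have : (b v : ℝ) ≠ 0 := by
        have := hb v
        positivity
      positivity
  have hTpos : ∀ᶠ n in 𝓤, 1 ≤ T n := hT.eventually_ge_atTop 1
  have hlogm_lim : ∀ i, Tendsto (fun n => Real.log (m n i) / T n) 𝓤 (nhds (∑ v, a v i)) := by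
    intro i
    have : (fun n => Real.log (m n i) / T n) =
        fun n => ∑ v, (kexp (b v) (a v i) (T n) : ℝ) * Real.log (b v) / T n := by
      funext n
      rw [hlogm, Finset.sum_div]
    rw [this]
    exact tendsto_finsetSum _ fun v _ => tendsto_kexp hT (hb v) (ha v i)
  -- the matrices
  set A : ι → Matrix (Fin d) (Fin d) ℝ := fun n =>
    Matrix.diagonal (fun i => Real.exp (-(c i * T n))) * MR * Matrix.diagonal (fun i => (m n i : ℝ))
    with hA
  have hAapp : ∀ n i l, A n i l = Real.exp (-(c i * T n)) * (M i l : ℝ) * (m n l : ℝ) := by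
    intro n i l
    simp only [hA, Matrix.mul_diagonal, Matrix.diagonal_mul, hMRapp]
  have hAsum : ∀ n i (y : Fin d → ℤ), ∑ l, A n i l * (y l : ℝ) =
      Real.exp (-(c i * T n)) * ∑ l, (M i l : ℝ) * (((m n l : ℤ) * y l : ℤ) : ℝ) := by
    intro n i y
    rw [Finset.mul_sum]
    refine Finset.sum_congr rfl fun l _ => ?_
    rw [hAapp]; push_cast; ring
  have hAdet : ∀ n, (A n).det = (∏ i, Real.exp (-(c i * T n))) * MR.det * ∏ i, (m n i : ℝ) := by
    intro n
    simp only [hA, Matrix.det_mul, Matrix.det_diagonal]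
  have hAdet0 : ∀ n, (A n).det ≠ 0 := by
    intro n
    rw [hAdet]
    refine mul_ne_zero (mul_ne_zero ?_ hMRdet) ?_
    · exact Finset.prod_ne_zero_iff.2 fun i _ => (Real.exp_pos _).ne'
    · exact Finset.prod_ne_zero_iff.2 fun i _ => (hmposR n i).ne'
  have hlogdet : ∀ n, Real.log |(A n).det| =
      (∑ i, -(c i * T n)) + Real.log |MR.det| + ∑ i, Real.log (m n i) := by
    intro n
    rw [hAdet, abs_mul, abs_mul, Real.log_mul, Real.log_mul, Finset.abs_prod, Finset.abs_prod,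
      Real.log_prod, Real.log_prod]
    · simp
    · intro i _; exact abs_ne_zero.2 (hmposR n i).ne'
    · intro i _; exact abs_ne_zero.2 (Real.exp_pos _).ne'
    · exact abs_ne_zero.2 (Finset.prod_ne_zero_iff.2 fun i _ => (Real.exp_pos _).ne')
    · exact abs_ne_zero.2 hMRdet
    · exact mul_ne_zero (abs_ne_zero.2 (Finset.prod_ne_zero_iff.2 fun i _ => (Real.exp_pos _).ne'))
        (abs_ne_zero.2 hMRdet)
    · exact abs_ne_zero.2 (Finset.prod_ne_zero_iff.2 fun i _ => (hmposR n i).ne')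
  set γ : ℝ := ∑ v, ∑ i, a v i - ∑ i, c i with hγ
  have hγpos : 0 < γ := by rw [hγ]; linarith
  have hlogdet_lim : Tendsto (fun n => Real.log |(A n).det| / T n) 𝓤 (nhds γ) := by
    have h1 : Tendsto (fun n => (∑ i, -(c i)) + Real.log |MR.det| / T n +
        ∑ i, Real.log (m n i) / T n) 𝓤 (nhds ((∑ i, -(c i)) + 0 + ∑ i, ∑ v, a v i)) :=
      (tendsto_const_nhds.add (tendsto_const_nhds.div_atTop hT)).add
        (tendsto_finsetSum _ fun i _ => hlogm_lim i)
    have h2 : (∑ i, -(c i)) + 0 + ∑ i, ∑ v, a v i = γ := by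
      rw [hγ, Finset.sum_comm, Finset.sum_neg_distrib]; ring
    rw [h2] at h1
    refine h1.congr' ?_
    filter_upwards [hTpos] with n hn
    have hT0 : T n ≠ 0 := by linarith
    rw [hlogdet, add_div, add_div, Finset.sum_div, Finset.sum_div]
    congr 2
    refine Finset.sum_congr rfl fun i _ => ?_
    field_simp
  -- successive minima
  obtain ⟨C, hC, H⟩ := balanced d
  have hC0 : 0 < C := by linarith
  choose z μ π hzdet hmono hμ0 hbj hbi hminz hd1 hd2 using fun n => H (A n) (hAdet0 n)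
  obtain ⟨π₀, hπ₀⟩ := ae_const 𝓤 π
  set ℓ : ι → Fin d → ℝ := fun n j => Real.log (μ n j) / T n with hℓ
  have hprodpos : ∀ n, 0 < ∏ j, μ n j := fun n => Finset.prod_pos fun j _ => hμ0 n j
  have hlogprod : ∀ n, Real.log (∏ j, μ n j) = ∑ j, Real.log (μ n j) := fun n =>
    Real.log_prod fun j _ => (hμ0 n j).ne'
  have hsum_lim : Tendsto (fun n => ∑ j, ℓ n j) 𝓤 (nhds γ) := by
    have hlow : Tendsto (fun n => Real.log |(A n).det| / T n - Real.log C / T n) 𝓤 (nhds (γ - 0)) :=
      hlogdet_lim.sub (tendsto_const_nhds.div_atTop hT)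
    have hup : Tendsto (fun n => Real.log |(A n).det| / T n + Real.log C / T n) 𝓤 (nhds (γ + 0)) :=
      hlogdet_lim.add (tendsto_const_nhds.div_atTop hT)
    rw [sub_zero] at hlow
    rw [add_zero] at hup
    refine tendsto_of_tendsto_of_tendsto_of_le_of_le' hlow hup ?_ ?_
    · filter_upwards [hTpos] with n hn
      have hT0 : 0 < T n := by linarith
      simp only [hℓ]
      rw [← Finset.sum_div, ← hlogprod, ← sub_div]
      refine div_le_div_of_nonneg_right ?_ hT0.le
      have h1 := Real.log_le_log (abs_pos.2 (hAdet0 n)) (hd1 n)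
      rw [Real.log_mul hC0.ne' (hprodpos n).ne'] at h1
      linarith
    · filter_upwards [hTpos] with n hn
      have hT0 : 0 < T n := by linarith
      simp only [hℓ]
      rw [← Finset.sum_div, ← hlogprod, ← add_div]
      refine div_le_div_of_nonneg_right ?_ hT0.le
      have h1 := Real.log_le_log (hprodpos n) (hd2 n)
      rw [Real.log_mul hC0.ne' (abs_pos.2 (hAdet0 n)).ne'] at h1
      linarith
  -- lower bound for the minima
  obtain ⟨K, hK, hKM⟩ := lower_of_int MR hMRdet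
  have hK0 : 0 < K := by linarith
  set B₀ : ℝ := Real.log C + Real.log K + ∑ i, |c i| with hB₀
  have hB₀0 : 0 ≤ B₀ := by
    have h1 := Real.log_nonneg hC
    have h2 := Real.log_nonneg hK
    have h3 : 0 ≤ ∑ i, |c i| := Finset.sum_nonneg fun _ _ => abs_nonneg _
    rw [hB₀]; linarith
  have hlow : ∀ᶠ n in 𝓤, ∀ j, -B₀ ≤ ℓ n j := by
    filter_upwards [hTpos] with n hn j
    have hT0 : 0 < T n := by linarith
    have hmz : (fun l => (m n l : ℤ) * z n j l) ≠ 0 := by
      intro h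
      have : z n j = 0 := by
        funext l
        have := congrFun h l
        simp only [Pi.zero_apply, mul_eq_zero] at this
        rcases this with h' | h'
        · have := hmpos n l
          omega
        · exact h'
      apply hzdet n
      exact Matrix.det_eq_zero_of_row_eq_zero j fun k => congrFun this k
    obtain ⟨i, hi⟩ := hKM _ hmz
    have h1 := hbj n j ((π n).symm i)
    rw [Equiv.apply_symm_apply, hAsum, abs_mul, abs_of_pos (Real.exp_pos _)] at h1
    have h2 : Real.exp (-(c i * T n)) ≤ K * (C * μ n j) := by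
      calc Real.exp (-(c i * T n)) = Real.exp (-(c i * T n)) * 1 := (mul_one _).symm
        _ ≤ Real.exp (-(c i * T n)) * (K * |∑ l, MR i l * (((m n l : ℤ) * z n j l : ℤ) : ℝ)|) :=
            mul_le_mul_of_nonneg_left hi (Real.exp_pos _).le
        _ = K * (Real.exp (-(c i * T n)) * |∑ l, MR i l * (((m n l : ℤ) * z n j l : ℤ) : ℝ)|) := by
            ring
        _ ≤ K * (C * μ n j) := mul_le_mul_of_nonneg_left h1 hK0.le
    have h3 := Real.log_le_log (Real.exp_pos _) h2
    rw [Real.log_exp, Real.log_mul hK0.ne' (mul_pos hC0 (hμ0 n j)).ne',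
      Real.log_mul hC0.ne' (hμ0 n j).ne'] at h3
    simp only [hℓ]
    rw [le_div_iff₀ hT0]
    have h4 : c i ≤ ∑ i, |c i| := (le_abs_self _).trans
      (Finset.single_le_sum (f := fun i => |c i|) (fun _ _ => abs_nonneg _) (Finset.mem_univ i))
    have h5 := Real.log_nonneg hC
    have h6 := Real.log_nonneg hK
    have h7 : c i * T n ≤ (∑ i, |c i|) * T n := mul_le_mul_of_nonneg_right h4 hT0.le
    have h8 : (Real.log C + Real.log K) ≤ (Real.log C + Real.log K) * T n := by nlinarith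
    have h9 : -B₀ * T n = -((Real.log C + Real.log K) * T n) - (∑ i, |c i|) * T n := by
      rw [hB₀]; ring
    rw [h9]
    linarith
  have hbdd : ∀ᶠ n in 𝓤, ∀ j, |ℓ n j| ≤ γ + 1 + (d + 1) * B₀ := by
    have h1 : ∀ᶠ n in 𝓤, ∑ j, ℓ n j < γ + 1 := hsum_lim.eventually_lt_const (by linarith)
    filter_upwards [hlow, h1] with n hn1 hn2 j
    rw [abs_le]
    have hd0 : (0 : ℝ) ≤ d := Nat.cast_nonneg _
    constructor
    · have := hn1 j
      nlinarith
    · have h2 : ∑ i ∈ Finset.univ.erase j, ℓ n i ≥ ∑ i ∈ Finset.univ.erase j, -B₀ :=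
        Finset.sum_le_sum fun i _ => hn1 i
      rw [Finset.sum_const, nsmul_eq_mul] at h2
      have h3 : ((Finset.univ.erase j).card : ℝ) ≤ d := by
        have : (Finset.univ.erase j).card ≤ (Finset.univ : Finset (Fin d)).card :=
          Finset.card_le_card (Finset.erase_subset _ _)
        rw [Finset.card_univ, Fintype.card_fin] at this
        exact_mod_cast this
      have h4 := Finset.add_sum_erase Finset.univ (ℓ n) (Finset.mem_univ j)
      have h5 : ((Finset.univ.erase j).card : ℝ) * B₀ ≤ d * B₀ :=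
        mul_le_mul_of_nonneg_right h3 hB₀0
      linarith
  choose κ hκ using fun j => exists_lim 𝓤 (fun n => ℓ n j) (γ + 1 + (d + 1) * B₀)
    (hbdd.mono fun n hn => hn j)
  have hκsum : ∑ j, κ j = γ :=
    tendsto_nhds_unique (tendsto_finsetSum _ fun j _ => hκ j) hsum_lim
  have hκmono : Monotone κ := by
    intro i j hij
    refine le_of_tendsto_of_tendsto (hκ i) (hκ j) ?_
    filter_upwards [hTpos] with n hn
    exact div_le_div_of_nonneg_right (Real.log_le_log (hμ0 n i) (hmono n hij)) (by linarith)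
  -- the small point in the coordinates of the lattice
  set y : ι → Fin d → ℤ := fun n i => x n i / (m n i : ℤ) with hy
  have hyx : ∀ᶠ n in 𝓤, ∀ i, (m n i : ℤ) * y n i = x n i := by
    filter_upwards [hxv] with n hn i
    refine Int.mul_ediv_cancel' ?_
    simp only [hm]
    push_cast
    refine Finset.prod_dvd_of_coprime ?_ fun v _ => hn v i
    intro v _ w _ hvw
    exact IsCoprime.pow (Nat.isCoprime_iff_coprime.2 (hcop hvw))
  have hsmall : ∀ᶠ n in 𝓤, ∀ j, 1 < μ n j → (fun l => (y n l : ℚ)) ∈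
      Submodule.span ℚ {x : Fin d → ℚ | ∃ i, i < j ∧ x = fun l => (z n i l : ℚ)} := by
    filter_upwards [hyx, hxM] with n hn1 hn2 j hj
    by_contra hcon
    obtain ⟨i, hi⟩ := hminz n j (y n) hcon
    rw [hAsum, abs_mul, abs_of_pos (Real.exp_pos _)] at hi
    have h1 : ∑ l, (M i l : ℝ) * (((m n l : ℤ) * y n l : ℤ) : ℝ) = ∑ l, (M i l : ℝ) * x n l :=
      Finset.sum_congr rfl fun l _ => by rw [hn1 l]
    rw [h1] at hi
    have h2 : Real.exp (-(c i * T n)) * |∑ l, (M i l : ℝ) * x n l| ≤ 1 := by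
      calc _ ≤ Real.exp (-(c i * T n)) * Real.exp (c i * T n) :=
            mul_le_mul_of_nonneg_left (hn2 i) (Real.exp_pos _).le
        _ = 1 := by rw [← Real.exp_add]; simp
    linarith
  have hκ0 : ∀ j : Fin d, j.val = 0 → κ j ≤ 0 := by
    intro j hj
    refine le_of_tendsto (hκ j) ?_
    filter_upwards [hTpos, hsmall, hyx, hx] with n hn1 hn2 hn3 hn4
    refine div_nonpos_of_nonpos_of_nonneg (Real.log_nonpos (hμ0 n j).le ?_) (by linarith)
    by_contra hcon
    have h1 := hn2 j (not_le.1 hcon)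
    have h2 : {x : Fin d → ℚ | ∃ i, i < j ∧ x = fun l => (z n i l : ℚ)} = ∅ := by
      rw [Set.eq_empty_iff_forall_notMem]
      rintro x ⟨i, hi, _⟩
      have : i.val < j.val := hi
      omega
    rw [h2, Submodule.span_empty, Submodule.mem_bot] at h1
    apply hn4
    funext l
    have h3 := congrFun h1 l
    simp only [Pi.zero_apply, Int.cast_eq_zero] at h3
    rw [← hn3 l, h3]; simp
  obtain ⟨k, hk, hkmin⟩ : ∃ k, 0 < κ k ∧ ∀ j, j < k → κ j ≤ 0 := by
    by_contra hcon
    push Not at hcon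
    have : ∀ k, κ k ≤ 0 := by
      intro k
      induction k using WellFoundedLT.induction with
      | ind k ih =>
        by_contra h
        obtain ⟨j, hj, hj'⟩ := hcon k (not_le.1 h)
        exact absurd (ih j hj) (not_le.2 hj')
    have h2 : ∑ j, κ j ≤ 0 := Finset.sum_nonpos fun j _ => this j
    linarith
  have hk1 : 1 ≤ k.val := by
    by_contra h
    have := hκ0 k (by omega)
    linarith
  set k' : Fin d := ⟨k.val - 1, by have := k.isLt; omega⟩ with hk'
  have hk'lt : k' < k := by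
    show k.val - 1 < k.val
    omega
  have hle_k' : ∀ j : Fin d, j < k → j ≤ k' := by
    intro j hj
    show j.val ≤ k.val - 1
    have : j.val < k.val := hj
    omega
  set I₀ : Finset (Fin d) := (Finset.Ici k).map π₀.toEmbedding with hI₀
  have hI₀card : I₀.card = d - k.val := by
    rw [hI₀, Finset.card_map, Fin.card_Ici]
  have hmemI₀ : ∀ i, i ∈ I₀ ↔ k ≤ π₀.symm i := by
    intro i
    rw [hI₀, Finset.mem_map]
    constructor
    · rintro ⟨p, hp, rfl⟩
      simpa using hp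
    · intro h
      exact ⟨π₀.symm i, Finset.mem_Ici.2 h, by simp⟩
  have hkd : k.val < d := k.isLt
  have hdk : d - I₀.card = k.val := by rw [hI₀card]; omega
  refine ⟨I₀, fun i => c i + κ (π₀.symm i), κ k - κ k', by omega, by omega, ?_, ?_, ?_⟩
  · have := hkmin k' hk'lt
    linarith
  · rw [Finset.sum_add_distrib, Equiv.sum_comp π₀.symm κ, hκsum, hγ]; ring
  intro η hη
  have hCη : ∀ᶠ n in 𝓤, ∀ j, C * μ n j ≤ Real.exp ((κ j + η) * T n) := by
    have h1 : ∀ j, ∀ᶠ n in 𝓤, Real.log C / T n + ℓ n j < κ j + η := by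
      intro j
      have : Tendsto (fun n => Real.log C / T n + ℓ n j) 𝓤 (nhds (0 + κ j)) :=
        (tendsto_const_nhds.div_atTop hT).add (hκ j)
      exact this.eventually_lt_const (by linarith)
    filter_upwards [hTpos, Filter.eventually_all.2 h1] with n hn1 hn2 j
    have hT0 : 0 < T n := by linarith
    have h3 := hn2 j
    simp only [hℓ] at h3
    rw [← add_div, div_lt_iff₀ hT0, ← Real.log_mul hC0.ne' (hμ0 n j).ne'] at h3
    rw [← Real.exp_log (mul_pos hC0 (hμ0 n j))]
    exact Real.exp_le_exp.2 h3.le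
  have hμk : ∀ᶠ n in 𝓤, 1 < μ n k := by
    filter_upwards [hTpos, (hκ k).eventually_const_lt hk] with n hn1 hn2
    have hT0 : 0 < T n := by linarith
    have h3 : 0 < Real.log (μ n k) := by
      by_contra h
      have : Real.log (μ n k) / T n ≤ 0 := div_nonpos_of_nonpos_of_nonneg (not_lt.1 h) hT0.le
      have h' : 0 < Real.log (μ n k) / T n := hn2
      linarith
    by_contra h
    have := Real.log_nonpos (hμ0 n k).le (not_lt.1 h)
    linarith
  filter_upwards [hTpos, hπ₀, hCη, hμk, hsmall, hyx] with n hn1 hn2 hn3 hn4 hn5 hn6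
  have hT0 : 0 < T n := by linarith
  have hexp : ∀ j i, |∑ l, (M i l : ℝ) * (((m n l : ℤ) * z n j l : ℤ) : ℝ)| =
      Real.exp (c i * T n) * |∑ l, A n i l * (z n j l : ℝ)| := by
    intro j i
    rw [hAsum, abs_mul, abs_of_pos (Real.exp_pos _), ← mul_assoc, ← Real.exp_add]
    simp
  refine ⟨fun j i => (m n i : ℤ) * z n j i, ?_, ?_, ?_, ?_, ?_⟩
  · have e : (Matrix.of fun j i => (m n i : ℤ) * z n j i) =
        Matrix.of (z n) * Matrix.diagonal (fun i => (m n i : ℤ)) := by
      ext j i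
      rw [Matrix.mul_diagonal]
      simp [mul_comm]
    rw [e, Matrix.det_mul, Matrix.det_diagonal]
    refine mul_ne_zero (hzdet n) (Finset.prod_ne_zero_iff.2 fun i _ => ?_)
    have := hmpos n i
    omega
  · intro j v i
    refine Dvd.dvd.mul_right ?_ _
    simp only [hm]
    push_cast
    exact Finset.dvd_prod_of_mem (fun v => (b v : ℤ) ^ kexp (b v) (a v i) (T n)) (Finset.mem_univ v)
  · intro j i
    rw [hexp]
    have h1 := hbi n j ((π n).symm i)
    rw [Equiv.apply_symm_apply, hn2] at h1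
    calc _ ≤ Real.exp (c i * T n) * Real.exp ((κ (π₀.symm i) + η) * T n) :=
          mul_le_mul_of_nonneg_left (h1.trans (hn3 _)) (Real.exp_pos _).le
      _ = _ := by rw [← Real.exp_add]; congr 1; ring
  · intro j hj i hi
    rw [hdk] at hj
    have hjk : j < k := hj
    rw [hexp]
    have h1 := hbj n j ((π n).symm i)
    rw [Equiv.apply_symm_apply] at h1
    have h2 : C * μ n j ≤ C * μ n k' := mul_le_mul_of_nonneg_left (hmono n (hle_k' j hjk)) hC0.le
    calc _ ≤ Real.exp (c i * T n) * Real.exp ((κ k' + η) * T n) :=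
          mul_le_mul_of_nonneg_left ((h1.trans h2).trans (hn3 _)) (Real.exp_pos _).le
      _ = Real.exp (c i * T n + (κ k' + η) * T n) := by rw [← Real.exp_add]
      _ ≤ _ := by
        apply Real.exp_le_exp.2
        have h3 : κ k ≤ κ (π₀.symm i) := hκmono ((hmemI₀ i).1 hi)
        nlinarith
  · obtain ⟨t, ht1, ht2⟩ := mem_span_coeff (fun i l => (z n i l : ℚ)) k _ (hn5 k hn4)
    refine ⟨t, fun j hj => ht1 j (by rw [hdk] at hj; exact hj), fun i => ?_⟩
    rw [← hn6 i]
    push_cast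
    rw [ht2 i, Finset.mul_sum]
    refine Finset.sum_congr rfl fun j _ => ?_
    ring

end SST
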