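import Pool.Agent.Subspace.Basic

/-!
# Grid lemma

A nonzero polynomial of degree at most `r i` in each variable cannot vanish to high order at all
points of a grid.
-/

namespace SST

open MvPolynomial

/-- Univariate case. -/
lemma grid_one {A : Type*} [CommRing A] [IsDomain A] (g : Polynomial A) (hg : g ≠ 0) (r N : ℕ)
    (hdeg : g.natDegree ≤ r) (hN : 1 ≤ N) (S : Finset A) (hS : N ≤ S.card) :
    ∃ a ∈ S, ∃ k : ℕ, k * N ≤ r ∧ (Polynomial.taylor a g).coeff k ≠ 0 := by
  classical
  have hne : S.Nonempty := Finset.card_pos.1 (lt_of_lt_of_le hN hS)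
  obtain ⟨a, ha, hmin⟩ := S.exists_min_image (fun a => g.rootMultiplicity a) hne
  refine ⟨a, ha, g.rootMultiplicity a, ?_, ?_⟩
  · have h1 : ∑ b ∈ S, g.rootMultiplicity b ≤ r := by
      have h2 : ∑ b ∈ S, g.rootMultiplicity b = ∑ b ∈ S, Multiset.count b g.roots :=
        Finset.sum_congr rfl fun b _ => (Polynomial.count_roots g).symm
      rw [h2]
      have h3 : ∑ b ∈ S, Multiset.count b g.roots
          ≤ ∑ b ∈ S ∪ g.roots.toFinset, Multiset.count b g.roots :=
        Finset.sum_le_sum_of_subset Finset.subset_union_left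
      rw [Multiset.sum_count_eq_card (fun x hx =>
        Finset.mem_union_right _ (Multiset.mem_toFinset.2 hx))] at h3
      exact h3.trans ((Polynomial.card_roots' g).trans hdeg)
    calc g.rootMultiplicity a * N ≤ g.rootMultiplicity a * S.card := Nat.mul_le_mul_left _ hS
      _ = ∑ _b ∈ S, g.rootMultiplicity a := by rw [Finset.sum_const, smul_eq_mul, mul_comm]
      _ ≤ ∑ b ∈ S, g.rootMultiplicity b := Finset.sum_le_sum fun b hb => hmin b hb
      _ ≤ r := h1
  · rw [Polynomial.rootMultiplicity_eq_natTrailingDegree, ← Polynomial.taylor_apply]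
    change (Polynomial.taylor a g).trailingCoeff ≠ 0
    rw [Ne, Polynomial.trailingCoeff_eq_zero]
    intro h0
    exact hg ((Polynomial.taylor_injective a) (by rw [h0, map_zero]))

/-- Coefficients of a monomial shifted in one variable. -/
lemma coeff_shift_single_monomial {A : Type*} [CommRing A] {τ : Type} [DecidableEq τ]
    (s : τ →₀ ℕ) (c : A) (j : τ) (a : A) (K : τ →₀ ℕ) :
    coeff K (shift (Pi.single j a) (monomial s c)) =
      if s.erase j = K.erase j then c * a ^ (s j - K j) * ((s j).choose (K j)) else 0 := by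
  have h1 : shift (Pi.single j a) (monomial s c)
      = monomial (s.erase j) c * (X j + C a) ^ (s j) := by
    have hs : s = s.erase j + Finsupp.single j (s j) := (Finsupp.erase_add_single j s).symm
    conv_lhs => rw [hs]
    have h2 : (monomial (s.erase j + Finsupp.single j (s j)) c : MvPolynomial τ A)
        = monomial (s.erase j) c * X j ^ (s j) := by
      rw [X_pow_eq_monomial, monomial_mul, mul_one]
    rw [h2, shift_mul]
    congr 1
    · unfold shift
      rw [bind₁_monomial, monomial_eq, Finsupp.prod]
      congr 1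
      apply Finset.prod_congr rfl
      intro i hi
      have hij : i ≠ j := by
        rintro rfl
        simp at hi
      rw [Pi.single_eq_of_ne hij]
      simp
    · unfold shift
      simp
  rw [h1, add_pow, Finset.mul_sum, coeff_sum]
  have h3 : ∀ k ∈ Finset.range (s j + 1),
      coeff K (monomial (s.erase j) c * (X j ^ k * C a ^ (s j - k) * ((s j).choose k : MvPolynomial τ A)))
        = if s.erase j = K.erase j ∧ k = K j then c * a ^ (s j - K j) * ((s j).choose (K j)) else 0 := by
    intro k _
    have h4 : monomial (s.erase j) c * (X j ^ k * C a ^ (s j - k) * ((s j).choose k : MvPolynomial τ A))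
        = monomial (s.erase j + Finsupp.single j k) (c * a ^ (s j - k) * ((s j).choose k)) := by
      have h5 : ((s j).choose k : MvPolynomial τ A) = C (((s j).choose k : ℕ) : A) := by simp
      rw [h5, ← C_pow, X_pow_eq_monomial, mul_assoc, ← C_mul, mul_comm (monomial (Finsupp.single j k) 1),
        C_mul_monomial, monomial_mul]
      congr 1
      ring
    rw [h4, coeff_monomial]
    have h6 : (s.erase j + Finsupp.single j k = K) ↔ (s.erase j = K.erase j ∧ k = K j) := by
      constructor
      · rintro rfl
        refine ⟨?_, ?_⟩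
        · ext i
          by_cases hi : i = j
          · subst hi; simp
          · simp [Finsupp.erase_ne hi, Finsupp.single_eq_of_ne hi]
        · simp
      · rintro ⟨h7, h8⟩
        rw [h7, h8, Finsupp.erase_add_single]
    by_cases h7 : s.erase j = K.erase j ∧ k = K j
    · rw [if_pos (h6.2 h7), if_pos h7, h7.2]
    · rw [if_neg (fun h => h7 (h6.1 h)), if_neg h7]
  rw [Finset.sum_congr rfl h3]
  by_cases h8 : s.erase j = K.erase j
  · simp only [h8, true_and, if_true]
    rw [Finset.sum_ite_eq' (Finset.range (s j + 1)) (K j)]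
    split_ifs with h9
    · rfl
    · rw [Finset.mem_range, not_lt] at h9
      rw [Nat.choose_eq_zero_of_lt (by omega)]
      simp
  · simp [h8]

lemma shift_sum {A : Type*} [CommRing A] {τ : Type} {ι : Type*} (y : τ → A) (T : Finset ι)
    (f : ι → MvPolynomial τ A) : shift y (∑ i ∈ T, f i) = ∑ i ∈ T, shift y (f i) := by
  unfold shift
  rw [map_sum]

/-- Coefficients of a polynomial shifted in one variable. -/
lemma coeff_shift_single {A : Type*} [CommRing A] {τ : Type} [DecidableEq τ]
    (P : MvPolynomial τ A) (j : τ) (a : A) (K : τ →₀ ℕ) :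
    coeff K (shift (Pi.single j a) P) =
      ∑ s ∈ P.support, if s.erase j = K.erase j then
        coeff s P * a ^ (s j - K j) * ((s j).choose (K j)) else 0 := by
  conv_lhs => rw [P.as_sum, shift_sum, coeff_sum]
  exact Finset.sum_congr rfl fun s _ => coeff_shift_single_monomial s _ j a K

/-- One step of the grid lemma. -/
lemma grid_step {A : Type*} [CommRing A] [IsDomain A] {τ : Type} [DecidableEq τ]
    (G : MvPolynomial τ A) (r : τ → ℕ) (hdeg : ∀ s ∈ G.support, ∀ i, s i ≤ r i)
    (N : ℕ) (hN : 1 ≤ N) (j : τ) (S : Finset A) (hS : N ≤ S.card) (K : τ →₀ ℕ)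
    (hK : coeff K G ≠ 0) :
    ∃ a ∈ S, (∀ s ∈ (shift (Pi.single j a) G).support, ∀ i, s i ≤ r i) ∧
      ∃ K' : τ →₀ ℕ, (∀ i, i ≠ j → K' i = K i) ∧ K' j * N ≤ r j ∧
        coeff K' (shift (Pi.single j a) G) ≠ 0 := by
  let T := G.support.filter fun s => s.erase j = K.erase j
  let g : Polynomial A := ∑ s ∈ T, Polynomial.monomial (s j) (coeff s G)
  have hKT : K ∈ T := Finset.mem_filter.2 ⟨mem_support_iff.2 hK, rfl⟩
  have hinj : ∀ s ∈ T, ∀ t ∈ T, s j = t j → s = t := by
    intro s hs t ht hst
    have h1 := (Finset.mem_filter.1 hs).2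
    have h2 := (Finset.mem_filter.1 ht).2
    rw [← Finsupp.erase_add_single j s, ← Finsupp.erase_add_single j t, h1, h2, hst]
  have hg : g ≠ 0 := by
    intro h0
    have h1 : g.coeff (K j) = coeff K G := by
      change (∑ s ∈ T, Polynomial.monomial (s j) (coeff s G)).coeff (K j) = _
      rw [Polynomial.finsetSum_coeff, Finset.sum_eq_single K]
      · simp
      · intro s hs hsK
        rw [Polynomial.coeff_monomial, if_neg]
        intro h
        exact hsK (hinj s hs K hKT h)
      · intro h; exact absurd hKT h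
    rw [h0] at h1
    exact hK (by rw [← h1]; simp)
  have hgdeg : g.natDegree ≤ r j := by
    apply Polynomial.natDegree_sum_le_of_forall_le
    intro s hs
    exact (Polynomial.natDegree_monomial_le _).trans (hdeg s (Finset.mem_filter.1 hs).1 j)
  obtain ⟨a, haS, k, hkN, hk⟩ := grid_one g hg (r j) N hgdeg hN S hS
  refine ⟨a, haS, ?_, K.erase j + Finsupp.single j k, ?_, ?_, ?_⟩
  · intro s hs i
    rw [mem_support_iff, coeff_shift_single] at hs
    obtain ⟨t, ht, hne⟩ := Finset.exists_ne_zero_of_sum_ne_zero hs
    have hts : t.erase j = s.erase j := by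
      by_contra h
      rw [if_neg h] at hne
      exact hne rfl
    rw [if_pos hts] at hne
    by_cases hi : i = j
    · subst hi
      have h1 : s i ≤ t i := by
        by_contra h
        rw [Nat.choose_eq_zero_of_lt (by omega)] at hne
        simp at hne
      exact h1.trans (hdeg t ht i)
    · have h1 : t i = s i := by
        rw [← Finsupp.erase_ne (f := t) hi, ← Finsupp.erase_ne (f := s) hi, hts]
      rw [← h1]
      exact hdeg t ht i
  · intro i hi
    simp [Finsupp.erase_ne hi, Finsupp.single_eq_of_ne hi]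
  · simpa using hkN
  · have h1 : (K.erase j + Finsupp.single j k).erase j = K.erase j := by
      ext i
      by_cases hi : i = j
      · subst hi; simp
      · simp [Finsupp.erase_ne hi, Finsupp.single_eq_of_ne hi]
    have h2 : (K.erase j + Finsupp.single j k) j = k := by simp
    rw [coeff_shift_single, h1, h2, ← Finset.sum_filter]
    have h3 : (Polynomial.taylor a g).coeff k
        = ∑ s ∈ T, coeff s G * a ^ (s j - k) * ((s j).choose k) := by
      change (Polynomial.taylor a (∑ s ∈ T, Polynomial.monomial (s j) (coeff s G))).coeff k = _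
      rw [map_sum, Polynomial.finsetSum_coeff]
      apply Finset.sum_congr rfl
      intro s _
      rw [Polynomial.taylor_monomial, Polynomial.coeff_C_mul, Polynomial.coeff_X_add_C_pow]
      ring
    rw [h3] at hk
    exact hk

theorem grid_lemma {A : Type*} [CommRing A] [IsDomain A] {τ : Type} [Fintype τ]
    (F : MvPolynomial τ A) (hF : F ≠ 0) (r : τ → ℕ) (hdeg : ∀ i, F.degreeOf i ≤ r i)
    (N : ℕ) (hN : 1 ≤ N) (S : τ → Finset A) (hS : ∀ i, N ≤ (S i).card) :
    ∃ c : τ → A, (∀ i, c i ∈ S i) ∧ ∃ K : τ →₀ ℕ, (∀ i, K i * N ≤ r i) ∧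
      (shift c F).coeff K ≠ 0 := by
  classical
  have key : ∀ T : Finset τ, ∃ c : τ → A, (∀ i ∈ T, c i ∈ S i) ∧ (∀ i, i ∉ T → c i = 0) ∧
      (∀ s ∈ (shift c F).support, ∀ i, s i ≤ r i) ∧
      ∃ K : τ →₀ ℕ, (∀ i ∈ T, K i * N ≤ r i) ∧ (shift c F).coeff K ≠ 0 := by
    intro T
    induction T using Finset.induction_on with
    | empty =>
      obtain ⟨K, hK⟩ := ne_zero_iff.1 hF
      refine ⟨fun _ => 0, by simp, by simp, ?_, K, by simp, ?_⟩
      · rw [shift_zero]
        intro s hs i
        exact (degreeOf_le_iff.1 (hdeg i)) s hs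
      · rw [shift_zero]; exact hK
    | insert j T hj ih =>
      obtain ⟨c, hc1, hc2, hc3, K, hK1, hK2⟩ := ih
      obtain ⟨a, ha, h1, K', h2, h3, h4⟩ :=
        grid_step (shift c F) r hc3 N hN j (S j) (hS j) K hK2
      rw [shift_shift] at h1 h4
      refine ⟨fun i => (Pi.single j a : τ → A) i + c i, ?_, ?_, h1, K', ?_, h4⟩
      · intro i hi
        rcases Finset.mem_insert.1 hi with rfl | hi
        · simpa [hc2 i hj] using ha
        · have hij : i ≠ j := fun h => hj (h ▸ hi)
          simpa [Pi.single_eq_of_ne hij] using hc1 i hi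
      · intro i hi
        rw [Finset.mem_insert, not_or] at hi
        simp [Pi.single_eq_of_ne hi.1, hc2 i hi.2]
      · intro i hi
        rcases Finset.mem_insert.1 hi with rfl | hi
        · exact h3
        · have hij : i ≠ j := fun h => hj (h ▸ hi)
          rw [h2 i hij]
          exact hK1 i hi
  obtain ⟨c, hc1, _, _, K, hK1, hK2⟩ := key Finset.univ
  exact ⟨c, fun i => hc1 i (Finset.mem_univ i), K, fun i => hK1 i (Finset.mem_univ i), hK2⟩

end SST
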