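import Mathlib

/-!
# Minkowski's first theorem for linear forms
-/

namespace SST

open MeasureTheory Module

/-- The volume of the parallelepiped `|A_i x| < e_i`. -/
lemma volume_box_preimage {d : ℕ} (A : Matrix (Fin d) (Fin d) ℝ) (hA : A.det ≠ 0)
    (e : Fin d → ℝ) :
    (volume : Measure (Fin d → ℝ)) (Matrix.toLin' A ⁻¹' (Set.univ.pi fun i => Set.Ioo (-(e i)) (e i)))
      = ENNReal.ofReal |(A.det)⁻¹| * ∏ i, ENNReal.ofReal (2 * e i) := by
  have hf : LinearMap.det (Matrix.toLin' A) ≠ 0 := by rwa [LinearMap.det_toLin']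
  rw [Measure.addHaar_preimage_linearMap _ hf, LinearMap.det_toLin', volume_pi, Measure.pi_pi]
  congr 1
  refine Finset.prod_congr rfl fun i _ => ?_
  rw [Real.volume_Ioo]
  congr 1
  ring

/-- Minkowski's first theorem for linear forms. -/
theorem minkowski_forms {d : ℕ} (hd : 1 ≤ d) (A : Matrix (Fin d) (Fin d) ℝ) (hA : A.det ≠ 0)
    (e : Fin d → ℝ) (he : ∀ i, 0 < e i) (h : |A.det| < ∏ i, e i) :
    ∃ z : Fin d → ℤ, z ≠ 0 ∧ ∀ i, |∑ j, A i j * (z j : ℝ)| < e i := by
  set b : Basis (Fin d) ℝ (Fin d → ℝ) := Pi.basisFun ℝ (Fin d) with hb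
  set s : Set (Fin d → ℝ) := Matrix.toLin' A ⁻¹' (Set.univ.pi fun i => Set.Ioo (-(e i)) (e i)) with hs
  have hsymm : ∀ x ∈ s, -x ∈ s := by
    intro x hx
    simp only [hs, Set.mem_preimage, Set.mem_pi, Set.mem_univ, true_imp_iff, Set.mem_Ioo] at hx ⊢
    intro i
    rw [map_neg, Pi.neg_apply]
    exact ⟨by linarith [(hx i).2], by linarith [(hx i).1]⟩
  have hconv : Convex ℝ s := by
    apply Convex.linear_preimage
    exact convex_pi fun i _ => convex_Ioo _ _
  have hdet : 0 < |A.det| := abs_pos.2 hA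
  have hvol : (volume : Measure (Fin d → ℝ)) (ZSpan.fundamentalDomain b) * 2 ^ finrank ℝ (Fin d → ℝ)
      < volume s := by
    rw [hs, volume_box_preimage A hA e, hb, ZSpan.fundamentalDomain_pi_basisFun, volume_pi,
      Measure.pi_pi]
    simp only [Real.volume_Ico, sub_zero, ENNReal.ofReal_one, Finset.prod_const_one, one_mul,
      finrank_fintype_fun_eq_card, Fintype.card_fin]
    rw [← ENNReal.ofReal_prod_of_nonneg (fun i _ => by linarith [he i]),
      ← ENNReal.ofReal_mul (abs_nonneg _), Finset.prod_mul_distrib, Finset.prod_const,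
      Finset.card_univ, Fintype.card_fin]
    have h2 : (2 : ENNReal) ^ d = ENNReal.ofReal ((2 : ℝ) ^ d) := by
      rw [ENNReal.ofReal_pow (by norm_num)]
      norm_num
    rw [h2, ENNReal.ofReal_lt_ofReal_iff]
    · rw [abs_inv]
      have h3 : 1 < |A.det|⁻¹ * ∏ i, e i := by
        rw [inv_mul_eq_div, one_lt_div hdet]; exact h
      have h4 : (0 : ℝ) < 2 ^ d := by positivity
      nlinarith
    · have : 0 < ∏ i, e i := Finset.prod_pos fun i _ => he i
      rw [abs_inv]
      positivity
  have : Countable (Submodule.span ℤ (Set.range b)).toAddSubgroup := by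
    change Countable (Submodule.span ℤ (Set.range b))
    infer_instance
  obtain ⟨x, hx0, hxs⟩ := exists_ne_zero_mem_lattice_of_measure_mul_two_pow_lt_measure
    (ZSpan.isAddFundamentalDomain' b volume) hsymm hconv hvol
  have hxL : (x : Fin d → ℝ) ∈ Submodule.span ℤ (Set.range b) := x.2
  rw [Basis.mem_span_iff_repr_mem] at hxL
  choose z hz using hxL
  have hz' : ∀ i, (x : Fin d → ℝ) i = (z i : ℝ) := by
    intro i
    have h1 := hz i
    have h2 : (b.repr (x : Fin d → ℝ)) i = (x : Fin d → ℝ) i := Pi.basisFun_repr _ _ _ _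
    rw [h2] at h1
    rw [← h1]
    simp
  refine ⟨z, ?_, ?_⟩
  · intro h0
    apply hx0
    ext i
    rw [hz' i, h0]
    simp
  · intro i
    have := hxs
    simp only [hs, Set.mem_preimage, Set.mem_pi, Set.mem_univ, true_imp_iff, Set.mem_Ioo] at this
    have hi := this i
    rw [Matrix.toLin'_apply, Matrix.mulVec, dotProduct] at hi
    simp only [hz'] at hi
    exact abs_lt.2 hi

end SST
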