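import Pool.Agent.Subspace.Grid

/-!
# From grid points to the whole product of hyperplanes
-/

namespace SST

open MvPolynomial

section NOrd

variable {σ τ : Type*} {R : Type*} [CommSemiring R]

/-- The joint order of a polynomial in the variables `σ` with coefficients that are polynomials in
the variables `τ`. -/
def onvNOrd (w : σ → ℝ) (v : τ → ℝ) (θ : ℝ) (G : MvPolynomial σ (MvPolynomial τ R)) : Prop :=
  ∀ J, Ord v (θ - wt w J) (coeff J G)

variable {w : σ → ℝ} {v : τ → ℝ} {θ θ' : ℝ} {G H : MvPolynomial σ (MvPolynomial τ R)}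

lemma onvNOrd.mono (h : onvNOrd w v θ G) (hθ : θ' ≤ θ) : onvNOrd w v θ' G :=
  fun J => (h J).mono (by linarith)

lemma onvNOrd.add (h : onvNOrd w v θ G) (h' : onvNOrd w v θ H) : onvNOrd w v θ (G + H) := by
  intro J
  rw [coeff_add]
  exact (h J).add (h' J)

lemma onvNOrd_zero : onvNOrd w v θ (0 : MvPolynomial σ (MvPolynomial τ R)) := by
  intro J
  rw [coeff_zero]
  exact Ord_zero

lemma onvNOrd.mul (h : onvNOrd w v θ G) (h' : onvNOrd w v θ' H) :
    onvNOrd w v (θ + θ') (G * H) := by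
  classical
  intro J
  rw [coeff_mul]
  apply Ord.sum
  intro p hp
  rw [Finset.HasAntidiagonal.mem_antidiagonal] at hp
  refine ((h p.1).mul (h' p.2)).mono ?_
  rw [← hp, wt_add]
  linarith

lemma onvNOrd_C {a : MvPolynomial τ R} (h : Ord v θ a) : onvNOrd w v θ (C a) := by
  classical
  intro J
  rw [coeff_C]
  split_ifs with hJ
  · subst hJ
    simpa using h
  · exact Ord_zero

lemma onvNOrd_X (x : σ) (hθ : θ ≤ w x) :
    onvNOrd w v θ (X x : MvPolynomial σ (MvPolynomial τ R)) := by
  classical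
  intro J
  rw [coeff_X]
  split_ifs with hJ
  · subst hJ
    refine Ord_one.mono ?_
    rw [wt_single]
    push_cast
    linarith
  · exact Ord_zero

lemma onvNOrd_one : onvNOrd w v 0 (1 : MvPolynomial σ (MvPolynomial τ R)) := by
  rw [← C_1]
  exact onvNOrd_C Ord_one

lemma onvNOrd.pow (h : onvNOrd w v θ G) (n : ℕ) : onvNOrd w v (n * θ) (G ^ n) := by
  induction n with
  | zero => simpa using onvNOrd_one
  | succ n ih =>
    rw [pow_succ]
    refine (ih.mul h).mono ?_
    push_cast
    linarith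

lemma onvNOrd.sum {ι : Type*} {S : Finset ι} {f : ι → MvPolynomial σ (MvPolynomial τ R)}
    (h : ∀ i ∈ S, onvNOrd w v θ (f i)) : onvNOrd w v θ (∑ i ∈ S, f i) := by
  intro J
  rw [coeff_sum]
  exact Ord.sum fun i hi => h i hi J

lemma onvNOrd.prod {ι : Type*} {S : Finset ι} {f : ι → MvPolynomial σ (MvPolynomial τ R)}
    {t : ι → ℝ} (h : ∀ i ∈ S, onvNOrd w v (t i) (f i)) :
    onvNOrd w v (∑ i ∈ S, t i) (∏ i ∈ S, f i) := by
  classical
  induction S using Finset.induction_on with
  | empty => simpa using onvNOrd_one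
  | insert a S ha ih =>
    rw [Finset.sum_insert ha, Finset.prod_insert ha]
    exact (h a (Finset.mem_insert_self _ _)).mul
      (ih fun i hi => h i (Finset.mem_insert_of_mem hi))

end NOrd

section Main

variable {σ τ : Type*}

/-- The shift by the generic vector, as a sum over the monomials of `P`. -/
lemma onv_shift_eq {A R : Type*} [CommRing A] [CommRing R] (f : R →+* A) (Y : σ → A)
    (P : MvPolynomial σ R) :
    shift Y (map f P) = ∑ s ∈ P.support, C (f (coeff s P)) *
      ∏ x ∈ s.support, (X x + C (Y x)) ^ s x := by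
  unfold shift
  conv_lhs => rw [P.as_sum, map_sum, map_sum]
  refine Finset.sum_congr rfl fun s _ => ?_
  rw [map_monomial, bind₁_monomial]

lemma onv_nord_shift {w : σ → ℝ} {v : τ → ℝ} {θ : ℝ} {P : MvPolynomial σ ℤ} (h : Ord w θ P)
    {Y : σ → MvPolynomial τ ℤ} (hY : ∀ x, Ord v (w x) (Y x)) :
    onvNOrd w v θ (shift Y (map C P)) := by
  rw [onv_shift_eq]
  apply onvNOrd.sum
  intro s hs
  have h1 : onvNOrd w v (∑ i ∈ s.support, (s i : ℝ) * w i)
      (∏ x ∈ s.support, (X x + C (Y x)) ^ s x) :=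
    onvNOrd.prod fun i _ => ((onvNOrd_X i le_rfl).add (onvNOrd_C (hY i))).pow _
  have h2 := (onvNOrd_C (w := w) (Ord_C (w := v) (le_refl (0 : ℝ)) (coeff s P))).mul h1
  refine h2.mono ?_
  rw [zero_add]
  exact h s hs

/-- Degree of all coefficients in the variable `y`. -/
def onvDeg (y : τ) (d : ℕ) (G : MvPolynomial σ (MvPolynomial τ ℤ)) : Prop :=
  ∀ J, degreeOf y (coeff J G) ≤ d

lemma onvDeg.mono {y : τ} {d d' : ℕ} {G : MvPolynomial σ (MvPolynomial τ ℤ)}
    (h : onvDeg y d G) (hd : d ≤ d') : onvDeg y d' G := fun J => (h J).trans hd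

lemma onvDeg.add {y : τ} {d : ℕ} {G H : MvPolynomial σ (MvPolynomial τ ℤ)}
    (h : onvDeg y d G) (h' : onvDeg y d H) : onvDeg y d (G + H) := by
  intro J
  rw [coeff_add]
  exact (degreeOf_add_le _ _ _).trans (max_le (h J) (h' J))

lemma onvDeg.mul {y : τ} {d d' : ℕ} {G H : MvPolynomial σ (MvPolynomial τ ℤ)}
    (h : onvDeg y d G) (h' : onvDeg y d' H) : onvDeg y (d + d') (G * H) := by
  classical
  intro J
  rw [coeff_mul]
  refine (degreeOf_sum_le _ _ _).trans ?_
  rw [Finset.sup_le_iff]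
  intro p _
  exact (degreeOf_mul_le _ _ _).trans (add_le_add (h p.1) (h' p.2))

lemma onvDeg_C {y : τ} {d : ℕ} {a : MvPolynomial τ ℤ} (h : degreeOf y a ≤ d) :
    onvDeg y d (C a : MvPolynomial σ (MvPolynomial τ ℤ)) := by
  classical
  intro J
  rw [coeff_C]
  split_ifs with hJ
  · exact h
  · simp

lemma onvDeg_X {y : τ} {d : ℕ} (x : σ) :
    onvDeg y d (X x : MvPolynomial σ (MvPolynomial τ ℤ)) := by
  classical
  intro J
  rw [coeff_X]
  split_ifs with hJ
  · rw [← C_1, degreeOf_C]; exact Nat.zero_le _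
  · simp

lemma onvDeg_one {y : τ} : onvDeg y 0 (1 : MvPolynomial σ (MvPolynomial τ ℤ)) := by
  rw [← C_1]
  apply onvDeg_C
  rw [← C_1, degreeOf_C]

lemma onvDeg.pow {y : τ} {d : ℕ} {G : MvPolynomial σ (MvPolynomial τ ℤ)}
    (h : onvDeg y d G) (n : ℕ) : onvDeg y (n * d) (G ^ n) := by
  induction n with
  | zero => simpa using onvDeg_one
  | succ n ih =>
    rw [pow_succ]
    refine (ih.mul h).mono ?_
    rw [Nat.succ_mul]

lemma onvDeg.prod {y : τ} {ι : Type*} {S : Finset ι} {f : ι → MvPolynomial σ (MvPolynomial τ ℤ)}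
    {t : ι → ℕ} (h : ∀ i ∈ S, onvDeg y (t i) (f i)) :
    onvDeg y (∑ i ∈ S, t i) (∏ i ∈ S, f i) := by
  classical
  induction S using Finset.induction_on with
  | empty => simpa using onvDeg_one
  | insert a S ha ih =>
    rw [Finset.sum_insert ha, Finset.prod_insert ha]
    exact (h a (Finset.mem_insert_self _ _)).mul
      (ih fun i hi => h i (Finset.mem_insert_of_mem hi))

lemma onvDeg.sum {y : τ} {d : ℕ} {ι : Type*} {S : Finset ι}
    {f : ι → MvPolynomial σ (MvPolynomial τ ℤ)}
    (h : ∀ i ∈ S, onvDeg y d (f i)) : onvDeg y d (∑ i ∈ S, f i) := by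
  intro J
  rw [coeff_sum]
  refine (degreeOf_sum_le _ _ _).trans ?_
  rw [Finset.sup_le_iff]
  exact fun i hi => h i hi J

end Main

theorem vanish_on_span {κ ι : Type} [Fintype κ] [DecidableEq κ] [Fintype ι] [DecidableEq ι]
    {m : ℕ} (r : Fin m → ℕ) (hr : ∀ h, 1 ≤ r h) (P : MvPolynomial (Fin m × κ) ℤ)
    (hom : ∀ s ∈ P.support, ∀ h, ∑ i, s (h, i) = r h) (u : Fin m → ι → κ → ℤ) (N : ℕ)
    (hN : 1 ≤ N) (θ : ℝ)
    (h : ∀ t : Fin m × ι → ℕ, (∀ x, t x < N) →
      Ord (bw r) θ (shift (fun x : Fin m × κ => ∑ l, (t (x.1, l) : ℤ) * u x.1 l x.2) P))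
    (t : Fin m × ι → ℚ) :
    Ord (bw r) (θ - m * Fintype.card ι / N)
      (shift (fun x : Fin m × κ => ∑ l, t (x.1, l) * (u x.1 l x.2 : ℚ))
        (map (Int.castRingHom ℚ) P)) := by
  classical
  set Y : Fin m × κ → MvPolynomial (Fin m × ι) ℤ := fun x =>
    ∑ l, X (x.1, l) * C (u x.1 l x.2) with hYdef
  set G : MvPolynomial (Fin m × κ) (MvPolynomial (Fin m × ι) ℤ) := shift Y (map C P) with hG
  -- degree bound
  have hdeg : ∀ y : Fin m × ι, onvDeg y (r y.1) G := by
    intro y
    rw [hG, onv_shift_eq]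
    apply onvDeg.sum
    intro s hs
    have hYd : ∀ x, degreeOf y (Y x) ≤ if x.1 = y.1 then 1 else 0 := by
      intro x
      rw [hYdef]
      refine (degreeOf_sum_le _ _ _).trans ?_
      rw [Finset.sup_le_iff]
      intro l _
      refine (degreeOf_mul_le _ _ _).trans ?_
      rw [degreeOf_C, add_zero, degreeOf_X]
      split_ifs with h1 h2 h2
      · exact le_rfl
      · exact absurd (congrArg Prod.fst h1).symm h2
      · exact Nat.zero_le _
      · exact le_rfl
    have h1 : onvDeg y (∑ x ∈ s.support, s x * if x.1 = y.1 then 1 else 0)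
        (∏ x ∈ s.support, (X x + C (Y x)) ^ s x) :=
      onvDeg.prod fun x _ => ((onvDeg_X x).add (onvDeg_C (hYd x))).pow _
    have h2 : onvDeg y 0 (C (C (coeff s P)) :
        MvPolynomial (Fin m × κ) (MvPolynomial (Fin m × ι) ℤ)) :=
      onvDeg_C (by rw [degreeOf_C])
    refine (h2.mul h1).mono ?_
    rw [zero_add, ← hom s hs y.1]
    have h3 : ∑ x ∈ s.support, (s x * if x.1 = y.1 then 1 else 0) =
        ∑ x : Fin m × κ, (s x * if x.1 = y.1 then 1 else 0) := by
      apply Finset.sum_subset (Finset.subset_univ _)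
      intro x _ hx
      rw [Finsupp.notMem_support_iff.1 hx, zero_mul]
    rw [h3, Fintype.sum_prod_type]
    apply le_of_eq
    rw [Finset.sum_eq_single y.1]
    · simp
    · intro b _ hb
      simp [hb]
    · intro hy; exact absurd (Finset.mem_univ _) hy
  -- order bound for the coefficients
  have key : ∀ J, coeff J G ≠ 0 → θ - m * Fintype.card ι / N ≤ wt (bw r) J := by
    intro J hJ
    obtain ⟨c, hc, K, hK, hne⟩ := grid_lemma (coeff J G) hJ (fun y => r y.1)
      (fun y => hdeg y J) N hN (fun _ => (Finset.range N).image (fun n : ℕ => (n : ℤ)))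
      (fun _ => by
        rw [Finset.card_image_of_injective _ Nat.cast_injective, Finset.card_range])
    have hc' : ∀ y, ∃ n : ℕ, n < N ∧ (n : ℤ) = c y := by
      intro y
      obtain ⟨n, hn, hn'⟩ := Finset.mem_image.1 (hc y)
      exact ⟨n, Finset.mem_range.1 hn, hn'⟩
    choose t₀ ht₀ ht₀c using hc'
    have hO := h t₀ ht₀
    set y₀ : Fin m × κ → ℤ := fun x => ∑ l, (t₀ (x.1, l) : ℤ) * u x.1 l x.2 with hy₀
    set P₀ := shift y₀ P with hP₀
    have hYo : ∀ x, Ord (bw r : Fin m × ι → ℝ) (bw r x) (Y x) := by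
      intro x
      apply Ord.sum
      intro l _
      have h1 : Ord (bw r : Fin m × ι → ℝ) (bw r x)
          (X (x.1, l) : MvPolynomial (Fin m × ι) ℤ) := Ord_X _ (by simp [bw])
      have h2 := h1.mul (Ord_C (w := (bw r : Fin m × ι → ℝ)) (le_refl (0 : ℝ)) (u x.1 l x.2))
      rwa [add_zero] at h2
    have hN1 : onvNOrd (bw r) (bw r : Fin m × ι → ℝ) θ (shift Y (map C P₀)) :=
      onv_nord_shift hO hYo
    -- the ring homomorphism `shift c` on the coefficients
    let sh : MvPolynomial (Fin m × ι) ℤ →+* MvPolynomial (Fin m × ι) ℤ :=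
      (bind₁ (fun i => X i + C (c i)) : MvPolynomial (Fin m × ι) ℤ →ₐ[ℤ] _).toRingHom
    have hsh : ∀ Q, sh Q = shift c Q := fun Q => rfl
    have hmap : map sh G = shift Y (map C P₀) := by
      rw [hG, map_shift]
      have e1 : map sh (map C P) = map C P := by
        rw [map_map]
        have e0 : sh.comp C = (C : ℤ →+* MvPolynomial (Fin m × ι) ℤ) := RingHom.ext_int _ _
        rw [e0]
      rw [e1, hP₀, map_shift, shift_shift]
      congr 1
      funext x
      show sh (Y x) = Y x + C (y₀ x)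
      simp only [hYdef, hy₀, map_sum, map_mul]
      rw [← Finset.sum_add_distrib]
      refine Finset.sum_congr rfl fun l _ => ?_
      rw [ht₀c (x.1, l)]
      have e2 : sh (X (x.1, l)) = X (x.1, l) + C (c (x.1, l)) := by simp [sh]
      have e3 : sh (C (u x.1 l x.2)) = C (u x.1 l x.2) := by simp [sh]
      rw [e2, e3]
      ring
    have h3 := hN1 J
    rw [← hmap, coeff_map, hsh] at h3
    have h4 := h3 K (mem_support_iff.2 hne)
    have h5 : wt (bw r : Fin m × ι → ℝ) K ≤ m * Fintype.card ι / N := by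
      rw [wt_eq_sum]
      have hNpos : (0 : ℝ) < N := by exact_mod_cast hN
      have h6 : ∀ y : Fin m × ι, (K y : ℝ) * bw r y ≤ 1 / N := by
        intro y
        have h7 : ((K y * N : ℕ) : ℝ) ≤ (r y.1 : ℝ) := by exact_mod_cast hK y
        push_cast at h7
        have hrpos : (0 : ℝ) < r y.1 := by exact_mod_cast hr y.1
        unfold bw
        rw [mul_one_div, div_le_div_iff₀ hrpos hNpos]
        linarith
      refine (Finset.sum_le_sum fun y _ => h6 y).trans ?_
      rw [Finset.sum_const, nsmul_eq_mul, Finset.card_univ, Fintype.card_prod, Fintype.card_fin]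
      push_cast
      apply le_of_eq
      ring
    linarith
  -- specialisation
  intro J hJ
  rw [mem_support_iff] at hJ
  apply key
  intro h0
  apply hJ
  let ev : MvPolynomial (Fin m × ι) ℤ →+* ℚ := eval₂Hom (Int.castRingHom ℚ) t
  have hev : map ev G = shift (fun x : Fin m × κ => ∑ l, t (x.1, l) * (u x.1 l x.2 : ℚ))
        (map (Int.castRingHom ℚ) P) := by
    rw [hG, map_shift, map_map]
    have e1 : ev.comp C = Int.castRingHom ℚ := RingHom.ext_int _ _
    rw [e1]
    congr 1
    funext x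
    simp only [hYdef, map_sum, map_mul]
    refine Finset.sum_congr rfl fun l _ => ?_
    have e2 : ev (X (x.1, l)) = t (x.1, l) := by simp [ev]
    have e3 : ev (C (u x.1 l x.2)) = (u x.1 l x.2 : ℚ) := by simp [ev]
    rw [e2, e3]
  rw [← hev, coeff_map, h0, map_zero]

end SST
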