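import Pool.Agent.Subspace.Basic

/-!
# Heights of hyperplanes spanned by small lattice points
-/

namespace SST

open Filter

namespace PenA

set_option linter.unusedSectionVars false

lemma kexp_ge {b : ℕ} (hb : 2 ≤ b) (a T : ℝ) :
    a * T - Real.log b ≤ (kexp b a T : ℝ) * Real.log b := by
  have hlog : 0 < Real.log b := Real.log_pos (by exact_mod_cast (by omega : 1 < b))
  unfold kexp
  have h := (Nat.lt_floor_add_one (a * T / Real.log b)).le
  have h2 := mul_le_mul_of_nonneg_right h hlog.le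
  rw [div_mul_cancel₀ _ hlog.ne', add_mul, one_mul] at h2
  linarith

lemma kexp_mono {b : ℕ} (hb : 2 ≤ b) {a a' T : ℝ} (h : a ≤ a') (hT : 0 ≤ T) :
    kexp b a T ≤ kexp b a' T := by
  have hlog : 0 < Real.log b := Real.log_pos (by exact_mod_cast (by omega : 1 < b))
  unfold kexp
  exact Nat.floor_mono (by gcongr)

lemma abs_det_le {o : Type*} [Fintype o] [DecidableEq o] (A : Matrix o o ℝ) (r₀ s₀ : o) (c : o → ℝ)
    (h0 : ∀ s, A r₀ s = if s = s₀ then 1 else 0)
    (h : ∀ r, r ≠ r₀ → ∀ s, |A r s| ≤ Real.exp (c s)) :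
    |A.det| ≤ (Fintype.card o).factorial * Real.exp (∑ s, c s - c s₀) := by
  rw [← Matrix.det_transpose, Matrix.det_apply']
  refine (Finset.abs_sum_le_sum_abs _ _).trans ?_
  have key : ∀ σ : Equiv.Perm o,
      |((Equiv.Perm.sign σ : ℤ) : ℝ) * ∏ i, A.transpose (σ i) i| ≤
        Real.exp (∑ s, c s - c s₀) := by
    intro σ
    rw [abs_mul]
    have hs : |((Equiv.Perm.sign σ : ℤ) : ℝ)| = 1 := by
      rcases Int.units_eq_one_or (Equiv.Perm.sign σ) with h | h <;> simp [h]
    rw [hs, one_mul, Finset.abs_prod]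
    simp only [Matrix.transpose_apply]
    by_cases hσ : σ r₀ = s₀
    · rw [← Finset.mul_prod_erase _ _ (Finset.mem_univ r₀), h0, if_pos hσ, abs_one, one_mul]
      refine (Finset.prod_le_prod (g := fun r => Real.exp (c (σ r)))
        (fun _ _ => abs_nonneg _) ?_).trans ?_
      · intro r hr
        exact h r (Finset.ne_of_mem_erase hr) _
      · rw [← Real.exp_sum]
        apply Real.exp_le_exp.2
        have h1 : ∑ s, c s = ∑ r, c (σ r) := (Equiv.sum_comp σ c).symm
        rw [h1, ← Finset.add_sum_erase _ _ (Finset.mem_univ r₀), hσ]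
        simp
    · rw [Finset.prod_eq_zero (Finset.mem_univ r₀)]
      · exact (Real.exp_pos _).le
      · rw [h0, if_neg hσ, abs_zero]
  refine (Finset.sum_le_sum fun σ _ => key σ).trans ?_
  rw [Finset.sum_const, Finset.card_univ, Fintype.card_perm, nsmul_eq_mul]

lemma pow_dvd_det {o : Type*} [Fintype o] [DecidableEq o] (A : Matrix o o ℤ) (r₀ s₀ : o) (b : ℤ)
    (k : o → ℕ) (h0 : ∀ s, A r₀ s = if s = s₀ then 1 else 0)
    (h : ∀ r, r ≠ r₀ → ∀ s, b ^ k s ∣ A r s) :
    b ^ (∑ s ∈ Finset.univ.erase s₀, k s) ∣ A.det := by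
  rw [← Matrix.det_transpose, Matrix.det_apply']
  refine Finset.dvd_sum fun σ _ => Dvd.dvd.mul_left ?_ _
  simp only [Matrix.transpose_apply]
  by_cases hσ : σ r₀ = s₀
  · rw [← Finset.mul_prod_erase _ _ (Finset.mem_univ r₀), h0, if_pos hσ, one_mul,
      ← Finset.prod_pow_eq_pow_sum]
    have h1 : ∏ s ∈ Finset.univ.erase s₀, b ^ k s = ∏ r ∈ Finset.univ.erase r₀, b ^ k (σ r) := by
      symm
      apply Finset.prod_equiv σ
      · intro r
        simp only [Finset.mem_erase, Finset.mem_univ, and_true, ← hσ]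
        exact (σ.injective.ne_iff).symm
      · intro r _
        rfl
    rw [h1]
    exact Finset.prod_dvd_prod_of_dvd _ _ fun r hr => h r (Finset.ne_of_mem_erase hr) _
  · rw [Finset.prod_eq_zero (Finset.mem_univ r₀)]
    · exact dvd_zero _
    · rw [h0, if_neg hσ]

/-- The square matrix with one row `g` and the other rows `u l`. -/
def mat {κ κ' : Type} (e : Option κ' ≃ κ) (g : κ → ℤ) (u : κ' → κ → ℤ) : Matrix κ κ ℤ :=
  fun r j => (e.symm r).elim (g j) (fun l => u l j)

variable {κ κ' : Type} [Fintype κ] [DecidableEq κ] [Fintype κ'] [DecidableEq κ']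

lemma sum_sq_pos {g : κ → ℤ} (hg : g ≠ 0) : 0 < ∑ i, g i * g i := by
  obtain ⟨i, hi⟩ := Function.ne_iff.1 hg
  exact Finset.sum_pos' (fun i _ => mul_self_nonneg _) ⟨i, Finset.mem_univ _, mul_self_pos.2 hi⟩

lemma det_mat_ne_zero (e : Option κ' ≃ κ) {g : κ → ℤ} {u : κ' → κ → ℤ} (hg : g ≠ 0)
    (hu : LinearIndependent ℚ (fun l i => (u l i : ℚ))) (hgu : ∀ l, ∑ i, g i * u l i = 0) :
    (mat e g u).det ≠ 0 := by
  intro hdet
  obtain ⟨v, hv, hv0⟩ := Matrix.exists_vecMul_eq_zero_iff.2 hdet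
  have h1 : ∀ j, v (e none) * g j + ∑ l, v (e (some l)) * u l j = 0 := by
    intro j
    have h2 := congrFun hv0 j
    simp only [Matrix.vecMul, dotProduct, Pi.zero_apply] at h2
    rw [← Equiv.sum_comp e, Fintype.sum_option] at h2
    simpa [mat] using h2
  have h2 : v (e none) = 0 := by
    have h3 : ∑ j, g j * (v (e none) * g j + ∑ l, v (e (some l)) * u l j) = 0 :=
      Finset.sum_eq_zero fun j _ => by rw [h1, mul_zero]
    have h4 : ∑ j, g j * (v (e none) * g j + ∑ l, v (e (some l)) * u l j) =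
        v (e none) * ∑ j, g j * g j + ∑ l, v (e (some l)) * ∑ j, g j * u l j := by
      simp only [mul_add, Finset.sum_add_distrib, Finset.mul_sum]
      congr 1
      · exact Finset.sum_congr rfl fun j _ => by ring
      · rw [Finset.sum_comm]
        exact Finset.sum_congr rfl fun l _ => Finset.sum_congr rfl fun j _ => by ring
    rw [h4] at h3
    simp only [hgu, mul_zero, Finset.sum_const_zero, add_zero] at h3
    rcases mul_eq_zero.1 h3 with h5 | h5
    · exact h5
    · exact absurd h5 (sum_sq_pos hg).ne'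
  have h3 : ∀ l, v (e (some l)) = 0 := by
    have h4 := Fintype.linearIndependent_iff.1 hu (fun l => (v (e (some l)) : ℚ)) (by
      funext j
      have h5 := h1 j
      rw [h2, zero_mul, zero_add] at h5
      simp only [Finset.sum_apply, Pi.smul_apply, smul_eq_mul, Pi.zero_apply]
      exact_mod_cast h5)
    intro l
    exact_mod_cast h4 l
  apply hv
  funext r
  obtain ⟨x, rfl⟩ := e.surjective r
  cases x with
  | none => exact h2
  | some l => exact h3 l

lemma exists_mul (e : Option κ' ≃ κ) {g : κ → ℤ} {u : κ' → κ → ℤ}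
    (hg : ∀ d : ℕ, (∀ i, (d : ℤ) ∣ g i) → d = 1) (hg0 : g ≠ 0)
    (hu : LinearIndependent ℚ (fun l i => (u l i : ℚ))) (hgu : ∀ l, ∑ i, g i * u l i = 0)
    (h : κ → ℤ) (hh : ∀ l, ∑ i, h i * u l i = 0) : ∃ ρ : ℤ, ∀ i, h i = ρ * g i := by
  set N := ∑ i, g i * g i with hN
  set m := ∑ i, g i * h i with hm
  have hNpos : 0 < N := sum_sq_pos hg0
  have hw : (fun i => N * h i - m * g i) = 0 := by
    apply Matrix.eq_zero_of_mulVec_eq_zero (det_mat_ne_zero e hg0 hu hgu)
    funext r
    obtain ⟨x, rfl⟩ := e.surjective r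
    simp only [Matrix.mulVec, dotProduct, Pi.zero_apply]
    cases x with
    | none =>
      simp only [mat, Equiv.symm_apply_apply, Option.elim_none]
      have h1 : ∑ j, g j * (N * h j - m * g j) = N * ∑ j, g j * h j - m * ∑ j, g j * g j := by
        simp only [mul_sub, Finset.sum_sub_distrib, Finset.mul_sum]
        congr 1 <;> exact Finset.sum_congr rfl fun j _ => by ring
      rw [h1, ← hN, ← hm]
      ring
    | some l =>
      simp only [mat, Equiv.symm_apply_apply, Option.elim_some]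
      have h1 : ∑ j, u l j * (N * h j - m * g j) = N * ∑ j, h j * u l j - m * ∑ j, g j * u l j := by
        simp only [mul_sub, Finset.sum_sub_distrib, Finset.mul_sum]
        congr 1 <;> exact Finset.sum_congr rfl fun j _ => by ring
      rw [h1, hh, hgu]
      ring
  have hw' : ∀ i, N * h i = m * g i := fun i => by
    have := congrFun hw i
    simp only [Pi.zero_apply] at this
    linarith
  have hgcd : Finset.univ.gcd g = 1 := by
    have h1 := hg (Finset.univ.gcd g).natAbs (fun i => by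
      rw [Int.natAbs_dvd]
      exact Finset.gcd_dvd (Finset.mem_univ i))
    have h2 : Finset.univ.gcd g = normalize (Finset.univ.gcd g) := Finset.normalize_gcd.symm
    rw [h2, ← Int.abs_eq_normalize, Int.abs_eq_natAbs, h1]
    rfl
  have hdvd : N ∣ m := by
    have h1 : N ∣ Finset.univ.gcd (fun i => m * g i) :=
      Finset.dvd_gcd fun i _ => ⟨h i, (hw' i).symm⟩
    rw [Finset.gcd_mul_left, hgcd, mul_one] at h1
    exact (dvd_normalize_iff).1 h1
  obtain ⟨ρ, hρ⟩ := hdvd
  refine ⟨ρ, fun i => ?_⟩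
  have h1 := hw' i
  rw [hρ, mul_assoc] at h1
  exact mul_left_cancel₀ hNpos.ne' h1

/-- The column of minors of the vectors `u`. -/
def minors (e : Option κ' ≃ κ) (g : κ → ℤ) (u : κ' → κ → ℤ) (j : κ) : ℤ :=
  (mat e g u).adjugate j (e none)

lemma minors_orth (e : Option κ' ≃ κ) (g : κ → ℤ) (u : κ' → κ → ℤ) (l : κ') :
    ∑ i, minors e g u i * u l i = 0 := by
  have h1 := congrFun (congrFun (Matrix.mul_adjugate (mat e g u)) (e (some l))) (e none)
  rw [Matrix.mul_apply] at h1
  have h2 : (((mat e g u).det • (1 : Matrix κ κ ℤ)) (e (some l)) (e none)) = 0 := by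
    rw [Matrix.smul_apply, Matrix.one_apply_ne (by simp), smul_zero]
  rw [h2] at h1
  rw [← h1]
  refine Finset.sum_congr rfl fun i _ => ?_
  simp only [mat, minors, Equiv.symm_apply_apply, Option.elim_some]
  ring

lemma minors_g (e : Option κ' ≃ κ) (g : κ → ℤ) (u : κ' → κ → ℤ) :
    ∑ i, g i * minors e g u i = (mat e g u).det := by
  have h1 := congrFun (congrFun (Matrix.mul_adjugate (mat e g u)) (e none)) (e none)
  rw [Matrix.mul_apply] at h1
  have h2 : (((mat e g u).det • (1 : Matrix κ κ ℤ)) (e none) (e none)) = (mat e g u).det := by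
    rw [Matrix.smul_apply, Matrix.one_apply_eq, smul_eq_mul, mul_one]
  rw [h2] at h1
  rw [← h1]
  refine Finset.sum_congr rfl fun i _ => ?_
  simp only [mat, minors, Equiv.symm_apply_apply, Option.elim_none]

lemma minors_dvd (e : Option κ' ≃ κ) (g : κ → ℤ) (u : κ' → κ → ℤ) (b : ℤ) (k : κ → ℕ)
    (h : ∀ l i, b ^ k i ∣ u l i) (j : κ) :
    b ^ (∑ s ∈ Finset.univ.erase j, k s) ∣ minors e g u j := by
  unfold minors
  rw [Matrix.adjugate_apply]
  apply pow_dvd_det _ (e none) j
  · intro s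
    rw [Matrix.updateRow_self, Pi.single_apply]
  · intro r hr s
    rw [Matrix.updateRow_ne hr]
    obtain ⟨x, rfl⟩ := e.surjective r
    cases x with
    | none => exact absurd rfl hr
    | some l =>
      simp only [mat, Equiv.symm_apply_apply, Option.elim_some]
      exact h l s

lemma minors_bound (e : Option κ' ≃ κ) (g : κ → ℤ) (u : κ' → κ → ℤ) (M : Matrix κ κ ℝ)
    (c : κ → ℝ) (h : ∀ l i, |∑ j, M i j * u l j| ≤ Real.exp (c i)) (i : κ) :
    |∑ j, M.adjugate j i * minors e g u j| ≤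
      (Fintype.card κ).factorial * Real.exp (∑ s, c s - c i) := by
  set A : Matrix κ κ ℝ := (Int.castRingHom ℝ).mapMatrix (mat e g u) with hA
  have h1 : ∑ j, M.adjugate j i * minors e g u j = (A * M.transpose).adjugate i (e none) := by
    rw [Matrix.adjugate_mul_distrib, Matrix.mul_apply, ← Matrix.adjugate_transpose]
    refine Finset.sum_congr rfl fun j _ => ?_
    rw [Matrix.transpose_apply, hA, ← RingHom.map_adjugate]
    rfl
  rw [h1, Matrix.adjugate_apply]
  apply abs_det_le _ (e none) i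
  · intro s
    rw [Matrix.updateRow_self, Pi.single_apply]
  · intro r hr s
    rw [Matrix.updateRow_ne hr]
    obtain ⟨x, rfl⟩ := e.surjective r
    cases x with
    | none => exact absurd rfl hr
    | some l =>
      rw [Matrix.mul_apply]
      have h2 : ∑ j, A (e (some l)) j * M.transpose j s = ∑ j, M s j * u l j := by
        refine Finset.sum_congr rfl fun j _ => ?_
        simp only [hA, RingHom.mapMatrix_apply, Matrix.map_apply, mat, Equiv.symm_apply_apply,
          Option.elim_some, Matrix.transpose_apply, eq_intCast]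
        ring
      rw [h2]
      exact h l s

lemma prod_dvd {V : Type*} [Fintype V] (b : V → ℕ) (hcop : Pairwise fun v w => (b v).Coprime (b w))
    (K : V → ℕ) (x : ℤ) (h : ∀ v, (b v : ℤ) ^ K v ∣ x) : ∏ v, (b v : ℤ) ^ K v ∣ x := by
  apply Finset.prod_dvd_of_coprime
  · intro v _ w _ hvw
    exact ((Nat.isCoprime_iff_coprime.2 (hcop hvw)).pow)
  · intro v _
    exact h v

lemma le_log_of_prod_dvd {V : Type*} [Fintype V] (b : V → ℕ) (hb : ∀ v, 2 ≤ b v)
    (hcop : Pairwise fun v w => (b v).Coprime (b w))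
    (K : V → ℕ) (x : ℤ) (hx : x ≠ 0) (h : ∀ v, (b v : ℤ) ^ K v ∣ x) :
    Real.exp (∑ v, (K v : ℝ) * Real.log (b v)) ≤ |(x : ℝ)| := by
  have h1 := Int.le_of_dvd (abs_pos.2 hx) ((dvd_abs _ _).2 (prod_dvd b hcop K x h))
  have h2 : Real.exp (∑ v, (K v : ℝ) * Real.log (b v)) = ((∏ v, (b v : ℤ) ^ K v : ℤ) : ℝ) := by
    rw [Real.exp_sum]
    push_cast
    refine Finset.prod_congr rfl fun v _ => ?_
    have hbv : (0 : ℝ) < b v := by exact_mod_cast (by have := hb v; omega : 0 < b v)
    rw [mul_comm, Real.exp_mul, Real.exp_log hbv, Real.rpow_natCast]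
  rw [h2]
  have h3 : ((∏ v, (b v : ℤ) ^ K v : ℤ) : ℝ) ≤ ((|x| : ℤ) : ℝ) := by exact_mod_cast h1
  rwa [Int.cast_abs] at h3

end PenA

open PenA in
theorem height_dichotomy {ι : Type} (𝓤 : Ultrafilter ι) (T : ι → ℝ) (hT : Tendsto T 𝓤 atTop)
    {κ κ' V : Type} [Fintype κ] [DecidableEq κ] [Fintype κ'] [DecidableEq κ'] [Fintype V]
    (hκ : 2 ≤ Fintype.card κ) (hκ' : Fintype.card κ' + 1 = Fintype.card κ)
    (M : Matrix κ κ ℚ) (hM : M.det ≠ 0) (b : V → ℕ) (hb : ∀ v, 2 ≤ b v)
    (hcop : Pairwise fun v w => (b v).Coprime (b w)) (a : V → κ → ℝ) (ha : ∀ v i, 0 ≤ a v i)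
    (c : κ → ℝ) (hgap : ∑ i, c i < ∑ v, ∑ i, a v i)
    (g : ι → κ → ℤ) (hg : ∀ᶠ n in 𝓤, ∀ d : ℕ, (∀ i, (d : ℤ) ∣ g n i) → d = 1)
    (u : ι → κ' → κ → ℤ)
    (hu : ∀ᶠ n in 𝓤, LinearIndependent ℚ (fun l i => (u n l i : ℚ)))
    (hgu : ∀ᶠ n in 𝓤, ∀ l, ∑ i, g n i * u n l i = 0)
    (huM : ∀ᶠ n in 𝓤, ∀ l i, |∑ j, (M i j : ℝ) * u n l j| ≤ Real.exp (c i * T n))
    (huv : ∀ᶠ n in 𝓤, ∀ l v i, ((b v : ℤ)) ^ kexp (b v) (a v i) (T n) ∣ u n l i) :
    (∃ g₀ : κ → ℤ, ∀ᶠ n in 𝓤, g n = g₀) ∨
      ∃ χ : ℝ, 0 < χ ∧ ∀ᶠ n in 𝓤, ∃ i, χ * T n ≤ Real.log |(g n i : ℝ)| := by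
  classical
  by_cases hbig : ∃ χ : ℝ, 0 < χ ∧ ∀ᶠ n in 𝓤, ∃ i, χ * T n ≤ Real.log |(g n i : ℝ)|
  · exact Or.inr hbig
  left
  have hTpos : ∀ᶠ n in 𝓤, 0 ≤ T n := hT.eventually_ge_atTop 0
  have hsmall : ∀ χ : ℝ, 0 < χ → ∀ᶠ n in 𝓤, ∀ i, |(g n i : ℝ)| ≤ Real.exp (χ * T n) := by
    intro χ hχ
    have h1 : ¬ ∀ᶠ n in 𝓤, ∃ i, χ * T n ≤ Real.log |(g n i : ℝ)| := fun h => hbig ⟨χ, hχ, h⟩
    rw [← Ultrafilter.eventually_not] at h1
    filter_upwards [h1] with n hn i
    push Not at hn
    by_cases h0 : g n i = 0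
    · simp [h0, (Real.exp_pos _).le]
    · exact (Real.log_le_iff_le_exp (by positivity)).1 (hn i).le
  obtain ⟨e⟩ : Nonempty (Option κ' ≃ κ) :=
    ⟨Fintype.equivOfCardEq (by rw [Fintype.card_option, hκ'])⟩
  have hcard : 0 < Fintype.card κ := by omega
  obtain ⟨i₁⟩ : Nonempty κ := Fintype.card_pos_iff.1 hcard
  have hg0 : ∀ᶠ n in 𝓤, g n ≠ 0 := by
    filter_upwards [hg] with n hn h0
    have := hn 2 (fun i => by rw [h0]; exact dvd_zero _)
    omega
  -- supports
  let ga : (κ → ℤ) → κ → ℚ := fun h i => ∑ j, M.adjugate j i * h j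
  set J : Finset κ := Finset.univ.filter fun j => ∀ᶠ n in 𝓤, g n j ≠ 0 with hJdef
  set I : Finset κ := Finset.univ.filter fun i => ∀ᶠ n in 𝓤, ga (g n) i ≠ 0 with hIdef
  have hJin : ∀ᶠ n in 𝓤, ∀ j ∈ J, g n j ≠ 0 := by
    rw [Finset.eventually_all]
    intro j hj
    exact (Finset.mem_filter.1 hj).2
  have hJout : ∀ᶠ n in 𝓤, ∀ j, j ∉ J → g n j = 0 := by
    rw [Filter.eventually_all]
    intro j
    by_cases hj : j ∈ J
    · exact Eventually.of_forall fun n h => absurd hj h
    · have h1 : ¬ ∀ᶠ n in 𝓤, g n j ≠ 0 := fun h => hj (Finset.mem_filter.2 ⟨Finset.mem_univ _, h⟩)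
      rw [← Ultrafilter.eventually_not] at h1
      filter_upwards [h1] with n hn _
      exact not_not.1 hn
  have hIin : ∀ᶠ n in 𝓤, ∀ i ∈ I, ga (g n) i ≠ 0 := by
    rw [Finset.eventually_all]
    intro j hj
    exact (Finset.mem_filter.1 hj).2
  have hIout : ∀ᶠ n in 𝓤, ∀ i, i ∉ I → ga (g n) i = 0 := by
    rw [Filter.eventually_all]
    intro j
    by_cases hj : j ∈ I
    · exact Eventually.of_forall fun n h => absurd hj h
    · have h1 : ¬ ∀ᶠ n in 𝓤, ga (g n) j ≠ 0 :=
        fun h => hj (Finset.mem_filter.2 ⟨Finset.mem_univ _, h⟩)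
      rw [← Ultrafilter.eventually_not] at h1
      filter_upwards [h1] with n hn _
      exact not_not.1 hn
  have hJne : J.Nonempty := by
    obtain ⟨n, h1, h2⟩ := (hg0.and hJout).exists
    obtain ⟨j, hj⟩ := Function.ne_iff.1 h1
    exact ⟨j, by_contra fun h => hj (h2 j h)⟩
  have hex : ∀ v, ∃ j ∈ J, ∀ j' ∈ J, a v j ≤ a v j' := fun v => J.exists_min_image (a v) hJne
  choose jv hjv hjmin using hex
  -- a common denominator
  obtain ⟨Q, hQ, hQz⟩ : ∃ Q : ℕ, 0 < Q ∧ ∀ j i, ∃ z : ℤ, (Q : ℚ) * M.adjugate j i = z := by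
    refine ⟨∏ p : κ × κ, (M.adjugate p.1 p.2).den, Finset.prod_pos fun p _ => Rat.den_pos _,
      fun j i => ?_⟩
    obtain ⟨q, hq⟩ := Finset.dvd_prod_of_mem (fun p : κ × κ => (M.adjugate p.1 p.2).den)
      (Finset.mem_univ (j, i))
    refine ⟨q * (M.adjugate j i).num, ?_⟩
    rw [hq]
    push_cast
    have h1 : ((M.adjugate j i).den : ℚ) * M.adjugate j i = (M.adjugate j i).num :=
      Rat.den_mul_eq_num _
    calc ((M.adjugate j i).den : ℚ) * q * M.adjugate j i
        = q * (((M.adjugate j i).den : ℚ) * M.adjugate j i) := by ring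
      _ = _ := by rw [h1]
  choose z hz using hQz
  have hgaQ : ∀ (h : κ → ℤ) i, ga h i ≠ 0 → (1 : ℝ) ≤ Q * |(ga h i : ℝ)| := by
    intro h i hne
    have h1 : (Q : ℚ) * ga h i = ((∑ j, z j i * h j : ℤ) : ℚ) := by
      push_cast
      rw [Finset.mul_sum]
      exact Finset.sum_congr rfl fun j _ => by rw [← mul_assoc, hz]
    have h2 : (∑ j, z j i * h j : ℤ) ≠ 0 := by
      intro h0
      rw [h0, Int.cast_zero] at h1
      rcases mul_eq_zero.1 h1 with h3 | h3
      · exact hQ.ne' (by exact_mod_cast h3)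
      · exact hne h3
    have h3 : (Q : ℝ) * (ga h i : ℝ) = ((∑ j, z j i * h j : ℤ) : ℝ) := by
      have := congrArg (Rat.cast : ℚ → ℝ) h1
      push_cast at this ⊢
      exact this
    have h4 : (1 : ℝ) ≤ |((∑ j, z j i * h j : ℤ) : ℝ)| := by
      exact_mod_cast Int.one_le_abs h2
    rwa [← h3, abs_mul, Nat.abs_cast] at h4
  -- claim A
  have claimA : ∀ i ∈ I, c i < ∑ v, a v (jv v) := by
    intro i hi
    by_contra hcon
    push Not at hcon
    set γ : ℝ := ∑ v, ∑ i, a v i - ∑ i, c i with hγ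
    have hγpos : 0 < γ := sub_pos.2 hgap
    set χ : ℝ := γ / (2 * ((Fintype.card V : ℝ) + 1)) with hχ
    have hVpos : (0 : ℝ) < (Fintype.card V : ℝ) + 1 := by positivity
    have hχpos : 0 < χ := by positivity
    set C₁ : ℝ := ∑ v, ∑ s ∈ Finset.univ.erase (jv v), Real.log (b v) with hC₁
    set C₂ : ℝ := Real.log ((Q : ℝ) * (Fintype.card κ).factorial) with hC₂
    obtain ⟨n, hTn, hTn0, hgn, hg0n, hun, hgun, huMn, huvn, hsn, hJn, hIn⟩ :=
      ((hT.eventually_gt_atTop (2 * (C₁ + C₂) / γ)).and (hTpos.and (hg.and (hg0.and (hu.and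
        (hgu.and (huM.and (huv.and ((hsmall χ hχpos).and (hJin.and hIin)))))))))).exists
    obtain ⟨ρ, hρ⟩ := exists_mul e hgn hg0n hun hgun (minors e (g n) (u n))
      (fun l => minors_orth e (g n) (u n) l)
    have hρ0 : ρ ≠ 0 := by
      intro h0
      apply det_mat_ne_zero e hg0n hun hgun
      rw [← minors_g]
      exact Finset.sum_eq_zero fun j _ => by rw [hρ, h0, zero_mul, mul_zero]
    -- upper bound
    have hup : |(ρ : ℝ)| ≤ Q * ((Fintype.card κ).factorial *
        Real.exp (∑ s, c s * T n - c i * T n)) := by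
      have h1 := minors_bound e (g n) (u n) (M.map (Rat.castHom ℝ)) (fun s => c s * T n)
        (fun l i => by simpa using huMn l i) i
      have h2 : ∑ j, (M.map (Rat.castHom ℝ)).adjugate j i * (minors e (g n) (u n) j : ℝ) =
          ρ * (ga (g n) i : ℝ) := by
        have h3 : (M.map (Rat.castHom ℝ)).adjugate = M.adjugate.map (Rat.castHom ℝ) :=
          (RingHom.map_adjugate (Rat.castHom ℝ) M).symm
        simp only [ga]
        push_cast
        rw [Finset.mul_sum]
        refine Finset.sum_congr rfl fun j _ => ?_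
        rw [h3, hρ]
        simp only [Matrix.map_apply, Rat.coe_castHom, Int.cast_mul]
        ring
      rw [h2, abs_mul] at h1
      have h3 := hgaQ (g n) i (hIn i hi)
      calc |(ρ : ℝ)| = |(ρ : ℝ)| * 1 := (mul_one _).symm
        _ ≤ |(ρ : ℝ)| * (Q * |(ga (g n) i : ℝ)|) := mul_le_mul_of_nonneg_left h3 (abs_nonneg _)
        _ = Q * (|(ρ : ℝ)| * |(ga (g n) i : ℝ)|) := by ring
        _ ≤ _ := mul_le_mul_of_nonneg_left h1 (Nat.cast_nonneg _)
    -- lower bound
    have hlow := le_log_of_prod_dvd b hb hcop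
      (fun v => ∑ s ∈ Finset.univ.erase (jv v), kexp (b v) (a v s) (T n))
      (ρ * ∏ v, g n (jv v))
      (mul_ne_zero hρ0 (Finset.prod_ne_zero_iff.2 fun v _ => hJn _ (hjv v))) (by
        intro v
        have h1 := minors_dvd e (g n) (u n) (b v) (fun s => kexp (b v) (a v s) (T n))
          (fun l i => huvn l v i) (jv v)
        rw [hρ] at h1
        exact h1.trans (mul_dvd_mul_left _ (Finset.dvd_prod_of_mem (fun v => g n (jv v))
          (Finset.mem_univ v))))
    have hprod : |((ρ * ∏ v, g n (jv v) : ℤ) : ℝ)| ≤ |(ρ : ℝ)| *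
        Real.exp (Fintype.card V * (χ * T n)) := by
      push_cast
      rw [abs_mul, Finset.abs_prod]
      refine mul_le_mul_of_nonneg_left ?_ (abs_nonneg _)
      refine (Finset.prod_le_prod (fun _ _ => abs_nonneg _) fun v _ => hsn (jv v)).trans ?_
      rw [Finset.prod_const, Finset.card_univ, ← Real.exp_nat_mul]
    have hQf : (0 : ℝ) < (Q : ℝ) * (Fintype.card κ).factorial := by positivity
    have hchain : Real.exp (∑ v, ((∑ s ∈ Finset.univ.erase (jv v), kexp (b v) (a v s) (T n) : ℕ) : ℝ)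
        * Real.log (b v)) ≤
        Real.exp (C₂ + (∑ s, c s * T n - c i * T n) + Fintype.card V * (χ * T n)) := by
      refine (hlow.trans hprod).trans ?_
      rw [Real.exp_add, Real.exp_add, hC₂, Real.exp_log hQf]
      refine mul_le_mul_of_nonneg_right ?_ (Real.exp_pos _).le
      rw [mul_assoc]
      exact hup
    have hlin := Real.exp_le_exp.1 hchain
    have hlow2 : (∑ v, ∑ s, a v s) * T n - (∑ v, a v (jv v)) * T n - C₁ ≤
        ∑ v, ((∑ s ∈ Finset.univ.erase (jv v), kexp (b v) (a v s) (T n) : ℕ) : ℝ) *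
          Real.log (b v) := by
      have h1 : (∑ v, ∑ s, a v s) * T n - (∑ v, a v (jv v)) * T n - C₁ =
          ∑ v, ∑ s ∈ Finset.univ.erase (jv v), (a v s * T n - Real.log (b v)) := by
        rw [hC₁]
        simp only [Finset.sum_sub_distrib]
        congr 1
        rw [← sub_mul, ← Finset.sum_sub_distrib, Finset.sum_mul]
        refine Finset.sum_congr rfl fun v _ => ?_
        rw [← Finset.add_sum_erase _ _ (Finset.mem_univ (jv v)), add_sub_cancel_left,
          Finset.sum_mul]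
      rw [h1]
      refine Finset.sum_le_sum fun v _ => ?_
      push_cast
      rw [Finset.sum_mul]
      exact Finset.sum_le_sum fun s _ => kexp_ge (hb v) _ _
    have h5 : (∑ v, ∑ s, a v s) * T n - (∑ v, a v (jv v)) * T n - C₁ ≤
        C₂ + ((∑ s, c s) * T n - c i * T n) + Fintype.card V * (χ * T n) := by
      have hs : ∑ s, c s * T n = (∑ s, c s) * T n := (Finset.sum_mul _ _ _).symm
      rw [hs] at hlin
      exact hlow2.trans hlin
    have h6 : (Fintype.card V : ℝ) * χ ≤ γ / 2 := by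
      rw [hχ]
      rw [mul_div_assoc', div_le_div_iff₀ (by positivity) (by norm_num)]
      nlinarith
    have h7 : (∑ v, a v (jv v)) * T n ≤ c i * T n := mul_le_mul_of_nonneg_right hcon hTn0
    have h8 : (Fintype.card V : ℝ) * (χ * T n) ≤ γ / 2 * T n := by
      rw [← mul_assoc]
      exact mul_le_mul_of_nonneg_right h6 hTn0
    have h9 : γ * T n = (∑ v, ∑ s, a v s) * T n - (∑ s, c s) * T n := by rw [hγ]; ring
    have h10 : γ / 2 * T n ≤ C₁ + C₂ := by nlinarith
    rw [div_lt_iff₀ hγpos] at hTn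
    nlinarith
  -- claim B
  have claimB : ∀ h : κ → ℤ, (∀ j, j ∉ J → h j = 0) → (∀ i, i ∉ I → ga h i = 0) →
      ∀ᶠ n in 𝓤, ∀ l, ∑ i, h i * u n l i = 0 := by
    intro h hhJ hhI
    set α : ℝ := ∑ v, a v (jv v) with hα
    set C₃ : ℝ := ∑ v, Real.log (b v) with hC₃
    have hlim : Tendsto (fun n => ∑ i ∈ I, |(ga h i : ℝ)| *
        Real.exp ((c i - α) * T n + C₃)) 𝓤 (nhds (∑ i ∈ I, |(ga h i : ℝ)| * 0)) := by
      refine tendsto_finsetSum _ fun i hi => Tendsto.const_mul _ ?_
      apply Real.tendsto_exp_atBot.comp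
      apply tendsto_atBot_add_const_right
      exact hT.const_mul_atTop_of_neg (sub_neg.2 (claimA i hi))
    simp only [mul_zero, Finset.sum_const_zero] at hlim
    have hdet : (0 : ℝ) < |((M.det : ℚ) : ℝ)| := abs_pos.2 (by exact_mod_cast hM)
    filter_upwards [hlim.eventually_lt_const hdet, hTpos, huM, huv] with n h1 h2 h3 h4 l
    by_contra hne
    have h5 := le_log_of_prod_dvd b hb hcop (fun v => kexp (b v) (a v (jv v)) (T n))
      (∑ i, h i * u n l i) hne (by
        intro v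
        refine Finset.dvd_sum fun i _ => ?_
        by_cases hi : i ∈ J
        · exact Dvd.dvd.mul_left ((pow_dvd_pow _ (kexp_mono (hb v) (hjmin v i hi) h2)).trans
            (h4 l v i)) _
        · rw [hhJ i hi, zero_mul]
          exact dvd_zero _)
    have h6 : Real.exp (α * T n - C₃) ≤ |((∑ i, h i * u n l i : ℤ) : ℝ)| := by
      refine le_trans (Real.exp_le_exp.2 ?_) h5
      rw [hα, hC₃, Finset.sum_mul, ← Finset.sum_sub_distrib]
      exact Finset.sum_le_sum fun v _ => kexp_ge (hb v) _ _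
    have h7 : ((M.det : ℚ) : ℝ) * ((∑ i, h i * u n l i : ℤ) : ℝ) =
        ∑ i ∈ I, (ga h i : ℝ) * ∑ j, (M i j : ℝ) * u n l j := by
      have h8 : (M.det : ℚ) * ((∑ i, h i * u n l i : ℤ) : ℚ) =
          ∑ i, ga h i * ∑ j, M i j * (u n l j : ℚ) := by
        have h9 : ∀ j k, ∑ i, M.adjugate j i * M i k = if j = k then M.det else 0 := by
          intro j k
          have := congrFun (congrFun (Matrix.adjugate_mul M) j) k
          rw [Matrix.mul_apply] at this
          rw [this, Matrix.smul_apply, Matrix.one_apply, smul_eq_mul, mul_ite, mul_one, mul_zero]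
        have h10 : ∑ i, ga h i * ∑ j, M i j * (u n l j : ℚ) =
            ∑ j, ∑ k, (h j : ℚ) * (u n l k : ℚ) * ∑ i, M.adjugate j i * M i k := by
          have h12 : ∀ i, ga h i * ∑ j, M i j * (u n l j : ℚ) =
              ∑ j, ∑ k, (M.adjugate j i * h j) * (M i k * (u n l k : ℚ)) := fun i =>
            Finset.sum_mul_sum _ _ _ _
          simp only [h12]
          rw [Finset.sum_comm]
          refine Finset.sum_congr rfl fun j _ => ?_
          rw [Finset.sum_comm]
          refine Finset.sum_congr rfl fun k _ => ?_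
          rw [Finset.mul_sum]
          exact Finset.sum_congr rfl fun i _ => by ring
        rw [h10]
        simp only [h9, mul_ite, mul_zero, Finset.sum_ite_eq, Finset.mem_univ, if_true]
        push_cast
        rw [Finset.mul_sum]
        exact Finset.sum_congr rfl fun i _ => by ring
      have h11 : ∑ i, ga h i * ∑ j, M i j * (u n l j : ℚ) =
          ∑ i ∈ I, ga h i * ∑ j, M i j * (u n l j : ℚ) := by
        symm
        apply Finset.sum_subset (Finset.subset_univ _)
        intro i _ hi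
        rw [hhI i hi, zero_mul]
      rw [h11] at h8
      have := congrArg (Rat.cast : ℚ → ℝ) h8
      push_cast at this ⊢
      exact this
    have h8 : |((M.det : ℚ) : ℝ)| * Real.exp (α * T n - C₃) ≤
        ∑ i ∈ I, |(ga h i : ℝ)| * Real.exp (c i * T n) := by
      refine (mul_le_mul_of_nonneg_left h6 (abs_nonneg _)).trans ?_
      rw [← abs_mul, h7]
      refine (Finset.abs_sum_le_sum_abs _ _).trans (Finset.sum_le_sum fun i _ => ?_)
      rw [abs_mul]
      exact mul_le_mul_of_nonneg_left (h3 l i) (abs_nonneg _)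
    have h9 : |((M.det : ℚ) : ℝ)| ≤ ∑ i ∈ I, |(ga h i : ℝ)| * Real.exp ((c i - α) * T n + C₃) := by
      have h10 := mul_le_mul_of_nonneg_right h8 (Real.exp_pos (-(α * T n - C₃))).le
      rw [mul_assoc, ← Real.exp_add, add_neg_cancel, Real.exp_zero, mul_one, Finset.sum_mul] at h10
      refine h10.trans (le_of_eq (Finset.sum_congr rfl fun i _ => ?_))
      rw [mul_assoc, ← Real.exp_add]
      congr 2
      ring
    linarith
  -- conclusion
  obtain ⟨n₀, hn₀J, hn₀I, hn₀g, hn₀0⟩ := (hJout.and (hIout.and (hg.and hg0))).exists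
  have hfin := claimB (g n₀) hn₀J hn₀I
  have hpm : ∀ᶠ n in 𝓤, g n = g n₀ ∨ g n = fun i => - g n₀ i := by
    filter_upwards [hfin, hg, hg0, hu, hgu] with n h1 h2 h3 h4 h5
    obtain ⟨ρ, hρ⟩ := exists_mul e h2 h3 h4 h5 (g n₀) h1
    have h6 : ρ.natAbs = 1 := hn₀g _ fun i => by
      rw [hρ, Int.natAbs_dvd]
      exact dvd_mul_right _ _
    rcases Int.natAbs_eq ρ with h7 | h7 <;> rw [h6] at h7
    · left
      funext i
      rw [hρ, h7]
      simp
    · right
      funext i
      rw [hρ, h7]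
      simp
  rcases Ultrafilter.eventually_or.1 hpm with h | h
  · exact ⟨_, h⟩
  · exact ⟨_, h⟩

end SST
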