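import Pool.Agent.Subspace.ReduceAux

/-!
# Reduction to polynomials in `m` variables
-/

namespace SST

open MvPolynomial

theorem reduce {κ : Type} [Fintype κ] [DecidableEq κ] (hκ : 2 ≤ Fintype.card κ) (N : ℕ)
    (hN : 1 ≤ N) :
    ∃ C₂ : ℝ, 0 < C₂ ∧ ∀ (m : ℕ) (r : Fin m → ℕ), (∀ h, 1 ≤ r h) →
      ∀ P : MvPolynomial (Fin m × κ) ℤ, P ≠ 0 →
      (∀ s ∈ P.support, ∀ h, ∑ i, s (h, i) = r h) →
      ∀ g : Fin m → κ → ℤ, (∀ h, ∀ d : ℕ, (∀ i, (d : ℤ) ∣ g h i) → d = 1) →
      ∀ θ : ℝ,
      (∀ y : Fin m × κ → ℚ, (∀ h, ∑ i, (g h i : ℚ) * y (h, i) = 0) →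
        Ord (bw r) θ (shift y (map (Int.castRingHom ℚ) P))) →
      ∃ f : MvPolynomial (Fin m) ℤ, f ≠ 0 ∧ (∀ h, f.degreeOf h ≤ r h) ∧
        Real.log (l1Z f) ≤ Real.log (l1Z P) + C₂ * ∑ h, (r h : ℝ) ∧
        ∃ ξ : Fin m → ℚ,
          (∀ h i, Real.log |(g h i : ℝ)| ≤ C₂ * (1 + Real.log ((ξ h).den : ℝ))) ∧
          Ord (fun h => 1 / (r h : ℝ)) (θ - m * Fintype.card κ / N)
            (shift ξ (map (Int.castRingHom ℚ) f)) := by
  set D : ℕ := Fintype.card κ with hD
  set M : ℕ := N ^ D + N with hM
  have hM1 : (1 : ℝ) ≤ (M : ℝ) := by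
    have : 1 ≤ M := by rw [hM]; omega
    exact_mod_cast this
  have hlogM : 0 ≤ Real.log (M : ℝ) := Real.log_nonneg hM1
  have hlogM1 : 0 ≤ Real.log (1 + M : ℝ) := Real.log_nonneg (by linarith)
  refine ⟨D * (Real.log (M : ℝ) + 2) + Real.log (1 + M : ℝ) + 1, by positivity, ?_⟩
  intro m r hr P hP hdeg g hg θ hord
  choose α S hScard hSle hSξ using fun h => red_block hκ N hN (g h) (hg h)
  -- the grid lemma
  let G : MvPolynomial (redτ α) (MvPolynomial (Fin m) ℤ) := redΦ α P
  have hG : G ≠ 0 := redΦ_ne_zero hP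
  have hGdeg : ∀ x : redτ α, G.degreeOf x ≤ r x.1.1 := by
    intro x
    rw [degreeOf_le_iff]
    intro K hK
    rw [mem_support_iff] at hK
    obtain ⟨I, hI⟩ := ne_zero_iff.1 hK
    rw [coeff_redΦ, ← mem_support_iff] at hI
    rw [← hdeg _ hI x.1.1, ← redJoin_pos (I := I) x.2]
    exact Finset.single_le_sum (f := fun i => redJoin α K I (x.1.1, i))
      (fun _ _ => Nat.zero_le _) (Finset.mem_univ x.1.2)
  let E : ℤ ↪ MvPolynomial (Fin m) ℤ := ⟨C, C_injective _ _⟩
  obtain ⟨cA, hcA, K, hK, hne⟩ := grid_lemma G hG (fun x => r x.1.1) hGdeg N hN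
    (fun x => (S x.1.1 x.1.2).map E) (fun x => by rw [Finset.card_map]; exact hScard _ _)
  have hex : ∀ x : redτ α, ∃ z ∈ S x.1.1 x.1.2, C z = cA x := by
    intro x
    obtain ⟨z, hz, hz'⟩ := Finset.mem_map.1 (hcA x)
    exact ⟨z, hz, hz'⟩
  choose c hcS hcC using hex
  have hcA' : cA = fun x => C (c x) := by funext x; rw [hcC]
  rw [hcA'] at hne
  set f : MvPolynomial (Fin m) ℤ := coeff K (shift (fun x => C (c x)) G) with hf
  -- the full grid point
  let y₀ : Fin m × κ → ℤ := fun x => if h : x.2 ≠ α x.1 then c ⟨x, h⟩ else 0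
  have hcoef : ∀ I, coeff I f = coeff (redJoin α K I) (shift y₀ P) := by
    intro I
    have h1 := redΦ_shift (α := α) c (fun _ => (0 : ℤ)) P
    have h2 : map (shiftHom (fun _ : Fin m => (0 : ℤ)))
        (shift (fun x => C (c x)) (redΦ α P)) = shift (fun x => C (c x)) (redΦ α P) := by
      have h3 : (shiftHom (fun _ : Fin m => (0 : ℤ))) = RingHom.id _ := by
        apply RingHom.ext
        intro Q
        rw [shiftHom_apply, shift_zero]; rfl
      rw [h3, map_id]
    rw [h2] at h1
    rw [← coeff_redΦ, h1]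
  have hy₀ : ∀ x, |((y₀ x : ℤ) : ℝ)| ≤ M := by
    intro x
    by_cases hx : x.2 ≠ α x.1
    · have h1 : y₀ x = c ⟨x, hx⟩ := by simp [y₀, hx]
      obtain ⟨h2, h3⟩ := hSle x.1 x.2 _ (hcS ⟨x, hx⟩)
      rw [h1, abs_of_nonneg (by exact_mod_cast h2)]
      exact_mod_cast h3
    · have h1 : y₀ x = 0 := by
        simp only [y₀]
        rw [dif_neg hx]
      rw [h1]; simp
  refine ⟨f, hne, ?_, ?_, ?_⟩
  · intro h
    rw [degreeOf_le_iff]
    intro I hI
    rw [mem_support_iff, hcoef, ← mem_support_iff] at hI
    -- use a negative weight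
    have h1 : Ord (fun x : Fin m × κ => if x = (h, α h) then (-1 : ℝ) else 0) (-(r h : ℝ)) P := by
      intro s hs
      rw [wt_eq_sum, Finset.sum_eq_single (h, α h)]
      · rw [if_pos rfl, mul_neg, mul_one, neg_le_neg_iff]
        have h2 : s (h, α h) ≤ r h := by
          rw [← hdeg s hs h]
          exact Finset.single_le_sum (f := fun i => s (h, i)) (fun _ _ => Nat.zero_le _)
            (Finset.mem_univ (α h))
        exact_mod_cast h2
      · intro x _ hx
        rw [if_neg hx, mul_zero]
      · intro hx; exact absurd (Finset.mem_univ _) hx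
    have h2 : Ord (fun x : Fin m × κ => if x = (h, α h) then (-1 : ℝ) else 0) (-(r h : ℝ))
        (shift y₀ P) := by
      apply Ord.bind₁ h1
      intro x
      refine (Ord_X x le_rfl).add (Ord_C ?_ _)
      split_ifs <;> norm_num
    have h3 := h2 _ hI
    rw [wt_eq_sum, Finset.sum_eq_single (h, α h)] at h3
    · have hx : ¬ ((h, α h) : Fin m × κ).2 ≠ α ((h, α h) : Fin m × κ).1 := by simp
      rw [if_pos rfl, mul_neg, mul_one, neg_le_neg_iff, redJoin_neg hx] at h3
      exact_mod_cast h3
    · intro x _ hx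
      rw [if_neg hx, mul_zero]
    · intro hx; exact absurd (Finset.mem_univ _) hx
  · have h1 : l1Z f ≤ l1Z (shift y₀ P) := by
      unfold l1Z l1
      have hinj : Function.Injective (fun I : Fin m →₀ ℕ => redJoin α K I) := by
        intro I I' h
        ext i
        have hx : ¬ ((i, α i) : Fin m × κ).2 ≠ α ((i, α i) : Fin m × κ).1 := by simp
        have h2 := DFunLike.congr_fun h (i, α i)
        dsimp only at h2
        rw [redJoin_neg hx, redJoin_neg hx] at h2
        exact h2
      calc ∑ s ∈ (map (Int.castRingHom ℝ) f).support, |coeff s (map (Int.castRingHom ℝ) f)|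
          = ∑ s ∈ (map (Int.castRingHom ℝ) f).support,
              |coeff (redJoin α K s) (map (Int.castRingHom ℝ) (shift y₀ P))| := by
            apply Finset.sum_congr rfl
            intro s _
            rw [coeff_map, coeff_map, hcoef]
        _ = ∑ s ∈ (map (Int.castRingHom ℝ) f).support.image (fun I => redJoin α K I),
              |coeff s (map (Int.castRingHom ℝ) (shift y₀ P))| := by
            rw [Finset.sum_image (fun a _ b _ hab => hinj hab)]
        _ ≤ _ := by
            apply Finset.sum_le_sum_of_subset_of_nonneg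
            · intro s hs
              obtain ⟨I, hI, rfl⟩ := Finset.mem_image.1 hs
              rw [mem_support_iff] at hI ⊢
              rw [coeff_map] at hI ⊢
              rwa [hcoef] at hI
            · intro _ _ _; exact abs_nonneg _
    have h2 : l1Z (shift y₀ P) ≤ l1Z P * (1 + M : ℝ) ^ (∑ h, r h) := by
      unfold l1Z
      rw [map_shift]
      unfold shift
      apply l1_bind₁_le
      intro s hs
      have hs' : s ∈ P.support := support_map_subset _ _ hs
      calc ∏ i ∈ s.support, l1 (X i + C ((Int.castRingHom ℝ) (y₀ i))) ^ s i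
          ≤ ∏ i ∈ s.support, (1 + M : ℝ) ^ s i := by
            apply Finset.prod_le_prod
            · intro i _; exact pow_nonneg (l1_nonneg _) _
            · intro i _
              apply pow_le_pow_left₀ (l1_nonneg _)
              refine (l1_add _ _).trans ?_
              rw [l1_X, l1_C]
              exact add_le_add le_rfl (hy₀ i)
        _ = (1 + M : ℝ) ^ (∑ i ∈ s.support, s i) := by rw [Finset.prod_pow_eq_pow_sum]
        _ = (1 + M : ℝ) ^ (∑ h, r h) := by
            congr 1
            rw [← Finset.sum_congr rfl (fun h _ => hdeg s hs' h)]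
            rw [← Fintype.sum_prod_type' (f := fun h i => s (h, i))]
            apply Finset.sum_subset (Finset.subset_univ _)
            intro x _ hx
            exact Finsupp.notMem_support_iff.1 hx
    have h3 : 1 ≤ l1Z f := one_le_l1Z hne
    have h4 : 1 ≤ l1Z P := one_le_l1Z hP
    have h5 : (0 : ℝ) < (1 + M : ℝ) ^ (∑ h, r h) := by positivity
    have h6 := Real.log_le_log (by linarith) (h1.trans h2)
    rw [Real.log_mul (by linarith) h5.ne', Real.log_pow] at h6
    refine h6.trans ?_
    push_cast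
    have h7 : (0 : ℝ) ≤ ∑ h, (r h : ℝ) := Finset.sum_nonneg fun _ _ => Nat.cast_nonneg _
    have h8 : (0 : ℝ) ≤ D * (Real.log (M : ℝ) + 2) + 1 := by positivity
    nlinarith [mul_nonneg h8 h7]
  · -- the point
    let c' : Fin m → κ → ℤ := fun h i => y₀ (h, i)
    have hc' : ∀ h i, i ≠ α h → c' h i ∈ S h i := by
      intro h i hi
      have h1 : c' h i = c ⟨(h, i), hi⟩ := by simp [c', y₀, hi]
      rw [h1]
      exact hcS ⟨(h, i), hi⟩
    choose ξ hξ0 hξ1 using fun h => hSξ h (c' h) (hc' h)
    refine ⟨ξ, ?_, ?_⟩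
    · intro h i
      refine (hξ1 h i).trans ?_
      have h1 : (0 : ℝ) ≤ Real.log ((ξ h).den : ℝ) :=
        Real.log_nonneg (by exact_mod_cast (ξ h).den_pos)
      have h2 : (0 : ℝ) ≤ D := Nat.cast_nonneg _
      have h3 : (0 : ℝ) ≤ D * Real.log (M : ℝ) := mul_nonneg h2 hlogM
      have h4 : (0 : ℝ) ≤ D * Real.log (M : ℝ) * Real.log ((ξ h).den : ℝ) := mul_nonneg h3 h1
      have h5 : (0 : ℝ) ≤ Real.log (1 + M : ℝ) * Real.log ((ξ h).den : ℝ) := mul_nonneg hlogM1 h1
      have h6 : (0 : ℝ) ≤ D * Real.log ((ξ h).den : ℝ) := mul_nonneg h2 h1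
      nlinarith
    · let y : Fin m × κ → ℚ := fun x =>
        if h : x.2 ≠ α x.1 then ((c ⟨x, h⟩ : ℤ) : ℚ) else ξ x.1
      have hy : ∀ h, ∑ i, (g h i : ℚ) * y (h, i) = 0 := by
        intro h
        rw [← hξ0 h]
        apply Finset.sum_congr rfl
        intro i _
        congr 1
        by_cases hi : i = α h
        · rw [if_pos hi]
          simp [y, hi]
        · rw [if_neg hi]
          simp [y, c', y₀, hi]
      have hO := hord y hy
      have h1 : redΦ α (shift y (map (Int.castRingHom ℚ) P)) =
          map (shiftHom ξ) (shift (fun x => C ((c x : ℤ) : ℚ))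
            (redΦ α (map (Int.castRingHom ℚ) P))) :=
        redΦ_shift (α := α) (fun x => ((c x : ℤ) : ℚ)) ξ _
      have h2 : shift (fun x => C ((c x : ℤ) : ℚ)) (redΦ α (map (Int.castRingHom ℚ) P)) =
          map (map (Int.castRingHom ℚ)) (shift (fun x => C (c x)) G) := by
        rw [map_shift, redΦ_map]
        congr 1
        funext x
        simp
      have h3 : ∀ I, coeff I (shift ξ (map (Int.castRingHom ℚ) f)) =
          coeff (redJoin α K I) (shift y (map (Int.castRingHom ℚ) P)) := by
        intro I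
        rw [← coeff_redΦ, h1, h2, coeff_map, coeff_map, shiftHom_apply]
      intro I hI
      rw [mem_support_iff, h3, ← mem_support_iff] at hI
      have h4 := hO _ hI
      have h5 : wt (bw r) (redJoin α K I) =
          (∑ x ∈ (Finset.univ.filter fun x : Fin m × κ => x.2 ≠ α x.1),
            (redJoin α K I x : ℝ) * bw r x) + wt (fun h => 1 / (r h : ℝ)) I := by
        rw [wt_eq_sum, ← Finset.sum_filter_add_sum_filter_not Finset.univ
          (fun x : Fin m × κ => x.2 ≠ α x.1), wt_eq_sum]
        congr 1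
        symm
        apply Finset.sum_bij (fun h _ => ((h, α h) : Fin m × κ))
        · intro h _; simp
        · intro h _ h' _ hh; exact (Prod.mk.inj hh).1
        · intro x hx
          refine ⟨x.1, Finset.mem_univ _, ?_⟩
          have := (Finset.mem_filter.1 hx).2
          rw [not_not] at this
          exact Prod.ext rfl this.symm
        · intro h _
          have hx : ¬ ((h, α h) : Fin m × κ).2 ≠ α ((h, α h) : Fin m × κ).1 := by simp
          rw [redJoin_neg hx]
          rfl
      have h6 : (∑ x ∈ (Finset.univ.filter fun x : Fin m × κ => x.2 ≠ α x.1),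
            (redJoin α K I x : ℝ) * bw r x) ≤ m * D / N := by
        have hNpos : (0 : ℝ) < N := by exact_mod_cast hN
        calc (∑ x ∈ (Finset.univ.filter fun x : Fin m × κ => x.2 ≠ α x.1),
            (redJoin α K I x : ℝ) * bw r x)
            ≤ ∑ x ∈ (Finset.univ.filter fun x : Fin m × κ => x.2 ≠ α x.1), 1 / (N : ℝ) := by
              apply Finset.sum_le_sum
              intro x hx
              have hx' := (Finset.mem_filter.1 hx).2
              rw [redJoin_pos hx']
              have hr' : (0 : ℝ) < r x.1 := by exact_mod_cast hr x.1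
              have hk := hK ⟨x, hx'⟩
              have hk' : (K ⟨x, hx'⟩ : ℝ) * N ≤ r x.1 := by exact_mod_cast hk
              rw [bw, mul_one_div, div_le_div_iff₀ hr' hNpos, one_mul]
              exact hk'
          _ ≤ ∑ x : Fin m × κ, 1 / (N : ℝ) := by
              apply Finset.sum_le_sum_of_subset_of_nonneg (Finset.filter_subset _ _)
              intro _ _ _; positivity
          _ = m * D / N := by
              rw [Finset.sum_const, Finset.card_univ, Fintype.card_prod, Fintype.card_fin,
                nsmul_eq_mul]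
              push_cast
              ring
      rw [h5] at h4
      linarith

end SST
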