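import Pool.Agent.Subspace.VanishAux

/-!
# The auxiliary polynomial vanishes to high order at small lattice points
-/

namespace SST

open MvPolynomial

namespace VanAux

lemma approx {m : ℕ} (T : Fin m → ℝ) (r : Fin m → ℕ) (hr : ∀ h, 1 ≤ r h) {R ε K : ℝ}
    (hRT : ∀ h, (1 - ε) * R ≤ r h * T h ∧ r h * T h ≤ R) (X : Fin m → ℝ)
    (hX : ∀ h, |X h| ≤ K * r h) :
    |∑ h, T h * X h - R * ∑ h, X h / r h| ≤ m * ε * R * K := by
  rw [Finset.mul_sum, ← Finset.sum_sub_distrib]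
  refine (Finset.abs_sum_le_sum_abs _ _).trans ?_
  have : ∀ h ∈ (Finset.univ : Finset (Fin m)), |T h * X h - R * (X h / r h)| ≤ ε * R * K := by
    intro h _
    have hr0 : (0 : ℝ) < r h := by exact_mod_cast hr h
    have h1 : T h * X h - R * (X h / r h) = -((R - r h * T h) * (X h / r h)) := by
      field_simp
      ring
    rw [h1, abs_neg, abs_mul]
    have h2 : |R - r h * T h| ≤ ε * R := by
      rw [abs_le]; constructor <;> linarith [(hRT h).1, (hRT h).2, abs_nonneg (R - r h * T h)]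
    have h3 : |X h / r h| ≤ K := by
      rw [abs_div, abs_of_pos hr0, div_le_iff₀ hr0]; exact hX h
    exact mul_le_mul h2 h3 (abs_nonneg _) ((abs_nonneg _).trans h2)
  refine (Finset.sum_le_sum this).trans ?_
  rw [Finset.sum_const, Finset.card_univ, Fintype.card_fin, nsmul_eq_mul]
  exact le_of_eq (by ring)

lemma abs_block_le {κ : Type} [Fintype κ] {m : ℕ} (f : κ → ℝ) {K : ℝ} (hf : ∀ i, |f i| ≤ K)
    (s : Fin m × κ →₀ ℕ) (r : Fin m → ℕ) (hs : ∀ h, ∑ i, s (h, i) = r h) (h : Fin m) :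
    |∑ i, f i * s (h, i)| ≤ K * r h := by
  refine (Finset.abs_sum_le_sum_abs _ _).trans ?_
  rw [← hs h]
  push_cast
  rw [Finset.mul_sum]
  refine Finset.sum_le_sum fun i _ => ?_
  rw [abs_mul, abs_of_nonneg (Nat.cast_nonneg (α := ℝ) (s (h, i)))]
  exact mul_le_mul_of_nonneg_right (hf i) (Nat.cast_nonneg _)

lemma sum_identity {V : Type} [Fintype V] (f g : V → ℝ) (R m D η x S y : ℝ) :
    ∑ v, (R * (m * (f v / D - η)) - x - g v * S - y) =
      R * (m * ((∑ v, f v) / D)) - (Fintype.card V : ℝ) * (R * (m * η))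
        - (Fintype.card V : ℝ) * x - (∑ v, g v) * S - (Fintype.card V : ℝ) * y := by
  have h1 : ∀ v, R * (m * (f v / D - η)) - x - g v * S - y =
      (R * (m / D)) * f v - S * g v - (R * (m * η) + x + y) := fun v => by ring
  simp only [h1]
  rw [Finset.sum_sub_distrib, Finset.sum_sub_distrib, ← Finset.mul_sum, ← Finset.mul_sum,
    Finset.sum_const, Finset.card_univ, nsmul_eq_mul]
  ring

end VanAux

open VanAux in
theorem vanish {κ V : Type} [Fintype κ] [DecidableEq κ] [Nonempty κ] [Fintype V]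
    (M : Matrix κ κ ℚ) (hM : M.det ≠ 0) (b : V → ℕ) (hb : ∀ v, 2 ≤ b v)
    (hcop : Pairwise fun v w => (b v).Coprime (b w)) (a : V → κ → ℝ) (ha : ∀ v i, 0 ≤ a v i)
    (c : κ → ℝ) (hgap : ∑ i, c i < ∑ v, ∑ i, a v i) :
    ∃ ϑ : ℝ, 0 < ϑ ∧ ∃ η : ℝ, 0 < η ∧ ∀ m : ℕ, 1 ≤ m → ∀ C₁ ρ : ℝ,
      ∃ T₀ : ℝ, 0 < T₀ ∧ ∃ ε₂ : ℝ, 0 < ε₂ ∧ ε₂ < 1 ∧
      ∀ T : Fin m → ℝ, (∀ h, T₀ ≤ T h) → ∀ (R : ℝ) (r : Fin m → ℕ), (∀ h, 1 ≤ r h) →
      (∀ h, (1 - ε₂) * R ≤ r h * T h ∧ r h * T h ≤ R) →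
      ∀ P : MvPolynomial (Fin m × κ) ℤ, AuxProp M a c η C₁ r P →
      ∀ y : Fin m × κ → ℤ,
      (∀ h i, |∑ j, (M i j : ℝ) * y (h, j)| ≤ ρ * Real.exp (c i * T h)) →
      (∀ v h i, ((b v : ℤ)) ^ kexp (b v) (a v i) (T h) ∣ y (h, i)) →
      Ord (bw r) (m * ϑ) (shift y P) := by
  classical
  set D : ℝ := (Fintype.card κ : ℝ) with hD
  have hD0 : 0 < D := by rw [hD]; exact_mod_cast Fintype.card_pos
  set cm : ℝ := ∑ i, |c i| with hcmdef
  have hcm : ∀ i, |c i| ≤ cm := fun i =>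
    Finset.single_le_sum (f := fun i => |c i|) (fun _ _ => abs_nonneg _) (Finset.mem_univ i)
  have hcm0 : 0 ≤ cm := Finset.sum_nonneg fun _ _ => abs_nonneg _
  set am : ℝ := ∑ v, ∑ i, a v i with hamdef
  have ham : ∀ v i, a v i ≤ am := fun v i =>
    (Finset.single_le_sum (f := fun i => a v i) (fun i _ => ha v i) (Finset.mem_univ i)).trans
      (Finset.single_le_sum (f := fun v => ∑ i, a v i)
        (fun v _ => Finset.sum_nonneg fun i _ => ha v i) (Finset.mem_univ v))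
  have ham0 : 0 ≤ am := Finset.sum_nonneg fun v _ => Finset.sum_nonneg fun i _ => ha v i
  set nV : ℝ := (Fintype.card V : ℝ) with hnV
  have hnV0 : 0 ≤ nV := Nat.cast_nonneg _
  set A : ℝ := nV * am + cm with hA
  have hA0 : 0 ≤ A := by positivity
  set γ : ℝ := am - ∑ i, c i with hγ
  have hγ0 : 0 < γ := by rw [hγ]; linarith
  refine ⟨γ / (4 * D * (A + 1)), by positivity, γ / (8 * D * (nV + 1)), by positivity, ?_⟩
  set η : ℝ := γ / (8 * D * (nV + 1)) with hη
  set ϑ : ℝ := γ / (4 * D * (A + 1)) with hϑ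
  intro m hm C₁ ρ
  obtain ⟨B, hB1, hB⟩ := upper_bound M hM c hcm ρ
  have hlB : 0 ≤ Real.log B := Real.log_nonneg hB1
  have hlb : ∀ v, 0 ≤ Real.log (b v) := fun v =>
    Real.log_nonneg (by exact_mod_cast (by have := hb v; omega : 1 ≤ b v))
  set LB : ℝ := ∑ v, Real.log (b v) with hLB
  have hLB0 : 0 ≤ LB := Finset.sum_nonneg fun v _ => hlb v
  set C' : ℝ := |C₁| + Real.log B + LB with hC'
  have hC'0 : 0 ≤ C' := by positivity
  set ε₂ : ℝ := min (1 / 2) (γ / (8 * D * (A + 1))) with hε₂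
  have hε₂0 : 0 < ε₂ := lt_min (by norm_num) (by positivity)
  refine ⟨8 * D * (C' + 1) / γ, by positivity, ε₂, hε₂0,
    (min_le_left _ _).trans_lt (by norm_num), ?_⟩
  set T₀ : ℝ := 8 * D * (C' + 1) / γ with hT₀
  have hT₀0 : 0 < T₀ := by positivity
  intro T hT R r hr hRT P hP y hy hdiv J hJ
  by_contra hlt
  push Not at hlt
  have hT0 : ∀ h, 0 ≤ T h := fun h => hT₀0.le.trans (hT h)
  have hm0 : (0 : ℝ) < m := by exact_mod_cast hm
  have hr0 : ∀ h, (0 : ℝ) < r h := fun h => by exact_mod_cast hr h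
  have hR0 : 0 < R := by
    have h := (hRT ⟨0, hm⟩).2
    have h2 : 0 < (r ⟨0, hm⟩ : ℝ) * T ⟨0, hm⟩ := mul_pos (hr0 _) (hT₀0.trans_le (hT _))
    linarith
  have hJ' : coeff J (shift y P) ≠ 0 := mem_support_iff.1 hJ
  have hrs : (((∑ h, r h : ℕ)) : ℝ) = ∑ h, (r h : ℝ) := by push_cast; rfl
  set Sr : ℝ := ∑ h, (r h : ℝ) with hSr
  -- the sum S
  set S : ℝ := ∑ h, ∑ i, T h * J (h, i) with hS
  have hSle : S ≤ R * wt (bw r) J := by
    rw [wt_eq_sum, Fintype.sum_prod_type, hS, Finset.mul_sum]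
    refine Finset.sum_le_sum fun h _ => ?_
    rw [Finset.mul_sum]
    refine Finset.sum_le_sum fun i _ => ?_
    have h1 : T h ≤ R * (1 / (r h : ℝ)) := by
      rw [mul_one_div, le_div_iff₀ (hr0 h), mul_comm]; exact (hRT h).2
    have h2 : (0 : ℝ) ≤ J (h, i) := Nat.cast_nonneg _
    simp only [bw]
    calc T h * J (h, i) ≤ R * (1 / (r h : ℝ)) * J (h, i) := mul_le_mul_of_nonneg_right h1 h2
      _ = R * ((J (h, i) : ℝ) * (1 / (r h : ℝ))) := by ring
  have hS0 : 0 ≤ S := Finset.sum_nonneg fun h _ => Finset.sum_nonneg fun i _ =>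
    mul_nonneg (hT0 h) (Nat.cast_nonneg _)
  have hSm : S ≤ R * (m * ϑ) := hSle.trans (mul_le_mul_of_nonneg_left hlt.le hR0.le)
  -- upper bound
  have hinf : ∀ s ∈ (lsub M⁻¹ (map (Int.castRingHom ℚ) P)).support,
      ∑ h, ∑ i, (c i * T h) * s (h, i) ≤
        R * (m * ((∑ i, c i) / D + η)) + m * ε₂ * R * cm := by
    intro s hs
    have hhom : ∀ h, ∑ i, s (h, i) = r h :=
      hom_lsub M⁻¹ r _ (fun s hs => hP.hom s (support_map_subset _ _ hs)) s hs
    have h1 := approx T r hr (ε := ε₂) (K := cm) hRT (fun h => ∑ i, c i * s (h, i))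
      (fun h => abs_block_le c hcm s r hhom h)
    have h2 := hP.inf s hs
    have h3 : ∑ h, ∑ i, (c i * T h) * (s (h, i) : ℝ) = ∑ h, T h * ∑ i, c i * s (h, i) := by
      refine Finset.sum_congr rfl fun h _ => ?_
      rw [Finset.mul_sum]
      exact Finset.sum_congr rfl fun i _ => by ring
    rw [h3]
    have h4 := (abs_le.1 h1).2
    have h5 := mul_le_mul_of_nonneg_left h2 hR0.le
    linarith
  have hup := hB m T hT0 r P hP.hom _ hinf y hy J
  have hl1 : 1 ≤ l1Z P := one_le_l1Z hP.ne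
  have hlogup : Real.log |((coeff J (shift y P) : ℤ) : ℝ)| ≤
      C₁ * Sr + Sr * Real.log B + (R * (m * ((∑ i, c i) / D + η)) + m * ε₂ * R * cm) +
        cm * S := by
    have hpos : 0 < |((coeff J (shift y P) : ℤ) : ℝ)| := abs_pos.2 (by exact_mod_cast hJ')
    have h1 := Real.log_le_log hpos hup
    have hBpos : 0 < B ^ (∑ h, r h) := pow_pos (by linarith) _
    have hlpos : 0 < l1Z P := by linarith
    rw [Real.log_mul (by positivity) (Real.exp_pos _).ne', Real.log_exp,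
      Real.log_mul (by positivity) (Real.exp_pos _).ne', Real.log_exp,
      Real.log_mul hlpos.ne' hBpos.ne', Real.log_pow, hrs] at h1
    linarith [hP.ht]
  -- lower bound
  have hfin : ∀ v, ∀ s ∈ P.support,
      R * (m * ((∑ i, a v i) / D - η)) - m * ε₂ * R * am ≤
        ∑ h, ∑ i, (a v i * T h) * s (h, i) := by
    intro v s hs
    have h1 := approx T r hr (ε := ε₂) (K := am) hRT (fun h => ∑ i, a v i * s (h, i))
      (fun h => abs_block_le (a v)
        (fun i => by rw [abs_of_nonneg (ha v i)]; exact ham v i) s r (hP.hom s hs) h)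
    have h2 := hP.fin v s hs
    have h3 : ∑ h, ∑ i, (a v i * T h) * (s (h, i) : ℝ) = ∑ h, T h * ∑ i, a v i * s (h, i) := by
      refine Finset.sum_congr rfl fun h _ => ?_
      rw [Finset.mul_sum]
      exact Finset.sum_congr rfl fun i _ => by ring
    rw [h3]
    have h4 := (abs_le.1 h1).1
    have h5 := mul_le_mul_of_nonneg_left h2 hR0.le
    linarith
  have hlow := lower_bound b hb hcop a ha T hT0 r P hP.ne hP.hom
    (fun v => R * (m * ((∑ i, a v i) / D - η)) - m * ε₂ * R * am) hfin y hdiv J hJ'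
  have hlow2 : R * (m * (am / D)) - nV * (R * (m * η)) - nV * (m * ε₂ * R * am) - LB * Sr
      - nV * (am * S) ≤ Real.log |((coeff J (shift y P) : ℤ) : ℝ)| := by
    refine le_trans (le_of_eq ?_) (le_trans (Finset.sum_le_sum (f := fun v =>
      R * (m * ((∑ i, a v i) / D - η)) - m * ε₂ * R * am - Real.log (b v) * Sr - am * S)
      fun v _ => ?_) hlow)
    · rw [sum_identity]
    · have h1 : ∑ h, ∑ i, (a v i * T h) * (J (h, i) : ℝ) ≤ am * S := by
        rw [hS, Finset.mul_sum]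
        refine Finset.sum_le_sum fun h _ => ?_
        rw [Finset.mul_sum]
        refine Finset.sum_le_sum fun i _ => ?_
        have h2 : (0 : ℝ) ≤ T h * J (h, i) := mul_nonneg (hT0 h) (Nat.cast_nonneg _)
        calc a v i * T h * J (h, i) = a v i * (T h * J (h, i)) := by ring
          _ ≤ am * (T h * J (h, i)) := mul_le_mul_of_nonneg_right (ham v i) h2
      linarith
  -- the bound for Sr
  have hSr1 : T₀ * Sr ≤ m * R := by
    rw [hSr, Finset.mul_sum]
    have : ∀ h ∈ (Finset.univ : Finset (Fin m)), T₀ * (r h : ℝ) ≤ R := by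
      intro h _
      have := mul_le_mul_of_nonneg_right (hT h) (hr0 h).le
      linarith [(hRT h).2]
    refine (Finset.sum_le_sum this).trans ?_
    rw [Finset.sum_const, Finset.card_univ, Fintype.card_fin, nsmul_eq_mul]
  have hSr0 : 0 ≤ Sr := Finset.sum_nonneg fun h _ => (hr0 h).le
  have hRm : 0 < R * m := mul_pos hR0 hm0
  have hSr2 : C' * Sr ≤ R * m * (γ / (8 * D)) := by
    have h1 : (C' + 1) * Sr = T₀ * Sr * (γ / (8 * D)) := by
      rw [hT₀]; field_simp
    have h2 : T₀ * Sr * (γ / (8 * D)) ≤ m * R * (γ / (8 * D)) :=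
      mul_le_mul_of_nonneg_right hSr1 (by positivity)
    have h3 : C' * Sr ≤ (C' + 1) * Sr := mul_le_mul_of_nonneg_right (by linarith) hSr0
    rw [mul_comm R (m : ℝ)]
    linarith
  have e1 : (nV + 1) * (R * (m * η)) = R * m * (γ / (8 * D)) := by
    rw [hη]; field_simp
  have e2 : ε₂ * (A + 1) ≤ γ / (8 * D) := by
    have : ε₂ ≤ γ / (8 * D * (A + 1)) := min_le_right _ _
    have h2 := mul_le_mul_of_nonneg_right this (by positivity : 0 ≤ A + 1)
    refine h2.trans (le_of_eq ?_)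
    field_simp
  have e2' : R * m * (ε₂ * A) ≤ R * m * (γ / (8 * D)) := by
    refine mul_le_mul_of_nonneg_left ?_ hRm.le
    have : ε₂ * A ≤ ε₂ * (A + 1) := mul_le_mul_of_nonneg_left (by linarith) hε₂0.le
    exact this.trans e2
  have e3 : A * S ≤ R * m * (γ / (4 * D)) := by
    have h1 : A * S ≤ (A + 1) * (R * (m * ϑ)) :=
      mul_le_mul (by linarith) hSm hS0 (by linarith)
    refine h1.trans (le_of_eq ?_)
    rw [hϑ]; field_simp
  have hC₁ : C₁ * Sr ≤ |C₁| * Sr := mul_le_mul_of_nonneg_right (le_abs_self _) hSr0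
  have hfinal := hlow2.trans hlogup
  have e5 : R * (m * (am / D)) - R * (m * ((∑ i, c i) / D)) = R * m * (γ / D) := by
    rw [hγ]; field_simp
  have e6 : R * m * (γ / (8 * D)) = R * m * (γ / D) / 8 := by field_simp
  have e7 : R * m * (γ / (4 * D)) = R * m * (γ / D) / 4 := by field_simp
  have e8 : 0 < R * m * (γ / D) := by positivity
  rw [e6] at e1 e2' hSr2
  rw [e7] at e3
  have e9 : nV * (m * ε₂ * R * am) + m * ε₂ * R * cm = R * m * (ε₂ * A) := by
    rw [hA]; ring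
  have e10 : nV * (am * S) + cm * S = A * S := by rw [hA]; ring
  have e11 : |C₁| * Sr + Sr * Real.log B + LB * Sr = C' * Sr := by rw [hC']; ring
  have e12 : R * (m * ((∑ i, c i) / D + η)) = R * (m * ((∑ i, c i) / D)) + R * (m * η) := by ring
  have e13 : (nV + 1) * (R * (m * η)) = nV * (R * (m * η)) + R * (m * η) := by ring
  rw [e12] at hfinal
  rw [e13] at e1
  clear_value η ϑ T₀ ε₂ C' A γ LB S Sr
  linarith

end SST
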