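import Pool.Agent.Subspace.RothLemma
import Pool.Agent.Subspace.Vanish
import Pool.Agent.Subspace.OnV
import Pool.Agent.Subspace.Reduce
import Pool.Agent.Subspace.PenultimateA

/-!
# The theorem on hyperplanes spanned by small lattice points
-/

namespace SST

open Filter MvPolynomial

/-- Choice of indices with rapidly decreasing scales. -/
lemma exists_indices {ι : Type} (𝓤 : Ultrafilter ι) (T : ι → ℝ) (hT : Tendsto T 𝓤 atTop)
    (G : ι → Prop) (hG : ∀ᶠ n in 𝓤, G n) (T₁ L : ℝ) (m : ℕ) :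
    ∃ n : Fin m → ι, (∀ h, G (n h)) ∧ (∀ h, T₁ ≤ T (n h)) ∧
      ∀ i j, i < j → L * T (n j) ≤ T (n i) := by
  induction m with
  | zero => exact ⟨fun i => i.elim0, fun i => i.elim0, fun i => i.elim0, fun i => i.elim0⟩
  | succ m ih =>
    obtain ⟨n, h1, h2, h3⟩ := ih
    have h4 : ∀ᶠ k in 𝓤, ∀ j : Fin m, L * T (n j) ≤ T k := by
      rw [eventually_all]
      intro j
      exact hT.eventually_ge_atTop _
    obtain ⟨k, ⟨hk1, hk2⟩, hk3⟩ := ((hG.and (hT.eventually_ge_atTop T₁)).and h4).exists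
    refine ⟨Fin.cons k n, ?_, ?_, ?_⟩
    · intro h
      refine Fin.cases ?_ ?_ h
      · simpa using hk1
      · intro i; simpa using h1 i
    · intro h
      refine Fin.cases ?_ ?_ h
      · simpa using hk2
      · intro i; simpa using h2 i
    · intro i j hij
      revert hij
      refine Fin.cases ?_ ?_ i
      · refine Fin.cases ?_ ?_ j
        · intro hij; exact absurd hij (lt_irrefl _)
        · intro j' _; simpa using hk3 j'
      · intro i'
        refine Fin.cases ?_ ?_ j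
        · intro hij; exact absurd hij (by simp)
        · intro j' hij
          simpa using h3 i' j' (by simpa using hij)

/-- Independent vectors span the hyperplane they lie in. -/
lemma mem_span_of_orthogonal {κ κ' : Type} [Fintype κ] [DecidableEq κ] [Fintype κ']
    (hκ' : Fintype.card κ' + 1 = Fintype.card κ) (g : κ → ℚ) (hg : g ≠ 0) (u : κ' → κ → ℚ)
    (hu : LinearIndependent ℚ u) (hgu : ∀ l, ∑ i, g i * u l i = 0) (y : κ → ℚ)
    (hy : ∑ i, g i * y i = 0) : ∃ t : κ' → ℚ, ∀ i, y i = ∑ l, t l * u l i := by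
  classical
  set φ : (κ → ℚ) →ₗ[ℚ] ℚ := ∑ i, g i • LinearMap.proj i with hφ
  have hφa : ∀ z : κ → ℚ, φ z = ∑ i, g i * z i := by
    intro z
    simp [hφ]
  have hφ0 : φ ≠ 0 := by
    intro h0
    apply hg
    funext i
    have := congrArg (fun f => f (Pi.single i 1)) h0
    simpa [hφa, Pi.single_apply] using this
  have hker : Module.finrank ℚ (LinearMap.ker φ) = Fintype.card κ' := by
    have h1 := LinearMap.finrank_range_add_finrank_ker φ
    have h2 : Module.finrank ℚ (LinearMap.range φ) = 1 := by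
      have h3 : LinearMap.range φ = ⊤ := by
        rw [LinearMap.range_eq_top]
        exact LinearMap.surjective_iff_ne_zero.2 hφ0
      rw [h3, finrank_top, Module.finrank_self]
    rw [h2, Module.finrank_fintype_fun_eq_card] at h1
    omega
  have hspan : Submodule.span ℚ (Set.range u) = LinearMap.ker φ := by
    apply Submodule.eq_of_le_of_finrank_eq
    · rw [Submodule.span_le]
      rintro _ ⟨l, rfl⟩
      rw [SetLike.mem_coe, LinearMap.mem_ker, hφa]
      exact hgu l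
    · rw [finrank_span_eq_card hu, hker]
  have hymem : y ∈ Submodule.span ℚ (Set.range u) := by
    rw [hspan, LinearMap.mem_ker, hφa]
    exact hy
  obtain ⟨t, ht⟩ := (Submodule.mem_span_range_iff_exists_fun ℚ).1 hymem
  refine ⟨t, fun i => ?_⟩
  rw [← ht]
  simp

theorem penultimate {ι : Type} (𝓤 : Ultrafilter ι) (T : ι → ℝ) (hT : Tendsto T 𝓤 atTop)
    {κ κ' V : Type} [Fintype κ] [DecidableEq κ] [Fintype κ'] [DecidableEq κ'] [Fintype V]
    (hκ : 2 ≤ Fintype.card κ) (hκ' : Fintype.card κ' + 1 = Fintype.card κ)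
    (M : Matrix κ κ ℚ) (hM : M.det ≠ 0) (b : V → ℕ) (hb : ∀ v, 2 ≤ b v)
    (hcop : Pairwise fun v w => (b v).Coprime (b w)) (a : V → κ → ℝ) (ha : ∀ v i, 0 ≤ a v i)
    (c : κ → ℝ) (hgap : ∑ i, c i < ∑ v, ∑ i, a v i)
    (g : ι → κ → ℤ) (hg : ∀ᶠ n in 𝓤, ∀ d : ℕ, (∀ i, (d : ℤ) ∣ g n i) → d = 1)
    (u : ι → κ' → κ → ℤ)
    (hu : ∀ᶠ n in 𝓤, LinearIndependent ℚ (fun l i => (u n l i : ℚ)))
    (hgu : ∀ᶠ n in 𝓤, ∀ l, ∑ i, g n i * u n l i = 0)
    (huM : ∀ᶠ n in 𝓤, ∀ l i, |∑ j, (M i j : ℝ) * u n l j| ≤ Real.exp (c i * T n))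
    (huv : ∀ᶠ n in 𝓤, ∀ l v i, ((b v : ℤ)) ^ kexp (b v) (a v i) (T n) ∣ u n l i) :
    ∃ g₀ : κ → ℤ, ∀ᶠ n in 𝓤, g n = g₀ := by
  classical
  rcases height_dichotomy 𝓤 T hT hκ hκ' M hM b hb hcop a ha c hgap g hg u hu hgu huM huv with
    h | ⟨χ, hχ, hχg⟩
  · exact h
  exfalso
  have : Nonempty κ := Fintype.card_pos_iff.1 (by omega)
  obtain ⟨ϑ, hϑ, η, hη, hvan⟩ := vanish M hM b hb hcop a ha c hgap
  obtain ⟨m₀, C₁, haux⟩ := exists_aux M hM a c hη
  set m := max m₀ 1 with hm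
  have hm1 : 1 ≤ m := le_max_right _ _
  have hmR : (1 : ℝ) ≤ m := by exact_mod_cast hm1
  set D : ℝ := (Fintype.card κ : ℝ) with hD
  have hD2 : (2 : ℝ) ≤ D := by rw [hD]; exact_mod_cast hκ
  obtain ⟨N, hN⟩ := exists_nat_gt (8 * D / ϑ)
  have hNpos : (0 : ℝ) < N := lt_trans (by positivity) hN
  have hN1 : 1 ≤ N := by
    have : 0 < N := by exact_mod_cast hNpos
    omega
  have hDN : D / N ≤ ϑ / 8 := by
    rw [div_lt_iff₀ hϑ] at hN
    rw [div_le_iff₀ hNpos]
    linarith
  obtain ⟨C₂, hC₂, hred⟩ := reduce hκ N hN1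
  obtain ⟨T₀, hT₀, ε₂, hε₂, hε₂1, hvan'⟩ := hvan m hm1 C₁ (N * D)
  obtain ⟨δ, hδ, K, hK, hroth⟩ := roth_lemma m (m * ϑ / 4) (by positivity)
  set T₁ : ℝ := max T₀ ((K * (|C₁| + C₂ + 1) * m + 1) * (2 * C₂ / χ)) with hT₁
  have hT₁0 : 0 < T₁ := lt_of_lt_of_le hT₀ (le_max_left _ _)
  -- the good indices
  have hgood := (((hg.and hu).and (hgu.and huM)).and (huv.and hχg))
  obtain ⟨n, hnG, hnT, hnL⟩ := exists_indices 𝓤 T hT _ hgood T₁ (2 / δ) m
  have hTpos : ∀ h, 0 < T (n h) := fun h => lt_of_lt_of_le hT₁0 (hnT h)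
  set e := min ε₂ (1 / 2) with he
  have he0 : 0 < e := lt_min hε₂ (by norm_num)
  have he2 : e ≤ 1 / 2 := min_le_right _ _
  have heε : e ≤ ε₂ := min_le_left _ _
  -- the parameter `R`
  set R : ℝ := (∑ h, T (n h)) / e with hR
  have hRT : ∀ h, T (n h) ≤ e * R := by
    intro h
    have h1 : e * R = ∑ h, T (n h) := by rw [hR]; field_simp
    rw [h1]
    exact Finset.single_le_sum (f := fun h => T (n h)) (fun h _ => (hTpos h).le)
      (Finset.mem_univ h)
  have hR0 : 0 < R := by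
    have h1 := hRT ⟨0, hm1⟩
    have h2 := hTpos ⟨0, hm1⟩
    by_contra hcon
    push Not at hcon
    nlinarith
  set r : Fin m → ℕ := fun h => ⌊R / T (n h)⌋₊ with hr
  have hrle : ∀ h, (r h : ℝ) * T (n h) ≤ R := by
    intro h
    have h1 : (r h : ℝ) ≤ R / T (n h) := Nat.floor_le (div_nonneg hR0.le (hTpos h).le)
    rw [le_div_iff₀ (hTpos h)] at h1
    exact h1
  have hrge : ∀ h, (1 - e) * R ≤ r h * T (n h) := by
    intro h
    have h1 : R / T (n h) < r h + 1 := Nat.lt_floor_add_one _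
    rw [div_lt_iff₀ (hTpos h)] at h1
    have h2 := hRT h
    nlinarith
  have hr1 : ∀ h, 1 ≤ r h := by
    intro h
    by_contra hcon
    have h0 : r h = 0 := by omega
    have h1 := hrge h
    rw [h0] at h1
    push_cast at h1
    have : 0 < (1 - e) * R := by
      apply mul_pos _ hR0
      linarith
    linarith
  have hr0 : ∀ h, (0 : ℝ) < r h := fun h => by
    have := hr1 h
    exact_mod_cast this
  -- the auxiliary polynomial
  obtain ⟨P, hP⟩ := haux m (le_max_left _ _) r hr1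
  -- vanishing at the grid points
  have hgrid : ∀ t : Fin m × κ' → ℕ, (∀ x, t x < N) →
      Ord (bw r) (m * ϑ)
        (shift (fun x : Fin m × κ => ∑ l, (t (x.1, l) : ℤ) * u (n x.1) l x.2) P) := by
    intro t ht
    refine hvan' (fun h => T (n h)) (fun h => (le_max_left _ _).trans (hnT h)) R r hr1 ?_ P hP _
      ?_ ?_
    · intro h
      refine ⟨le_trans ?_ (hrge h), hrle h⟩
      apply mul_le_mul_of_nonneg_right _ hR0.le
      linarith
    · intro h i
      have h1 := (hnG h).1.2.2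
      have e1 : ∑ j, (M i j : ℝ) * ((∑ l, (t (h, l) : ℤ) * u (n h) l j : ℤ) : ℝ) =
          ∑ l, (t (h, l) : ℝ) * ∑ j, (M i j : ℝ) * u (n h) l j := by
        push_cast
        simp_rw [Finset.mul_sum]
        rw [Finset.sum_comm]
        apply Finset.sum_congr rfl
        intro l _
        apply Finset.sum_congr rfl
        intro j _
        ring
      show |∑ j, (M i j : ℝ) * ((∑ l, (t (h, l) : ℤ) * u (n h) l j : ℤ) : ℝ)| ≤ _
      rw [e1]
      refine (Finset.abs_sum_le_sum_abs _ _).trans ?_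
      have h2 : ∀ l ∈ Finset.univ, |(t (h, l) : ℝ) * ∑ j, (M i j : ℝ) * u (n h) l j| ≤
          N * Real.exp (c i * T (n h)) := by
        intro l _
        rw [abs_mul]
        apply mul_le_mul _ (h1 l i) (abs_nonneg _) hNpos.le
        rw [Nat.abs_cast]
        exact_mod_cast (ht (h, l)).le
      refine (Finset.sum_le_sum h2).trans ?_
      rw [Finset.sum_const, nsmul_eq_mul, Finset.card_univ]
      have h3 : ((Fintype.card κ' : ℕ) : ℝ) ≤ D := by
        rw [hD]; exact_mod_cast (by omega : Fintype.card κ' ≤ Fintype.card κ)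
      have h4 : 0 ≤ N * Real.exp (c i * T (n h)) := by positivity
      calc ((Fintype.card κ' : ℕ) : ℝ) * (N * Real.exp (c i * T (n h)))
          ≤ D * (N * Real.exp (c i * T (n h))) := mul_le_mul_of_nonneg_right h3 h4
        _ = N * D * Real.exp (c i * T (n h)) := by ring
    · intro v h i
      apply Finset.dvd_sum
      intro l _
      exact Dvd.dvd.mul_left ((hnG h).2.1 l v i) _
  -- vanishing on the product of the hyperplanes
  have hV := vanish_on_span r hr1 P hP.hom (fun h l => u (n h) l) N hN1 (m * ϑ) hgrid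
  have hV' : ∀ y : Fin m × κ → ℚ, (∀ h, ∑ i, (g (n h) i : ℚ) * y (h, i) = 0) →
      Ord (bw r) (m * ϑ - m * Fintype.card κ' / N)
        (shift y (MvPolynomial.map (Int.castRingHom ℚ) P)) := by
    intro y hy
    have h1 : ∀ h, ∃ t : κ' → ℚ, ∀ i, y (h, i) = ∑ l, t l * (u (n h) l i : ℚ) := by
      intro h
      have hgn : (fun i => (g (n h) i : ℚ)) ≠ 0 := by
        intro h0
        have h2 := (hnG h).1.1.1 2 (fun i => by
          have h3 := congrFun h0 i
          simp only [Pi.zero_apply, Int.cast_eq_zero] at h3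
          rw [h3]; exact dvd_zero _)
        omega
      refine mem_span_of_orthogonal hκ' (fun i => (g (n h) i : ℚ)) hgn
        (fun l i => (u (n h) l i : ℚ)) (hnG h).1.1.2 ?_ (fun i => y (h, i)) (hy h)
      intro l
      have h3 := (hnG h).1.2.1 l
      have h4 : ((∑ i, g (n h) i * u (n h) l i : ℤ) : ℚ) = 0 := by rw [h3]; simp
      push_cast at h4
      exact h4
    choose t ht using h1
    have h2 := hV (fun x => t x.1 x.2)
    have h3 : (fun x : Fin m × κ => ∑ l, t x.1 l * (u (n x.1) l x.2 : ℚ)) = y := by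
      funext x
      exact (ht x.1 x.2).symm
    rw [h3] at h2
    exact h2
  -- reduction to `m` variables
  obtain ⟨f, hf0, hfdeg, hfht, ξ, hξ, hford⟩ := hred m r hr1 P hP.ne hP.hom (fun h => g (n h))
    (fun h => (hnG h).1.1.1) _ hV'
  have hrsum : ∑ h, (r h : ℝ) ≤ m * (R / T₁) := by
    have h1 : ∀ h ∈ Finset.univ, (r h : ℝ) ≤ R / T₁ := by
      intro h _
      rw [le_div_iff₀ hT₁0]
      exact (mul_le_mul_of_nonneg_left (hnT h) (hr0 h).le).trans (hrle h)
    refine (Finset.sum_le_sum h1).trans ?_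
    rw [Finset.sum_const, nsmul_eq_mul, Finset.card_univ, Fintype.card_fin]
  have hrsum0 : 0 ≤ ∑ h, (r h : ℝ) := Finset.sum_nonneg fun h _ => (hr0 h).le
  have hA : ∀ i j : Fin m, i < j → (r i : ℝ) ≤ δ * r j := by
    intro i j hij
    have h1 := hnL i j hij
    have h2 := hrle i
    have h3 := hrge j
    have h4 : R / 2 ≤ r j * T (n j) := by
      refine le_trans ?_ h3
      nlinarith
    have h5 : (r i : ℝ) * (2 / δ * T (n j)) ≤ R :=
      (mul_le_mul_of_nonneg_left h1 (hr0 i).le).trans h2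
    have h6 : (r i : ℝ) * (2 / δ * T (n j)) = (r i / δ) * (2 * T (n j)) := by
      field_simp
    rw [h6] at h5
    have h7 : (r i / δ) * (2 * T (n j)) ≤ r j * (2 * T (n j)) := by linarith
    have h8 := le_of_mul_le_mul_right h7 (by have := hTpos j; linarith)
    rw [div_le_iff₀ hδ] at h8
    linarith
  have hB : ∀ i, K * (Real.log (l1Z f) + ∑ j, (r j : ℝ)) ≤ r i * Real.log ((ξ i).den : ℝ) := by
    intro h
    obtain ⟨i, hi⟩ := (hnG h).2.2
    have h1 := hi.trans (hξ h i)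
    set X := Real.log ((ξ h).den : ℝ) with hX
    have h2 : χ * T (n h) / C₂ - 1 ≤ X := by
      rw [sub_le_iff_le_add, div_le_iff₀ hC₂]
      linarith
    have h3 : (r h : ℝ) * (χ * T (n h) / C₂ - 1) ≤ r h * X :=
      mul_le_mul_of_nonneg_left h2 (hr0 h).le
    refine le_trans ?_ h3
    have h4 : (r h : ℝ) * (χ * T (n h) / C₂ - 1) = (r h * T (n h)) * (χ / C₂) - r h := by ring
    rw [h4]
    have h5 : R / 2 * (χ / C₂) ≤ (r h * T (n h)) * (χ / C₂) := by
      apply mul_le_mul_of_nonneg_right _ (by positivity)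
      refine le_trans ?_ (hrge h)
      nlinarith
    have h6 : (r h : ℝ) ≤ R / T₁ := by
      rw [le_div_iff₀ hT₁0]
      exact (mul_le_mul_of_nonneg_left (hnT h) (hr0 h).le).trans (hrle h)
    have h7 : Real.log (l1Z f) + ∑ j, (r j : ℝ) ≤ (|C₁| + C₂ + 1) * (m * (R / T₁)) := by
      have h8 : Real.log (l1Z P) ≤ |C₁| * ∑ h, (r h : ℝ) :=
        hP.ht.trans (mul_le_mul_of_nonneg_right (le_abs_self _) hrsum0)
      calc Real.log (l1Z f) + ∑ j, (r j : ℝ)
          ≤ (|C₁| * ∑ h, (r h : ℝ)) + C₂ * ∑ h, (r h : ℝ) + ∑ j, (r j : ℝ) := by linarith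
        _ = (|C₁| + C₂ + 1) * ∑ h, (r h : ℝ) := by ring
        _ ≤ _ := by
            apply mul_le_mul_of_nonneg_left hrsum
            have := abs_nonneg C₁
            linarith
    have h8 : K * (Real.log (l1Z f) + ∑ j, (r j : ℝ)) ≤
        K * ((|C₁| + C₂ + 1) * (m * (R / T₁))) := mul_le_mul_of_nonneg_left h7 hK.le
    refine h8.trans ?_
    -- numerical: `(K (|C₁| + C₂ + 1) m + 1) R / T₁ ≤ R χ / (2 C₂)`
    have h9 : (K * (|C₁| + C₂ + 1) * m + 1) * (R / T₁) ≤ R / 2 * (χ / C₂) := by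
      have h10 : (K * (|C₁| + C₂ + 1) * m + 1) * (2 * C₂ / χ) ≤ T₁ := le_max_right _ _
      have h11 : K * (|C₁| + C₂ + 1) * m + 1 ≤ T₁ * (χ / (2 * C₂)) := by
        have h12 : 0 < 2 * C₂ / χ := by positivity
        have h13 : T₁ * (χ / (2 * C₂)) = T₁ / (2 * C₂ / χ) := by field_simp
        rw [h13, le_div_iff₀ h12]
        exact h10
      have h14 : 0 < R / T₁ := by positivity
      calc (K * (|C₁| + C₂ + 1) * m + 1) * (R / T₁)
          ≤ (T₁ * (χ / (2 * C₂))) * (R / T₁) := mul_le_mul_of_nonneg_right h11 h14.le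
        _ = R / 2 * (χ / C₂) := by field_simp
    have h15 : K * ((|C₁| + C₂ + 1) * (m * (R / T₁))) + R / T₁ =
        (K * (|C₁| + C₂ + 1) * m + 1) * (R / T₁) := by ring
    linarith
  obtain ⟨s, hs, hsle⟩ := hroth r hr1 hA f hf0 hfdeg ξ hB
  have h1 := hford s hs
  rw [wt_eq_sum] at h1
  have h2 : ∑ i, (s i : ℝ) * (1 / (r i : ℝ)) = ∑ i, (s i : ℝ) / r i :=
    Finset.sum_congr rfl fun i _ => by ring
  rw [h2] at h1
  have h3 : (Fintype.card κ' : ℝ) ≤ D := by
    rw [hD]; exact_mod_cast (by omega : Fintype.card κ' ≤ Fintype.card κ)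
  have h4 : (m : ℝ) * Fintype.card κ' / N ≤ m * (ϑ / 8) := by
    calc (m : ℝ) * Fintype.card κ' / N ≤ m * D / N := by gcongr
      _ = m * (D / N) := by ring
      _ ≤ _ := by gcongr
  have h5 : (m : ℝ) * D / N ≤ m * (ϑ / 8) := by
    calc (m : ℝ) * D / N = m * (D / N) := by ring
      _ ≤ _ := by gcongr
  have h6 : 0 < (m : ℝ) * ϑ := by positivity
  linarith

end SST
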