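import Pool.Agent.Subspace.Flag
import Pool.Agent.Subspace.Compound
import Pool.Agent.Subspace.Penultimate

/-!
# The parametric subspace theorem (rational forms, finitely many places)
-/

namespace SST

open Filter

/-! ### Compound matrices: transposes, ring homomorphisms -/

lemma compound_transpose {R : Type*} [CommRing R] {d : ℕ} (r : ℕ)
    (B : Matrix (Fin d) (Fin d) R) : (compound r B).transpose = compound r B.transpose := by
  ext I J
  simp only [compound, Matrix.transpose_apply, Matrix.of_apply]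
  rw [← Matrix.det_transpose, Matrix.transpose_submatrix]

lemma compound_map {R S : Type*} [CommRing R] [CommRing S] {d : ℕ} (r : ℕ) (f : R →+* S)
    (B : Matrix (Fin d) (Fin d) R) : compound r (B.map f) = (compound r B).map f := by
  ext I J
  simp only [compound, Matrix.map_apply, Matrix.of_apply]
  rw [RingHom.map_det, RingHom.mapMatrix_apply, Matrix.submatrix_map]

/-! ### Bounds for determinants -/

lemma abs_det_le {r : ℕ} (N : Matrix (Fin r) (Fin r) ℝ) (e f : Fin r → ℝ)
    (h : ∀ i j, |N i j| ≤ e i * f j) :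
    |N.det| ≤ r.factorial * ((∏ i, e i) * ∏ j, f j) := by
  rw [Matrix.det_apply]
  refine (Finset.abs_sum_le_sum_abs _ _).trans ?_
  have h1 : ∀ σ ∈ (Finset.univ : Finset (Equiv.Perm (Fin r))),
      |Equiv.Perm.sign σ • ∏ i, N (σ i) i| ≤ (∏ i, e i) * ∏ j, f j := by
    intro σ _
    have h2 : |Equiv.Perm.sign σ • ∏ i, N (σ i) i| = |∏ i, N (σ i) i| := by
      rcases Int.units_eq_one_or (Equiv.Perm.sign σ) with h | h
      · rw [h, one_smul]
      · rw [h, Units.neg_smul, one_smul, abs_neg]
    rw [h2, Finset.abs_prod]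
    refine (Finset.prod_le_prod (fun _ _ => abs_nonneg _) (fun i _ => h (σ i) i)).trans ?_
    rw [Finset.prod_mul_distrib, Equiv.prod_comp σ e]
  refine (Finset.sum_le_sum h1).trans ?_
  rw [Finset.sum_const, nsmul_eq_mul, Finset.card_univ, Fintype.card_perm, Fintype.card_fin]

lemma pow_dvd_det {r : ℕ} (N : Matrix (Fin r) (Fin r) ℤ) (b : ℤ) (k : Fin r → ℕ)
    (h : ∀ i j, b ^ k j ∣ N i j) : b ^ (∑ j, k j) ∣ N.det := by
  rw [Matrix.det_apply]
  apply Finset.dvd_sum
  intro σ _
  rw [← Finset.prod_pow_eq_pow_sum]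
  have h1 : ∏ j, b ^ k j ∣ ∏ j, N (σ j) j := Finset.prod_dvd_prod_of_dvd _ _ fun j _ => h _ _
  rcases Int.units_eq_one_or (Equiv.Perm.sign σ) with h | h
  · rw [h, one_smul]; exact h1
  · rw [h, Units.neg_smul, one_smul]; exact (dvd_neg).2 h1

/-! ### Sorting an injective map -/

lemma exists_orderEmb {r d : ℕ} (f : Fin r → Fin d) (hf : Function.Injective f) :
    ∃ (J : Fin r ↪o Fin d) (σ : Equiv.Perm (Fin r)), ∀ i, f i = J (σ i) := by
  have hmono : StrictMono (f ∘ Tuple.sort f) :=
    (Tuple.monotone_sort f).strictMono_of_injective (hf.comp (Tuple.sort f).injective)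
  refine ⟨OrderEmbedding.ofStrictMono _ hmono, (Tuple.sort f).symm, fun i => ?_⟩
  rw [OrderEmbedding.coe_ofStrictMono, Function.comp_apply, Equiv.apply_symm_apply]

/-! ### The alternating form attached to a vector indexed by the `r`-subsets -/

section lam

variable {r d : ℕ}

/-- The alternating form `v ↦ ∑_I g(I) det(v_{i, I(j)})`. -/
noncomputable def lam (g : (Fin r ↪o Fin d) → ℚ) : (Fin d → ℚ) [⋀^Fin r]→ₗ[ℚ] ℚ :=
  ∑ I, g I • (Matrix.detRowAlternating (n := Fin r) (R := ℚ)).compLinearMap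
    (LinearMap.funLeft ℚ ℚ I)

lemma alt_sum_apply {α : Type*} (s : Finset α) (f : α → (Fin d → ℚ) [⋀^Fin r]→ₗ[ℚ] ℚ)
    (v : Fin r → Fin d → ℚ) : (∑ i ∈ s, f i) v = ∑ i ∈ s, f i v := by
  classical
  induction s using Finset.induction_on with
  | empty => simp
  | insert a s ha ih => rw [Finset.sum_insert ha, Finset.sum_insert ha, AlternatingMap.add_apply, ih]

lemma lam_apply (g : (Fin r ↪o Fin d) → ℚ) (v : Fin r → Fin d → ℚ) :
    lam g v = ∑ I : Fin r ↪o Fin d, g I * (Matrix.of fun i i' => v i (I i')).det := by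
  unfold lam
  rw [alt_sum_apply]
  apply Finset.sum_congr rfl
  intro I _
  rw [AlternatingMap.smul_apply, smul_eq_mul]
  rfl

lemma lam_comp (g : (Fin r ↪o Fin d) → ℚ) (B : Matrix (Fin d) (Fin d) ℚ) (J : Fin r ↪o Fin d) :
    lam g (fun i => B (J i)) = ∑ I : Fin r ↪o Fin d, g I * compound r B J I := by
  rw [lam_apply]
  rfl

lemma lam_eq_zero (g : (Fin r ↪o Fin d) → ℚ) (B : Matrix (Fin d) (Fin d) ℚ) (hB : B.det ≠ 0)
    (J₀ : Fin r ↪o Fin d) (k : ℕ) (hJ₀ : ∀ i, k ≤ (J₀ i).val)
    (h : ∀ J, J ≠ J₀ → ∑ I : Fin r ↪o Fin d, g I * compound r B J I = 0)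
    (v : Fin r → Fin d → ℚ) (i₀ : Fin r) (t : Fin d → ℚ) (ht : ∀ j : Fin d, k ≤ j.val → t j = 0)
    (hv : ∀ i, v i₀ i = ∑ j, t j * B j i) : lam g v = 0 := by
  classical
  -- expansion of all vectors in the basis of the rows of `B`
  set c : Fin r → Fin d → ℚ := fun i => if i = i₀ then t else Matrix.vecMul (v i) B⁻¹ with hc
  have hexp : v = fun i => ∑ j, c i j • B j := by
    funext i
    by_cases hi : i = i₀
    · subst hi
      funext l
      rw [hv l]
      simp [hc]
    · have h1 : Matrix.vecMul (c i) B = v i := by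
        simp only [hc, if_neg hi]
        rw [Matrix.vecMul_vecMul, Matrix.nonsing_inv_mul _ (isUnit_iff_ne_zero.2 hB),
          Matrix.vecMul_one]
      rw [← h1]
      funext l
      simp [Matrix.vecMul, dotProduct]
  rw [hexp]
  have h2 := (lam g).toMultilinearMap.map_sum (fun i j => c i j • B j)
  have h3 : lam g (fun i => ∑ j, c i j • B j) =
      ∑ f : Fin r → Fin d, lam g (fun i => c i (f i) • B (f i)) := h2
  rw [h3]
  apply Finset.sum_eq_zero
  intro f _
  have h4 : lam g (fun i => c i (f i) • B (f i)) = (∏ i, c i (f i)) • lam g (fun i => B (f i)) :=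
    (lam g).toMultilinearMap.map_smul_univ (fun i => c i (f i)) (fun i => B (f i))
  rw [h4]
  by_cases hf : Function.Injective f
  · obtain ⟨J, σ, hJ⟩ := exists_orderEmb f hf
    by_cases hJJ : J = J₀
    · have h5 : c i₀ (f i₀) = 0 := by
        rw [hJ i₀, hJJ]
        simp only [hc, if_true]
        exact ht _ (hJ₀ _)
      rw [Finset.prod_eq_zero (Finset.mem_univ i₀) h5, zero_smul]
    · have h5 : (fun i => B (f i)) = (fun i => B (J i)) ∘ σ := by
        funext i
        rw [Function.comp_apply, hJ i]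
      rw [h5, AlternatingMap.map_perm, lam_comp, h J hJJ, smul_zero, smul_zero]
  · have h5 : lam g (fun i => B (f i)) = 0 := by
      rw [Function.Injective] at hf
      push Not at hf
      obtain ⟨i, j, hij, hne⟩ := hf
      exact (lam g).map_eq_zero_of_eq _ (congrArg B hij) hne
    rw [h5, smul_zero]

end lam

/-! ### Primitive normal vectors -/

lemma exists_primitive_normal {κ : Type*} [Fintype κ] [DecidableEq κ] (U : Matrix κ κ ℤ)
    (hU : U.det ≠ 0) (J₀ : κ) :
    ∃ g : κ → ℤ, (∀ d : ℕ, (∀ i, (d : ℤ) ∣ g i) → d = 1) ∧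
      ∀ J, J ≠ J₀ → ∑ I, g I * U J I = 0 := by
  set g' : κ → ℤ := fun I => U.adjugate I J₀ with hg'
  have h1 : ∀ J, ∑ I, U J I * g' I = if J = J₀ then U.det else 0 := by
    intro J
    have h2 := congrFun (congrFun (Matrix.mul_adjugate U) J) J₀
    rw [Matrix.mul_apply] at h2
    rw [hg', h2, Matrix.smul_apply, Matrix.one_apply, smul_eq_mul]
    split_ifs <;> simp
  obtain ⟨g, hg, hgcd⟩ := Finset.extract_gcd g' (s := Finset.univ) ⟨J₀, Finset.mem_univ _⟩
  refine ⟨g, ?_, ?_⟩
  · intro d hd
    have h2 : (d : ℤ) ∣ 1 := by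
      rw [← hgcd]
      exact Finset.dvd_gcd fun i _ => hd i
    have h3 : d ∣ 1 := by exact_mod_cast h2
    exact Nat.dvd_one.1 h3
  · intro J hJ
    have h2 := h1 J
    rw [if_neg hJ] at h2
    have h3 : Finset.univ.gcd g' ≠ 0 := by
      intro h0
      rw [Finset.gcd_eq_zero_iff] at h0
      have h4 := h1 J₀
      rw [if_pos rfl] at h4
      apply hU
      rw [← h4]
      apply Finset.sum_eq_zero
      intro I hI
      rw [h0 I hI, mul_zero]
    have h4 : Finset.univ.gcd g' * ∑ I, g I * U J I = 0 := by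
      rw [Finset.mul_sum, ← h2]
      apply Finset.sum_congr rfl
      intro I hI
      rw [hg I hI]
      ring
    exact (mul_eq_zero.1 h4).resolve_left h3

/-! ### Exponents -/

lemma eventually_kexp_le {ι : Type} (𝓤 : Ultrafilter ι) (T : ι → ℝ) (hT : Tendsto T 𝓤 atTop)
    (b : ℕ) (hb : 2 ≤ b) {r : ℕ} (a : Fin r → ℝ) (η : ℝ) (hη : 0 < η) :
    ∀ᶠ n in 𝓤, kexp b (max 0 (∑ i, a i - η)) (T n) ≤ ∑ i, kexp b (a i) (T n) := by
  have hlog : 0 < Real.log b := Real.log_pos (by exact_mod_cast hb)
  filter_upwards [hT.eventually_ge_atTop (r * Real.log b / η), hT.eventually_ge_atTop 0]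
    with n hn hn0
  by_cases h : ∑ i, a i - η ≤ 0
  · rw [max_eq_left h]
    simp [kexp]
  · push Not at h
    rw [max_eq_right h.le]
    unfold kexp
    have h1 : ((∑ i, a i - η) * T n / Real.log b) ≤
        ((∑ i, ⌊a i * T n / Real.log b⌋₊ : ℕ) : ℝ) := by
      push_cast
      have h2 : ∀ i ∈ Finset.univ, a i * T n / Real.log b - 1 ≤
          ((⌊a i * T n / Real.log b⌋₊ : ℕ) : ℝ) := fun i _ => by
        have := (Nat.lt_floor_add_one (a i * T n / Real.log b)).le
        linarith
      refine le_trans ?_ (Finset.sum_le_sum h2)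
      rw [Finset.sum_sub_distrib, Finset.sum_const, Finset.card_univ, Fintype.card_fin,
        nsmul_eq_mul, mul_one, ← Finset.sum_div, ← Finset.sum_mul, sub_mul, sub_div]
      have h3 : (r : ℝ) ≤ η * T n / Real.log b := by
        rw [le_div_iff₀ hlog]
        rw [div_le_iff₀ hη] at hn
        linarith
      linarith
    have h4 := Nat.floor_le_floor h1
    rwa [Nat.floor_natCast] at h4

theorem param_subspace {ι : Type} (𝓤 : Ultrafilter ι) (T : ι → ℝ) (hT : Tendsto T 𝓤 atTop)
    {d : ℕ} (hd : 1 ≤ d) {V : Type} [Fintype V] (M : Matrix (Fin d) (Fin d) ℚ) (hM : M.det ≠ 0)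
    (b : V → ℕ) (hb : ∀ v, 2 ≤ b v) (hcop : Pairwise fun v w => (b v).Coprime (b w))
    (a : V → Fin d → ℝ) (ha : ∀ v i, 0 ≤ a v i) (c : Fin d → ℝ)
    (x : ι → Fin d → ℤ)
    (hgen : ∀ l : Fin d → ℚ, l ≠ 0 → ∀ᶠ n in 𝓤, ∑ i, l i * (x n i : ℚ) ≠ 0)
    (hxM : ∀ᶠ n in 𝓤, ∀ i, |∑ j, (M i j : ℝ) * x n j| ≤ Real.exp (c i * T n))
    (hxv : ∀ᶠ n in 𝓤, ∀ v i, ((b v : ℤ)) ^ kexp (b v) (a v i) (T n) ∣ x n i) :
    ∑ v, ∑ i, a v i ≤ ∑ i, c i := by
  classical
  by_contra hcon
  push Not at hcon
  have hx : ∀ᶠ n in 𝓤, x n ≠ 0 := by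
    have h1 := hgen (Pi.single ⟨0, hd⟩ 1) (by
      intro h
      have := congrFun h ⟨0, hd⟩
      simp at this)
    filter_upwards [h1] with n hn h0
    apply hn
    simp [h0]
  obtain ⟨I₀, c', δ, hr1, hrd, hδ, hsum, hflag⟩ :=
    flag 𝓤 T hT M hM b hb hcop a ha c hcon x hx hxM hxv
  generalize hr : I₀.card = r at hr1 hrd hflag
  set k := d - r with hk
  -- the two distinguished index sets
  let E₀ : Fin r ↪o Fin d := I₀.orderEmbOfFin hr
  have hE₀ : ∀ i, E₀ i ∈ I₀ := fun i => Finset.orderEmbOfFin_mem I₀ hr i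
  let J₀ : Fin r ↪o Fin d := OrderEmbedding.ofStrictMono
    (fun i => ⟨k + i.val, by have := i.2; omega⟩) (by
      intro i j hij
      simpa using hij)
  have hJ₀ : ∀ i, (J₀ i).val = k + i.val := fun i => rfl
  have hJlt : ∀ J : Fin r ↪o Fin d, J ≠ J₀ → ∃ j₀, (J j₀).val < k := by
    intro J hJ
    by_contra hcon'
    push Not at hcon'
    apply hJ
    refine OrderEmbedding.range_inj.1 ?_
    have h1 : Finset.univ.map J.toEmbedding ⊆ Finset.univ.map J₀.toEmbedding := by
      intro j hj
      rw [Finset.mem_map] at hj ⊢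
      obtain ⟨i, _, rfl⟩ := hj
      have h2 := hcon' i
      have h3 := (J i).2
      refine ⟨⟨(J i).val - k, by omega⟩, Finset.mem_univ _, ?_⟩
      apply Fin.ext
      change (J₀ ⟨(J i).val - k, _⟩).val = (J i).val
      rw [hJ₀]
      change k + ((J i).val - k) = (J i).val
      omega
    have h2 := Finset.eq_of_subset_of_card_le h1 (by simp)
    have h3 := congrArg (fun s : Finset (Fin d) => (s : Set (Fin d))) h2
    simpa using h3
  -- the small parameter
  set D : ℝ := (Fintype.card (Fin r ↪o Fin d) : ℝ) with hD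
  have hD0 : 0 ≤ D := by positivity
  obtain ⟨η, hη, hηδ⟩ : ∃ η : ℝ, 0 < η ∧ D * ((r + 1) * η) + Fintype.card V * (D * η) < δ := by
    set E : ℝ := D * (r + 1) + Fintype.card V * D + 1 with hE
    have hE0 : 0 < E := by positivity
    refine ⟨δ / E, by positivity, ?_⟩
    have h1 : D * ((r + 1) * (δ / E)) + Fintype.card V * (D * (δ / E)) = (E - 1) * (δ / E) := by
      rw [hE]; ring
    rw [h1, sub_mul, one_mul, mul_div_cancel₀ _ hE0.ne']
    have : 0 < δ / E := by positivity
    linarith
  -- the new exponents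
  set a' : V → (Fin r ↪o Fin d) → ℝ := fun v I => max 0 (∑ i, a v (I i) - η) with ha'
  set c'' : (Fin r ↪o Fin d) → ℝ :=
    fun I => ∑ i, c' (I i) + (r + 1) * η - (if I = E₀ then δ else 0) with hc''
  have hgap' : ∑ I, c'' I < ∑ v, ∑ I, a' v I := by
    have h1 : ∑ I, c'' I = (d - 1).choose (r - 1) * ∑ i, c' i + D * ((r + 1) * η) - δ := by
      rw [hc'', Finset.sum_sub_distrib, Finset.sum_add_distrib, sum_compound r hr1 c',
        Finset.sum_const, Finset.card_univ, nsmul_eq_mul, Finset.sum_ite_eq' Finset.univ E₀,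
        if_pos (Finset.mem_univ _)]
    have h2 : ∀ v ∈ Finset.univ,
        ((d - 1).choose (r - 1) * ∑ i, a v i - D * η : ℝ) ≤ ∑ I, a' v I := by
      intro v _
      have h3 : ∀ I ∈ Finset.univ, ∑ i, a v (I i) - η ≤ a' v I := fun I _ => le_max_right _ _
      refine le_trans (le_of_eq ?_) (Finset.sum_le_sum h3)
      rw [Finset.sum_sub_distrib, sum_compound r hr1 (a v), Finset.sum_const, Finset.card_univ,
        nsmul_eq_mul]
    refine lt_of_lt_of_le ?_ (Finset.sum_le_sum h2)
    rw [h1, Finset.sum_sub_distrib, ← Finset.mul_sum, Finset.sum_const, Finset.card_univ,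
      nsmul_eq_mul, hsum]
    linarith
  -- choice of the bases
  have : Nonempty (Fin d → Fin d → ℤ) := ⟨0⟩
  obtain ⟨w, hw⟩ := (hflag η hη).choice
  set U : ι → Matrix (Fin r ↪o Fin d) (Fin r ↪o Fin d) ℤ :=
    fun n => compound r (Matrix.of (w n)) with hU
  set Bq : ι → Matrix (Fin d) (Fin d) ℚ := fun n => (Matrix.of (w n)).map (Int.castRingHom ℚ)
    with hBq
  have hUq : ∀ n, compound r (Bq n) = (U n).map (Int.castRingHom ℚ) := fun n =>
    compound_map r _ _
  have hdetq : ∀ᶠ n in 𝓤, (Bq n).det ≠ 0 := by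
    filter_upwards [hw] with n hn
    have h1 : (Bq n).det = ((Matrix.of (w n)).det : ℚ) := by
      change ((Matrix.of (w n)).map (Int.castRingHom ℚ)).det = _
      rw [← RingHom.mapMatrix_apply, ← RingHom.map_det]
      rfl
    rw [h1]
    exact_mod_cast hn.1
  have hUdet : ∀ᶠ n in 𝓤, (U n).det ≠ 0 := by
    filter_upwards [hdetq] with n hn h0
    apply compound_det_ne_zero r (Bq n) hn
    rw [hUq, ← RingHom.mapMatrix_apply, ← RingHom.map_det, h0]
    simp
  have hg0 : ∀ᶠ n in 𝓤, ∃ g : (Fin r ↪o Fin d) → ℤ, (∀ e : ℕ, (∀ i, (e : ℤ) ∣ g i) → e = 1) ∧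
      ∀ J, J ≠ J₀ → ∑ I, g I * U n J I = 0 := by
    filter_upwards [hUdet] with n hn
    exact exists_primitive_normal (U n) hn J₀
  have : Nonempty ((Fin r ↪o Fin d) → ℤ) := ⟨0⟩
  obtain ⟨g, hg⟩ := hg0.choice
  have hcard : Fintype.card {J : Fin r ↪o Fin d // J ≠ J₀} + 1 =
      Fintype.card (Fin r ↪o Fin d) := by
    have h1 : 0 < Fintype.card (Fin r ↪o Fin d) := Fintype.card_pos_iff.2 ⟨J₀⟩
    rw [Fintype.card_subtype_compl, Fintype.card_subtype_eq]
    omega
  have hcard2 : 2 ≤ Fintype.card (Fin r ↪o Fin d) := by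
    have h1 : 1 < Fintype.card (Fin r ↪o Fin d) := by
      rw [Fintype.one_lt_card_iff]
      refine ⟨Fin.castLEOrderEmb hrd.le, J₀, ?_⟩
      intro h
      have h2 := congrArg (fun f : Fin r ↪o Fin d => (f ⟨0, hr1⟩).val) h
      simp only [hJ₀] at h2
      simp at h2
      omega
    omega
  obtain ⟨g₀, hg₀⟩ := penultimate 𝓤 T hT (κ := Fin r ↪o Fin d)
    (κ' := {J : Fin r ↪o Fin d // J ≠ J₀}) hcard2 hcard (compound r M)
    (compound_det_ne_zero r M hM) b hb hcop a' (fun v I => le_max_left _ _) c'' hgap' g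
    (by filter_upwards [hg] with n hn; exact hn.1)
    (fun n J I => U n J.1 I)
    (by
      filter_upwards [hdetq] with n hn
      have h1 := Matrix.linearIndependent_rows_of_det_ne_zero (compound_det_ne_zero r (Bq n) hn)
      have h2 := h1.comp (fun J : {J : Fin r ↪o Fin d // J ≠ J₀} => J.1) Subtype.val_injective
      rw [hUq n] at h2
      exact h2)
    (by
      filter_upwards [hg] with n hn
      intro J
      exact hn.2 J.1 J.2)
    (by
      filter_upwards [hw, hT.eventually_ge_atTop (Real.log r.factorial / η)] with n hn hTn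
      intro J I
      have hfac : (r.factorial : ℝ) ≤ Real.exp (η * T n) := by
        have h1 : (0 : ℝ) < r.factorial := by exact_mod_cast r.factorial_pos
        rw [← Real.log_le_iff_le_exp h1]
        rw [div_le_iff₀ hη] at hTn
        linarith
      -- Cauchy-Binet
      have hcb : ∑ j, ((compound r M I j : ℚ) : ℝ) * ((U n J.1 j : ℤ) : ℝ) =
          (Matrix.of fun i i' => ∑ l, (M (I i) l : ℝ) * (w n (J.1 i') l : ℝ)).det := by
        have h1 := compound_mul r (M.map (Rat.castHom ℝ))
          ((Matrix.of (w n)).map (Int.castRingHom ℝ)).transpose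
        rw [← compound_transpose, compound_map, compound_map] at h1
        have h2 := congrFun (congrFun h1 I) J.1
        rw [Matrix.mul_apply] at h2
        have h3 : ∑ j, ((compound r M I j : ℚ) : ℝ) * ((U n J.1 j : ℤ) : ℝ) = compound r
            (M.map (Rat.castHom ℝ) * ((Matrix.of (w n)).map (Int.castRingHom ℝ)).transpose)
            I J.1 := by
          rw [h2]
          rfl
        rw [h3]
        unfold compound
        rw [Matrix.of_apply]
        congr 1
      rw [hcb]
      by_cases hI : I = E₀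
      · obtain ⟨j₀, hj₀⟩ := hJlt J.1 J.2
        have h1 := abs_det_le
          (Matrix.of fun i i' => ∑ l, (M (I i) l : ℝ) * (w n (J.1 i') l : ℝ))
          (fun i => Real.exp ((c' (I i) + η) * T n))
          (fun j => if j = j₀ then Real.exp (-δ * T n) else 1) (by
            intro i j
            rw [Matrix.of_apply]
            by_cases hj : j = j₀
            · rw [if_pos hj, ← Real.exp_add, hj]
              refine (hn.2.2.2.1 (J.1 j₀) hj₀ (I i) (by rw [hI]; exact hE₀ i)).trans ?_
              apply Real.exp_le_exp.2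
              linarith
            · rw [if_neg hj, mul_one]
              exact hn.2.2.1 (J.1 j) (I i))
        refine h1.trans ?_
        rw [Finset.prod_ite_eq' Finset.univ j₀, if_pos (Finset.mem_univ _), ← Real.exp_sum,
          ← Real.exp_add, ← Finset.sum_mul, Finset.sum_add_distrib, Finset.sum_const,
          Finset.card_univ, Fintype.card_fin, nsmul_eq_mul]
        refine (mul_le_mul_of_nonneg_right hfac (Real.exp_pos _).le).trans ?_
        rw [← Real.exp_add]
        apply Real.exp_le_exp.2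
        simp only [hc'', if_pos hI]
        apply le_of_eq
        ring
      · have h1 := abs_det_le
          (Matrix.of fun i i' => ∑ l, (M (I i) l : ℝ) * (w n (J.1 i') l : ℝ))
          (fun i => Real.exp ((c' (I i) + η) * T n))
          (fun j => 1) (by
            intro i j
            rw [Matrix.of_apply, mul_one]
            exact hn.2.2.1 (J.1 j) (I i))
        refine h1.trans ?_
        rw [Finset.prod_const_one, mul_one, ← Real.exp_sum,
          ← Finset.sum_mul, Finset.sum_add_distrib, Finset.sum_const,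
          Finset.card_univ, Fintype.card_fin, nsmul_eq_mul]
        refine (mul_le_mul_of_nonneg_right hfac (Real.exp_pos _).le).trans ?_
        rw [← Real.exp_add]
        apply Real.exp_le_exp.2
        simp only [hc'', if_neg hI]
        apply le_of_eq
        ring)
    (by
      have h1 : ∀ᶠ n in 𝓤, ∀ v, ∀ I : Fin r ↪o Fin d,
          kexp (b v) (a' v I) (T n) ≤ ∑ i, kexp (b v) (a v (I i)) (T n) := by
        rw [eventually_all]
        intro v
        rw [eventually_all]
        intro I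
        exact eventually_kexp_le 𝓤 T hT (b v) (hb v) (fun i => a v (I i)) η hη
      filter_upwards [h1, hw] with n hn hwn
      intro J v I
      refine (pow_dvd_pow _ (hn v I)).trans ?_
      exact pow_dvd_det _ _ _ fun i j => hwn.2.1 (J.1 i) v (I j))
  -- the fixed normal vector gives a fixed linear form vanishing at `x n`
  have hne : ∃ I, g₀ I ≠ 0 := by
    obtain ⟨n, hn1, hn2⟩ := (hg.and hg₀).exists
    by_contra hcon'
    push Not at hcon'
    have h1 := hn1.1 2 (fun i => by rw [hn2, hcon' i]; exact dvd_zero _)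
    omega
  obtain ⟨I₁, hI₁⟩ := hne
  set gq : (Fin r ↪o Fin d) → ℚ := fun I => (g₀ I : ℚ) with hgq
  set e : Fin r → Fin d → ℚ := fun i => Pi.single (I₁ i) 1 with he
  set i₀ : Fin r := ⟨0, hr1⟩ with hi₀
  set l : Fin d → ℚ := fun i => lam gq (Function.update e i₀ (Pi.single i 1)) with hl
  have hlsum : ∀ y : Fin d → ℚ, ∑ i, l i * y i = lam gq (Function.update e i₀ y) := by
    intro y
    have h1 : y = ∑ i, y i • (Pi.single i 1 : Fin d → ℚ) := by
      funext j
      simp [Finset.sum_apply, Pi.single_apply]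
    conv_rhs => rw [h1]
    rw [AlternatingMap.map_update_sum]
    apply Finset.sum_congr rfl
    intro i _
    rw [AlternatingMap.map_update_smul, smul_eq_mul, mul_comm]
  have hl0 : l ≠ 0 := by
    intro h0
    have h1 := congrFun h0 (I₁ i₀)
    have h2 : Function.update e i₀ (Pi.single (I₁ i₀) 1) = e := by
      rw [Function.update_eq_self_iff]
    simp only [hl, h2, Pi.zero_apply] at h1
    have h3 : e = fun i => (1 : Matrix (Fin d) (Fin d) ℚ) (I₁ i) := by
      funext i j
      change (Pi.single (I₁ i) 1 : Fin d → ℚ) j = _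
      rw [Matrix.one_apply, Pi.single_apply]
      by_cases h : j = I₁ i
      · rw [if_pos h, if_pos h.symm]
      · rw [if_neg h, if_neg (fun h' => h h'.symm)]
    rw [h3, lam_comp, compound_one] at h1
    simp only [Matrix.one_apply] at h1
    simp at h1
    exact hI₁ (by simpa [hgq] using h1)
  have hfin := hgen l hl0
  obtain ⟨n, ⟨⟨hn1, hn2⟩, hn3⟩, hn4, hn5⟩ := (((hfin.and hg₀).and hw).and (hdetq.and hg)).exists
  apply hn1
  rw [hlsum]
  obtain ⟨t, ht0, htx⟩ := hn3.2.2.2.2
  apply lam_eq_zero gq (Bq n) hn4 J₀ k (fun i => by rw [hJ₀]; omega) _ _ i₀ t ht0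
  · intro i
    rw [Function.update_self, htx i]
    rfl
  · intro J hJ
    have h1 := hn5.2 J hJ
    rw [hUq n]
    have h2 : ((∑ I, g n I * U n J I : ℤ) : ℚ) = 0 := by rw [h1]; simp
    push_cast at h2
    rw [← h2, hn2]
    rfl

end SST
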