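import Pool.Agent.Subspace.RFDefs

/-!
# Density version of Furstenberg's theorem: Benford's law near zero
-/

namespace SST

open Set Filter Pool.Agent.DigitPowers

lemma exists_nat_visit {θ : ℝ} (hθ : Irrational θ) (u : ℝ) {ε : ℝ} (hε : 0 < ε) :
    ∃ i : ℕ, ∃ z : ℤ, u < i * θ - z ∧ i * θ - z < u + ε := by
  have h1 : DenseRange (fun n : ℕ => n • (θ : UnitAddCircle)) := by
    rw [← denseRange_zsmul_iff_nsmul, AddCircle.denseRange_zsmul_coe_iff]
    simpa using hθ
  obtain ⟨n, t, ht, h⟩ := h1.exists_mem_open (QuotientAddGroup.isOpenMap_coe _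
    (isOpen_Ioo (a := u) (b := u + ε))) ⟨_, u + ε / 2, by constructor <;> linarith, rfl⟩
  refine ⟨n, ?_⟩
  have h2 : ((n * θ - t : ℝ) : UnitAddCircle) = 0 := by
    rw [AddCircle.coe_sub, ← circle_nsmul_coe]
    rw [← h]
    exact sub_self _
  rw [AddCircle.coe_eq_zero_iff] at h2
  obtain ⟨z, hz⟩ := h2
  refine ⟨z, ?_, ?_⟩
  · rw [zsmul_eq_mul, mul_one] at hz
    rw [hz]
    linarith [ht.1]
  · rw [zsmul_eq_mul, mul_one] at hz
    rw [hz]
    linarith [ht.2]

/-- Visits of the rotation by an irrational number to a short arc. -/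
theorem visits_le {θ : ℝ} (hθ : Irrational θ) {lam : ℝ} (h0 : 0 < lam) (h1 : lam ≤ 1 / 4) :
    ∃ R : ℕ, ∀ (c : ℝ) (l : ℕ),
      (((Finset.range l).filter fun n : ℕ => Int.fract (c + n * θ) < lam).card : ℝ)
        ≤ 4 * lam * l + R := by
  classical
  set N := ⌊1 / (2 * lam)⌋₊ with hN
  have hNle : (N : ℝ) ≤ 1 / (2 * lam) := Nat.floor_le (by positivity)
  have hNlt : 1 / (2 * lam) < N + 1 := Nat.lt_floor_add_one _
  have hlam1 : 1 ≤ 1 / (4 * lam) := by
    rw [le_div_iff₀ (by positivity)]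
    linarith
  have hNge : 1 / (4 * lam) ≤ N := by
    have e : 1 / (2 * lam) = 1 / (4 * lam) + 1 / (4 * lam) := by
      field_simp
      ring
    linarith
  have hN1 : (1 : ℝ) ≤ N := hlam1.trans hNge
  have hN0 : (0 : ℝ) < N := by linarith
  have hNlam : 2 * lam ≤ 1 / N := by
    rw [le_div_iff₀ hN0]
    rw [le_div_iff₀ (by positivity)] at hNle
    linarith
  have hex : ∀ s : ℕ, ∃ i : ℕ, ∃ z : ℤ, (s : ℝ) / N < i * θ - z ∧ i * θ - z < s / N + lam / 2 :=
    fun s => exists_nat_visit hθ _ (by positivity)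
  choose i z hz1 hz2 using hex
  set R := ∑ s ∈ Finset.range N, i s with hR
  refine ⟨R, fun c l => ?_⟩
  set Vis := (Finset.range l).filter fun n : ℕ => Int.fract (c + n * θ) < lam with hVis
  have hcard : N * Vis.card ≤ l + R := by
    have hmap : ∀ x ∈ (Finset.range N) ×ˢ Vis, (fun x : ℕ × ℕ => x.2 + i x.1) x ∈
        Finset.range (l + R) := by
      rintro ⟨s, n⟩ hx
      rw [Finset.mem_product] at hx
      have hn := Finset.mem_range.1 (Finset.mem_filter.1 hx.2).1
      have hs : i s ≤ R := Finset.single_le_sum (f := i) (fun _ _ => Nat.zero_le _) hx.1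
      simp only at hn ⊢
      rw [Finset.mem_range]
      omega
    have hinj : Set.InjOn (fun x : ℕ × ℕ => x.2 + i x.1) ((Finset.range N) ×ˢ Vis : Finset _) := by
      have key : ∀ s n s' n' : ℕ, s < N → s' < s → n ∈ Vis → n' ∈ Vis →
          n + i s ≠ n' + i s' := by
        intro s n s' n' hs hss hn hn' heq
        have hf := (Finset.mem_filter.1 hn).2
        have hf' := (Finset.mem_filter.1 hn').2
        have hf0 := Int.fract_nonneg (c + n * θ)
        have hf0' := Int.fract_nonneg (c + n' * θ)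
        have e : (n : ℝ) + i s = n' + i s' := by exact_mod_cast heq
        have e1 : Int.fract (c + n * θ) = c + n * θ - ⌊c + n * θ⌋ := rfl
        have e2 : Int.fract (c + n' * θ) = c + n' * θ - ⌊c + n' * θ⌋ := rfl
        set D : ℝ := (Int.fract (c + n * θ) + (i s * θ - z s)) -
          (Int.fract (c + n' * θ) + (i s' * θ - z s')) with hD
        have hDint : D = ((⌊c + n' * θ⌋ + z s' - ⌊c + n * θ⌋ - z s : ℤ) : ℝ) := by
          rw [hD, e1, e2]
          push_cast
          have : (n : ℝ) * θ + i s * θ = n' * θ + i s' * θ := by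
            rw [← add_mul, ← add_mul, e]
          linarith
        have hssR : (1 : ℝ) ≤ (s : ℝ) - s' := by
          have : s' + 1 ≤ s := hss
          have : ((s' + 1 : ℕ) : ℝ) ≤ s := by exact_mod_cast this
          push_cast at this
          linarith
        have hsN : (s : ℝ) + 1 ≤ N := by exact_mod_cast hs
        have hs'0 : (0 : ℝ) ≤ s' := Nat.cast_nonneg _
        have hd1 : 1 / (N : ℝ) ≤ s / N - s' / N := by
          rw [← sub_div]
          exact div_le_div_of_nonneg_right hssR hN0.le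
        have hd2 : (s : ℝ) / N - s' / N ≤ 1 - 1 / N := by
          rw [← sub_div]
          have : (1 : ℝ) - 1 / N = (N - 1) / N := by field_simp
          rw [this]
          exact div_le_div_of_nonneg_right (by linarith) hN0.le
        have hD0 : 0 < D := by
          rw [hD]
          have := hz1 s
          have := hz2 s'
          linarith
        have hD1 : D < 1 := by
          rw [hD]
          have := hz2 s
          have := hz1 s'
          linarith
        rw [hDint] at hD0 hD1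
        have h3 : (0 : ℤ) < ⌊c + n' * θ⌋ + z s' - ⌊c + n * θ⌋ - z s := by exact_mod_cast hD0
        have h4 : (⌊c + n' * θ⌋ + z s' - ⌊c + n * θ⌋ - z s : ℤ) < 1 := by exact_mod_cast hD1
        omega
      rintro ⟨s, n⟩ hx ⟨s', n'⟩ hx' heq
      rw [Finset.mem_coe, Finset.mem_product] at hx hx'
      simp only at hx hx' heq
      rw [Finset.mem_range] at hx hx'
      rcases lt_trichotomy s s' with h | h | h
      · exact absurd heq.symm (key s' n' s n hx'.1 h hx'.2 hx.2)
      · subst h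
        have : n = n' := by omega
        rw [this]
      · exact absurd heq (key s n s' n' hx.1 h hx.2 hx'.2)
    have := Finset.card_le_card_of_injOn _ hmap hinj
    rwa [Finset.card_product, Finset.card_range, Finset.card_range] at this
  have hcard' : (N : ℝ) * Vis.card ≤ l + R := by exact_mod_cast hcard
  have h4 : (Vis.card : ℝ) ≤ (l + R) / N := by
    rw [le_div_iff₀ hN0]
    linarith
  refine h4.trans ?_
  rw [div_le_iff₀ hN0]
  have h5 : 1 ≤ 4 * lam * N := by
    rw [div_le_iff₀ (by positivity)] at hNge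
    linarith
  have hl0 : (0 : ℝ) ≤ l := Nat.cast_nonneg _
  have hR0 : (0 : ℝ) ≤ R := Nat.cast_nonneg _
  nlinarith [mul_nonneg hl0 (sub_nonneg.2 h5), mul_nonneg hR0 (sub_nonneg.2 hN1)]

/-- Numbers below `M * B ^ N` whose `N` lowest digits in base `B` differ from `w`. -/
lemma card_bad_le {B w : ℕ} (hw : w < B) (M N : ℕ) :
    ((Finset.range (M * B ^ N)).filter fun a => ∀ i < N, a / B ^ i % B ≠ w).card
      ≤ M * (B - 1) ^ N := by
  classical
  induction N with
  | zero => simp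
  | succ N ih =>
    have hB : 0 < B := by omega
    have hmap : ∀ a ∈ (Finset.range (M * B ^ (N + 1))).filter
        (fun a => ∀ i < N + 1, a / B ^ i % B ≠ w),
        (fun a : ℕ => (a / B, a % B)) a ∈
          ((Finset.range (M * B ^ N)).filter fun a => ∀ i < N, a / B ^ i % B ≠ w) ×ˢ
            ((Finset.range B).erase w) := by
      intro a ha
      rw [Finset.mem_filter, Finset.mem_range] at ha
      rw [Finset.mem_product, Finset.mem_filter, Finset.mem_range, Finset.mem_erase,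
        Finset.mem_range]
      refine ⟨⟨?_, ?_⟩, ?_, Nat.mod_lt _ hB⟩
      · rw [Nat.div_lt_iff_lt_mul hB, mul_assoc, ← pow_succ]
        exact ha.1
      · intro i hi
        have := ha.2 (i + 1) (by omega)
        simp only
        rwa [Nat.div_div_eq_div_mul, ← pow_succ']
      · have := ha.2 0 (by omega)
        simpa using this
    have hinj : Set.InjOn (fun a : ℕ => (a / B, a % B))
        ((Finset.range (M * B ^ (N + 1))).filter
          (fun a => ∀ i < N + 1, a / B ^ i % B ≠ w) : Finset ℕ) := by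
      intro a _ b _ h
      simp only [Prod.mk.injEq] at h
      rw [← Nat.div_add_mod a B, ← Nat.div_add_mod b B, h.1, h.2]
    refine (Finset.card_le_card_of_injOn _ hmap hinj).trans ?_
    rw [Finset.card_product, Finset.card_erase_of_mem (Finset.mem_range.2 hw), Finset.card_range,
      pow_succ, ← mul_assoc]
    exact Nat.mul_le_mul_right _ ih

/-- An open set of the circle contains a base-`B` interval for a suitable power `B` of `Q`. -/
lemma exists_interval {Q : ℕ} (hQ : 2 ≤ Q) {V : Set UnitAddCircle} (hV : IsOpen V)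
    (hVne : V.Nonempty) : ∃ k : ℕ, 1 ≤ k ∧ ∃ w : ℕ, w < Q ^ k ∧
      ∀ t : ℝ, (w : ℝ) / (Q : ℝ) ^ k ≤ t → t < (w + 1 : ℝ) / (Q : ℝ) ^ k →
        (t : UnitAddCircle) ∈ V := by
  obtain ⟨y, hy⟩ := hVne
  obtain ⟨r, hr, hball⟩ := Metric.isOpen_iff.1 hV y hy
  obtain ⟨a, rfl, ha0, ha1⟩ := circle_lift_Ico y
  have hQ1 : (1 : ℝ) < Q := by exact_mod_cast (by omega : 1 < Q)
  obtain ⟨k, hk⟩ := pow_unbounded_of_one_lt (1 / r) hQ1
  have hQk : (0 : ℝ) < (Q : ℝ) ^ (k + 1) := by positivity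
  have hk' : 1 / r < (Q : ℝ) ^ (k + 1) := hk.trans (pow_lt_pow_right₀ hQ1 (Nat.lt_succ_self k))
  refine ⟨k + 1, by omega, ⌊a * (Q : ℝ) ^ (k + 1)⌋₊, ?_, ?_⟩
  · rw [Nat.floor_lt (by positivity)]
    push_cast
    nlinarith
  · intro t ht1 ht2
    apply hball
    rw [Metric.mem_ball, dist_eq_norm, ← AddCircle.coe_sub]
    refine lt_of_le_of_lt (circle_norm_le _) ?_
    have h1 : (⌊a * (Q : ℝ) ^ (k + 1)⌋₊ : ℝ) ≤ a * (Q : ℝ) ^ (k + 1) :=
      Nat.floor_le (by positivity)
    have h2 : a * (Q : ℝ) ^ (k + 1) < ⌊a * (Q : ℝ) ^ (k + 1)⌋₊ + 1 := Nat.lt_floor_add_one _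
    rw [div_le_iff₀ hQk] at ht1
    rw [lt_div_iff₀ hQk] at ht2
    have h3 : |t - a| * (Q : ℝ) ^ (k + 1) < 1 := by
      rw [← abs_of_pos hQk, ← abs_mul, abs_lt]
      constructor <;> nlinarith
    have h4 : 1 < (Q : ℝ) ^ (k + 1) * r := by
      rw [div_lt_iff₀ hr] at hk'
      exact hk'
    by_contra h5
    push Not at h5
    have : r * (Q : ℝ) ^ (k + 1) ≤ |t - a| * (Q : ℝ) ^ (k + 1) :=
      mul_le_mul_of_nonneg_right h5 hQk.le
    linarith

lemma floor_mul_mod {B : ℕ} (hB : 0 < B) {x : ℝ} (hx : 0 ≤ x) :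
    ⌊x * B⌋₊ % B = ⌊Int.fract x * B⌋₊ := by
  have hBR : (0 : ℝ) < B := by exact_mod_cast hB
  have hf : x = (⌊x⌋₊ : ℝ) + Int.fract x := by
    rw [natCast_floor_eq_intCast_floor hx]
    exact (Int.floor_add_fract x).symm
  have hf0 := Int.fract_nonneg x
  have hf1 := Int.fract_lt_one x
  have h1 : ⌊x * B⌋₊ = ⌊Int.fract x * B⌋₊ + ⌊x⌋₊ * B := by
    conv_lhs => rw [hf]
    rw [add_mul, add_comm ((⌊x⌋₊ : ℝ) * B)]
    have : (⌊x⌋₊ : ℝ) * B = ((⌊x⌋₊ * B : ℕ) : ℝ) := by push_cast; rfl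
    rw [this, Nat.floor_add_natCast (by positivity)]
  rw [h1, Nat.add_mul_mod_self_right]
  apply Nat.mod_eq_of_lt
  rw [Nat.floor_lt (by positivity)]
  nlinarith

/-- Benford's law for a positive real number. -/
lemma benford_pos {P Q : ℕ} (hP : 2 ≤ P) (hQ : 2 ≤ Q) (hPQ : Nat.Coprime P Q)
    {V : Set UnitAddCircle} (hV : IsOpen V) (hVne : V.Nonempty) {η : ℝ} (hη : 0 < η) :
    ∃ l₀ : ℕ, ∀ l : ℕ, l₀ ≤ l → ∀ ξ : ℝ, 0 < ξ → (P : ℝ) ^ l * ξ < 1 →
      (missCount P V {y | ∃ k : ℕ, y = Q ^ k • (ξ : UnitAddCircle)} l : ℝ) ≤ η * l := by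
  classical
  obtain ⟨k, hk, w, hw, hVw⟩ := exists_interval hQ hV hVne
  have hPR : (1 : ℝ) < P := by exact_mod_cast (by omega : 1 < P)
  have hQR : (1 : ℝ) < Q := by exact_mod_cast (by omega : 1 < Q)
  have hlP : 0 < Real.log P := Real.log_pos hPR
  have hlQ : 0 < Real.log Q := Real.log_pos hQR
  set B := Q ^ k with hB
  have hB2 : 2 ≤ B := by
    calc 2 ≤ Q := hQ
      _ = Q ^ 1 := (pow_one _).symm
      _ ≤ Q ^ k := Nat.pow_le_pow_right (by omega) hk
  have hBR : (1 : ℝ) < B := by exact_mod_cast (by omega : 1 < B)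
  have hBR0 : (0 : ℝ) < B := by linarith
  have hBcast : (B : ℝ) = (Q : ℝ) ^ k := by rw [hB]; push_cast; rfl
  -- choose `N`
  have ht1 : Tendsto (fun N : ℕ => (4 * Q / Real.log Q) * (((B : ℝ) - 1) / B) ^ N) atTop
      (nhds ((4 * Q / Real.log Q) * 0)) :=
    (tendsto_pow_atTop_nhds_zero_of_lt_one (div_nonneg (by linarith) hBR0.le)
      (by rw [div_lt_one hBR0]; linarith)).const_mul _
  have ht2 : Tendsto (fun N : ℕ => (1 / Real.log Q) * ((1 : ℝ) / B) ^ N) atTop
      (nhds ((1 / Real.log Q) * 0)) :=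
    (tendsto_pow_atTop_nhds_zero_of_lt_one (by positivity)
      (by rw [div_lt_one hBR0]; exact hBR)).const_mul _
  rw [mul_zero] at ht1 ht2
  obtain ⟨N, hN1, hN2⟩ := ((ht1.eventually (gt_mem_nhds (show (0 : ℝ) < η / 2 by positivity))).and
    (ht2.eventually (gt_mem_nhds (show (0 : ℝ) < 1 / 4 by norm_num)))).exists
  set lam := (1 / Real.log Q) * ((1 : ℝ) / B) ^ N with hlam
  have hlam0 : 0 < lam := by positivity
  obtain ⟨R, hR⟩ := visits_le (irrational_log_div_log hP hQ hPQ) hlam0 hN2.le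
  set θ := Real.log P / Real.log Q with hθ
  set Bad := (Finset.range (Q * B ^ N)).filter fun a => ∀ i < N, a / B ^ i % B ≠ w with hBad
  have hBadcard : (Bad.card : ℝ) ≤ Q * ((B : ℝ) - 1) ^ N := by
    have h := card_bad_le hw Q N
    have h' : ((Bad.card : ℕ) : ℝ) ≤ ((Q * (B - 1) ^ N : ℕ) : ℝ) := by exact_mod_cast h
    rw [Nat.cast_mul, Nat.cast_pow, Nat.cast_sub (by omega), Nat.cast_one] at h'
    exact h'
  obtain ⟨l₀, hl₀⟩ := exists_nat_ge (2 * (Q * ((B : ℝ) - 1) ^ N * R) / η)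
  refine ⟨l₀, fun l hl ξ hξ hξl => ?_⟩
  -- the missing times are covered by visits
  have hsub : ((Finset.range l).filter fun j => ∀ x ∈ {y | ∃ k : ℕ, y = Q ^ k • (ξ : UnitAddCircle)},
      P ^ j • x ∉ V) ⊆ Bad.biUnion fun a => (Finset.range l).filter fun n : ℕ =>
        Int.fract ((Real.log ξ / Real.log Q - Real.log (a / (B : ℝ) ^ N) / Real.log Q) + n * θ)
          < lam := by
    intro n hn
    rw [Finset.mem_filter, Finset.mem_range] at hn
    obtain ⟨hnl, hmiss⟩ := hn
    set L := (Real.log ξ + n * Real.log P) / Real.log Q with hL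
    have hPn : (0 : ℝ) < (P : ℝ) ^ n * ξ := by positivity
    have hPn1 : (P : ℝ) ^ n * ξ < 1 := by
      refine lt_of_le_of_lt ?_ hξl
      exact mul_le_mul_of_nonneg_right (pow_le_pow_right₀ hPR.le hnl.le) hξ.le
    have hlogPn : Real.log ((P : ℝ) ^ n * ξ) = Real.log ξ + n * Real.log P := by
      rw [Real.log_mul (by positivity) hξ.ne', Real.log_pow]; ring
    have hL0 : L < 0 := by
      rw [hL, ← hlogPn]
      exact div_neg_of_neg_of_pos (Real.log_neg hPn hPn1) hlQ
    set κ := ⌈-L⌉₊ with hκ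
    have hκ1 : -L ≤ κ := Nat.le_ceil _
    have hκ2 : (κ : ℝ) < -L + 1 := Nat.ceil_lt_add_one (by linarith)
    set t := (Q : ℝ) ^ κ * ((P : ℝ) ^ n * ξ) with ht
    have ht0 : 0 < t := by positivity
    have hlogt : Real.log t = (κ + L) * Real.log Q := by
      rw [ht, Real.log_mul (by positivity) hPn.ne', Real.log_pow, hlogPn, hL]
      field_simp
    have ht1' : 1 ≤ t := by
      rw [← Real.log_nonneg_iff ht0, hlogt]
      exact mul_nonneg (by linarith) hlQ.le
    have htQ : t < Q := by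
      rw [← Real.log_lt_log_iff ht0 (by linarith), hlogt]
      nlinarith
    -- the digits of `a = floor (t * B ^ N)`
    set a := ⌊t * (B : ℝ) ^ N⌋₊ with ha
    have hBN : (0 : ℝ) < (B : ℝ) ^ N := by positivity
    have ha1 : (a : ℝ) ≤ t * (B : ℝ) ^ N := Nat.floor_le (by positivity)
    have ha2 : t * (B : ℝ) ^ N < a + 1 := Nat.lt_floor_add_one _
    have ha3 : B ^ N ≤ a := by
      rw [ha]
      apply Nat.le_floor
      push_cast
      nlinarith
    have ha3R : (B : ℝ) ^ N ≤ a := by exact_mod_cast ha3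
    have ha0R : (0 : ℝ) < a := by linarith
    rw [Finset.mem_biUnion]
    refine ⟨a, ?_, ?_⟩
    · rw [hBad, Finset.mem_filter, Finset.mem_range]
      refine ⟨?_, ?_⟩
      · rw [ha, Nat.floor_lt (by positivity)]
        push_cast
        nlinarith
      · intro i hi hdig
        -- set `j = N - 1 - i`
        obtain ⟨j, hj⟩ : ∃ j, i + (j + 1) = N := ⟨N - 1 - i, by omega⟩
        have h1 : a / B ^ i = ⌊t * (B : ℝ) ^ (j + 1)⌋₊ := by
          rw [ha, ← Nat.floor_div_natCast]
          congr 1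
          push_cast
          rw [← hj, pow_add]
          field_simp
        have hw' : (w : ℝ) = ⌊Int.fract (t * (B : ℝ) ^ j) * B⌋₊ := by
          rw [← floor_mul_mod (by omega) (by positivity), mul_assoc, ← pow_succ, ← h1, hdig]
        have hmem := hVw (Int.fract (t * (B : ℝ) ^ j)) ?_ ?_
        · have h2 : ((Int.fract (t * (B : ℝ) ^ j) : ℝ) : UnitAddCircle) =
              P ^ n • (Q ^ (κ + k * j) • (ξ : UnitAddCircle)) := by
            rw [circle_nsmul_coe, circle_nsmul_coe, Int.fract, AddCircle.coe_sub, circle_coe_int,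
              sub_zero]
            congr 1
            push_cast
            rw [ht, hBcast, pow_add, pow_mul]
            ring
          rw [h2] at hmem
          exact hmiss _ ⟨_, rfl⟩ hmem
        · rw [← hBcast, div_le_iff₀ hBR0, hw']
          exact Nat.floor_le (by positivity)
        · rw [← hBcast, lt_div_iff₀ hBR0, hw']
          exact Nat.lt_floor_add_one _
    · rw [Finset.mem_filter, Finset.mem_range]
      refine ⟨hnl, ?_⟩
      set u := Real.log (t * (B : ℝ) ^ N / a) / Real.log Q with hu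
      have hratio1 : 1 ≤ t * (B : ℝ) ^ N / a := by rw [le_div_iff₀ ha0R]; linarith
      have hratio2 : t * (B : ℝ) ^ N / a < 1 + 1 / a := by
        rw [div_lt_iff₀ ha0R, add_mul, one_mul, one_div, inv_mul_cancel₀ ha0R.ne']
        exact ha2
      have hu0 : 0 ≤ u := div_nonneg (Real.log_nonneg hratio1) hlQ.le
      have hulam : u < lam := by
        rw [hu, hlam, div_eq_inv_mul, one_div]
        refine mul_lt_mul_of_pos_left ?_ (inv_pos.2 hlQ)
        calc Real.log (t * (B : ℝ) ^ N / a) < Real.log (1 + 1 / a) :=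
              Real.log_lt_log (by linarith) hratio2
          _ ≤ 1 + 1 / a - 1 := Real.log_le_sub_one_of_pos (by positivity)
          _ = 1 / a := by ring
          _ ≤ 1 / (B : ℝ) ^ N := one_div_le_one_div_of_le hBN ha3R
          _ = (1 / B) ^ N := by rw [one_div_pow]
      have hval : Real.log ξ / Real.log Q - Real.log (a / (B : ℝ) ^ N) / Real.log Q + n * θ =
          u - κ := by
        have h1 : Real.log t / Real.log Q = κ + L := by rw [hlogt]; field_simp
        have h2 : Real.log (t * (B : ℝ) ^ N / a) =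
            Real.log t - Real.log (a / (B : ℝ) ^ N) := by
          rw [← Real.log_div ht0.ne' (by positivity)]
          congr 1
          field_simp
        rw [hu, h2, sub_div, h1, hL, hθ]
        field_simp
        ring
      rw [hval]
      have h3 : Int.fract (u - (κ : ℝ)) = Int.fract u := by
        have := Int.fract_sub_intCast u (κ : ℤ)
        exact_mod_cast this
      rw [h3, Int.fract_eq_self.2 ⟨hu0, by linarith⟩]
      exact hulam
  have hcard := (Finset.card_le_card hsub).trans Finset.card_biUnion_le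
  have hcardR : (missCount P V {y | ∃ k : ℕ, y = Q ^ k • (ξ : UnitAddCircle)} l : ℝ) ≤
      ∑ a ∈ Bad, (4 * lam * l + R) := by
    unfold missCount
    refine le_trans (Nat.cast_le.2 hcard) ?_
    rw [Nat.cast_sum]
    exact Finset.sum_le_sum fun a _ => hR _ _
  rw [Finset.sum_const, nsmul_eq_mul] at hcardR
  have hl0 : (0 : ℝ) ≤ l := Nat.cast_nonneg _
  have hR0 : (0 : ℝ) ≤ R := Nat.cast_nonneg _
  have hB1N : (0 : ℝ) ≤ ((B : ℝ) - 1) ^ N := pow_nonneg (by linarith) _
  have h5 : (Bad.card : ℝ) * (4 * lam * l + R) ≤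
      Q * ((B : ℝ) - 1) ^ N * (4 * lam * l + R) :=
    mul_le_mul_of_nonneg_right hBadcard (by positivity)
  have h6 : Q * ((B : ℝ) - 1) ^ N * (4 * lam) = (4 * Q / Real.log Q) * (((B : ℝ) - 1) / B) ^ N := by
    rw [hlam, div_pow, div_pow, one_pow]
    field_simp
  have h7 : Q * ((B : ℝ) - 1) ^ N * R ≤ η / 2 * l := by
    have h8 : (l₀ : ℝ) ≤ l := by exact_mod_cast hl
    have h9 := hl₀.trans h8
    rw [div_le_iff₀ hη] at h9
    linarith
  calc (missCount P V {y | ∃ k : ℕ, y = Q ^ k • (ξ : UnitAddCircle)} l : ℝ)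
      ≤ (Bad.card : ℝ) * (4 * lam * l + R) := hcardR
    _ ≤ Q * ((B : ℝ) - 1) ^ N * (4 * lam * l + R) := h5
    _ = (Q * ((B : ℝ) - 1) ^ N * (4 * lam)) * l + Q * ((B : ℝ) - 1) ^ N * R := by ring
    _ ≤ η / 2 * l + η / 2 * l := by
        rw [h6]
        exact add_le_add (mul_le_mul_of_nonneg_right hN1.le hl0) h7
    _ = η * l := by ring

/-- For most `n < l` the forward `Q`-orbit of `P ^ n x` meets `V`, if `x` is small enough. -/
theorem benford {P Q : ℕ} (hP : 2 ≤ P) (hQ : 2 ≤ Q) (hPQ : Nat.Coprime P Q)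
    {V : Set UnitAddCircle} (hV : IsOpen V) (hVne : V.Nonempty) {η : ℝ} (hη : 0 < η) :
    ∃ l₀ : ℕ, ∀ l : ℕ, l₀ ≤ l → ∃ ρ : ℝ, 0 < ρ ∧ ∀ x : UnitAddCircle, x ≠ 0 → ‖x‖ < ρ →
      (missCount P V {y | ∃ k : ℕ, y = Q ^ k • x} l : ℝ) ≤ η * l := by
  classical
  have hV' : IsOpen (-V) := hV.neg
  have hVne' : (-V).Nonempty := hVne.neg
  obtain ⟨l₁, h₁⟩ := benford_pos hP hQ hPQ hV hVne hη
  obtain ⟨l₂, h₂⟩ := benford_pos hP hQ hPQ hV' hVne' hη
  have hPR : (0 : ℝ) < P := by exact_mod_cast (by omega : 0 < P)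
  refine ⟨max l₁ l₂, fun l hl => ⟨1 / (P : ℝ) ^ l, by positivity, fun x hx hxn => ?_⟩⟩
  obtain ⟨a, rfl, ha⟩ := circle_lift x
  have ha0 : a ≠ 0 := by
    rintro rfl
    exact hx (by simp)
  rw [← ha, lt_div_iff₀ (by positivity)] at hxn
  rcases lt_or_gt_of_ne ha0 with hneg | hpos
  · rw [abs_of_neg hneg] at hxn
    have h3 := h₂ l ((le_max_right _ _).trans hl) (-a) (by linarith) (by linarith)
    have h4 : missCount P V {y | ∃ k : ℕ, y = Q ^ k • (a : UnitAddCircle)} l =
        missCount P (-V) {y | ∃ k : ℕ, y = Q ^ k • ((-a : ℝ) : UnitAddCircle)} l := by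
      unfold missCount
      congr 1
      apply Finset.filter_congr
      intro j _
      constructor
      · rintro h _ ⟨k, rfl⟩ hmem
        rw [Set.mem_neg] at hmem
        refine h _ ⟨k, rfl⟩ ?_
        rw [AddCircle.coe_neg, smul_neg, smul_neg, neg_neg] at hmem
        exact hmem
      · rintro h _ ⟨k, rfl⟩ hmem
        refine h _ ⟨k, rfl⟩ ?_
        rw [Set.mem_neg, AddCircle.coe_neg, smul_neg, smul_neg, neg_neg]
        exact hmem
    rw [h4]
    exact h3
  · rw [abs_of_pos hpos] at hxn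
    exact h₁ l ((le_max_left _ _).trans hl) a hpos (by linarith)

theorem miss_of_zero_acc {P Q : ℕ} (hP : 2 ≤ P) (hQ : 2 ≤ Q) (hPQ : Nat.Coprime P Q)
    {V : Set UnitAddCircle} (hV : IsOpen V) (hVne : V.Nonempty) {A : Set UnitAddCircle}
    (hA : ∀ x ∈ A, Q • x ∈ A) (h0 : ∀ ε > 0, ∃ x ∈ A, x ≠ 0 ∧ ‖x‖ < ε) {η : ℝ} (hη : 0 < η) :
    ∃ l₀ : ℕ, ∀ l : ℕ, l₀ ≤ l → (missCount P V A l : ℝ) ≤ η * l := by
  obtain ⟨l₀, hl₀⟩ := benford hP hQ hPQ hV hVne hη
  refine ⟨l₀, fun l hl => ?_⟩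
  obtain ⟨ρ, hρ, hρ'⟩ := hl₀ l hl
  obtain ⟨x, hxA, hx0, hxn⟩ := h0 ρ hρ
  refine le_trans ?_ (hρ' x hx0 hxn)
  have h : missCount P V A l ≤ missCount P V {y | ∃ k : ℕ, y = Q ^ k • x} l := by
    apply missCount_mono
    rintro _ ⟨k, rfl⟩
    exact circle_nsmul_mem hA k x hxA
  exact_mod_cast h

end SST
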