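import Pool.Agent.Subspace.RFDefs

/-!
# Density version of Furstenberg's theorem: limits of sets and extraction of good times
-/

namespace SST

open Set Filter Pool.Agent.DigitPowers Topology

variable {𝓤 : Ultrafilter ℕ} {A : ℕ → Set UnitAddCircle}

theorem isClosed_limSet (𝓤 : Ultrafilter ℕ) (A : ℕ → Set UnitAddCircle) :
    IsClosed (limSet 𝓤 A) := by
  apply isClosed_of_closure_subset
  intro x hx ε hε
  obtain ⟨y, hy, hxy⟩ := Metric.mem_closure_iff.1 hx (ε / 2) (by positivity)
  filter_upwards [hy (ε / 2) (by positivity)] with k hk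
  obtain ⟨a, ha, hay⟩ := hk
  refine ⟨a, ha, ?_⟩
  calc dist a x ≤ dist a y + dist y x := dist_triangle _ _ _
    _ < ε / 2 + ε / 2 := by
        rw [dist_comm y x]
        exact add_lt_add hay hxy
    _ = ε := by ring

theorem exists_ulim (𝓤 : Ultrafilter ℕ) (a : ℕ → UnitAddCircle) : ∃ x, Tendsto a 𝓤 (𝓝 x) := by
  obtain ⟨x, -, hx⟩ := (isCompact_univ (X := UnitAddCircle)).ultrafilter_le_nhds (𝓤.map a)
    (by simp)
  exact ⟨x, hx⟩

theorem mem_limSet_of_tendsto {a : ℕ → UnitAddCircle} (ha : ∀ᶠ k in 𝓤, a k ∈ A k)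
    {x : UnitAddCircle} (hx : Tendsto a 𝓤 (𝓝 x)) : x ∈ limSet 𝓤 A := by
  intro ε hε
  filter_upwards [ha, hx (Metric.ball_mem_nhds x hε)] with k hk hk2
  exact ⟨a k, hk, hk2⟩

theorem exists_seq_of_mem_limSet (h𝓤 : (𝓤 : Filter ℕ) ≤ atTop) {x : UnitAddCircle}
    (hx : x ∈ limSet 𝓤 A) :
    ∃ a : ℕ → UnitAddCircle, (∀ᶠ k in 𝓤, a k ∈ A k) ∧ Tendsto a 𝓤 (𝓝 x) := by
  classical
  have h1 : ∀ k : ℕ, (A k).Nonempty →
      ∃ a ∈ A k, dist x a < Metric.infDist x (A k) + 1 / ((k : ℝ) + 1) := by
    intro k hk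
    apply (Metric.infDist_lt_iff hk).1
    have : (0 : ℝ) < 1 / ((k : ℝ) + 1) := by positivity
    linarith
  choose! a ha hd using h1
  have hne : ∀ᶠ k in (𝓤 : Filter ℕ), (A k).Nonempty := by
    filter_upwards [hx 1 one_pos] with k hk
    obtain ⟨b, hb, -⟩ := hk
    exact ⟨b, hb⟩
  refine ⟨a, ?_, ?_⟩
  · filter_upwards [hne] with k hk
    exact ha k hk
  · rw [Metric.tendsto_nhds]
    intro ε hε
    have h2 : ∀ᶠ k : ℕ in (𝓤 : Filter ℕ), 1 / ((k : ℝ) + 1) < ε / 2 :=
      h𝓤 (tendsto_one_div_add_atTop_nhds_zero_nat.eventually_lt_const (by positivity))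
    filter_upwards [hne, h2, hx (ε / 2) (by positivity)] with k hk hk2 hk3
    obtain ⟨b, hb, hbx⟩ := hk3
    have h3 : Metric.infDist x (A k) ≤ dist x b := Metric.infDist_le_dist_of_mem hb
    have h4 := hd k hk
    rw [dist_comm] at hbx
    rw [dist_comm]
    linarith

theorem limSet_nonempty (h : ∀ᶠ k in 𝓤, (A k).Nonempty) : (limSet 𝓤 A).Nonempty := by
  classical
  have h1 : ∀ k : ℕ, (A k).Nonempty → ∃ a, a ∈ A k := fun k hk => hk
  choose! a ha using h1
  obtain ⟨x, hx⟩ := exists_ulim 𝓤 a
  exact ⟨x, mem_limSet_of_tendsto (h.mono fun k hk => ha k hk) hx⟩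

theorem limSet_nsmul {Q : ℕ} (h : ∀ᶠ k in 𝓤, ∀ x ∈ A k, Q • x ∈ A k) :
    ∀ x ∈ limSet 𝓤 A, Q • x ∈ limSet 𝓤 A := by
  intro x hx ε hε
  have hc : Continuous fun y : UnitAddCircle => Q • y := continuous_nsmul Q
  obtain ⟨η, hη, h1⟩ := Metric.continuous_iff.1 hc x ε hε
  filter_upwards [h, hx η hη] with k hk hk2
  obtain ⟨a, ha, hax⟩ := hk2
  exact ⟨Q • a, hk a ha, h1 a hax⟩

/-- Lower bounds for the miss counts pass to the limit. -/
theorem limit_miss {P : ℕ} {U : Set UnitAddCircle} (hU : IsOpen U) {δ : ℝ} {L : ℕ → ℕ}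
    (hL : Tendsto L 𝓤 atTop)
    (h : ∀ᶠ k in 𝓤, ∀ l, l ≤ L k → δ * (l : ℝ) ≤ missCount P U (A k) l) :
    ∀ l : ℕ, δ * (l : ℝ) ≤ missCount P U (limSet 𝓤 A) l := by
  classical
  intro l
  have h1 : ∀ j : ℕ, ∀ᶠ k in (𝓤 : Filter ℕ),
      (∀ x ∈ A k, P ^ j • x ∉ U) → ∀ x ∈ limSet 𝓤 A, P ^ j • x ∉ U := by
    intro j
    by_cases hj : ∀ x ∈ limSet 𝓤 A, P ^ j • x ∉ U
    · exact Eventually.of_forall fun k _ => hj
    · push Not at hj
      obtain ⟨x, hx, hxU⟩ := hj
      have hc : Continuous fun y : UnitAddCircle => P ^ j • y := continuous_nsmul (P ^ j)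
      obtain ⟨η, hη, h2⟩ := Metric.isOpen_iff.1 (hU.preimage hc) x hxU
      filter_upwards [hx η hη] with k hk hk2
      obtain ⟨a, ha, hax⟩ := hk
      exact absurd (h2 hax) (hk2 a ha)
  have h2 : ∀ᶠ k in (𝓤 : Filter ℕ), ∀ j ∈ Finset.range l,
      (∀ x ∈ A k, P ^ j • x ∉ U) → ∀ x ∈ limSet 𝓤 A, P ^ j • x ∉ U := by
    rw [Filter.eventually_all_finset]
    intro j _
    exact h1 j
  obtain ⟨k, hk1, hk2, hk3⟩ := (h.and (h2.and (hL.eventually_ge_atTop l))).exists
  refine (hk1 l hk3).trans ?_
  have h3 : missCount P U (A k) l ≤ missCount P U (limSet 𝓤 A) l := by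
    unfold missCount
    apply Finset.card_le_card
    intro j hj
    rw [Finset.mem_filter] at hj ⊢
    exact ⟨hj.1, hk2 j hj.1 hj.2⟩
  exact_mod_cast h3

open Classical in
/-- The rising sun lemma. -/
theorem rising_sun (E : Finset ℕ) (l : ℕ) (hE : E ⊆ Finset.range l) {δ : ℝ} (hδ : 0 ≤ δ)
    (h : δ * l ≤ E.card) :
    δ / 2 * l ≤ (((Finset.range l).filter fun n => ∀ l' : ℕ, n + l' ≤ l →
      δ / 2 * l' ≤ ((E.filter fun j => n ≤ j ∧ j < n + l').card : ℝ)).card : ℝ) := by
  set good : Finset ℕ := (Finset.range l).filter fun n => ∀ l' : ℕ, n + l' ≤ l →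
      δ / 2 * l' ≤ ((E.filter fun j => n ≤ j ∧ j < n + l').card : ℝ) with hgood
  have key : ∀ d m : ℕ, m + d = l → ((E.filter fun j => m ≤ j).card : ℝ) ≤
      ((good.filter fun n => m ≤ n).card : ℝ) + δ / 2 * d := by
    intro d
    induction d using Nat.strong_induction_on with
    | _ d ih =>
      intro m hm
      rcases Nat.eq_zero_or_pos d with h0 | hpos
      · subst h0
        have h1 : (E.filter fun j => m ≤ j) = ∅ := by
          apply Finset.filter_eq_empty_iff.2
          intro j hj
          have := Finset.mem_range.1 (hE hj)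
          omega
        rw [h1]
        simp
      · by_cases hg : m ∈ good
        · have h1 := ih (d - 1) (by omega) (m + 1) (by omega)
          have h2 : (E.filter fun j => m ≤ j) ⊆ insert m (E.filter fun j => m + 1 ≤ j) := by
            intro j hj
            rw [Finset.mem_filter] at hj
            rw [Finset.mem_insert, Finset.mem_filter]
            rcases eq_or_lt_of_le hj.2 with h3 | h3
            · exact Or.inl h3.symm
            · exact Or.inr ⟨hj.1, h3⟩
          have h3 : ((E.filter fun j => m ≤ j).card : ℝ) ≤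
              (E.filter fun j => m + 1 ≤ j).card + 1 := by
            exact_mod_cast (Finset.card_le_card h2).trans (Finset.card_insert_le _ _)
          have h4 : insert m (good.filter fun n => m + 1 ≤ n) ⊆ good.filter fun n => m ≤ n := by
            intro j hj
            rw [Finset.mem_insert, Finset.mem_filter] at hj
            rw [Finset.mem_filter]
            rcases hj with h5 | h5
            · subst h5
              exact ⟨hg, le_rfl⟩
            · exact ⟨h5.1, by omega⟩
          have h5 : ((good.filter fun n => m + 1 ≤ n).card : ℝ) + 1 ≤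
              (good.filter fun n => m ≤ n).card := by
            have h6 := Finset.card_le_card h4
            rw [Finset.card_insert_of_notMem (by simp)] at h6
            exact_mod_cast h6
          have h6 : δ / 2 * ((d - 1 : ℕ) : ℝ) ≤ δ / 2 * d := by
            apply mul_le_mul_of_nonneg_left _ (by positivity)
            exact_mod_cast Nat.sub_le d 1
          linarith
        · have h1 : ∃ l' : ℕ, m + l' ≤ l ∧
              ((E.filter fun j => m ≤ j ∧ j < m + l').card : ℝ) < δ / 2 * l' := by
            by_contra hcon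
            push Not at hcon
            apply hg
            rw [hgood, Finset.mem_filter]
            exact ⟨Finset.mem_range.2 (by omega), hcon⟩
          obtain ⟨l', hl', hlt⟩ := h1
          have hl'pos : 0 < l' := by
            rcases Nat.eq_zero_or_pos l' with h2 | h2
            · subst h2
              rw [Nat.cast_zero, mul_zero] at hlt
              exact absurd hlt (not_lt.2 (Nat.cast_nonneg _))
            · exact h2
          have h2 := ih (d - l') (by omega) (m + l') (by omega)
          have h3 : (E.filter fun j => m ≤ j) ⊆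
              (E.filter fun j => m ≤ j ∧ j < m + l') ∪ (E.filter fun j => m + l' ≤ j) := by
            intro j hj
            rw [Finset.mem_filter] at hj
            rw [Finset.mem_union, Finset.mem_filter, Finset.mem_filter]
            rcases lt_or_ge j (m + l') with h4 | h4
            · exact Or.inl ⟨hj.1, hj.2, h4⟩
            · exact Or.inr ⟨hj.1, h4⟩
          have h4 : ((E.filter fun j => m ≤ j).card : ℝ) ≤
              (E.filter fun j => m ≤ j ∧ j < m + l').card +
                (E.filter fun j => m + l' ≤ j).card := by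
            exact_mod_cast (Finset.card_le_card h3).trans (Finset.card_union_le _ _)
          have h5 : ((good.filter fun n => m + l' ≤ n).card : ℝ) ≤
              (good.filter fun n => m ≤ n).card := by
            have h6 : (good.filter fun n => m + l' ≤ n) ⊆ good.filter fun n => m ≤ n := by
              intro j hj
              rw [Finset.mem_filter] at hj ⊢
              exact ⟨hj.1, by omega⟩
            exact_mod_cast Finset.card_le_card h6
          have h6 : ((d - l' : ℕ) : ℝ) = (d : ℝ) - l' := by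
            rw [Nat.cast_sub (by omega)]
          rw [h6] at h2
          have h7 : δ / 2 * ((d : ℝ) - l') = δ / 2 * d - δ / 2 * l' := by ring
          linarith
  have h0 := key l 0 (by omega)
  have h1 : (E.filter fun j => 0 ≤ j) = E := by
    apply Finset.filter_true_of_mem
    intro j _
    exact Nat.zero_le j
  have h2 : (good.filter fun n => 0 ≤ n) = good := by
    apply Finset.filter_true_of_mem
    intro j _
    exact Nat.zero_le j
  rw [h1, h2] at h0
  linarith

open Classical in
/-- Extraction: good times from which `U` is missed with positive density at all scales. -/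
theorem extraction {P : ℕ} {U : Set UnitAddCircle} (hU : IsOpen U) {B : Set UnitAddCircle} {δ : ℝ}
    (hδ : 0 < δ) (hfreq : ∃ᶠ l : ℕ in atTop, δ * (l : ℝ) ≤ missCount P U B l) (G : ℕ → Set ℕ)
    (hG : ∀ k, ∀ η : ℝ, 0 < η → ∃ l₀ : ℕ, ∀ l : ℕ, l₀ ≤ l →
      (((Finset.range l).filter fun n => n ∉ G k).card : ℝ) ≤ η * l) :
    ∃ n : ℕ → ℕ, (∀ k, n k ∈ G k) ∧ ∀ 𝓤 : Ultrafilter ℕ, (𝓤 : Filter ℕ) ≤ atTop → ∀ l : ℕ,
      δ / 2 * (l : ℝ) ≤ missCount P U (limSet 𝓤 fun k => (fun x => P ^ n k • x) '' B) l := by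
  have main : ∀ k : ℕ, ∃ n ∈ G k, ∀ l' : ℕ, l' ≤ k →
      δ / 2 * (l' : ℝ) ≤ missCount P U ((fun x => P ^ n • x) '' B) l' := by
    intro k
    obtain ⟨l₀, hl₀⟩ := hG k (δ / 8) (by positivity)
    obtain ⟨l, hl1, hl2⟩ := frequently_atTop.1 hfreq (l₀ + (⌈8 * (k : ℝ) / δ⌉₊ + 1))
    have hlpos : (0 : ℝ) < l := by
      have : 0 < l := by omega
      exact_mod_cast this
    have hkl : (k : ℝ) ≤ δ / 8 * l := by
      have h1 : 8 * (k : ℝ) / δ ≤ l := by
        have h2 : 8 * (k : ℝ) / δ ≤ ⌈8 * (k : ℝ) / δ⌉₊ := Nat.le_ceil _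
        have h3 : (⌈8 * (k : ℝ) / δ⌉₊ : ℝ) ≤ l := by
          have : ⌈8 * (k : ℝ) / δ⌉₊ ≤ l := by omega
          exact_mod_cast this
        linarith
      rw [div_le_iff₀ hδ] at h1
      linarith
    have hbad := hl₀ l (by omega)
    set E : Finset ℕ := (Finset.range l).filter fun j => ∀ x ∈ B, P ^ j • x ∉ U with hE
    have hEcard : δ * l ≤ (E.card : ℝ) := hl2
    have hrs := rising_sun E l (Finset.filter_subset _ _) hδ.le hEcard
    set good : Finset ℕ := (Finset.range l).filter fun n => ∀ l' : ℕ, n + l' ≤ l →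
      δ / 2 * l' ≤ ((E.filter fun j => n ≤ j ∧ j < n + l').card : ℝ) with hgood
    have hex : ∃ n ∈ good, n ∈ G k ∧ n + k ≤ l := by
      by_contra hcon
      push Not at hcon
      have h1 : good ⊆ ((Finset.range l).filter fun n => n ∉ G k) ∪ Finset.Ico (l - k) l := by
        intro n hn
        rw [Finset.mem_union, Finset.mem_filter, Finset.mem_Ico]
        have hnl : n < l := by
          rw [hgood, Finset.mem_filter] at hn
          exact Finset.mem_range.1 hn.1
        by_cases hnG : n ∈ G k
        · right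
          have := hcon n hn hnG
          omega
        · left
          exact ⟨Finset.mem_range.2 hnl, hnG⟩
      have h2 : (good.card : ℝ) ≤ (((Finset.range l).filter fun n => n ∉ G k).card : ℝ) + k := by
        have h3 := (Finset.card_le_card h1).trans (Finset.card_union_le _ _)
        rw [Nat.card_Ico] at h3
        have h4 : l - (l - k) ≤ k := by omega
        exact_mod_cast h3.trans (Nat.add_le_add_left h4 _)
      have h3 : 0 < δ * l := by positivity
      linarith
    obtain ⟨n, hn, hnG, hnk⟩ := hex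
    refine ⟨n, hnG, ?_⟩
    intro l' hl'
    rw [hgood, Finset.mem_filter] at hn
    have h1 := hn.2 l' (by omega)
    refine h1.trans ?_
    have h2 : (E.filter fun j => n ≤ j ∧ j < n + l').card ≤
        missCount P U ((fun x => P ^ n • x) '' B) l' := by
      unfold missCount
      apply Finset.card_le_card_of_injOn (fun j => j - n)
      · intro j hj
        rw [Finset.mem_coe, Finset.mem_filter, hE, Finset.mem_filter] at hj
        obtain ⟨⟨hjl, hjm⟩, hj1, hj2⟩ := hj
        rw [Finset.mem_coe, Finset.mem_filter, Finset.mem_range]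
        refine ⟨show j - n < l' by omega, ?_⟩
        rintro _ ⟨y, hy, rfl⟩
        have h3 : P ^ (j - n) • P ^ n • y = P ^ j • y := by
          rw [smul_smul, ← pow_add, Nat.sub_add_cancel hj1]
        simp only [h3]
        exact hjm y hy
      · intro i hi j hj hij
        rw [Finset.mem_coe, Finset.mem_filter] at hi hj
        simp only at hij
        omega
    exact_mod_cast h2
  choose n hnG hn using main
  refine ⟨n, hnG, ?_⟩
  intro 𝓤 h𝓤 l
  apply limit_miss (L := fun k => k) hU (tendsto_id.mono_left h𝓤)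
  exact Eventually.of_forall fun k l' hl' => hn k l' hl'

end SST
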