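import Pool.Agent.Subspace.RFTorsion
import Pool.Agent.Subspace.RFLim

/-!
# Density version of Furstenberg's theorem: the chain argument
-/

namespace SST

open Set Filter Pool.Agent.DigitPowers Topology

section step

variable {P Q : ℕ}

/-- Elements of an infinite closed set have arbitrarily small nonzero differences. -/
lemma small_differences {X : Set UnitAddCircle} (hX : IsClosed X) (hinf : X.Infinite) :
    ∀ ε > 0, ∃ x ∈ {d | ∃ x ∈ X, ∃ x' ∈ X, d = x' - x}, x ≠ (0 : UnitAddCircle) ∧ ‖x‖ < ε := by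
  obtain ⟨x0, hx0, hacc⟩ := hinf.exists_accPt_of_subset_isCompact hX.isCompact Subset.rfl
  rw [accPt_iff_frequently] at hacc
  intro ε hε
  obtain ⟨y, ⟨hyne, hyX⟩, hy⟩ := (hacc.and_eventually (Metric.ball_mem_nhds x0 hε)).exists
  refine ⟨y - x0, ⟨x0, hx0, y, hyX, rfl⟩, sub_ne_zero.2 hyne, ?_⟩
  rwa [← dist_eq_norm]

lemma infinite_of_torsionFree (hQ : 2 ≤ Q) {X : Set UnitAddCircle} (hne : X.Nonempty)
    (hXQ : ∀ x ∈ X, Q • x ∈ X) (htor : TorsionFree X) : X.Infinite := by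
  obtain ⟨x, hx⟩ := hne
  apply Set.infinite_of_injective_forall_mem (f := fun n : ℕ => Q ^ n • x)
  · have main : ∀ n m : ℕ, n < m → Q ^ n • x ≠ Q ^ m • x := by
      intro n m hnm h
      have hlt : Q ^ n < Q ^ m := Nat.pow_lt_pow_right (by omega) hnm
      apply htor x hx (Q ^ m - Q ^ n) (by omega)
      exact circle_nsmul_sub_eq_zero hlt.le h
    intro n m h
    rcases lt_trichotomy n m with h3 | h3 | h3
    · exact absurd h (main n m h3)
    · exact h3
    · exact absurd h.symm (main m n h3)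
  · intro n
    exact circle_nsmul_mem hXQ n x hx

open Classical in
/-- For most `n` the differences of `P ^ n X` are `1 / (k + 1)`-dense. -/
lemma dense_times (hP : 2 ≤ P) (hQ : 2 ≤ Q) (hPQ : Nat.Coprime P Q) {X : Set UnitAddCircle}
    (hX : IsClosed X) (hinf : X.Infinite) (hXQ : ∀ x ∈ X, Q • x ∈ X) {r : ℝ} (hr : 0 < r)
    {η : ℝ} (hη : 0 < η) :
    ∃ l₀ : ℕ, ∀ l : ℕ, l₀ ≤ l → (((Finset.range l).filter fun n =>
      n ∉ {n : ℕ | ∀ w : UnitAddCircle, ∃ x ∈ X, ∃ x' ∈ X, ‖P ^ n • (x' - x) - w‖ < r}).card : ℝ)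
        ≤ η * l := by
  set D : Set UnitAddCircle := {d | ∃ x ∈ X, ∃ x' ∈ X, d = x' - x} with hD
  have hDQ : ∀ d ∈ D, Q • d ∈ D := by
    rintro d ⟨x, hx, x', hx', rfl⟩
    exact ⟨Q • x, hXQ x hx, Q • x', hXQ x' hx', nsmul_sub _ _ _⟩
  have hsmall := small_differences hX hinf
  -- a finite net
  obtain ⟨t, -, htfin, htcov⟩ := (isCompact_univ (X := UnitAddCircle)).finite_cover_balls
    (show 0 < r / 2 by positivity)
  set S := htfin.toFinset with hS
  have hSne : 0 < S.card := by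
    rw [Finset.card_pos]
    obtain ⟨c, hc, -⟩ := mem_iUnion₂.1 (htcov (mem_univ (0 : UnitAddCircle)))
    exact ⟨c, by simpa [hS] using hc⟩
  have hSR : (0 : ℝ) < S.card := by exact_mod_cast hSne
  have h1 : ∀ c : UnitAddCircle, ∃ l₀ : ℕ, ∀ l : ℕ, l₀ ≤ l →
      (missCount P (Metric.ball c (r / 2)) D l : ℝ) ≤ η / S.card * l := fun c =>
    miss_of_zero_acc hP hQ hPQ Metric.isOpen_ball ⟨c, Metric.mem_ball_self (by positivity)⟩ hDQ
      hsmall (by positivity)
  choose L hL using h1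
  refine ⟨S.sup L, ?_⟩
  intro l hl
  have hsub : ((Finset.range l).filter fun n =>
      n ∉ {n : ℕ | ∀ w : UnitAddCircle, ∃ x ∈ X, ∃ x' ∈ X, ‖P ^ n • (x' - x) - w‖ < r}) ⊆
      S.biUnion fun c => (Finset.range l).filter fun j =>
        ∀ x ∈ D, P ^ j • x ∉ Metric.ball c (r / 2) := by
    intro n hn
    rw [Finset.mem_filter] at hn
    obtain ⟨hnl, hn⟩ := hn
    rw [mem_ofPred_eq] at hn
    push Not at hn
    obtain ⟨w, hw⟩ := hn
    obtain ⟨c, hc, hwc⟩ := mem_iUnion₂.1 (htcov (mem_univ w))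
    rw [Finset.mem_biUnion]
    refine ⟨c, by simpa [hS] using hc, ?_⟩
    rw [Finset.mem_filter]
    refine ⟨hnl, ?_⟩
    rintro d ⟨x, hx, x', hx', rfl⟩ hball
    have h2 := hw x hx x' hx'
    rw [Metric.mem_ball] at hball hwc
    have h3 : dist (P ^ n • (x' - x)) w < r := by
      calc dist (P ^ n • (x' - x)) w ≤ dist (P ^ n • (x' - x)) c + dist c w := dist_triangle _ _ _
        _ < r / 2 + r / 2 := by rw [dist_comm c w]; linarith
        _ = r := by ring
    rw [dist_eq_norm] at h3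
    linarith
  have h2 : (((Finset.range l).filter fun n =>
      n ∉ {n : ℕ | ∀ w : UnitAddCircle, ∃ x ∈ X, ∃ x' ∈ X, ‖P ^ n • (x' - x) - w‖ < r}).card : ℝ)
      ≤ ∑ c ∈ S, (missCount P (Metric.ball c (r / 2)) D l : ℝ) := by
    have h3 := (Finset.card_le_card hsub).trans Finset.card_biUnion_le
    unfold missCount
    exact_mod_cast h3
  refine h2.trans ?_
  calc ∑ c ∈ S, (missCount P (Metric.ball c (r / 2)) D l : ℝ)
      ≤ ∑ c ∈ S, η / S.card * l :=
        Finset.sum_le_sum fun c hc => hL c l ((Finset.le_sup hc).trans hl)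
    _ = η * l := by
        rw [Finset.sum_const, nsmul_eq_mul]; field_simp

/-- If the set of all differences of a closed `Q`-invariant set is the circle, then either the set
is the circle or all elements are differences of elements of the derived set. -/
lemma derived_differences (hQ : 2 ≤ Q) {X : Set UnitAddCircle} (hX : IsClosed X)
    (hXQ : ∀ x ∈ X, Q • x ∈ X) (hXne : X ≠ univ)
    (hdYQ : ∀ x ∈ derivedSet X, Q • x ∈ derivedSet X)
    (hdiff : ∀ w : UnitAddCircle, ∃ x ∈ X, ∃ x' ∈ X, x' - x = w) (w : UnitAddCircle) :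
    ∃ y ∈ derivedSet X, ∃ y' ∈ derivedSet X, y' - y = w := by
  obtain ⟨V, D, hV, hD, hXVD⟩ := exists_countable_union_perfect_of_isClosed hX
  have hDY : D ⊆ derivedSet X := by
    intro x hx
    have h1 := hD.acc x hx
    rw [mem_derivedSet]
    exact h1.mono (principal_mono.2 (by rw [hXVD]; exact subset_union_right))
  have hYc : IsClosed (derivedSet X) := isClosed_derivedSet X
  set Δ : Set UnitAddCircle :=
    (fun z : UnitAddCircle × UnitAddCircle => z.2 - z.1) '' (derivedSet X ×ˢ derivedSet X) with hΔ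
  have hΔc : IsClosed Δ :=
    ((hYc.isCompact.prod hYc.isCompact).image (continuous_snd.sub continuous_fst)).isClosed
  have hΔQ : ∀ x ∈ Δ, Q • x ∈ Δ := by
    rintro _ ⟨⟨x, y⟩, ⟨hx, hy⟩, rfl⟩
    exact ⟨(Q • x, Q • y), ⟨hdYQ _ hx, hdYQ _ hy⟩, (nsmul_sub _ _ _).symm⟩
  suffices h : Δ = univ by
    have : w ∈ Δ := by rw [h]; exact mem_univ _
    obtain ⟨⟨y, y'⟩, ⟨hy, hy'⟩, h⟩ := this
    exact ⟨y, hy, y', hy', h⟩
  -- Baire
  have hcount : Countable (Option (V × Bool)) := by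
    have : Countable V := hV.to_subtype
    infer_instance
  set f : Option (V × Bool) → Set UnitAddCircle := fun o =>
    match o with
    | none => Δ
    | some (v, true) => (fun x => x + (v : UnitAddCircle)) ⁻¹' X
    | some (v, false) => (fun x => (v : UnitAddCircle) - x) ⁻¹' X with hf
  have hfc : ∀ o, IsClosed (f o) := by
    intro o
    rcases o with _ | ⟨v, _ | _⟩
    · exact hΔc
    · exact hX.preimage (continuous_const.sub continuous_id)
    · exact hX.preimage (continuous_id.add continuous_const)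
  have hcov : ⋃ o, f o = univ := by
    rw [eq_univ_iff_forall]
    intro u
    obtain ⟨x, hx, x', hx', hu⟩ := hdiff u
    rw [mem_iUnion]
    rw [hXVD] at hx hx'
    rcases hx with hx | hx
    · refine ⟨some (⟨x, hx⟩, true), ?_⟩
      show u + x ∈ X
      rw [← hu, sub_add_cancel, hXVD]
      exact hx'
    · rcases hx' with hx' | hx'
      · refine ⟨some (⟨x', hx'⟩, false), ?_⟩
        show x' - u ∈ X
        rw [← hu, sub_sub_cancel, hXVD]
        exact Or.inr hx
      · exact ⟨none, ⟨(x, x'), ⟨hDY hx, hDY hx'⟩, hu⟩⟩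
  obtain ⟨o, ho⟩ := nonempty_interior_of_iUnion_of_closed hfc hcov
  rcases o with _ | ⟨v, _ | _⟩
  · exact eq_univ_of_interior hQ hΔQ ho
  · exfalso
    apply hXne
    apply eq_univ_of_interior hQ hXQ
    obtain ⟨u, hu⟩ := ho
    have h1 : IsOpen ((fun x => (v : UnitAddCircle) - x) ⁻¹' interior
        ((fun x => (v : UnitAddCircle) - x) ⁻¹' X)) :=
      isOpen_interior.preimage (continuous_const.sub continuous_id)
    refine ⟨(v : UnitAddCircle) - u, ?_⟩
    rw [mem_interior]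
    refine ⟨_, ?_, h1, ?_⟩
    · intro x hx
      have h2 := interior_subset hx
      simpa using h2
    · rw [mem_preimage, sub_sub_cancel]
      exact hu
  · exfalso
    apply hXne
    apply eq_univ_of_interior hQ hXQ
    obtain ⟨u, hu⟩ := ho
    have h1 : IsOpen ((fun x => x - (v : UnitAddCircle)) ⁻¹' interior
        ((fun x => x + (v : UnitAddCircle)) ⁻¹' X)) :=
      isOpen_interior.preimage (continuous_id.sub continuous_const)
    refine ⟨u + (v : UnitAddCircle), ?_⟩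
    rw [mem_interior]
    refine ⟨_, ?_, h1, ?_⟩
    · intro x hx
      have h2 := interior_subset hx
      simpa using h2
    · rw [mem_preimage, add_sub_cancel_right]
      exact hu

lemma circle_pow_nsmul_fixed {s : UnitAddCircle} (hs : P • s = s) (n : ℕ) : P ^ n • s = s := by
  induction n with
  | zero => simp
  | succ n ih => rw [pow_succ, mul_comm, mul_nsmul, smul_comm, ih, hs]

/-- One step of the chain argument. -/
lemma stage_step (hP : 2 ≤ P) (hQ : 2 ≤ Q) (hPQ : Nat.Coprime P Q) {U : Set UnitAddCircle}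
    (hU : IsOpen U) (hUne : U.Nonempty) {s : UnitAddCircle} (hPs : P • s = s) (hQs : Q • s = s)
    {δ : ℝ} (hδ : 0 < δ) {W X : Set UnitAddCircle} (hWQ : ∀ x ∈ W, Q • x ∈ W)
    (hW : ∃ᶠ l : ℕ in atTop, δ * (l : ℝ) ≤ missCount P U W l) (hX : IsClosed X)
    (hXne : X.Nonempty) (hXQ : ∀ x ∈ X, Q • x ∈ X) (htor : TorsionFree X) {i : ℕ}
    (hXW : ∀ x ∈ X, ∀ j ≤ i, x + j • s ∈ W) :
    ∃ W' X' : Set UnitAddCircle, (∀ x ∈ W', Q • x ∈ W') ∧
      (∀ l : ℕ, δ / 2 * (l : ℝ) ≤ missCount P U W' l) ∧ IsClosed X' ∧ X'.Nonempty ∧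
      (∀ x ∈ X', Q • x ∈ X') ∧ TorsionFree X' ∧ ∀ x ∈ X', ∀ j ≤ i + 1, x + j • s ∈ W' := by
  classical
  have hinf := infinite_of_torsionFree hQ hXne hXQ htor
  set G : ℕ → Set ℕ := fun k =>
    {n : ℕ | ∀ w : UnitAddCircle, ∃ x ∈ X, ∃ x' ∈ X, ‖P ^ n • (x' - x) - w‖ < 1 / ((k : ℝ) + 1)}
    with hG
  obtain ⟨n, hnG, hext⟩ := extraction hU hδ hW G (fun k η hη =>
    dense_times hP hQ hPQ hX hinf hXQ (by positivity) hη)
  set 𝓤 : Ultrafilter ℕ := hyperfilter ℕ with h𝓤
  have h𝓤le : (𝓤 : Filter ℕ) ≤ atTop := by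
    rw [← Nat.cofinite_eq_atTop]
    exact hyperfilter_le_cofinite
  set W' := limSet 𝓤 (fun k => (fun x => P ^ n k • x) '' W) with hW'
  set X1 := limSet 𝓤 (fun k => (fun x => P ^ n k • x) '' X) with hX1
  have hmiss := hext 𝓤 h𝓤le
  have hinvim : ∀ S : Set UnitAddCircle, (∀ x ∈ S, Q • x ∈ S) → ∀ᶠ k in 𝓤,
      ∀ x ∈ (fun x => P ^ n k • x) '' S, Q • x ∈ (fun x => P ^ n k • x) '' S := by
    intro S hS
    refine Eventually.of_forall fun k => ?_
    rintro _ ⟨x, hx, rfl⟩
    exact ⟨Q • x, hS x hx, smul_comm _ _ _⟩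
  have hW'Q : ∀ x ∈ W', Q • x ∈ W' := limSet_nsmul (hinvim W hWQ)
  have hX1Q : ∀ x ∈ X1, Q • x ∈ X1 := limSet_nsmul (hinvim X hXQ)
  have hX1c : IsClosed X1 := isClosed_limSet _ _
  have hX1ne : X1.Nonempty := limSet_nonempty (Eventually.of_forall fun k => hXne.image _)
  have hX1W' : ∀ x ∈ X1, ∀ j ≤ i, x + j • s ∈ W' := by
    intro x hx j hj
    obtain ⟨a, ha, hax⟩ := exists_seq_of_mem_limSet h𝓤le hx
    refine mem_limSet_of_tendsto (a := fun k => a k + j • s) ?_ (hax.add_const _)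
    filter_upwards [ha] with k hk
    obtain ⟨z, hz, hza⟩ := hk
    refine ⟨z + j • s, hXW z hz j hj, ?_⟩
    show P ^ n k • (z + j • s) = a k + j • s
    rw [nsmul_add, smul_comm (P ^ n k) j s, circle_pow_nsmul_fixed hPs]
    exact congrArg (· + j • s) hza
  have hX1W : X1 ⊆ W' := fun x hx => by simpa using hX1W' x hx 0 (Nat.zero_le _)
  have hW'ne : W' ≠ univ := by
    intro h
    have h1 := hmiss 1
    rw [← hW', h] at h1
    obtain ⟨u, hu⟩ := hUne
    have h2 : missCount P U univ 1 = 0 := by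
      unfold missCount
      rw [Finset.card_eq_zero, Finset.filter_eq_empty_iff]
      intro j hj hcon
      rw [Finset.mem_range] at hj
      obtain rfl : j = 0 := by omega
      exact hcon u (mem_univ _) (by simpa using hu)
    rw [h2] at h1
    push_cast at h1
    linarith
  have hX1univ : X1 ≠ univ := fun h => hW'ne (univ_subset_iff.1 (h ▸ hX1W))
  -- all elements are differences
  have hdiff : ∀ w : UnitAddCircle, ∃ x ∈ X1, ∃ x' ∈ X1, x' - x = w := by
    intro w
    have h1 : ∀ k, ∃ x ∈ X, ∃ x' ∈ X, ‖P ^ n k • (x' - x) - w‖ < 1 / ((k : ℝ) + 1) :=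
      fun k => hnG k w
    choose x hx x' hx' hxx using h1
    obtain ⟨y, hy⟩ := exists_ulim 𝓤 (fun k => P ^ n k • x k)
    obtain ⟨y', hy'⟩ := exists_ulim 𝓤 (fun k => P ^ n k • x' k)
    have hyX : y ∈ X1 := mem_limSet_of_tendsto
      (Eventually.of_forall fun k => mem_image_of_mem (fun x => P ^ n k • x) (hx k)) hy
    have hyX' : y' ∈ X1 := mem_limSet_of_tendsto
      (Eventually.of_forall fun k => mem_image_of_mem (fun x => P ^ n k • x) (hx' k)) hy'
    refine ⟨y, hyX, y', hyX', ?_⟩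
    have h2 : Tendsto (fun k => P ^ n k • (x' k - x k)) 𝓤 (𝓝 (y' - y)) := by
      have := hy'.sub hy
      refine this.congr fun k => ?_
      rw [nsmul_sub]
    have h3 : Tendsto (fun k => P ^ n k • (x' k - x k)) 𝓤 (𝓝 w) := by
      rw [tendsto_iff_norm_sub_tendsto_zero]
      refine squeeze_zero (fun k => norm_nonneg _) (fun k => (hxx k).le) ?_
      exact tendsto_one_div_add_atTop_nhds_zero_nat.mono_left h𝓤le
    exact tendsto_nhds_unique h2 h3
  -- the derived set
  have hmissX1 : ∃ᶠ l : ℕ in atTop, δ / 2 * (l : ℝ) ≤ missCount P U X1 l := by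
    apply Eventually.frequently
    refine Eventually.of_forall fun l => (hmiss l).trans ?_
    exact_mod_cast missCount_mono hX1W l
  obtain ⟨hYc, hYX, hYQ, hYtor, -⟩ :=
    derived_props hP hQ hPQ hU hUne hX1c hX1Q (by positivity : 0 < δ / 2) hmissX1
  set Y := derivedSet X1 with hY
  obtain ⟨y, hy, y', hy', hyy⟩ := derived_differences hQ hX1c hX1Q hX1univ hYQ hdiff s
  refine ⟨W', {x | x ∈ Y ∧ x + s ∈ Y}, hW'Q, hmiss, ?_, ?_, ?_, ?_, ?_⟩
  · exact hYc.inter (hYc.preimage (continuous_id.add continuous_const))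
  · refine ⟨y, hy, ?_⟩
    have : y + s = y' := by rw [← hyy]; abel
    rw [this]; exact hy'
  · rintro x ⟨h1, h2⟩
    refine ⟨hYQ x h1, ?_⟩
    have := hYQ _ h2
    rwa [nsmul_add, hQs] at this
  · rintro x ⟨h1, -⟩
    exact hYtor x h1
  · rintro x ⟨h1, h2⟩ j hj
    rcases Nat.lt_or_ge i j with h3 | h3
    · obtain rfl : j = i + 1 := by omega
      have h4 := hX1W' _ (hYX h2) i le_rfl
      have e : x + (i + 1) • s = x + s + i • s := by rw [succ_nsmul]; abel
      rw [e]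
      exact h4
    · exact hX1W' _ (hYX h1) j h3

/-- Iteration of the steps. -/
lemma stage_chain (hP : 2 ≤ P) (hQ : 2 ≤ Q) (hPQ : Nat.Coprime P Q) {U : Set UnitAddCircle}
    (hU : IsOpen U) (hUne : U.Nonempty) {s : UnitAddCircle} (hPs : P • s = s) (hQs : Q • s = s)
    {δ : ℝ} (hδ : 0 < δ) {Z : Set UnitAddCircle} (hZc : IsClosed Z) (hZne : Z.Nonempty)
    (hZQ : ∀ x ∈ Z, Q • x ∈ Z) (htor : TorsionFree Z)
    (hZ : ∃ᶠ l : ℕ in atTop, δ * (l : ℝ) ≤ missCount P U Z l) (i : ℕ) :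
    ∃ δ' : ℝ, 0 < δ' ∧ ∃ W X : Set UnitAddCircle, (∀ x ∈ W, Q • x ∈ W) ∧
      (∀ l : ℕ, δ' * (l : ℝ) ≤ missCount P U W l) ∧ IsClosed X ∧ X.Nonempty ∧
      (∀ x ∈ X, Q • x ∈ X) ∧ TorsionFree X ∧ ∀ x ∈ X, ∀ j ≤ i + 1, x + j • s ∈ W := by
  induction i with
  | zero =>
    obtain ⟨W', X', h1, h2, h3, h4, h5, h6, h7⟩ := stage_step hP hQ hPQ hU hUne hPs hQs hδ hZQ hZ
      hZc hZne hZQ htor (i := 0) (by
        intro x hx j hj
        obtain rfl : j = 0 := by omega
        simpa using hx)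
    exact ⟨δ / 2, by positivity, W', X', h1, h2, h3, h4, h5, h6, h7⟩
  | succ i ih =>
    obtain ⟨δ', hδ', W, X, h1, h2, h3, h4, h5, h6, h7⟩ := ih
    obtain ⟨W', X', g1, g2, g3, g4, g5, g6, g7⟩ := stage_step hP hQ hPQ hU hUne hPs hQs hδ' h1
      (Eventually.of_forall h2).frequently h3 h4 h5 h6 h7
    exact ⟨δ' / 2, by positivity, W', X', g1, g2, g3, g4, g5, g6, g7⟩

end step

/-- Passing to a power of the first multiplier. -/
lemma freq_miss_pow {p a : ℕ} (ha : 0 < a) {U : Set UnitAddCircle} {δ : ℝ} (hδ : 0 < δ)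
    {Z : Set UnitAddCircle} (hZ : ∃ᶠ l : ℕ in atTop, δ * (l : ℝ) ≤ missCount p U Z l) :
    ∃ v : ℕ, ∃ᶠ l : ℕ in atTop,
      δ / 2 * (l : ℝ) ≤ missCount (p ^ a) U ((fun x => p ^ v • x) '' Z) l := by
  classical
  by_contra hcon
  push Not at hcon
  have h1 : ∀ v, ∃ l₀ : ℕ, ∀ l : ℕ, l₀ ≤ l →
      (missCount (p ^ a) U ((fun x => p ^ v • x) '' Z) l : ℝ) < δ / 2 * l := by
    intro v
    exact eventually_atTop.1 (hcon v)
  choose L hL using h1
  set L₀ := (Finset.range a).sup L with hL₀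
  obtain ⟨l, hl1, hl2⟩ := frequently_atTop.1 hZ (a * (L₀ + 1))
  set l' := l / a + 1 with hl'
  have hl'L : L₀ ≤ l' := by
    have : L₀ + 1 ≤ l / a := by
      rw [Nat.le_div_iff_mul_le ha, mul_comm]
      exact hl1
    omega
  have hsub : ((Finset.range l).filter fun j => ∀ x ∈ Z, p ^ j • x ∉ U) ⊆
      (Finset.range a).biUnion fun v => ((Finset.range l').filter fun j =>
        ∀ x ∈ (fun x => p ^ v • x) '' Z, (p ^ a) ^ j • x ∉ U).image fun j => a * j + v := by
    intro j hj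
    rw [Finset.mem_filter, Finset.mem_range] at hj
    rw [Finset.mem_biUnion]
    refine ⟨j % a, Finset.mem_range.2 (Nat.mod_lt _ ha), ?_⟩
    rw [Finset.mem_image]
    refine ⟨j / a, ?_, Nat.div_add_mod j a⟩
    rw [Finset.mem_filter, Finset.mem_range]
    refine ⟨?_, ?_⟩
    · have : j / a ≤ l / a := Nat.div_le_div_right hj.1.le
      omega
    · rintro _ ⟨x, hx, rfl⟩
      have h2 := hj.2 x hx
      have e : (p ^ a) ^ (j / a) • p ^ (j % a) • x = p ^ j • x := by
        rw [← mul_nsmul', ← pow_mul, ← pow_add, Nat.div_add_mod]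
      rw [e]
      exact h2
  have h2 : (missCount p U Z l : ℝ) ≤ ∑ v ∈ Finset.range a,
      (missCount (p ^ a) U ((fun x => p ^ v • x) '' Z) l' : ℝ) := by
    have h3 : missCount p U Z l ≤ ∑ v ∈ Finset.range a,
        missCount (p ^ a) U ((fun x => p ^ v • x) '' Z) l' := by
      unfold missCount
      refine (Finset.card_le_card hsub).trans (Finset.card_biUnion_le.trans ?_)
      exact Finset.sum_le_sum fun v _ => Finset.card_image_le
    exact_mod_cast h3
  have h3 : ∑ v ∈ Finset.range a, (missCount (p ^ a) U ((fun x => p ^ v • x) '' Z) l' : ℝ)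
      < ∑ v ∈ Finset.range a, δ / 2 * (l' : ℝ) := by
    apply Finset.sum_lt_sum_of_nonempty (Finset.nonempty_range_iff.2 ha.ne')
    intro v hv
    exact hL v l' ((Finset.le_sup hv).trans hl'L)
  rw [Finset.sum_const, Finset.card_range, nsmul_eq_mul] at h3
  have h4 : (a : ℝ) * l' ≤ 2 * l := by
    have h5 : a * (l / a) ≤ l := Nat.mul_div_le l a
    have h6 : a ≤ l := by
      refine le_trans ?_ hl1
      nlinarith
    have : a * l' ≤ 2 * l := by
      rw [hl', mul_add, mul_one]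
      omega
    exact_mod_cast this
  have h5 : (a : ℝ) * (δ / 2 * l') ≤ δ * l := by
    calc (a : ℝ) * (δ / 2 * l') = δ / 2 * (a * l') := by ring
      _ ≤ δ / 2 * (2 * l) := by gcongr
      _ = δ * l := by ring
  linarith

lemma circle_mod_nsmul {t P : ℕ} (ht : 0 < t) (hP : P % t = 1 % t) :
    P • (((1 / (t : ℝ) : ℝ)) : UnitAddCircle) = (((1 / (t : ℝ) : ℝ)) : UnitAddCircle) := by
  have htR : (0 : ℝ) < t := by exact_mod_cast ht
  rw [circle_nsmul_coe]
  obtain ⟨A, hA⟩ : ∃ A : ℕ, A = P / t := ⟨_, rfl⟩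
  obtain ⟨B, hB⟩ : ∃ B : ℕ, B = 1 / t := ⟨_, rfl⟩
  have h1 := Nat.div_add_mod P t
  have h2 := Nat.div_add_mod 1 t
  rw [← hA, hP] at h1
  rw [← hB] at h2
  have h3 : (P : ℝ) = t * (A : ℝ) + ((1 % t : ℕ) : ℝ) := by exact_mod_cast h1.symm
  have h4 : (1 : ℝ) = t * (B : ℝ) + ((1 % t : ℕ) : ℝ) := by exact_mod_cast h2.symm
  have e : (P : ℝ) * (1 / (t : ℝ)) = 1 / (t : ℝ) + (((A : ℤ) - (B : ℤ) : ℤ) : ℝ) := by
    push_cast
    rw [h3]
    field_simp
    linarith
  rw [e, AddCircle.coe_add, circle_coe_int, add_zero]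

theorem not_freq_miss_of_torsionFree {p q : ℕ} (hp : 2 ≤ p) (hq : 2 ≤ q) (hpq : Nat.Coprime p q)
    {U : Set UnitAddCircle} (hU : IsOpen U) (hUne : U.Nonempty) {δ : ℝ} (hδ : 0 < δ)
    {Z : Set UnitAddCircle} (hZ : IsClosed Z) (hne : Z.Nonempty) (hZq : ∀ x ∈ Z, q • x ∈ Z)
    (htor : TorsionFree Z) : ¬ ∃ᶠ l : ℕ in atTop, δ * (l : ℝ) ≤ missCount p U Z l := by
  intro hmiss
  obtain ⟨w, hw⟩ := hUne
  obtain ⟨r, hr, hball⟩ := Metric.isOpen_iff.1 hU w hw
  obtain ⟨k, hk⟩ := exists_nat_gt (1 / r)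
  set t := p * q * (k + 1) + 1 with ht
  have htp : Nat.Coprime p t := by
    rw [ht, mul_assoc, Nat.coprime_mul_left_add_right]
    exact Nat.coprime_one_right p
  have htq : Nat.Coprime q t := by
    rw [ht]
    have : p * q * (k + 1) + 1 = q * (p * (k + 1)) + 1 := by ring
    rw [this, Nat.coprime_mul_left_add_right]
    exact Nat.coprime_one_right q
  have ht0 : 0 < t := by omega
  have htR : (0 : ℝ) < t := by positivity
  have htk : (k : ℝ) ≤ t := by
    have : k ≤ t := by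
      rw [ht]
      have : 1 ≤ p * q := Nat.mul_pos (by omega) (by omega)
      nlinarith
    exact_mod_cast this
  set a := Nat.totient t with ha
  have ha0 : 0 < a := Nat.totient_pos.2 ht0
  have hPs := circle_mod_nsmul ht0 (Nat.ModEq.pow_totient htp)
  have hQs := circle_mod_nsmul ht0 (Nat.ModEq.pow_totient htq)
  rw [← ha] at hPs hQs
  set s : UnitAddCircle := (((1 / (t : ℝ) : ℝ)) : UnitAddCircle) with hs
  have hP2 : 2 ≤ p ^ a := le_trans hp (Nat.le_self_pow (by omega) p)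
  have hQ2 : 2 ≤ q ^ a := le_trans hq (Nat.le_self_pow (by omega) q)
  have hPQ : Nat.Coprime (p ^ a) (q ^ a) := hpq.pow _ _
  obtain ⟨v, hv⟩ := freq_miss_pow (p := p) ha0 hδ hmiss
  set Z' : Set UnitAddCircle := (fun x => p ^ v • x) '' Z with hZ'
  have hZ'c : IsClosed Z' := (hZ.isCompact.image (continuous_nsmul _)).isClosed
  have hZ'Q : ∀ x ∈ Z', q ^ a • x ∈ Z' := by
    rintro _ ⟨x, hx, rfl⟩
    exact ⟨q ^ a • x, circle_nsmul_mem hZq a x hx, smul_comm _ _ _⟩
  have hZ'tor : TorsionFree Z' := by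
    rintro _ ⟨x, hx, rfl⟩ n hn h
    apply htor x hx (n * p ^ v) (by positivity)
    rw [mul_nsmul']
    exact h
  obtain ⟨δ', hδ', W, X, -, h2, -, h4, -, -, h7⟩ := stage_chain hP2 hQ2 hPQ hU ⟨w, hw⟩ hPs hQs
    (by positivity : 0 < δ / 2) hZ'c (hne.image _) hZ'Q hZ'tor hv t
  obtain ⟨x, hx⟩ := h4
  -- `W` does not meet `U`
  have hWU : ∀ z ∈ W, z ∉ U := by
    classical
    have h8 := h2 1
    by_contra hcon
    push Not at hcon
    obtain ⟨z, hz, hzU⟩ := hcon
    have h9 : missCount (p ^ a) U W 1 = 0 := by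
      unfold missCount
      rw [Finset.card_eq_zero, Finset.filter_eq_empty_iff]
      intro j hj hcon
      rw [Finset.mem_range] at hj
      obtain rfl : j = 0 := by omega
      exact hcon z hz (by simpa using hzU)
    rw [h9] at h8
    push_cast at h8
    linarith
  obtain ⟨u, hu, hu0, hu1⟩ := circle_lift_Ico (w - x)
  set j := ⌊u * t⌋₊ with hj
  have hut : 0 ≤ u * t := by positivity
  have hjt : j ≤ t := by
    have : (j : ℝ) ≤ t := (Nat.floor_le hut).trans (by nlinarith)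
    exact_mod_cast this
  apply hWU _ (h7 x hx j (by omega))
  apply hball
  rw [Metric.mem_ball, dist_eq_norm]
  have e : x + j • s - w = (((j : ℝ) / t - u : ℝ) : UnitAddCircle) := by
    rw [hs, circle_nsmul_coe, AddCircle.coe_sub, hu]
    have : (j : ℝ) * (1 / t) = (j : ℝ) / t := by ring
    rw [this]
    abel
  rw [e]
  refine lt_of_le_of_lt (circle_norm_le _) ?_
  have h3 : (j : ℝ) ≤ u * t := Nat.floor_le hut
  have h4 : u * t < j + 1 := Nat.lt_floor_add_one _
  have h5 : (j : ℝ) / t ≤ u := by rw [div_le_iff₀ htR]; exact h3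
  rw [abs_of_nonpos (by linarith)]
  have h6 : u < (j : ℝ) / t + 1 / t := by
    rw [← add_div, lt_div_iff₀ htR]; exact h4
  have h7 : 1 / (t : ℝ) < r := by
    rw [div_lt_iff₀ htR]
    rw [div_lt_iff₀ hr] at hk
    nlinarith
  linarith

/-- **Density version of Furstenberg's theorem.** If `Z` is closed, `q Z ⊆ Z` and `p ^ j Z` misses a
nonempty open set for a set of `j` of positive upper density, then `Z` is a finite set of torsion
points. -/
theorem finite_of_miss {p q : ℕ} (hp : 2 ≤ p) (hq : 2 ≤ q) (hpq : Nat.Coprime p q)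
    {U : Set UnitAddCircle} (hU : IsOpen U) (hUne : U.Nonempty) {δ : ℝ} (hδ : 0 < δ)
    {Z : Set UnitAddCircle} (hZ : IsClosed Z) (hZq : ∀ x ∈ Z, q • x ∈ Z)
    (hmiss : ∃ᶠ l : ℕ in atTop, δ * (l : ℝ) ≤ missCount p U Z l) :
    Z.Finite ∧ ∀ x ∈ Z, ∃ n : ℕ, 0 < n ∧ n • x = 0 := by
  obtain ⟨h1, h2, h3, h4, h5⟩ := derived_props hp hq hpq hU hUne hZ hZq hδ hmiss
  have hfin : Z.Finite := by
    by_contra hinf
    refine not_freq_miss_of_torsionFree hp hq hpq hU hUne hδ h1 (h5 hinf) h3 h4 ?_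
    refine hmiss.mono fun l hl => hl.trans ?_
    exact_mod_cast missCount_mono h2 l
  refine ⟨hfin, ?_⟩
  intro x hx
  by_contra hcon
  push Not at hcon
  have hinf : Z.Infinite := by
    apply Set.infinite_of_injective_forall_mem (f := fun n : ℕ => q ^ n • x)
    · have main : ∀ n m : ℕ, n < m → q ^ n • x ≠ q ^ m • x := by
        intro n m hnm h
        have hlt : q ^ n < q ^ m := Nat.pow_lt_pow_right (by omega) hnm
        apply hcon (q ^ m - q ^ n) (by omega)
        exact circle_nsmul_sub_eq_zero hlt.le h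
      intro n m h
      rcases lt_trichotomy n m with h3 | h3 | h3
      · exact absurd h (main n m h3)
      · exact h3
      · exact absurd h.symm (main m n h3)
    · intro n
      exact circle_nsmul_mem hZq n x hx
  exact hinf hfin

end SST
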