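import Mathlib
import Pool.Agent.DigitPowers.Furstenberg

/-!
# Density version of Furstenberg's theorem: definitions
-/

namespace SST

open Set Filter Pool.Agent.DigitPowers

open Classical in
/-- The number of `j < l` such that `P ^ j A` does not meet `U`. -/
noncomputable def missCount (P : ℕ) (U A : Set UnitAddCircle) (l : ℕ) : ℕ :=
  ((Finset.range l).filter fun j => ∀ x ∈ A, P ^ j • x ∉ U).card

/-- Ultrafilter limit of a sequence of subsets of the circle. -/
def limSet (𝓤 : Ultrafilter ℕ) (A : ℕ → Set UnitAddCircle) : Set UnitAddCircle :=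
  {x | ∀ ε > 0, ∀ᶠ k in 𝓤, ∃ a ∈ A k, dist a x < ε}

/-- `Z` contains no torsion point. -/
def TorsionFree (Z : Set UnitAddCircle) : Prop := ∀ x ∈ Z, ∀ n : ℕ, 0 < n → n • x ≠ 0

lemma missCount_mono {P : ℕ} {U A B : Set UnitAddCircle} (h : A ⊆ B) (l : ℕ) :
    missCount P U B l ≤ missCount P U A l := by
  classical
  unfold missCount
  apply Finset.card_le_card
  intro j hj
  rw [Finset.mem_filter] at hj ⊢
  exact ⟨hj.1, fun x hx => hj.2 x (h hx)⟩

lemma missCount_le (P : ℕ) (U A : Set UnitAddCircle) (l : ℕ) : missCount P U A l ≤ l := by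
  classical
  unfold missCount
  exact (Finset.card_filter_le _ _).trans (by rw [Finset.card_range])

end SST
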