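import Pool.Agent.Subspace.RFBenford

/-!
# Density version of Furstenberg's theorem: accumulation at a torsion point
-/

namespace SST

open Set Filter Pool.Agent.DigitPowers Topology

/-- Multiplication by `n` is injective near `0`. -/
lemma nsmul_ne_zero_of_small {n : ℕ} (hn : 0 < n) {y : UnitAddCircle} (hy : y ≠ 0)
    (hs : ‖y‖ < 1 / n) : n • y ≠ 0 := by
  intro h0
  obtain ⟨a, ha, hab⟩ := circle_lift y
  have hnR : (0 : ℝ) < n := by exact_mod_cast hn
  rw [← ha, circle_nsmul_coe, AddCircle.coe_eq_zero_iff] at h0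
  obtain ⟨m, hm⟩ := h0
  have hm' : (m : ℝ) = n * a := by simpa using hm
  have h1 : |(m : ℝ)| < 1 := by
    rw [hm', abs_mul, Nat.abs_cast, hab]
    rwa [lt_div_iff₀ hnR, mul_comm] at hs
  have h2 : m = 0 := by
    have : |m| < 1 := by exact_mod_cast h1
    exact Int.abs_lt_one_iff.1 this
  rw [h2] at hm'
  have h3 : a = 0 := by
    have : (n : ℝ) * a = 0 := by rw [← hm']; simp
    exact (mul_eq_zero.1 this).resolve_left hnR.ne'
  apply hy
  rw [← ha, h3]
  rfl

lemma circle_norm_nsmul_le (n : ℕ) (y : UnitAddCircle) : ‖n • y‖ ≤ n * ‖y‖ := norm_nsmul_le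

/-- The orbit of a torsion point is eventually periodic. -/
lemma exists_period (P : ℕ) {d : ℕ} (hd : 0 < d) {r : UnitAddCircle} (hr : d • r = 0) :
    ∃ s u : ℕ, 0 < u ∧ P ^ (s + u) • r = P ^ s • r := by
  have h1 : ∀ n : ℕ, P ^ n • r = (P ^ n % d) • r := by
    intro n
    conv_lhs => rw [← Nat.div_add_mod (P ^ n) d, add_nsmul, mul_nsmul, hr, smul_zero, zero_add]
  obtain ⟨i, j, hij, h⟩ := Finite.exists_ne_map_eq_of_infinite
    (fun n : ℕ => (⟨P ^ n % d, Nat.mod_lt _ hd⟩ : Fin d))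
  have h2 : P ^ i % d = P ^ j % d := congrArg Fin.val h
  rcases lt_or_gt_of_ne hij with h3 | h3
  · refine ⟨i, j - i, by omega, ?_⟩
    rw [Nat.add_sub_cancel' h3.le, h1 j, h1 i, h2]
  · refine ⟨j, i - j, by omega, ?_⟩
    rw [Nat.add_sub_cancel' h3.le, h1 j, h1 i, h2]

lemma period_mul {P s u : ℕ} {r : UnitAddCircle} (h : P ^ (s + u) • r = P ^ s • r) (m s' : ℕ)
    (hs : s ≤ s') : P ^ (s' + u * m) • r = P ^ s' • r := by
  obtain ⟨t, rfl⟩ := Nat.exists_eq_add_of_le hs
  induction m with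
  | zero => simp
  | succ m ih =>
    have e1 : P ^ (s + t + u * (m + 1)) = P ^ (t + u * m) * P ^ (s + u) := by
      rw [← pow_add]; congr 1; ring
    have e2 : P ^ (s + t + u * m) = P ^ (t + u * m) * P ^ s := by
      rw [← pow_add]; congr 1; ring
    rw [e1, mul_comm, mul_nsmul, h, ← mul_nsmul, mul_comm, ← e2, ih]

theorem miss_of_torsion_acc {P Q : ℕ} (hP : 2 ≤ P) (hQ : 2 ≤ Q) (hPQ : Nat.Coprime P Q)
    {V : Set UnitAddCircle} (hV : IsOpen V) (hVne : V.Nonempty) {A : Set UnitAddCircle}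
    (hA : ∀ x ∈ A, Q • x ∈ A) {d : ℕ} (hd : 0 < d) {r : UnitAddCircle} (hr : d • r = 0)
    (h0 : ∀ ε > 0, ∃ x ∈ A, x ≠ r ∧ ‖x - r‖ < ε) {η : ℝ} (hη : 0 < η) :
    ∃ l₀ : ℕ, ∀ l : ℕ, l₀ ≤ l → (missCount P V A l : ℝ) ≤ η * l := by
  classical
  obtain ⟨s1, u1, hu1, hper1⟩ := exists_period P hd hr
  obtain ⟨s2, u2, hu2, hper2⟩ := exists_period Q hd hr
  set s := max s1 s2 with hs
  set u := u1 * u2 with hu
  have hu0 : 0 < u := Nat.mul_pos hu1 hu2
  have hPu : P ^ (s + u) • r = P ^ s • r := period_mul hper1 u2 s (le_max_left _ _)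
  have hQu : Q ^ (s + u) • r = Q ^ s • r := by
    have := period_mul hper2 u1 s (le_max_right _ _)
    rwa [mul_comm u2 u1] at this
  set r' : UnitAddCircle := (P ^ s * Q ^ s) • r with hr'
  have hPr : P ^ u • r' = r' := by
    have e : P ^ u • r' = Q ^ s • (P ^ (s + u) • r) := by
      rw [hr', ← mul_nsmul, ← mul_nsmul]; congr 1; ring
    rw [e, hPu, ← mul_nsmul, hr']
  have hQr : Q ^ u • r' = r' := by
    have e : Q ^ u • r' = P ^ s • (Q ^ (s + u) • r) := by
      rw [hr', ← mul_nsmul, ← mul_nsmul]; congr 1; ring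
    rw [e, hQu, ← mul_nsmul, hr', mul_comm]
  have hPr' : ∀ i, (P ^ u) ^ i • r' = r' := by
    intro i
    induction i with
    | zero => simp
    | succ i ih => rw [pow_succ, mul_comm, mul_nsmul, hPr, ih]
  -- the sets accumulating at zero
  set B : ℕ → Set UnitAddCircle := fun v =>
    {b | ∃ x ∈ A, b = P ^ v • ((P ^ s * Q ^ s) • x - r')} with hB
  have hBQ : ∀ v, ∀ b ∈ B v, Q ^ u • b ∈ B v := by
    rintro v _ ⟨x, hx, rfl⟩
    refine ⟨Q ^ u • x, circle_nsmul_mem hA u x hx, ?_⟩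
    rw [smul_comm (Q ^ u) (P ^ v), nsmul_sub, hQr, smul_comm (Q ^ u) (P ^ s * Q ^ s)]
  have hB0 : ∀ v, ∀ ε > 0, ∃ x ∈ B v, x ≠ 0 ∧ ‖x‖ < ε := by
    intro v ε hε
    set n : ℕ := P ^ v * (P ^ s * Q ^ s) with hn
    have hn0 : 0 < n := by positivity
    have hnR : (0 : ℝ) < n := by exact_mod_cast hn0
    obtain ⟨x, hxA, hxr, hx⟩ := h0 (min (ε / n) (1 / n)) (by positivity)
    have e : P ^ v • ((P ^ s * Q ^ s) • x - r') = n • (x - r) := by
      rw [hr', ← nsmul_sub, ← mul_nsmul, hn, mul_comm (P ^ s * Q ^ s)]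
    refine ⟨_, ⟨x, hxA, rfl⟩, ?_, ?_⟩
    · rw [e]
      exact nsmul_ne_zero_of_small hn0 (sub_ne_zero.2 hxr) (hx.trans_le (min_le_right _ _))
    · rw [e]
      refine (circle_norm_nsmul_le n _).trans_lt ?_
      have h1 := hx.trans_le (min_le_left _ _)
      rw [lt_div_iff₀ hnR] at h1
      linarith
  -- the translated open sets
  set W : ℕ → Set UnitAddCircle := fun v => {y | y + P ^ v • r' ∈ V} with hW
  have hWo : ∀ v, IsOpen (W v) := fun v => hV.preimage (continuous_id.add continuous_const)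
  have hWne : ∀ v, (W v).Nonempty := by
    intro v
    obtain ⟨y, hy⟩ := hVne
    exact ⟨y - P ^ v • r', by simpa [hW] using hy⟩
  have hPu2 : 2 ≤ P ^ u := hP.trans (Nat.le_self_pow hu0.ne' P)
  have hQu2 : 2 ≤ Q ^ u := hQ.trans (Nat.le_self_pow hu0.ne' Q)
  have key : ∀ v, ∃ l₀ : ℕ, ∀ l : ℕ, l₀ ≤ l →
      (missCount (P ^ u) (W v) (B v) l : ℝ) ≤ η / 2 * l := fun v =>
    miss_of_zero_acc hPu2 hQu2 (Nat.Coprime.pow u u hPQ) (hWo v) (hWne v) (hBQ v) (hB0 v)
      (by positivity)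
  choose L hL using key
  set L₀ := (Finset.range u).sup L with hL₀
  obtain ⟨l₁, hl₁⟩ := exists_nat_ge ((2 * s + η * u) / η)
  refine ⟨max (u * L₀) l₁, ?_⟩
  intro l hl
  have hl1 : u * L₀ ≤ l := (le_max_left _ _).trans hl
  have hl2 : ((2 * s + η * u) / η) ≤ l := hl₁.trans (by exact_mod_cast (le_max_right _ _).trans hl)
  set m := l / u + 1 with hm
  have hmL : L₀ ≤ m := by
    have : L₀ ≤ l / u := (Nat.le_div_iff_mul_le hu0).2 (by rw [mul_comm]; exact hl1)
    omega
  have hsub : ((Finset.range l).filter fun j => ∀ x ∈ A, P ^ j • x ∉ V) ⊆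
      Finset.range s ∪ (Finset.range u).biUnion fun v =>
        ((Finset.range m).filter fun i => ∀ b ∈ B v, (P ^ u) ^ i • b ∉ W v).image
          fun i => u * i + v + s := by
    intro j hj
    rw [Finset.mem_filter, Finset.mem_range] at hj
    rw [Finset.mem_union, Finset.mem_range, Finset.mem_biUnion]
    rcases Nat.lt_or_ge j s with hjs | hjs
    · exact Or.inl hjs
    right
    have hdm := Nat.div_add_mod (j - s) u
    refine ⟨(j - s) % u, Finset.mem_range.2 (Nat.mod_lt _ hu0), ?_⟩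
    rw [Finset.mem_image]
    refine ⟨(j - s) / u, ?_, by omega⟩
    rw [Finset.mem_filter, Finset.mem_range]
    refine ⟨?_, ?_⟩
    · have : (j - s) / u ≤ l / u := Nat.div_le_div_right (by omega)
      omega
    · rintro b ⟨x, hx, rfl⟩ hcon
      set i := (j - s) / u with hi
      set v := (j - s) % u with hv
      apply hj.2 (Q ^ s • x) (circle_nsmul_mem hA s x hx)
      have e1 : (P ^ u) ^ i • P ^ v • ((P ^ s * Q ^ s) • x - r') + P ^ v • r' =
          P ^ j • Q ^ s • x := by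
        rw [smul_comm ((P ^ u) ^ i) (P ^ v), nsmul_sub, hPr' i, nsmul_sub, sub_add_cancel,
          ← mul_nsmul, ← mul_nsmul, ← mul_nsmul]
        congr 1
        have e2 : P ^ j = (P ^ u) ^ i * P ^ v * P ^ s := by
          rw [← pow_mul, ← pow_add, ← pow_add]
          congr 1
          omega
        rw [e2]
        ring
      rw [← e1]
      exact hcon
  have hcard : missCount P V A l ≤ s + ∑ v ∈ Finset.range u, missCount (P ^ u) (W v) (B v) m := by
    unfold missCount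
    refine (Finset.card_le_card hsub).trans ((Finset.card_union_le _ _).trans ?_)
    rw [Finset.card_range]
    exact Nat.add_le_add_left (Finset.card_biUnion_le.trans
      (Finset.sum_le_sum fun v _ => Finset.card_image_le)) _
  have h1 : (missCount P V A l : ℝ) ≤ s + ∑ v ∈ Finset.range u, (η / 2 * (m : ℝ)) := by
    refine (Nat.cast_le.2 hcard).trans ?_
    push_cast
    apply add_le_add_right
    apply Finset.sum_le_sum
    intro v hv
    exact hL v m ((Finset.le_sup hv).trans hmL)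
  refine h1.trans ?_
  rw [Finset.sum_const, Finset.card_range, nsmul_eq_mul]
  have h2 : (u : ℝ) * m ≤ l + u := by
    have : u * m ≤ l + u := by
      rw [hm, Nat.mul_add, mul_one]
      exact Nat.add_le_add_right (Nat.mul_div_le l u) u
    exact_mod_cast this
  have h3 : 2 * (s : ℝ) + η * u ≤ η * l := by
    rw [div_le_iff₀ hη] at hl2
    linarith
  have h4 : (u : ℝ) * (η / 2 * m) ≤ η / 2 * (l + u) := by
    calc (u : ℝ) * (η / 2 * m) = η / 2 * (u * m) := by ring
      _ ≤ _ := by gcongr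
  linarith

lemma mem_derived_iff {A : Set UnitAddCircle} {x : UnitAddCircle} :
    x ∈ derivedSet A ↔ ∀ ε > 0, ∃ y ∈ A, y ≠ x ∧ ‖y - x‖ < ε := by
  rw [mem_derivedSet, accPt_iff_nhds]
  constructor
  · intro h ε hε
    obtain ⟨y, ⟨hy1, hy2⟩, hy3⟩ := h _ (Metric.ball_mem_nhds x hε)
    refine ⟨y, hy2, hy3, ?_⟩
    rw [← dist_eq_norm]
    exact hy1
  · intro h U hU
    obtain ⟨ε, hε, hball⟩ := Metric.mem_nhds_iff.1 hU
    obtain ⟨y, hy1, hy2, hy3⟩ := h ε hε
    refine ⟨y, ⟨hball ?_, hy1⟩, hy2⟩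
    rw [Metric.mem_ball, dist_eq_norm]
    exact hy3

/-- The derived set of an infinite closed invariant set which often misses `V` is again such a set
and contains no torsion points. -/
theorem derived_props {P Q : ℕ} (hP : 2 ≤ P) (hQ : 2 ≤ Q) (hPQ : Nat.Coprime P Q)
    {V : Set UnitAddCircle} (hV : IsOpen V) (hVne : V.Nonempty) {A : Set UnitAddCircle}
    (hAc : IsClosed A) (hA : ∀ x ∈ A, Q • x ∈ A) {δ : ℝ} (hδ : 0 < δ)
    (hmiss : ∃ᶠ l : ℕ in atTop, δ * (l : ℝ) ≤ missCount P V A l) :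
    IsClosed (derivedSet A) ∧ derivedSet A ⊆ A ∧ (∀ x ∈ derivedSet A, Q • x ∈ derivedSet A) ∧
      TorsionFree (derivedSet A) ∧ (A.Infinite → (derivedSet A).Nonempty) := by
  refine ⟨isClosed_derivedSet A, (isClosed_iff_derivedSet_subset A).1 hAc, ?_, ?_, ?_⟩
  · intro x hx
    rw [mem_derived_iff] at hx ⊢
    intro ε hε
    have hQ0 : 0 < Q := by omega
    have hQR : (0 : ℝ) < Q := by exact_mod_cast hQ0
    obtain ⟨y, hyA, hyx, hy⟩ := hx (min (ε / Q) (1 / Q)) (by positivity)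
    refine ⟨Q • y, hA y hyA, ?_, ?_⟩
    · rw [← sub_ne_zero, ← nsmul_sub]
      exact nsmul_ne_zero_of_small hQ0 (sub_ne_zero.2 hyx) (hy.trans_le (min_le_right _ _))
    · rw [← nsmul_sub]
      refine (circle_norm_nsmul_le Q _).trans_lt ?_
      have h1 := hy.trans_le (min_le_left _ _)
      rw [lt_div_iff₀ hQR] at h1
      linarith
  · intro x hx n hn hnx
    obtain ⟨l₀, hl₀⟩ := miss_of_torsion_acc hP hQ hPQ hV hVne hA hn hnx (mem_derived_iff.1 hx)
      (η := δ / 2) (by positivity)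
    obtain ⟨l, hl1, hl2⟩ := frequently_atTop.1 hmiss (max l₀ 1)
    have h1 := hl₀ l ((le_max_left _ _).trans hl1)
    have h2 : (1 : ℝ) ≤ l := by exact_mod_cast (le_max_right _ _).trans hl1
    nlinarith
  · intro hinf
    obtain ⟨x, -, hx⟩ := hinf.exists_accPt_of_subset_isCompact hAc.isCompact Subset.rfl
    exact ⟨x, hx⟩

end SST
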