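import Pool.Agent.Subspace.RFChain
import Pool.Agent.DigitPowers.DigitHit

/-!
# Density version of Furstenberg's theorem: uniform version
-/

namespace SST

open Set Filter Pool.Agent.DigitPowers Topology

lemma circle_norm_nsmul_eq {q : ℕ} (hq : 0 < q) {x : UnitAddCircle}
    (hx : ‖x‖ < 1 / (2 * (q : ℝ))) : ‖q • x‖ = q * ‖x‖ := by
  obtain ⟨a, rfl, ha⟩ := circle_lift x
  have hqR : (0 : ℝ) < q := by exact_mod_cast hq
  rw [circle_nsmul_coe, ← ha]
  rw [← ha, lt_div_iff₀ (by positivity)] at hx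
  have h1 : |(q : ℝ) * a| = q * |a| := by rw [abs_mul, abs_of_pos hqR]
  have h2 : |(q : ℝ) * a| < 1 / 2 := by
    rw [h1]
    linarith
  have h3 : round ((q : ℝ) * a) = 0 := by
    rw [round_eq_zero_iff]
    rw [abs_lt] at h2
    exact ⟨by linarith [h2.1], by linarith [h2.2]⟩
  rw [UnitAddCircle.norm_eq, h3, Int.cast_zero, sub_zero, h1]

lemma exists_norm_large {q : ℕ} (hq : 2 ≤ q) {w : UnitAddCircle} (hw : w ≠ 0) :
    ∃ i : ℕ, 1 / (2 * (q : ℝ)) ≤ ‖q ^ i • w‖ := by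
  by_contra hcon
  push Not at hcon
  have h1 : ∀ i : ℕ, ‖q ^ i • w‖ = (q : ℝ) ^ i * ‖w‖ := by
    intro i
    induction i with
    | zero => simp
    | succ i ih =>
      have e : q ^ (i + 1) • w = q • q ^ i • w := by
        rw [smul_smul, pow_succ, mul_comm]
      rw [e, circle_norm_nsmul_eq (by omega) (hcon i), ih, pow_succ]
      ring
  have hwpos : 0 < ‖w‖ := norm_pos_iff.2 hw
  have hq1 : (1 : ℝ) < q := by exact_mod_cast (by omega : 1 < q)
  obtain ⟨i, hi⟩ := pow_unbounded_of_one_lt (1 / ‖w‖) hq1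
  rw [div_lt_iff₀ hwpos] at hi
  have h2 := hcon i
  rw [h1 i] at h2
  have h3 : 1 / (2 * (q : ℝ)) ≤ 1 := by
    rw [div_le_one (by positivity)]
    linarith
  linarith

theorem uniform_pre {p q : ℕ} (hp : 2 ≤ p) (hq : 2 ≤ q) (hpq : Nat.Coprime p q)
    {U : Set UnitAddCircle} (hU : IsOpen U) (hUne : U.Nonempty) {δ : ℝ} (hδ : 0 < δ) :
    ∃ D K₀ : ℕ, 0 < D ∧ ∀ K : ℕ, K₀ ≤ K → ∀ y : UnitAddCircle, (D * p ^ K) • y ≠ 0 →
      (missCount p U {x | ∃ i : ℕ, x = q ^ i • y} K : ℝ) ≤ δ * K := by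
  classical
  by_contra hcon
  push Not at hcon
  have h1 : ∀ k : ℕ, ∃ K : ℕ, k ≤ K ∧ ∃ y : UnitAddCircle, ((k + 1).factorial * p ^ K) • y ≠ 0 ∧
      δ * K < (missCount p U {x | ∃ i : ℕ, x = q ^ i • y} K : ℝ) :=
    fun k => hcon (k + 1).factorial k (Nat.factorial_pos _)
  choose K hK y hy hmiss using h1
  -- good times
  have h2 : ∀ k : ℕ, ∃ n : ℕ, n + ⌊δ * K k / 4⌋₊ ≤ K k ∧ ∀ l : ℕ, l ≤ ⌊δ * K k / 4⌋₊ →
      δ / 2 * (l : ℝ) ≤ missCount p U {x | ∃ i : ℕ, x = q ^ i • p ^ n • y k} l := by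
    intro k
    have hKpos : 0 < K k := by
      rcases Nat.eq_zero_or_pos (K k) with h | h
      · have h3 := hmiss k
        have h4 : missCount p U {x | ∃ i : ℕ, x = q ^ i • y k} (K k) ≤ K k := missCount_le _ _ _ _
        rw [h] at h3 h4
        have h5 : missCount p U {x | ∃ i : ℕ, x = q ^ i • y k} 0 = 0 := by omega
        rw [h5] at h3
        simp at h3
      · exact h
    have hKR : (0 : ℝ) < K k := by exact_mod_cast hKpos
    set E : Finset ℕ := (Finset.range (K k)).filter fun j =>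
      ∀ x ∈ {x | ∃ i : ℕ, x = q ^ i • y k}, p ^ j • x ∉ U with hE
    have hEcard : δ * K k ≤ (E.card : ℝ) := (hmiss k).le
    have hrs := rising_sun E (K k) (Finset.filter_subset _ _) hδ.le hEcard
    set good : Finset ℕ := (Finset.range (K k)).filter fun n => ∀ l' : ℕ, n + l' ≤ K k →
      δ / 2 * l' ≤ ((E.filter fun j => n ≤ j ∧ j < n + l').card : ℝ) with hgood
    have hL : (⌊δ * K k / 4⌋₊ : ℝ) ≤ δ * K k / 4 := Nat.floor_le (by positivity)
    have hex : ∃ n ∈ good, n + ⌊δ * K k / 4⌋₊ ≤ K k := by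
      by_contra hcon2
      push Not at hcon2
      have h3 : good ⊆ Finset.Ico (K k - ⌊δ * K k / 4⌋₊) (K k) := by
        intro n hn
        rw [Finset.mem_Ico]
        have hnl : n < K k := by
          rw [hgood, Finset.mem_filter] at hn
          exact Finset.mem_range.1 hn.1
        have := hcon2 n hn
        omega
      have h4 : (good.card : ℝ) ≤ (⌊δ * K k / 4⌋₊ : ℝ) := by
        have h5 := Finset.card_le_card h3
        rw [Nat.card_Ico] at h5
        have h6 : K k - (K k - ⌊δ * K k / 4⌋₊) ≤ ⌊δ * K k / 4⌋₊ := by omega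
        exact_mod_cast h5.trans h6
      have h5 : 0 < δ * K k := by positivity
      linarith
    obtain ⟨n, hn, hnk⟩ := hex
    refine ⟨n, hnk, ?_⟩
    intro l hl
    rw [hgood, Finset.mem_filter] at hn
    have h3 := hn.2 l (by omega)
    refine h3.trans ?_
    have h4 : (E.filter fun j => n ≤ j ∧ j < n + l).card ≤
        missCount p U {x | ∃ i : ℕ, x = q ^ i • p ^ n • y k} l := by
      unfold missCount
      apply Finset.card_le_card_of_injOn (fun j => j - n)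
      · intro j hj
        rw [Finset.mem_coe, Finset.mem_filter, hE, Finset.mem_filter] at hj
        obtain ⟨⟨hjl, hjm⟩, hj1, hj2⟩ := hj
        rw [Finset.mem_coe, Finset.mem_filter, Finset.mem_range]
        refine ⟨show j - n < l by omega, ?_⟩
        rintro _ ⟨i, rfl⟩
        have h5 : p ^ (j - n) • q ^ i • p ^ n • y k = p ^ j • q ^ i • y k := by
          rw [smul_smul, smul_smul, smul_smul]
          congr 1
          have h6 : p ^ j = p ^ (j - n) * p ^ n := by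
            rw [← pow_add, Nat.sub_add_cancel hj1]
          rw [h6]
          ring
        simp only [h5]
        exact hjm _ ⟨i, rfl⟩
      · intro i hi j hj hij
        rw [Finset.mem_coe, Finset.mem_filter] at hi hj
        simp only at hij
        omega
    exact_mod_cast h4
  choose n hnK hn using h2
  -- the limit set
  set 𝓤 : Ultrafilter ℕ := hyperfilter ℕ with h𝓤
  have h𝓤le : (𝓤 : Filter ℕ) ≤ atTop := Nat.hyperfilter_le_atTop
  set A : ℕ → Set UnitAddCircle := fun k => {x | ∃ i : ℕ, x = q ^ i • p ^ n k • y k} with hA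
  set Z : Set UnitAddCircle := limSet 𝓤 A with hZ
  have hLtop : Tendsto (fun k => ⌊δ * K k / 4⌋₊) 𝓤 atTop := by
    apply Tendsto.mono_left _ h𝓤le
    apply tendsto_nat_floor_atTop.comp
    have h3 : Tendsto (fun k : ℕ => δ / 4 * (k : ℝ)) atTop atTop :=
      tendsto_natCast_atTop_atTop.const_mul_atTop (by positivity)
    refine tendsto_atTop_mono ?_ h3
    intro k
    have h4 : (k : ℝ) ≤ K k := by exact_mod_cast hK k
    have h5 : δ / 4 * (k : ℝ) ≤ δ / 4 * K k := mul_le_mul_of_nonneg_left h4 (by positivity)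
    calc δ / 4 * (k : ℝ) ≤ δ / 4 * K k := h5
      _ = δ * K k / 4 := by ring
  have hZmiss : ∀ l : ℕ, δ / 2 * (l : ℝ) ≤ missCount p U Z l :=
    limit_miss hU hLtop (Eventually.of_forall fun k l hl => hn k l hl)
  have hZq : ∀ x ∈ Z, q • x ∈ Z := by
    apply limSet_nsmul
    refine Eventually.of_forall fun k => ?_
    rintro _ ⟨i, rfl⟩
    refine ⟨i + 1, ?_⟩
    rw [smul_smul, pow_succ, mul_comm]
  obtain ⟨hfin, htor⟩ := finite_of_miss hp hq hpq hU hUne (show 0 < δ / 2 by positivity)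
    (isClosed_limSet 𝓤 A) hZq (Frequently.of_forall fun l => hZmiss l)
  obtain ⟨D₀, hD₀, hkill⟩ := exists_killer hfin htor
  have h3 : ∀ k : ℕ, ∃ i : ℕ, D₀ ≤ k → 1 / (2 * (q : ℝ)) ≤ ‖D₀ • q ^ i • p ^ n k • y k‖ := by
    intro k
    by_cases hk : D₀ ≤ k
    · have hne : D₀ • p ^ n k • y k ≠ 0 := by
        intro h0
        apply hy k
        obtain ⟨e, he⟩ : D₀ ∣ (k + 1).factorial := Nat.dvd_factorial hD₀ (by omega)
        have hnk : n k ≤ K k := by
          have := hnK k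
          omega
        have h4 : (k + 1).factorial * p ^ K k = (e * p ^ (K k - n k)) * (D₀ * p ^ n k) := by
          have h5 : p ^ K k = p ^ (K k - n k) * p ^ n k := by
            rw [← pow_add, Nat.sub_add_cancel hnk]
          rw [he, h5]
          ring
        have h5 : (D₀ * p ^ n k) • y k = 0 := by
          rw [← smul_smul]
          exact h0
        rw [h4, ← smul_smul, h5, nsmul_zero]
      obtain ⟨i, hi⟩ := exists_norm_large hq hne
      refine ⟨i, fun _ => ?_⟩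
      have h4 : D₀ • q ^ i • p ^ n k • y k = q ^ i • D₀ • p ^ n k • y k := by
        rw [smul_smul, smul_smul, smul_smul, smul_smul]
        congr 1
        ring
      rw [h4]
      exact hi
    · exact ⟨0, fun h => absurd h hk⟩
  choose i hi using h3
  obtain ⟨z, hz⟩ := exists_ulim 𝓤 fun k => q ^ i k • p ^ n k • y k
  have hzA : ∀ᶠ k in (𝓤 : Filter ℕ), q ^ i k • p ^ n k • y k ∈ A k :=
    Eventually.of_forall fun k => ⟨i k, rfl⟩
  have hzZ : z ∈ Z := mem_limSet_of_tendsto hzA hz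
  have h4 : Tendsto (fun k => ‖D₀ • q ^ i k • p ^ n k • y k‖) 𝓤 (𝓝 ‖D₀ • z‖) :=
    ((continuous_norm.comp (continuous_nsmul D₀)).tendsto z).comp hz
  have h5 : 1 / (2 * (q : ℝ)) ≤ ‖D₀ • z‖ := by
    apply ge_of_tendsto h4
    filter_upwards [h𝓤le (eventually_ge_atTop D₀)] with k hk
    exact hi k hk
  rw [hkill z hzZ, norm_zero] at h5
  have h6 : (0 : ℝ) < 1 / (2 * (q : ℝ)) := by
    have : (0 : ℝ) < q := by exact_mod_cast (by omega : 0 < q)
    positivity
  linarith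

theorem uniform_hit {p q : ℕ} (hp : 2 ≤ p) (hq : 2 ≤ q) (hpq : Nat.Coprime p q)
    {U : Set UnitAddCircle} (hU : IsOpen U) (hUne : U.Nonempty) {δ c : ℝ} (hδ : 0 < δ)
    (hc : 0 < c) :
    ∃ D K₀ : ℕ, 0 < D ∧ ∀ K : ℕ, K₀ ≤ K → ∃ C : ℕ, ∀ y : UnitAddCircle, c ≤ ‖(D * p ^ K) • y‖ →
      (missCount p U {x | ∃ i : ℕ, i ≤ C ∧ x = q ^ i • y} K : ℝ) ≤ δ * K := by
  classical
  obtain ⟨D, K₀, hD, hpre⟩ := uniform_pre hp hq hpq hU hUne hδ
  refine ⟨D, K₀, hD, ?_⟩
  intro K hK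
  by_contra hcon
  push Not at hcon
  choose y hy hmiss using hcon
  set 𝓤 : Ultrafilter ℕ := hyperfilter ℕ with h𝓤
  have h𝓤le : (𝓤 : Filter ℕ) ≤ atTop := Nat.hyperfilter_le_atTop
  obtain ⟨z, hz⟩ := exists_ulim 𝓤 y
  have h1 : c ≤ ‖(D * p ^ K) • z‖ := by
    have h2 : Tendsto (fun k => ‖(D * p ^ K) • y k‖) 𝓤 (𝓝 ‖(D * p ^ K) • z‖) :=
      ((continuous_norm.comp (continuous_nsmul (D * p ^ K))).tendsto z).comp hz
    exact ge_of_tendsto h2 (Eventually.of_forall hy)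
  have h2 : (D * p ^ K) • z ≠ 0 := by
    intro h0
    rw [h0, norm_zero] at h1
    linarith
  have h3 := hpre K hK z h2
  have h4 : ∀ j : ℕ, ∀ᶠ k in (𝓤 : Filter ℕ),
      (∀ x ∈ {x | ∃ i : ℕ, i ≤ k ∧ x = q ^ i • y k}, p ^ j • x ∉ U) →
        ∀ x ∈ {x | ∃ i : ℕ, x = q ^ i • z}, p ^ j • x ∉ U := by
    intro j
    by_cases hj : ∀ x ∈ {x | ∃ i : ℕ, x = q ^ i • z}, p ^ j • x ∉ U
    · exact Eventually.of_forall fun k _ => hj
    · push Not at hj
      obtain ⟨_, ⟨i, rfl⟩, hxU⟩ := hj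
      have hcont : Continuous fun w : UnitAddCircle => p ^ j • q ^ i • w :=
        (continuous_nsmul (p ^ j)).comp (continuous_nsmul (q ^ i))
      have h5 : ∀ᶠ k in (𝓤 : Filter ℕ), p ^ j • q ^ i • y k ∈ U :=
        ((hcont.tendsto z).comp hz) (hU.mem_nhds hxU)
      filter_upwards [h5, h𝓤le (eventually_ge_atTop i)] with k hk hk2 hk3
      exact absurd hk (hk3 _ ⟨i, hk2, rfl⟩)
  have h5 : ∀ᶠ k in (𝓤 : Filter ℕ), ∀ j ∈ Finset.range K,
      (∀ x ∈ {x | ∃ i : ℕ, i ≤ k ∧ x = q ^ i • y k}, p ^ j • x ∉ U) →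
        ∀ x ∈ {x | ∃ i : ℕ, x = q ^ i • z}, p ^ j • x ∉ U := by
    rw [Filter.eventually_all_finset]
    intro j _
    exact h4 j
  obtain ⟨k, hk⟩ := h5.exists
  have h6 : missCount p U {x | ∃ i : ℕ, i ≤ k ∧ x = q ^ i • y k} K ≤
      missCount p U {x | ∃ i : ℕ, x = q ^ i • z} K := by
    unfold missCount
    apply Finset.card_le_card
    intro j hj
    rw [Finset.mem_filter] at hj ⊢
    exact ⟨hj.1, hk j hj.1 hj.2⟩
  have h7 : (missCount p U {x | ∃ i : ℕ, i ≤ k ∧ x = q ^ i • y k} K : ℝ) ≤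
      missCount p U {x | ∃ i : ℕ, x = q ^ i • z} K := by exact_mod_cast h6
  have h8 := hmiss k
  linarith

end SST
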