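import Mathlib

/-!
# Density version of Furstenberg's theorem: visits of an irrational rotation to a short arc
-/

namespace SST

open Set Filter

/-- Visits of the rotation by an irrational number to a short arc. -/
theorem visits_le {θ : ℝ} (hθ : Irrational θ) {lam : ℝ} (h0 : 0 < lam) (h1 : lam ≤ 1 / 4) :
    ∃ R : ℕ, ∀ (c : ℝ) (l : ℕ),
      (((Finset.range l).filter fun n : ℕ => Int.fract (c + n * θ) < lam).card : ℝ)
        ≤ 4 * lam * l + R := by
  classical
  -- the number of disjoint translates
  set N : ℕ := ⌊1 / (2 * lam)⌋₊ with hN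
  have hNle : (N : ℝ) ≤ 1 / (2 * lam) := Nat.floor_le (by positivity)
  have hNge : 1 / (4 * lam) ≤ (N : ℝ) := by
    have h2 : 1 / (2 * lam) < (N : ℝ) + 1 := Nat.lt_floor_add_one _
    have h3 : (1 : ℝ) ≤ 1 / (4 * lam) := by
      rw [le_div_iff₀ (by positivity)]; linarith
    have h4 : 1 / (2 * lam) = 2 * (1 / (4 * lam)) := by field_simp; norm_num
    linarith
  have hNpos : (0 : ℝ) < N := lt_of_lt_of_le (by positivity) hNge
  have hN2 : 2 * lam * N ≤ 1 := by
    rw [le_div_iff₀ (by positivity)] at hNle
    linarith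
  -- integers `z s`
  have hd : Dense (AddSubgroup.closure {θ, (1 : ℝ)} : Set ℝ) :=
    dense_addSubgroupClosure_pair_iff.2 (by simpa using hθ)
  have hz : ∀ s : ℕ, ∃ z m : ℤ, |(z : ℝ) * θ + m - (s : ℝ) / N| < lam / 2 := by
    intro s
    obtain ⟨x, hx1, hx2⟩ := hd.exists_mem_open
      (isOpen_Ioo (a := (s : ℝ) / N - lam / 2) (b := (s : ℝ) / N + lam / 2))
      ⟨(s : ℝ) / N, by constructor <;> linarith⟩
    rw [SetLike.mem_coe, AddSubgroup.mem_closure_pair] at hx1
    obtain ⟨z, m, hzm⟩ := hx1
    rw [zsmul_eq_mul, zsmul_eq_mul, mul_one] at hzm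
    refine ⟨z, m, ?_⟩
    rw [hzm, abs_lt]
    constructor <;> linarith [hx2.1, hx2.2]
  choose z m hzm using hz
  -- common shift
  set Z : ℕ := (Finset.range N).sup fun s => (z s).natAbs with hZ
  have hZs : ∀ s ∈ Finset.range N, 0 ≤ z s + Z ∧ z s + Z ≤ 2 * Z := by
    intro s hs
    have h2 : (z s).natAbs ≤ Z := Finset.le_sup (f := fun s => (z s).natAbs) hs
    omega
  set i : ℕ → ℕ := fun s => (z s + Z).toNat with hi
  have hi_cast : ∀ s ∈ Finset.range N, ((i s : ℕ) : ℝ) = (z s : ℝ) + Z := by
    intro s hs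
    have h2 := (hZs s hs).1
    have h3 : ((i s : ℕ) : ℤ) = z s + Z := by
      simp only [hi]; exact Int.toNat_of_nonneg h2
    exact_mod_cast congrArg (Int.cast : ℤ → ℝ) h3
  have hi_le : ∀ s ∈ Finset.range N, i s ≤ 2 * Z := by
    intro s hs
    have h2 := hZs s hs
    simp only [hi]
    omega
  refine ⟨2 * Z, fun c l => ?_⟩
  set V : Finset ℕ := (Finset.range l).filter fun n : ℕ => Int.fract (c + n * θ) < lam with hV
  set W : ℕ → Finset ℕ := fun s =>
    (Finset.range l).filter fun n : ℕ => Int.fract (c + ((n + i s : ℕ) : ℝ) * θ) < lam with hW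
  have hVW : ∀ s ∈ Finset.range N, V.card ≤ (W s).card + 2 * Z := by
    intro s hs
    have h2 : V ⊆ (W s).image (fun n => n + i s) ∪ Finset.range (i s) := by
      intro n hn
      rw [hV, Finset.mem_filter, Finset.mem_range] at hn
      rw [Finset.mem_union, Finset.mem_range]
      rcases Nat.lt_or_ge n (i s) with h | h
      · exact Or.inr h
      · left
        rw [Finset.mem_image]
        refine ⟨n - i s, ?_, by omega⟩
        rw [hW, Finset.mem_filter, Finset.mem_range]
        refine ⟨by omega, ?_⟩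
        rw [Nat.sub_add_cancel h]
        exact hn.2
    calc V.card ≤ ((W s).image (fun n => n + i s) ∪ Finset.range (i s)).card :=
          Finset.card_le_card h2
      _ ≤ ((W s).image (fun n => n + i s)).card + (Finset.range (i s)).card :=
          Finset.card_union_le _ _
      _ ≤ (W s).card + 2 * Z := by
          refine add_le_add Finset.card_image_le ?_
          rw [Finset.card_range]
          exact hi_le s hs
  have hdisj : ∀ s ∈ Finset.range N, ∀ s' ∈ Finset.range N, s ≠ s' → Disjoint (W s) (W s') := by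
    intro s hs s' hs' hne
    rw [Finset.disjoint_left]
    intro n hn hn'
    rw [hW, Finset.mem_filter] at hn hn'
    have ha := hn.2
    have hb := hn'.2
    set A : ℝ := c + ((n + i s : ℕ) : ℝ) * θ with hA
    set B : ℝ := c + ((n + i s' : ℕ) : ℝ) * θ with hB
    have hA1 := Int.self_sub_floor A
    have hB1 := Int.self_sub_floor B
    have hA0 := Int.fract_nonneg A
    have hB0 := Int.fract_nonneg B
    have hAB : A - B = (z s : ℝ) * θ - z s' * θ := by
      rw [hA, hB]
      push_cast
      rw [hi_cast s hs, hi_cast s' hs']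
      ring
    have h2 := abs_lt.1 (hzm s)
    have h3 := abs_lt.1 (hzm s')
    -- the integer
    set k : ℤ := ⌊A⌋ - ⌊B⌋ + m s - m s' with hk
    have hkR : (k : ℝ) = (⌊A⌋ : ℝ) - ⌊B⌋ + m s - m s' := by rw [hk]; push_cast; ring
    have h4 : |((s : ℝ) / N - (s' : ℝ) / N) - k| < 2 * lam := by
      rw [hkR, abs_lt]
      constructor <;> nlinarith
    have h5 : |((s : ℝ) - s') - k * N| < 1 := by
      have h6 : ((s : ℝ) - s') - k * N = (((s : ℝ) / N - (s' : ℝ) / N) - k) * N := by
        field_simp
      rw [h6, abs_mul, abs_of_pos hNpos]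
      calc |((s : ℝ) / N - (s' : ℝ) / N) - k| * N < 2 * lam * N :=
            mul_lt_mul_of_pos_right h4 hNpos
        _ ≤ 1 := hN2
    have h6 : |((s : ℤ) - s') - k * N| < 1 := by exact_mod_cast h5
    have h7 : (s : ℤ) - s' = k * N := by
      rw [abs_lt] at h6
      omega
    rw [Finset.mem_range] at hs hs'
    have h8 : |k * (N : ℤ)| < N := by
      rw [← h7, abs_lt]
      constructor <;> omega
    have h9 : k = 0 := by
      rw [abs_mul, Nat.abs_cast] at h8
      by_contra hk0
      have h10 : 1 ≤ |k| := Int.one_le_abs hk0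
      have h11 : (N : ℤ) ≤ |k| * N := by nlinarith
      omega
    rw [h9, zero_mul] at h7
    apply hne
    omega
  have hsum : ∑ s ∈ Finset.range N, (W s).card ≤ l := by
    rw [← Finset.card_biUnion hdisj]
    calc ((Finset.range N).biUnion W).card ≤ (Finset.range l).card := by
          refine Finset.card_le_card ?_
          intro n hn
          rw [Finset.mem_biUnion] at hn
          obtain ⟨s, -, hn⟩ := hn
          exact (Finset.mem_filter.1 hn).1
      _ = l := Finset.card_range l
  have hmain : N * V.card ≤ l + N * (2 * Z) := by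
    calc N * V.card = ∑ _s ∈ Finset.range N, V.card := by
          rw [Finset.sum_const, Finset.card_range, smul_eq_mul]
      _ ≤ ∑ s ∈ Finset.range N, ((W s).card + 2 * Z) := Finset.sum_le_sum hVW
      _ = ∑ s ∈ Finset.range N, (W s).card + N * (2 * Z) := by
          rw [Finset.sum_add_distrib, Finset.sum_const, Finset.card_range, smul_eq_mul]
      _ ≤ l + N * (2 * Z) := by omega
  have hmainR : (N : ℝ) * V.card ≤ l + N * (2 * Z : ℕ) := by exact_mod_cast hmain
  have hinv : (1 : ℝ) ≤ 4 * lam * N := by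
    rw [div_le_iff₀ (by positivity)] at hNge
    linarith
  have hl : (0 : ℝ) ≤ l := Nat.cast_nonneg l
  have h2 : (N : ℝ) * V.card ≤ N * (4 * lam * l + (2 * Z : ℕ)) := by nlinarith
  exact le_of_mul_le_mul_left h2 hNpos

end SST
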