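import Pool.Agent.Subspace.Grid

/-!
# Auxiliary statements for the reduction to polynomials in `m` variables

`redΦ` splits off the variables `(h, α h)`; `red_block` chooses the grid in one block.
-/

namespace SST

open MvPolynomial

/-! ### Splitting off one variable of each block -/

section split

variable {κ : Type} [DecidableEq κ] {m : ℕ} {R S : Type*} [CommRing R] [CommRing S]

/-- The variables which are not split off. -/
abbrev redτ (α : Fin m → κ) : Type := {x : Fin m × κ // x.2 ≠ α x.1}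

/-- Consider `P` as a polynomial in the variables `(h, i)`, `i ≠ α h`. -/
noncomputable def redΦ (α : Fin m → κ) :
    MvPolynomial (Fin m × κ) R →+* MvPolynomial (redτ α) (MvPolynomial (Fin m) R) :=
  eval₂Hom (C.comp C) (fun x => if h : x.2 ≠ α x.1 then X ⟨x, h⟩ else C (X x.1))

/-- The exponent vector with given parts. -/
noncomputable def redJoin [Fintype κ] (α : Fin m → κ) (K : redτ α →₀ ℕ) (I : Fin m →₀ ℕ) :
    Fin m × κ →₀ ℕ :=
  Finsupp.equivFunOnFinite.symm (fun x => if h : x.2 ≠ α x.1 then K ⟨x, h⟩ else I x.1)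

variable [Fintype κ] {α : Fin m → κ}

lemma redJoin_pos {K : redτ α →₀ ℕ} {I : Fin m →₀ ℕ} {x : Fin m × κ} (h : x.2 ≠ α x.1) :
    redJoin α K I x = K ⟨x, h⟩ := by
  simp [redJoin, h]

lemma redJoin_neg {K : redτ α →₀ ℕ} {I : Fin m →₀ ℕ} {x : Fin m × κ} (h : ¬ x.2 ≠ α x.1) :
    redJoin α K I x = I x.1 := by
  simp only [redJoin, Finsupp.equivFunOnFinite_symm_apply_apply]
  rw [dif_neg h]

lemma redJoin_eq_zero_iff {K : redτ α →₀ ℕ} {I : Fin m →₀ ℕ} :
    redJoin α K I = 0 ↔ K = 0 ∧ I = 0 := by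
  constructor
  · intro h
    constructor
    · ext ⟨x, hx⟩
      rw [← redJoin_pos (I := I) hx, h]; rfl
    · ext i
      have hx : ¬ ((i, α i) : Fin m × κ).2 ≠ α ((i, α i) : Fin m × κ).1 := by simp
      have := redJoin_neg (K := K) (I := I) hx
      rw [h] at this
      exact this.symm
  · rintro ⟨rfl, rfl⟩
    ext x
    by_cases hx : x.2 ≠ α x.1
    · rw [redJoin_pos hx]; rfl
    · rw [redJoin_neg hx]; rfl

lemma coeff_redΦ (F : MvPolynomial (Fin m × κ) R) (K : redτ α →₀ ℕ) (I : Fin m →₀ ℕ) :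
    coeff I (coeff K (redΦ α F)) = coeff (redJoin α K I) F := by
  induction F using MvPolynomial.induction_on generalizing K I with
  | C a =>
    simp only [redΦ, eval₂Hom_C, RingHom.comp_apply, coeff_C]
    by_cases h : redJoin α K I = 0
    · obtain ⟨rfl, rfl⟩ := redJoin_eq_zero_iff.1 h
      rw [if_pos rfl, if_pos h.symm, coeff_C, if_pos rfl]
    · rw [if_neg (show ¬ (0 = redJoin α K I) from fun h' => h h'.symm)]
      by_cases hK : K = 0
      · subst hK
        rw [if_pos rfl, coeff_C, if_neg]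
        rintro rfl
        exact h (redJoin_eq_zero_iff.2 ⟨rfl, rfl⟩)
      · rw [if_neg (show ¬ (0 = K) from fun h' => hK h'.symm), coeff_zero]
  | add P Q hP hQ => simp only [map_add, coeff_add, hP, hQ]
  | mul_X P x hP =>
    rw [map_mul, coeff_mul_X']
    have hΦ : redΦ α (X x : MvPolynomial (Fin m × κ) R) =
        if h : x.2 ≠ α x.1 then X ⟨x, h⟩ else C (X x.1) := by
      simp [redΦ]
    rw [hΦ]
    by_cases hx : x.2 ≠ α x.1
    · rw [dif_pos hx, coeff_mul_X']
      have hs : x ∈ (redJoin α K I).support ↔ (⟨x, hx⟩ : redτ α) ∈ K.support := by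
        rw [Finsupp.mem_support_iff, Finsupp.mem_support_iff, redJoin_pos hx]
      by_cases hm : (⟨x, hx⟩ : redτ α) ∈ K.support
      · rw [if_pos hm, if_pos (hs.2 hm), hP]
        congr 1
        ext y
        rw [Finsupp.tsub_apply]
        by_cases hy : y.2 ≠ α y.1
        · rw [redJoin_pos hy, redJoin_pos hy, Finsupp.tsub_apply]
          congr 1
          rw [Finsupp.single_apply, Finsupp.single_apply]
          congr 1
          simp [Subtype.ext_iff]
        · rw [redJoin_neg hy, redJoin_neg hy, Finsupp.single_eq_of_ne, Nat.sub_zero]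
          rintro rfl
          exact hy hx
      · rw [if_neg hm, if_neg (fun h' => hm (hs.1 h')), coeff_zero]
    · rw [dif_neg hx, mul_comm, coeff_C_mul, mul_comm, coeff_mul_X']
      have hs : x ∈ (redJoin α K I).support ↔ x.1 ∈ I.support := by
        rw [Finsupp.mem_support_iff, Finsupp.mem_support_iff, redJoin_neg hx]
      by_cases hm : x.1 ∈ I.support
      · rw [if_pos hm, if_pos (hs.2 hm), hP]
        congr 1
        ext y
        rw [Finsupp.tsub_apply]
        by_cases hy : y.2 ≠ α y.1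
        · rw [redJoin_pos hy, redJoin_pos hy, Finsupp.single_eq_of_ne, Nat.sub_zero]
          rintro rfl
          exact hx hy
        · rw [redJoin_neg hy, redJoin_neg hy, Finsupp.tsub_apply]
          congr 1
          rw [Finsupp.single_apply, Finsupp.single_apply]
          congr 1
          rw [not_not] at hx hy
          apply propext
          constructor
          · intro h
            exact Prod.ext h (by rw [hx, hy, h])
          · rintro rfl; rfl
      · rw [if_neg hm, if_neg (fun h' => hm (hs.1 h'))]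

lemma exists_redJoin (s : Fin m × κ →₀ ℕ) : ∃ K I, redJoin α K I = s := by
  refine ⟨Finsupp.equivFunOnFinite.symm (fun x => s x.1),
    Finsupp.equivFunOnFinite.symm (fun h => s (h, α h)), ?_⟩
  ext x
  by_cases hx : x.2 ≠ α x.1
  · rw [redJoin_pos hx]; simp
  · rw [redJoin_neg hx]
    rw [not_not] at hx
    simp only [Finsupp.equivFunOnFinite_symm_apply_apply]
    rw [← hx]

lemma redΦ_ne_zero {F : MvPolynomial (Fin m × κ) R} (hF : F ≠ 0) : redΦ α F ≠ 0 := by
  intro h
  obtain ⟨s, hs⟩ := ne_zero_iff.1 hF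
  obtain ⟨K, I, rfl⟩ := exists_redJoin (α := α) s
  rw [← coeff_redΦ, h] at hs
  simp at hs

/-- Translation as a ring homomorphism. -/
noncomputable def shiftHom {σ : Type*} (y : σ → R) : MvPolynomial σ R →+* MvPolynomial σ R :=
  (bind₁ (fun i => X i + C (y i)) : MvPolynomial σ R →ₐ[R] MvPolynomial σ R).toRingHom

lemma shiftHom_apply {σ : Type*} (y : σ → R) (P : MvPolynomial σ R) :
    shiftHom y P = shift y P := rfl

lemma shiftHom_X {σ : Type*} (y : σ → R) (i : σ) : shiftHom y (X i) = X i + C (y i) :=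
  bind₁_X_right _ _

lemma shiftHom_C {σ : Type*} (y : σ → R) (a : R) : shiftHom y (C a) = C a :=
  bind₁_C_right _ _

omit [Fintype κ] in
lemma redΦ_C (a : R) : redΦ α (C a) = C (C a) := by simp [redΦ]

omit [Fintype κ] in
lemma redΦ_X (x : Fin m × κ) : redΦ α (X x : MvPolynomial (Fin m × κ) R) =
    if h : x.2 ≠ α x.1 then X ⟨x, h⟩ else C (X x.1) := by simp [redΦ]

omit [Fintype κ] in
lemma redΦ_shift (c : redτ α → R) (z : Fin m → R) (F : MvPolynomial (Fin m × κ) R) :
    redΦ α (shift (fun x => if h : x.2 ≠ α x.1 then c ⟨x, h⟩ else z x.1) F) =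
      map (shiftHom z) (shift (fun x => C (c x)) (redΦ α F)) := by
  have key : (redΦ α).comp (shiftHom (fun x : Fin m × κ =>
      if h : x.2 ≠ α x.1 then c ⟨x, h⟩ else z x.1)) =
      (map (shiftHom z)).comp ((shiftHom (fun x => (C (c x) : MvPolynomial (Fin m) R))).comp
        (redΦ α)) := by
    apply MvPolynomial.ringHom_ext
    · intro r
      simp only [RingHom.comp_apply, shiftHom_C, redΦ_C, map_C]
    · intro x
      simp only [RingHom.comp_apply, shiftHom_X, redΦ_X, map_add, redΦ_C]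
      by_cases hx : x.2 ≠ α x.1
      · rw [dif_pos hx, dif_pos hx, shiftHom_X, map_add, map_X, map_C, shiftHom_C]
      · rw [dif_neg hx, dif_neg hx, shiftHom_C, map_C, shiftHom_X, map_add]
  exact RingHom.congr_fun key F

lemma redΦ_map (f : R →+* S) (F : MvPolynomial (Fin m × κ) R) :
    redΦ α (map f F) = map (map f) (redΦ α F) := by
  ext K I
  rw [coeff_redΦ, coeff_map, coeff_map, coeff_map, coeff_redΦ]

end split

/-! ### The grid in one block -/

section block

variable {κ : Type} [Fintype κ] [DecidableEq κ]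

lemma red_den (hκ : 2 ≤ Fintype.card κ) (g : κ → ℤ)
    (hg : ∀ d : ℕ, (∀ i, (d : ℤ) ∣ g i) → d = 1) (α : κ) (h0 : g α ≠ 0) :
    ∃ β, β ≠ α ∧ (g α).natAbs ≤ ((g β : ℚ) / g α).den ^ Fintype.card κ := by
  have hne : (Finset.univ.erase α).Nonempty := by
    rw [← Finset.card_pos, Finset.card_erase_of_mem (Finset.mem_univ _), Finset.card_univ]
    omega
  obtain ⟨β, hβ, hmax⟩ := Finset.exists_max_image (Finset.univ.erase α)
    (fun i => ((g i : ℚ) / g α).den) hne
  refine ⟨β, Finset.ne_of_mem_erase hβ, ?_⟩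
  set L : ℕ := ∏ i ∈ Finset.univ.erase α, ((g i : ℚ) / g α).den with hL
  have hLpos : 0 < L := Finset.prod_pos fun i _ => Rat.den_pos _
  have hdvd : ∀ i, g α ∣ (L : ℤ) * g i := by
    intro i
    by_cases hi : i = α
    · rw [hi]; exact dvd_mul_left _ _
    · have h1 : g α ∣ (((g i : ℚ) / g α).den : ℤ) * g i := by
        refine ⟨((g i : ℚ) / g α).num, ?_⟩
        have h2 := Rat.num_div_den ((g i : ℚ) / g α)
        have h3 : (((g i : ℚ) / g α).den : ℚ) ≠ 0 := by
          exact_mod_cast (Rat.den_pos _).ne'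
        have h4 : (g α : ℚ) ≠ 0 := by exact_mod_cast h0
        have h5 : (((g i : ℚ) / g α).den : ℚ) * g i = g α * ((g i : ℚ) / g α).num := by
          rw [div_eq_iff h3] at h2
          rw [h2]
          field_simp
        exact_mod_cast h5
      refine h1.trans (mul_dvd_mul_right ?_ _)
      rw [hL]
      exact_mod_cast Finset.dvd_prod_of_mem (fun i => ((g i : ℚ) / g α).den)
        (Finset.mem_erase.2 ⟨hi, Finset.mem_univ _⟩)
  have hgcd : Finset.univ.gcd g = 1 := by
    have h1 := hg (Finset.univ.gcd g).natAbs (fun i => by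
      rw [Int.natAbs_dvd]
      exact Finset.gcd_dvd (Finset.mem_univ i))
    have h2 : 0 ≤ Finset.univ.gcd g := Int.nonneg_of_normalize_eq_self Finset.normalize_gcd
    omega
  have hLd : g α ∣ (L : ℤ) := by
    have h1 : g α ∣ Finset.univ.gcd (fun i => (L : ℤ) * g i) :=
      Finset.dvd_gcd fun i _ => hdvd i
    rw [Finset.gcd_mul_left, hgcd, mul_one] at h1
    simpa using h1
  have h1 : (g α).natAbs ≤ L := by
    apply Nat.le_of_dvd hLpos
    have := Int.natAbs_dvd_natAbs.2 hLd
    simpa using this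
  refine h1.trans ?_
  have h2 : L ≤ ((g β : ℚ) / g α).den ^ (Finset.univ.erase α).card := by
    rw [hL]
    exact Finset.prod_le_pow_card _ _ _ hmax
  refine h2.trans (Nat.pow_le_pow_right (Rat.den_pos _) ?_)
  rw [Finset.card_erase_of_mem (Finset.mem_univ _), Finset.card_univ]
  omega

/-- The remaining coordinate of a point of the hyperplane `g · y = 0`. -/
noncomputable def redξ (g : κ → ℤ) (α : κ) (c : κ → ℤ) : ℚ :=
  -(∑ i ∈ Finset.univ.erase α, (g i : ℚ) * c i) / g α

lemma redξ_spec {g : κ → ℤ} {α : κ} (h0 : g α ≠ 0) (c : κ → ℤ) :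
    ∑ i, (g i : ℚ) * (if i = α then redξ g α c else (c i : ℚ)) = 0 := by
  rw [← Finset.add_sum_erase _ _ (Finset.mem_univ α)]
  have h4 : (g α : ℚ) ≠ 0 := by exact_mod_cast h0
  rw [if_pos rfl, redξ, mul_div_cancel₀ _ h4]
  rw [neg_add_eq_zero]
  apply Finset.sum_congr rfl
  intro i hi
  rw [if_neg (Finset.ne_of_mem_erase hi)]

lemma redξ_congr {g : κ → ℤ} {α : κ} {c c' : κ → ℤ} (h : ∀ i, i ≠ α → c i = c' i) :
    redξ g α c = redξ g α c' := by
  unfold redξ
  congr 2
  apply Finset.sum_congr rfl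
  intro i hi
  rw [h i (Finset.ne_of_mem_erase hi)]

lemma redξ_sub {g : κ → ℤ} {α β : κ} (hβ : β ≠ α) (h0 : g α ≠ 0) (c : κ → ℤ) (b b' : ℤ)
    (hb : b ≠ b') :
    (g β : ℚ) / g α = (redξ g α (Function.update c β b) - redξ g α (Function.update c β b')) *
      (((b' - b : ℤ) : ℚ))⁻¹ := by
  have h4 : (g α : ℚ) ≠ 0 := by exact_mod_cast h0
  have h5 : ((b' - b : ℤ) : ℚ) ≠ 0 := by
    have : b' - b ≠ 0 := sub_ne_zero.2 hb.symm
    exact_mod_cast this
  have key : ∀ b : ℤ, redξ g α (Function.update c β b) =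
      -((g β : ℚ) * b + ∑ i ∈ (Finset.univ.erase α).erase β, (g i : ℚ) * c i) / g α := by
    intro b
    unfold redξ
    congr 2
    rw [← Finset.add_sum_erase _ _ (Finset.mem_erase.2 ⟨hβ, Finset.mem_univ β⟩),
      Function.update_self]
    congr 1
    apply Finset.sum_congr rfl
    intro i hi
    rw [Function.update_of_ne (Finset.ne_of_mem_erase hi)]
  rw [key, key]
  push_cast at h5 ⊢
  field_simp
  ring

lemma redξ_bad {g : κ → ℤ} {α β : κ} (hβ : β ≠ α) (h0 : g α ≠ 0) (c : κ → ℤ) (M b b' : ℕ)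
    (hb : b < M) (hb' : b' < M)
    (h1 : (redξ g α (Function.update c β b)).den ^ 2 * M < ((g β : ℚ) / g α).den)
    (h2 : (redξ g α (Function.update c β b')).den ^ 2 * M < ((g β : ℚ) / g α).den) : b = b' := by
  by_contra hne
  have hne' : (b : ℤ) ≠ b' := by exact_mod_cast hne
  have h3 := redξ_sub hβ h0 c b b' hne'
  set x := redξ g α (Function.update c β (b : ℤ)) with hx
  set x' := redξ g α (Function.update c β (b' : ℤ)) with hx'
  have h4 : ((g β : ℚ) / g α).den ∣ (x - x').den * ((((b' - b : ℤ) : ℚ))⁻¹).den := by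
    rw [h3]; exact Rat.mul_den_dvd _ _
  have h5 : ((((b' - b : ℤ) : ℚ))⁻¹).den = (b' - b : ℤ).natAbs := by
    rw [Rat.inv_intCast_den, if_neg]
    intro h; apply hne'; linarith
  have h6 : (b' - b : ℤ).natAbs ≤ M := by omega
  have h7 : (x - x').den ≤ x.den * x'.den :=
    Nat.le_of_dvd (Nat.mul_pos x.den_pos x'.den_pos) (Rat.sub_den_dvd _ _)
  have h8 : 0 < (b' - b : ℤ).natAbs := by omega
  have h9 : ((g β : ℚ) / g α).den ≤ x.den * x'.den * M := by
    refine (Nat.le_of_dvd (Nat.mul_pos (Rat.den_pos _) (Rat.den_pos _)) h4).trans ?_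
    rw [h5]
    exact Nat.mul_le_mul h7 h6
  rcases le_total x.den x'.den with h | h
  · have : x.den * x'.den * M ≤ x'.den ^ 2 * M := by
      rw [pow_two]; gcongr
    omega
  · have : x.den * x'.den * M ≤ x.den ^ 2 * M := by
      rw [pow_two]; gcongr
    omega

lemma red_block (hκ : 2 ≤ Fintype.card κ) (N : ℕ) (hN : 1 ≤ N) (g : κ → ℤ)
    (hg : ∀ d : ℕ, (∀ i, (d : ℤ) ∣ g i) → d = 1) :
    ∃ (α : κ) (S : κ → Finset ℤ), (∀ i, N ≤ (S i).card) ∧
      (∀ i, ∀ c ∈ S i, 0 ≤ c ∧ c ≤ (N ^ Fintype.card κ + N : ℕ)) ∧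
      ∀ c : κ → ℤ, (∀ i, i ≠ α → c i ∈ S i) → ∃ ξ : ℚ,
        (∑ i, (g i : ℚ) * (if i = α then ξ else (c i : ℚ)) = 0) ∧
        ∀ j, Real.log |(g j : ℝ)| ≤ Fintype.card κ *
          (Real.log ((N ^ Fintype.card κ + N : ℕ) : ℝ) + 2 * Real.log (ξ.den : ℝ)) := by
  have hne : (Finset.univ : Finset κ).Nonempty := by
    rw [← Finset.card_pos, Finset.card_univ]; omega
  obtain ⟨α, -, hα⟩ := Finset.exists_max_image Finset.univ (fun i => (g i).natAbs) hne
  have h0 : g α ≠ 0 := by
    intro h
    have := hg 2 (fun i => by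
      have h1 := hα i (Finset.mem_univ _)
      rw [h] at h1
      have h2 : g i = 0 := by simpa using h1
      rw [h2]; exact dvd_zero _)
    omega
  obtain ⟨β, hβ, hd⟩ := red_den hκ g hg α h0
  set M : ℕ := N ^ Fintype.card κ + N with hM
  set d : ℕ := ((g β : ℚ) / g α).den with hdd
  let U : (κ → Fin N) → Finset ℕ := fun c => (Finset.range M).filter
    (fun b => (redξ g α (Function.update (fun i => ((c i : ℕ) : ℤ)) β b)).den ^ 2 * M < d)
  have hU : ∀ c, (U c).card ≤ 1 := by
    intro c
    rw [Finset.card_le_one]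
    intro b hb b' hb'
    simp only [U, Finset.mem_filter, Finset.mem_range] at hb hb'
    exact redξ_bad hβ h0 _ M b b' hb.1 hb'.1 hb.2 hb'.2
  let V : Finset ℕ := Finset.univ.biUnion U
  have hV : V.card ≤ N ^ Fintype.card κ := by
    refine Finset.card_biUnion_le.trans ?_
    refine (Finset.sum_le_sum fun c _ => hU c).trans ?_
    simp
  let E : ℕ ↪ ℤ := ⟨fun n => (n : ℤ), Nat.cast_injective⟩
  let S : κ → Finset ℤ := fun i => if i = β then ((Finset.range M) \ V).map E
    else (Finset.range N).map E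
  have hSβ : S β = ((Finset.range M) \ V).map E := by simp [S]
  have hSi : ∀ i, i ≠ β → S i = (Finset.range N).map E := by
    intro i hi; simp [S, hi]
  refine ⟨α, S, ?_, ?_, ?_⟩
  · intro i
    by_cases hi : i = β
    · rw [hi, hSβ, Finset.card_map]
      have h1 := Finset.le_card_sdiff V (Finset.range M)
      rw [Finset.card_range] at h1
      omega
    · rw [hSi i hi, Finset.card_map, Finset.card_range]
  · intro i c hc
    by_cases hi : i = β
    · rw [hi, hSβ] at hc
      obtain ⟨n, hn, rfl⟩ := Finset.mem_map.1 hc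
      have := Finset.mem_range.1 (Finset.mem_sdiff.1 hn).1
      simp only [E, Function.Embedding.coeFn_mk]
      omega
    · rw [hSi i hi] at hc
      obtain ⟨n, hn, rfl⟩ := Finset.mem_map.1 hc
      have := Finset.mem_range.1 hn
      simp only [E, Function.Embedding.coeFn_mk]
      omega
  · intro c hc
    refine ⟨redξ g α c, redξ_spec h0 c, ?_⟩
    have h1 := hc β hβ
    rw [hSβ] at h1
    obtain ⟨b, hb, hbc⟩ := Finset.mem_map.1 h1
    have hbc' : (b : ℤ) = c β := hbc
    have hbV := (Finset.mem_sdiff.1 hb).2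
    have hbM := (Finset.mem_sdiff.1 hb).1
    have hex : ∀ i, ∃ n : Fin N, i ≠ α → i ≠ β → ((n : ℕ) : ℤ) = c i := by
      intro i
      by_cases hi : i ≠ α ∧ i ≠ β
      · have h2 := hc i hi.1
        rw [hSi i hi.2] at h2
        obtain ⟨n, hn, hnc⟩ := Finset.mem_map.1 h2
        exact ⟨⟨n, Finset.mem_range.1 hn⟩, fun _ _ => hnc⟩
      · exact ⟨⟨0, hN⟩, fun h3 h4 => absurd ⟨h3, h4⟩ hi⟩
    choose c' hc' using hex
    have h2 : b ∉ U c' := fun h => hbV (Finset.mem_biUnion.2 ⟨c', Finset.mem_univ _, h⟩)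
    have h3 : redξ g α (Function.update (fun i => ((c' i : ℕ) : ℤ)) β b) = redξ g α c := by
      apply redξ_congr
      intro i hi
      by_cases hiβ : i = β
      · rw [hiβ, Function.update_self, hbc']
      · rw [Function.update_of_ne hiβ, hc' i hi hiβ]
    have h4 : d ≤ (redξ g α c).den ^ 2 * M := by
      by_contra h
      push Not at h
      apply h2
      simp only [U, Finset.mem_filter]
      exact ⟨hbM, by rw [h3]; exact h⟩
    intro j
    have hMpos : (1 : ℝ) ≤ (M : ℝ) := by
      have : 1 ≤ M := by rw [hM]; omega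
      exact_mod_cast this
    have hden : (1 : ℝ) ≤ ((redξ g α c).den : ℝ) := by exact_mod_cast (redξ g α c).den_pos
    have hRHS : 0 ≤ (Fintype.card κ : ℝ) *
        (Real.log (M : ℝ) + 2 * Real.log ((redξ g α c).den : ℝ)) := by
      have := Real.log_nonneg hMpos
      have := Real.log_nonneg hden
      positivity
    by_cases hj : g j = 0
    · rw [hj]; simpa using hRHS
    · have h5 : |(g j : ℝ)| ≤ (((redξ g α c).den : ℝ) ^ 2 * M) ^ Fintype.card κ := by
        have h6 : (g j).natAbs ≤ ((redξ g α c).den ^ 2 * M) ^ Fintype.card κ :=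
          (hα j (Finset.mem_univ _)).trans (hd.trans (Nat.pow_le_pow_left h4 _))
        have h7 : ((g j).natAbs : ℝ) = |(g j : ℝ)| := by
          rw [← Int.cast_abs, Int.abs_eq_natAbs]; simp
        rw [← h7]
        exact_mod_cast h6
      have h8 : 0 < |(g j : ℝ)| := by
        rw [abs_pos]; exact_mod_cast hj
      refine (Real.log_le_log h8 h5).trans (le_of_eq ?_)
      have hp : (0 : ℝ) < ((redξ g α c).den : ℝ) ^ 2 := by positivity
      rw [Real.log_pow, Real.log_mul hp.ne' (by linarith), Real.log_pow]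
      push_cast
      ring

end block

end SST
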