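import Mathlib

/-!
# The multiplicity of a rational root of an integer polynomial
-/

namespace SST

open Polynomial

/-- The linear polynomial `den X - num` is primitive. -/
lemma isPrimitive_lin (ξ : ℚ) : (C (ξ.den : ℤ) * X - C ξ.num : ℤ[X]).IsPrimitive := by
  intro r hr
  rw [Polynomial.C_dvd_iff_dvd_coeff] at hr
  have h0 : r ∣ ξ.num := by
    have := hr 0
    simpa using this
  have h1 : r ∣ (ξ.den : ℤ) := by
    have := hr 1
    rwa [coeff_sub, coeff_C_mul, coeff_X_one, mul_one, coeff_C, if_neg one_ne_zero, sub_zero] at this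
  exact (ξ.isCoprime_num_den).isUnit_of_dvd' h0 h1

/-- One-variable end of Roth's induction: if `b` is the multiplicity of the root `ξ`, then
`b * log (den ξ) ≤ log |leading coefficient|`. -/
lemma one_var_end (V : ℤ[X]) (hV : V ≠ 0) (ξ : ℚ) :
    ∃ b : ℕ, b ≤ V.natDegree ∧ (taylor ξ (V.map (Int.castRingHom ℚ))).coeff b ≠ 0 ∧
      (b : ℝ) * Real.log (ξ.den : ℝ) ≤ Real.log |(V.leadingCoeff : ℝ)| := by
  set W := V.map (Int.castRingHom ℚ) with hW
  have hinj : Function.Injective (Int.castRingHom ℚ) := Int.cast_injective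
  have hW0 : W ≠ 0 := (Polynomial.map_ne_zero_iff hinj).2 hV
  obtain ⟨q, hq, hqξ⟩ := exists_eq_pow_rootMultiplicity_mul_and_not_dvd W hW0 ξ
  set b := rootMultiplicity ξ W with hb
  have hq0 : q.eval ξ ≠ 0 := by
    intro h
    exact hqξ (dvd_iff_isRoot.2 h)
  have hdvd : (C (ξ.den : ℤ) * X - C ξ.num : ℤ[X]) ^ b ∣ V := by
    have hprim : ((C (ξ.den : ℤ) * X - C ξ.num : ℤ[X]) ^ b).IsPrimitive := by
      clear_value b
      clear hq hb
      induction b with
      | zero => rw [pow_zero]; exact isPrimitive_one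
      | succ b ih => rw [pow_succ]; exact ih.mul (isPrimitive_lin ξ)
    rw [IsPrimitive.Int.dvd_iff_map_cast_dvd_map_cast _ _ hprim, ← hW, hq,
      Polynomial.map_pow]
    have h1 : (C (ξ.den : ℤ) * X - C ξ.num : ℤ[X]).map (Int.castRingHom ℚ) =
        C (ξ.den : ℚ) * (X - C ξ) := by
      rw [Polynomial.map_sub, Polynomial.map_mul, map_C, map_C, map_X, mul_sub, ← C_mul]
      congr 2
      simp [Rat.den_mul_eq_num]
    rw [h1, mul_pow]
    refine Dvd.dvd.mul_right ?_ q
    have hu : IsUnit (C (ξ.den : ℚ) ^ b) := by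
      refine IsUnit.pow _ (isUnit_C.2 (isUnit_iff_ne_zero.2 ?_))
      exact_mod_cast ξ.den_nz
    exact (IsUnit.mul_left_dvd hu).2 dvd_rfl
  have hlc : ((ξ.den : ℤ)) ^ b ∣ V.leadingCoeff := by
    obtain ⟨Q, hQ⟩ := hdvd
    have h2 : (C (ξ.den : ℤ) * X - C ξ.num : ℤ[X]).leadingCoeff = (ξ.den : ℤ) := by
      rw [leadingCoeff_sub_of_degree_lt]
      · rw [leadingCoeff_mul, leadingCoeff_X, mul_one, leadingCoeff_C]
      · rw [degree_C_mul_X (by exact_mod_cast ξ.den_nz)]
        exact degree_C_lt.trans_le (by norm_num)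
    rw [hQ, leadingCoeff_mul, leadingCoeff_pow, h2]
    exact dvd_mul_right _ _
  have hlc0 : V.leadingCoeff ≠ 0 := leadingCoeff_ne_zero.2 hV
  have hden : (0 : ℝ) < ξ.den := by exact_mod_cast ξ.den_pos
  refine ⟨b, ?_, ?_, ?_⟩
  · have h3 : b ≤ W.natDegree := by
      rw [hb]
      exact (le_rootMultiplicity_iff hW0).1 le_rfl |> fun h => by
        have := natDegree_le_of_dvd h hW0
        rwa [natDegree_pow, natDegree_X_sub_C, mul_one] at this
    rwa [hW, natDegree_map_eq_of_injective hinj] at h3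
  · rw [hq, taylor_apply, mul_comp, pow_comp, sub_comp, X_comp, C_comp, add_sub_cancel_right,
      coeff_X_pow_mul', if_pos le_rfl, Nat.sub_self, ← taylor_apply, taylor_coeff_zero]
    exact hq0
  · rw [← Real.log_pow]
    refine Real.log_le_log (by positivity) ?_
    have h4 := Int.le_of_dvd (abs_pos.2 hlc0) ((dvd_abs _ _).2 hlc)
    exact_mod_cast h4

end SST
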