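import Pool.Agent.Subspace.Wronskian
import Pool.Agent.Subspace.RothOne

/-!
# Auxiliary statements for Roth's lemma: splitting off one variable
-/

namespace SST

open MvPolynomial

section split

variable {R : Type*} [CommRing R] {m : ℕ}

/-- The polynomials in the variable `x_0`. -/
noncomputable abbrev e0 (m : ℕ) (R : Type*) [CommRing R] :
    Polynomial R →ₐ[R] MvPolynomial (Fin (m + 1)) R := Polynomial.aeval (X 0)

/-- The polynomials in the variables `x_1, x_2, ...`. -/
noncomputable abbrev e1 (m : ℕ) (R : Type*) [CommRing R] :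
    MvPolynomial (Fin m) R →ₐ[R] MvPolynomial (Fin (m + 1)) R := rename Fin.succ

lemma finSuccEquiv_e0 (V : Polynomial R) :
    finSuccEquiv R m (e0 m R V) = V.map (C : R →+* MvPolynomial (Fin m) R) := by
  induction V using Polynomial.induction_on' with
  | add p q hp hq => rw [map_add, map_add, hp, hq, Polynomial.map_add]
  | monomial k a =>
    rw [Polynomial.map_monomial, e0, Polynomial.aeval_monomial, map_mul, map_pow,
      finSuccEquiv_X_zero, algebraMap_eq, finSuccEquiv_apply]
    simp [Polynomial.C_mul_X_pow_eq_monomial]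

lemma finSuccEquiv_e1 (U : MvPolynomial (Fin m) R) :
    finSuccEquiv R m (e1 m R U) = Polynomial.C U := by
  induction U using MvPolynomial.induction_on with
  | C a => rw [e1, rename_C, finSuccEquiv_apply]; simp
  | add p q hp hq => rw [map_add, map_add, hp, hq, Polynomial.C_add]
  | mul_X p i hp =>
    rw [map_mul, map_mul, hp, e1, rename_X, finSuccEquiv_X_succ, Polynomial.C_mul]

/-- The coefficients of a product of polynomials in disjoint variables. -/
lemma coeff_e1_e0 (U : MvPolynomial (Fin m) R) (V : Polynomial R) (b : ℕ) (s : Fin m →₀ ℕ) :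
    coeff (s.cons b) (e1 m R U * e0 m R V) = coeff s U * V.coeff b := by
  rw [← finSuccEquiv_coeff_coeff, map_mul, finSuccEquiv_e1, finSuccEquiv_e0,
    Polynomial.coeff_C_mul, Polynomial.coeff_map, mul_comm U, coeff_C_mul, mul_comm]

lemma ext_cons {P Q : MvPolynomial (Fin (m + 1)) R}
    (h : ∀ (b : ℕ) (s : Fin m →₀ ℕ), coeff (s.cons b) P = coeff (s.cons b) Q) : P = Q := by
  ext t
  rw [← Finsupp.cons_tail t]
  exact h _ _

lemma shift_e0 (y : Fin (m + 1) → R) (V : Polynomial R) :
    shift y (e0 m R V) = e0 m R (Polynomial.taylor (y 0) V) := by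
  unfold shift e0
  rw [Polynomial.taylor_apply, ← Polynomial.aeval_algHom_apply, Polynomial.aeval_comp,
    bind₁_X_right]
  congr 2
  simp [algebraMap_eq]

lemma shift_e1 (y : Fin (m + 1) → R) (U : MvPolynomial (Fin m) R) :
    shift y (e1 m R U) = e1 m R (shift (fun i => y i.succ) U) := by
  unfold shift e1
  rw [bind₁_rename, rename_bind₁]
  congr 1
  congr 1
  funext i
  simp

lemma shift_e1_e0 (y : Fin (m + 1) → R) (U : MvPolynomial (Fin m) R) (V : Polynomial R) :
    shift y (e1 m R U * e0 m R V) =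
      e1 m R (shift (fun i => y i.succ) U) * e0 m R (Polynomial.taylor (y 0) V) := by
  rw [shift_mul, shift_e0, shift_e1]

/-- Hasse derivatives of a product of polynomials in disjoint variables. -/
lemma hasse_e1_e0 (l : ℕ) (μ : Fin m →₀ ℕ) (U : MvPolynomial (Fin m) R) (V : Polynomial R) :
    hasse (μ.cons l) (e1 m R U * e0 m R V) =
      e1 m R (hasse μ U) * e0 m R (Polynomial.hasseDeriv l V) := by
  refine ext_cons fun b s => ?_
  have hc : s.cons b + μ.cons l = (s + μ).cons (b + l) := by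
    ext i
    refine Fin.cases ?_ (fun i => ?_) i
    · simp
    · simp
  rw [coeff_hasse, hc, coeff_e1_e0, coeff_e1_e0, mchoose_cons, coeff_hasse,
    Polynomial.hasseDeriv_coeff]
  push_cast
  ring

end split

/-! ### The rank decomposition -/

/-- Decomposition into a minimal number of products of polynomials in disjoint variables. -/
lemma exists_decomp {m : ℕ} (f : MvPolynomial (Fin (m + 1)) ℚ) (hf : f ≠ 0) (r : ℕ)
    (hr : f.degreeOf 0 ≤ r) :
    ∃ k : ℕ, 1 ≤ k ∧ k ≤ r + 1 ∧ ∃ φ : Fin k → MvPolynomial (Fin m) ℚ,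
      ∃ ψ : Fin k → Polynomial ℚ, LinearIndependent ℚ φ ∧ LinearIndependent ℚ ψ ∧
        f = ∑ j, e1 m ℚ (φ j) * e0 m ℚ (ψ j) := by
  classical
  set F := finSuccEquiv ℚ m f with hF
  set G : Fin (r + 1) → MvPolynomial (Fin m) ℚ := fun b => F.coeff b with hG
  set S := Submodule.span ℚ (Set.range G) with hS
  have hmem : ∀ b, G b ∈ S := fun b => Submodule.subset_span ⟨b, rfl⟩
  have : Module.Finite ℚ S := Module.Finite.span_of_finite ℚ (Set.finite_range G)
  set B := Module.finBasis ℚ S with hB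
  have hbig : ∀ b : ℕ, r < b → F.coeff b = 0 := by
    intro b hb
    apply Polynomial.coeff_eq_zero_of_natDegree_lt
    rw [hF, natDegree_finSuccEquiv]
    omega
  set φ : Fin (Module.finrank ℚ S) → MvPolynomial (Fin m) ℚ := fun j => (B j : MvPolynomial (Fin m) ℚ)
    with hφ
  set c : Fin (r + 1) → Fin (Module.finrank ℚ S) → ℚ := fun b j => B.repr ⟨G b, hmem b⟩ j with hc
  have hGc : ∀ b, G b = ∑ j, c b j • φ j := by
    intro b
    have h1 := B.sum_repr ⟨G b, hmem b⟩
    have h2 := congrArg (Subtype.val) h1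
    rw [Submodule.coe_sum] at h2
    exact h2.symm
  set ψ : Fin (Module.finrank ℚ S) → Polynomial ℚ := fun j =>
    ∑ b : Fin (r + 1), Polynomial.monomial (b : ℕ) (c b j) with hψ
  have hψc : ∀ j (b : Fin (r + 1)), (ψ j).coeff b = c b j := by
    intro j b
    rw [hψ]
    simp only [Polynomial.finsetSum_coeff, Polynomial.coeff_monomial]
    rw [Finset.sum_eq_single b]
    · simp
    · intro b' _ hb'
      rw [if_neg]
      intro h
      exact hb' (Fin.ext h)
    · simp
  have hψb : ∀ j (b : ℕ), r < b → (ψ j).coeff b = 0 := by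
    intro j b hb
    rw [hψ]
    simp only [Polynomial.finsetSum_coeff, Polynomial.coeff_monomial]
    refine Finset.sum_eq_zero fun b' _ => if_neg ?_
    have := b'.2
    omega
  refine ⟨Module.finrank ℚ S, ?_, ?_, φ, ψ, ?_, ?_, ?_⟩
  · rw [Nat.one_le_iff_ne_zero]
    intro h0
    apply hf
    have hbot : S = ⊥ := Submodule.finrank_eq_zero.1 h0
    have hF0 : F = 0 := by
      ext1 b
      rw [Polynomial.coeff_zero]
      by_cases hb : b ≤ r
      · have := hmem ⟨b, Nat.lt_succ_of_le hb⟩
        rw [hbot, Submodule.mem_bot] at this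
        exact this
      · exact hbig b (by omega)
    exact (map_eq_zero_iff _ (finSuccEquiv ℚ m).injective).1 hF0
  · have := finrank_range_le_card (R := ℚ) G
    rw [Fintype.card_fin] at this
    exact this
  · exact B.linearIndependent.map' S.subtype (Submodule.ker_subtype S)
  · rw [Fintype.linearIndependent_iff]
    intro lam hlam
    have h1 : ∀ b : Fin (r + 1), ∑ j, lam j * c b j = 0 := by
      intro b
      have h2 := congrArg (fun p => Polynomial.coeff p (b : ℕ)) hlam
      simp only [Polynomial.finsetSum_coeff, Polynomial.coeff_smul, Polynomial.coeff_zero,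
        smul_eq_mul] at h2
      rw [← h2]
      exact Finset.sum_congr rfl fun j _ => by rw [hψc]
    set Lm : S →ₗ[ℚ] ℚ := B.constr ℚ lam with hLm
    have h3 : ∀ x (hx : x ∈ S), Lm ⟨x, hx⟩ = 0 := by
      intro x hx
      induction hx using Submodule.span_induction with
      | mem x h =>
        obtain ⟨b, rfl⟩ := h
        have h4 : (⟨G b, hmem b⟩ : S) = ∑ j, c b j • B j := (B.sum_repr ⟨G b, hmem b⟩).symm
        rw [h4, map_sum]
        rw [← h1 b]
        refine Finset.sum_congr rfl fun j _ => ?_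
        rw [map_smul, hLm, Module.Basis.constr_basis, smul_eq_mul, mul_comm]
      | zero => exact map_zero Lm
      | add x y hx hy h4 h5 =>
        have : (⟨x + y, Submodule.add_mem _ hx hy⟩ : S) = ⟨x, hx⟩ + ⟨y, hy⟩ := rfl
        rw [this, map_add, h4, h5, add_zero]
      | smul a x hx h4 =>
        have : (⟨a • x, Submodule.smul_mem _ a hx⟩ : S) = a • ⟨x, hx⟩ := rfl
        rw [this, map_smul, h4, smul_zero]
    intro j
    have h5 := h3 (B j : MvPolynomial (Fin m) ℚ) (B j).2
    have h6 : Lm (B j) = 0 := h5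
    rwa [hLm, Module.Basis.constr_basis] at h6
  · refine ext_cons fun b s => ?_
    rw [← finSuccEquiv_coeff_coeff, ← hF, coeff_sum]
    simp only [coeff_e1_e0]
    by_cases hb : b ≤ r
    · have h2 := hGc ⟨b, Nat.lt_succ_of_le hb⟩
      have h3 : F.coeff b = ∑ j, c ⟨b, Nat.lt_succ_of_le hb⟩ j • φ j := h2
      rw [h3, coeff_sum]
      refine Finset.sum_congr rfl fun j _ => ?_
      rw [coeff_smul, smul_eq_mul, mul_comm]
      congr 1
      exact (hψc j ⟨b, Nat.lt_succ_of_le hb⟩).symm
    · rw [hbig b (by omega), coeff_zero]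
      symm
      refine Finset.sum_eq_zero fun j _ => ?_
      rw [hψb j b (by omega), mul_zero]

/-- A generalized Wronskian of `f` which is a product of polynomials in disjoint variables. -/
theorem exists_wronskian {m : ℕ} (f : MvPolynomial (Fin (m + 1)) ℚ) (hf : f ≠ 0) (r : ℕ)
    (hr : f.degreeOf 0 ≤ r) :
    ∃ k : ℕ, 1 ≤ k ∧ k ≤ r + 1 ∧ ∃ μ : Fin k → (Fin m →₀ ℕ), (∀ i, ∑ j, μ i j ≤ k - 1) ∧
      ∃ U : MvPolynomial (Fin m) ℚ, ∃ V : Polynomial ℚ, U ≠ 0 ∧ V ≠ 0 ∧
        (Matrix.of fun i l : Fin k => hasse (Finsupp.cons (l : ℕ) (μ i)) f).det =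
          rename Fin.succ U * Polynomial.aeval (X 0) V ∧
        (Matrix.of fun i l : Fin k => hasse (Finsupp.cons (l : ℕ) (μ i)) f).det ≠ 0 := by
  obtain ⟨k, hk1, hkr, φ, ψ, hφ, hψ, hdec⟩ := exists_decomp f hf r hr
  obtain ⟨μ, hμ, hU⟩ := wronskian_ne_zero φ hφ
  have hV := wronskian_poly_ne_zero ψ hψ
  have hmat : (Matrix.of fun i l : Fin k => hasse (Finsupp.cons (l : ℕ) (μ i)) f) =
      (e1 m ℚ).mapMatrix (Matrix.of fun i j => hasse (μ i) (φ j)) *
        ((e0 m ℚ).mapMatrix
          (Matrix.of fun l j : Fin k => Polynomial.hasseDeriv l (ψ j))).transpose := by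
    ext1 i l
    rw [Matrix.mul_apply, Matrix.of_apply]
    conv_lhs => rw [hdec]
    rw [hasse_sum]
    refine Finset.sum_congr rfl fun j _ => ?_
    rw [hasse_e1_e0]
    rfl
  have hdet : (Matrix.of fun i l : Fin k => hasse (Finsupp.cons (l : ℕ) (μ i)) f).det =
      e1 m ℚ (Matrix.of fun i j => hasse (μ i) (φ j)).det *
        e0 m ℚ (Matrix.of fun l j : Fin k => Polynomial.hasseDeriv l (ψ j)).det := by
    rw [hmat, Matrix.det_mul, Matrix.det_transpose, ← AlgHom.map_det, ← AlgHom.map_det]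
  refine ⟨k, hk1, hkr, μ, hμ, _, _, hU, hV, hdet, ?_⟩
  rw [hdet]
  intro h0
  obtain ⟨s, hs⟩ := ne_zero_iff.1 hU
  obtain ⟨b, hb⟩ : ∃ b, ((Matrix.of fun l j : Fin k =>
      Polynomial.hasseDeriv l (ψ j)).det).coeff b ≠ 0 := by
    by_contra hcon
    push Not at hcon
    exact hV (Polynomial.ext fun b => by rw [hcon b, Polynomial.coeff_zero])
  have h1 := congrArg (coeff (s.cons b)) h0
  rw [coeff_e1_e0, coeff_zero] at h1
  exact mul_ne_zero hs hb h1

/-! ### Factors in disjoint variables -/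

/-- If an integer polynomial `W` is a product of polynomials `U (x_1, ..., x_m)` and `V (x_0)` with
rational coefficients, then one gets an integer multiple `U₁` of `U` of height at most that of `W`,
and the vanishing of `W` at `ξ` is controlled by that of `U₁` and by the height of `W`. -/
theorem factor_end {m : ℕ} (W : MvPolynomial (Fin (m + 1)) ℤ) (hW : W ≠ 0)
    (U : MvPolynomial (Fin m) ℚ) (V : Polynomial ℚ)
    (h : map (Int.castRingHom ℚ) W = rename Fin.succ U * Polynomial.aeval (X 0) V)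
    (ξ : Fin (m + 1) → ℚ) :
    ∃ U₁ : MvPolynomial (Fin m) ℤ, U₁ ≠ 0 ∧ l1Z U₁ ≤ l1Z W ∧
      (∀ i, U₁.degreeOf i ≤ W.degreeOf i.succ) ∧
      ∃ b : ℕ, (b : ℝ) * Real.log ((ξ 0).den : ℝ) ≤ Real.log (l1Z W) ∧
        ∀ s ∈ (shift (fun i => ξ i.succ) (map (Int.castRingHom ℚ) U₁)).support,
          Finsupp.cons b s ∈ (shift ξ (map (Int.castRingHom ℚ) W)).support := by
  classical
  have h' : map (Int.castRingHom ℚ) W = e1 m ℚ U * e0 m ℚ V := h
  have hcoef : ∀ b s, ((coeff (Finsupp.cons b s) W : ℤ) : ℚ) = coeff s U * V.coeff b := by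
    intro b s
    rw [← coeff_e1_e0, ← h', coeff_map]
    rfl
  -- a nonzero coefficient
  obtain ⟨t, ht⟩ := ne_zero_iff.1 hW
  set b₀ := t 0 with hb₀
  set s₀ := t.tail with hs₀
  have ht' : coeff (Finsupp.cons b₀ s₀) W ≠ 0 := by
    rw [hb₀, hs₀, Finsupp.cons_tail]; exact ht
  have hprod : coeff s₀ U * V.coeff b₀ ≠ 0 := by
    rw [← hcoef]
    exact_mod_cast ht'
  have hUs : coeff s₀ U ≠ 0 := left_ne_zero_of_mul hprod
  have hVb : V.coeff b₀ ≠ 0 := right_ne_zero_of_mul hprod
  -- the column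
  set U₁ : MvPolynomial (Fin m) ℤ := (finSuccEquiv ℤ m W).coeff b₀ with hU₁
  have hU₁c : ∀ s, coeff s U₁ = coeff (Finsupp.cons b₀ s) W := fun s => by
    rw [hU₁, finSuccEquiv_coeff_coeff]
  have hU₁Q : map (Int.castRingHom ℚ) U₁ = C (V.coeff b₀) * U := by
    ext s
    rw [coeff_map, coeff_C_mul, hU₁c, eq_intCast, hcoef, mul_comm]
  -- the row
  set V₂ : Polynomial ℤ := ∑ b ∈ Finset.range (W.degreeOf 0 + 1),
    Polynomial.monomial b (coeff (Finsupp.cons b s₀) W) with hV₂
  have hV₂c : ∀ b, V₂.coeff b = coeff (Finsupp.cons b s₀) W := by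
    intro b
    rw [hV₂]
    simp only [Polynomial.finsetSum_coeff, Polynomial.coeff_monomial]
    rw [Finset.sum_ite_eq' (Finset.range (W.degreeOf 0 + 1)) b]
    split_ifs with hb
    · rfl
    · rw [Finset.mem_range, not_lt] at hb
      symm
      rw [← finSuccEquiv_coeff_coeff, Polynomial.coeff_eq_zero_of_natDegree_lt, coeff_zero]
      rw [natDegree_finSuccEquiv]
      omega
  have hV₂Q : V₂.map (Int.castRingHom ℚ) = Polynomial.C (coeff s₀ U) * V := by
    ext b
    rw [Polynomial.coeff_map, Polynomial.coeff_C_mul, hV₂c, eq_intCast, hcoef]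
  have hV₂0 : V₂ ≠ 0 := by
    intro h0
    apply ht'
    rw [← hV₂c, h0, Polynomial.coeff_zero]
  obtain ⟨b, -, hb, hblog⟩ := one_var_end V₂ hV₂0 (ξ 0)
  refine ⟨U₁, ?_, ?_, ?_, b, ?_, ?_⟩
  · intro h0
    apply ht'
    rw [← hU₁c, h0, coeff_zero]
  · -- l1 norms
    have hinj : Function.Injective (fun s : Fin m →₀ ℕ => Finsupp.cons b₀ s) := by
      intro s s' hss
      have := congrArg Finsupp.tail hss
      rwa [Finsupp.tail_cons, Finsupp.tail_cons] at this
    have h1 : l1Z U₁ = ∑ s ∈ (map (Int.castRingHom ℝ) U₁).support,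
        |coeff (Finsupp.cons b₀ s) (map (Int.castRingHom ℝ) W)| := by
      unfold l1Z l1
      refine Finset.sum_congr rfl fun s _ => ?_
      rw [coeff_map, coeff_map, hU₁c]
    rw [h1, ← Finset.sum_image (f := fun t => |coeff t (map (Int.castRingHom ℝ) W)|)
      (fun a _ b _ hab => hinj hab)]
    unfold l1Z l1
    refine Finset.sum_le_sum_of_subset_of_nonneg ?_ (fun _ _ _ => abs_nonneg _)
    intro t ht
    obtain ⟨s, hs, rfl⟩ := Finset.mem_image.1 ht
    rw [mem_support_iff, coeff_map] at hs ⊢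
    rwa [hU₁c] at hs
  · intro i
    exact degreeOf_coeff_finSuccEquiv W i b₀
  · refine hblog.trans (Real.log_le_log ?_ ?_)
    · rw [abs_pos]
      exact_mod_cast Polynomial.leadingCoeff_ne_zero.2 hV₂0
    · have := abs_coeff_le_l1Z W (Finsupp.cons V₂.natDegree s₀)
      rwa [← hV₂c] at this
  · intro s hs
    rw [h', shift_e1_e0, mem_support_iff, coeff_e1_e0]
    rw [hU₁Q, mem_support_iff, shift_mul] at hs
    have hC : shift (fun i : Fin m => ξ i.succ) (C (V.coeff b₀)) = C (V.coeff b₀) := by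
      unfold shift
      rw [bind₁_C_right]
    rw [hC, coeff_C_mul] at hs
    rw [hV₂Q, Polynomial.taylor_mul, Polynomial.taylor_C, Polynomial.coeff_C_mul] at hb
    exact mul_ne_zero (right_ne_zero_of_mul hs) (right_ne_zero_of_mul hb)

end SST
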