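import Pool.Agent.Subspace.Wronskian
import Pool.Agent.Subspace.RothAux

/-!
# Roth's lemma for rational points
-/

namespace SST

open MvPolynomial

/-! ### Determinants -/

section det

variable {σ R : Type*} [CommRing R]

lemma Ord.neg {w : σ → ℝ} {θ : ℝ} {P : MvPolynomial σ R} (h : Ord w θ P) : Ord w θ (-P) := by
  intro s hs
  rw [support_neg] at hs
  exact h s hs

lemma Ord.det {w : σ → ℝ} {k : ℕ} {M : Matrix (Fin k) (Fin k) (MvPolynomial σ R)}
    {c : Fin k → ℝ} (h : ∀ i l, Ord w (c l) (M i l)) : Ord w (∑ l, c l) M.det := by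
  rw [Matrix.det_apply]
  refine Ord.sum fun g _ => ?_
  have h1 : Ord w (∑ l, c l) (∏ i, M (g i) i) := Ord.prod fun i _ => h _ _
  rcases Int.units_eq_one_or (Equiv.Perm.sign g) with hs | hs
  · rw [hs, one_smul]; exact h1
  · rw [hs, Units.neg_smul, one_smul]; exact h1.neg

lemma l1Z_det_le {k : ℕ} {M : Matrix (Fin k) (Fin k) (MvPolynomial σ ℤ)} {B : ℝ}
    (h : ∀ i l, l1Z (M i l) ≤ B) : l1Z M.det ≤ (k.factorial : ℝ) * B ^ k := by
  have h0 : l1Z M.det = l1 ((Matrix.map M (map (Int.castRingHom ℝ))).det) := by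
    unfold l1Z
    rw [RingHom.map_det]
    rfl
  rw [h0, Matrix.det_apply]
  refine (l1_sum _ _).trans ?_
  have h1 : ∀ g : Equiv.Perm (Fin k), l1 (Equiv.Perm.sign g •
      ∏ i, (Matrix.map M (map (Int.castRingHom ℝ))) (g i) i) ≤ B ^ k := by
    intro g
    have h2 : l1 (∏ i, (Matrix.map M (map (Int.castRingHom ℝ))) (g i) i) ≤ B ^ k := by
      refine (l1_prod _ _).trans ?_
      have : ∏ i : Fin k, l1 ((Matrix.map M (map (Int.castRingHom ℝ))) (g i) i) ≤
          ∏ _i : Fin k, B :=
        Finset.prod_le_prod (fun _ _ => l1_nonneg _) fun i _ => h (g i) i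
      simpa using this
    rcases Int.units_eq_one_or (Equiv.Perm.sign g) with hs | hs
    · rw [hs, one_smul]; exact h2
    · rw [hs, Units.neg_smul, one_smul]
      have h3 : l1 (-∏ i, (Matrix.map M (map (Int.castRingHom ℝ))) (g i) i) =
          l1 (∏ i, (Matrix.map M (map (Int.castRingHom ℝ))) (g i) i) := by
        unfold l1
        rw [support_neg]
        exact Finset.sum_congr rfl fun s _ => by rw [coeff_neg, abs_neg]
      rw [h3]; exact h2
  refine (Finset.sum_le_sum fun g _ => h1 g).trans ?_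
  rw [Finset.sum_const, Finset.card_univ, Fintype.card_perm, Fintype.card_fin, nsmul_eq_mul]

lemma degreeOf_det_le {k : ℕ} {M : Matrix (Fin k) (Fin k) (MvPolynomial σ R)} (j : σ) {d : ℕ}
    (h : ∀ i l, (M i l).degreeOf j ≤ d) : M.det.degreeOf j ≤ k * d := by
  rw [Matrix.det_apply]
  refine (degreeOf_sum_le _ _ _).trans (Finset.sup_le fun g _ => ?_)
  have h1 : degreeOf j (∏ i, M (g i) i) ≤ k * d := by
    refine (degreeOf_prod_le _ _ _).trans ?_
    refine (Finset.sum_le_sum fun i _ => h (g i) i).trans ?_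
    simp
  rcases Int.units_eq_one_or (Equiv.Perm.sign g) with hs | hs
  · rw [hs, one_smul]; exact h1
  · rw [hs, Units.neg_smul, one_smul, degreeOf_neg]; exact h1

end det

/-! ### The numerical inequality -/

lemma sum_max_lower {k r₀ : ℕ} {ε : ℝ} (hε : 0 < ε) (hε1 : ε ≤ 1) (hr : 1 ≤ r₀)
    (hk : k ≤ r₀ + 1) :
    (k : ℝ) * (ε ^ 2 / 32) ≤ ∑ l : Fin k, max 0 (ε / 2 - (l : ℝ) / r₀) := by
  have hr0 : (0 : ℝ) < r₀ := by exact_mod_cast hr
  rw [Fin.sum_univ_eq_sum_range (fun l => max 0 (ε / 2 - (l : ℝ) / r₀)) k]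
  set N := min k (⌊ε / 4 * r₀⌋₊ + 1) with hN
  have hNk : N ≤ k := min_le_left _ _
  have h1 : ∑ l ∈ Finset.range N, max 0 (ε / 2 - (l : ℝ) / r₀) ≤
      ∑ l ∈ Finset.range k, max 0 (ε / 2 - (l : ℝ) / r₀) := by
    refine Finset.sum_le_sum_of_subset_of_nonneg ?_ fun _ _ _ => le_max_left _ _
    exact Finset.range_subset_range.2 hNk
  have h2 : ∀ l ∈ Finset.range N, ε / 4 ≤ max 0 (ε / 2 - (l : ℝ) / r₀) := by
    intro l hl
    rw [Finset.mem_range] at hl
    have h3 : l ≤ ⌊ε / 4 * r₀⌋₊ := Nat.lt_succ_iff.1 (hl.trans_le (min_le_right _ _))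
    have h4 : (l : ℝ) ≤ ε / 4 * r₀ := (Nat.le_floor_iff (by positivity)).1 h3
    have h5 : (l : ℝ) / r₀ ≤ ε / 4 := by rwa [div_le_iff₀ hr0]
    refine le_trans ?_ (le_max_right _ _)
    linarith
  have h3 : (N : ℝ) * (ε / 4) ≤ ∑ l ∈ Finset.range N, max 0 (ε / 2 - (l : ℝ) / r₀) := by
    have := Finset.card_nsmul_le_sum (Finset.range N)
      (fun l => max 0 (ε / 2 - (l : ℝ) / r₀)) (ε / 4) h2
    rwa [Finset.card_range, nsmul_eq_mul] at this
  have h4 : (k : ℝ) * (ε / 8) ≤ N := by
    have hk0 : (0 : ℝ) ≤ k := Nat.cast_nonneg _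
    rw [hN, Nat.cast_min]
    refine le_min ?_ ?_
    · nlinarith
    · have h5 : ε / 4 * r₀ < (⌊ε / 4 * r₀⌋₊ : ℝ) + 1 := Nat.lt_floor_add_one _
      have h6 : (k : ℝ) ≤ 2 * r₀ := by
        have : (k : ℝ) ≤ r₀ + 1 := by exact_mod_cast hk
        have h7 : (1 : ℝ) ≤ r₀ := by exact_mod_cast hr
        linarith
      push_cast
      nlinarith
  calc (k : ℝ) * (ε ^ 2 / 32) = (k : ℝ) * (ε / 8) * (ε / 4) := by ring
    _ ≤ (N : ℝ) * (ε / 4) := mul_le_mul_of_nonneg_right h4 (by positivity)
    _ ≤ _ := h3.trans h1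

/-! ### The height of the determinant -/

lemma log_l1Z_det_le {k r₀ D : ℕ} {L : ℝ} {σ : Type*}
    {M : Matrix (Fin k) (Fin k) (MvPolynomial σ ℤ)} (hk1 : 1 ≤ k) (hk : k ≤ r₀ + 1)
    (hrD : r₀ ≤ D) (hL : 1 ≤ L)
    (h : ∀ i l, l1Z (M i l) ≤ 2 ^ D * L) (hdet : M.det ≠ 0) :
    Real.log (l1Z M.det) ≤ k * (Real.log L + 2 * D) := by
  have hW := one_le_l1Z hdet
  have hk0 : (0 : ℝ) < k := by exact_mod_cast hk1
  have hB : (0 : ℝ) < 2 ^ D * L := by positivity
  have h1 := Real.log_le_log (by linarith) (l1Z_det_le h)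
  have hfac : (0 : ℝ) < k.factorial := by exact_mod_cast Nat.factorial_pos k
  rw [Real.log_mul hfac.ne' (by positivity), Real.log_pow, Real.log_mul (by positivity)
    (by linarith), Real.log_pow] at h1
  have h2 : Real.log (k.factorial : ℝ) ≤ k * Real.log k := by
    rw [← Real.log_pow]
    refine Real.log_le_log hfac ?_
    exact_mod_cast Nat.factorial_le_pow k
  have h3 : Real.log (k : ℝ) ≤ r₀ := by
    have := Real.log_le_sub_one_of_pos hk0
    have h4 : (k : ℝ) ≤ r₀ + 1 := by exact_mod_cast hk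
    linarith
  have h4 : (r₀ : ℝ) ≤ D := by exact_mod_cast hrD
  have h5 : Real.log 2 ≤ 1 := by
    have := Real.log_le_sub_one_of_pos (show (0 : ℝ) < 2 by norm_num)
    linarith
  have hD : (0 : ℝ) ≤ D := Nat.cast_nonneg _
  have h6 : (k : ℝ) * Real.log k ≤ k * D := mul_le_mul_of_nonneg_left (h3.trans h4) hk0.le
  have h7 : (D : ℝ) * Real.log 2 ≤ D := by nlinarith
  nlinarith

/-! ### Orders of the entries -/

lemma wt_cons {m : ℕ} (r : Fin (m + 1) → ℕ) (b : ℕ) (s : Fin m →₀ ℕ) :
    wt (fun i => 1 / (r i : ℝ)) (s.cons b) =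
      (b : ℝ) / r 0 + ∑ j : Fin m, (s j : ℝ) / r j.succ := by
  rw [wt_eq_sum, Fin.sum_univ_succ]
  simp only [Finsupp.cons_zero, Finsupp.cons_succ, mul_one_div]

/-- **Roth's lemma**: an integer polynomial of small height cannot vanish to high weighted order at
a point whose coordinates are rational numbers with large denominators, if the degrees are rapidly
increasing. -/
theorem roth_lemma (m : ℕ) (ε : ℝ) (hε : 0 < ε) :
    ∃ δ : ℝ, 0 < δ ∧ ∃ K : ℝ, 0 < K ∧ ∀ r : Fin m → ℕ, (∀ i, 1 ≤ r i) →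
      (∀ i j, i < j → (r i : ℝ) ≤ δ * r j) →
      ∀ f : MvPolynomial (Fin m) ℤ, f ≠ 0 → (∀ i, f.degreeOf i ≤ r i) →
      ∀ ξ : Fin m → ℚ,
      (∀ i, K * (Real.log (l1Z f) + ∑ j, (r j : ℝ)) ≤ r i * Real.log ((ξ i).den : ℝ)) →
      ∃ s ∈ (shift ξ (map (Int.castRingHom ℚ) f)).support, ∑ i, (s i : ℝ) / r i ≤ ε := by
  classical
  induction m generalizing ε with
  | zero =>
    refine ⟨1, one_pos, 1, one_pos, fun r _ _ f hf _ ξ _ => ?_⟩
    have h1 : shift ξ (map (Int.castRingHom ℚ) f) ≠ 0 := by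
      apply shift_ne_zero
      rw [Ne, map_eq_zero_iff _ (map_injective (Int.castRingHom ℚ) Int.cast_injective)]
      exact hf
    obtain ⟨s, hs⟩ := support_nonempty.2 h1
    exact ⟨s, hs, by simpa using hε.le⟩
  | succ m ih =>
    -- we may assume that `ε ≤ 1`
    wlog hε1 : ε ≤ 1 generalizing ε
    · obtain ⟨δ, hδ, K, hK, h⟩ := this 1 one_pos le_rfl
      refine ⟨δ, hδ, K, hK, fun r hr hrr f hf hfr ξ hξ => ?_⟩
      obtain ⟨s, hs, hs1⟩ := h r hr hrr f hf hfr ξ hξ
      exact ⟨s, hs, hs1.trans (le_of_not_ge hε1)⟩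
    have hε' : 0 < ε ^ 2 / 128 := by positivity
    obtain ⟨δ', hδ', K', hK', IH⟩ := ih (ε ^ 2 / 128) hε'
    refine ⟨min δ' (ε / 2), lt_min hδ' (by positivity), max (3 * K') (256 / ε ^ 2),
      lt_max_of_lt_left (by positivity), fun r hr hrr f hf hfr ξ hξ => ?_⟩
    set K := max (3 * K') (256 / ε ^ 2) with hKdef
    have hK3 : 3 * K' ≤ K := le_max_left _ _
    have hK2 : 256 / ε ^ 2 ≤ K := le_max_right _ _
    have hKpos : 0 < K := lt_of_lt_of_le (by positivity) hK3
    by_contra hcon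
    push Not at hcon
    -- notation
    set w : Fin (m + 1) → ℝ := fun i => 1 / (r i : ℝ) with hw
    have hrpos : ∀ i, (0 : ℝ) < r i := fun i => by exact_mod_cast hr i
    have hwpos : ∀ i, 0 ≤ w i := fun i => by rw [hw]; have := hrpos i; positivity
    set D : ℕ := ∑ i, r i with hD
    have hDr : (D : ℝ) = ∑ i, (r i : ℝ) := by rw [hD]; push_cast; rfl
    have hrD : ∀ i, r i ≤ D := fun i => Finset.single_le_sum (fun _ _ => Nat.zero_le _)
      (Finset.mem_univ i)
    have hD1 : (1 : ℝ) ≤ D := by exact_mod_cast (hr 0).trans (hrD 0)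
    set L := l1Z f with hLdef
    have hL1 : 1 ≤ L := one_le_l1Z hf
    have hlogL : 0 ≤ Real.log L := Real.log_nonneg hL1
    set F : MvPolynomial (Fin (m + 1)) ℚ := map (Int.castRingHom ℚ) f with hF
    have hF0 : F ≠ 0 := by
      rw [hF, Ne, map_eq_zero_iff _ (map_injective (Int.castRingHom ℚ) Int.cast_injective)]
      exact hf
    have hordF : Ord w ε (shift ξ F) := by
      intro s hs
      refine (hcon s hs).le.trans (le_of_eq ?_)
      rw [wt_eq_sum]
      exact Finset.sum_congr rfl fun i _ => by rw [hw, mul_one_div]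
    have hFdeg : F.degreeOf 0 ≤ r 0 := by
      refine le_trans ?_ (hfr 0)
      rw [hF, degreeOf_le_iff]
      intro s hs
      have : s ∈ f.support := support_map_subset _ _ hs
      exact degreeOf_le_iff.1 le_rfl s this
    obtain ⟨k, hk1, hkr, μ, hμ, U, V, hU, hV, hdet, hdet0⟩ := exists_wronskian F hF0 (r 0) hFdeg
    have hk0 : (0 : ℝ) < k := by exact_mod_cast hk1
    -- the integral Wronskian
    set M : Matrix (Fin k) (Fin k) (MvPolynomial (Fin (m + 1)) ℤ) :=
      Matrix.of fun i l : Fin k => hasse (Finsupp.cons (l : ℕ) (μ i)) f with hM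
    set W := M.det with hW
    have hmapW : map (Int.castRingHom ℚ) W =
        (Matrix.of fun i l : Fin k => hasse (Finsupp.cons (l : ℕ) (μ i)) F).det := by
      rw [hW, RingHom.map_det]
      congr 1
      ext1 i l
      rw [RingHom.mapMatrix_apply, Matrix.map_apply, hM, Matrix.of_apply, Matrix.of_apply, hF,
        hasse_map]
    have hW0 : W ≠ 0 := by
      intro h0
      apply hdet0
      rw [← hmapW, h0, map_zero]
    have hWlog : Real.log (l1Z W) ≤ k * (Real.log L + 2 * D) := by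
      refine log_l1Z_det_le hk1 hkr (hrD 0) hL1 (fun i l => ?_) hW0
      rw [hM, Matrix.of_apply]
      refine l1Z_hasse_le _ _ D fun s hs => ?_
      exact Finset.sum_le_sum fun i _ => (degreeOf_le_iff.1 (hfr i)) s hs
    have hWdeg : ∀ i, W.degreeOf i ≤ k * r i := fun i => by
      refine degreeOf_det_le i fun a l => ?_
      rw [hM, Matrix.of_apply]
      exact (degreeOf_hasse_le _ _ _).trans (hfr i)
    obtain ⟨U₁, hU₁0, hU₁l, hU₁d, b, hb, hsupp⟩ := factor_end W hW0 U V (hmapW.trans hdet) ξ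
    -- the height condition
    have hden : ∀ i, 0 < Real.log ((ξ i).den : ℝ) := by
      intro i
      have h1 : 0 < K * (Real.log L + ∑ j, (r j : ℝ)) := by
        rw [← hDr]
        exact mul_pos hKpos (by linarith)
      exact (mul_pos_iff_of_pos_left (hrpos i)).1 (h1.trans_le (hξ i))
    have hIH := IH (fun i => k * r i.succ) (fun i => Nat.mul_pos hk1 (hr _))
      (fun i j hij => by
        have h1 := hrr i.succ j.succ (Fin.succ_lt_succ_iff.2 hij)
        have h2 : min δ' (ε / 2) * (r j.succ : ℝ) ≤ δ' * r j.succ :=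
          mul_le_mul_of_nonneg_right (min_le_left _ _) (hrpos _).le
        push_cast
        have h3 := mul_le_mul_of_nonneg_left (h1.trans h2) hk0.le
        linarith) U₁ hU₁0 (fun i => (hU₁d i).trans (hWdeg _)) (fun i => ξ i.succ)
      (fun i => by
        have h1 := hξ i.succ
        have h2 : Real.log (l1Z U₁) ≤ k * (Real.log L + 2 * D) :=
          (Real.log_le_log (by linarith [one_le_l1Z hU₁0]) hU₁l).trans hWlog
        have h3 : ∑ j : Fin m, ((k * r j.succ : ℕ) : ℝ) ≤ k * D := by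
          rw [hDr, Fin.sum_univ_succ, mul_add, Finset.mul_sum]
          push_cast
          have := mul_pos hk0 (hrpos 0)
          linarith
        have h4 : K' * (Real.log (l1Z U₁) + ∑ j : Fin m, ((k * r j.succ : ℕ) : ℝ)) ≤
            K' * (k * (Real.log L + 3 * D)) :=
          mul_le_mul_of_nonneg_left (by linarith) hK'.le
        have h5 : K' * (k * (Real.log L + 3 * D)) ≤ k * (K * (Real.log L + D)) := by
          have h6 : K' * (Real.log L + 3 * D) ≤ 3 * K' * (Real.log L + D) := by nlinarith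
          have h7 : 3 * K' * (Real.log L + D) ≤ K * (Real.log L + D) :=
            mul_le_mul_of_nonneg_right hK3 (by linarith)
          have h8 := mul_le_mul_of_nonneg_left (h6.trans h7) hk0.le
          linarith
        rw [← hDr] at h1
        have h9 := mul_le_mul_of_nonneg_left h1 hk0.le
        push_cast
        push_cast at h4
        linarith)
    obtain ⟨s', hs', hs'w⟩ := hIH
    have hmem := hsupp s' hs'
    -- upper bound for the weight
    have hsum : ∑ j : Fin m, (s' j : ℝ) / r j.succ ≤ k * (ε ^ 2 / 128) := by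
      have h1 : ∑ j : Fin m, (s' j : ℝ) / r j.succ =
          k * ∑ j : Fin m, (s' j : ℝ) / ((k * r j.succ : ℕ) : ℝ) := by
        rw [Finset.mul_sum]
        refine Finset.sum_congr rfl fun j _ => ?_
        push_cast
        have := hrpos j.succ
        field_simp
      rw [h1]
      exact mul_le_mul_of_nonneg_left hs'w hk0.le
    have hbw : (b : ℝ) / r 0 ≤ k * (ε ^ 2 / 128) := by
      have h1 := hξ 0
      rw [← hDr] at h1
      have h2 : (b : ℝ) * Real.log ((ξ 0).den : ℝ) ≤ 2 * k * (Real.log L + D) := by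
        refine (hb.trans hWlog).trans ?_
        nlinarith
      have h3 : 256 / ε ^ 2 * (Real.log L + D) ≤ r 0 * Real.log ((ξ 0).den : ℝ) :=
        (mul_le_mul_of_nonneg_right hK2 (by linarith)).trans h1
      have h4 : Real.log L + D ≤ ε ^ 2 / 256 * (r 0 * Real.log ((ξ 0).den : ℝ)) := by
        have h5 := mul_le_mul_of_nonneg_left h3 (show 0 ≤ ε ^ 2 / 256 by positivity)
        have h6 : ε ^ 2 / 256 * (256 / ε ^ 2 * (Real.log L + D)) = Real.log L + D := by
          field_simp
        linarith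
      have h5 : (b : ℝ) * Real.log ((ξ 0).den : ℝ) ≤
          (k * (ε ^ 2 / 128) * r 0) * Real.log ((ξ 0).den : ℝ) := by
        refine h2.trans ?_
        have := mul_le_mul_of_nonneg_left h4 (show 0 ≤ 2 * (k : ℝ) by positivity)
        linarith
      have h6 : (b : ℝ) ≤ k * (ε ^ 2 / 128) * r 0 := le_of_mul_le_mul_right h5 (hden 0)
      rwa [div_le_iff₀ (hrpos 0)]
    -- lower bound for the weight
    have hordW : Ord w (∑ l : Fin k, max 0 (ε / 2 - (l : ℝ) / r 0))
        (shift ξ (map (Int.castRingHom ℚ) W)) := by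
      have h1 : shift ξ (map (Int.castRingHom ℚ) W) =
          (Matrix.of fun i l : Fin k => shift ξ (hasse (Finsupp.cons (l : ℕ) (μ i)) F)).det := by
        rw [hmapW]
        unfold shift
        rw [AlgHom.map_det]
        rfl
      rw [h1]
      refine Ord.det fun i l => ?_
      rw [Matrix.of_apply]
      rcases le_total (ε / 2 - (l : ℝ) / r 0) 0 with h2 | h2
      · rw [max_eq_left h2]
        exact fun s _ => wt_nonneg hwpos s
      · rw [max_eq_right h2, ← hasse_shift]
        refine (hordF.hasse _).mono ?_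
        have h3 := wt_cons r (l : ℕ) (μ i)
        rw [← hw] at h3
        rw [h3]
        have h4 : ∑ j : Fin m, ((μ i) j : ℝ) / r j.succ ≤ ε / 2 := by
          have h5 : ∀ j : Fin m, ((μ i) j : ℝ) / r j.succ ≤ (μ i j : ℝ) * (ε / 2 / r 0) := by
            intro j
            have h6 := hrr 0 j.succ (Fin.succ_pos j)
            have h7 : min δ' (ε / 2) * (r j.succ : ℝ) ≤ ε / 2 * r j.succ :=
              mul_le_mul_of_nonneg_right (min_le_right _ _) (hrpos _).le
            rw [div_eq_mul_inv]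
            refine mul_le_mul_of_nonneg_left ?_ (Nat.cast_nonneg _)
            rw [inv_eq_one_div, div_le_div_iff₀ (hrpos _) (hrpos 0)]
            linarith
          refine (Finset.sum_le_sum fun j _ => h5 j).trans ?_
          rw [← Finset.sum_mul]
          have h8 : ∑ j : Fin m, ((μ i j : ℕ) : ℝ) ≤ r 0 := by
            have h9 : ∑ j : Fin m, μ i j ≤ r 0 := (hμ i).trans (by omega)
            exact_mod_cast h9
          calc (∑ j : Fin m, ((μ i j : ℕ) : ℝ)) * (ε / 2 / r 0)
              ≤ r 0 * (ε / 2 / r 0) := mul_le_mul_of_nonneg_right h8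
                (by have := hrpos 0; positivity)
            _ = ε / 2 := by have := hrpos 0; field_simp
        linarith
    have hlow := hordW _ hmem
    have h3 := wt_cons r b s'
    rw [← hw] at h3
    rw [h3] at hlow
    have hnum := sum_max_lower hε hε1 (hr 0) hkr
    have : (k : ℝ) * (ε ^ 2 / 32) ≤ k * (ε ^ 2 / 64) := by linarith
    have h64 : ε ^ 2 / 64 < ε ^ 2 / 32 := by nlinarith [sq_nonneg ε, hε']
    have := mul_lt_mul_of_pos_left h64 hk0
    linarith

end SST
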