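import Pool.Agent.Subspace.Minkowski

/-!
# Successive minima with Davenport's permutation
-/

namespace SST

open Module

section Pivot

variable {d : ℕ}

/-- Gaussian elimination with full row pivoting. -/
lemma pivot_aux (hd : 0 < d) (B : Matrix (Fin d) (Fin d) ℝ) (hB : B.det ≠ 0) :
    ∀ n, n ≤ d → ∃ p : ℕ → Fin d, (∀ l l', l < n → l' < n → p l = p l' → l = l') ∧
      ∀ j, j ≤ n → ∃ c : Fin d → ℕ → ℝ, (∀ i l, |c i l| ≤ 2 ^ j) ∧
        (∀ l l', l < j → l' < j → c (p l) l' = if l = l' then 1 else 0) ∧
        ∀ i, ∀ k : Fin d, k.val < j → B i k = ∑ l ∈ Finset.range j, c i l * B (p l) k := by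
  intro n
  induction n with
  | zero =>
    intro _
    refine ⟨fun _ => ⟨0, hd⟩, by intro l l' h; omega, ?_⟩
    intro j hj
    have hj0 : j = 0 := by omega
    subst hj0
    refine ⟨fun _ _ => 0, by intro i l; simp, by intro l l' h; omega, by intro i k h; omega⟩
  | succ n ih =>
    intro hn
    obtain ⟨p, hp, hc⟩ := ih (by omega)
    obtain ⟨c, hc1, hc2, hc3⟩ := hc n le_rfl
    -- the residuals
    set kn : Fin d := ⟨n, by omega⟩ with hkn
    set r : Fin d → ℝ := fun i => B i kn - ∑ l ∈ Finset.range n, c i l * B (p l) kn with hr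
    have : Nonempty (Fin d) := ⟨kn⟩
    obtain ⟨i0, hi0⟩ := Finite.exists_max fun i => |r i|
    have hr0 : r i0 ≠ 0 := by
      intro h0
      have hall : ∀ i, r i = 0 := by
        intro i
        have := hi0 i
        rw [h0, abs_zero] at this
        exact abs_nonpos_iff.1 this
      -- a nontrivial kernel vector
      let f : (Fin (n + 1) → ℝ) →ₗ[ℝ] (Fin n → ℝ) :=
        Matrix.toLin' (Matrix.of fun (l : Fin n) (k : Fin (n + 1)) => B (p l) ⟨k.val, by omega⟩)
      have hker : LinearMap.ker f ≠ ⊥ := LinearMap.ker_ne_bot_of_finrank_lt (by simp)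
      obtain ⟨t, ht, ht0⟩ := Submodule.exists_mem_ne_zero_of_ne_bot hker
      rw [LinearMap.mem_ker] at ht
      have ht' : ∀ l : Fin n, ∑ k : Fin (n + 1), B (p l) ⟨k.val, by omega⟩ * t k = 0 := by
        intro l
        have := congrFun ht l
        simpa [f, Matrix.toLin'_apply, Matrix.mulVec, dotProduct] using this
      apply hB
      rw [← Matrix.exists_mulVec_eq_zero_iff]
      refine ⟨fun k => if h : k.val < n + 1 then t ⟨k.val, h⟩ else 0, ?_, ?_⟩
      · intro h1
        apply ht0
        ext k
        have h2 := congrFun h1 ⟨k.val, by omega⟩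
        simp only [Pi.zero_apply] at h2
        rw [dif_pos k.2] at h2
        exact h2
      · ext i
        have hrow : ∀ k : Fin (n + 1), B i ⟨k.val, by omega⟩ =
            ∑ l ∈ Finset.range n, c i l * B (p l) ⟨k.val, by omega⟩ := by
          intro k
          by_cases hk : k.val < n
          · exact hc3 i ⟨k.val, by omega⟩ hk
          · have hk' : (⟨k.val, by omega⟩ : Fin d) = kn := by
              apply Fin.ext; simp only [hkn]; omega
            rw [hk']
            have := hall i
            simp only [hr] at this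
            linarith
        have hsum : ∑ k : Fin d, B i k * (if h : k.val < n + 1 then t ⟨k.val, h⟩ else 0) =
            ∑ k : Fin (n + 1), B i ⟨k.val, by omega⟩ * t k := by
          symm
          apply Finset.sum_of_injOn (fun k : Fin (n + 1) => (⟨k.val, by omega⟩ : Fin d))
          · intro a _ b _ hab
            apply Fin.ext
            simpa using hab
          · intro a _; simp
          · intro k _ hk
            rw [dif_neg, mul_zero]
            intro hk'
            apply hk
            simp only [Finset.coe_univ, Set.image_univ, Set.mem_range]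
            exact ⟨⟨k.val, hk'⟩, rfl⟩
          · intro k _
            rw [dif_pos k.2]
        simp only [Matrix.mulVec, dotProduct, Pi.zero_apply]
        rw [hsum]
        calc ∑ k : Fin (n + 1), B i ⟨k.val, by omega⟩ * t k
            = ∑ k : Fin (n + 1), ∑ l ∈ Finset.range n, c i l * (B (p l) ⟨k.val, by omega⟩ * t k) := by
              refine Finset.sum_congr rfl fun k _ => ?_
              rw [hrow k, Finset.sum_mul]
              exact Finset.sum_congr rfl fun l _ => by ring
          _ = ∑ l ∈ Finset.range n, c i l * ∑ k : Fin (n + 1), B (p l) ⟨k.val, by omega⟩ * t k := by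
              rw [Finset.sum_comm]
              exact Finset.sum_congr rfl fun l _ => by rw [Finset.mul_sum]
          _ = 0 := by
              apply Finset.sum_eq_zero
              intro l hl
              rw [ht' ⟨l, Finset.mem_range.1 hl⟩, mul_zero]
    have hrp : ∀ l, l < n → r (p l) = 0 := by
      intro l hl
      simp only [hr]
      rw [Finset.sum_eq_single l]
      · rw [hc2 l l hl hl, if_pos rfl]; ring
      · intro l' hl' hne
        rw [hc2 l l' hl (Finset.mem_range.1 hl'), if_neg (Ne.symm hne), zero_mul]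
      · intro h; exact absurd (Finset.mem_range.2 hl) h
    have hpi : ∀ l, l < n → p l ≠ i0 := by
      intro l hl h
      exact hr0 (h ▸ hrp l hl)
    refine ⟨Function.update p n i0, ?_, ?_⟩
    · intro l l' hl hl' h
      by_cases h1 : l = n
      · by_cases h2 : l' = n
        · omega
        · subst h1
          rw [Function.update_self, Function.update_of_ne h2] at h
          exact absurd h.symm (hpi l' (by omega))
      · by_cases h2 : l' = n
        · subst h2
          rw [Function.update_self, Function.update_of_ne h1] at h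
          exact absurd h (hpi l (by omega))
        · rw [Function.update_of_ne h2, Function.update_of_ne h1] at h
          exact hp l l' (by omega) (by omega) h
    · intro j hj
      by_cases hjn : j ≤ n
      · obtain ⟨c', h1, h2, h3⟩ := hc j hjn
        refine ⟨c', h1, ?_, ?_⟩
        · intro l l' hl hl'
          rw [Function.update_of_ne (by omega)]
          exact h2 l l' hl hl'
        · intro i k hk
          rw [h3 i k hk]
          refine Finset.sum_congr rfl fun l hl => ?_
          have := Finset.mem_range.1 hl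
          rw [Function.update_of_ne (by omega)]
      · have hj' : j = n + 1 := by omega
        subst hj'
        have habs : ∀ i, |r i / r i0| ≤ 1 := by
          intro i
          rw [abs_div]
          exact div_le_one_of_le₀ (hi0 i) (abs_nonneg _)
        refine ⟨fun i l => if l = n then r i / r i0 else c i l - r i / r i0 * c i0 l, ?_, ?_, ?_⟩
        · intro i l
          by_cases hl : l = n
          · simp only [hl, if_true]
            refine (habs i).trans ?_
            exact one_le_pow₀ (by norm_num)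
          · simp only [hl, if_false]
            refine (abs_sub _ _).trans ?_
            rw [abs_mul, pow_succ]
            have h1 := hc1 i l
            have h2 := hc1 i0 l
            have h3 := habs i
            have h4 := mul_le_mul h3 h2 (abs_nonneg _) zero_le_one
            linarith
        · intro l l' hl hl'
          by_cases h1 : l = n
          · subst h1
            rw [Function.update_self]
            by_cases h2 : l' = l
            · subst h2
              simp [div_self hr0]
            · simp only [h2, if_false]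
              rw [div_self hr0, if_neg (Ne.symm h2)]; ring
          · rw [Function.update_of_ne h1]
            simp only [hrp l (by omega)]
            by_cases h2 : l' = n
            · subst h2
              simp [h1]
            · simp only [h2, if_false, zero_div, zero_mul, sub_zero]
              exact hc2 l l' (by omega) (by omega)
        · intro i k hk
          rw [Finset.sum_range_succ]
          simp only [if_true, Function.update_self]
          have hs : ∑ l ∈ Finset.range n, (if l = n then r i / r i0 else c i l - r i / r i0 * c i0 l) *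
              B (Function.update p n i0 l) k =
              ∑ l ∈ Finset.range n, c i l * B (p l) k -
                r i / r i0 * ∑ l ∈ Finset.range n, c i0 l * B (p l) k := by
            rw [Finset.mul_sum, ← Finset.sum_sub_distrib]
            refine Finset.sum_congr rfl fun l hl => ?_
            have hl' := Finset.mem_range.1 hl
            rw [if_neg (by omega), Function.update_of_ne (by omega)]
            ring
          rw [hs]
          by_cases hkn' : k.val < n
          · rw [← hc3 i k hkn', ← hc3 i0 k hkn']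
            ring
          · have hk' : k = kn := by
              apply Fin.ext; simp only [hkn]; omega
            subst hk'
            have h1 : ∑ l ∈ Finset.range n, c i l * B (p l) kn = B i kn - r i := by
              simp only [hr]; ring
            have h2 : ∑ l ∈ Finset.range n, c i0 l * B (p l) kn = B i0 kn - r i0 := by
              simp only [hr]; ring
            rw [h1, h2]
            field_simp
            ring

/-- Davenport's permutation for an invertible matrix. -/
lemma pivot (B : Matrix (Fin d) (Fin d) ℝ) (hB : B.det ≠ 0) :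
    ∃ π : Equiv.Perm (Fin d), ∀ j, ∀ t : Fin d → ℝ, (∀ i, j < i → t i = 0) → ∀ i, ∃ l, l ≤ j ∧
      |∑ k, B (π i) k * t k| ≤ (d * 2 ^ d) * |∑ k, B (π l) k * t k| := by
  rcases Nat.eq_zero_or_pos d with h0 | hd
  · subst h0
    exact ⟨1, fun j => j.elim0⟩
  obtain ⟨p, hp, hc⟩ := pivot_aux hd B hB d le_rfl
  have hinj : Function.Injective fun i : Fin d => p i.val := by
    intro a b hab
    exact Fin.ext (hp a b a.2 b.2 hab)
  refine ⟨Equiv.ofBijective _ (Finite.injective_iff_bijective.1 hinj), ?_⟩
  intro j t ht i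
  obtain ⟨c, hc1, -, hc3⟩ := hc (j.val + 1) (by omega)
  simp only [Equiv.ofBijective_apply]
  set q : Fin d → ℝ := fun l => |∑ k, B (p l.val) k * t k| with hq
  -- the best l
  obtain ⟨l0, hl0, hmax⟩ := Finset.exists_max_image (Finset.univ.filter fun l : Fin d => l ≤ j) q
    ⟨j, by simp⟩
  have hl0' : l0 ≤ j := by simpa using hl0
  refine ⟨l0, hl0', ?_⟩
  have hexp : ∑ k, B (p i.val) k * t k =
      ∑ l ∈ Finset.range (j.val + 1), c (p i.val) l * ∑ k, B (p l) k * t k := by
    calc ∑ k, B (p i.val) k * t k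
        = ∑ k, ∑ l ∈ Finset.range (j.val + 1), c (p i.val) l * (B (p l) k * t k) := by
          refine Finset.sum_congr rfl fun k _ => ?_
          by_cases hk : k ≤ j
          · rw [hc3 (p i.val) k (by have : k.val ≤ j.val := hk; omega), Finset.sum_mul]
            exact Finset.sum_congr rfl fun l _ => by ring
          · rw [ht k (not_le.1 hk)]
            simp
      _ = _ := by
          rw [Finset.sum_comm]
          exact Finset.sum_congr rfl fun l _ => by rw [Finset.mul_sum]
  have hd2 : (2 : ℝ) ^ (j.val + 1) ≤ 2 ^ d := pow_le_pow_right₀ (by norm_num) (by omega)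
  rw [hexp]
  calc |∑ l ∈ Finset.range (j.val + 1), c (p i.val) l * ∑ k, B (p l) k * t k|
      ≤ ∑ l ∈ Finset.range (j.val + 1), |c (p i.val) l * ∑ k, B (p l) k * t k| :=
        Finset.abs_sum_le_sum_abs _ _
    _ ≤ ∑ l ∈ Finset.range (j.val + 1), 2 ^ d * q l0 := by
        refine Finset.sum_le_sum fun l hl => ?_
        have hl' := Finset.mem_range.1 hl
        rw [abs_mul]
        apply mul_le_mul ((hc1 _ _).trans hd2) _ (abs_nonneg _) (by positivity)
        have := hmax ⟨l, by omega⟩ (by
          simp only [Finset.mem_filter, Finset.mem_univ, true_and, Fin.le_def]; omega)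
        exact this
    _ = (j.val + 1 : ℕ) * (2 ^ d * q l0) := by
        rw [Finset.sum_const, Finset.card_range, nsmul_eq_mul]
    _ ≤ d * (2 ^ d * q l0) := by
        apply mul_le_mul_of_nonneg_right
        · exact_mod_cast (show j.val + 1 ≤ d by omega)
        · have : 0 ≤ q l0 := abs_nonneg _
          positivity
    _ = d * 2 ^ d * |∑ k, B (p l0.val) k * t k| := by
        rw [hq]; ring

end Pivot

section Greedy

variable {d : ℕ}

/-- The rational span of the vectors with smaller index. -/
def preSpan (z : Fin d → Fin d → ℤ) (j : Fin d) : Submodule ℚ (Fin d → ℚ) :=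
  Submodule.span ℚ {x : Fin d → ℚ | ∃ i, i < j ∧ x = fun l => (z i l : ℚ)}

lemma preSpan_mono (z : Fin d → Fin d → ℤ) {i j : Fin d} (h : i ≤ j) :
    preSpan z i ≤ preSpan z j :=
  Submodule.span_mono fun _ ⟨k, hk, hx⟩ => ⟨k, lt_of_lt_of_le hk h, hx⟩

lemma preSpan_congr {z z' : Fin d → Fin d → ℤ} {j : Fin d} (h : ∀ i, i < j → z i = z' i) :
    preSpan z j = preSpan z' j := by
  unfold preSpan
  congr 1
  ext x
  constructor
  · rintro ⟨i, hi, rfl⟩
    exact ⟨i, hi, by rw [h i hi]⟩
  · rintro ⟨i, hi, rfl⟩
    exact ⟨i, hi, by rw [h i hi]⟩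

lemma exists_not_mem_preSpan (z : Fin d → Fin d → ℤ) (j : Fin d) :
    ∃ y : Fin d → ℤ, (fun l => (y l : ℚ)) ∉ preSpan z j := by
  classical
  by_contra hcon
  push Not at hcon
  have htop : preSpan z j = ⊤ := by
    rw [eq_top_iff]
    intro x _
    have hx : x = ∑ i, x i • (fun l => (((Pi.single i (1 : ℤ) : Fin d → ℤ) l : ℤ) : ℚ)) := by
      ext l
      simp [Finset.sum_apply, Pi.single_apply]
    rw [hx]
    exact Submodule.sum_mem _ fun i _ => Submodule.smul_mem _ _ (hcon _)
  have hset : {x : Fin d → ℚ | ∃ i, i < j ∧ x = fun l => (z i l : ℚ)} =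
      (((Finset.Iio j).image fun i l => (z i l : ℚ) : Finset (Fin d → ℚ)) : Set (Fin d → ℚ)) := by
    ext x
    simp only [Set.mem_ofPred_eq, Finset.coe_image, Set.mem_image, Finset.coe_Iio, Set.mem_Iio]
    constructor
    · rintro ⟨i, hi, rfl⟩; exact ⟨i, hi, rfl⟩
    · rintro ⟨i, hi, rfl⟩; exact ⟨i, hi, rfl⟩
  have h1 : finrank ℚ (preSpan z j) ≤ j.val := by
    unfold preSpan
    rw [hset]
    refine (finrank_span_finset_le_card _).trans ?_
    refine Finset.card_image_le.trans ?_
    rw [Fin.card_Iio]
  rw [htop, finrank_top, finrank_fintype_fun_eq_card, Fintype.card_fin] at h1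
  omega

lemma finite_small (A : Matrix (Fin d) (Fin d) ℝ) (hA : A.det ≠ 0) (R : ℝ) :
    {y : Fin d → ℤ | ‖A.mulVec fun l => (y l : ℝ)‖ ≤ R}.Finite := by
  set K : ℝ := ∑ l, ∑ k, |A⁻¹ l k| with hK
  apply (Set.finite_Icc (fun _ : Fin d => -⌈K * R⌉) (fun _ => ⌈K * R⌉)).subset
  intro y hy
  simp only [Set.mem_ofPred_eq] at hy
  have hb : ∀ l, |(y l : ℝ)| ≤ K * R := by
    intro l
    have h1 : (fun l => (y l : ℝ)) = A⁻¹.mulVec (A.mulVec fun l => (y l : ℝ)) := by
      rw [Matrix.mulVec_mulVec, Matrix.nonsing_inv_mul _ (isUnit_iff_ne_zero.2 hA),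
        Matrix.one_mulVec]
    have h2 : (y l : ℝ) = ∑ k, A⁻¹ l k * (A.mulVec fun l => (y l : ℝ)) k := congrFun h1 l
    have hR : 0 ≤ R := (norm_nonneg _).trans hy
    calc |(y l : ℝ)| = |∑ k, A⁻¹ l k * (A.mulVec fun l => (y l : ℝ)) k| := by rw [← h2]
      _ ≤ ∑ k, |A⁻¹ l k * (A.mulVec fun l => (y l : ℝ)) k| := Finset.abs_sum_le_sum_abs _ _
      _ ≤ ∑ k, |A⁻¹ l k| * R := by
          refine Finset.sum_le_sum fun k _ => ?_
          rw [abs_mul]
          apply mul_le_mul_of_nonneg_left _ (abs_nonneg _)
          exact (norm_le_pi_norm (A.mulVec fun l => (y l : ℝ)) k).trans hy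
      _ = (∑ k, |A⁻¹ l k|) * R := by rw [Finset.sum_mul]
      _ ≤ K * R := by
          apply mul_le_mul_of_nonneg_right _ hR
          exact Finset.single_le_sum (f := fun l => ∑ k, |A⁻¹ l k|)
            (fun i _ => Finset.sum_nonneg fun k _ => abs_nonneg _) (Finset.mem_univ l)
  refine ⟨fun l => ?_, fun l => ?_⟩
  · have h1 := (abs_le.1 (hb l)).1
    have h2 := Int.le_ceil (K * R)
    have : (-(⌈K * R⌉ : ℤ) : ℝ) ≤ y l := by linarith
    exact_mod_cast this
  · have h1 := (abs_le.1 (hb l)).2
    have h2 := Int.le_ceil (K * R)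
    have : (y l : ℝ) ≤ (⌈K * R⌉ : ℤ) := by linarith
    exact_mod_cast this

/-- Greedy choice of the integer vectors. -/
lemma greedy (A : Matrix (Fin d) (Fin d) ℝ) (hA : A.det ≠ 0) :
    ∀ n, n ≤ d → ∃ z : Fin d → Fin d → ℤ, ∀ j : Fin d, j.val < n →
      (fun l => (z j l : ℚ)) ∉ preSpan z j ∧
      ∀ y : Fin d → ℤ, (fun l => (y l : ℚ)) ∉ preSpan z j →
        ‖A.mulVec fun l => (z j l : ℝ)‖ ≤ ‖A.mulVec fun l => (y l : ℝ)‖ := by
  classical
  intro n
  induction n with
  | zero => intro _; exact ⟨0, fun j hj => absurd hj (by omega)⟩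
  | succ n ih =>
    intro hn
    obtain ⟨z, hz⟩ := ih (by omega)
    set j0 : Fin d := ⟨n, by omega⟩ with hj0
    obtain ⟨y0, hy0⟩ := exists_not_mem_preSpan z j0
    have hfin : {y : Fin d → ℤ | ‖A.mulVec fun l => (y l : ℝ)‖ ≤ ‖A.mulVec fun l => (y0 l : ℝ)‖ ∧
        (fun l => (y l : ℚ)) ∉ preSpan z j0}.Finite :=
      (finite_small A hA _).subset fun y hy => hy.1
    obtain ⟨y1, ⟨hy1a, hy1b⟩, hy1⟩ := Set.exists_min_image _
      (fun y : Fin d → ℤ => ‖A.mulVec fun l => (y l : ℝ)‖) hfin ⟨y0, le_rfl, hy0⟩
    refine ⟨Function.update z j0 y1, ?_⟩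
    intro j hj
    have hjle : j ≤ j0 := by rw [Fin.le_def]; simp only [hj0]; omega
    have hspan : preSpan (Function.update z j0 y1) j = preSpan z j := by
      apply preSpan_congr
      intro i hi
      rw [Function.update_of_ne (ne_of_lt (lt_of_lt_of_le hi hjle))]
    rw [hspan]
    by_cases hjj : j = j0
    · subst hjj
      rw [Function.update_self]
      refine ⟨hy1b, ?_⟩
      intro y hy
      by_cases hle : ‖A.mulVec fun l => (y l : ℝ)‖ ≤ ‖A.mulVec fun l => (y0 l : ℝ)‖
      · exact hy1 y ⟨hle, hy⟩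
      · exact hy1a.trans (not_le.1 hle).le
    · rw [Function.update_of_ne hjj]
      apply hz j
      have : j.val ≠ n := fun h => hjj (Fin.ext (by simp only [hj0]; exact h))
      omega

/-- The last nonzero coefficient. -/
lemma exists_last {t : Fin d → ℚ} (ht : t ≠ 0) : ∃ j, t j ≠ 0 ∧ ∀ i, j < i → t i = 0 := by
  classical
  have hne : (Finset.univ.filter fun i => t i ≠ 0).Nonempty := by
    obtain ⟨i, hi⟩ := Function.ne_iff.1 ht
    exact ⟨i, by simpa using hi⟩
  refine ⟨(Finset.univ.filter fun i => t i ≠ 0).max' hne, ?_, ?_⟩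
  · have := Finset.max'_mem _ hne
    simpa using this
  · intro i hi
    by_contra h
    have := Finset.le_max' (Finset.univ.filter fun i => t i ≠ 0) i (by simpa using h)
    exact absurd hi (not_lt.2 this)

lemma last_mem_preSpan {z : Fin d → Fin d → ℤ} {t : Fin d → ℚ} {j : Fin d} (hj : t j ≠ 0)
    (ht : ∀ i, j < i → t i = 0) (h : (fun l => ∑ i, t i * (z i l : ℚ)) ∈ preSpan z j) :
    (fun l => (z j l : ℚ)) ∈ preSpan z j := by
  classical
  have h1 : (fun l => (z j l : ℚ)) = (t j)⁻¹ • ((fun l => ∑ i, t i * (z i l : ℚ)) -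
      ∑ i ∈ Finset.Iio j, t i • (fun l => (z i l : ℚ))) := by
    ext l
    simp only [Pi.smul_apply, Pi.sub_apply, Finset.sum_apply, smul_eq_mul]
    have h2 : ∑ i, t i * (z i l : ℚ) = t j * z j l + ∑ i ∈ Finset.Iio j, t i * (z i l : ℚ) := by
      rw [← Finset.sum_subset (Finset.subset_univ (insert j (Finset.Iio j))),
        Finset.sum_insert (by simp)]
      intro i _ hi
      rw [ht i, zero_mul]
      simp only [Finset.mem_insert, Finset.mem_Iio, not_or, not_lt] at hi
      exact lt_of_le_of_ne hi.2 (Ne.symm hi.1)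
    rw [h2]
    field_simp
    ring
  rw [h1]
  apply Submodule.smul_mem
  apply Submodule.sub_mem _ h
  apply Submodule.sum_mem
  intro i hi
  apply Submodule.smul_mem
  exact Submodule.subset_span ⟨i, Finset.mem_Iio.1 hi, rfl⟩

end Greedy

/-- Successive minima `μ` (of the norm `max_i |A_i z|`), integer vectors `z j` attaining them and a
permutation `π` of the forms such that on the real span of `z 0, …, z j` all forms are controlled by
the forms `A_{π 0}, …, A_{π j}`. -/
theorem succ_minima (d : ℕ) : ∃ C : ℝ, 1 ≤ C ∧ ∀ A : Matrix (Fin d) (Fin d) ℝ, A.det ≠ 0 →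
    ∃ (z : Fin d → Fin d → ℤ) (μ : Fin d → ℝ) (π : Equiv.Perm (Fin d)),
      (Matrix.of z).det ≠ 0 ∧ Monotone μ ∧ (∀ j, 0 < μ j) ∧
      (∀ j i, |∑ l, A i l * (z j l : ℝ)| ≤ μ j) ∧
      (∀ j, ∀ y : Fin d → ℤ,
        (fun l => (y l : ℚ)) ∉ Submodule.span ℚ {x : Fin d → ℚ | ∃ i, i < j ∧ x = fun l => (z i l : ℚ)} →
        ∃ i, μ j ≤ |∑ l, A i l * (y l : ℝ)|) ∧
      |A.det| ≤ C * ∏ j, μ j ∧ ∏ j, μ j ≤ C * |A.det| ∧
      (∀ j, ∀ t : Fin d → ℝ, (∀ i, j < i → t i = 0) → ∀ i, ∃ l, l ≤ j ∧
        |∑ k, A (π i) k * ∑ i', t i' * (z i' k : ℝ)| ≤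
          C * |∑ k, A (π l) k * ∑ i', t i' * (z i' k : ℝ)|) := by
  -- the pivot constant
  set C1 : ℝ := d * 2 ^ d + 1 with hC1
  have hC1' : 1 ≤ C1 := by
    have : (0 : ℝ) ≤ d * 2 ^ d := by positivity
    linarith
  have hC2 : 1 ≤ (2 * C1) ^ d := one_le_pow₀ (by linarith)
  refine ⟨(d.factorial : ℝ) * C1 * (2 * C1) ^ d, ?_, ?_⟩
  · have h1 : (1 : ℝ) ≤ d.factorial := by exact_mod_cast Nat.one_le_iff_ne_zero.2 (Nat.factorial_ne_zero d)
    calc (1 : ℝ) ≤ d.factorial * C1 := one_le_mul_of_one_le_of_one_le h1 hC1'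
      _ ≤ _ := le_mul_of_one_le_right (by positivity) hC2
  intro A hA
  obtain ⟨z, hz⟩ := greedy A hA d le_rfl
  have hz1 : ∀ j, (fun l => (z j l : ℚ)) ∉ preSpan z j := fun j => (hz j j.2).1
  have hz2 : ∀ j, ∀ y : Fin d → ℤ, (fun l => (y l : ℚ)) ∉ preSpan z j →
        ‖A.mulVec fun l => (z j l : ℝ)‖ ≤ ‖A.mulVec fun l => (y l : ℝ)‖ := fun j => (hz j j.2).2
  set μ : Fin d → ℝ := fun j => ‖A.mulVec fun l => (z j l : ℝ)‖ with hμ
  -- the integer matrix is invertible
  have hdetQ : ((Matrix.of z).map (Int.castRingHom ℚ)).det ≠ 0 := by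
    intro h0
    obtain ⟨v, hv0, hv⟩ := Matrix.exists_vecMul_eq_zero_iff.2 h0
    obtain ⟨j, hj, hj'⟩ := exists_last hv0
    apply hz1 j
    apply last_mem_preSpan hj hj'
    have h1 : (fun l => ∑ i, v i * (z i l : ℚ)) = 0 := by
      ext l
      have := congrFun hv l
      simpa [Matrix.vecMul, dotProduct] using this
    rw [h1]
    exact Submodule.zero_mem _
  have hdetcast : ((Matrix.of z).map (Int.castRingHom ℚ)).det = ((Matrix.of z).det : ℚ) := by
    have := RingHom.map_det (Int.castRingHom ℚ) (Matrix.of z)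
    rw [RingHom.mapMatrix_apply] at this
    rw [← this]
    simp
  have hdetZ : (Matrix.of z).det ≠ 0 := by
    intro h0
    apply hdetQ
    rw [hdetcast, h0]
    simp
  -- the real matrix of the values
  set Zr : Matrix (Fin d) (Fin d) ℝ := (Matrix.of z).map (Int.castRingHom ℝ) with hZr
  have hZrdet : Zr.det = ((Matrix.of z).det : ℝ) := by
    have := RingHom.map_det (Int.castRingHom ℝ) (Matrix.of z)
    rw [RingHom.mapMatrix_apply] at this
    rw [hZr, ← this]
    simp
  set B : Matrix (Fin d) (Fin d) ℝ := A * Zr.transpose with hB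
  have hBapp : ∀ i j, B i j = ∑ l, A i l * (z j l : ℝ) := by
    intro i j
    rw [hB, Matrix.mul_apply]
    simp [hZr]
  have hBdet : B.det = A.det * ((Matrix.of z).det : ℝ) := by
    rw [hB, Matrix.det_mul, Matrix.det_transpose, hZrdet]
  have hB0 : B.det ≠ 0 := by
    rw [hBdet]
    exact mul_ne_zero hA (by exact_mod_cast hdetZ)
  obtain ⟨π, hπ⟩ := pivot B hB0
  have hle : ∀ j i, |∑ l, A i l * (z j l : ℝ)| ≤ μ j := fun j i =>
    norm_le_pi_norm (A.mulVec fun l => (z j l : ℝ)) i
  have hpos : ∀ j, 0 < μ j := by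
    intro j
    rw [hμ]
    simp only
    rw [norm_pos_iff]
    intro h0
    apply hz1 j
    have h1 : (fun l => (z j l : ℝ)) = 0 := by
      rw [← Matrix.one_mulVec (fun l => (z j l : ℝ)),
        ← Matrix.nonsing_inv_mul _ (isUnit_iff_ne_zero.2 hA), ← Matrix.mulVec_mulVec, h0,
        Matrix.mulVec_zero]
    have h2 : (fun l => (z j l : ℚ)) = 0 := by
      ext l
      have := congrFun h1 l
      simp only [Pi.zero_apply, Int.cast_eq_zero] at this ⊢
      exact this
    rw [h2]
    exact Submodule.zero_mem _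
  have hmono : Monotone μ := by
    intro i j hij
    exact hz2 i (z j) fun h => hz1 j (preSpan_mono z hij h)
  have hmin : ∀ j, ∀ y : Fin d → ℤ, (fun l => (y l : ℚ)) ∉ preSpan z j →
      ∃ i, μ j ≤ |∑ l, A i l * (y l : ℝ)| := by
    intro j y hy
    by_contra hcon
    push Not at hcon
    have h1 := hz2 j y hy
    have h2 : ‖A.mulVec fun l => (y l : ℝ)‖ < μ j := by
      rw [pi_norm_lt_iff (hpos j)]
      exact hcon
    exact absurd h2 (not_lt.2 h1)
  have hCbig : C1 ≤ (d.factorial : ℝ) * C1 * (2 * C1) ^ d := by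
    have h1 : (1 : ℝ) ≤ d.factorial := by
      exact_mod_cast Nat.one_le_iff_ne_zero.2 (Nat.factorial_ne_zero d)
    calc C1 ≤ d.factorial * C1 := le_mul_of_one_le_left (by linarith) h1
      _ ≤ _ := le_mul_of_one_le_right (by positivity) hC2
  have hpiv : ∀ j, ∀ t : Fin d → ℝ, (∀ i, j < i → t i = 0) → ∀ i, ∃ l, l ≤ j ∧
        |∑ k, A (π i) k * ∑ i', t i' * (z i' k : ℝ)| ≤
          C1 * |∑ k, A (π l) k * ∑ i', t i' * (z i' k : ℝ)| := by
    intro j t ht i
    obtain ⟨l, hl, h⟩ := hπ j t ht i
    refine ⟨l, hl, ?_⟩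
    have hrw : ∀ i, ∑ k, B i k * t k = ∑ k, A i k * ∑ i', t i' * (z i' k : ℝ) := by
      intro i
      calc ∑ k, B i k * t k = ∑ k, ∑ l, A i l * (z k l : ℝ) * t k := by
            refine Finset.sum_congr rfl fun k _ => ?_
            rw [hBapp, Finset.sum_mul]
        _ = ∑ l, ∑ k, A i l * (z k l : ℝ) * t k := Finset.sum_comm
        _ = _ := by
            refine Finset.sum_congr rfl fun k _ => ?_
            rw [Finset.mul_sum]
            exact Finset.sum_congr rfl fun l _ => by ring
    rw [hrw, hrw] at h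
    refine h.trans ?_
    apply mul_le_mul_of_nonneg_right _ (abs_nonneg _)
    rw [hC1]; linarith
  refine ⟨z, μ, π, hdetZ, hmono, hpos, hle, hmin, ?_, ?_, ?_⟩
  · -- |det A| ≤ d! ∏ μ
    have hone : (1 : ℝ) ≤ |((Matrix.of z).det : ℝ)| := by
      have : (1 : ℤ) ≤ |(Matrix.of z).det| := Int.one_le_abs hdetZ
      exact_mod_cast this
    have h1 : |A.det| ≤ |B.det| := by
      rw [hBdet, abs_mul]
      exact le_mul_of_one_le_right (abs_nonneg _) hone
    have h2 : |B.det| ≤ d.factorial * ∏ j, μ j := by
      rw [Matrix.det_apply]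
      calc |∑ σ : Equiv.Perm (Fin d), Equiv.Perm.sign σ • ∏ i, B (σ i) i|
          ≤ ∑ σ : Equiv.Perm (Fin d), |Equiv.Perm.sign σ • ∏ i, B (σ i) i| :=
            Finset.abs_sum_le_sum_abs _ _
        _ ≤ ∑ _σ : Equiv.Perm (Fin d), ∏ j, μ j := by
            refine Finset.sum_le_sum fun σ _ => ?_
            have h3 : |Equiv.Perm.sign σ • ∏ i, B (σ i) i| = ∏ i, |B (σ i) i| := by
              rw [← Finset.abs_prod]
              rcases Int.units_eq_one_or (Equiv.Perm.sign σ) with h | h <;> rw [h] <;> simp
            rw [h3]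
            refine Finset.prod_le_prod (fun i _ => abs_nonneg _) fun i _ => ?_
            rw [hBapp]
            exact hle i (σ i)
        _ = d.factorial * ∏ j, μ j := by
            rw [Finset.sum_const, Finset.card_univ, Fintype.card_perm, Fintype.card_fin,
              nsmul_eq_mul]
    have h3 : 0 ≤ ∏ j, μ j := Finset.prod_nonneg fun j _ => (hpos j).le
    have h4 : (d.factorial : ℝ) ≤ (d.factorial : ℝ) * C1 * (2 * C1) ^ d := by
      calc (d.factorial : ℝ) ≤ d.factorial * C1 := le_mul_of_one_le_right (by positivity) hC1'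
        _ ≤ _ := le_mul_of_one_le_right (by positivity) hC2
    exact h1.trans (h2.trans (mul_le_mul_of_nonneg_right h4 h3))
  · -- ∏ μ ≤ C |det A|
    rcases Nat.eq_zero_or_pos d with h0 | hd
    · subst h0
      simp [hC1]
    by_contra hcon
    push Not at hcon
    have hC1pos : 0 < C1 := by linarith
    have he : ∀ i, 0 < μ (π.symm i) / (2 * C1) := fun i => div_pos (hpos _) (by linarith)
    have hprod : ∏ i, μ (π.symm i) / (2 * C1) = (∏ j, μ j) / (2 * C1) ^ d := by
      rw [Finset.prod_div_distrib, Finset.prod_const, Finset.card_univ, Fintype.card_fin,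
        Equiv.prod_comp π.symm μ]
    have hlt : |A.det| < ∏ i, μ (π.symm i) / (2 * C1) := by
      rw [hprod, lt_div_iff₀ (by positivity)]
      refine lt_of_le_of_lt ?_ hcon
      have h1 : (1 : ℝ) ≤ d.factorial * C1 := by
        have h1 : (1 : ℝ) ≤ d.factorial := by
          exact_mod_cast Nat.one_le_iff_ne_zero.2 (Nat.factorial_ne_zero d)
        exact one_le_mul_of_one_le_of_one_le h1 hC1'
      calc |A.det| * (2 * C1) ^ d = 1 * (2 * C1) ^ d * |A.det| := by ring
        _ ≤ (d.factorial * C1) * (2 * C1) ^ d * |A.det| := by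
            apply mul_le_mul_of_nonneg_right _ (abs_nonneg _)
            exact mul_le_mul_of_nonneg_right h1 (by positivity)
    obtain ⟨y, hy0, hy⟩ := minkowski_forms hd A hA _ he hlt
    -- rational coordinates of `y`
    set Zq : Matrix (Fin d) (Fin d) ℚ := (Matrix.of z).map (Int.castRingHom ℚ) with hZq
    set t : Fin d → ℚ := Matrix.vecMul (fun l => (y l : ℚ)) Zq⁻¹ with ht
    have hty : Matrix.vecMul t Zq = fun l => (y l : ℚ) := by
      rw [ht, Matrix.vecMul_vecMul, Matrix.nonsing_inv_mul _ (isUnit_iff_ne_zero.2 hdetQ),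
        Matrix.vecMul_one]
    have hty' : ∀ l, ∑ i, t i * (z i l : ℚ) = (y l : ℚ) := by
      intro l
      have := congrFun hty l
      rw [← this]
      simp [Matrix.vecMul, dotProduct, hZq]
    have ht0 : t ≠ 0 := by
      intro h
      apply hy0
      ext l
      have := hty' l
      rw [h] at this
      simp only [Pi.zero_apply, zero_mul, Finset.sum_const_zero] at this
      have h2 : ((y l : ℤ) : ℚ) = ((0 : ℤ) : ℚ) := by rw [← this]; simp
      exact_mod_cast h2
    obtain ⟨j, hj, hj'⟩ := exists_last ht0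
    have hynot : (fun l => (y l : ℚ)) ∉ preSpan z j := by
      intro h
      apply hz1 j
      apply last_mem_preSpan hj hj'
      have : (fun l => ∑ i, t i * (z i l : ℚ)) = fun l => (y l : ℚ) := funext hty'
      rw [this]
      exact h
    obtain ⟨i, hi⟩ := hmin j y hynot
    obtain ⟨l, hl, hll⟩ := hpiv j (fun i => (t i : ℝ)) (fun i hi => by
      rw [hj' i hi]; simp) (π.symm i)
    have hreal : ∀ k, ∑ i', ((t i' : ℚ) : ℝ) * (z i' k : ℝ) = (y k : ℝ) := by
      intro k
      have := hty' k
      have h2 : ((∑ i, t i * (z i k : ℚ) : ℚ) : ℝ) = ((y k : ℚ) : ℝ) := by rw [this]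
      push_cast at h2
      exact h2
    simp only [hreal, Equiv.apply_symm_apply] at hll
    have h1 := hy (π l)
    rw [Equiv.symm_apply_apply, lt_div_iff₀ (by positivity)] at h1
    have h2 := hmono hl
    have h3 := hpos j
    nlinarith
  · intro j t ht i
    obtain ⟨l, hl, h⟩ := hpiv j t ht i
    exact ⟨l, hl, h.trans (mul_le_mul_of_nonneg_right hCbig (abs_nonneg _))⟩

end SST
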