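import Pool.Agent.Subspace.AuxPoly

/-!
# Auxiliary lemmas for the vanishing of the auxiliary polynomial
-/

namespace SST

namespace VanAux

open MvPolynomial

/-! ### Scaling of variables -/

section scale

variable {σ R : Type*} [CommRing R]

lemma bind_scale_monomial (l : σ → R) (s : σ →₀ ℕ) (c : R) :
    bind₁ (fun x => C (l x) * X x) (monomial s c) = monomial s (c * s.prod fun x k => l x ^ k) := by
  rw [bind₁_monomial]
  simp only [mul_pow, Finset.prod_mul_distrib, ← C_pow]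
  rw [← map_prod, ← mul_assoc, ← C_mul, monomial_eq]
  simp only [Finsupp.prod]

lemma coeff_bind_scale (l : σ → R) (F : MvPolynomial σ R) (J : σ →₀ ℕ) :
    coeff J (bind₁ (fun x => C (l x) * X x) F) = coeff J F * J.prod fun x k => l x ^ k := by
  classical
  induction F using MvPolynomial.induction_on' with
  | monomial s c =>
    rw [bind_scale_monomial, coeff_monomial, coeff_monomial]
    split_ifs with h
    · rw [h]
    · simp
  | add p q hp hq =>
    rw [map_add, coeff_add, coeff_add, hp, hq, add_mul]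

lemma coeff_bind_affine (l y : σ → R) (P : MvPolynomial σ R) (J : σ →₀ ℕ) :
    coeff J (bind₁ (fun x => C (l x) * X x + C (y x)) P) =
      coeff J (shift y P) * J.prod fun x k => l x ^ k := by
  rw [← coeff_bind_scale]
  congr 1
  unfold shift
  rw [bind₁_bind₁]
  congr 1
  congr 1
  funext x
  simp

end scale

/-! ### Divisibility of the coefficients -/

section Div

variable {σ : Type*}

/-- every coefficient at `u` is divisible by `b ^ (N - ∑ k u)`. -/
def Dv (b : ℤ) (k : σ → ℕ) (N : ℕ) (F : MvPolynomial σ ℤ) : Prop :=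
  ∀ u : σ →₀ ℕ, b ^ (N - u.sum fun x e => e * k x) ∣ coeff u F

variable {b : ℤ} {k : σ → ℕ} {N N' : ℕ} {F G : MvPolynomial σ ℤ}

lemma ksum_add (k : σ → ℕ) (u v : σ →₀ ℕ) :
    ((u + v).sum fun x e => e * k x) = (u.sum fun x e => e * k x) + v.sum fun x e => e * k x := by
  classical
  rw [Finsupp.sum_add_index']
  · intro i; simp
  · intro i a b; ring

lemma Dv.mono (h : Dv b k N F) (hN : N' ≤ N) : Dv b k N' F := fun u =>
  (pow_dvd_pow b (Nat.sub_le_sub_right hN _)).trans (h u)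

lemma Dv_zero : Dv b k N (0 : MvPolynomial σ ℤ) := fun u => by simp

lemma Dv.add (h : Dv b k N F) (h' : Dv b k N G) : Dv b k N (F + G) := fun u => by
  rw [coeff_add]; exact dvd_add (h u) (h' u)

lemma Dv.sum {ι : Type*} {S : Finset ι} {f : ι → MvPolynomial σ ℤ}
    (h : ∀ i ∈ S, Dv b k N (f i)) : Dv b k N (∑ i ∈ S, f i) := fun u => by
  rw [coeff_sum]
  exact Finset.dvd_sum fun i hi => h i hi u

lemma Dv.mul (h : Dv b k N F) (h' : Dv b k N' G) : Dv b k (N + N') (F * G) := by
  classical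
  intro u
  rw [coeff_mul]
  apply Finset.dvd_sum
  intro p hp
  rw [Finset.HasAntidiagonal.mem_antidiagonal] at hp
  have h1 := mul_dvd_mul (h p.1) (h' p.2)
  rw [← pow_add] at h1
  refine (pow_dvd_pow b ?_).trans h1
  rw [← hp, ksum_add]
  omega

lemma Dv_C (c : ℤ) : Dv b k 0 (C c : MvPolynomial σ ℤ) := fun u => by simp

lemma Dv_one : Dv b k 0 (1 : MvPolynomial σ ℤ) := fun u => by simp

lemma Dv.prod {ι : Type*} {S : Finset ι} {f : ι → MvPolynomial σ ℤ} {t : ι → ℕ}
    (h : ∀ i ∈ S, Dv b k (t i) (f i)) : Dv b k (∑ i ∈ S, t i) (∏ i ∈ S, f i) := by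
  classical
  induction S using Finset.induction_on with
  | empty => simpa using Dv_one
  | insert a S ha ih =>
    rw [Finset.sum_insert ha, Finset.prod_insert ha]
    exact (h a (Finset.mem_insert_self _ _)).mul
      (ih fun i hi => h i (Finset.mem_insert_of_mem hi))

lemma Dv.pow (h : Dv b k N F) (n : ℕ) : Dv b k (n * N) (F ^ n) := by
  induction n with
  | zero => simpa using Dv_one
  | succ n ih =>
    have := ih.mul h
    rw [pow_succ]
    convert this using 1
    ring

lemma Dv_affine (x : σ) {y : ℤ} (hy : b ^ k x ∣ y) : Dv b k (k x) (X x + C y) := by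
  classical
  intro u
  rw [coeff_add, coeff_X, coeff_C]
  apply dvd_add
  · split_ifs with h
    · rw [← h, Finsupp.sum_single_index (by simp)]
      simp
    · simp
  · split_ifs with h
    · rw [← h]
      simpa using hy
    · simp

lemma Dv_shift {y : σ → ℤ} (hy : ∀ x, b ^ k x ∣ y x) {P : MvPolynomial σ ℤ}
    (hP : ∀ s ∈ P.support, N ≤ s.sum fun x e => e * k x) : Dv b k N (shift y P) := by
  classical
  unfold shift
  rw [P.as_sum, map_sum]
  apply Dv.sum
  intro s hs
  rw [bind₁_monomial]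
  have h1 : Dv b k (∑ i ∈ s.support, s i * k i) (∏ i ∈ s.support, (X i + C (y i)) ^ s i) :=
    Dv.prod fun i _ => (Dv_affine i (hy i)).pow _
  have h2 := (Dv_C (b := b) (k := k) (coeff s P)).mul h1
  refine h2.mono ?_
  rw [zero_add]
  exact hP s hs

end Div

/-! ### Homogeneity -/

section Hom

variable {R κ : Type*} [CommRing R] [Fintype κ] {m : ℕ}

/-- the block degree as a weight -/
def blk (x : Fin m × κ) : Fin m → ℕ := Pi.single x.1 1

lemma weight_blk (s : Fin m × κ →₀ ℕ) (h : Fin m) :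
    (Finsupp.weight (blk (κ := κ)) s) h = ∑ i, s (h, i) := by
  classical
  rw [Finsupp.weight_apply, Finsupp.sum_fintype _ _ (by simp), Finset.sum_apply,
    Fintype.sum_prod_type, Finset.sum_eq_single h]
  · simp [blk]
  · intro h' _ hne
    apply Finset.sum_eq_zero
    intro i _
    simp [blk, hne.symm]
  · intro h'; exact absurd (Finset.mem_univ _) h'

lemma hom_lsub (N : Matrix κ κ R) (r : Fin m → ℕ) (P : MvPolynomial (Fin m × κ) R)
    (hP : ∀ s ∈ P.support, ∀ h, ∑ i, s (h, i) = r h) :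
    ∀ s ∈ (lsub N P).support, ∀ h, ∑ i, s (h, i) = r h := by
  classical
  have key : IsWeightedHomogeneous (blk (κ := κ)) (lsub N P) r := by
    unfold lsub
    rw [P.as_sum, map_sum]
    apply IsWeightedHomogeneous.sum
    intro s hs
    rw [bind₁_monomial]
    have h1 : IsWeightedHomogeneous (blk (κ := κ))
        (∏ x ∈ s.support, (∑ j, C (N x.2 j) * X (x.1, j) : MvPolynomial (Fin m × κ) R) ^ s x)
        (∑ x ∈ s.support, s x • blk x) := by
      apply IsWeightedHomogeneous.prod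
      intro x _
      apply IsWeightedHomogeneous.pow
      apply IsWeightedHomogeneous.sum
      intro j _
      have h2 := (isWeightedHomogeneous_C (blk (κ := κ) (m := m)) (N x.2 j)).mul
        (isWeightedHomogeneous_X R (blk (κ := κ) (m := m)) (x.1, j))
      rw [zero_add] at h2
      exact h2
    have h3 := (isWeightedHomogeneous_C (blk (κ := κ) (m := m)) (coeff s P)).mul h1
    rw [zero_add] at h3
    have h4 : (∑ x ∈ s.support, s x • blk (κ := κ) x) = r := by
      funext h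
      rw [← hP s hs h, ← weight_blk, Finsupp.weight_apply]
      rfl
    rw [h4] at h3
    exact h3
  intro s hs h
  rw [← weight_blk, key (mem_support_iff.1 hs)]

end Hom

/-! ### Linear substitutions -/

section Lsub

variable {R S κ τ : Type*} [CommRing R] [CommRing S] [Fintype κ] {m : ℕ}

lemma map_lsub (f : R →+* S) (N : Matrix κ κ R) (P : MvPolynomial (Fin m × κ) R) :
    map f (lsub N P) = lsub (N.map f) (map f P) := by
  unfold lsub
  rw [map_bind₁]
  congr 1
  congr 1
  funext x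
  simp

lemma bind_lsub (g : Fin m × κ → MvPolynomial τ R) (N : Matrix κ κ R)
    (P : MvPolynomial (Fin m × κ) R) :
    bind₁ g (lsub N P) = bind₁ (fun x => ∑ j, C (N x.2 j) * g (x.1, j)) P := by
  unfold lsub
  rw [bind₁_bind₁]
  congr 1
  congr 1
  funext x
  simp

lemma bind_affine_eq [DecidableEq κ] (M N : Matrix κ κ R) (hNM : N * M = 1) (l : Fin m → R)
    (y : Fin m × κ → R) (P : MvPolynomial (Fin m × κ) R) :
    bind₁ (fun x => C (l x.1) * X x + C (y x)) P =
      bind₁ (fun x => C (∑ j, M x.2 j * y (x.1, j)) + ∑ j, C (l x.1 * M x.2 j) * X (x.1, j))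
        (lsub N P) := by
  rw [bind_lsub]
  congr 1
  congr 1
  funext x
  obtain ⟨h, k⟩ := x
  simp only [mul_add, Finset.sum_add_distrib, Finset.mul_sum]
  have h1 : (∑ i, C (N k i) * C (∑ j, M i j * y (h, j)) : MvPolynomial (Fin m × κ) R)
      = C (y (h, k)) := by
    simp only [← C_mul, ← map_sum]
    congr 1
    simp only [Finset.mul_sum]
    rw [Finset.sum_comm]
    have : ∀ j, ∑ i, N k i * (M i j * y (h, j)) = (N * M) k j * y (h, j) := by
      intro j
      rw [Matrix.mul_apply, Finset.sum_mul]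
      exact Finset.sum_congr rfl fun i _ => by ring
    simp only [this, hNM, Matrix.one_apply, ite_mul, one_mul, zero_mul]
    simp
  have h2 : (∑ i, ∑ j, C (N k i) * (C (l h * M i j) * X (h, j)) : MvPolynomial (Fin m × κ) R)
      = C (l h) * X (h, k) := by
    rw [Finset.sum_comm]
    have : ∀ j, (∑ i, C (N k i) * (C (l h * M i j) * X (h, j)) : MvPolynomial (Fin m × κ) R)
        = C (l h * (N * M) k j) * X (h, j) := by
      intro j
      rw [Matrix.mul_apply, Finset.mul_sum, map_sum, Finset.sum_mul]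
      refine Finset.sum_congr rfl fun i _ => ?_
      rw [← mul_assoc, ← C_mul]
      congr 2
      ring
    simp only [this, hNM, Matrix.one_apply]
    rw [Finset.sum_eq_single k]
    · simp
    · intro j _ hj
      rw [if_neg hj.symm]; simp
    · intro hk; exact absurd (Finset.mem_univ _) hk
  rw [h1, h2, add_comm]

end Lsub

/-! ### The archimedean upper bound -/

section Upper

variable {κ : Type} [Fintype κ] {m : ℕ}

lemma prod_le_aux (s : Fin m × κ →₀ ℕ) (r : Fin m → ℕ) (hs : ∀ h, ∑ i, s (h, i) = r h)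
    (g : Fin m × κ → ℝ) (e : Fin m → κ → ℝ) {B : ℝ} (hg : ∀ x, 0 ≤ g x)
    (hgB : ∀ x, g x ≤ B * Real.exp (e x.1 x.2)) :
    ∏ x ∈ s.support, g x ^ s x ≤ B ^ (∑ h, r h) * Real.exp (∑ h, ∑ i, e h i * s (h, i)) := by
  classical
  have h1 : ∏ x ∈ s.support, g x ^ s x = ∏ x, g x ^ s x := by
    have := Finsupp.prod_fintype s (fun x k => g x ^ k) (by simp)
    rw [← this]; rfl
  rw [h1]
  calc ∏ x, g x ^ s x ≤ ∏ x, (B * Real.exp (e x.1 x.2)) ^ s x :=
        Finset.prod_le_prod (fun x _ => pow_nonneg (hg x) _)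
          fun x _ => pow_le_pow_left₀ (hg x) (hgB x) _
    _ = B ^ (∑ h, r h) * Real.exp (∑ h, ∑ i, e h i * s (h, i)) := by
        simp only [mul_pow, Finset.prod_mul_distrib]
        congr 1
        · rw [Finset.prod_pow_eq_pow_sum, Fintype.sum_prod_type]
          congr 1
          exact Finset.sum_congr rfl fun h _ => hs h
        · rw [Fintype.prod_prod_type, Real.exp_sum]
          refine Finset.prod_congr rfl fun h _ => ?_
          rw [Real.exp_sum]
          refine Finset.prod_congr rfl fun i _ => ?_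
          rw [← Real.exp_nat_mul, mul_comm]

omit [Fintype κ] in
lemma coeff_map_real (F : MvPolynomial (Fin m × κ) ℤ) (J : Fin m × κ →₀ ℕ) :
    coeff J (map (Int.castRingHom ℝ) F) = ((coeff J F : ℤ) : ℝ) := by
  rw [coeff_map, eq_intCast]

lemma l1_lsub (N : Matrix κ κ ℝ) {μ : ℝ} (hμ : ∀ i, ∑ j, |N i j| ≤ μ) (r : Fin m → ℕ)
    (P : MvPolynomial (Fin m × κ) ℝ) (hP : ∀ s ∈ P.support, ∀ h, ∑ i, s (h, i) = r h) :
    l1 (lsub N P) ≤ l1 P * μ ^ (∑ h, r h) := by
  unfold lsub
  apply l1_bind₁_le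
  intro s hs
  refine (prod_le_aux s r (hP s hs) _ (fun _ _ => 0) (B := μ) (fun x => l1_nonneg _) ?_).trans ?_
  · intro x
    rw [Real.exp_zero, mul_one]
    refine (l1_sum _ _).trans (le_trans (Finset.sum_le_sum fun j _ => ?_) (hμ x.2))
    refine (l1_mul _ _).trans ?_
    rw [l1_C, l1_X, mul_one]
  · simp

lemma upper_bound [DecidableEq κ] (M : Matrix κ κ ℚ) (hM : M.det ≠ 0) (c : κ → ℝ) {cm : ℝ}
    (hcm : ∀ i, |c i| ≤ cm) (ρ : ℝ) :
    ∃ B : ℝ, 1 ≤ B ∧ ∀ (m : ℕ) (T : Fin m → ℝ) (_ : ∀ h, 0 ≤ T h) (r : Fin m → ℕ)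
      (P : MvPolynomial (Fin m × κ) ℤ) (_ : ∀ s ∈ P.support, ∀ h, ∑ i, s (h, i) = r h) (E : ℝ)
      (_ : ∀ s ∈ (lsub M⁻¹ (map (Int.castRingHom ℚ) P)).support,
        ∑ h, ∑ i, (c i * T h) * s (h, i) ≤ E)
      (y : Fin m × κ → ℤ)
      (_ : ∀ h i, |∑ j, (M i j : ℝ) * y (h, j)| ≤ ρ * Real.exp (c i * T h))
      (J : Fin m × κ →₀ ℕ),
      |((coeff J (shift y P) : ℤ) : ℝ)| ≤
        l1Z P * B ^ (∑ h, r h) * Real.exp E * Real.exp (cm * ∑ h, ∑ i, T h * J (h, i)) := by
  classical
  set N : Matrix κ κ ℝ := (M⁻¹).map (Rat.castHom ℝ) with hN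
  set Mr : Matrix κ κ ℝ := M.map (Rat.castHom ℝ) with hMr
  have hNM : N * Mr = 1 := by
    rw [hN, hMr, ← Matrix.map_mul, Matrix.nonsing_inv_mul M (isUnit_iff_ne_zero.2 hM)]
    simp
  set μ : ℝ := ∑ i, ∑ j, |Mr i j| with hμdef
  set ν : ℝ := 1 + ∑ i, ∑ j, |N i j| with hνdef
  have hμ0 : 0 ≤ μ := Finset.sum_nonneg fun _ _ => Finset.sum_nonneg fun _ _ => abs_nonneg _
  have hμ : ∀ i, ∑ j, |Mr i j| ≤ μ := fun i =>
    Finset.single_le_sum (f := fun i => ∑ j, |Mr i j|)
      (fun _ _ => Finset.sum_nonneg fun _ _ => abs_nonneg _) (Finset.mem_univ i)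
  have hν : ∀ i, ∑ j, |N i j| ≤ ν := fun i =>
    (Finset.single_le_sum (f := fun i => ∑ j, |N i j|)
      (fun _ _ => Finset.sum_nonneg fun _ _ => abs_nonneg _) (Finset.mem_univ i)).trans
      (by rw [hνdef]; linarith)
  have hν1 : 1 ≤ ν := by
    have : 0 ≤ ∑ i, ∑ j, |N i j| :=
      Finset.sum_nonneg fun _ _ => Finset.sum_nonneg fun _ _ => abs_nonneg _
    rw [hνdef]; linarith
  have hB1 : 1 ≤ |ρ| + μ + 1 := by have := abs_nonneg ρ; linarith
  refine ⟨ν * (|ρ| + μ + 1), by nlinarith, ?_⟩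
  intro m T hT r P hhom E hE y hy J
  set Q : MvPolynomial (Fin m × κ) ℝ := lsub N (map (Int.castRingHom ℝ) P) with hQ
  have hQ' : Q = map (Rat.castHom ℝ) (lsub M⁻¹ (map (Int.castRingHom ℚ) P)) := by
    rw [map_lsub, map_map, hQ]
    congr 2
  have hPr : ∀ s ∈ (map (Int.castRingHom ℝ) P).support, ∀ h, ∑ i, s (h, i) = r h := by
    intro s hs
    exact hhom s (support_map_subset _ _ hs)
  have hQhom := hom_lsub N r _ hPr
  have hQE : ∀ s ∈ Q.support, ∑ h, ∑ i, (c i * T h) * s (h, i) ≤ E := by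
    intro s hs
    rw [hQ'] at hs
    exact hE s (support_map_subset _ _ hs)
  -- scaling
  set l : Fin m → ℝ := fun h => Real.exp (-cm * T h) with hl
  have hl0 : ∀ h, 0 < l h := fun h => Real.exp_pos _
  set z : Fin m × κ → ℝ := fun x => ∑ j, Mr x.2 j * (y (x.1, j) : ℝ) with hz
  have hzb : ∀ x : Fin m × κ, |z x| ≤ ρ * Real.exp (c x.2 * T x.1) := by
    intro x
    have := hy x.1 x.2
    simpa [hz, hMr] using this
  have key := bind_affine_eq Mr N hNM l (fun x => (y x : ℝ)) (map (Int.castRingHom ℝ) P)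
  have hco := coeff_bind_affine (fun x : Fin m × κ => l x.1) (fun x => (y x : ℝ))
    (map (Int.castRingHom ℝ) P) J
  have hsh : shift (fun x : Fin m × κ => (y x : ℝ)) (map (Int.castRingHom ℝ) P) =
      map (Int.castRingHom ℝ) (shift y P) := by
    rw [map_shift]
    rfl
  rw [hsh, coeff_map_real] at hco
  have hprod : (J.prod fun x k => l x.1 ^ k) = Real.exp (-(cm * ∑ h, ∑ i, T h * J (h, i))) := by
    rw [Finsupp.prod_fintype _ _ (by simp), Fintype.prod_prod_type, Finset.mul_sum,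
      ← Finset.sum_neg_distrib, Real.exp_sum]
    refine Finset.prod_congr rfl fun h _ => ?_
    rw [Finset.mul_sum, ← Finset.sum_neg_distrib, Real.exp_sum]
    refine Finset.prod_congr rfl fun i _ => ?_
    rw [hl, ← Real.exp_nat_mul]
    congr 1; ring
  have hbd : l1 (bind₁ (fun x : Fin m × κ => C (l x.1) * X x + C ((y x : ℝ)))
      (map (Int.castRingHom ℝ) P)) ≤
      (l1Z P * ν ^ (∑ h, r h)) * ((|ρ| + μ + 1) ^ (∑ h, r h) * Real.exp E) := by
    rw [key]
    refine le_trans (l1_bind₁_le (B := (|ρ| + μ + 1) ^ (∑ h, r h) * Real.exp E) _ _ ?_) ?_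
    · intro s hs
      refine (prod_le_aux s r (hQhom s hs) _ (fun h i => c i * T h) (B := |ρ| + μ + 1)
        (fun x => l1_nonneg _) ?_).trans ?_
      · intro x
        refine (l1_add _ _).trans ?_
        have h1 : l1 (C (∑ j, Mr x.2 j * (y (x.1, j) : ℝ)) : MvPolynomial (Fin m × κ) ℝ) ≤
            |ρ| * Real.exp (c x.2 * T x.1) := by
          rw [l1_C]
          exact (hzb x).trans (mul_le_mul_of_nonneg_right (le_abs_self ρ) (Real.exp_pos _).le)
        have h2 : l1 (∑ j, C (l x.1 * Mr x.2 j) * X (x.1, j) : MvPolynomial (Fin m × κ) ℝ) ≤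
            μ * Real.exp (c x.2 * T x.1) := by
          refine (l1_sum _ _).trans ?_
          calc ∑ j, l1 (C (l x.1 * Mr x.2 j) * X (x.1, j) : MvPolynomial (Fin m × κ) ℝ)
              ≤ ∑ j, l x.1 * |Mr x.2 j| := by
                refine Finset.sum_le_sum fun j _ => ?_
                refine (l1_mul _ _).trans ?_
                rw [l1_C, l1_X, mul_one, abs_mul, abs_of_pos (hl0 _)]
            _ = l x.1 * ∑ j, |Mr x.2 j| := by rw [Finset.mul_sum]
            _ ≤ Real.exp (c x.2 * T x.1) * μ := by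
                refine mul_le_mul ?_ (hμ _) (Finset.sum_nonneg fun _ _ => abs_nonneg _)
                  (Real.exp_pos _).le
                rw [hl]
                refine Real.exp_le_exp.2 ?_
                have := neg_le_of_abs_le (hcm x.2)
                exact mul_le_mul_of_nonneg_right this (hT _)
            _ = μ * Real.exp (c x.2 * T x.1) := mul_comm _ _
        have h3 : 0 ≤ Real.exp (c x.2 * T x.1) := (Real.exp_pos _).le
        calc _ ≤ |ρ| * Real.exp (c x.2 * T x.1) + μ * Real.exp (c x.2 * T x.1) :=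
              add_le_add h1 h2
          _ ≤ (|ρ| + μ + 1) * Real.exp (c x.2 * T x.1) := by nlinarith
      · refine mul_le_mul_of_nonneg_left (Real.exp_le_exp.2 (hQE s hs)) ?_
        positivity
    · refine mul_le_mul_of_nonneg_right ?_ (by positivity)
      exact l1_lsub N hν r _ hPr
  have h1 := abs_coeff_le_l1 (bind₁ (fun x : Fin m × κ => C (l x.1) * X x + C ((y x : ℝ)))
      (map (Int.castRingHom ℝ) P)) J
  rw [hco, hprod, abs_mul, abs_of_pos (Real.exp_pos _), Real.exp_neg] at h1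
  have h2 := h1.trans hbd
  rw [← div_eq_mul_inv, div_le_iff₀ (Real.exp_pos _)] at h2
  refine h2.trans (le_of_eq ?_)
  rw [mul_pow]
  ring

end Upper

/-! ### The lower bound from divisibility -/

section Lower

variable {κ V : Type} [Fintype κ] [Fintype V] {m : ℕ}

lemma kexp_le {b : ℕ} (hb : 2 ≤ b) {a T : ℝ} (ha : 0 ≤ a) (hT : 0 ≤ T) :
    (kexp b a T : ℝ) * Real.log b ≤ a * T := by
  have hl : 0 < Real.log b := Real.log_pos (by exact_mod_cast hb)
  have : (kexp b a T : ℝ) ≤ a * T / Real.log b := Nat.floor_le (by positivity)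
  rwa [le_div_iff₀ hl] at this

lemma le_kexp {b : ℕ} (hb : 2 ≤ b) {a T : ℝ} :
    a * T - Real.log b ≤ (kexp b a T : ℝ) * Real.log b := by
  have hl : 0 < Real.log b := Real.log_pos (by exact_mod_cast hb)
  have : a * T / Real.log b < (kexp b a T : ℝ) + 1 := Nat.lt_floor_add_one _
  rw [div_lt_iff₀ hl] at this
  linarith

lemma lower_bound (b : V → ℕ) (hb : ∀ v, 2 ≤ b v)
    (hcop : Pairwise fun v w => (b v).Coprime (b w)) (a : V → κ → ℝ) (ha : ∀ v i, 0 ≤ a v i)
    (T : Fin m → ℝ) (hT : ∀ h, 0 ≤ T h) (r : Fin m → ℕ)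
    (P : MvPolynomial (Fin m × κ) ℤ) (hP : P ≠ 0)
    (hhom : ∀ s ∈ P.support, ∀ h, ∑ i, s (h, i) = r h) (E : V → ℝ)
    (hE : ∀ v, ∀ s ∈ P.support, E v ≤ ∑ h, ∑ i, (a v i * T h) * s (h, i))
    (y : Fin m × κ → ℤ)
    (hy : ∀ v h i, ((b v : ℤ)) ^ kexp (b v) (a v i) (T h) ∣ y (h, i))
    (J : Fin m × κ →₀ ℕ) (hJ : coeff J (shift y P) ≠ 0) :
    ∑ v, (E v - Real.log (b v) * ∑ h, (r h : ℝ) - ∑ h, ∑ i, (a v i * T h) * J (h, i)) ≤
      Real.log |((coeff J (shift y P) : ℤ) : ℝ)| := by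
  classical
  set p : ℤ := coeff J (shift y P) with hp
  set k : V → Fin m × κ → ℕ := fun v x => kexp (b v) (a v x.2) (T x.1) with hk
  set ks : V → (Fin m × κ →₀ ℕ) → ℕ := fun v s => s.sum fun x e => e * k v x with hks
  have hlb : ∀ v, 0 < Real.log (b v) := fun v => Real.log_pos (by exact_mod_cast hb v)
  have hsupp : P.support.Nonempty := by
    rw [Finset.nonempty_iff_ne_empty, Ne, support_eq_empty]; exact hP
  have hmin : ∀ v, ∃ s ∈ P.support, ∀ s' ∈ P.support, ks v s ≤ ks v s' := fun v =>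
    Finset.exists_min_image _ _ hsupp
  choose s₀ hs₀ hs₀min using hmin
  set e : V → ℕ := fun v => ks v (s₀ v) - ks v J with he
  have hdvd : ∀ v, ((b v : ℤ)) ^ e v ∣ p := by
    intro v
    have := Dv_shift (b := (b v : ℤ)) (k := k v) (N := ks v (s₀ v)) (y := y)
      (fun x => hy v x.1 x.2) (P := P) (fun s hs => hs₀min v s hs) J
    exact this
  have hprod : (∏ v, ((b v : ℤ)) ^ e v) ∣ p := by
    apply Finset.prod_dvd_of_coprime
    · intro v _ w _ hvw
      have : IsCoprime (b v : ℤ) (b w : ℤ) := Nat.isCoprime_iff_coprime.2 (hcop hvw)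
      exact this.pow
    · intro v _; exact hdvd v
  have hle : ((∏ v, ((b v : ℝ)) ^ e v)) ≤ |(p : ℝ)| := by
    have h1 : (∏ v, ((b v : ℤ)) ^ e v) ≤ |p| :=
      Int.le_of_dvd (abs_pos.2 hJ) ((dvd_abs _ _).2 hprod)
    have h2 : ((∏ v, ((b v : ℤ)) ^ e v : ℤ) : ℝ) ≤ ((|p| : ℤ) : ℝ) := by exact_mod_cast h1
    push_cast at h2
    exact h2
  have hbpos : ∀ v, (0 : ℝ) < b v := fun v => by
    have := hb v
    have : 0 < b v := by omega
    exact_mod_cast this
  have hlog : ∑ v, (e v : ℝ) * Real.log (b v) ≤ Real.log |(p : ℝ)| := by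
    have h1 := Real.log_le_log (Finset.prod_pos fun v _ => pow_pos (hbpos v) _) hle
    rw [Real.log_prod (fun v _ => (pow_pos (hbpos v) _).ne')] at h1
    simpa [Real.log_pow] using h1
  refine le_trans (Finset.sum_le_sum fun v _ => ?_) hlog
  have hksr : ∀ s : Fin m × κ →₀ ℕ, (ks v s : ℝ) = ∑ h, ∑ i, (s (h, i) : ℝ) * k v (h, i) := by
    intro s
    rw [hks]
    simp only
    rw [Finsupp.sum_fintype _ _ (by simp), Fintype.sum_prod_type]
    push_cast
    rfl
  have h1 : (ks v (s₀ v) : ℝ) - ks v J ≤ e v := by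
    have : ks v (s₀ v) ≤ e v + ks v J := by rw [he]; simp only; omega
    have : (ks v (s₀ v) : ℝ) ≤ e v + ks v J := by exact_mod_cast this
    linarith
  have h2 : ((ks v (s₀ v) : ℝ) - ks v J) * Real.log (b v) ≤ e v * Real.log (b v) :=
    mul_le_mul_of_nonneg_right h1 (hlb v).le
  have h3 : (ks v J : ℝ) * Real.log (b v) ≤ ∑ h, ∑ i, (a v i * T h) * J (h, i) := by
    rw [hksr, Finset.sum_mul]
    refine Finset.sum_le_sum fun h _ => ?_
    rw [Finset.sum_mul]
    refine Finset.sum_le_sum fun i _ => ?_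
    have := kexp_le (hb v) (ha v i) (hT h)
    have hJ0 : (0 : ℝ) ≤ J (h, i) := Nat.cast_nonneg _
    calc (J (h, i) : ℝ) * k v (h, i) * Real.log (b v)
        = J (h, i) * ((kexp (b v) (a v i) (T h) : ℝ) * Real.log (b v)) := by rw [hk]; ring
      _ ≤ J (h, i) * (a v i * T h) := mul_le_mul_of_nonneg_left this hJ0
      _ = (a v i * T h) * J (h, i) := mul_comm _ _
  have h4 : E v - Real.log (b v) * ∑ h, (r h : ℝ) ≤ (ks v (s₀ v) : ℝ) * Real.log (b v) := by
    have h5 : (∑ h, ∑ i, (a v i * T h) * (s₀ v) (h, i)) - Real.log (b v) * ∑ h, (r h : ℝ) ≤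
        (ks v (s₀ v) : ℝ) * Real.log (b v) := by
      have h6 : (∑ h, (r h : ℝ)) = ∑ h, ∑ i, ((s₀ v) (h, i) : ℝ) := by
        refine Finset.sum_congr rfl fun h _ => ?_
        rw [← hhom (s₀ v) (hs₀ v) h]
        push_cast
        rfl
      rw [h6, hksr, Finset.mul_sum, ← Finset.sum_sub_distrib, Finset.sum_mul]
      refine Finset.sum_le_sum fun h _ => ?_
      rw [Finset.mul_sum, ← Finset.sum_sub_distrib, Finset.sum_mul]
      refine Finset.sum_le_sum fun i _ => ?_
      have := le_kexp (hb v) (a := a v i) (T := T h)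
      have hJ0 : (0 : ℝ) ≤ (s₀ v) (h, i) := Nat.cast_nonneg _
      calc a v i * T h * (s₀ v) (h, i) - Real.log (b v) * (s₀ v) (h, i)
          = (s₀ v) (h, i) * (a v i * T h - Real.log (b v)) := by ring
        _ ≤ (s₀ v) (h, i) * ((kexp (b v) (a v i) (T h) : ℝ) * Real.log (b v)) :=
            mul_le_mul_of_nonneg_left this hJ0
        _ = ((s₀ v) (h, i) : ℝ) * k v (h, i) * Real.log (b v) := by rw [hk]; ring
    linarith [hE v (s₀ v) (hs₀ v)]
  linarith

end Lower

end VanAux

end SST
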