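import Pool.Agent.Subspace.WronskianAux

/-!
# Hasse derivatives and generalized Wronskians

The Hasse derivative `hasse` and its basic properties are in `WronskianAux.lean`.
-/

namespace SST

open MvPolynomial

section span

variable {σ : Type*}

/-- The space of functions spanned by the multi-binomial coefficients of degree at most `d`. -/
noncomputable def chooseSpan (σ : Type*) (d : ℕ) : Submodule ℚ ((σ →₀ ℕ) → ℚ) :=
  Submodule.span ℚ {g | ∃ μ : σ →₀ ℕ, μ.degree ≤ d ∧ g = fun s => (mchoose s μ : ℚ)}

lemma chooseSpan_mono {d d' : ℕ} (h : d ≤ d') : chooseSpan σ d ≤ chooseSpan σ d' := by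
  refine Submodule.span_mono ?_
  rintro g ⟨μ, hμ, rfl⟩
  exact ⟨μ, hμ.trans h, rfl⟩

lemma mul_mem_chooseSpan {d : ℕ} {g : (σ →₀ ℕ) → ℚ} (hg : g ∈ chooseSpan σ d) (j : σ) (c : ℚ) :
    (fun s => ((s j : ℚ) - c) * g s) ∈ chooseSpan σ (d + 1) := by
  classical
  unfold chooseSpan at hg
  induction hg using Submodule.span_induction with
  | mem g hg =>
    obtain ⟨μ, hμ, rfl⟩ := hg
    have h1 : (fun s : σ →₀ ℕ => ((s j : ℚ) - c) * (mchoose s μ : ℚ)) =
        ((μ j : ℚ) + 1) • (fun s : σ →₀ ℕ => (mchoose s (μ + Finsupp.single j 1) : ℚ)) +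
          ((μ j : ℚ) - c) • (fun s : σ →₀ ℕ => (mchoose s μ : ℚ)) := by
      funext s
      simp only [Pi.add_apply, Pi.smul_apply, smul_eq_mul]
      have h2 := mchoose_mul_apply s μ j
      have h3 : (s j : ℚ) * (mchoose s μ : ℚ) =
          ((μ j : ℚ) + 1) * (mchoose s (μ + Finsupp.single j 1) : ℚ) +
            (μ j : ℚ) * (mchoose s μ : ℚ) := by exact_mod_cast h2
      linear_combination h3
    rw [h1]
    refine Submodule.add_mem _ (Submodule.smul_mem _ _ ?_) (Submodule.smul_mem _ _ ?_)
    · refine Submodule.subset_span ⟨_, ?_, rfl⟩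
      rw [map_add, Finsupp.degree_single]
      omega
    · exact Submodule.subset_span ⟨_, by omega, rfl⟩
  | zero =>
    have : (fun s : σ →₀ ℕ => ((s j : ℚ) - c) * (0 : (σ →₀ ℕ) → ℚ) s) = 0 := by
      funext s; simp
    rw [this]
    exact Submodule.zero_mem _
  | add x y _ _ hx hy =>
    have : (fun s : σ →₀ ℕ => ((s j : ℚ) - c) * (x + y) s) =
        (fun s => ((s j : ℚ) - c) * x s) + (fun s => ((s j : ℚ) - c) * y s) := by
      funext s; simp [mul_add]
    rw [this]
    exact Submodule.add_mem _ hx hy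
  | smul a x _ hx =>
    have : (fun s : σ →₀ ℕ => ((s j : ℚ) - c) * (a • x) s) =
        a • (fun s => ((s j : ℚ) - c) * x s) := by
      funext s; simp only [Pi.smul_apply, smul_eq_mul]; ring
    rw [this]
    exact Submodule.smul_mem _ _ hx

lemma exists_separating (F : Finset (σ →₀ ℕ)) (e : σ →₀ ℕ) (he : e ∉ F) :
    ∃ g ∈ chooseSpan σ F.card, g e ≠ 0 ∧ ∀ s ∈ F, g s = 0 := by
  classical
  induction F using Finset.induction_on with
  | empty =>
    refine ⟨fun _ => 1, ?_, one_ne_zero, by simp⟩
    refine Submodule.subset_span ⟨0, by simp, ?_⟩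
    funext s
    rw [mchoose_zero, Nat.cast_one]
  | insert a F ha ih =>
    rw [Finset.mem_insert, not_or] at he
    obtain ⟨g, hg, hge, hgF⟩ := ih he.2
    obtain ⟨j, hj⟩ : ∃ j, e j ≠ a j := by
      by_contra h
      push Not at h
      exact he.1 (Finsupp.ext h)
    refine ⟨fun s => ((s j : ℚ) - (a j : ℚ)) * g s, ?_, ?_, ?_⟩
    · rw [Finset.card_insert_of_notMem ha]
      exact mul_mem_chooseSpan hg j _
    · refine mul_ne_zero ?_ hge
      rw [sub_ne_zero]
      exact_mod_cast hj
    · intro s hs
      rw [Finset.mem_insert] at hs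
      rcases hs with rfl | hs
      · simp
      · simp [hgF s hs]

end span

/-- Polynomials with pairwise distinct leading exponents are linearly independent. -/
lemma linearIndependent_of_degree_injective {σ ι : Type*} [Fintype ι] (m : MonomialOrder σ)
    (f : ι → MvPolynomial σ ℚ) (hf : ∀ i, f i ≠ 0)
    (hinj : Function.Injective fun i => m.degree (f i)) : LinearIndependent ℚ f := by
  classical
  rw [Fintype.linearIndependent_iff]
  intro b hb
  by_contra hne
  push Not at hne
  obtain ⟨i₀, hi₀⟩ := hne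
  obtain ⟨i, hi, hmax⟩ := Finset.exists_max_image (Finset.univ.filter fun i => b i ≠ 0)
    (fun i => m.toSyn (m.degree (f i))) ⟨i₀, by simpa using hi₀⟩
  have hbi : b i ≠ 0 := (Finset.mem_filter.1 hi).2
  have h1 := congrArg (coeff (m.degree (f i))) hb
  rw [coeff_sum, coeff_zero, Finset.sum_eq_single i] at h1
  · rw [coeff_smul, smul_eq_mul] at h1
    rcases mul_eq_zero.1 h1 with h2 | h2
    · exact hbi h2
    · exact hf i ((m.coeff_degree_eq_zero_iff).1 h2)
  · intro j _ hj
    rw [coeff_smul, smul_eq_mul]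
    by_cases hbj : b j = 0
    · rw [hbj, zero_mul]
    · have h2 := hmax j (by simpa using hbj)
      by_contra h3
      have h4 : coeff (m.degree (f i)) (f j) ≠ 0 := right_ne_zero_of_mul h3
      have h5 := m.le_degree (mem_support_iff.2 h4)
      have h6 := m.toSyn.injective (le_antisymm h5 h2)
      exact hj (hinj h6.symm)
  · intro h; exact absurd (Finset.mem_univ _) h

/-- The main step: the vectors of Hasse derivatives of order at most `k - 1` of `k` linearly
independent polynomials are not annihilated by a common nonzero vector of polynomials. -/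
theorem exists_hasse_sum_ne_zero {σ : Type*} (m : MonomialOrder σ) {k : ℕ}
    (φ : Fin k → MvPolynomial σ ℚ) (hφ : LinearIndependent ℚ φ)
    (c : Fin k → MvPolynomial σ ℚ) (hc : c ≠ 0) :
    ∃ μ : σ →₀ ℕ, μ.degree ≤ k - 1 ∧ ∑ j, c j * hasse μ (φ j) ≠ 0 := by
  classical
  by_contra hcon
  push Not at hcon
  set f : (σ →₀ ℕ) → MvPolynomial σ ℚ := fun a => ∑ j, coeff a (c j) • φ j with hfdef
  set A := (Finset.univ.biUnion fun j => (c j).support).filter (fun a => f a ≠ 0) with hA
  have hmemA : ∀ a, f a ≠ 0 → a ∈ A := by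
    intro a ha
    rw [hA, Finset.mem_filter]
    refine ⟨?_, ha⟩
    rw [Finset.mem_biUnion]
    by_contra h
    push Not at h
    apply ha
    rw [hfdef]
    refine Finset.sum_eq_zero fun j _ => ?_
    rw [notMem_support_iff.1 (h j (Finset.mem_univ _)), zero_smul]
  have hAne : A.Nonempty := by
    obtain ⟨j, hj⟩ := Function.ne_iff.1 hc
    obtain ⟨a, ha⟩ := ne_zero_iff.1 hj
    refine ⟨a, hmemA a fun h0 => ?_⟩
    exact ha (Fintype.linearIndependent_iff.1 hφ (fun j => coeff a (c j)) h0 j)
  obtain ⟨a₀, ha₀, hmax⟩ := Finset.exists_max_image A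
    (fun a => m.toSyn (a + m.degree (f a))) hAne
  have hfa₀ : f a₀ ≠ 0 := (Finset.mem_filter.1 ha₀).2
  set e₀ := m.degree (f a₀) with he₀
  set M := a₀ + e₀ with hM
  set E := A.image (fun a => m.degree (f a)) with hE
  have he₀E : e₀ ∈ E := Finset.mem_image_of_mem _ ha₀
  -- the number of leading exponents is at most `k`
  have hcard : E.card ≤ k := by
    have hsec : ∀ e : E, ∃ a ∈ A, m.degree (f a) = e := fun e => Finset.mem_image.1 e.2
    choose s hsA hs using hsec
    let W : Submodule ℚ (MvPolynomial σ ℚ) := Submodule.span ℚ (Set.range φ)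
    have hfW : ∀ a, f a ∈ W := by
      intro a
      refine Submodule.sum_mem _ fun j _ => Submodule.smul_mem _ _ ?_
      exact Submodule.subset_span ⟨j, rfl⟩
    have h1 : LinearIndependent ℚ (fun e : E => f (s e)) := by
      refine linearIndependent_of_degree_injective m _ (fun e => (Finset.mem_filter.1 (hsA e)).2) ?_
      intro e e' hee
      simp only [hs] at hee
      exact Subtype.ext hee
    have h2 : LinearIndependent ℚ (fun e : E => (⟨f (s e), hfW _⟩ : W)) := by
      refine LinearIndependent.of_comp W.subtype ?_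
      exact h1
    haveI : FiniteDimensional ℚ W := FiniteDimensional.span_of_finite ℚ (Set.finite_range φ)
    have h3 := h2.fintype_card_le_finrank
    rw [finrank_span_eq_card hφ] at h3
    simpa using h3
  obtain ⟨g, hg, hge, hgE⟩ := exists_separating (E.erase e₀) e₀ (Finset.notMem_erase _ _)
  have hg' : g ∈ chooseSpan σ (k - 1) := by
    refine chooseSpan_mono ?_ hg
    rw [Finset.card_erase_of_mem he₀E]
    omega
  have key : ∀ g ∈ chooseSpan σ (k - 1),
      ∑ p ∈ Finset.HasAntidiagonal.antidiagonal M, g p.2 * coeff p.2 (f p.1) = 0 := by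
    intro g hg
    unfold chooseSpan at hg
    induction hg using Submodule.span_induction with
    | mem g hg =>
      obtain ⟨μ, hμ, rfl⟩ := hg
      have h1 : coeff M (∑ j, c j * (monomial μ 1 * hasse μ (φ j))) = 0 := by
        have h2 : ∑ j, c j * (monomial μ 1 * hasse μ (φ j)) =
            monomial μ 1 * ∑ j, c j * hasse μ (φ j) := by
          rw [Finset.mul_sum]
          exact Finset.sum_congr rfl fun j _ => by ring
        rw [h2, hcon μ hμ, mul_zero, coeff_zero]
      rw [coeff_sum] at h1
      rw [← h1]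
      have h3 : ∀ j, coeff M (c j * (monomial μ 1 * hasse μ (φ j))) =
          ∑ p ∈ Finset.HasAntidiagonal.antidiagonal M,
            coeff p.1 (c j) * ((mchoose p.2 μ : ℚ) * coeff p.2 (φ j)) := by
        intro j
        rw [coeff_mul]
        exact Finset.sum_congr rfl fun p _ => by rw [coeff_monomial_mul_hasse]
      simp_rw [h3]
      rw [Finset.sum_comm]
      refine Finset.sum_congr rfl fun p _ => ?_
      rw [hfdef, coeff_sum, Finset.mul_sum]
      refine Finset.sum_congr rfl fun j _ => ?_
      rw [coeff_smul, smul_eq_mul]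
      ring
    | zero => simp
    | add x y _ _ hx hy =>
      simp only [Pi.add_apply, add_mul, Finset.sum_add_distrib, hx, hy, add_zero]
    | smul a x _ hx =>
      simp only [Pi.smul_apply, smul_eq_mul, mul_assoc, ← Finset.mul_sum, hx, mul_zero]
  have h1 := key g hg'
  rw [Finset.sum_eq_single (a₀, e₀)] at h1
  · rcases mul_eq_zero.1 h1 with h2 | h2
    · exact hge h2
    · exact hfa₀ ((m.coeff_degree_eq_zero_iff).1 h2)
  · rintro ⟨a, s⟩ hp hne
    rw [Finset.HasAntidiagonal.mem_antidiagonal] at hp
    simp only at hp ⊢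
    by_contra h3
    have h4 : coeff s (f a) ≠ 0 := right_ne_zero_of_mul h3
    have h5 : f a ≠ 0 := by
      intro h; rw [h, coeff_zero] at h4; exact h4 rfl
    have haA := hmemA a h5
    have h6 := m.le_degree (mem_support_iff.2 h4)
    have h7 := hmax a haA
    have h8 : m.toSyn s = m.toSyn (m.degree (f a)) := by
      refine le_antisymm h6 ?_
      have h9 : m.toSyn (a + m.degree (f a)) ≤ m.toSyn (a + s) := by
        rw [hp]; exact h7
      rw [map_add, map_add] at h9
      exact le_of_add_le_add_left h9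
    have h9 : s = m.degree (f a) := m.toSyn.injective h8
    have h10 : s ∈ E := by rw [h9]; exact Finset.mem_image_of_mem _ haA
    by_cases h11 : s = e₀
    · apply hne
      rw [h11] at hp ⊢
      rw [hM] at hp
      rw [add_right_cancel hp]
    · exact left_ne_zero_of_mul h3 (hgE s (Finset.mem_erase.2 ⟨h11, h10⟩))
  · intro h
    exact absurd (Finset.HasAntidiagonal.mem_antidiagonal.2 hM.symm) h

/-- Linearly independent polynomials have a nonzero generalized Wronskian whose multi-indices have
total degree at most `k - 1`. -/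
theorem wronskian_ne_zero {n k : ℕ} (φ : Fin k → MvPolynomial (Fin n) ℚ)
    (hφ : LinearIndependent ℚ φ) :
    ∃ μ : Fin k → (Fin n →₀ ℕ), (∀ i, ∑ j, μ i j ≤ k - 1) ∧
      (Matrix.of fun i j => hasse (μ i) (φ j)).det ≠ 0 := by
  classical
  let A := MvPolynomial (Fin n) ℚ
  let K := FractionRing A
  let s : Set (Fin k → K) :=
    {v | ∃ μ : Fin n →₀ ℕ, μ.degree ≤ k - 1 ∧ v = fun j => algebraMap A K (hasse μ (φ j))}
  have hspan : Submodule.span K s = ⊤ := by
    by_contra hne
    obtain ⟨g, hg0, hg⟩ := Submodule.exists_le_ker_of_lt_top _ (lt_top_iff_ne_top.2 hne)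
    obtain ⟨b, hb⟩ := IsLocalization.exist_integer_multiples (nonZeroDivisors A) Finset.univ
      (fun j : Fin k => g (Pi.single j 1))
    choose c hc using fun j => hb j (Finset.mem_univ j)
    have hb0 : algebraMap A K b ≠ 0 := by
      rw [Ne, FaithfulSMul.algebraMap_eq_zero_iff]
      exact nonZeroDivisors.coe_ne_zero b
    have hc0 : c ≠ 0 := by
      intro h0
      apply hg0
      refine LinearMap.pi_ext' fun j => LinearMap.ext_ring ?_
      have h1 := hc j
      rw [h0, Pi.zero_apply, map_zero, Algebra.smul_def] at h1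
      rcases mul_eq_zero.1 h1.symm with h2 | h2
      · exact absurd h2 hb0
      · simpa using h2
    obtain ⟨μ, hμ, hne2⟩ := exists_hasse_sum_ne_zero (MonomialOrder.lex) φ hφ c hc0
    apply hne2
    apply IsFractionRing.injective A K
    rw [map_zero, map_sum]
    have h1 : g (fun j => algebraMap A K (hasse μ (φ j))) = 0 := by
      have : (fun j => algebraMap A K (hasse μ (φ j))) ∈ Submodule.span K s :=
        Submodule.subset_span ⟨μ, hμ, rfl⟩
      exact hg this
    have h2 : (fun j => algebraMap A K (hasse μ (φ j))) =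
        ∑ j, algebraMap A K (hasse μ (φ j)) • (Pi.single j 1 : Fin k → K) := by
      funext i
      rw [Finset.sum_apply, Finset.sum_eq_single i]
      · rw [Pi.smul_apply, Pi.single_eq_same, smul_eq_mul, mul_one]
      · intro j _ hj
        rw [Pi.smul_apply, Pi.single_eq_of_ne hj.symm, smul_zero]
      · intro h; exact absurd (Finset.mem_univ _) h
    rw [h2, map_sum] at h1
    have h3 : ∀ j, algebraMap A K (c j * hasse μ (φ j)) =
        algebraMap A K b * g (algebraMap A K (hasse μ (φ j)) • (Pi.single j 1 : Fin k → K)) := by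
      intro j
      rw [map_mul, hc j, Algebra.smul_def, map_smul, smul_eq_mul]
      ring
    simp_rw [h3]
    rw [← Finset.mul_sum, h1, mul_zero]
  have hfin : Module.finrank K (Submodule.span K s) = k := by
    rw [hspan, finrank_top, Module.finrank_fin_fun]
  obtain ⟨f, hf1, _, hf3⟩ := Submodule.exists_fun_fin_finrank_span_eq K s
  have hf1' : ∀ i : Fin k, f (Fin.cast hfin.symm i) ∈ s := fun i => hf1 _
  choose μ hμ hμf using hf1'
  refine ⟨μ, fun i => ?_, ?_⟩
  · rw [← Finsupp.degree_eq_sum]
    exact hμ i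
  · intro hdet
    have h1 : LinearIndependent K (fun i : Fin k => f (Fin.cast hfin.symm i)) :=
      hf3.comp _ (Fin.cast_injective _)
    have h2 : LinearIndependent K
        ((Matrix.of fun i j => algebraMap A K (hasse (μ i) (φ j))) : Matrix (Fin k) (Fin k) K).row := by
      convert h1 using 1
      funext i
      rw [hμf i]
      rfl
    rw [Matrix.linearIndependent_rows_iff_isUnit, Matrix.isUnit_iff_isUnit_det] at h2
    apply h2.ne_zero
    have h3 : (Matrix.of fun i j => algebraMap A K (hasse (μ i) (φ j))) =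
        (algebraMap A K).mapMatrix (Matrix.of fun i j => hasse (μ i) (φ j)) := rfl
    rw [h3, ← RingHom.map_det, hdet, map_zero]

/-- One variable: the Wronskian built from the Hasse derivatives of order `0, …, k - 1`. -/
theorem wronskian_unique_ne_zero {σ : Type*} [Unique σ] [LinearOrder σ] {k : ℕ}
    (ψ : Fin k → MvPolynomial σ ℚ) (hψ : LinearIndependent ℚ ψ) :
    (Matrix.of fun l j : Fin k => hasse (Finsupp.single default (l : ℕ)) (ψ j)).det ≠ 0 := by
  intro hdet
  rw [← Matrix.exists_mulVec_eq_zero_iff] at hdet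
  obtain ⟨c, hc, h⟩ := hdet
  obtain ⟨μ, hμ, hne⟩ := exists_hasse_sum_ne_zero (MonomialOrder.lex) ψ hψ c hc
  have hk : 0 < k := by
    obtain ⟨j, _⟩ := Function.ne_iff.1 hc
    exact j.pos
  have h1 : μ = Finsupp.single default (μ default) := Finsupp.unique_single μ
  have h2 : μ default ≤ k - 1 := by
    rw [h1, Finsupp.degree_single] at hμ
    exact hμ
  apply hne
  have h3 := congrFun h ⟨μ default, by omega⟩
  rw [Matrix.mulVec, dotProduct, Pi.zero_apply] at h3
  rw [← h3]
  refine Finset.sum_congr rfl fun j _ => ?_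
  rw [Matrix.of_apply, mul_comm]
  simp only
  rw [← h1]

/-- The version for polynomials in `ℚ[X]`. -/
theorem wronskian_poly_ne_zero {k : ℕ} (ψ : Fin k → Polynomial ℚ) (hψ : LinearIndependent ℚ ψ) :
    (Matrix.of fun l j : Fin k => Polynomial.hasseDeriv (l : ℕ) (ψ j)).det ≠ 0 := by
  let e := uniqueAlgEquiv ℚ (Fin 1)
  have h1 : LinearIndependent ℚ (fun j => e.symm (ψ j)) :=
    hψ.map' e.symm.toLinearMap (LinearMap.ker_eq_bot.2 e.symm.injective)
  have h2 := wronskian_unique_ne_zero _ h1
  intro h3
  apply h2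
  apply e.injective
  rw [map_zero, ← h3]
  have h4 : e (Matrix.of fun l j : Fin k =>
      hasse (Finsupp.single default (l : ℕ)) (e.symm (ψ j))).det =
      ((e : MvPolynomial (Fin 1) ℚ →+* Polynomial ℚ).mapMatrix (Matrix.of fun l j : Fin k =>
        hasse (Finsupp.single default (l : ℕ)) (e.symm (ψ j)))).det := by
    rw [← RingHom.map_det]
    rfl
  rw [h4]
  congr 1
  refine Matrix.ext fun l j => ?_
  rw [RingHom.mapMatrix_apply, Matrix.map_apply, Matrix.of_apply, Matrix.of_apply]
  have h5 := uniqueAlgEquiv_hasse (l : ℕ) (e.symm (ψ j))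
  rw [AlgEquiv.apply_symm_apply] at h5
  exact h5

end SST
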