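import Pool.Agent.Subspace.Basic

/-!
# Hasse derivatives of multivariate polynomials
-/

namespace SST

open MvPolynomial

variable {σ τ R S : Type*} [CommRing R] [CommRing S]

/-- The Hasse derivative of `P` with respect to the multi-index `μ`: the coefficient of `Y ^ μ` in
`P (X + Y)`. -/
noncomputable def hasse (μ : σ →₀ ℕ) (P : MvPolynomial σ R) : MvPolynomial σ R :=
  (aeval (fun i => C (X i) + X i) P : MvPolynomial σ (MvPolynomial σ R)).coeff μ

/-- The product of the binomial coefficients `(s i).choose (μ i)`. -/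
noncomputable def mchoose (s μ : σ →₀ ℕ) : ℕ := μ.prod fun i k => (s i).choose k

lemma mchoose_zero (s : σ →₀ ℕ) : mchoose s 0 = 1 := by simp [mchoose]

lemma mchoose_eq_prod {s μ : σ →₀ ℕ} {T : Finset σ} (h : μ.support ⊆ T) :
    mchoose s μ = ∏ i ∈ T, (s i).choose (μ i) :=
  Finsupp.prod_of_support_subset _ h _ fun i _ => Nat.choose_zero_right _

lemma mchoose_eq_prod_univ [Fintype σ] (s μ : σ →₀ ℕ) :
    mchoose s μ = ∏ i, (s i).choose (μ i) := mchoose_eq_prod (Finset.subset_univ _)

lemma mchoose_eq_zero {s μ : σ →₀ ℕ} (h : ¬ μ ≤ s) : mchoose s μ = 0 := by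
  classical
  rw [Finsupp.le_def] at h
  push Not at h
  obtain ⟨i, hi⟩ := h
  rw [mchoose_eq_prod (T := μ.support) (le_refl _)]
  exact Finset.prod_eq_zero (Finsupp.mem_support_iff.2 (by omega)) (Nat.choose_eq_zero_of_lt hi)

lemma mchoose_pos {s μ : σ →₀ ℕ} (h : μ ≤ s) : 0 < mchoose s μ := by
  classical
  rw [mchoose_eq_prod (T := μ.support) (le_refl _)]
  exact Finset.prod_pos fun i _ => Nat.choose_pos (h i)

lemma mchoose_self (μ : σ →₀ ℕ) : mchoose μ μ = 1 := by
  simp [mchoose, Finsupp.prod]

lemma mchoose_le [Fintype σ] (s μ : σ →₀ ℕ) : mchoose s μ ≤ 2 ^ (∑ i, s i) := by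
  classical
  rw [mchoose_eq_prod_univ, ← Finset.prod_pow_eq_pow_sum]
  exact Finset.prod_le_prod' fun i _ => Nat.choose_le_two_pow _ _

/-- Splitting off one factor. -/
lemma mchoose_split [DecidableEq σ] (s μ : σ →₀ ℕ) {T : Finset σ} (h : μ.support ⊆ T) {j : σ}
    (hj : j ∈ T) : mchoose s μ = (s j).choose (μ j) * ∏ i ∈ T.erase j, (s i).choose (μ i) := by
  rw [mchoose_eq_prod h, ← Finset.mul_prod_erase T (fun i => (s i).choose (μ i)) hj]

lemma mchoose_mul_apply (s μ : σ →₀ ℕ) (j : σ) :
    s j * mchoose s μ = (μ j + 1) * mchoose s (μ + Finsupp.single j 1) + μ j * mchoose s μ := by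
  classical
  have h1 : μ.support ⊆ insert j μ.support := Finset.subset_insert _ _
  have h2 : (μ + Finsupp.single j 1).support ⊆ insert j μ.support := by
    intro i hi
    by_cases hij : i = j
    · subst hij; exact Finset.mem_insert_self _ _
    · refine Finset.mem_insert_of_mem ?_
      rw [Finsupp.mem_support_iff] at hi ⊢
      simpa [Ne.symm hij] using hi
  rw [mchoose_split s μ h1 (Finset.mem_insert_self j _),
    mchoose_split s _ h2 (Finset.mem_insert_self j _)]
  have h3 : ∏ i ∈ (insert j μ.support).erase j, (s i).choose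
      ((μ + Finsupp.single j 1 : σ →₀ ℕ) i) =
      ∏ i ∈ (insert j μ.support).erase j, (s i).choose (μ i) := by
    refine Finset.prod_congr rfl fun i hi => ?_
    have hij : i ≠ j := (Finset.mem_erase.1 hi).1
    simp [Ne.symm hij]
  rw [h3]
  generalize (∏ i ∈ (insert j μ.support).erase j, (s i).choose (μ i)) = p
  have h4 : (μ + Finsupp.single j 1 : σ →₀ ℕ) j = μ j + 1 := by simp
  rw [h4]
  have h5 : (s j).choose (μ j + 1) * (μ j + 1) = (s j).choose (μ j) * (s j - μ j) :=
    Nat.choose_succ_right_eq _ _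
  rcases le_or_gt (μ j) (s j) with h6 | h6
  · obtain ⟨d, hd⟩ := Nat.exists_eq_add_of_le h6
    have h7 : s j - μ j = d := by omega
    rw [h7] at h5
    calc s j * ((s j).choose (μ j) * p) = (μ j + d) * ((s j).choose (μ j) * p) := by rw [← hd]
      _ = ((s j).choose (μ j) * d) * p + μ j * ((s j).choose (μ j) * p) := by ring
      _ = _ := by rw [← h5]; ring
  · rw [Nat.choose_eq_zero_of_lt h6, Nat.choose_eq_zero_of_lt (by omega)]
    simp

/-- Pascal's rule, first case. -/
lemma mchoose_add_single_of_eq_zero (t μ : σ →₀ ℕ) {j : σ} (h : μ j = 0) :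
    mchoose (t + Finsupp.single j 1) μ = mchoose t μ := by
  classical
  rw [mchoose_eq_prod (T := μ.support) (le_refl _), mchoose_eq_prod (T := μ.support) (le_refl _)]
  refine Finset.prod_congr rfl fun i hi => ?_
  have hij : i ≠ j := by
    rintro rfl
    exact (Finsupp.mem_support_iff.1 hi) h
  simp [Ne.symm hij]

/-- Pascal's rule, second case. -/
lemma mchoose_add_single (t ν : σ →₀ ℕ) (j : σ) :
    mchoose (t + Finsupp.single j 1) (ν + Finsupp.single j 1) =
      mchoose t (ν + Finsupp.single j 1) + mchoose t ν := by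
  classical
  have h1 : ν.support ⊆ insert j ν.support := Finset.subset_insert _ _
  have h2 : (ν + Finsupp.single j 1).support ⊆ insert j ν.support := by
    intro i hi
    by_cases hij : i = j
    · subst hij; exact Finset.mem_insert_self _ _
    · refine Finset.mem_insert_of_mem ?_
      rw [Finsupp.mem_support_iff] at hi ⊢
      simpa [Ne.symm hij] using hi
  rw [mchoose_split _ _ h2 (Finset.mem_insert_self j _),
    mchoose_split t _ h2 (Finset.mem_insert_self j _),
    mchoose_split t ν h1 (Finset.mem_insert_self j _)]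
  have h3 : ∏ i ∈ (insert j ν.support).erase j, ((t + Finsupp.single j 1 : σ →₀ ℕ) i).choose
      ((ν + Finsupp.single j 1 : σ →₀ ℕ) i) =
      ∏ i ∈ (insert j ν.support).erase j, (t i).choose (ν i) := by
    refine Finset.prod_congr rfl fun i hi => ?_
    have hij : i ≠ j := (Finset.mem_erase.1 hi).1
    simp [Ne.symm hij]
  have h3' : ∏ i ∈ (insert j ν.support).erase j, (t i).choose
      ((ν + Finsupp.single j 1 : σ →₀ ℕ) i) =
      ∏ i ∈ (insert j ν.support).erase j, (t i).choose (ν i) := by
    refine Finset.prod_congr rfl fun i hi => ?_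
    have hij : i ≠ j := (Finset.mem_erase.1 hi).1
    simp [Ne.symm hij]
  rw [h3, h3']
  have h4 : (ν + Finsupp.single j 1 : σ →₀ ℕ) j = ν j + 1 := by simp
  have h5 : (t + Finsupp.single j 1 : σ →₀ ℕ) j = t j + 1 := by simp
  rw [h4, h5, Nat.choose_succ_succ]
  ring

/-! ### Hasse derivatives -/

lemma hasse_add (μ : σ →₀ ℕ) (P Q : MvPolynomial σ R) :
    hasse μ (P + Q) = hasse μ P + hasse μ Q := by simp [hasse]

@[simp] lemma hasse_zero (μ : σ →₀ ℕ) : hasse μ (0 : MvPolynomial σ R) = 0 := by simp [hasse]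

lemma hasse_C [DecidableEq σ] (μ : σ →₀ ℕ) (c : R) :
    hasse μ (C c : MvPolynomial σ R) = if 0 = μ then C c else 0 := by
  unfold hasse
  have h : (aeval (fun i => C (X i) + X i) (C c : MvPolynomial σ R) :
      MvPolynomial σ (MvPolynomial σ R)) = C (C c) := by
    rw [aeval_C]; rfl
  rw [h, coeff_C]

lemma hasse_mul_X [DecidableEq σ] (μ : σ →₀ ℕ) (P : MvPolynomial σ R) (j : σ) :
    hasse μ (P * X j) = hasse μ P * X j +
      if j ∈ μ.support then hasse (μ - Finsupp.single j 1) P else 0 := by
  unfold hasse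
  rw [map_mul, aeval_X, mul_add, coeff_add, coeff_mul_X', mul_comm _ (C (X j)), coeff_C_mul,
    mul_comm (X j)]

/-- The coefficients of a Hasse derivative. -/
lemma coeff_hasse (μ s : σ →₀ ℕ) (P : MvPolynomial σ R) :
    coeff s (hasse μ P) = (mchoose (s + μ) μ : R) * coeff (s + μ) P := by
  classical
  induction P using MvPolynomial.induction_on generalizing μ s with
  | C a =>
    rw [hasse_C]
    by_cases h : 0 = μ
    · subst h
      simp [mchoose_zero]
    · rw [if_neg h, coeff_C, if_neg]
      · simp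
      · intro h1
        apply h
        have := congrArg (fun f : σ →₀ ℕ => f) h1
        ext i
        have h2 := DFunLike.congr_fun h1 i
        simp only [Finsupp.coe_zero, Pi.zero_apply, Finsupp.coe_add, Pi.add_apply] at h2 ⊢
        omega
  | add P Q hP hQ =>
    rw [hasse_add, coeff_add, hP, hQ, coeff_add, mul_add]
  | mul_X P j hP =>
    rw [hasse_mul_X, coeff_add, coeff_mul_X', coeff_mul_X']
    by_cases h1 : j ∈ μ.support
    · rw [if_pos h1]
      obtain ⟨ν, rfl⟩ : ∃ ν, μ = ν + Finsupp.single j 1 := by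
        refine ⟨μ - Finsupp.single j 1, ?_⟩
        rw [tsub_add_cancel_of_le]
        rw [Finsupp.single_le_iff]
        exact Nat.one_le_iff_ne_zero.2 (Finsupp.mem_support_iff.1 h1)
      have h2 : j ∈ (s + (ν + Finsupp.single j 1)).support := by
        rw [Finsupp.mem_support_iff]
        simp
      have h6 : s + (ν + Finsupp.single j 1) = s + ν + Finsupp.single j 1 := (add_assoc _ _ _).symm
      rw [if_pos h2, add_tsub_cancel_right, hP ν, h6, add_tsub_cancel_right,
        mchoose_add_single, Nat.cast_add, add_mul]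
      congr 1
      by_cases h3 : j ∈ s.support
      · rw [if_pos h3, hP]
        obtain ⟨s', rfl⟩ : ∃ s', s = s' + Finsupp.single j 1 := by
          refine ⟨s - Finsupp.single j 1, ?_⟩
          rw [tsub_add_cancel_of_le]
          rw [Finsupp.single_le_iff]
          exact Nat.one_le_iff_ne_zero.2 (Finsupp.mem_support_iff.1 h3)
        rw [add_tsub_cancel_right]
        have h4 : s' + (ν + Finsupp.single j 1) = s' + Finsupp.single j 1 + ν := by
          rw [add_assoc, add_comm ν]
        rw [h4]
      · rw [if_neg h3, mchoose_eq_zero]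
        · simp
        · intro h4
          have h5 := h4 j
          rw [Finsupp.notMem_support_iff] at h3
          simp [h3] at h5
    · rw [if_neg h1]
      have h0 : μ j = 0 := Finsupp.notMem_support_iff.1 h1
      rw [coeff_zero, add_zero]
      by_cases h3 : j ∈ s.support
      · have h2 : j ∈ (s + μ).support := by
          rw [Finsupp.mem_support_iff] at h3 ⊢
          simp [h3]
        rw [if_pos h3, if_pos h2, hP]
        obtain ⟨s', rfl⟩ : ∃ s', s = s' + Finsupp.single j 1 := by
          refine ⟨s - Finsupp.single j 1, ?_⟩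
          rw [tsub_add_cancel_of_le]
          rw [Finsupp.single_le_iff]
          exact Nat.one_le_iff_ne_zero.2 (Finsupp.mem_support_iff.1 h3)
        have h4 : s' + Finsupp.single j 1 + μ = s' + μ + Finsupp.single j 1 := by
          rw [add_assoc, add_assoc, add_comm μ]
        rw [h4, add_tsub_cancel_right, add_tsub_cancel_right, mchoose_add_single_of_eq_zero _ _ h0]
      · have h2 : j ∉ (s + μ).support := by
          rw [Finsupp.notMem_support_iff] at h3 ⊢
          simp [h3, h0]
        rw [if_neg h3, if_neg h2, mul_zero]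

lemma hasse_C_mul (μ : σ →₀ ℕ) (c : R) (P : MvPolynomial σ R) :
    hasse μ (C c * P) = C c * hasse μ P := by
  ext s
  rw [coeff_hasse, coeff_C_mul, coeff_C_mul, coeff_hasse]
  ring

lemma hasse_smul (μ : σ →₀ ℕ) (c : R) (P : MvPolynomial σ R) :
    hasse μ (c • P) = c • hasse μ P := by
  rw [smul_eq_C_mul, smul_eq_C_mul, hasse_C_mul]

lemma hasse_neg (μ : σ →₀ ℕ) (P : MvPolynomial σ R) : hasse μ (-P) = - hasse μ P := by
  ext s
  rw [coeff_hasse, coeff_neg, coeff_neg, coeff_hasse]
  ring

lemma hasse_sub (μ : σ →₀ ℕ) (P Q : MvPolynomial σ R) :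
    hasse μ (P - Q) = hasse μ P - hasse μ Q := by
  rw [sub_eq_add_neg, hasse_add, hasse_neg, ← sub_eq_add_neg]

lemma hasse_sum {ι : Type*} (μ : σ →₀ ℕ) (S : Finset ι) (f : ι → MvPolynomial σ R) :
    hasse μ (∑ i ∈ S, f i) = ∑ i ∈ S, hasse μ (f i) := by
  classical
  induction S using Finset.induction_on with
  | empty => simp
  | insert a S ha ih => rw [Finset.sum_insert ha, Finset.sum_insert ha, hasse_add, ih]

/-- The Hasse derivative as a linear map. -/
noncomputable def hasseL (μ : σ →₀ ℕ) : MvPolynomial σ R →ₗ[R] MvPolynomial σ R where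
  toFun := hasse μ
  map_add' := hasse_add μ
  map_smul' c P := by simp only [RingHom.id_apply]; exact hasse_smul μ c P

@[simp] lemma hasseL_apply (μ : σ →₀ ℕ) (P : MvPolynomial σ R) : hasseL μ P = hasse μ P := rfl

@[simp] lemma hasse_zero_left (P : MvPolynomial σ R) : hasse 0 P = P := by
  ext s
  rw [coeff_hasse, mchoose_zero]
  simp

lemma hasse_monomial (μ s : σ →₀ ℕ) (c : R) :
    hasse μ (monomial s c) = monomial (s - μ) ((mchoose s μ : R) * c) := by
  classical
  ext t
  rw [coeff_hasse, coeff_monomial, coeff_monomial]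
  by_cases h : μ ≤ s
  · by_cases h1 : s = t + μ
    · subst h1
      rw [if_pos rfl, if_pos (add_tsub_cancel_right _ _)]
    · rw [if_neg h1, if_neg, mul_zero]
      rintro rfl
      exact h1 (tsub_add_cancel_of_le h).symm
  · have h1 : s ≠ t + μ := by
      rintro rfl
      exact h le_add_self
    rw [if_neg h1, mchoose_eq_zero h]
    simp

/-- `X ^ μ` times the Hasse derivative is a diagonal operator. -/
lemma coeff_monomial_mul_hasse (μ s : σ →₀ ℕ) (P : MvPolynomial σ R) :
    coeff s (monomial μ 1 * hasse μ P) = (mchoose s μ : R) * coeff s P := by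
  classical
  rw [coeff_monomial_mul']
  by_cases h : μ ≤ s
  · rw [if_pos h, one_mul, coeff_hasse, tsub_add_cancel_of_le h]
  · rw [if_neg h, mchoose_eq_zero h]
    simp

lemma hasse_map (f : R →+* S) (μ : σ →₀ ℕ) (P : MvPolynomial σ R) :
    hasse μ (map f P) = map f (hasse μ P) := by
  ext s
  rw [coeff_hasse, coeff_map, coeff_map, coeff_hasse, map_mul, map_natCast]

lemma hasse_shift (μ : σ →₀ ℕ) (y : σ → R) (P : MvPolynomial σ R) :
    hasse μ (shift y P) = shift y (hasse μ P) := by
  have h1 : ∀ Q : MvPolynomial σ (MvPolynomial σ R),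
      coeff μ (map ((bind₁ (fun i => X i + C (y i)) : MvPolynomial σ R →ₐ[R] MvPolynomial σ R) :
        MvPolynomial σ R →+* MvPolynomial σ R) Q) =
      bind₁ (fun i => X i + C (y i)) (coeff μ Q) := by
    intro Q
    rw [coeff_map]
    rfl
  unfold shift hasse
  rw [← h1]
  congr 1
  induction P using MvPolynomial.induction_on with
  | C a =>
    rw [bind₁_C_right, aeval_C]
    show _ = map _ (C (C a))
    rw [map_C]
    show C (C a) = C (bind₁ _ (C a))
    rw [bind₁_C_right]
  | add P Q hP hQ => simp only [map_add, hP, hQ]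
  | mul_X P j hP =>
    rw [map_mul, map_mul, hP, map_mul, map_mul]
    congr 1
    rw [bind₁_X_right, map_add, aeval_X, aeval_C, map_add, map_C, map_X]
    show _ = C (bind₁ _ (X j)) + X j
    rw [bind₁_X_right, C_add]
    show C (X j) + X j + C (C (y j)) = _
    ring

lemma Ord.hasse {w : σ → ℝ} {θ : ℝ} {P : MvPolynomial σ R} (h : Ord w θ P) (μ : σ →₀ ℕ) :
    Ord w (θ - wt w μ) (hasse μ P) := by
  intro s hs
  have h1 : s + μ ∈ P.support := by
    rw [mem_support_iff] at hs ⊢
    intro h2
    apply hs
    rw [coeff_hasse, h2, mul_zero]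
  have h2 := h _ h1
  rw [wt_add] at h2
  linarith

lemma mem_support_of_mem_support_hasse {μ s : σ →₀ ℕ} {P : MvPolynomial σ R}
    (hs : s ∈ (SST.hasse μ P).support) : s + μ ∈ P.support := by
  rw [mem_support_iff] at hs ⊢
  intro h2
  apply hs
  rw [coeff_hasse, h2, mul_zero]

lemma degreeOf_hasse_le (μ : σ →₀ ℕ) (P : MvPolynomial σ R) (i : σ) :
    degreeOf i (SST.hasse μ P) ≤ degreeOf i P := by
  classical
  rw [degreeOf_le_iff]
  intro s hs
  have h1 := mem_support_of_mem_support_hasse hs
  have h2 := (degreeOf_le_iff.1 (le_refl (degreeOf i P))) _ h1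
  simp only [Finsupp.coe_add, Pi.add_apply] at h2
  omega

lemma totalDegree_hasse_le (μ : σ →₀ ℕ) (P : MvPolynomial σ R) :
    totalDegree (SST.hasse μ P) ≤ totalDegree P := by
  classical
  refine Finset.sup_le fun s hs => ?_
  have h1 := mem_support_of_mem_support_hasse hs
  have h2 := le_totalDegree h1
  rw [Finsupp.sum_add_index' (fun _ => rfl) (fun _ _ _ => rfl)] at h2
  omega

/-- The l1 norm of a Hasse derivative. -/
lemma l1_hasse_le [Fintype σ] (μ : σ →₀ ℕ) (P : MvPolynomial σ ℝ) (D : ℕ)
    (hD : ∀ s ∈ P.support, ∑ i, s i ≤ D) : l1 (SST.hasse μ P) ≤ 2 ^ D * l1 P := by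
  classical
  have h1 : ∀ s ∈ (SST.hasse μ P).support,
      |coeff s (SST.hasse μ P)| ≤ 2 ^ D * |coeff (s + μ) P| := by
    intro s hs
    rw [coeff_hasse, abs_mul, Nat.abs_cast]
    refine mul_le_mul_of_nonneg_right ?_ (abs_nonneg _)
    calc (mchoose (s + μ) μ : ℝ) ≤ ((2 ^ (∑ i, (s + μ : σ →₀ ℕ) i) : ℕ) : ℝ) := by
          exact_mod_cast mchoose_le _ _
      _ ≤ ((2 ^ D : ℕ) : ℝ) := by
          have := hD _ (mem_support_of_mem_support_hasse hs)
          exact_mod_cast Nat.pow_le_pow_right (by norm_num) this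
      _ = 2 ^ D := by norm_cast
  unfold l1
  calc ∑ s ∈ (SST.hasse μ P).support, |coeff s (SST.hasse μ P)|
      ≤ ∑ s ∈ (SST.hasse μ P).support, 2 ^ D * |coeff (s + μ) P| := Finset.sum_le_sum h1
    _ = 2 ^ D * ∑ s ∈ ((SST.hasse μ P).support.map (addRightEmbedding μ)), |coeff s P| := by
        rw [Finset.sum_map, Finset.mul_sum]
        rfl
    _ ≤ 2 ^ D * ∑ s ∈ P.support, |coeff s P| := by
        refine mul_le_mul_of_nonneg_left ?_ (by positivity)
        refine Finset.sum_le_sum_of_subset_of_nonneg ?_ fun _ _ _ => abs_nonneg _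
        intro s hs
        rw [Finset.mem_map] at hs
        obtain ⟨a, ha, rfl⟩ := hs
        exact mem_support_of_mem_support_hasse ha

lemma l1Z_hasse_le [Fintype σ] (μ : σ →₀ ℕ) (P : MvPolynomial σ ℤ) (D : ℕ)
    (hD : ∀ s ∈ P.support, ∑ i, s i ≤ D) : l1Z (SST.hasse μ P) ≤ 2 ^ D * l1Z P := by
  classical
  unfold l1Z
  rw [← hasse_map]
  exact l1_hasse_le _ _ _ fun s hs => hD s (support_map_subset _ _ hs)

/-- The bound with the partial degrees. -/
lemma l1Z_hasse_le' [Fintype σ] (μ : σ →₀ ℕ) (P : MvPolynomial σ ℤ) (r : σ → ℕ)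
    (hr : ∀ i, P.degreeOf i ≤ r i) : l1Z (SST.hasse μ P) ≤ 2 ^ (∑ i, r i) * l1Z P := by
  classical
  refine l1Z_hasse_le _ _ _ fun s hs => Finset.sum_le_sum fun i _ => ?_
  exact (degreeOf_le_iff.1 (hr i)) s hs

/-- The Leibniz rule. -/
lemma hasse_mul [DecidableEq σ] (μ : σ →₀ ℕ) (P Q : MvPolynomial σ R) :
    hasse μ (P * Q) = ∑ p ∈ Finset.HasAntidiagonal.antidiagonal μ, hasse p.1 P * hasse p.2 Q := by
  unfold hasse
  rw [map_mul, coeff_mul]

lemma mchoose_mapDomain {f : σ → τ} (hf : Function.Injective f) (s μ : σ →₀ ℕ) :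
    mchoose (s.mapDomain f) (μ.mapDomain f) = mchoose s μ := by
  classical
  unfold mchoose
  rw [Finsupp.prod_mapDomain_index_inj hf]
  refine Finsupp.prod_congr fun i _ => ?_
  rw [Finsupp.mapDomain_apply hf]

lemma hasse_rename {f : σ → τ} (hf : Function.Injective f) (μ : σ →₀ ℕ) (P : MvPolynomial σ R) :
    hasse (μ.mapDomain f) (rename f P) = rename f (hasse μ P) := by
  classical
  induction P using MvPolynomial.induction_on' with
  | monomial s c =>
    rw [rename_monomial, hasse_monomial, hasse_monomial, rename_monomial, mchoose_mapDomain hf]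
    by_cases h : μ ≤ s
    · congr 1
      obtain ⟨t, rfl⟩ := exists_add_of_le h
      rw [Finsupp.mapDomain_add, add_tsub_cancel_left, add_tsub_cancel_left]
    · rw [mchoose_eq_zero h]
      simp
  | add P Q hP hQ => rw [map_add, hasse_add, hP, hQ, hasse_add, map_add]

/-- A Hasse derivative in a variable that does not occur is zero. -/
lemma hasse_rename_eq_zero {f : σ → τ} {μ : τ →₀ ℕ} (P : MvPolynomial σ R) {j : τ}
    (hj : j ∉ Set.range f) (hμ : μ j ≠ 0) : hasse μ (rename f P) = 0 := by
  classical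
  ext t
  rw [coeff_hasse, coeff_zero]
  have h1 : coeff (t + μ) (rename f P) = 0 := by
    by_contra h
    obtain ⟨u, hu, _⟩ := coeff_rename_ne_zero f P _ h
    have h2 := DFunLike.congr_fun hu j
    rw [Finsupp.mapDomain_of_notMem_range _ _ hj] at h2
    simp only [Finsupp.coe_add, Pi.add_apply] at h2
    omega
  rw [h1, mul_zero]

/-! ### Hasse derivatives and the splitting of the variable `0` -/

lemma cons_add_cons {n : ℕ} (a b : ℕ) (s t : Fin n →₀ ℕ) :
    Finsupp.cons a s + Finsupp.cons b t = Finsupp.cons (a + b) (s + t) := by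
  ext i
  refine Fin.cases ?_ (fun j => ?_) i
  · simp
  · simp

lemma mchoose_cons {n : ℕ} (a l : ℕ) (s μ : Fin n →₀ ℕ) :
    mchoose (Finsupp.cons a s) (Finsupp.cons l μ) = a.choose l * mchoose s μ := by
  rw [mchoose_eq_prod_univ, mchoose_eq_prod_univ, Fin.prod_univ_succ]
  simp

/-- The coefficients with respect to the variable `0` of a Hasse derivative. -/
lemma coeff_finSuccEquiv_hasse {n : ℕ} (l : ℕ) (μ : Fin n →₀ ℕ) (f : MvPolynomial (Fin (n + 1)) R)
    (i : ℕ) : (finSuccEquiv R n (hasse (Finsupp.cons l μ) f)).coeff i =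
      ((i + l).choose l : MvPolynomial (Fin n) R) *
        hasse μ ((finSuccEquiv R n f).coeff (i + l)) := by
  ext s
  rw [finSuccEquiv_coeff_coeff, coeff_hasse, cons_add_cons, mchoose_cons]
  have h : ((i + l).choose l : MvPolynomial (Fin n) R) = C (((i + l).choose l : ℕ) : R) := by
    rw [map_natCast]
  rw [h, coeff_C_mul, coeff_hasse, finSuccEquiv_coeff_coeff]
  push_cast
  ring

/-- The Hasse derivative in the variable `0` only. -/
lemma finSuccEquiv_hasse_cons_zero {n : ℕ} (l : ℕ) (f : MvPolynomial (Fin (n + 1)) R) :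
    finSuccEquiv R n (hasse (Finsupp.cons l 0) f) =
      Polynomial.hasseDeriv l (finSuccEquiv R n f) := by
  ext i : 1
  rw [coeff_finSuccEquiv_hasse, Polynomial.hasseDeriv_coeff, hasse_zero_left]

/-- Composition of Hasse derivatives in disjoint sets of variables. -/
lemma hasse_cons_zero_cons_zero {n : ℕ} (l : ℕ) (μ : Fin n →₀ ℕ)
    (f : MvPolynomial (Fin (n + 1)) R) :
    hasse (Finsupp.cons 0 μ) (hasse (Finsupp.cons l 0) f) = hasse (Finsupp.cons l μ) f := by
  apply (finSuccEquiv R n).injective
  ext i : 1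
  rw [coeff_finSuccEquiv_hasse, coeff_finSuccEquiv_hasse, coeff_finSuccEquiv_hasse,
    hasse_zero_left]
  have h : ((i + 0 + l).choose l : MvPolynomial (Fin n) R) = C (((i + l).choose l : ℕ) : R) := by
    rw [map_natCast, add_zero]
  rw [h, hasse_C_mul, map_natCast]
  simp

/-- Hasse derivatives of a product of two polynomials in disjoint variables. -/
lemma hasse_cons_mul {n : ℕ} (l : ℕ) (μ : Fin n →₀ ℕ) (φ : MvPolynomial (Fin n) R)
    (ψ : MvPolynomial (Fin 1) R) :
    hasse (Finsupp.cons l μ) (rename Fin.succ φ * rename (fun _ => (0 : Fin (n + 1))) ψ) =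
      rename Fin.succ (hasse μ φ) *
        rename (fun _ => (0 : Fin (n + 1))) (hasse (Finsupp.single 0 l) ψ) := by
  classical
  have hinj : Function.Injective (fun _ : Fin 1 => (0 : Fin (n + 1))) := fun a b _ =>
    Subsingleton.elim _ _
  rw [hasse_mul, Finset.sum_eq_single (μ.mapDomain Fin.succ,
    (Finsupp.single (0 : Fin 1) l).mapDomain (fun _ => (0 : Fin (n + 1))))]
  · rw [hasse_rename (Fin.succ_injective n), hasse_rename hinj]
  · rintro ⟨a, b⟩ hp hne
    rw [Finset.HasAntidiagonal.mem_antidiagonal] at hp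
    simp only at hp ⊢
    by_cases ha : a 0 = 0
    · by_cases hb : ∃ j : Fin n, b j.succ ≠ 0
      · obtain ⟨j, hj⟩ := hb
        rw [hasse_rename_eq_zero ψ (j := j.succ) _ hj, mul_zero]
        rintro ⟨x, hx⟩
        exact absurd hx.symm (Fin.succ_ne_zero j)
      · push Not at hb
        exfalso
        apply hne
        have h1 : ∀ j : Fin n, a j.succ = μ j := by
          intro j
          have := DFunLike.congr_fun hp j.succ
          simp only [Finsupp.coe_add, Pi.add_apply, hb j, add_zero, Finsupp.cons_succ] at this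
          exact this
        have h2 : b 0 = l := by
          have := DFunLike.congr_fun hp 0
          simp only [Finsupp.coe_add, Pi.add_apply, ha, zero_add, Finsupp.cons_zero] at this
          exact this
        refine Prod.ext ?_ ?_
        · ext i
          refine Fin.cases ?_ (fun j => ?_) i
          · simp only [ha]
            rw [Finsupp.mapDomain_of_notMem_range]
            rintro ⟨x, hx⟩
            exact absurd hx (Fin.succ_ne_zero x)
          · simp only [h1]
            rw [Finsupp.mapDomain_apply (Fin.succ_injective n)]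
        · ext i
          rw [Finsupp.mapDomain_single]
          refine Fin.cases ?_ (fun j => ?_) i
          · simp [h2]
          · simp [hb j]
    · rw [hasse_rename_eq_zero φ (j := 0) _ ha, zero_mul]
      rintro ⟨x, hx⟩
      exact absurd hx (Fin.succ_ne_zero x)
  · intro h
    exfalso
    apply h
    rw [Finset.HasAntidiagonal.mem_antidiagonal]
    ext i
    refine Fin.cases ?_ (fun j => ?_) i
    · rw [Finsupp.add_apply, Finsupp.mapDomain_single, Finsupp.mapDomain_of_notMem_range]
      · simp
      · rintro ⟨x, hx⟩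
        exact absurd hx (Fin.succ_ne_zero x)
    · rw [Finsupp.add_apply, Finsupp.mapDomain_single,
        Finsupp.mapDomain_apply (Fin.succ_injective n)]
      simp

/-- Compatibility of the Hasse derivatives of `MvPolynomial` and `Polynomial`. -/
lemma uniqueAlgEquiv_hasse {σ : Type*} [Unique σ] (l : ℕ) (P : MvPolynomial σ R) :
    uniqueAlgEquiv R σ (hasse (Finsupp.single default l) P) =
      Polynomial.hasseDeriv l (uniqueAlgEquiv R σ P) := by
  induction P using MvPolynomial.induction_on' with
  | monomial s c =>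
    rw [hasse_monomial, uniqueAlgEquiv_monomial, uniqueAlgEquiv_monomial,
      Polynomial.hasseDeriv_monomial]
    have h1 : mchoose s (Finsupp.single default l) = (s default).choose l := by
      unfold mchoose
      exact Finsupp.prod_single_index (h := fun i k => (s i).choose k) (Nat.choose_zero_right _)
    rw [h1, Finsupp.tsub_apply, Finsupp.single_eq_same]
  | add P Q hP hQ => rw [hasse_add, map_add, hP, hQ, map_add, map_add]

end SST
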